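import Mathlib.Algebra.BigOperators.Fin
import Pool.Agent.H79.LF.TH362_TF_Basic
import Pool.Agent.H79.LF.TH362_TF_Ext
import Pool.Agent.H79.LF.TH362_TF_Str

/-!
# The assembly, both ends of the lifted pair in one class
(job T16-ASM2 of helper362, written by helper643)
-/

set_option autoImplicit false
set_option linter.unusedSectionVars false

namespace Pool.Agent.TH362.TF

open Finset

variable {V E : Type} [Fintype V] [DecidableEq V] [DecidableEq E]

namespace Asm2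

theorem padj_irrefl : ∀ k, padj k k = false := by decide

theorem padj_symm : ∀ k l, padj k l = true → padj l k = true := by decide

theorem padj_nb : ∀ k l, padj k l = true → ∃ j, l = nb k j := by decide

theorem padj_nb' : ∀ k j, padj k (nb k j) = true := by decide

theorem nb_inj : ∀ k i j, nb k i = nb k j → i = j := by decide

theorem nb_ne : ∀ k j, nb k j ≠ k := by decide

theorem g_e {s t : E → V} {e : E} {w a v : V} (he : Ends s t w a e) (hv : v ≠ a) (c : F) :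
    ((if s e = v then c else 0) + (if t e = v then c else 0)) = if w = v then c else 0 := by
  rcases he with ⟨h1, h2⟩ | ⟨h1, h2⟩
  · rw [h1, h2, if_neg (Ne.symm hv), add_zero]
  · rw [h1, h2, if_neg (Ne.symm hv), zero_add]

theorem cons_change {s t : E → V} {S : Finset E} {e f : E} {w a b v : V} (eS : e ∈ S)
    (fS : f ∈ S) (ef : e ≠ f) (he : Ends s t w a e) (hf : Ends s t w b f) (ha : v ≠ a)
    (hb : v ≠ b) {φ φ' : E → F} (h : ∀ x ∈ S, x ≠ e → x ≠ f → φ' x = φ x)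
    (hs : φ' e + φ' f = φ e + φ f) (hc : Cons s t S φ v) : Cons s t S φ' v := by
  unfold Cons at hc ⊢
  have key : ∀ φ : E → F, ∑ x ∈ S, ((if s x = v then φ x else 0) + (if t x = v then φ x else 0)) =
      (∑ x ∈ (S.erase e).erase f, ((if s x = v then φ x else 0) +
        (if t x = v then φ x else 0))) + (if w = v then φ e + φ f else 0) := by
    intro φ
    rw [← Finset.sum_erase_add S _ eS,
      ← Finset.sum_erase_add (S.erase e) _ (mem_erase.2 ⟨ef.symm, fS⟩), g_e he ha, g_e hf hb,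
      add_assoc]
    congr 1
    split_ifs
    · rw [add_comm]
    · rw [add_zero]
  rw [key φ] at hc
  rw [key φ', hs]
  refine Eq.trans ?_ hc
  congr 1
  refine sum_congr rfl fun x hx => ?_
  rw [mem_erase, mem_erase] at hx
  rw [h x hx.2.2 hx.2.1 hx.1]

theorem cons_map {s t : E → V} {S : Finset E} {φ : E → F} {v : V} (σ : F →+ F)
    (h : Cons s t S φ v) : Cons s t S (fun x => σ (φ x)) v := by
  unfold Cons at h ⊢
  have h1 := congrArg σ h
  rw [map_sum, map_zero] at h1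
  refine Eq.trans ?_ h1
  refine sum_congr rfl fun x _ => ?_
  rw [map_add]
  congr 1 <;> split_ifs <;> simp

theorem leave {s t : E → V} {S : Finset E} {e f : E} {w a b : V} {κ : V → Fin 10}
    {ρ : Fin 10 → Fin 10 → E} (q : Sit s t S e f w a b κ ρ) {k : Fin 10} {x : E} (hx : x ∈ S)
    (hxe : x ≠ e) (hxf : x ≠ f) (h : ¬ (κ (s x) = k ↔ κ (t x) = k)) :
    ∃ j, x = ρ k (nb k j) ∧ ((κ (s x) = k ∧ κ (t x) = nb k j) ∨
      (κ (s x) = nb k j ∧ κ (t x) = k)) := by
  by_cases h1 : κ (s x) = k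
  · have h2 : κ (t x) ≠ k := fun h2 => h ⟨fun _ => h2, fun _ => h1⟩
    obtain ⟨g1, _, g3⟩ := q.only x hx hxe hxf k (κ (t x)) (Ne.symm h2) (Or.inl ⟨h1, rfl⟩)
    obtain ⟨j, hj⟩ := padj_nb _ _ g1
    rw [hj] at g3
    exact ⟨j, g3, Or.inl ⟨h1, hj⟩⟩
  · have h2 : κ (t x) = k := by
      by_contra h2
      exact h ⟨fun h => absurd h h1, fun h => absurd h h2⟩
    obtain ⟨g1, _, g3⟩ := q.only x hx hxe hxf k (κ (s x)) (Ne.symm h1) (Or.inr ⟨rfl, h2⟩)
    obtain ⟨j, hj⟩ := padj_nb _ _ g1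
    rw [hj] at g3
    exact ⟨j, g3, Or.inr ⟨hj, h2⟩⟩

end Asm2

open Asm2

theorem MinC.asm2 {s t : E → V} {S : Finset E} (h : MinC s t S) {e f : E} {w a b : V}
    {κ : V → Fin 10} {ρ : Fin 10 → Fin 10 → E} (q : Sit s t S e f w a b κ ρ)
    (hab : κ a = κ b) (pW pA : Fin 4) (y : F) (Ψ : Fin 10 → Fin 10 → F)
    (o : Out2 (κ w) (κ a) pW pA y Ψ) (φW φA : E → F) (iW : Inn s t S κ (κ w) φW)
    (iA : Inn s t S κ (κ a) φA)
    (hW : Pat pW (φW e + φW f) (φW (ρ (κ w) (nb (κ w) 0))) (φW (ρ (κ w) (nb (κ w) 1)))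
      (φW (ρ (κ w) (nb (κ w) 2))))
    (hA : Pat pA (φA e + φA f) (φA (ρ (κ a) (nb (κ a) 0))) (φA (ρ (κ a) (nb (κ a) 1)))
      (φA (ρ (κ a) (nb (κ a) 2)))) (hW0 : φW e + φW f ≠ 0) (hA0 : φA e + φA f ≠ 0) :
    False := by
  have hWA : κ w ≠ κ a := q.wa
  -- the edges of the quotient
  have hmem : ∀ k l, padj k l = true → ρ k l ∈ S ∧ ρ k l ≠ e ∧ ρ k l ≠ f ∧ Joins κ s t k l (ρ k l) := by
    intro k l hkl
    refine q.mem k l hkl ?_
    rw [← hab]
    rintro (⟨h1, h2⟩ | ⟨h1, h2⟩) <;>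
    · rw [h1, h2, padj_irrefl] at hkl
      exact Bool.false_ne_true hkl
  have hnz : ∀ (k : Fin 10) (φ : E → F), Inn s t S κ k φ → ∀ j, φ (ρ k (nb k j)) ≠ 0 := by
    intro k φ hφ j
    obtain ⟨g1, -, -, g4⟩ := hmem k (nb k j) (padj_nb' k j)
    refine hφ.1 _ g1 ?_
    rcases g4 with g4 | g4
    · exact Or.inl g4.1
    · exact Or.inr g4.2
  have heA : κ (s e) = κ a ∨ κ (t e) = κ a := by
    rcases q.he with g | g
    · right; rw [g.2]
    · left; rw [g.1]
  have hfA : κ (s f) = κ a ∨ κ (t f) = κ a := by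
    rcases q.hf with g | g
    · right; rw [g.2, hab]
    · left; rw [g.1, hab]
  have heS : ∀ k, k ≠ κ w → k ≠ κ a → κ (s e) ≠ k ∧ κ (t e) ≠ k := by
    intro k h1 h2
    rcases q.he with g | g
    · rw [g.1, g.2]; exact ⟨Ne.symm h1, Ne.symm h2⟩
    · rw [g.1, g.2]; exact ⟨Ne.symm h2, Ne.symm h1⟩
  have hfS : ∀ k, k ≠ κ w → k ≠ κ a → κ (s f) ≠ k ∧ κ (t f) ≠ k := by
    intro k h1 h2
    rcases q.hf with g | g
    · rw [g.1, g.2, ← hab]; exact ⟨Ne.symm h1, Ne.symm h2⟩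
    · rw [g.1, g.2, ← hab]; exact ⟨Ne.symm h2, Ne.symm h1⟩
  obtain ⟨σA, sA0, sAy, sA1, sA2, sA3⟩ := pat_match pA _ _ _ _ _ _ _ _ hA o.pA hA0
    (hnz _ _ iA 0) (hnz _ _ iA 1) (hnz _ _ iA 2) o.y0 (o.nz _ _ (padj_nb' _ 0))
    (o.nz _ _ (padj_nb' _ 1)) (o.nz _ _ (padj_nb' _ 2))
  obtain ⟨σW, sW0, sWy, sW1, sW2, sW3⟩ := pat_match pW _ _ _ _ _ _ _ _ hW o.pW hW0
    (hnz _ _ iW 0) (hnz _ _ iW 1) (hnz _ _ iW 2) o.y0 (o.nz _ _ (padj_nb' _ 0))
    (o.nz _ _ (padj_nb' _ 1)) (o.nz _ _ (padj_nb' _ 2))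
  have sA : ∀ j, σA (φA (ρ (κ a) (nb (κ a) j))) = Ψ (κ a) (nb (κ a) j) := by
    intro j
    fin_cases j
    · exact sA1
    · exact sA2
    · exact sA3
  have sW : ∀ j, σW (φW (ρ (κ w) (nb (κ w) j))) = Ψ (κ w) (nb (κ w) j) := by
    intro j
    fin_cases j
    · exact sW1
    · exact sW2
    · exact sW3
  obtain ⟨ψ, hψ⟩ : ∃ ψ : E → F, ψ = fun x => if x = e then σA (φA e) else
    if x = f then σA (φA f) else Ψ (κ (s x)) (κ (t x)) := ⟨_, rfl⟩
  have ψe : ψ e = σA (φA e) := by rw [hψ]; exact if_pos rfl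
  have ψf : ψ f = σA (φA f) := by
    rw [hψ]
    show (if f = e then _ else _) = _
    rw [if_neg (Ne.symm q.ef), if_pos rfl]
  have ψx : ∀ x, x ≠ e → x ≠ f → ψ x = Ψ (κ (s x)) (κ (t x)) := by
    intro x h1 h2
    rw [hψ]
    show (if x = e then _ else _) = _
    rw [if_neg h1, if_neg h2]
  have ψy : ψ e + ψ f = y := by rw [ψe, ψf, ← map_add]; exact sAy
  -- value on an edge leaving a class
  have hval : ∀ {k : Fin 10} {x : E}, x ∈ S → x ≠ e → x ≠ f → ¬ (κ (s x) = k ↔ κ (t x) = k) →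
      ∃ j, x = ρ k (nb k j) ∧ ψ x = Ψ k (nb k j) := by
    intro k x hx hxe hxf hk
    obtain ⟨j, hj, hj'⟩ := leave q hx hxe hxf hk
    refine ⟨j, hj, ?_⟩
    rw [ψx x hxe hxf]
    rcases hj' with ⟨g1, g2⟩ | ⟨g1, g2⟩
    · rw [g1, g2]
    · rw [g1, g2, o.symm]
  have h1 : ∀ x ∈ S, κ (s x) ≠ κ (t x) → ψ x ≠ 0 := by
    intro x hx hne
    by_cases hxe : x = e
    · rw [hxe, ψe]
      exact sA0 _ (iA.1 e q.eS heA)
    by_cases hxf : x = f
    · rw [hxf, ψf]
      exact sA0 _ (iA.1 f q.fS hfA)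
    rw [ψx x hxe hxf]
    exact o.nz _ _ (q.only x hx hxe hxf _ _ hne (Or.inl ⟨rfl, rfl⟩)).1
  refine h.nz (glue κ ψ h1 fun k => ?_)
  by_cases hkA : k = κ a
  · subst hkA
    refine ⟨fun x => σA (φA x), ?_, ?_, ?_⟩
    · intro x hx g1 _
      exact sA0 _ (iA.1 x hx (Or.inl g1))
    · intro x hx g
      by_cases hxe : x = e
      · rw [hxe, ψe]
      by_cases hxf : x = f
      · rw [hxf, ψf]
      obtain ⟨j, hj, hj'⟩ := hval hx hxe hxf g
      rw [hj', hj]
      exact sA j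
    · intro v hv
      exact cons_map σA (iA.2 v hv)
  by_cases hkW : k = κ w
  · subst hkW
    refine ⟨fun x => if x = e ∨ x = f then ψ x else σW (φW x), ?_, ?_, ?_⟩
    · intro x hx g1 g2
      have hx' : ¬ (x = e ∨ x = f) := by
        rintro (hxe | hxf)
        · rw [hxe] at g1 g2
          rcases heA with g | g
          · exact hWA (g1.symm.trans g)
          · exact hWA (g2.symm.trans g)
        · rw [hxf] at g1 g2
          rcases hfA with g | g
          · exact hWA (g1.symm.trans g)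
          · exact hWA (g2.symm.trans g)
      show (if x = e ∨ x = f then ψ x else σW (φW x)) ≠ 0
      rw [if_neg hx']
      exact sW0 _ (iW.1 x hx (Or.inl g1))
    · intro x hx g
      show (if x = e ∨ x = f then ψ x else σW (φW x)) = ψ x
      by_cases hx' : x = e ∨ x = f
      · rw [if_pos hx']
      · rw [if_neg hx']
        obtain ⟨j, hj, hj'⟩ := hval hx (fun g => hx' (Or.inl g)) (fun g => hx' (Or.inr g)) g
        rw [hj', hj]
        exact sW j
    · intro v hv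
      have hva : v ≠ a := by rintro rfl; exact hWA hv.symm
      have hvb : v ≠ b := by rintro rfl; exact q.wb hv.symm
      refine cons_change q.eS q.fS q.ef q.he q.hf hva hvb ?_ ?_ (cons_map σW (iW.2 v hv))
      · intro x _ hxe hxf
        show (if x = e ∨ x = f then ψ x else σW (φW x)) = _
        rw [if_neg (by rintro (g | g); exacts [hxe g, hxf g])]
      · show (if e = e ∨ e = f then ψ e else σW (φW e)) + (if f = e ∨ f = f then ψ f else σW (φW f))
          = _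
        rw [if_pos (Or.inl rfl), if_pos (Or.inr rfl), ψy, ← map_add]
        exact sWy.symm
  -- the other classes
  have hcut : cut s t S (fun v => decide (κ v = k)) =
      (univ : Finset (Fin 3)).image (fun j => ρ k (nb k j)) := by
    ext x
    unfold cut
    rw [mem_filter, mem_image]
    constructor
    · rintro ⟨hx, hx'⟩
      have hx2 : ¬ (κ (s x) = k ↔ κ (t x) = k) := by
        intro g
        apply hx'
        simp only [g]
      have hxe : x ≠ e := by
        rintro rfl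
        exact hx2 ⟨fun g => absurd g (heS k hkW hkA).1, fun g => absurd g (heS k hkW hkA).2⟩
      have hxf : x ≠ f := by
        rintro rfl
        exact hx2 ⟨fun g => absurd g (hfS k hkW hkA).1, fun g => absurd g (hfS k hkW hkA).2⟩
      obtain ⟨j, hj, -⟩ := hval hx hxe hxf hx2
      exact ⟨j, mem_univ _, hj.symm⟩
    · rintro ⟨j, -, rfl⟩
      obtain ⟨g1, -, -, g4⟩ := hmem k (nb k j) (padj_nb' k j)
      refine ⟨g1, ?_⟩
      have hne := nb_ne k j
      rcases g4 with ⟨g5, g6⟩ | ⟨g5, g6⟩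
      · simp [g5, g6, hne]
      · simp [g5, g6, hne]
  have hinj : Function.Injective (fun j => ρ k (nb k j)) := by
    intro i j hij
    obtain ⟨-, -, -, g4⟩ := hmem k (nb k i) (padj_nb' k i)
    obtain ⟨-, -, -, g4'⟩ := hmem k (nb k j) (padj_nb' k j)
    have hij' : ρ k (nb k i) = ρ k (nb k j) := hij
    rw [← hij'] at g4'
    have hni := nb_ne k i
    have hnj := nb_ne k j
    apply nb_inj k
    rcases g4 with ⟨g5, g6⟩ | ⟨g5, g6⟩ <;> rcases g4' with ⟨g7, g8⟩ | ⟨g7, g8⟩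
    · rw [← g6, ← g8]
    · exact absurd (g7.symm.trans g5) hnj
    · exact absurd (g5.symm.trans g7) hni
    · rw [← g5, ← g7]
  have hψρ : ∀ j, ψ (ρ k (nb k j)) = Ψ k (nb k j) := by
    intro j
    obtain ⟨-, g2, g3, g4⟩ := hmem k (nb k j) (padj_nb' k j)
    rw [ψx _ g2 g3]
    rcases g4 with ⟨g5, g6⟩ | ⟨g5, g6⟩
    · rw [g5, g6]
    · rw [g5, g6, o.symm]
  refine h.regExt κ ψ k ?_ ?_ ?_ ((q.odd_le h.odd16 k).trans (by norm_num)) ?_
  · rw [hcut, card_image_of_injective _ hinj]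
    rfl
  · intro x hx
    rw [hcut, mem_image] at hx
    obtain ⟨j, -, rfl⟩ := hx
    rw [hψρ]
    exact o.nz _ _ (padj_nb' k j)
  · rw [hcut, sum_image (fun i _ j _ hij => hinj hij), Fin.sum_univ_three, hψρ, hψρ, hψρ]
    exact o.cons k hkW hkA
  · exact ⟨e, q.eS, heS k hkW hkA⟩

end Pool.Agent.TH362.TF
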