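import Pool.Agent.H79.LF.TH362_TF_Nxt
import Mathlib.Dynamics.PeriodicPts.Defs
import Mathlib.Dynamics.PeriodicPts.Lemmas
import Mathlib.Data.Fintype.Perm
import Mathlib.GroupTheory.Perm.Basic

/-!
Reduction of the cubic graphs with at most sixteen vertices to seven standard cycle types.
-/

set_option autoImplicit false

namespace Pool.Agent.TH362.TF

open Finset

namespace FinA

theorem mp_pos {n : ℕ} (p : Equiv.Perm (Fin n)) (v : Fin n) : 0 < Function.minimalPeriod p v := by
  apply Function.minimalPeriod_pos_of_mem_periodicPts
  exact p.injective.mem_periodicPts v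

theorem cyc {n : ℕ} (p : Equiv.Perm (Fin n)) : ∀ (N : ℕ) (T : Finset (Fin n)), T.card = N →
    (∀ x ∈ T, p x ∈ T) → ∃ (l : List ℕ) (φ : Fin n → ℕ), l.sum = T.card ∧
      Set.InjOn φ T ∧ (∀ v ∈ T, φ v < l.sum) ∧ (∀ v ∈ T, φ (p v) = nxt l (φ v)) ∧
      l.Pairwise (· ≤ ·) ∧ ∀ a ∈ l, ∃ v ∈ T, Function.minimalPeriod p v = a := by
  classical
  intro N
  induction N using Nat.strong_induction_on with
  | _ N ih =>
    intro T hT hcl
    rcases T.eq_empty_or_nonempty with rfl | hne
    · exact ⟨[], fun _ => 0, by simp, by simp, by simp, by simp, by simp, by simp⟩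
    · obtain ⟨v, hv, hmin⟩ := T.exists_min_image (fun v => Function.minimalPeriod p v) hne
      set a := Function.minimalPeriod p v with ha
      have ha0 : 0 < a := mp_pos p v
      have hinj : Set.InjOn (fun i => p^[i] v) (Set.Iio a) := by
        intro i hi j hj hij
        exact Function.iterate_injOn_Iio_minimalPeriod hi hj hij
      set C : Finset (Fin n) := (range a).image (fun i => p^[i] v) with hC
      have hCcard : C.card = a := by
        rw [hC, Finset.card_image_of_injOn]
        · simp
        · intro i hi j hj hij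
          exact hinj (by simpa using hi) (by simpa using hj) hij
      have hit : ∀ i, p^[i] v ∈ T := by
        intro i
        induction i with
        | zero => simpa using hv
        | succ i ihi =>
          rw [Function.iterate_succ_apply']
          exact hcl _ ihi
      have hCT : C ⊆ T := by
        intro x hx
        rw [hC, Finset.mem_image] at hx
        obtain ⟨i, _, rfl⟩ := hx
        exact hit i
      have hCp : ∀ x, p x ∈ C → x ∈ C := by
        intro x hx
        rw [hC, Finset.mem_image] at hx ⊢
        obtain ⟨i, hi, hix⟩ := hx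
        simp only [Finset.mem_range] at hi
        rcases Nat.eq_zero_or_pos i with h0 | h0
        · refine ⟨a - 1, by simp; omega, ?_⟩
          apply p.injective
          rw [← hix, h0]
          have h1 : p (p^[a - 1] v) = p^[a] v := by
            rw [← Function.iterate_succ_apply' (⇑p)]
            congr 1
            omega
          simp only [Function.iterate_zero, id]
          rw [h1]
          exact Function.iterate_minimalPeriod
        · refine ⟨i - 1, by simp; omega, ?_⟩
          apply p.injective
          rw [← hix]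
          have h1 : p (p^[i - 1] v) = p^[i] v := by
            rw [← Function.iterate_succ_apply' (⇑p)]
            congr 1
            omega
          exact h1
      have hT' : ∀ x ∈ T \ C, p x ∈ T \ C := by
        intro x hx
        rw [Finset.mem_sdiff] at hx ⊢
        exact ⟨hcl x hx.1, fun h => hx.2 (hCp x h)⟩
      have hcard : (T \ C).card = T.card - a := by
        rw [Finset.card_sdiff_of_subset hCT, hCcard]
      have haT : a ≤ T.card := hCcard ▸ Finset.card_le_card hCT
      obtain ⟨l, φ', h1, h2, h3, h4, h5, h6⟩ := ih (T.card - a) (by omega) (T \ C) hcard hT'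
      have hidx : ∀ x : Fin n, ∃ i, x ∈ C → i < a ∧ p^[i] v = x := by
        intro x
        by_cases hx : x ∈ C
        · rw [hC, Finset.mem_image] at hx
          obtain ⟨i, hi, hix⟩ := hx
          exact ⟨i, fun _ => ⟨by simpa using hi, hix⟩⟩
        · exact ⟨0, fun h => absurd h hx⟩
      choose idx hidx using hidx
      refine ⟨a :: l, fun x => if x ∈ C then idx x else a + φ' x, ?_, ?_, ?_, ?_, ?_, ?_⟩
      · rw [List.sum_cons, h1, hcard]; omega
      · intro x hx y hy hxy
        simp only at hxy
        by_cases hxC : x ∈ C <;> by_cases hyC : y ∈ C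
        · rw [if_pos hxC, if_pos hyC] at hxy
          rw [← (hidx x hxC).2, ← (hidx y hyC).2, hxy]
        · rw [if_pos hxC, if_neg hyC] at hxy
          have := (hidx x hxC).1
          omega
        · rw [if_neg hxC, if_pos hyC] at hxy
          have := (hidx y hyC).1
          omega
        · rw [if_neg hxC, if_neg hyC] at hxy
          apply h2
          · simp only [Finset.coe_sdiff, Set.mem_sdiff]; exact ⟨hx, hxC⟩
          · simp only [Finset.coe_sdiff, Set.mem_sdiff]; exact ⟨hy, hyC⟩
          · omega
      · intro x hx
        simp only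
        by_cases hxC : x ∈ C
        · rw [if_pos hxC, List.sum_cons]
          have := (hidx x hxC).1
          omega
        · rw [if_neg hxC, List.sum_cons]
          have := h3 x (Finset.mem_sdiff.2 ⟨hx, hxC⟩)
          omega
      · intro x hx
        simp only
        by_cases hxC : x ∈ C
        · have hpx : p x ∈ C := by
            rw [hC, Finset.mem_image]
            refine ⟨(idx x + 1) % a, by simp [Nat.mod_lt _ ha0], ?_⟩
            rw [ha, Function.iterate_mod_minimalPeriod_eq, Function.iterate_succ_apply',
              (hidx x hxC).2]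
          rw [if_pos hpx, if_pos hxC]
          simp only [nxt]
          rw [if_pos (hidx x hxC).1]
          apply hinj
          · exact (hidx _ hpx).1
          · exact Nat.mod_lt _ ha0
          · simp only
            rw [(hidx _ hpx).2, ha, Function.iterate_mod_minimalPeriod_eq,
              Function.iterate_succ_apply', (hidx x hxC).2]
        · have hpx : p x ∉ C := fun h => hxC (hCp x h)
          rw [if_neg hpx, if_neg hxC]
          simp only [nxt]
          rw [if_neg (by omega), h4 x (Finset.mem_sdiff.2 ⟨hx, hxC⟩)]
          congr 2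
          omega
      · rw [List.pairwise_cons]
        refine ⟨fun b hb => ?_, h5⟩
        obtain ⟨w, hw, hwb⟩ := h6 b hb
        rw [← hwb]
        exact hmin w (Finset.mem_sdiff.1 hw).1
      · intro b hb
        rcases List.mem_cons.1 hb with rfl | hb
        · exact ⟨v, hv, rfl⟩
        · obtain ⟨w, hw, hwb⟩ := h6 b hb
          exact ⟨w, (Finset.mem_sdiff.1 hw).1, hwb⟩

theorem nxt_parity : ∀ (l : List ℕ), (∀ a ∈ l, Even a) → ∀ v, v < l.sum →
    (Even (nxt l v) ↔ ¬ Even v) := by
  intro l
  induction l with
  | nil => intro _ v hv; simp at hv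
  | cons a l ih =>
    intro hl v hv
    have ha : Even a := hl a (by simp)
    simp only [nxt]
    split_ifs with h
    · by_cases h1 : v + 1 = a
      · rw [h1, Nat.mod_self]
        have h2 : ¬ Even v := by
          rw [← h1] at ha
          intro hev
          exact (Nat.even_add_one.1 ha) hev
        simp [h2]
      · rw [Nat.mod_eq_of_lt (by omega), Nat.even_add_one]
    · have h2 : v - a < l.sum := by
        rw [List.sum_cons] at hv; omega
      have h3 := ih (fun b hb => hl b (by simp [hb])) (v - a) h2
      rw [Nat.even_add, h3]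
      have h4 : Even v ↔ Even (v - a) := by
        have : v = (v - a) + a := by omega
        conv_lhs => rw [this, Nat.even_add]
        simp [ha]
      rw [h4]
      simp [ha]

theorem mp_ge {n : ℕ} {p : Equiv.Perm (Fin n)} {m : Fin n → Fin n} (g : Gi n p m) (v : Fin n) :
    5 ≤ Function.minimalPeriod p v := by
  have h0 := mp_pos p v
  have hp : p^[Function.minimalPeriod p v] v = v := Function.iterate_minimalPeriod
  by_contra h
  push Not at h
  have h1 := g.p1 v
  have h2 := g.p2 v
  have h3 := g.p3 v
  have h4 := g.p4 v
  generalize Function.minimalPeriod p v = a at *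
  interval_cases a
  · exact h1 (by simpa using hp)
  · exact h2 (by simpa using hp)
  · exact h3 (by simpa using hp)
  · exact h4 (by simpa using hp)

theorem even_n {n : ℕ} {p : Equiv.Perm (Fin n)} {m : Fin n → Fin n} (g : Gi n p m) : Even n := by
  have h : ∑ _v : Fin n, (1 : ZMod 2) = 0 := by
    refine Finset.sum_involution (fun v _ => m v) ?_ ?_ ?_ ?_
    · intro a _; decide
    · intro a _ _; exact g.m0 a
    · intro a _; exact Finset.mem_univ _
    · intro a _; exact g.mm a
  rw [Finset.sum_const, Finset.card_univ, Fintype.card_fin, nsmul_eq_mul, mul_one] at h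
  exact ZMod.natCast_eq_zero_iff_even.1 h

theorem Gi_tr {n n' : ℕ} (e : Fin n ≃ Fin n') {p : Equiv.Perm (Fin n)} {m : Fin n → Fin n}
    (g : Gi n p m) : Gi n' (e.permCongr p) (fun v => e (m (e.symm v))) := by
  constructor <;> intro v <;>
    simp only [Equiv.permCongr_apply, Equiv.symm_apply_apply, ne_eq, EmbeddingLike.apply_eq_iff_eq]
  · rw [g.mm, Equiv.apply_symm_apply]
  · exact fun h => g.m0 _ (by rw [← Equiv.eq_symm_apply] at h; exact h)
  · exact fun h => g.p1 _ (by rw [← Equiv.eq_symm_apply] at h; exact h)
  · exact fun h => g.p2 _ (by rw [← Equiv.eq_symm_apply] at h; exact h)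
  · exact fun h => g.p3 _ (by rw [← Equiv.eq_symm_apply] at h; exact h)
  · exact fun h => g.p4 _ (by rw [← Equiv.eq_symm_apply] at h; exact h)
  · exact g.m1 _
  · exact g.m2 _
  · exact g.m3 _
  · exact g.q1 _
  · exact g.q2 _

theorem Col_tr {n n' : ℕ} (e : Fin n ≃ Fin n') {p : Equiv.Perm (Fin n)} {m : Fin n → Fin n}
    (h : Col n' (e.permCongr p) (fun v => e (m (e.symm v)))) : Col n p m := by
  obtain ⟨c, d, h⟩ := h
  refine ⟨fun v => c (e v), fun v => d (e v), fun v => ?_⟩
  have := h (e v)
  simpa [Equiv.permCongr_apply] using this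

theorem Pet_tr {n n' : ℕ} (e : Fin n ≃ Fin n') {p : Equiv.Perm (Fin n)} {m : Fin n → Fin n}
    (h : Pet n' (e.permCongr p) (fun v => e (m (e.symm v)))) : Pet n p m := by
  obtain ⟨κ, h⟩ := h
  refine ⟨e.trans κ, fun v => ?_⟩
  have := h (e v)
  simpa [Equiv.permCongr_apply] using this

theorem types (l : List ℕ) (h5 : ∀ a ∈ l, 5 ≤ a) (hs : l.Pairwise (· ≤ ·)) (h16 : l.sum ≤ 16)
    (he : Even l.sum) : (∀ a ∈ l, Even a) ∨
      l ∈ ([[5,5],[5,7],[5,9],[7,7],[5,5,6],[5,11],[7,9]] : List (List ℕ)) := by
  rcases l with _ | ⟨a, l⟩
  · left; simp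
  rcases l with _ | ⟨b, l⟩
  · left
    intro x hx
    simp only [List.mem_singleton] at hx
    subst hx
    simpa using he
  have ha : 5 ≤ a := h5 a (by simp)
  have hb : 5 ≤ b := h5 b (by simp)
  have hab : a ≤ b := by
    rw [List.pairwise_cons] at hs
    exact hs.1 b (by simp)
  rcases l with _ | ⟨c, l⟩
  · simp only [List.sum_cons, List.sum_nil, add_zero] at h16 he
    have ha' : a ≤ 8 := by omega
    have hb' : b ≤ 11 := by omega
    by_cases hev : Even a ∧ Even b
    · left
      intro x hx
      rcases List.mem_cons.1 hx with rfl | hx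
      · exact hev.1
      · rw [List.mem_singleton] at hx
        rw [hx]; exact hev.2
    · right
      clear hs h5
      rw [Nat.even_iff] at he hev
      rw [Nat.even_iff] at hev
      interval_cases a <;> interval_cases b <;> first | decide | (exfalso; omega)
  · have hc : 5 ≤ c := h5 c (by simp)
    have hbc : b ≤ c := by
      rw [List.pairwise_cons, List.pairwise_cons] at hs
      exact hs.2.1 c (by simp)
    rcases l with _ | ⟨d, l⟩
    · simp only [List.sum_cons, List.sum_nil, add_zero] at h16 he
      have ha' : a ≤ 5 := by omega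
      have hb' : b ≤ 5 := by omega
      have hc' : c ≤ 6 := by omega
      interval_cases a; interval_cases b; interval_cases c
      · exfalso; revert he; decide
      · right; simp
    · exfalso
      have hd : 5 ≤ d := h5 d (by simp)
      simp only [List.sum_cons] at h16
      omega

end FinA

open FinA in
theorem fin_red (H : ∀ l ∈ ([[5,5],[5,7],[5,9],[7,7],[5,5,6],[5,11],[7,9]] : List (List ℕ)),
    ∀ (p : Equiv.Perm (Fin l.sum)) (m : Fin l.sum → Fin l.sum), Std l l.sum p → Gi l.sum p m →
      Col l.sum p m ∨ Pet l.sum p m) (n : ℕ) (hn : n ≤ 16) (p : Equiv.Perm (Fin n))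
    (m : Fin n → Fin n) (g : Gi n p m) : Col n p m ∨ Pet n p m := by
  obtain ⟨l, φ, h1, h2, h3, h4, h5, h6⟩ := cyc p _ Finset.univ rfl (fun x _ => Finset.mem_univ _)
  rw [Finset.card_univ, Fintype.card_fin] at h1
  have hl5 : ∀ a ∈ l, 5 ≤ a := by
    intro a ha
    obtain ⟨v, _, rfl⟩ := h6 a ha
    exact mp_ge g v
  rcases types l hl5 h5 (by omega) (h1 ▸ even_n g) with hev | hl
  · left
    refine ⟨fun v => if Even (φ v) then 0 else 1, fun _ => 2, fun v => ⟨rfl, ?_, ?_, ?_⟩⟩
    · have := nxt_parity l hev (φ v) (h3 v (Finset.mem_univ v))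
      rw [← h4 v (Finset.mem_univ v)] at this
      simp only [this]
      by_cases h : Even (φ v) <;> simp [h]
    · by_cases h : Even (φ v) <;> simp [h]
    · by_cases h : Even (φ v) <;> simp [h]
  · have hbij : Function.Bijective (fun v : Fin n => (⟨φ v, h3 v (Finset.mem_univ v)⟩ : Fin l.sum)) := by
      rw [Fintype.bijective_iff_injective_and_card]
      refine ⟨fun x y hxy => ?_, by simp [h1]⟩
      apply h2 (by simp) (by simp)
      simpa using hxy
    let e : Fin n ≃ Fin l.sum := Equiv.ofBijective _ hbij
    have hstd : Std l l.sum (e.permCongr p) := by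
      intro w
      obtain ⟨v, rfl⟩ := e.surjective w
      rw [Equiv.permCongr_apply, Equiv.symm_apply_apply]
      exact h4 v (Finset.mem_univ v)
    rcases H l hl (e.permCongr p) _ hstd (Gi_tr e g) with h | h
    · exact Or.inl (Col_tr e h)
    · exact Or.inr (Pet_tr e h)

end Pool.Agent.TH362.TF
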