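import Pool.Agent.H79.LF.TH362_TF_Stm
import Pool.Agent.H79.LF.TH362_TF_Basic
import Pool.Agent.H79.LF.TH362_TF_Str
import Pool.Agent.H79.LF.TH362_TF_Red2

/-!
The pole graph of the second kind.
-/

set_option autoImplicit false

namespace Pool.Agent.TH362.TF

open Finset

namespace P2

section
variable {V E : Type} [Fintype V] [DecidableEq V] [DecidableEq E]

/-- `x` leaves the class `k` at `p`, the other end is `o`. -/
def Lv (s t : E → V) (κ : V → Fin 10) (k : Fin 10) (p o : V) (x : E) : Prop :=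
  Ends s t p o x ∧ κ p = k ∧ κ o ≠ k

/-- The data at the class `k`. -/
structure Dat (s t : E → V) (S : Finset E) (κ : V → Fin 10) (k : Fin 10) (M : Fin 10 → Bool)
    (e f al be ga : E) (pe oe pf o2 pa oa pb ob pg og : V) : Prop where
  eS : e ∈ S
  fS : f ∈ S
  aS : al ∈ S
  bS : be ∈ S
  gS : ga ∈ S
  he : Lv s t κ k pe oe e
  hf : Lv s t κ k pf o2 f
  ha : Lv s t κ k pa oa al
  hb : Lv s t κ k pb ob be
  hg : Lv s t κ k pg og ga
  Me : M (κ oe) = true
  Mf : M (κ o2) = true
  Ma : M (κ oa) = true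
  Mb : M (κ ob) = false
  Mg : M (κ og) = false
  ef : e ≠ f
  ea : e ≠ al
  fa : f ≠ al
  bg : be ≠ ga
  only : ∀ x ∈ S, x ≠ e → x ≠ f → x ≠ al → x ≠ be → x ≠ ga →
    ((κ (s x) = k ∧ κ (t x) = k) ∨ (κ (s x) ≠ k ∧ κ (t x) ≠ k))

variable {s t : E → V} {S : Finset E} {κ : V → Fin 10} {k : Fin 10} {M : Fin 10 → Bool}
  {e f al be ga : E} {pe oe pf o2 pa oa pb ob pg og : V}

/-- The quotient map of the pole graph. -/
def gm (κ : V → Fin 10) (k : Fin 10) (M : Fin 10 → Bool) (m z v : V) : V :=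
  if κ v = k then v else if M (κ v) = true then m else z

lemma gm_in {m z v : V} (hv : κ v = k) : gm κ k M m z v = v := if_pos hv

lemma gm_m {m z v : V} (hv : κ v ≠ k) (h : M (κ v) = true) : gm κ k M m z v = m := by
  unfold gm
  rw [if_neg hv, if_pos h]

lemma gm_z {m z v : V} (hv : κ v ≠ k) (h : M (κ v) = false) : gm κ k M m z v = z := by
  unfold gm
  rw [if_neg hv, if_neg (by rw [h]; decide)]

lemma gm_out {m z : V} (v : V) (hv : κ v ≠ k) : gm κ k M m z v = m ∨ gm κ k M m z v = z := by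
  cases h : M (κ v)
  · exact Or.inr (gm_z hv h)
  · exact Or.inl (gm_m hv h)

lemma gm_iff {m z : V} (hm : κ m ≠ k) (hz : κ z ≠ k) {v : V} (hv : κ v = k) (u : V) :
    gm κ k M m z u = v ↔ u = v := by
  by_cases hu : κ u = k
  · rw [gm_in hu]
  · constructor
    · intro h
      rcases gm_out (M := M) (m := m) (z := z) u hu with h1 | h1
      · rw [h1] at h
        exact absurd (h ▸ hv) hm
      · rw [h1] at h
        exact absurd (h ▸ hv) hz
    · intro h
      exact absurd (h ▸ hv) hu

/-- The edges of the pole graph. -/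
def Sp (s t : E → V) (S : Finset E) (κ : V → Fin 10) (k : Fin 10) : Finset E :=
  S.filter (fun x => κ (s x) = k ∨ κ (t x) = k)

lemma sum_pole {A : Type} [AddCommMonoid A] {m z : V} (hm : κ m ≠ k) (hz : κ z ≠ k) {v : V}
    (hv : κ v = k) (ψ : E → A) :
    ∑ x ∈ Sp s t S κ k, ((if gm κ k M m z (s x) = v then ψ x else 0) +
      (if gm κ k M m z (t x) = v then ψ x else 0)) =
    ∑ x ∈ S, ((if s x = v then ψ x else 0) + (if t x = v then ψ x else 0)) := by
  unfold Sp
  rw [Finset.sum_filter]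
  refine Finset.sum_congr rfl fun x _ => ?_
  simp only [gm_iff hm hz hv]
  by_cases h1 : κ (s x) = k ∨ κ (t x) = k
  · rw [if_pos h1]
  · have a1 : ¬ s x = v := fun h => h1 (Or.inl (by rw [h]; exact hv))
    have a2 : ¬ t x = v := fun h => h1 (Or.inr (by rw [h]; exact hv))
    rw [if_neg h1, if_neg a1, if_neg a2, add_zero]

lemma sum_pole_zero {m z : V} {v : V} (hv : κ v ≠ k) (hvm : v ≠ m) (hvz : v ≠ z) :
    deg (fun x => gm κ k M m z (s x)) (fun x => gm κ k M m z (t x)) (Sp s t S κ k) v = 0 := by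
  unfold deg
  have h : ∀ u, gm κ k M m z u ≠ v := by
    intro u hu
    by_cases h1 : κ u = k
    · rw [gm_in h1] at hu
      exact hv (hu ▸ h1)
    · rcases gm_out (M := M) (m := m) (z := z) u h1 with h2 | h2
      · exact hvm (hu.symm.trans h2)
      · exact hvz (hu.symm.trans h2)
  refine Finset.sum_eq_zero fun x _ => ?_
  rw [if_neg (h _), if_neg (h _), add_zero]

lemma odd_pole {m z : V} (hm : κ m ≠ k) (hz : κ z ≠ k) :
    odd (fun x => gm κ k M m z (s x)) (fun x => gm κ k M m z (t x)) (Sp s t S κ k) ⊆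
      (odd s t S).filter (fun v => κ v = k) ∪ {m, z} := by
  intro v hv
  unfold odd at hv
  rw [Finset.mem_filter] at hv
  rw [Finset.mem_union, Finset.mem_filter]
  by_cases h1 : κ v = k
  · left
    refine ⟨?_, h1⟩
    unfold odd
    rw [Finset.mem_filter]
    refine ⟨Finset.mem_univ _, ?_⟩
    have h2 := sum_pole (s := s) (t := t) (S := S) (M := M) hm hz h1 (fun _ : E => (1 : ℕ))
    have h3 : deg (fun x => gm κ k M m z (s x)) (fun x => gm κ k M m z (t x)) (Sp s t S κ k) v
        = deg s t S v := h2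
    rw [← h3]
    exact hv.2
  · right
    by_contra h2
    rw [Finset.mem_insert, Finset.mem_singleton, not_or] at h2
    rw [sum_pole_zero h1 h2.1 h2.2] at hv
    exact absurd hv.2 (by decide)

lemma odd_pole_card {m z : V} (hm : κ m ≠ k) (hz : κ z ≠ k)
    (h7 : ((odd s t S).filter (fun v => κ v = k)).card ≤ 7) :
    (odd (fun x => gm κ k M m z (s x)) (fun x => gm κ k M m z (t x)) (Sp s t S κ k)).card
      ≤ 9 := by
  have h1 := Finset.card_le_card (odd_pole (s := s) (t := t) (S := S) (M := M) hm hz)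
  have h2 := Finset.card_union_le ((odd s t S).filter (fun v => κ v = k)) {m, z}
  have h3 := Finset.card_le_two (a := m) (b := z)
  omega

/-- The pole cut. -/
lemma mem_pcut {m z : V} {X : V → Bool} (x : E) :
    x ∈ cut (fun x => gm κ k M m z (s x)) (fun x => gm κ k M m z (t x)) (Sp s t S κ k) X ↔
      x ∈ S ∧ (κ (s x) = k ∨ κ (t x) = k) ∧ X (gm κ k M m z (s x)) ≠ X (gm κ k M m z (t x)) := by
  unfold cut Sp
  rw [Finset.mem_filter, Finset.mem_filter, and_assoc]

lemma mem_cut {X : V → Bool} (x : E) : x ∈ cut s t S X ↔ x ∈ S ∧ X (s x) ≠ X (t x) := by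
  unfold cut
  rw [Finset.mem_filter]

lemma pcut_leave {m z : V} {X : V → Bool} {x : E} {p o : V} (hx : x ∈ S)
    (h : Lv s t κ k p o x) :
    x ∈ cut (fun x => gm κ k M m z (s x)) (fun x => gm κ k M m z (t x)) (Sp s t S κ k) X ↔
      X p ≠ X (gm κ k M m z o) := by
  rw [mem_pcut]
  obtain ⟨h1 | h1, h2, h3⟩ := h
  · rw [h1.1, h1.2, gm_in h2]
    exact ⟨fun h => h.2.2, fun h => ⟨hx, Or.inl h2, h⟩⟩
  · rw [h1.1, h1.2, gm_in h2]
    exact ⟨fun h => h.2.2.symm, fun h => ⟨hx, Or.inr h2, h.symm⟩⟩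

lemma pcut_in {m z : V} {X : V → Bool} {x : E} (hx : x ∈ S)
    (h1 : κ (s x) = k) (h2 : κ (t x) = k) :
    x ∈ cut (fun x => gm κ k M m z (s x)) (fun x => gm κ k M m z (t x)) (Sp s t S κ k) X ↔
      X (s x) ≠ X (t x) := by
  rw [mem_pcut, gm_in h1, gm_in h2]
  exact ⟨fun h => h.2.2, fun h => ⟨hx, Or.inl h1, h⟩⟩

lemma cut_leave {X : V → Bool} {x : E} {p o : V} (hx : x ∈ S)
    (h : Lv s t κ k p o x) (hX : X o = false) :
    x ∈ cut s t S X ↔ X p = true := by
  rw [mem_cut]
  obtain ⟨h1 | h1, h2, h3⟩ := h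
  · rw [h1.1, h1.2, hX]
    exact ⟨fun h => by simpa using h.2, fun h => ⟨hx, by rw [h]; decide⟩⟩
  · rw [h1.1, h1.2, hX]
    exact ⟨fun h => by simpa using h.2, fun h => ⟨hx, by rw [h]; decide⟩⟩

lemma f_add (a b c : F) (h : a + (b + c) = 0) : a + b = c := by
  revert a b c
  decide

lemma bool_ne {a b c : Bool} (h : b ≠ c) : a ≠ c ↔ a = b := by
  revert a b c
  decide

/-- first alternative -/
lemma flow_case (d : Dat s t S κ k M e f al be ga pe oe pf o2 pa oa pb ob pg og) {m z : V}
    (hm : κ m ≠ k) (hz : κ z ≠ k) (Mm : M (κ m) = true) (Mz : M (κ z) = false)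
    (h : NZ (fun x => gm κ k M m z (s x)) (fun x => gm κ k M m z (t x)) (Sp s t S κ k)) :
    ∃ φ, Inn s t S κ k φ ∧ φ e + φ f = φ al := by
  obtain ⟨φ, h1, h2⟩ := h
  have hmz : m ≠ z := by
    intro h
    rw [h, Mz] at Mm
    exact absurd Mm (by decide)
  refine ⟨φ, ⟨?_, ?_⟩, ?_⟩
  · intro x hx hk
    apply h1
    unfold Sp
    rw [Finset.mem_filter]
    exact ⟨hx, hk⟩
  · intro v hv
    have h3 := h2 v
    unfold Cons at h3 ⊢
    rwa [sum_pole hm hz hv] at h3
  · have h3 := flow_cut (fun v => decide (v = m)) (fun v _ => h2 v)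
    have hc : cut (fun x => gm κ k M m z (s x)) (fun x => gm κ k M m z (t x)) (Sp s t S κ k)
        (fun v => decide (v = m)) = {e, f, al} := by
      have hin : ∀ v, κ v = k → decide (v = m) = false := by
        intro v hv
        rw [decide_eq_false_iff_not]
        intro h
        exact hm (h ▸ hv)
      have hlm : ∀ {x : E} {p o : V}, x ∈ S → Lv s t κ k p o x → M (κ o) = true →
          x ∈ cut (fun x => gm κ k M m z (s x)) (fun x => gm κ k M m z (t x)) (Sp s t S κ k)
            (fun v => decide (v = m)) := by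
        intro x p o hx hl hM
        rw [pcut_leave hx hl, hin p hl.2.1, gm_m hl.2.2 hM, decide_eq_true rfl]
        decide
      have hlz : ∀ {x : E} {p o : V}, x ∈ S → Lv s t κ k p o x → M (κ o) = false →
          x ∉ cut (fun x => gm κ k M m z (s x)) (fun x => gm κ k M m z (t x)) (Sp s t S κ k)
            (fun v => decide (v = m)) := by
        intro x p o hx hl hM
        rw [pcut_leave hx hl, hin p hl.2.1, gm_z hl.2.2 hM,
          decide_eq_false (fun h => hmz h.symm)]
        decide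
      ext x
      rw [Finset.mem_insert, Finset.mem_insert, Finset.mem_singleton]
      constructor
      · intro hx
        by_contra hn
        rw [not_or, not_or] at hn
        have hxS := ((mem_pcut x).1 hx).1
        by_cases hb : x = be
        · subst hb
          exact hlz hxS d.hb d.Mb hx
        by_cases hg : x = ga
        · subst hg
          exact hlz hxS d.hg d.Mg hx
        rcases d.only x hxS hn.1 hn.2.1 hn.2.2 hb hg with h4 | h4
        · rw [pcut_in hxS h4.1 h4.2, hin _ h4.1, hin _ h4.2] at hx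
          exact hx rfl
        · rcases ((mem_pcut x).1 hx).2.1 with h5 | h5
          · exact h4.1 h5
          · exact h4.2 h5
      · rintro (rfl | rfl | rfl)
        · exact hlm d.eS d.he d.Me
        · exact hlm d.fS d.hf d.Mf
        · exact hlm d.aS d.ha d.Ma
    rw [hc, Finset.sum_insert, Finset.sum_insert, Finset.sum_singleton] at h3
    · exact f_add _ _ _ h3
    · rw [Finset.mem_singleton]
      exact d.fa
    · rw [Finset.mem_insert, Finset.mem_singleton, not_or]
      exact ⟨d.ef, d.ea⟩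

lemma lv_unique {x : E} {p o p' o' : V} (h : Lv s t κ k p o x) (h' : Lv s t κ k p' o' x) :
    p = p' ∧ o = o' := by
  obtain ⟨h1, h2, h3⟩ := h
  obtain ⟨h1', h2', h3'⟩ := h'
  rcases h1 with h1 | h1 <;> rcases h1' with h1' | h1'
  · exact ⟨h1.1.symm.trans h1'.1, h1.2.symm.trans h1'.2⟩
  · exfalso
    apply h3'
    rw [← h1'.1, h1.1, h2]
  · exfalso
    apply h3'
    rw [← h1'.2, h1.2, h2]
  · exact ⟨h1.2.symm.trans h1'.2, h1.1.symm.trans h1'.1⟩

lemma lv_ne {x y : E} {p o p' o' : V} (h : Lv s t κ k p o x) (h' : Lv s t κ k p' o' y)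
    (h1 : M (κ o) = true) (h2 : M (κ o') = false) : x ≠ y := by
  rintro rfl
  rw [(lv_unique h h').2, h2] at h1
  exact absurd h1 (by decide)

/-- second alternative -/
lemma cut_case (d : Dat s t S κ k M e f al be ga pe oe pf o2 pa oa pb ob pg og) {m z : V}
    (n1 : N1 s t S) (n2 : ∀ x : V → Bool, (cut s t S x).card ≠ 2) {X : V → Bool} {c : E}
    (h : cut (fun x => gm κ k M m z (s x)) (fun x => gm κ k M m z (t x)) (Sp s t S κ k) X
      = {c}) :
    ∃ Z : V → Bool, (∀ v, Z v = true → κ v = k) ∧ Z pe = true ∧ Z pf = true ∧ Z pa = true ∧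
      c ∈ S ∧ c ≠ e ∧ c ≠ f ∧ c ≠ al ∧ κ (s c) = k ∧ κ (t c) = k ∧ Z (s c) ≠ Z (t c) ∧
      ∀ x ∈ S, x ≠ e → x ≠ f → x ≠ al → x ≠ c → Z (s x) = Z (t x) := by
  have hmem : ∀ x, x ∈ cut (fun x => gm κ k M m z (s x)) (fun x => gm κ k M m z (t x))
      (Sp s t S κ k) X ↔ x = c := by
    intro x
    rw [h, Finset.mem_singleton]
  have hXmz : X m ≠ X z := by
    intro hX
    apply n1 (fun v => X (gm κ k M m z v))
    have h2 : cut s t S (fun v => X (gm κ k M m z v)) = {c} := by
      rw [← h]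
      ext x
      rw [mem_pcut, mem_cut]
      constructor
      · intro h3
        refine ⟨h3.1, ?_, h3.2⟩
        by_contra h4
        rw [not_or] at h4
        apply h3.2
        rcases gm_out (M := M) (m := m) (z := z) _ h4.1 with h5 | h5 <;>
          rcases gm_out (M := M) (m := m) (z := z) _ h4.2 with h6 | h6 <;>
          simp only [h5, h6, hX]
      · intro h3
        exact ⟨h3.1, h3.2.2⟩
    rw [h2, Finset.card_singleton]
  obtain ⟨Z, hZ⟩ : ∃ Z : V → Bool, ∀ v, Z v = (decide (κ v = k) && (X v == X m)) :=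
    ⟨_, fun _ => rfl⟩
  have Zk : ∀ v, Z v = true → κ v = k := by
    intro v hv
    rw [hZ, Bool.and_eq_true, decide_eq_true_eq] at hv
    exact hv.1
  have Zo : ∀ v, κ v ≠ k → Z v = false := by
    intro v hv
    rw [hZ, decide_eq_false hv, Bool.false_and]
  have Zin : ∀ v, κ v = k → (Z v = true ↔ X v = X m) := by
    intro v hv
    rw [hZ, decide_eq_true hv, Bool.true_and, beq_iff_eq]
  -- leaving edges
  have Lm : ∀ {x : E} {p o : V}, x ∈ S → Lv s t κ k p o x → M (κ o) = true →
      (Z p = false ↔ x = c) := by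
    intro x p o hx hl hM
    rw [← hmem x, pcut_leave hx hl, gm_m hl.2.2 hM, ← Bool.not_eq_true, Zin p hl.2.1]
  have Lz : ∀ {x : E} {p o : V}, x ∈ S → Lv s t κ k p o x → M (κ o) = false →
      (Z p = true ↔ x = c) := by
    intro x p o hx hl hM
    rw [← hmem x, pcut_leave hx hl, gm_z hl.2.2 hM, Zin p hl.2.1, bool_ne hXmz]
  have Li : ∀ {x : E}, x ∈ S → κ (s x) = k → κ (t x) = k → (Z (s x) ≠ Z (t x) ↔ x = c) := by
    intro x hx h1 h2
    rw [← hmem x, pcut_in hx h1 h2]
    have h3 := Zin _ h1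
    have h4 := Zin _ h2
    revert h3 h4
    generalize Z (s x) = z1
    generalize Z (t x) = z2
    generalize X (s x) = x1
    generalize X (t x) = x2
    generalize X m = x3
    revert z1 z2 x1 x2 x3
    decide
  have hcS : c ∈ S ∧ (κ (s c) = k ∨ κ (t c) = k) := by
    have := (hmem c).2 rfl
    rw [mem_pcut] at this
    exact ⟨this.1, this.2.1⟩
  have le := Lm d.eS d.he d.Me
  have lf := Lm d.fS d.hf d.Mf
  have la := Lm d.aS d.ha d.Ma
  have lb := Lz d.bS d.hb d.Mb
  have lg := Lz d.gS d.hg d.Mg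
  have eb : e ≠ be := lv_ne d.he d.hb d.Me d.Mb
  have eg : e ≠ ga := lv_ne d.he d.hg d.Me d.Mg
  have fb : f ≠ be := lv_ne d.hf d.hb d.Mf d.Mb
  have fg : f ≠ ga := lv_ne d.hf d.hg d.Mf d.Mg
  have ab : al ≠ be := lv_ne d.ha d.hb d.Ma d.Mb
  have ag : al ≠ ga := lv_ne d.ha d.hg d.Ma d.Mg
  -- `c` is not `be` or `ga`
  have hcbg : c ≠ be ∧ c ≠ ga := by
    by_contra hn
    obtain ⟨r, pr, og', hrS, hrl, hrc, hrM⟩ : ∃ (r : E) (pr o' : V), r ∈ S ∧ Lv s t κ k pr o' r ∧
        ((c = be ∧ r = ga) ∨ (c = ga ∧ r = be)) ∧ (Z pr = true ↔ r = c) := by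
      by_cases h1 : c = be
      · exact ⟨ga, pg, og, d.gS, d.hg, Or.inl ⟨h1, rfl⟩, lg⟩
      · by_cases h2 : c = ga
        · exact ⟨be, pb, ob, d.bS, d.hb, Or.inr ⟨h2, rfl⟩, lb⟩
        · exact absurd ⟨h1, h2⟩ hn
    have hrne : r ≠ c := by
      rcases hrc with ⟨h1, h2⟩ | ⟨h1, h2⟩
      · rw [h1, h2]; exact d.bg.symm
      · rw [h1, h2]; exact d.bg
    have cne : c ≠ e ∧ c ≠ f ∧ c ≠ al := by
      rcases hrc with ⟨h1, h2⟩ | ⟨h1, h2⟩
      · rw [h1]; exact ⟨eb.symm, fb.symm, ab.symm⟩
      · rw [h1]; exact ⟨eg.symm, fg.symm, ag.symm⟩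
    apply n1 (fun v => decide (κ v = k) && !Z v)
    have Wo : ∀ v, κ v ≠ k → (decide (κ v = k) && !Z v) = false := by
      intro v hv
      rw [decide_eq_false hv, Bool.false_and]
    have Wi : ∀ v, κ v = k → ((decide (κ v = k) && !Z v) = true ↔ Z v = false) := by
      intro v hv
      rw [decide_eq_true hv, Bool.true_and, Bool.not_eq_true']
    rw [Finset.card_eq_one]
    refine ⟨r, ?_⟩
    rw [Finset.eq_singleton_iff_unique_mem]
    constructor
    · rw [cut_leave hrS hrl (Wo _ hrl.2.2), Wi _ hrl.2.1, ← Bool.not_eq_true, hrM]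
      exact hrne
    · intro y hy
      have hyS := ((mem_cut y).1 hy).1
      have hlv : ∀ {p o : V}, Lv s t κ k p o y → Z p = false := by
        intro p o hl
        rw [cut_leave hyS hl (Wo _ hl.2.2), Wi _ hl.2.1] at hy
        exact hy
      by_cases h1 : y = e
      · subst h1
        exact absurd (le.1 (hlv d.he)).symm cne.1
      by_cases h2 : y = f
      · subst h2
        exact absurd (lf.1 (hlv d.hf)).symm cne.2.1
      by_cases h3 : y = al
      · subst h3
        exact absurd (la.1 (hlv d.ha)).symm cne.2.2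
      have hbg : y ≠ c := by
        intro h4
        rcases hrc with ⟨h5, h6⟩ | ⟨h5, h6⟩
        · have h7 : y = be := h4.trans h5
          have h8 := hlv (h7 ▸ d.hb)
          have h9 := lb.2 h5.symm
          rw [h8] at h9
          exact absurd h9 (by decide)
        · have h7 : y = ga := h4.trans h5
          have h8 := hlv (h7 ▸ d.hg)
          have h9 := lg.2 h5.symm
          rw [h8] at h9
          exact absurd h9 (by decide)
      by_contra h4
      have h5 : y ≠ be ∧ y ≠ ga := by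
        rcases hrc with ⟨h5, h6⟩ | ⟨h5, h6⟩
        · exact ⟨fun h => hbg (h.trans h5.symm), fun h => h4 (h.trans h6.symm)⟩
        · exact ⟨fun h => h4 (h.trans h6.symm), fun h => hbg (h.trans h5.symm)⟩
      rcases d.only y hyS h1 h2 h3 h5.1 h5.2 with h6 | h6
      · have h7 := ((mem_cut y).1 hy).2
        apply hbg
        rw [← Li hyS h6.1 h6.2]
        intro h8
        apply h7
        simp only [h6.1, h6.2, h8]
      · have h7 := ((mem_cut y).1 hy).2
        apply h7
        rw [Wo _ h6.1, Wo _ h6.2]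
  -- `c` is not `e`, `f` or `al`
  have hcefa : c ∉ ({e, f, al} : Finset E) := by
    intro hn
    apply n2 Z
    have hcc : cut s t S Z = ({e, f, al} : Finset E).erase c := by
      ext y
      rw [Finset.mem_erase, Finset.mem_insert, Finset.mem_insert, Finset.mem_singleton]
      constructor
      · intro hy
        have hyS := ((mem_cut y).1 hy).1
        have hlv : ∀ {p o : V}, Lv s t κ k p o y → Z p = true := by
          intro p o hl
          rwa [cut_leave hyS hl (Zo _ hl.2.2)] at hy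
        by_cases h1 : y = e
        · refine ⟨fun h => ?_, Or.inl h1⟩
          have h2 := hlv (h1 ▸ d.he)
          rw [le.2 (h1 ▸ h)] at h2
          exact absurd h2 (by decide)
        by_cases h2 : y = f
        · refine ⟨fun h => ?_, Or.inr (Or.inl h2)⟩
          have h3 := hlv (h2 ▸ d.hf)
          rw [lf.2 (h2 ▸ h)] at h3
          exact absurd h3 (by decide)
        by_cases h3 : y = al
        · refine ⟨fun h => ?_, Or.inr (Or.inr h3)⟩
          have h4 := hlv (h3 ▸ d.ha)
          rw [la.2 (h3 ▸ h)] at h4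
          exact absurd h4 (by decide)
        exfalso
        by_cases h4 : y = be
        · exact hcbg.1 (lb.1 (hlv (h4 ▸ d.hb))).symm
        by_cases h5 : y = ga
        · exact hcbg.2 (lg.1 (hlv (h5 ▸ d.hg))).symm
        rcases d.only y hyS h1 h2 h3 h4 h5 with h6 | h6
        · have h7 := (Li hyS h6.1 h6.2).1 ((mem_cut y).1 hy).2
          rw [Finset.mem_insert, Finset.mem_insert, Finset.mem_singleton] at hn
          rw [← h7] at hn
          rcases hn with h8 | h8 | h8
          · exact h1 h8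
          · exact h2 h8
          · exact h3 h8
        · apply ((mem_cut y).1 hy).2
          rw [Zo _ h6.1, Zo _ h6.2]
      · rintro ⟨h1, h2⟩
        have hT : ∀ b : Bool, (b = false → False) → b = true := by decide
        rcases h2 with rfl | rfl | rfl
        · rw [cut_leave d.eS d.he (Zo _ d.he.2.2)]
          exact hT _ fun h2 => h1 (le.1 h2)
        · rw [cut_leave d.fS d.hf (Zo _ d.hf.2.2)]
          exact hT _ fun h2 => h1 (lf.1 h2)
        · rw [cut_leave d.aS d.ha (Zo _ d.ha.2.2)]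
          exact hT _ fun h2 => h1 (la.1 h2)
    rw [hcc, Finset.card_erase_of_mem hn, Finset.card_insert_of_notMem,
      Finset.card_insert_of_notMem, Finset.card_singleton]
    · rw [Finset.mem_singleton]
      exact d.fa
    · rw [Finset.mem_insert, Finset.mem_singleton, not_or]
      exact ⟨d.ef, d.ea⟩
  rw [Finset.mem_insert, Finset.mem_insert, Finset.mem_singleton, not_or, not_or] at hcefa
  obtain ⟨ce, cf, ca⟩ := hcefa
  have hcin : κ (s c) = k ∧ κ (t c) = k := by
    rcases d.only c hcS.1 ce cf ca hcbg.1 hcbg.2 with h1 | h1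
    · exact h1
    · rcases hcS.2 with h2 | h2
      · exact absurd h2 h1.1
      · exact absurd h2 h1.2
  have hT : ∀ b : Bool, (b = false → False) → b = true := by decide
  have hFF : ∀ b : Bool, (b = true → False) → b = false := by decide
  refine ⟨Z, Zk, hT _ fun h2 => ce (le.1 h2).symm, hT _ fun h2 => cf (lf.1 h2).symm,
    hT _ fun h2 => ca (la.1 h2).symm, hcS.1, ce, cf, ca, hcin.1, hcin.2,
    (Li hcS.1 hcin.1 hcin.2).2 rfl, ?_⟩
  intro x hx h1 h2 h3 h4
  have hout : ∀ {p o : V}, Lv s t κ k p o x → Z p = false → Z (s x) = Z (t x) := by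
    intro p o hl hp
    have ho := Zo _ hl.2.2
    rcases hl.1 with h5 | h5
    · rw [h5.1, h5.2, hp, ho]
    · rw [h5.1, h5.2, hp, ho]
  by_cases h5 : x = be
  · exact hout (h5 ▸ d.hb) (hFF _ fun h => hcbg.1 (lb.1 h).symm)
  by_cases h6 : x = ga
  · exact hout (h6 ▸ d.hg) (hFF _ fun h => hcbg.2 (lg.1 h).symm)
  rcases d.only x hx h1 h2 h3 h5 h6 with h7 | h7
  · by_contra h8
    exact h4 ((Li hx h7.1 h7.2).1 h8)
  · rw [Zo _ h7.1, Zo _ h7.2]

lemma padj_ne {i j : Fin 10} (h : padj i j = true) : i ≠ j := by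
  revert i j
  decide

/-- recolouring -/
lemma recol {w a b : V} (l : L s t S e f w a b κ) {l0 : Fin 10} (hkl : padj k l0 = true)
    {Z : V → Bool} (Zk : ∀ v, Z v = true → κ v = k) (hab : Z a = Z b) (aS : al ∈ S)
    (ae : al ≠ e) (af : al ≠ f) (ha : Lv s t κ k pa oa al) (ko : κ oa = l0) (Zp : Z pa = true)
    {c : E} (cS : c ∈ S) (ce : c ≠ e) (cf : c ≠ f) (ca : c ≠ al) (c1 : κ (s c) = k)
    (c2 : κ (t c) = k) (cZ : Z (s c) ≠ Z (t c))
    (hZ : ∀ x ∈ S, x ≠ e → x ≠ f → x ≠ al → x ≠ c → Z (s x) = Z (t x)) :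
    IsPQ (Function.update s e a) (Function.update t e b) (S.erase f)
      (fun v => if Z v = true then l0 else κ v) := by
  have hkl' : k ≠ l0 := padj_ne hkl
  have hbb : ∀ b : Bool, b = false ∨ b = true := by decide
  have hFF : ∀ b : Bool, (b = true → False) → b = false := by decide
  -- common facts
  have hs : ∀ x, x ≠ e → Function.update s e a x = s x := fun x hx => Function.update_of_ne hx _ _
  have ht : ∀ x, x ≠ e → Function.update t e b x = t x := fun x hx => Function.update_of_ne hx _ _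
  have hse : Function.update s e a e = a := Function.update_self _ _ _
  have hte : Function.update t e b e = b := Function.update_self _ _ _
  have hZ' : ∀ x ∈ S.erase f, x ≠ al → x ≠ c →
      Z (Function.update s e a x) = Z (Function.update t e b x) := by
    intro x hx h1 h2
    rw [Finset.mem_erase] at hx
    by_cases h3 : x = e
    · subst h3
      rw [hse, hte, hab]
    · rw [hs x h3, ht x h3]
      exact hZ x hx.2 h3 hx.1 h1 h2
  have k1 : ∀ v, Z v = true → (if Z v = true then l0 else κ v) = l0 := fun v hv => if_pos hv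
  have k2 : ∀ v, Z v = false → (if Z v = true then l0 else κ v) = κ v := by
    intro v hv
    rw [if_neg]
    rw [hv]
    decide
  have Zoa : Z oa = false := hFF _ fun h => ha.2.2 (Zk _ h)
  have hcc : ((if Z (s c) = true then l0 else κ (s c)) = l0 ∧
      (if Z (t c) = true then l0 else κ (t c)) = k) ∨
      ((if Z (s c) = true then l0 else κ (s c)) = k ∧
      (if Z (t c) = true then l0 else κ (t c)) = l0) := by
    cases h1 : Z (s c)
    · have h2 : Z (t c) = true := by
        rw [h1] at cZ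
        cases h3 : Z (t c)
        · exact absurd h3.symm cZ
        · rfl
      right
      rw [h2, c1]
      exact ⟨if_neg (by decide), if_pos rfl⟩
    · have h2 : Z (t c) = false := by
        rw [h1] at cZ
        cases h3 : Z (t c)
        · rfl
        · exact absurd h3.symm cZ
      left
      rw [h2, c2]
      exact ⟨if_pos rfl, if_neg (by decide)⟩
  constructor
  · intro j
    by_cases hj : j = k ∨ j = l0
    · have hcut : cut (Function.update s e a) (Function.update t e b) (S.erase f)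
          (fun v => decide ((if Z v = true then l0 else κ v) = j)) =
          insert c ((cut (Function.update s e a) (Function.update t e b) (S.erase f)
            (fun v => decide (κ v = j))).erase al) := by
        ext x
        rw [Finset.mem_insert, Finset.mem_erase, mem_cut, mem_cut]
        by_cases h1 : x = c
        · subst h1
          rw [hs x ce, ht x ce]
          refine ⟨fun _ => Or.inl rfl, fun _ => ⟨Finset.mem_erase.2 ⟨cf, cS⟩, ?_⟩⟩
          rcases hcc with h2 | h2
          · rw [h2.1, h2.2]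
            intro h3
            rw [decide_eq_decide] at h3
            rcases hj with rfl | rfl
            · exact hkl' (h3.2 rfl).symm
            · exact hkl' (h3.1 rfl)
          · rw [h2.1, h2.2]
            intro h3
            rw [decide_eq_decide] at h3
            rcases hj with rfl | rfl
            · exact hkl' (h3.1 rfl).symm
            · exact hkl' (h3.2 rfl)
        by_cases h2 : x = al
        · subst h2
          constructor
          · intro h3
            exfalso
            apply h3.2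
            rw [hs x ae, ht x ae]
            rcases ha.1 with h4 | h4
            · rw [h4.1, h4.2, k1 _ Zp, k2 _ Zoa, ko]
            · rw [h4.1, h4.2, k1 _ Zp, k2 _ Zoa, ko]
          · rintro (h3 | h3)
            · exact absurd h3 h1
            · exact absurd rfl h3.1
        constructor
        · intro h3
          refine Or.inr ⟨h2, h3.1, ?_⟩
          have h4 := hZ' x h3.1 h2 h1
          cases h5 : Z (Function.update s e a x)
          · rw [k2 _ h5, k2 _ (h4 ▸ h5)] at h3
            exact h3.2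
          · rw [k1 _ h5, k1 _ (h4 ▸ h5)] at h3
            exact absurd rfl h3.2
        · rintro (h3 | h3)
          · exact absurd h3 h1
          · refine ⟨h3.2.1, ?_⟩
            have h4 := hZ' x h3.2.1 h2 h1
            rcases hbb (Z (Function.update s e a x)) with h5 | h5
            · rw [k2 _ h5, k2 _ (h4 ▸ h5)]
              exact h3.2.2
            · exfalso
              apply h3.2.2
              rw [Zk _ h5, Zk _ (h4 ▸ h5)]
      rw [hcut, Finset.card_insert_of_notMem, Finset.card_erase_of_mem, l.pq.1 j]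
      · rw [mem_cut, hs al ae, ht al ae]
        refine ⟨Finset.mem_erase.2 ⟨af, aS⟩, ?_⟩
        intro h3
        rw [decide_eq_decide] at h3
        rcases ha.1 with h4 | h4
        · rw [h4.1, h4.2, ha.2.1, ko] at h3
          rcases hj with rfl | rfl
          · exact hkl' (h3.1 rfl).symm
          · exact hkl' (h3.2 rfl)
        · rw [h4.1, h4.2, ha.2.1, ko] at h3
          rcases hj with rfl | rfl
          · exact hkl' (h3.2 rfl).symm
          · exact hkl' (h3.1 rfl)
      · rw [Finset.mem_erase, mem_cut, hs c ce, ht c ce, c1, c2]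
        rintro ⟨_, _, h⟩
        exact h rfl
    · rw [not_or] at hj
      have hfun : (fun v => decide ((if Z v = true then l0 else κ v) = j))
          = (fun v => decide (κ v = j)) := by
        funext v
        rw [decide_eq_decide]
        cases h1 : Z v
        · rw [if_neg (by decide)]
        · rw [if_pos rfl, Zk v h1]
          exact ⟨fun h => absurd h.symm hj.2, fun h => absurd h.symm hj.1⟩
      rw [hfun]
      exact l.pq.1 j
  · intro i j hij
    obtain ⟨x, hx, hJ⟩ := l.pq.2 i j hij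
    have hij' := padj_ne hij
    by_cases h1 : x = al
    · subst h1
      refine ⟨c, Finset.mem_erase.2 ⟨cf, cS⟩, ?_⟩
      unfold Joins at hJ ⊢
      rw [hs x ae, ht x ae] at hJ
      rw [hs c ce, ht c ce]
      have h2 : (i = k ∧ j = l0) ∨ (i = l0 ∧ j = k) := by
        rcases ha.1 with h4 | h4
        · rw [h4.1, h4.2, ha.2.1, ko] at hJ
          rcases hJ with h5 | h5
          · exact Or.inl ⟨h5.1.symm, h5.2.symm⟩
          · exact Or.inr ⟨h5.2.symm, h5.1.symm⟩
        · rw [h4.1, h4.2, ha.2.1, ko] at hJ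
          rcases hJ with h5 | h5
          · exact Or.inr ⟨h5.1.symm, h5.2.symm⟩
          · exact Or.inl ⟨h5.2.symm, h5.1.symm⟩
      rcases h2 with ⟨rfl, rfl⟩ | ⟨rfl, rfl⟩
      · exact hcc.symm
      · exact hcc
    by_cases h2 : x = c
    · subst h2
      exfalso
      unfold Joins at hJ
      rw [hs x ce, ht x ce, c1, c2] at hJ
      rcases hJ with h3 | h3
      · exact hij' (h3.1.symm.trans h3.2)
      · exact hij' (h3.2.symm.trans h3.1)
    refine ⟨x, hx, ?_⟩
    have h4 := hZ' x hx h1 h2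
    unfold Joins at hJ ⊢
    beta_reduce
    rcases hbb (Z (Function.update s e a x)) with h5 | h5
    · rw [k2 _ h5, k2 _ (h4 ▸ h5)]
      exact hJ
    · exfalso
      rw [Zk _ h5, Zk _ (h4 ▸ h5)] at hJ
      rcases hJ with h3 | h3
      · exact hij' (h3.1.symm.trans h3.2)
      · exact hij' (h3.2.symm.trans h3.1)

lemma far (k A B : Fin 10) : ∃ i j, padj i j = true ∧ i ≠ k ∧ j ≠ k ∧
    ¬ (i = A ∧ j = B ∨ i = B ∧ j = A) := by
  revert k A B
  decide

lemma joins_lv {x : E} {j : Fin 10} (hj : k ≠ j) (h : Joins κ s t k j x) :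
    ∃ p o, Lv s t κ k p o x ∧ κ o = j := by
  rcases h with h | h
  · exact ⟨s x, t x, ⟨Or.inl ⟨rfl, rfl⟩, h.1, by rw [h.2]; exact hj.symm⟩, h.2⟩
  · exact ⟨t x, s x, ⟨Or.inr ⟨rfl, rfl⟩, h.2, by rw [h.1]; exact hj.symm⟩, h.1⟩

lemma padj_iff (k j : Fin 10) : padj k j = true ↔ nb k 0 = j ∨ nb k 1 = j ∨ nb k 2 = j := by
  unfold padj
  rw [Bool.or_eq_true, Bool.or_eq_true, beq_iff_eq, beq_iff_eq, beq_iff_eq]

lemma nb_ne (k : Fin 10) : nb k 0 ≠ nb k 1 ∧ nb k 0 ≠ nb k 2 ∧ nb k 1 ≠ nb k 2 := by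
  revert k
  decide

lemma nbrs (k l0 : Fin 10) (h : padj k l0 = true) : ∃ j1 j2, j1 ≠ j2 ∧ j1 ≠ l0 ∧ j2 ≠ l0 ∧
    padj k j1 = true ∧ padj k j2 = true ∧ ∀ j, padj k j = true → j = l0 ∨ j = j1 ∨ j = j2 := by
  have h1 := nb_ne k
  rw [padj_iff] at h
  rcases h with rfl | rfl | rfl
  · refine ⟨nb k 1, nb k 2, h1.2.2, h1.1.symm, h1.2.1.symm, ?_, ?_, ?_⟩
    · rw [padj_iff]; exact Or.inr (Or.inl rfl)
    · rw [padj_iff]; exact Or.inr (Or.inr rfl)
    · intro j hj
      rw [padj_iff] at hj
      rcases hj with hj | hj | hj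
      · exact Or.inl hj.symm
      · exact Or.inr (Or.inl hj.symm)
      · exact Or.inr (Or.inr hj.symm)
  · refine ⟨nb k 0, nb k 2, h1.2.1, h1.1, h1.2.2.symm, ?_, ?_, ?_⟩
    · rw [padj_iff]; exact Or.inl rfl
    · rw [padj_iff]; exact Or.inr (Or.inr rfl)
    · intro j hj
      rw [padj_iff] at hj
      rcases hj with hj | hj | hj
      · exact Or.inr (Or.inl hj.symm)
      · exact Or.inl hj.symm
      · exact Or.inr (Or.inr hj.symm)
  · refine ⟨nb k 0, nb k 1, h1.1, h1.2.1, h1.2.2, ?_, ?_, ?_⟩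
    · rw [padj_iff]; exact Or.inl rfl
    · rw [padj_iff]; exact Or.inr (Or.inl rfl)
    · intro j hj
      rw [padj_iff] at hj
      rcases hj with hj | hj | hj
      · exact Or.inr (Or.inl hj.symm)
      · exact Or.inr (Or.inr hj.symm)
      · exact Or.inl hj.symm

/-- both alternatives -/
lemma main (h : MinC s t S) {w a b : V} {ρ : Fin 10 → Fin 10 → E} (l : L s t S e f w a b κ)
    (q : Sit s t S e f w a b κ ρ)
    (hk : ∀ j, padj k j = true → ¬ (k = κ a ∧ j = κ b ∨ k = κ b ∧ j = κ a))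
    (he : Lv s t κ k pe oe e) (hf : Lv s t κ k pf o2 f) {l0 : Fin 10} (hl : padj k l0 = true)
    (Ml : M l0 = true) (Me : M (κ oe) = true) (Mf : M (κ o2) = true)
    (Mn : ∀ j, padj k j = true → j ≠ l0 → M j = false)
    (hab : ∀ Z : V → Bool, (∀ v, Z v = true → κ v = k) → Z pe = true → Z pf = true → Z a = Z b) :
    (∃ φ, Inn s t S κ k φ ∧ φ e + φ f = φ (ρ k l0)) ∨
      ∃ Z : V → Bool, (∀ v, Z v = true → κ v = k) ∧ Z pe = true ∧ Z pf = true ∧
        L s t S e f w a b (fun v => if Z v = true then l0 else κ v) := by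
  obtain ⟨j1, j2, h12, h1, h2, hj1, hj2, hall⟩ := nbrs k l0 hl
  obtain ⟨aS, ae, af, aJ⟩ := q.mem k l0 hl (hk l0 hl)
  obtain ⟨bS, be', bf, bJ⟩ := q.mem k j1 hj1 (hk j1 hj1)
  obtain ⟨gS, ge, gf, gJ⟩ := q.mem k j2 hj2 (hk j2 hj2)
  obtain ⟨pa, oa, ha, koa⟩ := joins_lv (padj_ne hl) aJ
  obtain ⟨pb, ob, hb, kob⟩ := joins_lv (padj_ne hj1) bJ
  obtain ⟨pg, og, hg, kog⟩ := joins_lv (padj_ne hj2) gJ
  have d : Dat s t S κ k M e f (ρ k l0) (ρ k j1) (ρ k j2) pe oe pf o2 pa oa pb ob pg og :=
    { eS := q.eS, fS := q.fS, aS := aS, bS := bS, gS := gS, he := he, hf := hf, ha := ha,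
      hb := hb, hg := hg, Me := Me, Mf := Mf, Ma := by rw [koa]; exact Ml,
      Mb := by rw [kob]; exact Mn j1 hj1 h1, Mg := by rw [kog]; exact Mn j2 hj2 h2,
      ef := q.ef, ea := ae.symm, fa := af.symm,
      bg := by
        intro h3
        have h4 := (lv_unique hb (h3 ▸ hg)).2
        apply h12
        rw [← kob, ← kog, h4]
      only := by
        intro x hx x1 x2 x3 x4 x5
        have hno : ∀ j, k ≠ j → ¬ Joins κ s t k j x := by
          intro j hj hJ
          obtain ⟨h3, _, h4⟩ := q.only x hx x1 x2 k j hj hJ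
          rcases hall j h3 with rfl | rfl | rfl
          · exact x3 h4
          · exact x4 h4
          · exact x5 h4
        by_cases h3 : κ (s x) = k
        · by_cases h4 : κ (t x) = k
          · exact Or.inl ⟨h3, h4⟩
          · exact absurd (Or.inl ⟨h3, rfl⟩) (hno (κ (t x)) fun h => h4 h.symm)
        · by_cases h4 : κ (t x) = k
          · exact absurd (Or.inr ⟨rfl, h4⟩) (hno (κ (s x)) fun h => h3 h.symm)
          · exact Or.inr ⟨h3, h4⟩ }
  have hlt : (Sp s t S κ k).card < S.card := by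
    apply Finset.card_lt_card
    unfold Sp
    rw [Finset.filter_ssubset]
    obtain ⟨i, j, hij, hi, hj, hn⟩ := far k (κ a) (κ b)
    obtain ⟨xS, _, _, xJ⟩ := q.mem i j hij hn
    refine ⟨ρ i j, xS, ?_⟩
    rintro (h3 | h3) <;> rcases xJ with h4 | h4
    · exact hi (h4.1.symm.trans h3)
    · exact hj (h4.1.symm.trans h3)
    · exact hj (h4.2.symm.trans h3)
    · exact hi (h4.2.symm.trans h3)
  have hodd := odd_pole_card (s := s) (t := t) (S := S) (M := M) (m := oe) (z := ob)
    he.2.2 hb.2.2 (q.odd_le h.odd16 k)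
  by_cases hN : N1 (fun x => gm κ k M oe ob (s x)) (fun x => gm κ k M oe ob (t x))
      (Sp s t S κ k)
  · left
    rcases h.ih _ _ _ hlt hN (hodd.trans (by norm_num)) with h3 | h3
    · exact flow_case d he.2.2 hb.2.2 Me d.Mb h3
    · have := pq_card h3
      omega
  · right
    obtain ⟨X, hX⟩ := not_forall.1 hN
    obtain ⟨c, hc⟩ := Finset.card_eq_one.1 (not_not.1 hX)
    obtain ⟨Z, Zk, Ze, Zf, Za, cS, ce, cf, ca, c1, c2, cZ, hZ⟩ := cut_case d h.n1 h.no2 hc
    refine ⟨Z, Zk, Ze, Zf, ?_⟩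
    exact
      { eS := l.eS, fS := l.fS, ef := l.ef, he := l.he, hf := l.hf,
        pq := recol l hl Zk (hab Z Zk Ze Zf) aS ae af ha koa Za cS ce cf ca c1 c2 cZ hZ }

end

end P2

variable {V E : Type} [Fintype V] [DecidableEq V] [DecidableEq E]

theorem MinC.P2W {s t : E → V} {S : Finset E} (h : MinC s t S) {e f : E} {w a b : V}
    {κ : V → Fin 10} {ρ : Fin 10 → Fin 10 → E} (l : L s t S e f w a b κ)
    (q : Sit s t S e f w a b κ ρ) (l0 : Fin 10) (M : Fin 10 → Bool)
    (hl : padj (κ w) l0 = true) (Mw : M (κ w) = false) (Ml : M l0 = true) (Ma : M (κ a) = true)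
    (Mb : M (κ b) = true) (Mn : ∀ j, padj (κ w) j = true → j ≠ l0 → M j = false) :
    (∃ φ, Inn s t S κ (κ w) φ ∧ φ e + φ f = φ (ρ (κ w) l0)) ∨
      ∃ κ' : V → Fin 10, L s t S e f w a b κ' ∧ κ' w = l0 ∧ κ' a = κ a ∧ κ' b = κ b := by
  have hFF : ∀ b : Bool, (b = true → False) → b = false := by decide
  have hk : ∀ j, padj (κ w) j = true →
      ¬ (κ w = κ a ∧ j = κ b ∨ κ w = κ b ∧ j = κ a) := by
    intro j _ hn
    rcases hn with hn | hn
    · exact q.wa hn.1
    · exact q.wb hn.1
  rcases P2.main h l q hk (pe := w) (oe := a) (pf := w) (o2 := b) ⟨q.he, rfl, q.wa.symm⟩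
    ⟨q.hf, rfl, q.wb.symm⟩ hl Ml Ma Mb Mn (by
      intro Z Zk _ _
      rw [hFF _ fun h => q.wa (Zk _ h).symm, hFF _ fun h => q.wb (Zk _ h).symm]) with h1 | h1
  · exact Or.inl h1
  · right
    obtain ⟨Z, Zk, Ze, _, hL⟩ := h1
    have Za : Z a = false := hFF _ fun h => q.wa (Zk _ h).symm
    have Zb : Z b = false := hFF _ fun h => q.wb (Zk _ h).symm
    refine ⟨_, hL, if_pos Ze, ?_, ?_⟩
    · rw [Za]
      exact if_neg (by decide)
    · rw [Zb]
      exact if_neg (by decide)

theorem MinC.P2A {s t : E → V} {S : Finset E} (h : MinC s t S) {e f : E} {w a b : V}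
    {κ : V → Fin 10} {ρ : Fin 10 → Fin 10 → E} (l : L s t S e f w a b κ)
    (q : Sit s t S e f w a b κ ρ) (hab : κ a = κ b) (l0 : Fin 10) (M : Fin 10 → Bool)
    (hl : padj (κ a) l0 = true) (Ma : M (κ a) = false) (Ml : M l0 = true) (Mw : M (κ w) = true)
    (Mn : ∀ j, padj (κ a) j = true → j ≠ l0 → M j = false) :
    (∃ φ, Inn s t S κ (κ a) φ ∧ φ e + φ f = φ (ρ (κ a) l0)) ∨
      ∃ κ' : V → Fin 10, L s t S e f w a b κ' ∧ κ' w = κ w ∧ κ' a = l0 ∧ κ' b = l0 := by
  have hFF : ∀ b : Bool, (b = true → False) → b = false := by decide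
  have hk : ∀ j, padj (κ a) j = true →
      ¬ (κ a = κ a ∧ j = κ b ∨ κ a = κ b ∧ j = κ a) := by
    intro j hj hn
    have h1 := P2.padj_ne hj
    rcases hn with hn | hn
    · exact h1 (hab.trans hn.2.symm)
    · exact h1 hn.2.symm
  have he : P2.Lv s t κ (κ a) a w e := ⟨q.he.symm.imp (fun h => ⟨h.1, h.2⟩) (fun h => ⟨h.1, h.2⟩),
    rfl, q.wa⟩
  have hf : P2.Lv s t κ (κ a) b w f := ⟨q.hf.symm.imp (fun h => ⟨h.1, h.2⟩) (fun h => ⟨h.1, h.2⟩),
    hab.symm, q.wa⟩
  rcases P2.main h l q hk he hf hl Ml Mw Mw Mn (by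
      intro Z _ Za Zb
      rw [Za, Zb]) with h1 | h1
  · exact Or.inl h1
  · right
    obtain ⟨Z, Zk, Za, Zb, hL⟩ := h1
    have Zw : Z w = false := hFF _ fun h => q.wa (Zk _ h)
    refine ⟨_, hL, ?_, if_pos Za, if_pos Zb⟩
    rw [Zw]
    exact if_neg (by decide)

end Pool.Agent.TH362.TF
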