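import Pool.Agent.H79.LF.Helper879_ECD_Tutte

set_option autoImplicit false

namespace Pool.Agent.Helper879.ECD

open Finset

section Cuts

variable {W E : Type} [DecidableEq W]

/-- number of edges of `M` with exactly one end in `X` -/
def cn (a b : E → W) (M : Finset E) (X : Finset W) : ℕ :=
  (M.filter (fun e => ¬ (a e ∈ X ↔ b e ∈ X))).card

lemma cn_compl [Fintype W] (a b : E → W) (M : Finset E) (X : Finset W) :
    cn a b M Xᶜ = cn a b M X := by
  unfold cn
  congr 1
  apply Finset.filter_congr
  intro e _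
  simp only [Finset.mem_compl]
  tauto

lemma cn_uncross1 (a b : E → W) (M : Finset E) (X Y : Finset W) :
    cn a b M X + cn a b M Y = cn a b M (X ∩ Y) + cn a b M (X ∪ Y) +
      2 * (M.filter (fun e => (a e ∈ X ∧ a e ∉ Y ∧ b e ∈ Y ∧ b e ∉ X) ∨
        (b e ∈ X ∧ b e ∉ Y ∧ a e ∈ Y ∧ a e ∉ X))).card := by
  simp only [cn, Finset.card_filter, Finset.mul_sum, ← Finset.sum_add_distrib]
  apply Finset.sum_congr rfl
  intro e _
  by_cases h1 : a e ∈ X <;> by_cases h2 : a e ∈ Y <;> by_cases h3 : b e ∈ X <;>
    by_cases h4 : b e ∈ Y <;> simp [h1, h2, h3, h4]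

lemma cn_uncross2 (a b : E → W) (M : Finset E) (X Y : Finset W) :
    cn a b M X + cn a b M Y = cn a b M (X \ Y) + cn a b M (Y \ X) +
      2 * (M.filter (fun e => (a e ∈ X ∧ a e ∈ Y ∧ b e ∉ Y ∧ b e ∉ X) ∨
        (b e ∈ X ∧ b e ∈ Y ∧ a e ∉ Y ∧ a e ∉ X))).card := by
  simp only [cn, Finset.card_filter, Finset.mul_sum, ← Finset.sum_add_distrib]
  apply Finset.sum_congr rfl
  intro e _
  by_cases h1 : a e ∈ X <;> by_cases h2 : a e ∈ Y <;> by_cases h3 : b e ∈ X <;>
    by_cases h4 : b e ∈ Y <;> simp [h1, h2, h3, h4]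

lemma sum_cn (a b : E → W) (M : Finset E) (Z : Finset W) :
    ∑ w ∈ Z, cn a b M {w} = cn a b M Z +
      2 * (M.filter (fun e => a e ≠ b e ∧ a e ∈ Z ∧ b e ∈ Z)).card := by
  simp only [cn, Finset.card_filter, Finset.mul_sum]
  rw [Finset.sum_comm, ← Finset.sum_add_distrib]
  apply Finset.sum_congr rfl
  intro e _
  by_cases hab : a e = b e
  · simp [hab]
  · have h : ∀ w ∈ Z, (if ¬ (a e ∈ ({w} : Finset W) ↔ b e ∈ ({w} : Finset W)) then 1 else 0) =
        (if a e = w then 1 else 0) + (if b e = w then 1 else 0) := by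
      intro w _
      simp only [Finset.mem_singleton]
      by_cases h1 : a e = w
      · have h2 : ¬ b e = w := fun h2 => hab (h1.trans h2.symm)
        simp [h1, h2]
      · by_cases h2 : b e = w <;> simp [h1, h2]
    rw [Finset.sum_congr rfl h, Finset.sum_add_distrib]
    by_cases h1 : a e ∈ Z <;> by_cases h2 : b e ∈ Z <;> simp [h1, h2, hab]

variable [Fintype W] [Fintype E]

/-- Perfect matching through a prescribed edge in a bridgeless cubic multigraph. -/
theorem exists_pm [DecidableEq E] (a b : E → W) (hc : ∀ w, cn a b univ {w} = 3)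
    (hb : ∀ X : Finset W, cn a b univ X ≠ 1) (e0 : E) (he0 : a e0 ≠ b e0) :
    ∃ M : Finset E, e0 ∈ M ∧ ∀ w, cn a b M {w} = 1 := by
  classical
  set x0 := a e0 with hx0
  set y0 := b e0 with hy0
  let H : SimpleGraph W :=
    { Adj := fun x y => x ≠ y ∧ ((x = x0 ∧ y = y0) ∨ (x = y0 ∧ y = x0) ∨
        ((x ≠ x0 ∧ x ≠ y0 ∧ y ≠ x0 ∧ y ≠ y0) ∧
          ∃ e, (a e = x ∧ b e = y) ∨ (a e = y ∧ b e = x)))
      symm := ⟨by
        rintro x y ⟨h1, h2⟩
        refine ⟨h1.symm, ?_⟩
        rcases h2 with ⟨h, h'⟩ | ⟨h, h'⟩ | ⟨⟨h, h', h'', h'''⟩, e, he⟩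
        · exact Or.inr (Or.inl ⟨h', h⟩)
        · exact Or.inl ⟨h', h⟩
        · exact Or.inr (Or.inr ⟨⟨h'', h''', h, h'⟩, e, he.symm⟩)⟩
      loopless := ⟨fun x h => h.1 rfl⟩ }
  have hHdef : ∀ x y, H.Adj x y ↔ x ≠ y ∧ ((x = x0 ∧ y = y0) ∨ (x = y0 ∧ y = x0) ∨
        ((x ≠ x0 ∧ x ≠ y0 ∧ y ≠ x0 ∧ y ≠ y0) ∧
          ∃ e, (a e = x ∧ b e = y) ∨ (a e = y ∧ b e = x))) := fun _ _ => Iff.rfl
  have hev : Even (Nat.card W) := by
    have h1 := sum_cn a b univ (univ : Finset W)
    have h2 : cn a b univ (univ : Finset W) = 0 := by simp [cn]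
    rw [h2, Finset.sum_congr rfl (fun w _ => hc w), Finset.sum_const] at h1
    rw [Nat.card_eq_fintype_card, Nat.even_iff]
    simp only [smul_eq_mul, Finset.card_univ] at h1
    omega
  by_cases hM : ∃ M : SimpleGraph.Subgraph H, M.IsPerfectMatching
  · obtain ⟨P, hP⟩ := hM
    rw [SimpleGraph.Subgraph.isPerfectMatching_iff] at hP
    choose mate hmate using hP
    have hm1 : ∀ w, P.Adj w (mate w) := fun w => (hmate w).1
    have hm2 : ∀ w v, P.Adj w v → v = mate w := fun w v h => (hmate w).2 v h
    have hinv : ∀ w, mate (mate w) = w := fun w => (hm2 _ _ (hm1 w).symm).symm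
    have hadj : ∀ w, H.Adj w (mate w) := fun w => (hm1 w).adj_sub
    have hedge : ∀ x y, H.Adj x y → ∃ e, s(a e, b e) = s(x, y) := by
      intro x y h
      rw [hHdef] at h
      rcases h.2 with ⟨h1, h2⟩ | ⟨h1, h2⟩ | ⟨_, e, he⟩
      · exact ⟨e0, by rw [h1, h2]⟩
      · exact ⟨e0, by rw [h1, h2, Sym2.eq_swap]⟩
      · refine ⟨e, ?_⟩
        rcases he with ⟨h1, h2⟩ | ⟨h1, h2⟩
        · rw [h1, h2]
        · rw [h1, h2, Sym2.eq_swap]
    let c : Sym2 W → E := fun s =>
      if s = s(x0, y0) then e0 else if h : ∃ e, s(a e, b e) = s then h.choose else e0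
    have hcs : ∀ x y, H.Adj x y → s(a (c s(x, y)), b (c s(x, y))) = s(x, y) := by
      intro x y h
      by_cases h1 : s(x, y) = s(x0, y0)
      · simp only [c, h1, if_true]
        rfl
      · have h2 := hedge x y h
        simp only [c, h1, if_false, dif_pos h2]
        exact h2.choose_spec
    have hx0m : mate x0 = y0 := by
      have h := hadj x0
      rw [hHdef] at h
      rcases h.2 with ⟨h1, h2⟩ | ⟨h1, h2⟩ | ⟨h1, _⟩
      · exact h2
      · exact absurd h1 he0
      · exact absurd rfl h1.1
    refine ⟨univ.image (fun w => c s(w, mate w)), ?_, ?_⟩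
    · rw [Finset.mem_image]
      refine ⟨x0, Finset.mem_univ _, ?_⟩
      simp only [c, hx0m, if_true]
    · intro w
      unfold cn
      rw [Finset.card_eq_one]
      refine ⟨c s(w, mate w), ?_⟩
      ext e
      simp only [Finset.mem_filter, Finset.mem_image, Finset.mem_univ, true_and,
        Finset.mem_singleton]
      constructor
      · rintro ⟨⟨u, rfl⟩, h⟩
        have h1 := hcs u (mate u) (hadj u)
        have h2 : w = u ∨ w = mate u := by
          have h3 : w ∈ s(a (c s(u, mate u)), b (c s(u, mate u))) := by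
            rw [Sym2.mem_iff]
            by_contra hcon
            push Not at hcon
            apply h
            constructor
            · intro h4; exact absurd h4.symm hcon.1
            · intro h4; exact absurd h4.symm hcon.2
          rw [h1, Sym2.mem_iff] at h3
          exact h3
        rcases h2 with rfl | rfl
        · rfl
        · rw [hinv, Sym2.eq_swap]
      · rintro rfl
        refine ⟨⟨w, rfl⟩, ?_⟩
        have h1 := hcs w (mate w) (hadj w)
        have hne : w ≠ mate w := (hadj w).ne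
        rw [Sym2.eq_iff] at h1
        rcases h1 with ⟨h1, h2⟩ | ⟨h1, h2⟩
        · rw [h1, h2]
          intro h3
          exact hne (h3.1 rfl).symm
        · rw [h1, h2]
          intro h3
          exact hne (h3.2 rfl).symm
  · exfalso
    obtain ⟨U, hU, _⟩ := exists_min_barrier hev hM
    -- the barrier together with the two ends of `e0`
    set Uf : Finset W := univ.filter (· ∈ U) with hUf
    set U' : Finset W := insert x0 (insert y0 Uf) with hU'
    have hmemU' : ∀ w, w ∈ U' ↔ (w = x0 ∨ w = y0 ∨ w ∈ U) := by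
      intro w; simp [hU', hUf]
    set OC : Finset (Finset W) := univ.filter (fun Z => OddComp H U (Z : Set W)) with hOC
    have hcard : {Z | OddComp H U Z}.ncard = OC.card := by
      have h1 : {Z | OddComp H U Z} = (fun F : Finset W => (F : Set W)) '' (OC : Set (Finset W)) := by
        ext Z
        simp only [Set.mem_setOf_eq, Set.mem_image, hOC, Finset.coe_filter, Finset.mem_univ,
          true_and]
        constructor
        · intro h
          refine ⟨univ.filter (· ∈ Z), ?_, ?_⟩
          · have : ((univ.filter (· ∈ Z) : Finset W) : Set W) = Z := by ext; simp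
            rw [this]; exact h
          · ext; simp
        · rintro ⟨F, hF, rfl⟩; exact hF
      rw [h1, Set.ncard_image_of_injective _ Finset.coe_injective, Set.ncard_coe_finset]
    set O0 : Finset (Finset W) := OC.filter (fun Z => x0 ∉ Z ∧ y0 ∉ Z) with hO0
    have hO0mem : ∀ Z ∈ O0, OddComp H U (Z : Set W) ∧ x0 ∉ Z ∧ y0 ∉ Z := by
      intro Z hZ
      rw [hO0, Finset.mem_filter, hOC, Finset.mem_filter] at hZ
      exact ⟨hZ.1.2, hZ.2⟩
    -- edges leaving such a component end in `U'`
    have hleave : ∀ Z ∈ O0, ∀ z y, z ∈ Z → y ∉ Z →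
        (∃ e, (a e = z ∧ b e = y) ∨ (a e = y ∧ b e = z)) → z ∉ U' ∧ y ∈ U' := by
      intro Z hZ z y hz hy he
      obtain ⟨hZ1, hZx, hZy⟩ := hO0mem Z hZ
      have hzx : z ≠ x0 := fun h => hZx (h ▸ hz)
      have hzy : z ≠ y0 := fun h => hZy (h ▸ hz)
      have hzU : z ∉ U := hZ1.notMem (Finset.mem_coe.2 hz)
      constructor
      · rw [hmemU']; push Not; exact ⟨hzx, hzy, hzU⟩
      · by_contra hcon
        rw [hmemU'] at hcon
        push Not at hcon
        apply hy
        have hadj : H.Adj z y := by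
          rw [hHdef]
          refine ⟨fun h => hy (h ▸ hz), Or.inr (Or.inr ⟨⟨hzx, hzy, hcon.1, hcon.2.1⟩, he⟩)⟩
        exact Finset.mem_coe.1 (hZ1.closed (Finset.mem_coe.2 hz) hcon.2.2 hadj)
    have hthree : ∀ Z ∈ O0, 3 ≤ cn a b univ Z := by
      intro Z hZ
      have h1 := sum_cn a b univ Z
      rw [Finset.sum_congr rfl (fun w _ => hc w), Finset.sum_const, smul_eq_mul] at h1
      have h2 := (hO0mem Z hZ).1.2
      rw [Set.ncard_coe_finset, Nat.odd_iff] at h2
      have h3 := hb Z
      omega
    have hdisj : ∀ Z ∈ O0, ∀ Z' ∈ O0, Z ≠ Z' →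
        Disjoint (univ.filter (fun e => ¬ (a e ∈ Z ↔ b e ∈ Z)))
          (univ.filter (fun e => ¬ (a e ∈ Z' ↔ b e ∈ Z'))) := by
      intro Z hZ Z' hZ' hne
      rw [Finset.disjoint_left]
      intro e he he'
      rw [Finset.mem_filter] at he he'
      have key : ∀ z, z ∈ Z → z ∈ Z' → False := by
        intro z hz hz'
        apply hne
        apply Finset.coe_injective
        exact (hO0mem Z hZ).1.eq_of_mem (hO0mem Z' hZ').1 (Finset.mem_coe.2 hz)
          (Finset.mem_coe.2 hz')
      by_cases h1 : a e ∈ Z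
      · have h2 : b e ∉ Z := fun h => he.2 ⟨fun _ => h, fun _ => h1⟩
        have h3 := hleave Z hZ _ _ h1 h2 ⟨e, Or.inl ⟨rfl, rfl⟩⟩
        by_cases h4 : a e ∈ Z'
        · exact key _ h1 h4
        · have h5 : b e ∈ Z' := by
            by_contra h; exact he'.2 ⟨fun h' => absurd h' h4, fun h' => absurd h' h⟩
          have h6 := hleave Z' hZ' _ _ h5 h4 ⟨e, Or.inr ⟨rfl, rfl⟩⟩
          exact h6.1 h3.2
      · have h2 : b e ∈ Z := by
          by_contra h; exact he.2 ⟨fun h' => absurd h' h1, fun h' => absurd h' h⟩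
        have h3 := hleave Z hZ _ _ h2 h1 ⟨e, Or.inr ⟨rfl, rfl⟩⟩
        by_cases h4 : b e ∈ Z'
        · exact key _ h2 h4
        · have h5 : a e ∈ Z' := by
            by_contra h; exact he'.2 ⟨fun h' => absurd h' h, fun h' => absurd h' h4⟩
          have h6 := hleave Z' hZ' _ _ h5 h4 ⟨e, Or.inl ⟨rfl, rfl⟩⟩
          exact h6.1 h3.2
    have hbound : 3 * O0.card ≤ cn a b univ U' := by
      have h1 : (O0.biUnion (fun Z => univ.filter (fun e => ¬ (a e ∈ Z ↔ b e ∈ Z)))).card =
          ∑ Z ∈ O0, cn a b univ Z := Finset.card_biUnion hdisj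
      have h2 : 3 * O0.card ≤ ∑ Z ∈ O0, cn a b univ Z := by
        have := Finset.card_nsmul_le_sum O0 (fun Z => cn a b univ Z) 3 hthree
        rw [smul_eq_mul] at this
        omega
      rw [← h1] at h2
      refine h2.trans (Finset.card_le_card ?_)
      intro e he
      rw [Finset.mem_biUnion] at he
      obtain ⟨Z, hZ, he⟩ := he
      rw [Finset.mem_filter] at he ⊢
      refine ⟨Finset.mem_univ _, ?_⟩
      by_cases h1 : a e ∈ Z
      · have h2 : b e ∉ Z := fun h => he.2 ⟨fun _ => h, fun _ => h1⟩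
        have h3 := hleave Z hZ _ _ h1 h2 ⟨e, Or.inl ⟨rfl, rfl⟩⟩
        intro h; exact h3.1 (h.2 h3.2)
      · have h2 : b e ∈ Z := by
          by_contra h; exact he.2 ⟨fun h' => absurd h' h1, fun h' => absurd h' h⟩
        have h3 := hleave Z hZ _ _ h2 h1 ⟨e, Or.inr ⟨rfl, rfl⟩⟩
        intro h; exact h3.1 (h.1 h3.2)
    have hU'cn : cn a b univ U' + 2 ≤ 3 * U'.card := by
      have h1 := sum_cn a b univ U'
      rw [Finset.sum_congr rfl (fun w _ => hc w), Finset.sum_const, smul_eq_mul] at h1
      have h2 : 0 < (univ.filter (fun e => a e ≠ b e ∧ a e ∈ U' ∧ b e ∈ U')).card := by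
        apply Finset.card_pos.2
        refine ⟨e0, ?_⟩
        rw [Finset.mem_filter]
        exact ⟨Finset.mem_univ _, he0, (hmemU' _).2 (Or.inl rfl), (hmemU' _).2 (Or.inr (Or.inl rfl))⟩
      omega
    have hUcard : U.ncard = Uf.card := by
      rw [← Set.ncard_coe_finset]; congr 1; ext w; simp [hUf]
    rw [hcard, hUcard] at hU
    have hsplit : OC.card ≤ O0.card + (OC.filter (fun Z => ¬ (x0 ∉ Z ∧ y0 ∉ Z))).card := by
      rw [hO0, Finset.card_filter_add_card_filter_not]
    -- case analysis
    have hOCm : ∀ Z ∈ OC, OddComp H U (Z : Set W) := by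
      intro Z hZ; rw [hOC, Finset.mem_filter] at hZ; exact hZ.2
    by_cases hx : x0 ∈ U
    · by_cases hy : y0 ∈ U
      · have h1 : (OC.filter (fun Z => ¬ (x0 ∉ Z ∧ y0 ∉ Z))) = ∅ := by
          rw [Finset.filter_eq_empty_iff]
          intro Z hZ h
          apply h
          exact ⟨fun h => (hOCm Z hZ).notMem (Finset.mem_coe.2 h) hx,
            fun h => (hOCm Z hZ).notMem (Finset.mem_coe.2 h) hy⟩
        rw [h1, Finset.card_empty] at hsplit
        have h2 : U' = Uf := by
          rw [hU', Finset.insert_eq_of_mem, Finset.insert_eq_of_mem]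
          · simp [hUf, hy]
          · simp [hUf, hx]
        rw [h2] at hU'cn hbound
        omega
      · have h1 : (OC.filter (fun Z => ¬ (x0 ∉ Z ∧ y0 ∉ Z))).card ≤ 1 := by
          rw [Finset.card_le_one]
          intro Z hZ Z' hZ'
          rw [Finset.mem_filter] at hZ hZ'
          have h2 : ∀ Z ∈ OC, ¬ (x0 ∉ Z ∧ y0 ∉ Z) → y0 ∈ Z := by
            intro Z hZ h
            by_contra hcon
            exact h ⟨fun h => (hOCm Z hZ).notMem (Finset.mem_coe.2 h) hx, hcon⟩
          apply Finset.coe_injective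
          exact (hOCm Z hZ.1).eq_of_mem (hOCm Z' hZ'.1) (Finset.mem_coe.2 (h2 Z hZ.1 hZ.2))
            (Finset.mem_coe.2 (h2 Z' hZ'.1 hZ'.2))
        have h2 : U'.card = Uf.card + 1 := by
          rw [hU', Finset.insert_eq_of_mem (by simp [hUf, hx]),
            Finset.card_insert_of_notMem (by simp [hUf, hy])]
        omega
    · by_cases hy : y0 ∈ U
      · have h1 : (OC.filter (fun Z => ¬ (x0 ∉ Z ∧ y0 ∉ Z))).card ≤ 1 := by
          rw [Finset.card_le_one]
          intro Z hZ Z' hZ'
          rw [Finset.mem_filter] at hZ hZ'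
          have h2 : ∀ Z ∈ OC, ¬ (x0 ∉ Z ∧ y0 ∉ Z) → x0 ∈ Z := by
            intro Z hZ h
            by_contra hcon
            exact h ⟨hcon, fun h => (hOCm Z hZ).notMem (Finset.mem_coe.2 h) hy⟩
          apply Finset.coe_injective
          exact (hOCm Z hZ.1).eq_of_mem (hOCm Z' hZ'.1) (Finset.mem_coe.2 (h2 Z hZ.1 hZ.2))
            (Finset.mem_coe.2 (h2 Z' hZ'.1 hZ'.2))
        have h2 : U'.card = Uf.card + 1 := by
          rw [hU', Finset.insert_eq_of_mem (a := y0) (by simp [hUf, hy]),
            Finset.card_insert_of_notMem (by simp [hUf, hx])]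
        omega
      · have h1 : (OC.filter (fun Z => ¬ (x0 ∉ Z ∧ y0 ∉ Z))) = ∅ := by
          rw [Finset.filter_eq_empty_iff]
          intro Z hZ h
          have hZ1 := hOCm Z hZ
          have hxy : H.Adj x0 y0 := by
            rw [hHdef]; exact ⟨he0, Or.inl ⟨rfl, rfl⟩⟩
          have hboth : x0 ∈ Z ∧ y0 ∈ Z := by
            by_cases h2 : x0 ∈ Z
            · exact ⟨h2, Finset.mem_coe.1 (hZ1.closed (Finset.mem_coe.2 h2) hy hxy)⟩
            · have h3 : y0 ∈ Z := by
                by_contra h3; exact h ⟨h2, h3⟩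
              exact ⟨Finset.mem_coe.1 (hZ1.closed (Finset.mem_coe.2 h3) hx hxy.symm), h3⟩
          have hsub : Z ⊆ {x0, y0} := by
            intro z hz
            obtain ⟨⟨x, hxU, hZeq⟩, _⟩ := hZ1
            have hr1 : (off H U).Reachable x x0 := by
              have : x0 ∈ (Z : Set W) := Finset.mem_coe.2 hboth.1
              rw [hZeq] at this; exact this
            have hr2 : (off H U).Reachable x z := by
              have : z ∈ (Z : Set W) := Finset.mem_coe.2 hz
              rw [hZeq] at this; exact this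
            obtain ⟨p⟩ := hr1.symm.trans hr2
            have key : ∀ u v : W, (off H U).Walk u v → u ∈ ({x0, y0} : Finset W) →
                v ∈ ({x0, y0} : Finset W) := by
              intro u v p
              induction p with
              | nil => exact id
              | @cons u v w hadj p ih =>
                intro hu
                apply ih
                have h4 := (hHdef _ _).1 hadj.1
                simp only [Finset.mem_insert, Finset.mem_singleton] at hu ⊢
                rcases h4.2 with ⟨_, h6⟩ | ⟨_, h6⟩ | ⟨h6, _⟩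
                · exact Or.inr h6
                · exact Or.inl h6
                · rcases hu with hu | hu
                  · exact absurd hu h6.1
                  · exact absurd hu h6.2.1
            exact key _ _ p (by simp)
          have hZeq : Z = {x0, y0} := by
            apply Finset.Subset.antisymm hsub
            intro z hz
            simp only [Finset.mem_insert, Finset.mem_singleton] at hz
            rcases hz with rfl | rfl
            · exact hboth.1
            · exact hboth.2
          have hodd := hZ1.2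
          rw [Set.ncard_coe_finset, hZeq, Finset.card_pair he0, Nat.odd_iff] at hodd
          omega
        rw [h1, Finset.card_empty] at hsplit
        have h2 : U'.card = Uf.card + 2 := by
          rw [hU', Finset.card_insert_of_notMem, Finset.card_insert_of_notMem]
          · simp [hUf, hy]
          · simp [hUf, hx, he0]
        omega

end Cuts

end Pool.Agent.Helper879.ECD
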