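import Pool.Agent.H79.LF.TH362_TF_Stm
import Mathlib.GroupTheory.Perm.Cycle.Basic
import Mathlib.Data.Fintype.EquivFin
import Mathlib.Data.Finite.Prod

set_option autoImplicit false

namespace Pool.Agent.TH362.TF

open Finset

namespace Ori

/-- Orientation of a finite graph in which every vertex that is not isolated has exactly two
neighbours. -/
theorem abs {V : Type} [Finite V] (A : V → V → Prop) (hs : ∀ u v, A u v → A v u)
    (hi : ∀ v, ¬ A v v) (h2 : ∀ w v, A w v → ∃ u, (A w u ∧ u ≠ v) ∧ ∀ y, A w y → y ≠ v → y = u) :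
    ∃ nx : V → V, (∀ v, (∃ w, A v w) → A v (nx v)) ∧ (∀ v, (∃ w, A v w) → nx (nx v) ≠ v) ∧
      ∀ u v, (∃ w, A u w) → (∃ w, A v w) → nx u = nx v → u = v := by
  classical
  let D := {p : V × V // A p.1 p.2}
  let io : D → D := fun d => ⟨(d.1.2, d.1.1), hs _ _ d.2⟩
  have hio : ∀ d, io (io d) = d := fun d => rfl
  have hex : ∀ d : D, ∃ u, (A d.1.2 u ∧ u ≠ d.1.1) ∧ ∀ y, A d.1.2 y → y ≠ d.1.1 → y = u :=
    fun d => h2 _ _ (hs _ _ d.2)
  choose ot hot hot2 using hex
  let nt : D → D := fun d => ⟨(d.1.2, ot d), (hot d).1⟩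
  -- `io (nt (io (nt d))) = d`
  have hrel : ∀ d, io (nt (io (nt d))) = d := by
    intro d
    have h1 : ot (io (nt d)) = d.1.1 := by
      refine (hot2 (io (nt d)) d.1.1 (hs _ _ d.2) ?_).symm
      exact (hot d).2.symm
    apply Subtype.ext
    show (ot (io (nt d)), d.1.2) = d.1
    rw [h1]
  have hinj : Function.Injective nt := by
    intro a b h
    rw [← hrel a, ← hrel b, h]
  let pi : Equiv.Perm D := Equiv.ofBijective nt (Finite.injective_iff_bijective.1 hinj)
  have hpi : ∀ d, pi d = nt d := fun d => rfl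
  have hconj : ∀ d, io (pi d) = pi.symm (io d) := by
    intro d
    rw [Equiv.eq_symm_apply, hpi, hpi]
    have := hrel d
    have h3 := congrArg io this
    rw [hio] at h3
    exact h3
  have hconjn : ∀ (n : ℕ) d, io ((pi ^ n) d) = (pi⁻¹ ^ n) (io d) := by
    intro n
    induction n with
    | zero => intro d; rfl
    | succ n ih =>
      intro d
      rw [pow_succ, Equiv.Perm.mul_apply, ih, hconj, pow_succ, Equiv.Perm.mul_apply]
      rfl
  have hne : ∀ d, io d ≠ d := by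
    intro d h
    have h1 : d.1.2 = d.1.1 := congrArg (fun x : D => x.1.1) h
    have h2 := d.2
    rw [h1] at h2
    exact hi _ h2
  have hne2 : ∀ d, pi d ≠ io d := by
    intro d h
    have h1 : ot d = d.1.1 := congrArg (fun x : D => x.1.2) h
    exact (hot d).2 h1
  -- no orbit is mapped to itself
  have horb : ∀ d, ¬ pi.SameCycle d (io d) := by
    intro d h
    obtain ⟨n, -, hn⟩ := h.exists_pow_eq'
    obtain ⟨k, hk⟩ | ⟨k, hk⟩ := Nat.even_or_odd n
    · rw [hk, pow_add, Equiv.Perm.mul_apply] at hn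
      have h1 : (pi ^ k) d = (pi⁻¹ ^ k) (io d) := by
        rw [← hn, inv_pow]
        exact ((pi ^ k).symm_apply_apply _).symm
      rw [← hconjn] at h1
      exact hne _ h1.symm
    · rw [hk, two_mul, add_assoc, pow_add, Equiv.Perm.mul_apply] at hn
      have h1 : (pi ^ (k + 1)) d = (pi⁻¹ ^ k) (io d) := by
        rw [← hn, inv_pow]
        exact ((pi ^ k).symm_apply_apply _).symm
      rw [← hconjn, pow_succ', Equiv.Perm.mul_apply] at h1
      exact hne2 _ h1
  -- a number for every orbit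
  let r : Setoid D := Equiv.Perm.SameCycle.setoid pi
  have hfin : Finite (Quotient r) := Quotient.finite r
  obtain ⟨n, ⟨en⟩⟩ := Finite.exists_equiv_fin (Quotient r)
  let f : D → Fin n := fun d => en (Quotient.mk r d)
  have hf : ∀ a b, f a = f b ↔ pi.SameCycle a b := by
    intro a b
    rw [show (f a = f b ↔ en (Quotient.mk r a) = en (Quotient.mk r b)) from Iff.rfl,
      en.apply_eq_iff_eq, Quotient.eq]
    rfl
  have hfpi : ∀ d, f (pi d) = f d := by
    intro d
    rw [hf]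
    exact Equiv.Perm.sameCycle_apply_left.2 (Equiv.Perm.SameCycle.refl _ _)
  have hfio : ∀ d, f (io (pi d)) = f (io d) := by
    intro d
    rw [hconj, ← hfpi (pi.symm (io d)), Equiv.apply_symm_apply]
  have hfne : ∀ d, f d ≠ f (io d) := fun d h => horb d ((hf _ _).1 h)
  let P : D → Prop := fun d => f d < f (io d)
  have hP1 : ∀ d, P (pi d) ↔ P d := by
    intro d
    show f (pi d) < f (io (pi d)) ↔ f d < f (io d)
    rw [hfpi, hfio]
  have hP2 : ∀ d, P (io d) ↔ ¬ P d := by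
    intro d
    show f (io d) < f (io (io d)) ↔ ¬ f d < f (io d)
    rw [hio, not_lt]
    exact ⟨le_of_lt, fun h => lt_of_le_of_ne h (fun h' => hfne d h'.symm)⟩
  -- the successor
  have hsucc : ∀ v, (∃ w, A v w) → ∃ w, ∃ h : A v w, P ⟨(v, w), h⟩ := by
    rintro v ⟨w, h⟩
    by_cases hp : P ⟨(v, w), h⟩
    · exact ⟨w, h, hp⟩
    · have h1 : P (io ⟨(v, w), h⟩) := (hP2 _).2 hp
      have h3 : P (pi (io ⟨(v, w), h⟩)) := (hP1 _).2 h1
      exact ⟨ot (io ⟨(v, w), h⟩), (hot (io ⟨(v, w), h⟩)).1, h3⟩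
  let nx : V → V := fun v => if h : ∃ w, A v w then (hsucc v h).choose else v
  have hnx : ∀ v, (∃ w, A v w) → ∃ h : A v (nx v), P ⟨(v, nx v), h⟩ := by
    intro v h
    have h1 : nx v = (hsucc v h).choose := dif_pos h
    rw [h1]
    exact (hsucc v h).choose_spec
  refine ⟨nx, fun v h => (hnx v h).1, ?_, ?_⟩
  · intro v h he
    obtain ⟨h1, hp1⟩ := hnx v h
    obtain ⟨h3, hp3⟩ := hnx (nx v) ⟨v, hs _ _ h1⟩
    have h4 : (⟨(nx v, nx (nx v)), h3⟩ : D) = io ⟨(v, nx v), h1⟩ := by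
      apply Subtype.ext
      show (nx v, nx (nx v)) = (nx v, v)
      rw [he]
    rw [h4] at hp3
    exact (hP2 _).1 hp3 hp1
  · intro u v hu hv huv
    by_contra hne'
    obtain ⟨h1, hp1⟩ := hnx u hu
    obtain ⟨h3, hp3⟩ := hnx v hv
    have h5 : P (pi ⟨(u, nx u), h1⟩) := (hP1 _).2 hp1
    have h3' : A v (nx u) := by rw [huv]; exact h3
    have h6 : pi ⟨(u, nx u), h1⟩ = io ⟨(v, nx v), h3⟩ := by
      apply Subtype.ext
      show (nx u, ot ⟨(u, nx u), h1⟩) = (nx v, v)
      rw [← hot2 ⟨(u, nx u), h1⟩ v (hs _ _ h3') (fun h => hne' h.symm), huv]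
    rw [h6] at h5
    exact (hP2 _).1 h5 hp3

end Ori

variable {V E : Type} [Fintype V] [DecidableEq V] [DecidableEq E]

namespace Ori

omit [Fintype V] [DecidableEq V] [DecidableEq E] in
theorem ends_symm {s t : E → V} {u v : V} {e : E} (h : Ends s t u v e) : Ends s t v u e := by
  rcases h with h | h
  · exact Or.inr h
  · exact Or.inl h

omit [Fintype V] [DecidableEq V] [DecidableEq E] in
theorem ends_unique {s t : E → V} {u v w : V} {e : E} (h : Ends s t u v e)
    (h' : Ends s t u w e) : v = w := by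
  rcases h with ⟨h1, h2⟩ | ⟨h1, h2⟩ <;> rcases h' with ⟨h3, h4⟩ | ⟨h3, h4⟩ <;> aesop

omit [Fintype V] [DecidableEq V] [DecidableEq E] in
theorem ends_inc {s t : E → V} {u v : V} {e : E} (h : Ends s t u v e) : s e = u ∨ t e = u := by
  rcases h with ⟨h1, h2⟩ | ⟨h1, h2⟩
  · exact Or.inl h1
  · exact Or.inr h2

omit [Fintype V] [DecidableEq V] [DecidableEq E] in
theorem inc_ends {s t : E → V} {u : V} {e : E} (h : s e = u ∨ t e = u) :
    ∃ v, Ends s t u v e := by
  rcases h with h | h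
  · exact ⟨t e, Or.inl ⟨h, rfl⟩⟩
  · exact ⟨s e, Or.inr ⟨rfl, h⟩⟩

omit [Fintype V] [DecidableEq E] in
/-- The edges at `v`. -/
theorem deg_eq {s t : E → V} {S : Finset E} (hl : ∀ e ∈ S, s e ≠ t e) (v : V) :
    deg s t S v = (S.filter (fun e => s e = v ∨ t e = v)).card := by
  rw [Finset.card_filter]
  unfold deg
  apply Finset.sum_congr rfl
  intro e he
  have := hl e he
  by_cases h1 : s e = v
  · have h2 : ¬ t e = v := fun h => this (h1.trans h.symm)
    simp [h1, h2]
  · by_cases h2 : t e = v <;> simp [h1, h2]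

end Ori

/-- orientation of the 2-factor -/
theorem orient {s t : E → V} {S M : Finset E} (hl : ∀ e ∈ S, s e ≠ t e)
    (hc : ∀ v, deg s t S v = 0 ∨ deg s t S v = 3) (hMS : M ⊆ S)
    (hM : ∀ v, deg s t S v = 3 → ∃! e, e ∈ M ∧ (s e = v ∨ t e = v))
    (np : ∀ u v e e', e ∈ S → e' ∈ S → e ≠ e' → Ends s t u v e → Ends s t u v e' → False) :
    ∃ nx mt : V → V, (∀ v, deg s t S v = 3 → deg s t S (nx v) = 3 ∧ deg s t S (mt v) = 3 ∧
      mt (mt v) = v ∧ (∃ e ∈ M, Ends s t v (mt v) e) ∧ (∃ e ∈ S, e ∉ M ∧ Ends s t v (nx v) e) ∧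
      nx (nx v) ≠ v) ∧ ∀ u v, deg s t S u = 3 → deg s t S v = 3 → nx u = nx v → u = v := by
  classical
  have hd3 : ∀ e ∈ S, ∀ v, s e = v ∨ t e = v → deg s t S v = 3 := by
    intro e he v hv
    rcases hc v with h | h
    · exfalso
      rw [Ori.deg_eq hl, Finset.card_eq_zero] at h
      have h1 : e ∈ S.filter (fun e => s e = v ∨ t e = v) := Finset.mem_filter.2 ⟨he, hv⟩
      rw [h] at h1
      exact Finset.notMem_empty _ h1
    · exact h
  have hinc3 : ∀ v, deg s t S v = 3 → (S.filter (fun e => s e = v ∨ t e = v)).card = 3 := by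
    intro v hv
    rw [← Ori.deg_eq hl]
    exact hv
  -- exactly two edges outside `M`
  have htwo : ∀ v, deg s t S v = 3 →
      ((S.filter (fun e => s e = v ∨ t e = v)).filter (fun e => e ∉ M)).card = 2 := by
    intro v hv
    obtain ⟨e, ⟨heM, hev⟩, heu⟩ := hM v hv
    have h1 : (S.filter (fun e => s e = v ∨ t e = v)).filter (fun e => e ∉ M) =
        (S.filter (fun e => s e = v ∨ t e = v)).erase e := by
      ext x
      simp only [Finset.mem_filter, Finset.mem_erase]
      constructor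
      · rintro ⟨⟨hx1, hx2⟩, hx3⟩
        exact ⟨fun h => hx3 (h ▸ heM), hx1, hx2⟩
      · rintro ⟨hx1, hx2, hx3⟩
        exact ⟨⟨hx2, hx3⟩, fun h => hx1 (heu x ⟨h, hx3⟩)⟩
    rw [h1, Finset.card_erase_of_mem (Finset.mem_filter.2 ⟨hMS heM, hev⟩), hinc3 v hv]
  let A : V → V → Prop := fun u v => ∃ e ∈ S, e ∉ M ∧ Ends s t u v e
  have hAs : ∀ u v, A u v → A v u := by
    rintro u v ⟨e, he, hm, hh⟩
    exact ⟨e, he, hm, Ori.ends_symm hh⟩
  have hAi : ∀ v, ¬ A v v := by
    rintro v ⟨e, he, hm, hh⟩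
    rcases hh with ⟨h1, h2⟩ | ⟨h1, h2⟩
    · exact hl e he (h1.trans h2.symm)
    · exact hl e he (h1.trans h2.symm)
  have hA3 : ∀ u v, A u v → deg s t S u = 3 := by
    rintro u v ⟨e, he, hm, hh⟩
    exact hd3 e he u (Ori.ends_inc hh)
  have h3A : ∀ v, deg s t S v = 3 → ∃ w, A v w := by
    intro v hv
    have h := htwo v hv
    have hpos : 0 < ((S.filter (fun e => s e = v ∨ t e = v)).filter (fun e => e ∉ M)).card := by
      omega
    obtain ⟨e, he⟩ := Finset.card_pos.1 hpos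
    simp only [Finset.mem_filter] at he
    obtain ⟨w, hw⟩ := Ori.inc_ends he.1.2
    exact ⟨w, e, he.1.1, he.2, hw⟩
  have hA2 : ∀ w v, A w v → ∃ u, (A w u ∧ u ≠ v) ∧ ∀ y, A w y → y ≠ v → y = u := by
    rintro w v ⟨e, he, hm, hh⟩
    have hw3 := hd3 e he w (Ori.ends_inc hh)
    have hcard := htwo w hw3
    have hemem : e ∈ (S.filter (fun e => s e = w ∨ t e = w)).filter (fun e => e ∉ M) := by
      simp only [Finset.mem_filter]
      exact ⟨⟨he, Ori.ends_inc hh⟩, hm⟩
    have h1 : (((S.filter (fun e => s e = w ∨ t e = w)).filter (fun e => e ∉ M)).erase e).card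
        = 1 := by
      rw [Finset.card_erase_of_mem hemem, hcard]
    obtain ⟨e', he'⟩ := Finset.card_eq_one.1 h1
    have he'mem : e' ∈ ((S.filter (fun e => s e = w ∨ t e = w)).filter
        (fun e => e ∉ M)).erase e := by
      rw [he']
      exact Finset.mem_singleton_self _
    have he'2 := he'mem
    simp only [Finset.mem_erase, Finset.mem_filter] at he'2
    obtain ⟨hne, ⟨he'S, he'w⟩, he'M⟩ := he'2
    obtain ⟨u, hu⟩ := Ori.inc_ends he'w
    refine ⟨u, ⟨⟨e', he'S, he'M, hu⟩, ?_⟩, ?_⟩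
    · intro huv
      rw [huv] at hu
      exact np w v e' e he'S he hne hu hh
    · rintro y ⟨g, hg, hgM, hgy⟩ hyv
      have hge : g ≠ e := by
        intro h
        rw [h] at hgy
        exact hyv (Ori.ends_unique hgy hh)
      have hgmem : g ∈ ((S.filter (fun e => s e = w ∨ t e = w)).filter
          (fun e => e ∉ M)).erase e := by
        simp only [Finset.mem_erase, Finset.mem_filter]
        exact ⟨hge, ⟨hg, Ori.ends_inc hgy⟩, hgM⟩
      rw [he', Finset.mem_singleton] at hgmem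
      rw [hgmem] at hgy
      exact Ori.ends_unique hgy hu
  obtain ⟨nx, hnx1, hnx2, hnx3⟩ := Ori.abs A hAs hAi hA2
  -- the matching
  have hmt : ∀ v, deg s t S v = 3 → ∃ w, ∃ e ∈ M, Ends s t v w e := by
    intro v hv
    obtain ⟨e, ⟨heM, hev⟩, -⟩ := hM v hv
    obtain ⟨w, hw⟩ := Ori.inc_ends hev
    exact ⟨w, e, heM, hw⟩
  let mt : V → V := fun v => if h : deg s t S v = 3 then (hmt v h).choose else v
  have hmt' : ∀ v, deg s t S v = 3 → ∃ e ∈ M, Ends s t v (mt v) e := by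
    intro v h
    have h1 : mt v = (hmt v h).choose := dif_pos h
    rw [h1]
    exact (hmt v h).choose_spec
  refine ⟨nx, mt, ?_, ?_⟩
  · intro v hv
    have hvA := h3A v hv
    have hAv := hnx1 v hvA
    obtain ⟨e, heM, hev⟩ := hmt' v hv
    have hm3 : deg s t S (mt v) = 3 := hd3 e (hMS heM) _ (Ori.ends_inc (Ori.ends_symm hev))
    refine ⟨hA3 _ _ (hAs _ _ hAv), hm3, ?_, ⟨e, heM, hev⟩, hAv, hnx2 v hvA⟩
    obtain ⟨e', he'M, he'v⟩ := hmt' (mt v) hm3
    have hee : e' = e :=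
      (hM (mt v) hm3).unique ⟨he'M, Ori.ends_inc he'v⟩ ⟨heM, Ori.ends_inc (Ori.ends_symm hev)⟩
    rw [hee] at he'v
    exact Ori.ends_unique he'v (Ori.ends_symm hev)
  · intro u v hu hv h
    exact hnx3 u v (h3A u hu) (h3A v hv) h

end Pool.Agent.TH362.TF
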