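import Pool.Agent.H79.LF.TH362_TF_Stm
import Pool.Agent.H79.LF.TH362_TF_Ori
import Mathlib.Logic.Equiv.Fin.Basic
import Mathlib.Data.Fintype.EquivFin

/-!
Translation of a cubic graph with a perfect matching to a permutation and an involution of
`Fin n`.
-/

set_option autoImplicit false

namespace Pool.Agent.TH362.TF

open Finset

set_option linter.unusedSectionVars false

variable {V E : Type} [Fintype V] [DecidableEq V] [DecidableEq E]

namespace Rep

theorem Ends.symm {s t : E → V} {u v : V} {e : E} (h : Ends s t u v e) : Ends s t v u e := by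
  rcases h with h | h
  · exact Or.inr h
  · exact Or.inl h

theorem Adj.symm {s t : E → V} {S : Finset E} {u v : V} (h : Adj s t S u v) :
    Adj s t S v u := by
  obtain ⟨e, he, h⟩ := h
  exact ⟨e, he, Ends.symm h⟩

theorem Adj.ne {s t : E → V} {S : Finset E} (hl : ∀ e ∈ S, s e ≠ t e) {u v : V}
    (h : Adj s t S u v) : u ≠ v := by
  obtain ⟨e, he, h⟩ := h
  rintro rfl
  rcases h with ⟨h1, h2⟩ | ⟨h1, h2⟩ <;> exact hl e he (h1.trans h2.symm)

/-- An edge at `v` makes the degree positive. -/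
theorem deg_ne {s t : E → V} {S : Finset E} {v : V} {e : E} (he : e ∈ S)
    (h : s e = v ∨ t e = v) : deg s t S v ≠ 0 := by
  unfold deg
  have h1 := Finset.single_le_sum
    (f := fun e => ((if s e = v then 1 else 0) + (if t e = v then 1 else 0) : ℕ))
    (fun _ _ => Nat.zero_le _) he
  have h2 : 1 ≤ ((if s e = v then 1 else 0) + (if t e = v then 1 else 0) : ℕ) := by
    rcases h with h | h <;> simp [h]
  exact Nat.one_le_iff_ne_zero.1 (h2.trans h1)

/-- Without loops the degree counts the edges at `v`. -/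
theorem deg_card {s t : E → V} {S : Finset E} (hl : ∀ e ∈ S, s e ≠ t e) (v : V) :
    deg s t S v = (S.filter (fun e => s e = v ∨ t e = v)).card := by
  unfold deg
  rw [Finset.card_filter]
  refine Finset.sum_congr rfl fun e he => ?_
  have := hl e he
  by_cases h1 : s e = v
  · have h2 : t e ≠ v := fun h => this (h1.trans h.symm)
    simp [h1, h2]
  · by_cases h2 : t e = v <;> simp [h1, h2]

theorem padj_iff (k l : Fin 10) : padj k l = true ↔ l = nb k 0 ∨ l = nb k 1 ∨ l = nb k 2 := by
  revert k l; decide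

theorem padj_symm (k l : Fin 10) (h : padj k l = true) : padj l k = true := by
  revert k l; decide

theorem three {k a b c l : Fin 10} (ha : padj k a = true) (hb : padj k b = true)
    (hc : padj k c = true) (hab : a ≠ b) (hac : a ≠ c) (hbc : b ≠ c) (hl : padj k l = true) :
    l = a ∨ l = b ∨ l = c := by
  have h1 : ({a, b, c} : Finset (Fin 10)) ⊆ {nb k 0, nb k 1, nb k 2} := by
    intro x hx
    simp only [Finset.mem_insert, Finset.mem_singleton] at hx ⊢
    rcases hx with rfl | rfl | rfl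
    · exact (padj_iff _ _).1 ha
    · exact (padj_iff _ _).1 hb
    · exact (padj_iff _ _).1 hc
  have h2 : ({a, b, c} : Finset (Fin 10)).card = 3 := by
    rw [Finset.card_insert_of_notMem, Finset.card_insert_of_notMem, Finset.card_singleton]
    · simpa using hbc
    · simp [hab, hac]
  have h3 : ({nb k 0, nb k 1, nb k 2} : Finset (Fin 10)).card ≤ 3 := Finset.card_le_three
  have h4 := Finset.eq_of_subset_of_card_le h1 (by omega)
  have h5 : l ∈ ({nb k 0, nb k 1, nb k 2} : Finset (Fin 10)) := by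
    simp only [Finset.mem_insert, Finset.mem_singleton]
    exact (padj_iff _ _).1 hl
  rw [← h4] at h5
  simpa using h5

/-- The three colours. -/
def co (i : Fin 3) : F := if i = 0 then (1, 0) else if i = 1 then (0, 1) else (1, 1)

theorem co_ne (i : Fin 3) : co i ≠ 0 := by revert i; decide

theorem co_sum (i j k : Fin 3) (h1 : i ≠ j) (h2 : i ≠ k) (h3 : j ≠ k) :
    co i + co j + co k = 0 := by revert i j k; decide

end Rep

open Rep in
theorem rep {s t : E → V} {S : Finset E} (hl : ∀ e ∈ S, s e ≠ t e)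
    (hc : ∀ v, deg s t S v = 0 ∨ deg s t S v = 3) (ho : (odd s t S).card ≤ 16)
    (hM : ∃ M ⊆ S, ∀ v, deg s t S v = 3 → ∃! e, e ∈ M ∧ (s e = v ∨ t e = v))
    (np : ∀ u v e e', e ∈ S → e' ∈ S → e ≠ e' → Ends s t u v e → Ends s t u v e' → False)
    (n3 : ∀ a b c, Adj s t S a b → Adj s t S b c → Adj s t S c a → False)
    (n4 : ∀ a b c d, a ≠ c → b ≠ d → Adj s t S a b → Adj s t S b c → Adj s t S c d →
      Adj s t S d a → False)
    (fm : ∀ n, n ≤ 16 → ∀ (p : Equiv.Perm (Fin n)) (m : Fin n → Fin n), Gi n p m →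
      Col n p m ∨ Pet n p m) : NZ s t S ∨ PQ s t S := by
  classical
  obtain ⟨M, hMS, hM⟩ := hM
  obtain ⟨nx, mt, hnm, hinj⟩ := orient hl hc hMS hM np
  -- degrees
  have d3 : ∀ v e, e ∈ S → (s e = v ∨ t e = v) → deg s t S v = 3 := fun v e he h =>
    (hc v).resolve_left (deg_ne he h)
  have dnx : ∀ v, deg s t S v = 3 → deg s t S (nx v) = 3 := fun v h => (hnm v h).1
  have dmt : ∀ v, deg s t S v = 3 → deg s t S (mt v) = 3 := fun v h => (hnm v h).2.1
  have mm : ∀ v, deg s t S v = 3 → mt (mt v) = v := fun v h => (hnm v h).2.2.1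
  have am : ∀ v, deg s t S v = 3 → Adj s t S v (mt v) := fun v h => by
    obtain ⟨e, he, h⟩ := (hnm v h).2.2.2.1
    exact ⟨e, hMS he, h⟩
  have an : ∀ v, deg s t S v = 3 → Adj s t S v (nx v) := fun v h => by
    obtain ⟨e, he, -, h⟩ := (hnm v h).2.2.2.2.1
    exact ⟨e, he, h⟩
  have nn : ∀ v, deg s t S v = 3 → nx (nx v) ≠ v := fun v h => (hnm v h).2.2.2.2.2
  have mn : ∀ v, deg s t S v = 3 → mt v ≠ nx v := by
    intro v h hh
    obtain ⟨e, he, h1⟩ := (hnm v h).2.2.2.1
    obtain ⟨e', he', hn, h2⟩ := (hnm v h).2.2.2.2.1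
    rw [hh] at h1
    exact np v (nx v) e e' (hMS he) he' (fun h => hn (h ▸ he)) h1 h2
  -- the finite set of the vertices of degree three
  let D := {v : V // deg s t S v = 3}
  have hn : Fintype.card D ≤ 16 := by
    refine le_trans (le_of_eq ?_) ho
    rw [Fintype.card_subtype]
    congr 1
    unfold odd
    refine Finset.filter_congr fun v _ => ?_
    rcases hc v with h | h
    · rw [h]; decide
    · rw [h]; decide
  let nD : D → D := fun v => ⟨nx v.1, dnx v.1 v.2⟩
  let mD : D → D := fun v => ⟨mt v.1, dmt v.1 v.2⟩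
  have nDi : Function.Injective nD := by
    intro u v h
    exact Subtype.ext (hinj u.1 v.1 u.2 v.2 (congrArg Subtype.val h))
  let nE : D ≃ D := Equiv.ofBijective nD (Finite.injective_iff_bijective.1 nDi)
  let q : D ≃ Fin (Fintype.card D) := Fintype.equivFin D
  let p : Equiv.Perm (Fin (Fintype.card D)) := (q.symm.trans nE).trans q
  let m : Fin (Fintype.card D) → Fin (Fintype.card D) := fun i => q (mD (q.symm i))
  have hp : ∀ v : D, p (q v) = q (nD v) := by
    intro v
    simp [p, nE]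
  have hm : ∀ v : D, m (q v) = q (mD v) := by
    intro v
    simp [m]
  have nDv : ∀ v : D, (nD v).1 = nx v.1 := fun v => rfl
  have mDv : ∀ v : D, (mD v).1 = mt v.1 := fun v => rfl
  have hext : ∀ a b : D, a = b ↔ a.1 = b.1 := fun a b => Subtype.ext_iff
  have gi : Gi (Fintype.card D) p m := by
    refine ⟨?_, ?_, ?_, ?_, ?_, ?_, ?_, ?_, ?_, ?_, ?_⟩ <;> intro i <;>
      obtain ⟨v, rfl⟩ := q.surjective i <;> simp only [hp, hm, ne_eq, q.injective.eq_iff,
        hext, nDv, mDv]
    · exact mm v.1 v.2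
    · exact fun h => Adj.ne hl (am v.1 v.2) h.symm
    · exact fun h => Adj.ne hl (an v.1 v.2) h.symm
    · exact nn v.1 v.2
    · intro h
      have h1 := an v.1 v.2
      have h2 := an _ (dnx v.1 v.2)
      have h3 := an _ (dnx _ (dnx v.1 v.2))
      rw [h] at h3
      exact n3 _ _ _ h1 h2 h3
    · intro h
      have h1 := an v.1 v.2
      have h2 := an _ (dnx v.1 v.2)
      have h3 := an _ (dnx _ (dnx v.1 v.2))
      have h4 := an _ (dnx _ (dnx _ (dnx v.1 v.2)))
      rw [h] at h4
      exact n4 _ _ _ _ (nn v.1 v.2).symm (nn _ (dnx v.1 v.2)).symm h1 h2 h3 h4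
    · exact mn v.1 v.2
    · intro h
      have h1 := an v.1 v.2
      have h2 := an _ (dnx v.1 v.2)
      have h3 := Adj.symm (am v.1 v.2)
      rw [h] at h3
      exact n3 _ _ _ h1 h2 h3
    · intro h
      have h1 := an v.1 v.2
      have h2 := an _ (dnx v.1 v.2)
      have h3 := an _ (dnx _ (dnx v.1 v.2))
      have h4 := Adj.symm (am v.1 v.2)
      rw [h] at h4
      exact n4 _ _ _ _ (nn v.1 v.2).symm (nn _ (dnx v.1 v.2)).symm h1 h2 h3 h4
    · intro h
      have h1 := an v.1 v.2
      have h2 := am _ (dnx v.1 v.2)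
      have h3 := Adj.symm (an _ (dmt v.1 v.2))
      have h4 := Adj.symm (am v.1 v.2)
      rw [← h] at h3
      refine n4 _ _ _ _ ?_ (mn v.1 v.2).symm h1 h2 h3 h4
      intro h5
      have h6 := congrArg mt h5
      rw [mm _ (dnx v.1 v.2)] at h6
      exact mn v.1 v.2 h6
    · intro h
      have h1 := an v.1 v.2
      have h2 := am _ (dnx v.1 v.2)
      have h3 := an _ (dmt _ (dnx v.1 v.2))
      have h4 := Adj.symm (am v.1 v.2)
      rw [h] at h3
      refine n4 _ _ _ _ ?_ (mn v.1 v.2).symm h1 h2 h3 h4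
      intro h5
      have h6 := congrArg mt h5
      rw [mm _ (dnx v.1 v.2)] at h6
      exact mn v.1 v.2 h6
  -- the previous vertex
  have hsurj : ∀ v, deg s t S v = 3 → ∃ u, deg s t S u = 3 ∧ nx u = v := by
    intro v hv
    obtain ⟨u, hu⟩ := (Finite.injective_iff_surjective.1 nDi) ⟨v, hv⟩
    exact ⟨u.1, u.2, congrArg Subtype.val hu⟩
  -- the three edges at a vertex
  have star : ∀ u, deg s t S u = 3 → ∃ e1 e2 e3, e1 ∈ M ∧ Ends s t (nx u) (mt (nx u)) e1 ∧
      (e2 ∈ S ∧ e2 ∉ M ∧ Ends s t (nx u) (nx (nx u)) e2) ∧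
      (e3 ∈ S ∧ e3 ∉ M ∧ Ends s t u (nx u) e3) ∧ e1 ≠ e2 ∧ e1 ≠ e3 ∧ e2 ≠ e3 ∧
      S.filter (fun e => s e = nx u ∨ t e = nx u) = {e1, e2, e3} := by
    intro u hu
    have hv := dnx u hu
    obtain ⟨e1, he1, h1⟩ := (hnm _ hv).2.2.2.1
    obtain ⟨e2, he2, hn2, h2⟩ := (hnm _ hv).2.2.2.2.1
    obtain ⟨e3, he3, hn3, h3⟩ := (hnm _ hu).2.2.2.2.1
    have h12 : e1 ≠ e2 := fun h => hn2 (h ▸ he1)
    have h13 : e1 ≠ e3 := fun h => hn3 (h ▸ he1)
    have h23 : e2 ≠ e3 := by
      rintro rfl
      rcases h2 with ⟨a, b⟩ | ⟨a, b⟩ <;> rcases h3 with ⟨c, d⟩ | ⟨c, d⟩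
      · exact hl _ he2 (a.trans d.symm)
      · exact nn u hu (b.symm.trans d)
      · exact nn u hu (a.symm.trans c)
      · exact hl _ he2 (c.trans b.symm)
    refine ⟨e1, e2, e3, he1, h1, ⟨he2, hn2, h2⟩, ⟨he3, hn3, h3⟩, h12, h13, h23, ?_⟩
    symm
    apply Finset.eq_of_subset_of_card_le
    · intro x hx
      simp only [Finset.mem_insert, Finset.mem_singleton] at hx
      rw [Finset.mem_filter]
      rcases hx with rfl | rfl | rfl
      · refine ⟨hMS he1, ?_⟩
        rcases h1 with h | h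
        · exact Or.inl h.1
        · exact Or.inr h.2
      · refine ⟨he2, ?_⟩
        rcases h2 with h | h
        · exact Or.inl h.1
        · exact Or.inr h.2
      · refine ⟨he3, ?_⟩
        rcases h3 with h | h
        · exact Or.inr h.2
        · exact Or.inl h.1
    · rw [← deg_card hl, hv, Finset.card_insert_of_notMem, Finset.card_insert_of_notMem,
        Finset.card_singleton]
      · simpa using h23
      · simp [h12, h13]
  rcases fm _ hn p m gi with ⟨c, d, hcd⟩ | ⟨κ0, hκ⟩
  · left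
    let c' : V → Fin 3 := fun v => if h : deg s t S v = 3 then c (q ⟨v, h⟩) else 0
    let d' : V → Fin 3 := fun v => if h : deg s t S v = 3 then d (q ⟨v, h⟩) else 0
    have hc' : ∀ v (h : deg s t S v = 3), c' v = c (q ⟨v, h⟩) := fun v h => by simp [c', h]
    have hd' : ∀ v (h : deg s t S v = 3), d' v = d (q ⟨v, h⟩) := fun v h => by simp [d', h]
    have hcd' : ∀ v, deg s t S v = 3 → d' (mt v) = d' v ∧ c' v ≠ c' (nx v) ∧ d' v ≠ c' v ∧
        d' (nx v) ≠ c' v := by
      intro v h
      have := hcd (q ⟨v, h⟩)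
      rw [hp, hm] at this
      rw [hd' _ (dmt v h), hd' v h, hc' v h, hc' _ (dnx v h), hd' _ (dnx v h)]
      exact this
    let φ : E → F := fun e => if e ∈ M then co (d' (s e)) else
      if nx (s e) = t e then co (c' (s e)) else co (c' (t e))
    refine ⟨φ, ?_, ?_⟩
    · intro e _
      simp only [φ]
      split_ifs <;> exact co_ne _
    · intro v
      rcases hc v with h0 | h0
      · unfold Cons
        refine Finset.sum_eq_zero fun e he => ?_
        have h1 : s e ≠ v := fun h => deg_ne he (Or.inl h) h0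
        have h2 : t e ≠ v := fun h => deg_ne he (Or.inr h) h0
        simp [h1, h2]
      · obtain ⟨u, hu, rfl⟩ := hsurj v h0
        obtain ⟨e1, e2, e3, he1, h1, ⟨he2, hn2, h2⟩, ⟨he3, hn3, h3⟩, h12, h13, h23, hS⟩ :=
          star u hu
        have f1 : φ e1 = co (d' (nx u)) := by
          simp only [φ, if_pos he1]
          rcases h1 with ⟨a, b⟩ | ⟨a, b⟩
          · rw [a]
          · rw [a, (hcd' _ h0).1]
        have f2 : φ e2 = co (c' (nx u)) := by
          simp only [φ, if_neg hn2]
          rcases h2 with ⟨a, b⟩ | ⟨a, b⟩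
          · rw [a, b, if_pos rfl]
          · rw [a, b, if_neg (nn _ (dnx _ hu))]
        have f3 : φ e3 = co (c' u) := by
          simp only [φ, if_neg hn3]
          rcases h3 with ⟨a, b⟩ | ⟨a, b⟩
          · rw [a, b, if_pos rfl]
          · rw [a, b, if_neg (nn _ hu)]
        have key : ∑ e ∈ S, ((if s e = nx u then φ e else 0) + (if t e = nx u then φ e else 0)) =
            ∑ e ∈ S.filter (fun e => s e = nx u ∨ t e = nx u), φ e := by
          rw [Finset.sum_filter]
          refine Finset.sum_congr rfl fun e he => ?_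
          have := hl e he
          by_cases g1 : s e = nx u
          · have g2 : t e ≠ nx u := fun h => this (g1.trans h.symm)
            simp [g1, g2]
          · by_cases g2 : t e = nx u <;> simp [g1, g2]
        unfold Cons
        rw [key, hS, Finset.sum_insert, Finset.sum_insert, Finset.sum_singleton, f1, f2, f3,
          ← add_assoc]
        · apply co_sum
          · exact (hcd' _ h0).2.2.1
          · exact (hcd' _ hu).2.2.2
          · exact (hcd' _ hu).2.1.symm
        · simpa using h23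
        · simp [h12, h13]
  · right
    let κ : V → Fin 10 := fun v => if h : deg s t S v = 3 then κ0 (q ⟨v, h⟩) else 0
    have hκ' : ∀ v (h : deg s t S v = 3), κ v = κ0 (q ⟨v, h⟩) := fun v h => by simp [κ, h]
    have hinjκ : ∀ u v, deg s t S u = 3 → deg s t S v = 3 → κ u = κ v → u = v := by
      intro u v hu hv h
      rw [hκ' u hu, hκ' v hv] at h
      exact congrArg Subtype.val (q.injective (κ0.injective h))
    have hsur : ∀ k, ∃ u, deg s t S u = 3 ∧ κ (nx u) = k := by
      intro k
      obtain ⟨i, hi⟩ := κ0.surjective k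
      obtain ⟨v, hv⟩ := q.surjective i
      obtain ⟨u, hu, huv⟩ := hsurj v.1 v.2
      refine ⟨u, hu, ?_⟩
      rw [huv, hκ' v.1 v.2, ← hi, ← hv]
    have hn' : ∀ v, deg s t S v = 3 → padj (κ v) (κ (nx v)) = true ∧
        padj (κ v) (κ (mt v)) = true := by
      intro v h
      have := hκ (q ⟨v, h⟩)
      rw [hp, hm] at this
      rw [hκ' v h, hκ' _ (dnx v h), hκ' _ (dmt v h)]
      exact this
    have hJ : ∀ u v e, Ends s t u v e → Joins κ s t (κ u) (κ v) e := by
      intro u v e h
      rcases h with ⟨a, b⟩ | ⟨a, b⟩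
      · exact Or.inl ⟨by rw [a], by rw [b]⟩
      · exact Or.inr ⟨by rw [a], by rw [b]⟩
    refine ⟨κ, ?_, ?_⟩
    · intro k
      obtain ⟨u, hu, rfl⟩ := hsur k
      have hv := dnx u hu
      rw [← hv, deg_card hl]
      congr 1
      unfold cut
      refine Finset.filter_congr fun e he => ?_
      have h1 := d3 _ e he (Or.inl rfl)
      have h2 := d3 _ e he (Or.inr rfl)
      have h3 : κ (s e) = κ (nx u) ↔ s e = nx u := ⟨hinjκ _ _ h1 hv, fun h => by rw [h]⟩
      have h4 : κ (t e) = κ (nx u) ↔ t e = nx u := ⟨hinjκ _ _ h2 hv, fun h => by rw [h]⟩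
      have h5 := hl e he
      by_cases g1 : s e = nx u
      · have g2 : t e ≠ nx u := fun h => h5 (g1.trans h.symm)
        simp [h4, g1, g2]
      · by_cases g2 : t e = nx u <;> simp [h3, h4, g1, g2]
    · intro k l hkl
      obtain ⟨u, hu, rfl⟩ := hsur k
      have hv := dnx u hu
      have a1 := (hn' _ hv).1
      have a2 := (hn' _ hv).2
      have a3 := padj_symm _ _ (hn' _ hu).1
      obtain ⟨e1, e2, e3, he1, h1, ⟨he2, hn2, h2⟩, ⟨he3, hn3, h3⟩, -⟩ := star u hu
      have n1 : κ (nx (nx u)) ≠ κ (mt (nx u)) := fun h =>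
        mn _ hv (hinjκ _ _ (dnx _ hv) (dmt _ hv) h).symm
      have n2 : κ (nx (nx u)) ≠ κ u := fun h =>
        nn _ hu (hinjκ _ _ (dnx _ hv) hu h)
      have n3' : κ (mt (nx u)) ≠ κ u := fun h => by
        have h6 := hinjκ _ _ (dmt _ hv) hu h
        have h7 := congrArg mt h6
        rw [mm _ hv] at h7
        exact mn _ hu h7.symm
      rcases three a1 a2 a3 n1 n2 n3' hkl with rfl | rfl | rfl
      · exact ⟨e2, he2, hJ _ _ _ h2⟩
      · exact ⟨e1, hMS he1, hJ _ _ _ h1⟩
      · exact ⟨e3, he3, hJ _ _ _ (Ends.symm h3)⟩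

end Pool.Agent.TH362.TF
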