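import Pool.Agent.H79.LF.TH676_Blk_Main
import Pool.Agent.H79.LF.TH362_TF_Main
import Pool.Agent.H79.LF.TH362_TF_Contr
import Pool.Agent.H79.LF.TH362_TF_Cyc
import Mathlib.LinearAlgebra.FiniteDimensional.Lemmas
import Mathlib.LinearAlgebra.Dimension.Constructions

set_option autoImplicit false
set_option linter.unusedSectionVars false

/-! # Cographic 2-blocks with few vertices of odd degree -/

namespace Pool.Agent.Y642.RN

open Finset
open Pool.Agent.TH676.Blk
open Pool.Agent.TH499.TF (dlt mem_dlt)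

variable {V E : Type} [Fintype V] [DecidableEq V] [Fintype E] [DecidableEq E]

theorem n1_of {s t : E → V} (h : ∀ Y : Finset V, (dlt s t Y).card ≠ 1) :
    TH362.TF.N1 s t univ := by
  intro x hx
  apply h (univ.filter (fun v => x v = true))
  rw [← hx]
  congr 1
  ext e
  rw [mem_dlt]
  simp only [mem_filter, mem_univ, true_and, TH362.TF.cut]
  cases x (s e) <;> cases x (t e) <;> simp

theorem nz_of {s t : E → V} (h : TH362.TF.NZ s t univ) : TH499.TF.NZ s t := by
  obtain ⟨f, f1, f2⟩ := h
  exact ⟨f, fun e => f1 e (mem_univ e), fun v => f2 v⟩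

theorem fl_surj : ∀ p : TH499.TF.Pr, ∃ i, fl i = p := by decide

theorem fl_edge : ∀ i j, Disjoint (fl i).1 (fl j).1 →
    ∃ k, (pa k = i ∧ pb k = j) ∨ (pa k = j ∧ pb k = i) := by decide

/-- **A contraction onto the Petersen graph gives a restriction of the cographic matroid.** -/
theorem restr {s t : E → V} {n : ℕ} {vec : E → Fin n → ZMod 2} (hv : RepCo s t vec)
    (hP : TH362.Multi.ContractsToPetersen s t) :
    ∃ ed : Fin 15 → E, ∀ x : Fin 15 → ZMod 2, ∑ k, x k • vec (ed k) = 0 ↔ x ∈ PC := by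
  classical
  obtain ⟨S, c1, c2, c3, c4⟩ := hP
  let B : Fin 10 → Finset V := fun i => univ.filter (fun v => v ∈ S (fl i))
  have hB : ∀ i v, v ∈ B i ↔ v ∈ S (fl i) := by intro i v; simp [B]
  have b3 : ∀ k, ∃ e, ((s e ∈ B (pa k) ∧ t e ∈ B (pb k)) ∨
      (s e ∈ B (pb k) ∧ t e ∈ B (pa k))) ∧ ∀ f, ((s f ∈ B (pa k) ∧ t f ∈ B (pb k)) ∨
      (s f ∈ B (pb k) ∧ t f ∈ B (pa k))) → f = e := by
    intro k
    obtain ⟨e, he, he2⟩ := c3 _ _ (fl_adj k)
    simp only [hB]
    exact ⟨e, he, fun f hf => he2 f hf⟩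
  choose ed hed hed2 using b3
  have buniq : ∀ {v i j}, v ∈ B i → v ∈ B j → i = j := by
    intro v i j hi hj
    by_contra h
    exact Set.disjoint_left.mp (c2 (fl i) (fl j) (fun h2 => h (fl_inj i j h2)))
      ((hB i v).mp hi) ((hB j v).mp hj)
  have edinj : Function.Injective ed := by
    intro k l hkl
    apply pab_inj
    have h1 := hed k
    have h2 := hed l
    rw [← hkl] at h2
    rcases h1 with ⟨h1, h1'⟩ | ⟨h1, h1'⟩ <;> rcases h2 with ⟨h2, h2'⟩ | ⟨h2, h2'⟩
    · exact Or.inl ⟨buniq h1 h2, buniq h1' h2'⟩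
    · exact Or.inr ⟨buniq h1 h2, buniq h1' h2'⟩
    · exact Or.inr ⟨buniq h1' h2', buniq h1 h2⟩
    · exact Or.inl ⟨buniq h1' h2', buniq h1 h2⟩
  have ednot : ∀ k i, ¬ (s (ed k) ∈ B i ∧ t (ed k) ∈ B i) := by
    rintro k i ⟨h1, h2⟩
    apply pab_ne k
    rcases hed k with ⟨h3, h4⟩ | ⟨h3, h4⟩
    · exact (buniq h3 h1).trans (buniq h2 h4)
    · exact (buniq h4 h2).trans (buniq h1 h3)
  -- an edge with exactly one end in a union of the sets is one of the fifteen edges
  have hout : ∀ (J : Finset (Fin 10)) (e : E), e ∈ dlt s t (J.biUnion B) → ∃ k, ed k = e := by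
    intro J e he
    rw [mem_dlt] at he
    have key : ∀ i j, s e ∈ B i → t e ∈ B j → i ≠ j → (fl i = fl j ∨ Disjoint (fl i).1 (fl j).1) →
        ∃ k, ed k = e := by
      intro i j hi hj hij h
      rcases h with h | h
      · exact absurd (fl_inj i j h) hij
      · obtain ⟨k, hk⟩ := fl_edge i j h
        refine ⟨k, (hed2 k e ?_).symm⟩
        rcases hk with ⟨h1, h2⟩ | ⟨h1, h2⟩
        · rw [h1, h2]; exact Or.inl ⟨hi, hj⟩
        · rw [h1, h2]; exact Or.inr ⟨hi, hj⟩
    by_cases hs : s e ∈ J.biUnion B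
    · have ht : t e ∉ J.biUnion B := fun h => he ⟨fun _ => h, fun _ => hs⟩
      obtain ⟨i, hi, hi2⟩ := mem_biUnion.mp hs
      obtain ⟨q, hq, hq2⟩ := (c4 e (fl i)).1 ((hB i _).mp hi2)
      obtain ⟨j, rfl⟩ := fl_surj q
      have hj : t e ∈ B j := (hB j _).mpr hq
      refine key i j hi2 hj ?_ hq2
      rintro rfl
      exact ht (mem_biUnion.mpr ⟨i, hi, hj⟩)
    · have ht : t e ∈ J.biUnion B := by
        by_contra h
        exact he ⟨fun h1 => absurd h1 hs, fun h1 => absurd h1 h⟩
      obtain ⟨i, hi, hi2⟩ := mem_biUnion.mp ht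
      obtain ⟨q, hq, hq2⟩ := (c4 e (fl i)).2 ((hB i _).mp hi2)
      obtain ⟨j, rfl⟩ := fl_surj q
      have hj : s e ∈ B j := (hB j _).mpr hq
      refine key j i hj hi2 ?_ ?_
      · rintro rfl
        exact hs (mem_biUnion.mpr ⟨j, hi, hj⟩)
      · rcases hq2 with h | h
        · exact Or.inl h.symm
        · exact Or.inr h.symm
  -- sums over the edges which are supported on the fifteen edges
  have hsum : ∀ (y : E → ZMod 2), (∀ e, (¬ ∃ k, ed k = e) → y e = 0) →
      ∑ e, y e • vec e = ∑ k, y (ed k) • vec (ed k) := by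
    intro y hy
    rw [← sum_image (f := fun e => y e • vec e) (s := univ) (g := ed)
      (fun k _ l _ h => edinj h)]
    symm
    refine sum_subset (subset_univ _) fun e _ he => ?_
    rw [hy e (fun ⟨k, hk⟩ => he (mem_image.mpr ⟨k, mem_univ _, hk⟩)), zero_smul]
  have hcut : ∀ (J : Finset (Fin 10)) (Y : Finset V), (∀ i, (i ∈ J → B i ⊆ Y) ∧
      (i ∉ J → Disjoint (B i) Y)) → ∀ k, (ed k ∈ dlt s t Y ↔ ¬ (pa k ∈ J ↔ pb k ∈ J)) := by
    intro J Y hJ k
    rw [mem_dlt]
    have h1 : ∀ {v i}, v ∈ B i → (v ∈ Y ↔ i ∈ J) := by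
      intro v i hv
      constructor
      · intro h
        by_contra h2
        exact disjoint_left.mp ((hJ i).2 h2) hv h
      · intro h
        exact (hJ i).1 h hv
    rcases hed k with ⟨h2, h3⟩ | ⟨h2, h3⟩
    · rw [h1 h2, h1 h3]
    · rw [h1 h2, h1 h3]
      exact not_congr ⟨fun h => h.symm, fun h => h.symm⟩
  refine ⟨ed, fun x => ⟨fun hx => ?_, fun hx => ?_⟩⟩
  · let y : E → ZMod 2 := fun e => if h : ∃ k, ed k = e then x h.choose else 0
    have y1 : ∀ k, y (ed k) = x k := by
      intro k
      have h : ∃ l, ed l = ed k := ⟨k, rfl⟩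
      simp only [y]
      rw [dif_pos h]
      exact congrArg x (edinj h.choose_spec)
    have y2 : ∀ e, (¬ ∃ k, ed k = e) → y e = 0 := by
      intro e he
      simp only [y]
      rw [dif_neg he]
    have y3 : ∑ e, y e • vec e = 0 := by
      rw [hsum y y2, ← hx]
      exact sum_congr rfl (fun k _ => by rw [y1 k])
    obtain ⟨Y, hY⟩ := mem_cutspace s t y ((hv y).mp y3)
    -- the cut is constant on the sets
    have hconst : ∀ i u v, u ∈ B i → v ∈ B i → (u ∈ Y ↔ v ∈ Y) := by
      intro i u v hu hv'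
      have h1 := (c1 (fl i)).2 u ((hB i u).mp hu) v ((hB i v).mp hv')
      have hst : ∀ e, s e ∈ S (fl i) → t e ∈ S (fl i) → (s e ∈ Y ↔ t e ∈ Y) := by
        intro e h2 h3
        by_contra h4
        have h5 := hY e
        rw [if_pos (mem_dlt.mpr h4), y2 e (by
          rintro ⟨k, rfl⟩
          exact ednot k i ⟨(hB i _).mpr h2, (hB i _).mpr h3⟩)] at h5
        exact absurd h5 (by decide)
      clear hv'
      induction h1 with
      | refl => exact Iff.rfl
      | tail _ h6 ih =>
        obtain ⟨e, ⟨h7, h8⟩, h9⟩ := h6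
        have h10 := hst e h7 h8
        rcases h9 with ⟨h9, h9'⟩ | ⟨h9, h9'⟩
        · rw [h9, h9'] at h10; exact ih.trans h10
        · rw [h9, h9'] at h10; exact ih.trans h10.symm
    rw [mem_PC]
    refine ⟨univ.filter (fun i => B i ⊆ Y), fun k => ?_⟩
    have h4 := hcut (univ.filter (fun i => B i ⊆ Y)) Y (fun i => ⟨fun h => (mem_filter.mp h).2,
      fun h => ?_⟩) k
    · rw [← y1 k, hY (ed k)]
      by_cases h5 : ed k ∈ dlt s t Y
      · rw [if_pos h5, if_neg (h4.mp h5)]
      · rw [if_neg h5, if_pos (by_contra fun h6 => h5 (h4.mpr h6))]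
    · rw [disjoint_left]
      intro v hvi hvY
      apply h
      rw [mem_filter]
      exact ⟨mem_univ _, fun u hu => (hconst i v u hvi hu).mp hvY⟩
  · obtain ⟨J, hJ⟩ := (mem_PC x).mp hx
    have hYJ : ∀ i, (i ∈ J → B i ⊆ J.biUnion B) ∧ (i ∉ J → Disjoint (B i) (J.biUnion B)) := by
      intro i
      constructor
      · intro hi v hv
        exact mem_biUnion.mpr ⟨i, hi, hv⟩
      · intro hi
        rw [disjoint_left]
        intro v hv hvY
        obtain ⟨j, hj, hvj⟩ := mem_biUnion.mp hvY
        exact hi (buniq hvj hv ▸ hj)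
    have h1 := (hv _).mpr (sum_star_mem s t (J.biUnion B))
    rw [hsum _ (fun e he => by
      rw [sum_star, if_neg (fun h => he (hout J e h))])] at h1
    rw [← h1]
    refine sum_congr rfl fun k _ => ?_
    rw [sum_star, hJ k]
    have h4 := hcut J _ hYJ k
    by_cases h5 : ed k ∈ dlt s t (J.biUnion B)
    · rw [if_pos h5, if_neg (h4.mp h5)]
    · rw [if_neg h5, if_pos (by_contra fun h6 => h5 (h4.mpr h6))]

/-- the number of the vertices of odd degree and the rank -/
theorem odd_le {s t : E → V} {n : ℕ} {vec : E → Fin n → ZMod 2} (hv : RepCo s t vec)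
    (h0 : ∀ Y : Finset V, (dlt s t Y).card ≠ 1)
    (hr : Module.finrank (ZMod 2) (Submodule.span (ZMod 2) (Set.range vec)) ≤ 9) :
    (TH362.TF.odd s t univ).card ≤ 16 := by
  classical
  by_cases hE : IsEmpty E
  · have : TH362.TF.odd s t univ = ∅ := by
      ext v
      simp [TH362.TF.odd, TH362.TF.deg]
    rw [this]; simp
  rw [not_isEmpty_iff] at hE
  obtain ⟨e0⟩ := hE
  have hdeg : ∀ v, TH362.TF.deg s t univ v = (dlt s t {v}).card +
      2 * (univ.filter (fun e => s e = v ∧ t e = v)).card := by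
    intro v
    unfold TH362.TF.deg dlt
    rw [card_filter, card_filter, mul_sum, ← sum_add_distrib]
    refine sum_congr rfl fun e _ => ?_
    by_cases h1 : s e = v <;> by_cases h2 : t e = v <;> simp [h1, h2]
  let V' : Finset V := univ.filter (fun v => TH362.TF.deg s t univ v ≠ 0)
  have hs0 : s e0 ∈ V' := by
    rw [mem_filter]
    refine ⟨mem_univ _, fun h => ?_⟩
    unfold TH362.TF.deg at h
    have := (sum_eq_zero_iff.mp h) e0 (mem_univ _)
    simp at this
  have hstar0 : ∀ v, v ∉ V' → star s t v = 0 := by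
    intro v hv'
    have h : TH362.TF.deg s t univ v = 0 := by
      by_contra h
      exact hv' (mem_filter.mpr ⟨mem_univ _, h⟩)
    unfold TH362.TF.deg at h
    funext e
    have h2 := (sum_eq_zero_iff.mp h) e (mem_univ _)
    unfold TH676.Blk.star
    by_cases h3 : s e = v <;> by_cases h4 : t e = v <;> simp [h3, h4] at h2 ⊢
  -- the dimension of the cut space
  have hsub : Submodule.span (ZMod 2) (Set.range (star s t)) ≤
      Submodule.span (ZMod 2) (((V'.erase (s e0)).image (star s t) : Finset _) :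
        Set (E → ZMod 2)) := by
    refine Submodule.span_le.mpr ?_
    have hmem : ∀ v ∈ univ.erase (s e0), star s t v ∈ Submodule.span (ZMod 2)
        (((V'.erase (s e0)).image (star s t) : Finset _) : Set (E → ZMod 2)) := by
      intro v hv1
      by_cases hv2 : v ∈ V'
      · exact Submodule.subset_span (mem_coe.mpr (mem_image_of_mem _
          (mem_erase.mpr ⟨(mem_erase.mp hv1).1, hv2⟩)))
      · rw [hstar0 v hv2]
        exact Submodule.zero_mem _
    rintro _ ⟨v, rfl⟩
    by_cases hv1 : v = s e0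
    · have h1 : star s t v + ∑ w ∈ univ.erase (s e0), star s t w = 0 := by
        rw [hv1, add_sum_erase univ (star s t) (mem_univ _)]
        funext e
        rw [sum_star, if_neg]
        · rfl
        · rw [mem_dlt]; simp
      have h2 : star s t v = - ∑ w ∈ univ.erase (s e0), star s t w :=
        eq_neg_of_add_eq_zero_left h1
      rw [SetLike.mem_coe, h2]
      exact Submodule.neg_mem _ (Submodule.sum_mem _ hmem)
    · exact hmem v (mem_erase.mpr ⟨hv1, mem_univ _⟩)
  have hdim : Module.finrank (ZMod 2) (Submodule.span (ZMod 2) (Set.range (star s t))) + 1 ≤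
      V'.card := by
    have h1 := Submodule.finrank_mono hsub
    have h2 := finrank_span_finset_le_card (R := ZMod 2) ((V'.erase (s e0)).image (star s t))
    have h3 : ((V'.erase (s e0)).image (star s t)).card ≤ (V'.erase (s e0)).card := card_image_le
    have h4 := card_erase_add_one hs0
    have h5 : Module.finrank (ZMod 2) (Submodule.span (ZMod 2)
      (((V'.erase (s e0)).image (star s t) : Finset _) : Set (E → ZMod 2))) ≤
        ((V'.erase (s e0)).image (star s t)).card := h2
    omega
  -- rank and nullity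
  have hrank : Fintype.card E ≤ 9 +
      Module.finrank (ZMod 2) (Submodule.span (ZMod 2) (Set.range (star s t))) := by
    have h1 := LinearMap.finrank_range_add_finrank_ker (Fintype.linearCombination (ZMod 2) vec)
    rw [Fintype.range_linearCombination, Module.finrank_fintype_fun_eq_card] at h1
    have h2 : LinearMap.ker (Fintype.linearCombination (ZMod 2) vec) =
        Submodule.span (ZMod 2) (Set.range (star s t)) := by
      ext x
      rw [LinearMap.mem_ker, Fintype.linearCombination_apply]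
      exact hv x
    rw [h2] at h1
    omega
  -- the sum of the degrees
  have hdsum : ∑ v, TH362.TF.deg s t univ v = 2 * Fintype.card E := by
    unfold TH362.TF.deg
    rw [sum_comm]
    have : ∀ e : E, ∑ v, ((if s e = v then 1 else 0) + (if t e = v then 1 else 0)) = 2 := by
      intro e
      rw [sum_add_distrib, sum_ite_eq, sum_ite_eq]
      simp
    rw [sum_congr rfl (fun e _ => this e), sum_const, card_univ, smul_eq_mul, mul_comm]
  have hlow : ∑ v, ((if v ∈ V' then 2 else 0) + (if Odd (TH362.TF.deg s t univ v) then 1 else 0)) ≤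
      ∑ v, TH362.TF.deg s t univ v := by
    refine sum_le_sum fun v _ => ?_
    have h1 : TH362.TF.deg s t univ v ≠ 1 := by
      intro h
      have h2 := hdeg v
      have h3 := h0 {v}
      omega
    by_cases hv' : v ∈ V'
    · rw [if_pos hv']
      have h2 : TH362.TF.deg s t univ v ≠ 0 := (mem_filter.mp hv').2
      by_cases h3 : Odd (TH362.TF.deg s t univ v)
      · rw [if_pos h3]
        obtain ⟨m, hm⟩ := h3
        omega
      · rw [if_neg h3]; omega
    · rw [if_neg hv']
      have h2 : TH362.TF.deg s t univ v = 0 := by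
        by_contra h
        exact hv' (mem_filter.mpr ⟨mem_univ _, h⟩)
      rw [h2]; simp
  rw [sum_add_distrib, hdsum] at hlow
  have e1 : ∑ v, (if v ∈ V' then 2 else 0) = 2 * V'.card := by
    rw [sum_ite_mem, univ_inter, sum_const, smul_eq_mul, mul_comm]
  have e2 : ∑ v, (if Odd (TH362.TF.deg s t univ v) then 1 else 0) =
      (TH362.TF.odd s t univ).card := by
    rw [TH362.TF.odd, card_filter]
  rw [e1, e2] at hlow
  omega

end Pool.Agent.Y642.RN
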