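import Pool.Agent.H79.LF.Cub_Perm
import Pool.Agent.H79.LF.N399_TB_Conn

set_option autoImplicit false
set_option linter.unusedSectionVars false

/-! # Minimal counterexamples contain the Petersen graph or the cube -/

namespace Pool.Agent.H16.Cub

open Finset Pool.Agent.TH462.T4 Pool.Agent.TH676.T4 Pool.Agent.TH497.T4

variable {V E : Type} [Fintype V] [DecidableEq V] [Fintype E] [DecidableEq E]
variable {src dst : E → V}

theorem ni_nis {x : V} (h : Ni (Aj src dst) x) : Nis src dst x := by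
  obtain ⟨y, hxy, e, he⟩ := h
  exact TH169.P5.JV.nisL he hxy

theorem nis_ni {x : V} (h : Nis src dst x) : Ni (Aj src dst) x := by
  obtain ⟨e, he, h1 | h1⟩ := h
  · exact ⟨dst e, fun h2 => he (h1.trans h2), e, Or.inl ⟨h1, rfl⟩⟩
  · exact ⟨src e, fun h2 => he (h2.symm.trans h1.symm), e, Or.inr ⟨rfl, h1⟩⟩

theorem good_of_minCx (hM : MinCx src dst) : Good (Aj src dst) := by
  classical
  refine ⟨fun x y h => h.symm, fun x h => h.1 rfl, ?_, ?_, ?_⟩
  · rintro v ⟨y, hvy⟩ u1 u2
    by_contra hno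
    push Not at hno
    have hnv : Nis src dst v := ni_nis ⟨y, hvy⟩
    have hny : Nis src dst y := ni_nis ⟨v, hvy.symm⟩
    have h3 := cut3 hM (Y := {v}) (mem_singleton_self v)
      (fun h => hvy.1 (mem_singleton.mp h).symm) hnv hny
    let f : E → V := fun e => if src e = v then dst e else src e
    have hf : ∀ e ∈ crs src dst {v}, v ≠ f e ∧ JV src dst e v (f e) := by
      intro e he
      rw [mem_crs, mem_singleton, mem_singleton] at he
      show v ≠ (if src e = v then dst e else src e) ∧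
        JV src dst e v (if src e = v then dst e else src e)
      by_cases h1 : src e = v
      · rw [if_pos h1]
        have h2 : ¬ dst e = v := fun h2 => he ⟨fun _ => h2, fun _ => h1⟩
        exact ⟨fun h => h2 h.symm, Or.inl ⟨h1, rfl⟩⟩
      · rw [if_neg h1]
        have h2 : dst e = v := by
          by_contra h2
          exact he ⟨fun h => absurd h h1, fun h => absurd h h2⟩
        exact ⟨fun h => h1 h.symm, Or.inr ⟨rfl, h2⟩⟩
    have hsub : (crs src dst {v}).image f ⊆ {u1, u2} := by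
      intro w hw
      obtain ⟨e, he, rfl⟩ := mem_image.mp hw
      obtain ⟨h1, h2⟩ := hf e he
      rw [mem_insert, mem_singleton]
      by_cases h4 : f e = u1
      · exact Or.inl h4
      · exact Or.inr (hno (f e) ⟨h1, e, h2⟩ h4)
    have hc : ((crs src dst {v}).image f).card = (crs src dst {v}).card := by
      rw [card_image_of_injOn]
      intro e he e' he' hee
      obtain ⟨h1, h2⟩ := hf e (mem_coe.mp he)
      obtain ⟨_, h4⟩ := hf e' (mem_coe.mp he')
      have h5 : f e = f e' := hee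
      rw [← h5] at h4
      exact TH169.P5.smp V E src dst hM e e' v (f e) h1 h2 h4
    have h5 := card_le_card hsub
    have h6 := card_le_two (a := u1) (b := u2)
    omega
  · intro k c h
    have h3 := h.three
    by_contra hlt
    have h34 : k = 3 ∨ k = 4 := by omega
    rcases h34 with rfl | rfl
    · have a01 := h.adj 0
      have a12 := h.adj 1
      have a23 := h.adj 2
      have e3 : c (2 + 1) = c 0 := h.per 0
      rw [e3] at a23
      exact TH169.P5.tri V E src dst hM (c 0) (c 1) (c 2) a01.1 a23.1.symm a12.1 a01.2 a12.2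
        a23.2
    · have a01 := h.adj 0
      have a12 := h.adj 1
      have a23 := h.adj 2
      have a34 := h.adj 3
      have e3 : c (3 + 1) = c 0 := h.per 0
      rw [e3] at a34
      exact TH169.P5.quad V E src dst hM (c 0) (c 1) (c 2) (c 3) a01.1
        (h.inj 0 2 (by omega) (by omega)) a34.1.symm a12.1 (h.inj 1 3 (by omega) (by omega))
        a23.1 a01.2 a12.2 a23.2 a34.2
  · intro I Z hcl hd hZ
    by_contra hno
    push Not at hno
    obtain ⟨⟨A, hA, hAn, hAc⟩, A', hA', hAn', hAc'⟩ := hno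
    have hc : Closed src dst Z I := by
      intro e he
      have key : ∀ x y, x ∈ I → JV src dst e x y → y ∈ I ∪ Z := by
        intro x y hx hxy
        by_cases h1 : x = y
        · exact mem_union_left _ (h1 ▸ hx)
        · rcases hcl x hx y ⟨h1, e, hxy⟩ with h2 | h2
          · exact mem_union_left _ h2
          · exact mem_union_right _ h2
      rcases he with he | he
      · exact ⟨mem_union_left _ he, key _ _ he (Or.inl ⟨rfl, rfl⟩)⟩
      · exact ⟨key _ _ he (Or.inr ⟨rfl, rfl⟩), mem_union_left _ he⟩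
    have hO : ∀ p ∈ A', p ∉ I ∧ p ∉ Z := by
      intro p hp
      have := disjoint_left.mp hA' hp
      rw [mem_union, not_or] at this
      exact this
    have hn : ∀ p ∈ A, Nis src dst p := fun p hp => ni_nis (hAn p hp)
    have hn' : ∀ p ∈ A', Nis src dst p := fun p hp => ni_nis (hAn' p hp)
    by_cases h4 : Z.card = 4
    · rw [h4] at hAc hAc'
      obtain ⟨x1, m1, x2, m2, x3, m3, n12, n13, n23⟩ := two_lt_card.mp (show 2 < A.card from hAc)
      obtain ⟨y1, k1, y2, k2, y3, k3, l12, l13, l23⟩ :=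
        two_lt_card.mp (show 2 < A'.card from hAc')
      exact N399.TB.sep4 hM hc hd hZ (hA m1) (hA m2) (hA m3) n12 n13 n23 (hn _ m1) (hn _ m2)
        (hn _ m3) (hO _ k1).1 (hO _ k1).2 (hO _ k2).1 (hO _ k2).2 (hO _ k3).1 (hO _ k3).2 l12 l13
        l23 (hn' _ k1) (hn' _ k2) (hn' _ k3)
    by_cases h3 : Z.card = 3
    · rw [h3] at hAc hAc'
      obtain ⟨x1, m1, x2, m2, n12⟩ := one_lt_card.mp (show 1 < A.card from hAc)
      obtain ⟨y1, k1, y2, k2, l12⟩ := one_lt_card.mp (show 1 < A'.card from hAc')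
      exact sep3 hM hc (by omega) (hA m1) (hn _ m1) (hA m2) (hn _ m2) n12 (hO _ k1).1 (hO _ k1).2
        (hn' _ k1) (hO _ k2).1 (hO _ k2).2 (hn' _ k2) l12
    · have h5 : Z.card ≤ 2 := by omega
      obtain ⟨x, hx⟩ := card_pos.mp (show 0 < A.card by omega)
      obtain ⟨y, hy⟩ := card_pos.mp (show 0 < A'.card by omega)
      exact sep2 hM hc h5 (hA hx) (hn _ hx) (hO _ hy).1 (hO _ hy).2 (hn' _ hy)

theorem exists_ni (hM : MinCx src dst) : ∃ x, Ni (Aj src dst) x := by
  by_contra hno
  push Not at hno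
  have hl : ∀ e, src e = dst e := by
    intro e
    by_contra h
    exact hno (src e) (nis_ni ⟨e, h, Or.inl rfl⟩)
  refine hM.nf ⟨fun _ => (1, 0), fun v => ?_, fun e he => absurd he (notMem_empty _),
    fun e _ _ => by show ((1, 0) : K4) ≠ 0; decide⟩
  unfold bd
  refine sum_eq_zero fun e _ => ?_
  rw [hl e]
  exact K4.add_self _

/-- **Minimal counterexamples contain the Petersen graph, or another permutation graph of the
circuit of length five and the cube.** -/
theorem of_minCx (hM : MinCx src dst) : PetMinor src dst ∨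
    ((∃ τ : Fin 5 → Fin 5, Function.Injective τ ∧ Has4 τ ∧ Mnr (pga τ) pgb src dst) ∧
      Mnr (pga (id : Fin 4 → Fin 4)) pgb src dst) := by
  obtain ⟨τ, hτ⟩ := exists_lk5 (good_of_minCx hM) (exists_ni hM)
  by_cases h4 : Has4 τ
  · exact Or.inr ⟨⟨τ, τ.injective, h4, hτ.mnr⟩, hτ.cube τ.injective h4⟩
  · exact Or.inl (hτ.pet τ.injective (has4_or_star5 τ.injective h4))

theorem pg_ne {n : ℕ} [NeZero n] (hn : 1 < n) (τ : Fin n → Fin n) : ∀ l, pga τ l ≠ pgb l := by
  have h1 : ∀ i : Fin n, i ≠ i + 1 := by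
    intro i h
    have h2 : (1 : Fin n) = 0 := by
      have h3 : i + 0 = i + 1 := by rw [add_zero]; exact h
      exact (add_left_cancel h3).symm
    have h4 := congrArg Fin.val h2
    rw [Fin.val_one', Nat.mod_eq_of_lt hn] at h4
    simp at h4
  rintro ⟨b, i⟩
  fin_cases b
  · show ((false, i) : Bool × Fin n) ≠ (false, i + 1)
    exact fun h => h1 i (Prod.ext_iff.mp h).2
  · show ((true, i) : Bool × Fin n) ≠ (true, i + 1)
    exact fun h => h1 i (Prod.ext_iff.mp h).2
  · show ((false, τ i) : Bool × Fin n) ≠ (true, i)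
    intro h
    have := (Prod.ext_iff.mp h).1
    cases this

theorem pg_cov {n : ℕ} [NeZero n] (τ : Fin n → Fin n) :
    ∀ i, ∃ l, pga τ l = i ∨ pgb l = i := by
  rintro ⟨b, i⟩
  cases b
  · exact ⟨(0, i), Or.inl rfl⟩
  · exact ⟨(1, i), Or.inl rfl⟩

theorem mc_perm : MC (V := V) (E := E) (fun src dst =>
    ∀ τ : Fin 5 → Fin 5, Function.Injective τ → Has4 τ → ¬ Mnr (pga τ) pgb src dst) where
  del := fun _ _ _ h _ τ h1 h2 h3 => h τ h1 h2 (h3.of_lp (pg_ne (by omega) τ))
  con := fun _ _ _ h hne' τ h1 h2 h3 => h τ h1 h2 (h3.of_ctr (pg_cov τ) hne')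

theorem cls_cube {src dst : E → V} (h1 : ¬ Mnr (pga (id : Fin 4 → Fin 4)) pgb src dst)
    (h2 : ¬ PetMinor src dst) (h3 : Br src dst ∅ ∅) : FlowOn src dst ∅ ∅ := by
  by_contra hno
  obtain ⟨s, d, ⟨h4, h5⟩, hM⟩ := exists_minCx (Pool.Agent.TH676.T4.MC.and mc_noPet
    (mc_noMnr (pg_ne (by omega) id) (pg_cov id))) src dst ⟨h2, h1⟩ h3 hno
  rcases of_minCx hM with h | h
  · exact h4 h
  · exact h5 h.2

theorem cls_perm {src dst : E → V} (h1 : ∀ τ : Fin 5 → Fin 5, Function.Injective τ → Has4 τ →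
    ¬ Mnr (pga τ) pgb src dst) (h2 : ¬ PetMinor src dst)
    (h3 : Br src dst ∅ ∅) : FlowOn src dst ∅ ∅ := by
  by_contra hno
  obtain ⟨s, d, ⟨h4, h5⟩, hM⟩ := exists_minCx (Pool.Agent.TH676.T4.MC.and mc_noPet
    mc_perm) src dst ⟨h2, h1⟩ h3 hno
  rcases of_minCx hM with h | ⟨⟨τ, t1, t2, t3⟩, _⟩
  · exact h4 h
  · exact h5 τ t1 t2 t3

end Pool.Agent.H16.Cub
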