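import Pool.Agent.H79.LF.Q253_VC_Main
import Pool.Agent.H79.LF.TH676_Blk_Main

set_option autoImplicit false

/-! # The form of the vertex cover theorem used for matroids -/

namespace Pool.Agent.Q253.VC

open Finset Pool.Agent.TH462.T4 Pool.Agent.TH676.T4

theorem cls9 {V E : Type} [Fintype V] [DecidableEq V] [Fintype E] [DecidableEq E]
    {src dst : E → V} (hc : Cov src dst)
    (hPM : ¬ Pool.Agent.TH499.TF.PM src dst)
    (hB : ∀ Y : Finset V, (Pool.Agent.TH499.TF.dlt src dst Y).card ≠ 1) :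
    Pool.Agent.TH499.TF.NZ src dst := by
  have h1 : ¬ PetMinor src dst := by
    rintro ⟨B, b1, b2, b3⟩
    refine hPM ⟨fun s => B (Pool.Agent.TH443.P5.bt s.1), ?_, ?_, ?_⟩
    · intro s A hA hAn hAne
      obtain ⟨e, he⟩ := (b1 (Pool.Agent.TH443.P5.bt s.1)).2 A hA hAn hAne
      rcases he with ⟨h3, h4⟩ | ⟨h3, h4⟩
      · exact ⟨e, src e, dst e, h3, (mem_sdiff.mp h4).1, (mem_sdiff.mp h4).2, Or.inl ⟨rfl, rfl⟩⟩
      · exact ⟨e, dst e, src e, h4, (mem_sdiff.mp h3).1, (mem_sdiff.mp h3).2, Or.inr ⟨rfl, rfl⟩⟩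
    · intro s t hst
      apply b2
      intro h5
      exact hst (Subtype.ext (Pool.Agent.TH443.P5.bt_inj s.1 (Pool.Agent.TH443.P5.mem_psc s.2) t.1
        (Pool.Agent.TH443.P5.mem_psc t.2) h5))
    · intro s t hst
      rcases Pool.Agent.TH443.P5.bt_adj s.1 (Pool.Agent.TH443.P5.mem_psc s.2) t.1
        (Pool.Agent.TH443.P5.mem_psc t.2) hst with h4 | h4
      · obtain ⟨e, he⟩ := b3 _ h4
        rcases he with ⟨h5, h6⟩ | ⟨h5, h6⟩
        · exact ⟨e, src e, dst e, h5, h6, Or.inl ⟨rfl, rfl⟩⟩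
        · exact ⟨e, dst e, src e, h6, h5, Or.inr ⟨rfl, rfl⟩⟩
      · obtain ⟨e, he⟩ := b3 _ h4
        rcases he with ⟨h5, h6⟩ | ⟨h5, h6⟩
        · exact ⟨e, dst e, src e, h6, h5, Or.inr ⟨rfl, rfl⟩⟩
        · exact ⟨e, src e, dst e, h5, h6, Or.inl ⟨rfl, rfl⟩⟩
  have h2 : Br src dst ∅ ∅ := by
    intro Y _
    rw [sdiff_empty]
    exact hB Y
  obtain ⟨f, f1, _, f3⟩ := flow_of_cov src dst h2 h1 hc
  exact ⟨f, fun e => f3 e (notMem_empty _) (notMem_empty _), fun x => f1 x⟩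

end Pool.Agent.Q253.VC
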