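import Pool.Agent.H79.LF.Q253_M8_BFC

/-!
# Graphs in which five vertices meet all paths with three vertices
-/

set_option autoImplicit false
set_option linter.unusedSectionVars false

namespace Pool.Agent.Q253.P3

open Finset Pool.Agent.Q253.M8 Pool.Agent.Q253.VC

section count

variable {V : Type} [Fintype V] [DecidableEq V] {G : SimpleGraph V} [DecidableRel G.Adj]
  {T : Finset V}

/-- **The counting.** -/
theorem card_le (h : Dat G T) (X : Finset V) (hX : X.card ≤ 5)
    (hP : ∀ a b c, a ∉ X → b ∉ X → c ∉ X → G.Adj a b → G.Adj b c → a = c) : T.card ≤ 15 := by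
  have h2 : ∀ v ∈ T \ X, 2 ≤ (Q G X v).card := by
    intro v hv
    obtain ⟨hv, hvX⟩ := mem_sdiff.1 hv
    have h3 := h.three v hv
    have h4 : (G.neighborFinset v \ X).card ≤ 1 := by
      rw [card_le_one]
      intro a ha c hc
      obtain ⟨ha, haX⟩ := mem_sdiff.1 ha
      obtain ⟨hc, hcX⟩ := mem_sdiff.1 hc
      rw [SimpleGraph.mem_neighborFinset] at ha hc
      exact hP a v c haX hvX hcX ha.symm hc
    have h5 := card_inter_add_card_sdiff (G.neighborFinset v) X
    exact Q_card X (k := 2) (by omega)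
  have h6 := h.Q_sum X (T \ X)
  have h7 := card_nsmul_le_sum (T \ X) (fun v => (Q G X v).card) 2 h2
  rw [smul_eq_mul] at h7
  have h8 : X.card * (X.card - 1) ≤ 20 := by
    have : X.card ≤ 5 := hX
    interval_cases X.card <;> simp
  have h9 : T.card ≤ (T \ X).card + X.card := by
    have := card_sdiff_add_card_inter T X
    have := card_le_card (inter_subset_right : T ∩ X ⊆ X)
    omega
  omega

end count

variable {V E : Type} [Fintype V] [DecidableEq V] [Fintype E] [DecidableEq E]

/-- the edge `e` joins `x` and `y` -/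
def Jn (s d : E → V) (e : E) (x y : V) : Prop := (s e = x ∧ d e = y) ∨ (s e = y ∧ d e = x)

/-- at most five vertices meet all paths with three vertices -/
def Cl3 (s d : E → V) : Prop := ∃ X : Finset V, X.card ≤ 5 ∧
  ∀ (a b c : V) (e f : E), a ∉ X → b ∉ X → c ∉ X → a ≠ b → b ≠ c → Jn s d e a b → Jn s d f b c →
    a = c

theorem del {s d : E → V} {e : E} {D : E → V} (hD : ∀ f, D f = if f = e then s f else d f)
    (h : Cl3 s d) : Cl3 s D := by
  obtain ⟨X, hX, h⟩ := h
  have key : ∀ (f : E) (x y : V), x ≠ y → Jn s D f x y → Jn s d f x y := by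
    intro f x y hne hf
    unfold Jn at hf ⊢
    rw [hD] at hf
    by_cases he : f = e
    · rw [if_pos he] at hf
      rcases hf with ⟨a, b⟩ | ⟨a, b⟩
      · exact absurd (a.symm.trans b) hne
      · exact absurd (b.symm.trans a) hne
    · rwa [if_neg he] at hf
  refine ⟨X, hX, fun a b c e' f ha hb hc hab hbc h1 h2 => ?_⟩
  exact h a b c e' f ha hb hc hab hbc (key _ _ _ hab h1) (key _ _ _ hbc h2)

theorem con {s d : E → V} {e : E} (hne : s e ≠ d e) {κ : V → V}
    (hκ : ∀ x, κ x = if x = d e then s e else x) (h : Cl3 s d) : Cl3 (κ ∘ s) (κ ∘ d) := by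
  obtain ⟨X, hX, h⟩ := h
  refine ⟨X.image κ, card_image_le.trans hX, fun a b c e' f ha hb hc hab hbc h1 h2 => ?_⟩
  -- preimages of vertices outside of the image
  have hout : ∀ x, κ x ∉ X.image κ → x ∉ X := fun x hx hxX => hx (mem_image_of_mem _ hxX)
  -- edges between different vertices outside
  have key : ∀ (f : E) (x y : V), x ∉ X.image κ → y ∉ X.image κ → x ≠ y →
      Jn (κ ∘ s) (κ ∘ d) f x y → x ≠ s e ∧ y ≠ s e ∧ Jn s d f x y := by
    intro f x y hx hy hxy hf
    obtain ⟨x', y', hx', hy', hf'⟩ : ∃ x' y', κ x' = x ∧ κ y' = y ∧ Jn s d f x' y' := by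
      rcases hf with ⟨p, q⟩ | ⟨p, q⟩
      · exact ⟨s f, d f, p, q, Or.inl ⟨rfl, rfl⟩⟩
      · exact ⟨d f, s f, q, p, Or.inr ⟨rfl, rfl⟩⟩
    have hxX := hout x' (hx'.symm ▸ hx)
    have hyX := hout y' (hy'.symm ▸ hy)
    have hxy' : x' ≠ y' := fun hh => hxy (by rw [← hx', ← hy', hh])
    -- a merged vertex outside has no other neighbour outside
    have main : ∀ (x' y' : V) (f : E), x' ∉ X → y' ∉ X → κ x' ≠ κ y' → Jn s d f x' y' →
        κ x' ∉ X.image κ → κ x' ≠ s e := by
      intro x' y' f hxX hyX hxy hf hx hxe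
      have h3 : κ (s e) = s e := by rw [hκ, if_neg hne]
      have h4 : κ (d e) = s e := by rw [hκ, if_pos rfl]
      have hs : s e ∉ X := hout _ (by rw [h3, ← hxe]; exact hx)
      have hd : d e ∉ X := hout _ (by rw [h4, ← hxe]; exact hx)
      have hx1 : x' = s e ∨ x' = d e := by
        rw [hκ] at hxe
        split_ifs at hxe with h5
        · exact Or.inr h5
        · exact Or.inl hxe
      have hys : y' ≠ s e := by
        intro hh
        rcases hx1 with hh1 | hh1
        · exact hxy (by rw [hh, hh1])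
        · exact hxy (by rw [hh, hh1, h3, h4])
      have hyd : y' ≠ d e := by
        intro hh
        rcases hx1 with hh1 | hh1
        · exact hxy (by rw [hh, hh1, h3, h4])
        · exact hxy (by rw [hh, hh1])
      rcases hx1 with rfl | rfl
      · exact hyd (h y' (s e) (d e) f e hyX hs hd hys hne (Or.symm hf) (Or.inl ⟨rfl, rfl⟩))
      · exact hys (h y' (d e) (s e) f e hyX hd hs hyd (Ne.symm hne) (Or.symm hf)
          (Or.inr ⟨rfl, rfl⟩))
    have hxs : x ≠ s e := by
      rw [← hx']
      exact main x' y' f hxX hyX (by rw [hx', hy']; exact hxy) hf' (by rw [hx']; exact hx)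
    have hys : y ≠ s e := by
      rw [← hy']
      exact main y' x' f hyX hxX (by rw [hx', hy']; exact hxy.symm) (Or.symm hf')
        (by rw [hy']; exact hy)
    have hx2 : x' = x := by
      rw [hκ] at hx'
      split_ifs at hx' with h5
      · exact absurd hx'.symm hxs
      · exact hx'
    have hy2 : y' = y := by
      rw [hκ] at hy'
      split_ifs at hy' with h5
      · exact absurd hy'.symm hys
      · exact hy'
    rw [hx2, hy2] at hf'
    exact ⟨hxs, hys, hf'⟩
  have hin : ∀ x, x ≠ s e → (∃ y, κ y = x) → x ∉ X.image κ → x ∉ X := by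
    intro x hx hy hx'
    obtain ⟨y, hy⟩ := hy
    have : y = x := by
      rw [hκ] at hy
      split_ifs at hy with h5
      · exact absurd hy.symm hx
      · exact hy
    rw [← this]
    exact hout y (by rw [hy]; exact hx')
  obtain ⟨k1, k2, k3⟩ := key e' a b ha hb hab h1
  obtain ⟨k4, k5, k6⟩ := key f b c hb hc hbc h2
  have ex : ∀ (f : E) (x y : V), Jn (κ ∘ s) (κ ∘ d) f x y → (∃ z, κ z = x) ∧ ∃ z, κ z = y := by
    rintro f x y (⟨p, q⟩ | ⟨p, q⟩)
    · exact ⟨⟨_, p⟩, ⟨_, q⟩⟩
    · exact ⟨⟨_, q⟩, ⟨_, p⟩⟩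
  exact h a b c e' f (hin a k1 (ex _ _ _ h1).1 ha) (hin b k2 (ex _ _ _ h1).2 hb)
    (hin c k5 (ex _ _ _ h2).2 hc) hab hbc k3 k6

theorem gr_path {s d : E → V} {X : Finset V}
    (h : ∀ (a b c : V) (e f : E), a ∉ X → b ∉ X → c ∉ X → a ≠ b → b ≠ c → Jn s d e a b →
      Jn s d f b c → a = c) :
    ∀ a b c, a ∉ X → b ∉ X → c ∉ X → (gr s d).Adj a b → (gr s d).Adj b c → a = c := by
  rintro a b c ha hb hc ⟨hab, e, he⟩ ⟨hbc, f, hf⟩
  exact h a b c e f ha hb hc hab hbc he hf

theorem odd_ni (s d : E → V) :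
    (univ.filter fun v => Odd ((gr s d).degree v)).card ≤ (ni s d).card := by
  refine card_le_card fun v hv => ?_
  obtain ⟨y, hy⟩ := VC.odd_pos (mem_filter.1 hv).2
  exact mem_ni.2 ⟨y, hy⟩

/-! ### Nowhere-zero 4-flows of graphs without Petersen minor -/

section four

open Pool.Agent.TH462.T4 Pool.Agent.TH676.T4 Pool.Agent.TH395.P5

theorem mc4 : MC (V := V) (E := E) Cl3 where
  del := by
    intro s d e h _
    refine del (e := e) (fun f => ?_) h
    unfold TH462.T4.lp
    simp only [mem_singleton]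
  con := by
    intro s d e h hne
    exact con hne (fun x => rfl) h

/-- **Main step.** -/
theorem flow_of_p3 (s d : E → V) (hb : Br s d ∅ ∅) (hp : ¬ PetMinor s d) (hc : Cl3 s d) :
    FlowOn s d ∅ ∅ := by
  classical
  by_contra hn
  obtain ⟨s', d', ⟨hp', X, hX, hm'⟩, hM⟩ :=
    exists_minCx (TH676.T4.MC.and mc_noPet mc4) s d ⟨hp, hc⟩ hb hn
  have hS : Smp s' d' := TH169.P5.smp V E s' d' hM
  have h1 := VC.n1 hM.br
  have h3 := card_le (M8.dat hM) X hX (gr_path hm')
  have h4 := odd_ni s' d'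
  rcases TH362.TF.main16 s' d' univ h1 (by
      refine le_trans (card_le_card fun v hv => ?_)
        (show (univ.filter fun v => Odd ((gr s' d').degree v)).card ≤ 16 by omega)
      have := (mem_filter.1 hv).2
      exact mem_filter.2 ⟨mem_univ _, (odd_deg hS v).1 this⟩) with h2 | h2
  · exact hM.nf (nz h2)
  · exact hp' (minor_of_pq (TH362.TF.contracts s' d' h1 h2))

end four

/-! ### Flows with values in a set satisfying the finite facts -/

section bf

open Pool.Agent.TH676.A Pool.Agent.TH497.BF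

variable {Γ : Type} [AddCommGroup Γ] {A : Γ → Prop}

theorem mcA : TH676.A.MC (V := V) (E := E) Cl3 where
  del := by
    intro s d e h _
    refine del (e := e) (fun f => ?_) h
    unfold TH676.A.lp
    simp only [mem_singleton]
  con := by
    intro s d e h hne
    exact con hne (fun x => rfl) h

/-- **Main step.** -/
theorem flowA_of_p3 (hF : Facts A) (s d : E → V) (hb : TH676.A.Br s d ∅ ∅) (hc : Cl3 s d) :
    TH676.A.FlowOn A s d ∅ ∅ := by
  classical
  by_contra hn
  obtain ⟨s', d', ⟨X, hX, hm'⟩, hM⟩ := TH676.A.exists_minCx hF.alg.two mcA s d hc hb hn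
  have hS := M8.BF.smp hF hM
  have h1 := M8.BF.n1 hM.br
  have h3 := card_le (M8.BF.dat hF hM) X hX (gr_path hm')
  have h4 := odd_ni s' d'
  rcases TH362.TF.main16 s' d' univ h1 (by
      refine le_trans (card_le_card fun v hv => ?_)
        (show (univ.filter fun v => Odd ((gr s' d').degree v)).card ≤ 16 by omega)
      have := (mem_filter.1 hv).2
      exact mem_filter.2 ⟨mem_univ _, (odd_deg hS v).1 this⟩) with h2 | h2
  · exact hM.nf (M8.BF.flow_of_nz hF h2)
  · exact M8.BF.no_pq hF hM h2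

end bf

end Pool.Agent.Q253.P3
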