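import Pool.Agent.H79.LF.Q253_VC_Flow

/-!
# Four-flows of Petersen-minor-free graphs with a vertex cover of at most nine vertices
-/

set_option autoImplicit false
set_option linter.unusedSectionVars false

namespace Pool.Agent.Q253.VC

open Finset Pool.Agent.TH462.T4 Pool.Agent.TH676.T4 Pool.Agent.TH395.P5

variable {V E : Type} [Fintype V] [DecidableEq V] [Fintype E] [DecidableEq E]

/-- a vertex cover with at most nine vertices -/
def Cov (s d : E → V) : Prop := ∃ X : Finset V, X.card ≤ 9 ∧ ∀ e, s e ≠ d e → s e ∈ X ∨ d e ∈ X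

theorem mc_cov : MC (V := V) (E := E) Cov where
  del := by
    rintro s d e ⟨X, hX, h⟩ _
    refine ⟨X, hX, fun e' he' => ?_⟩
    unfold TH462.T4.lp at he' ⊢
    by_cases h1 : e' ∈ ({e} : Finset E)
    · rw [if_pos h1] at he'
      exact absurd rfl he'
    · rw [if_neg h1] at he' ⊢
      exact h e' he'
  con := by
    rintro s d e ⟨X, hX, h⟩ _
    refine ⟨X.image (ctr (s e) (d e)), card_image_le.trans hX, fun e' he' => ?_⟩
    rcases h e' (fun h1 => he' (congrArg (ctr (s e) (d e)) h1)) with h1 | h1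
    · exact Or.inl (mem_image_of_mem _ h1)
    · exact Or.inr (mem_image_of_mem _ h1)

theorem minor_of_pq {s d : E → V} (h : TH362.Multi.ContractsToPetersen s d) : PetMinor s d := by
  classical
  obtain ⟨B, h1, h2, h3, _⟩ := h
  let P : Fin 10 → {p : Finset (Fin 5) // p.card = 2} :=
    fun k => ⟨TH362.TF.Contr.pr k, TH362.TF.Contr.pr_card k⟩
  refine ⟨fun k => (B (P k)).toFinset, fun k => ⟨?_, ?_⟩, ?_, ?_⟩
  · obtain ⟨x, hx⟩ := (h1 (P k)).1
    exact ⟨x, Set.mem_toFinset.2 hx⟩
  · intro A hA hA0 hA1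
    by_contra hno
    push Not at hno
    obtain ⟨u, hu⟩ := hA0
    apply hA1
    refine Subset.antisymm hA fun v hv => ?_
    have hl := (h1 (P k)).2 u (Set.mem_toFinset.1 (hA hu)) v (Set.mem_toFinset.1 hv)
    unfold TH362.Multi.Linked at hl
    clear hv
    induction hl with
    | refl => exact hu
    | tail _ hst ih =>
      obtain ⟨e, ⟨he1, he2⟩, he⟩ := hst
      by_contra hvA
      apply hno e
      rcases he with ⟨a, b⟩ | ⟨a, b⟩
      · left
        rw [a, b]
        exact ⟨ih, mem_sdiff.2 ⟨Set.mem_toFinset.2 (b ▸ he2), hvA⟩⟩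
      · right
        rw [a, b]
        exact ⟨mem_sdiff.2 ⟨Set.mem_toFinset.2 (a ▸ he1), hvA⟩, ih⟩
  · intro i j hij
    rw [Set.disjoint_toFinset]
    refine h2 _ _ (fun h4 => hij ?_)
    exact TH362.TF.Contr.pr_inj _ _ (congrArg Subtype.val h4)
  · intro x hx
    have h4 : Disjoint (TH362.TF.Contr.pr x.1) (TH362.TF.Contr.pr x.2) := by
      rw [← TH362.TF.Contr.pr_padj]
      revert x
      decide
    obtain ⟨e, he, _⟩ := h3 (P x.1) (P x.2) h4
    refine ⟨e, ?_⟩
    unfold JoinsSet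
    simpa only [Set.mem_toFinset] using he

theorem n1 {s d : E → V} (h : Br s d ∅ ∅) : TH362.TF.N1 s d univ := by
  intro x hx
  refine h (univ.filter (fun v => x v = true)) (disjoint_empty_right _) ?_
  rw [sdiff_empty, ← hx]
  congr 1
  ext e
  rw [mem_crs]
  unfold TH362.TF.cut
  simp only [mem_filter, mem_univ, true_and]
  cases x (s e) <;> cases x (d e) <;> simp

theorem nz {s d : E → V} (h : TH362.TF.NZ s d univ) : FlowOn s d ∅ ∅ := by
  obtain ⟨f, h1, h2⟩ := h
  exact ⟨f, fun v => h2 v, fun e he => absurd he (notMem_empty _), fun e _ _ => h1 e (mem_univ e)⟩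

theorem hyp {s d : E → V} (hM : MinCx s d) {X : Finset V}
    (hX : ∀ e, s e ≠ d e → s e ∈ X ∨ d e ∈ X) : Hyp (gr s d) X where
  cov := by
    rintro x y ⟨hne, e, he⟩
    rcases he with ⟨a, b⟩ | ⟨a, b⟩
    · have := hX e (by rw [a, b]; exact hne)
      rw [a, b] at this
      exact this
    · have := hX e (by rw [a, b]; exact hne.symm)
      rw [a, b] at this
      exact this.symm
  three := by
    rintro x y ⟨hne, e, he⟩
    have hS : Smp s d := TH169.P5.smp V E s d hM
    rw [deg_inc hS]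
    have h1 := cut3 hM (Y := {x}) (mem_singleton_self x) (y := y) (by simpa using hne.symm)
      (TH169.P5.JV.nisL he hne) (TH169.P5.JV.nisR he hne)
    refine h1.trans (card_le_card fun e' he' => ?_)
    rw [mem_crs, mem_singleton, mem_singleton] at he'
    rw [mem_inc]
    refine ⟨fun h => he' (by rw [h]), ?_⟩
    tauto
  tri := by
    rintro a b c ⟨h1, e1⟩ ⟨h2, e2⟩ ⟨h3, e3⟩
    exact TH169.P5.tri V E s d hM a b c h1 h3.symm h2 e1 e2 e3
  quad := by
    rintro a b c q hac hbq ⟨h1, e1⟩ ⟨h2, e2⟩ ⟨h3, e3⟩ ⟨h4, e4⟩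
    exact TH169.P5.quad V E s d hM a b c q h1 hac h4.symm h2 hbq h3 e1 e2 e3 e4

/-- **Main step.** -/
theorem flow_of_cov (s d : E → V) (hb : Br s d ∅ ∅) (hp : ¬ PetMinor s d) (hc : Cov s d) :
    FlowOn s d ∅ ∅ := by
  classical
  by_contra hn
  obtain ⟨s', d', ⟨hp', X, hX, hXc⟩, hM⟩ :=
    exists_minCx (TH676.T4.MC.and mc_noPet mc_cov) s d ⟨hp, hc⟩ hb hn
  have hS : Smp s' d' := TH169.P5.smp V E s' d' hM
  rcases (hyp hM hXc).main hX with h | ⟨h1, h2⟩
  · have h1 := n1 hM.br
    rcases TH362.TF.main16 s' d' univ h1 (by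
        refine le_trans (card_le_card fun v hv => ?_) h
        have := (mem_filter.1 hv).2
        exact mem_filter.2 ⟨mem_univ _, (odd_deg hS v).1 this⟩) with h2 | h2
    · exact hM.nf (nz h2)
    · exact hp' (minor_of_pq (TH362.TF.contracts s' d' h1 h2))
  · exact hM.nf (flow_bip hS X hXc h1 h2)

/-- **The translation to cycles.** -/
theorem two_cycles (s d : E → V) (X : Finset V) (hX : X.card ≤ 9)
    (hc : ∀ e, s e ≠ d e → s e ∈ X ∨ d e ∈ X) (hiso : ∀ e, ¬ IsIsthmus s d e)
    (hp : ¬ HasPetersenMinor s d) :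
    ∃ C₁ C₂ : Finset E, IsCycle s d C₁ ∧ IsCycle s d C₂ ∧ C₁ ∪ C₂ = Finset.univ := by
  obtain ⟨f, hf, -, hf0⟩ := flow_of_cov s d (TH443.P5.no_one_cut hiso)
    (fun h => hp (TH443.P5.pet_minor h)) ⟨X, hX, hc⟩
  refine ⟨univ.filter (fun e => (f e).1 ≠ 0), univ.filter (fun e => (f e).2 ≠ 0), ?_, ?_, ?_⟩
  · intro v
    refine TH443.P5.even_of_sum (fun e => (f e).1) v ?_
    have h1 := congrArg Prod.fst (hf v)
    unfold bd at h1
    rw [Prod.fst_sum] at h1
    refine Eq.trans ?_ h1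
    · refine sum_congr rfl fun e _ => ?_
      rw [Prod.fst_add]
      split_ifs <;> rfl
  · intro v
    refine TH443.P5.even_of_sum (fun e => (f e).2) v ?_
    have h1 := congrArg Prod.snd (hf v)
    unfold bd at h1
    rw [Prod.snd_sum] at h1
    refine Eq.trans ?_ h1
    · refine sum_congr rfl fun e _ => ?_
      rw [Prod.snd_add]
      split_ifs <;> rfl
  · ext e
    simp only [mem_union, mem_filter, mem_univ, true_and, iff_true]
    by_contra h
    push Not at h
    exact hf0 e (notMem_empty e) (notMem_empty e) (Prod.ext h.1 h.2)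

end Pool.Agent.Q253.VC
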