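import Pool.Agent.H79.LF.TH395_P5_Tab

set_option autoImplicit false
set_option maxRecDepth 100000

/-! # Certificates, part 1 -/

namespace Pool.Agent.TH395.P5

def c64 : CA := .split (.split (.split (.split (.split (.fin (.split .big (.deg 9))) (.fin (.split (.split .big (.iso 98 [1,3,0,8,2,5,9,4,6,7] [2,0,4,1,7,5,8,9,3,6])) (.deg 9)))) (.split (.fin (.split (.split .big (.iso 98 [0,2,1,7,3,6,9,4,5,8] [0,2,1,4,7,8,5,3,9,6])) (.deg 9))) (.fin (.split (.split (.split .big (.red [0,0,0,0,0,0,0,0,0,0,0,2,0] [0,2,3,4,5] [1])) (.split (.red [0,0,0,0,0,0,0,0,0,0,0,0,2] [0,1,3,4,5] [2]) (.red [0,0,0,0,0,0,0,0,0,0,0,0,2] [0,3,4,5] [1,2]))) (.deg 9))))) (.split (.split (.fin (.split (.split .big (.iso 82 [1,0,6,3,2,9,7,4,5,8] [1,0,4,3,7,8,2,6,9,5])) (.deg 9))) (.fin (.split (.split (.split .big (.red [2,0,0,0,0,0,0,0,0,0,0,0,0] [1,2,3,4,5] [0])) (.split (.red [2,0,0,0,0,0,0,0,0,0,0,0,0]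 [0,1,3,4,5] [2]) (.red [2,0,0,0,0,0,0,0,0,0,0,0,0] [1,3,4,5] [0,2]))) (.deg 9)))) (.far 6 7))) (.split (.split (.split (.fin (.split (.split .big (.iso 82 [0,1,5,2,3,9,8,4,6,7] [0,1,3,4,7,2,8,9,6,5])) (.deg 9))) (.far 5 8)) (.split (.fin (.split (.split (.split .big (.red [2,0,0,0,0,0,0,0,0,0,0,0,0] [0,1,2,3,4] [5])) (.split (.red [2,0,0,0,0,0,0,0,0,0,0,0,0] [0,2,3,4,5] [1]) (.red [2,0,0,0,0,0,0,0,0,0,0,0,0] [0,2,3,4] [1,5]))) (.deg 9))) (.far 5 8))) (.split (.split (.fin (.split (.split (.split .big (.iso 85 [0,1,2,5,3,4,8,7,9,6] [0,1,2,4,5,3,9,7,6,8])) (.split (.iso 85 [1,0,3,6,2,4,7,8,9,5] [1,0,4,2,5,9,3,6,7,8]) (.iso 76 [0,1,2,5,3,6,4,7,8,9] [0,1,2,4,6,3,5,7,8,9]))) (.deg 9))) (.far 5 8)) (.far 6 7)))) (.split (.split (.split (.split (.fin (.split (.split .big (.iso 108 [4,2,3,0,1,9,7,8,5,6] [3,4,1,2,0,8,9,6,7,5])) (.deg 9))) (.far 4 8)) (.far 4 7))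 (.split (.split (.fin (.split (.split (.split .big (.iso 109 [2,4,0,3,1,5,8,7,9,6] [2,4,0,3,1,5,9,7,6,8])) (.split (.iso 84 [1,0,6,3,2,7,4,5,9,8] [1,0,4,3,6,7,2,5,9,8]) (.iso 105 [1,0,3,2,4,6,7,9,5,8] [1,0,3,2,4,8,5,6,9,7]))) (.deg 9))) (.far 4 8)) (.far 6 7))) (.split (.split (.split (.fin (.split (.split (.split .big (.iso 109 [3,4,1,2,0,6,7,8,9,5] [4,2,3,0,1,9,5,6,7,8])) (.split (.iso 84 [0,1,5,2,3,8,4,6,9,7] [0,1,3,4,6,2,7,9,5,8]) (.iso 105 [0,1,2,3,4,5,8,9,6,7] [0,1,2,3,4,5,8,9,6,7]))) (.deg 9))) (.far 5 8)) (.far 4 7)) (.split (.split (.fin (.split (.split (.split (.split .big (.iso 71 [2,3,4,0,1,7,8,5,6,9] [3,4,0,1,2,7,8,5,6,9])) (.split (.iso 86 [0,1,5,2,3,8,4,7,6,9] [0,1,3,4,6,2,8,7,5,9]) (.iso 116 [0,2,1,3,4,5,8,9,7,6] [0,2,1,3,4,5,9,8,6,7]))) (.split (.split (.iso 86 [1,0,6,3,2,7,4,8,5,9] [1,0,4,3,6,8,2,5,7,9]) (.iso 116 [1,3,0,2,4,6,7,9,8,5]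 [2,0,3,1,4,9,5,6,8,7])) (.split (.iso 77 [0,1,2,5,6,3,7,4,8,9] [0,1,2,5,7,3,4,6,8,9]) (.clo 0 1 (.pet [[0],[1],[3],[4],[2],[5],[6],[8],[9],[7,10]]))))) (.split (.split (.split (.iso 91 [0,1,2,3,9,5,6,4,7,8] [0,1,2,3,7,5,6,8,9,4]) (.iso 106 [4,2,3,0,1,9,5,6,7,8] [3,4,1,2,0,6,7,8,9,5])) (.split (.iso 88 [0,5,1,2,3,9,8,4,6,7] [0,2,3,4,7,1,8,9,6,5]) (.clo 0 1 (.pet [[0],[1],[3],[4],[2,7],[5],[6],[8],[9],[10]])))) (.split (.split (.iso 88 [1,6,0,3,2,9,7,4,5,8] [2,0,4,3,7,8,1,6,9,5]) (.clo 0 1 (.pet [[0],[1],[3,8],[4],[2],[5],[6],[10],[9],[7]]))) (.split (.clo 0 1 (.pet [[0],[1],[3],[4],[2],[5],[6],[8],[9],[7,10]])) (.two 0)))))) (.far 5 8)) (.far 6 7))))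

theorem ok64 : chkA tbl q64 c64 q64.rt [] [] = true := by decide +kernel

def c65 : CA := .split (.split (.split (.split (.split (.fin (.split .big (.deg 9))) (.fin (.split (.split .big (.red [2,0,0,0,0,0,0,0,0,0,0,0,0] [0,1,3,4,5] [2])) (.deg 9)))) (.split (.fin (.split (.split .big (.red [2,0,0,0,0,0,0,0,0,0,0,0,0] [0,2,3,4,5] [1])) (.deg 9))) (.far 7 8))) (.split (.split (.fin (.split (.split .big (.iso 83 [1,0,6,3,2,9,7,4,5,8] [1,0,4,3,7,8,2,6,9,5])) (.deg 9))) (.far 6 8)) (.far 6 7))) (.split (.split (.split (.fin (.split (.split .big (.iso 83 [0,1,5,2,3,9,8,4,6,7] [0,1,3,4,7,2,8,9,6,5])) (.deg 9))) (.far 5 8)) (.far 5 7)) (.split (.split (.fin (.split (.split (.split .big (.iso 86 [0,1,2,5,3,4,8,9,6,7] [0,1,2,4,5,3,8,9,6,7])) (.split (.iso 86 [1,0,3,6,2,4,7,9,5,8] [1,0,4,2,5,8,3,6,9,7]) (.iso 77 [0,1,2,5,3,6,4,7,9,8] [0,1,2,4,6,3,5,7,9,8]))) (.deg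 9))) (.far 6 8)) (.far 6 7)))) (.split (.split (.split (.split (.fin (.split (.split .big (.iso 70 [4,0,1,2,3,9,5,6,7,8] [1,2,3,4,0,6,7,8,9,5])) (.deg 9))) (.far 4 8)) (.far 4 7)) (.split (.split (.fin (.split (.split (.split .big (.iso 71 [0,4,2,1,3,5,9,6,8,7] [0,3,2,4,1,5,7,9,8,6])) (.split (.iso 87 [1,0,6,3,2,4,7,5,9,8] [1,0,4,3,5,7,2,6,9,8]) (.iso 116 [1,0,3,4,2,6,9,7,5,8] [1,0,4,2,3,8,5,7,9,6]))) (.deg 9))) (.far 6 8)) (.far 6 7))) (.split (.split (.split (.fin (.split (.split (.split .big (.iso 71 [1,4,3,0,2,6,9,5,7,8] [3,0,4,2,1,7,5,8,9,6])) (.split (.iso 87 [0,1,5,2,3,4,8,6,9,7] [0,1,3,4,5,2,7,9,6,8]) (.iso 116 [0,1,2,4,3,5,9,8,6,7] [0,1,2,4,3,5,8,9,7,6]))) (.deg 9))) (.far 5 8)) (.far 5 7)) (.split (.split (.pet [[0],[1],[3],[4],[2],[5],[6],[8],[9],[7]]) (.far 6 8)) (.far 6 7))))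

theorem ok65 : chkA tbl q65 c65 q65.rt [] [] = true := by decide +kernel

def c66 : CA := .split (.split (.split (.split (.split (.fin (.split .big (.deg 9))) (.fin (.split (.split .big (.iso 95 [0,1,3,2,8,4,7,9,6,5] [0,1,3,2,5,9,8,6,4,7])) (.deg 9)))) (.split (.fin (.split (.split .big (.iso 79 [1,0,2,7,3,4,5,6,8,9] [1,0,2,4,5,6,7,3,8,9])) (.deg 9))) (.far 7 8))) (.split (.split (.fin (.split (.split .big (.iso 73 [2,6,0,1,3,5,9,4,7,8] [2,3,0,4,7,5,1,8,9,6])) (.deg 9))) (.far 6 8)) (.split (.fin (.split (.split (.split .big (.iso 69 [0,2,3,6,1,4,5,8,9,7] [0,4,1,2,5,6,3,9,7,8])) (.split (.iso 80 [1,0,2,7,3,4,5,6,8,9] [1,0,2,4,5,6,7,3,8,9]) (.iso 104 [1,0,2,3,6,7,4,5,8,9] [1,0,2,3,6,7,4,5,8,9]))) (.deg 9))) (.far 7 8)))) (.split (.split (.split (.fin (.split (.split .big (.deg 5)) (.deg 9))) (.fin (.split (.split (.split .big (.deg 5)) (.split (.red [0,0,0,0,0,0,0,0,0,0,0,2]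 [0,2,3,4,5] [1]) (.deg 5))) (.deg 9)))) (.split (.fin (.split (.split (.split .big (.deg 5)) (.split (.red [1,2,2,2,0,2,1,0,0,0,0,0] [0,1,3,4,5] [2]) (.deg 5))) (.deg 9))) (.far 7 8))) (.far 5 6))) (.split (.split (.split (.split (.fin (.split (.split .big (.deg 4)) (.deg 9))) (.fin (.split (.split (.split .big (.deg 4)) (.split (.iso 98 [0,1,3,2,8,6,5,7,4,9] [0,1,3,2,8,6,5,7,4,9]) (.deg 4))) (.deg 9)))) (.split (.fin (.split (.split (.split .big (.deg 4)) (.split (.iso 82 [1,0,2,7,3,5,6,8,4,9] [1,0,2,4,8,5,6,3,7,9]) (.deg 4))) (.deg 9))) (.far 7 8))) (.split (.split (.fin (.split (.split (.split .big (.deg 4)) (.split (.iso 108 [2,1,6,0,3,5,7,9,4,8] [3,1,0,4,8,5,2,6,9,7]) (.deg 4))) (.deg 9))) (.far 6 8)) (.split (.fin (.split (.split (.split (.split .big (.deg 4)) (.split (.iso 70 [2,0,3,1,6,5,4,8,7,9] [1,3,0,2,6,5,4,8,7,9]) (.deg 4))) (.split (.split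 (.iso 83 [1,0,2,7,3,5,6,8,4,9] [1,0,2,4,8,5,6,3,7,9]) (.deg 4)) (.split (.iso 115 [1,2,0,3,6,7,5,8,9,4] [2,0,1,3,9,6,4,5,7,8]) (.deg 4)))) (.split (.split (.split (.iso 117 [0,1,2,3,9,4,7,6,5,8] [0,1,2,3,5,8,7,6,9,4]) (.deg 4)) (.split (.iso 115 [6,2,3,0,1,9,5,4,7,8] [3,4,1,2,7,6,0,8,9,5]) (.deg 4))) (.split (.split (.iso 78 [1,0,7,2,3,9,4,8,6,5] [1,0,3,4,6,9,8,2,7,5]) (.deg 4)) (.split (.clo 0 1 (.deg 5)) (.deg 4)))))) (.far 7 8)))) (.split (.split (.split (.fin (.split (.split (.split .big (.deg 4)) (.deg 5)) (.deg 9))) (.fin (.split (.split (.split (.split .big (.deg 4)) (.deg 5)) (.split (.split (.red [0,0,0,0,0,0,0,0,0,0,0,2,0] [0,2,3,4,5] [1]) (.deg 4)) (.deg 5))) (.split (.split (.split (.red [0,0,0,0,2,0,0,0,0,0,0,0,0] [0,1,2,4,5] [3]) (.deg 4)) (.deg 5)) (.split (.split (.red [0,0,0,0,2,0,0,0,0,0,0,0,0] [0,2,4,5] [1,3]) (.deg 4)) (.deg 5)))))) (.split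 (.fin (.split (.split (.split (.split .big (.deg 4)) (.deg 5)) (.split (.split (.red [2,0,0,0,0,0,0,0,0,0,0,0,0] [0,1,3,4,5] [2]) (.deg 4)) (.deg 5))) (.split (.split (.split (.red [2,0,0,0,0,0,0,0,0,0,0,0,0] [0,1,2,4,5] [3]) (.deg 4)) (.deg 5)) (.split (.split (.red [2,0,0,0,0,0,0,0,0,0,0,0,0] [0,1,4,5] [2,3]) (.deg 4)) (.deg 5))))) (.far 7 8))) (.far 5 6)))

theorem ok66 : chkA tbl q66 c66 q66.rt [] [] = true := by decide +kernel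

def c67 : CA := .split (.split (.split (.split (.split (.fin (.split .big (.deg 9))) (.fin (.split (.split .big (.red [2,0,0,0,0,0,0,0,0,0,0,0] [0,1,3,4,5] [2])) (.deg 9)))) (.split (.fin (.split (.split .big (.red [2,2,1,2,1,2,1,2,2,2,1,0] [0,2,3,4,5] [1])) (.deg 9))) (.far 7 8))) (.split (.split (.fin (.split (.split .big (.iso 80 [1,0,6,2,3,4,9,8,5,7] [1,0,3,4,5,8,2,9,7,6])) (.deg 9))) (.far 6 8)) (.far 6 7))) (.split (.split (.split (.fin (.split (.split .big (.iso 69 [0,5,1,2,3,4,9,6,7,8] [0,2,3,4,5,1,7,8,9,6])) (.deg 9))) (.far 5 8)) (.far 5 7)) (.split (.split (.fin (.split (.split (.split .big (.iso 70 [0,2,5,1,3,4,7,9,6,8] [0,3,1,4,5,2,8,6,9,7])) (.split (.iso 81 [1,0,2,6,3,4,5,8,7,9] [1,0,2,4,5,6,3,8,7,9]) (.iso 115 [1,0,2,5,3,6,4,9,8,7] [1,0,2,4,6,3,5,9,8,7]))) (.deg 9))) (.far 6 8)) (.far 6 7)))) (.split (.split (.split (.split (.fin (.split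 (.split .big (.deg 4)) (.deg 9))) (.fin (.split (.split (.split .big (.deg 4)) (.split (.red [2,0,0,0,0,0,0,0,0,0,0,0,0] [0,1,3,4,5] [2]) (.deg 4))) (.deg 9)))) (.split (.fin (.split (.split (.split .big (.deg 4)) (.split (.red [0,0,0,0,0,0,0,0,0,0,0,0,2] [0,2,3,4,5] [1]) (.deg 4))) (.deg 9))) (.far 7 8))) (.split (.split (.fin (.split (.split (.split .big (.deg 4)) (.split (.iso 84 [1,0,2,6,3,5,8,4,7,9] [1,0,2,4,7,5,3,8,6,9]) (.deg 4))) (.deg 9))) (.far 6 8)) (.far 6 7))) (.split (.split (.split (.fin (.split (.split (.split .big (.deg 4)) (.split (.iso 109 [1,2,0,5,3,4,9,6,7,8] [2,0,1,4,5,3,7,8,9,6]) (.deg 4))) (.deg 9))) (.far 5 8)) (.far 5 7)) (.split (.split (.fin (.split (.split (.split (.split .big (.deg 4)) (.split (.iso 71 [0,2,1,3,5,4,7,8,9,6] [0,2,1,3,5,4,9,6,7,8]) (.deg 4))) (.split (.split (.iso 87 [1,0,2,6,3,8,5,4,7,9] [1,0,2,4,7,6,3,8,5,9])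 (.deg 4)) (.split (.iso 106 [1,0,2,3,5,6,8,9,4,7] [1,0,2,3,8,4,5,9,6,7]) (.deg 4)))) (.split (.split (.split (.iso 118 [0,1,2,3,9,4,6,5,7,8] [0,1,2,3,5,7,6,8,9,4]) (.deg 4)) (.split (.iso 116 [5,2,3,0,1,9,4,6,7,8] [3,4,1,2,6,0,7,8,9,5]) (.deg 4))) (.split (.split (.iso 88 [1,0,6,2,9,3,4,5,8,7] [1,0,3,5,6,7,2,9,8,4]) (.deg 4)) (.split (.clo 0 1 (.pet [[0],[1],[2,7],[5],[3],[4],[6],[10],[9],[8]])) (.deg 4)))))) (.far 6 8)) (.far 6 7))))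

theorem ok67 : chkA tbl q67 c67 q67.rt [] [] = true := by decide +kernel

def c68 : CA := .split (.split (.split (.split (.split (.fin (.split .big (.deg 10))) (.fin (.split (.split .big (.iso 119 [0,1,2,3,4,5,7,6,9,8,10] [0,1,2,3,4,5,7,6,9,8,10])) (.deg 10)))) (.split (.fin (.split (.split .big (.red [0,0,0,0,0,0,0,0,2,0,0,0,0,0,0] [0,2,3,4,5] [1])) (.deg 10))) (.far 7 9))) (.split (.split (.fin (.split (.split .big (.red [0,0,0,0,0,0,2,0,0,0,0,0,0,0,0] [1,2,3,4,5] [0])) (.deg 10))) (.far 6 9)) (.far 6 7))) (.split (.split (.split (.fin (.split (.split .big (.red [0,0,0,0,2,0,0,0,0,0,0,0,0,0,0] [0,1,2,3,4] [5])) (.deg 10))) (.far 5 9)) (.far 5 7)) (.far 5 6))) (.split (.split (.split (.split (.fin (.split (.split .big (.iso 140 [4,0,1,2,3,10,5,6,7,8,9] [1,2,3,4,0,6,7,8,9,10,5])) (.deg 10))) (.pet [[0],[2],[6],[1],[4,10],[5],[7],[8],[3],[9]])) (.split (.fin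 (.split (.split (.split .big (.red [0,0,2,0,0,0,0,0,0,0,0,0,0,0,0,0] [0,1,2,3,5] [4])) (.split (.red [0,0,0,0,0,0,0,0,2,0,0,0,0,0,0,0] [0,2,3,4,5] [1]) (.red [0,0,2,0,0,0,0,0,0,0,0,0,0,0,0,0] [0,2,3,5] [1,4]))) (.deg 10))) (.far 7 9))) (.far 4 6)) (.far 4 5))

theorem ok68 : chkA tbl q68 c68 q68.rt [] [] = true := by decide +kernel

def c69 : CA := .split (.split (.split (.split (.split (.fin (.split .big (.deg 10))) (.fin (.split (.split .big (.red [0,0,0,2,0,0,0,0,0,0,0,0,0] [0,1,2,4,5] [3])) (.deg 10)))) (.split (.fin (.split (.split .big (.red [2,1,2,1,2,2,2,1,2,0,2,1,0] [0,1,3,4,5] [2])) (.deg 10))) (.far 8 9))) (.split (.split (.fin (.split (.split .big (.red [1,2,2,2,1,2,2,2,1,0,1,2,0] [0,2,3,4,5] [1])) (.deg 10))) (.far 7 9)) (.far 7 8))) (.split (.split (.split (.fin (.split (.split .big (.deg 6)) (.deg 10))) (.fin (.split (.split (.split .big (.deg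 6)) (.split (.red [0,0,0,2,0,0,0,0,0,0,0,0,0,0] [0,1,2,4,5] [3]) (.deg 6))) (.deg 10)))) (.split (.fin (.split (.split (.split .big (.deg 6)) (.split (.red [2,1,2,1,2,2,2,1,2,2,2,1,0,0] [0,1,3,4,5] [2]) (.deg 6))) (.deg 10))) (.far 8 9))) (.split (.split (.fin (.split (.split (.split .big (.deg 6)) (.split (.red [0,0,0,0,0,0,0,0,0,0,0,0,0,2] [0,2,3,4,5] [1]) (.deg 6))) (.deg 10))) (.far 7 9)) (.far 7 8)))) (.split (.split (.split (.split (.fin (.split (.split .big (.deg 5)) (.deg 10))) (.fin (.split (.split (.split .big (.deg 5)) (.split (.red [0,0,0,0,2,0,0,0,0,0,0,0,0,0] [0,1,2,4,5] [3]) (.deg 5))) (.deg 10)))) (.split (.fin (.split (.split (.split .big (.deg 5)) (.split (.red [0,0,0,0,0,0,0,0,0,0,0,0,0,2] [0,1,3,4,5] [2]) (.deg 5))) (.deg 10))) (.far 8 9))) (.split (.split (.fin (.split (.split (.split .big (.deg 5)) (.split (.red [1,2,2,2,1,2,2,2,1,2,1,2,0,0]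 [0,2,3,4,5] [1]) (.deg 5))) (.deg 10))) (.far 7 9)) (.far 7 8))) (.split (.split (.split (.fin (.split (.split (.split .big (.deg 5)) (.deg 6)) (.deg 10))) (.fin (.split (.split (.split (.split .big (.deg 5)) (.deg 6)) (.split (.split (.red [0,0,0,2,0,0,0,0,0,0,0,0,0,0,0] [0,1,2,4,5] [3]) (.deg 5)) (.deg 6))) (.split (.split (.split (.red [0,0,0,2,0,0,0,0,0,0,0,0,0,0,0] [0,1,2,3,5] [4]) (.deg 5)) (.deg 6)) (.split (.split (.red [0,0,0,2,0,0,0,0,0,0,0,0,0,0,0] [0,1,2,5] [3,4]) (.deg 5)) (.deg 6)))))) (.split (.fin (.split (.split (.split (.split .big (.deg 5)) (.deg 6)) (.split (.split (.red [0,0,0,0,0,0,0,0,0,0,0,0,0,0,2] [0,1,3,4,5] [2]) (.deg 5)) (.deg 6))) (.split (.split (.split (.red [0,0,0,0,0,2,0,0,0,0,0,0,0,0,0] [0,1,2,3,5] [4]) (.deg 5)) (.deg 6)) (.split (.split (.red [0,0,0,0,0,2,0,0,0,0,0,0,0,0,0] [0,1,3,5] [2,4]) (.deg 5)) (.deg 6))))) (.far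 8 9))) (.split (.split (.fin (.split (.split (.split (.split .big (.deg 5)) (.deg 6)) (.split (.split (.red [0,0,0,0,0,0,0,0,0,0,0,0,0,2,0] [0,2,3,4,5] [1]) (.deg 5)) (.deg 6))) (.split (.split (.split (.red [0,0,0,0,0,0,2,0,0,0,0,0,0,0,0] [0,1,2,3,5] [4]) (.deg 5)) (.deg 6)) (.split (.split (.red [0,0,0,0,0,0,2,0,0,0,0,0,0,0,0] [0,2,3,5] [1,4]) (.deg 5)) (.deg 6))))) (.far 7 9)) (.far 7 8))))

theorem ok69 : chkA tbl q69 c69 q69.rt [] [] = true := by decide +kernel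

def c70 : CA := .split (.split (.split (.split (.split (.fin (.split .big (.deg 10))) (.fin (.split (.split .big (.red [0,0,0,2,0,0,0,0,0,0,0,0,0,0] [0,1,2,4,5] [3])) (.deg 10)))) (.split (.fin (.split (.split .big (.red [0,2,0,0,0,0,0,0,0,0,0,0,0,0] [0,1,3,4,5] [2])) (.deg 10))) (.far 8 9))) (.split (.split (.fin (.split (.split .big (.red [1,1,2,2,2,2,2,2,2,1,1,2,2,0] [0,2,3,4,5] [1])) (.deg 10))) (.far 7 9)) (.far 7 8))) (.split (.split (.split (.fin (.split (.split .big (.red [1,2,2,1,2,2,2,2,1,2,2,1,2,0] [1,2,3,4,5] [0])) (.deg 10))) (.far 6 9)) (.far 6 8)) (.split (.split (.fin (.split (.split (.split .big (.red [1,2,2,1,2,2,2,2,1,2,2,1,2,0,0] [1,2,3,4,5] [0])) (.split (.red [1,1,2,2,2,2,2,2,2,1,1,2,2,0,0] [0,2,3,4,5] [1]) (.red [2,2,2,2,2,0,2,2,1,1,1,0,2,2,2] [2,3,4,5] [0,1]))) (.deg 10))) (.far 7 9)) (.far 7 8)))) (.split (.split (.split (.split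 (.fin (.split (.split .big (.deg 5)) (.deg 10))) (.fin (.split (.split (.split .big (.deg 5)) (.split (.red [0,0,0,0,2,0,0,0,0,0,0,0,0,0,0] [0,1,2,4,5] [3]) (.deg 5))) (.deg 10)))) (.split (.fin (.split (.split (.split .big (.deg 5)) (.split (.red [0,0,2,0,0,0,0,0,0,0,0,0,0,0,0] [0,1,3,4,5] [2]) (.deg 5))) (.deg 10))) (.far 8 9))) (.split (.split (.fin (.split (.split (.split .big (.deg 5)) (.split (.red [0,0,0,0,0,0,0,0,0,0,0,0,0,0,2] [0,2,3,4,5] [1]) (.deg 5))) (.deg 10))) (.far 7 9)) (.far 7 8))) (.split (.split (.split (.fin (.split (.split (.split .big (.deg 5)) (.split (.red [0,0,0,0,0,0,0,0,0,0,0,0,0,0,2] [1,2,3,4,5] [0]) (.deg 5))) (.deg 10))) (.far 6 9)) (.far 6 8)) (.split (.split (.pet [[0,5],[3],[1],[2],[4],[10],[8],[6],[7],[9]]) (.far 7 9)) (.far 7 8))))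

theorem ok70 : chkA tbl q70 c70 q70.rt [] [] = true := by decide +kernel

def c71 : CA := .split (.split (.split (.split (.split (.fin (.split .big (.deg 10))) (.fin (.split (.split .big (.red [2,0,0,0,0,0,0,0,0,0,0,0,0,0,0] [0,1,2,3,5] [4])) (.deg 10)))) (.split (.fin (.split (.split .big (.red [0,0,0,2,0,0,0,0,0,0,0,0,0,0,0] [0,1,2,4,5] [3])) (.deg 10))) (.far 8 9))) (.split (.split (.fin (.split (.split .big (.red [0,0,2,0,0,0,0,0,0,0,0,0,0,0,0] [0,2,3,4,5] [1])) (.deg 10))) (.far 7 9)) (.far 7 8))) (.split (.split (.split (.fin (.split (.split .big (.red [2,2,1,1,2,0,2,2,1,2,0,1,2,2,2] [1,2,3,4,5] [0])) (.deg 10))) (.far 6 9)) (.split (.fin (.split (.split (.split .big (.red [0,2,0,0,0,0,0,0,0,0,0,0,0,0,0,0] [1,2,3,4,5] [0])) (.split (.red [0,0,0,0,2,0,0,0,0,0,0,0,0,0,0,0] [0,1,2,4,5] [3]) (.red [0,0,0,2,0,0,0,0,0,0,0,0,0,0,0,0] [1,2,4,5] [0,3]))) (.deg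 10))) (.far 8 9))) (.far 6 7))) (.split (.split (.split (.split (.fin (.split (.split .big (.red [2,2,1,1,2,2,0,2,0,2,1,1,2,2,2] [0,1,2,3,4] [5])) (.deg 10))) (.far 5 9)) (.far 5 8)) (.split (.split (.fin (.split (.split (.split .big (.red [2,0,0,0,0,0,0,0,0,0,0,0,0,0,0,0] [0,1,2,3,4] [5])) (.split (.red [0,0,0,0,2,0,0,0,0,0,0,0,0,0,0,0] [0,2,3,4,5] [1]) (.red [0,0,2,0,0,0,0,0,0,0,0,0,0,0,0,0] [0,2,3,4] [1,5]))) (.deg 10))) (.far 7 9)) (.far 7 8))) (.split (.split (.split (.pet [[0],[2],[1],[4],[3],[5,10],[9],[6],[8],[7]]) (.far 6 9)) (.far 5 8)) (.far 6 7)))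

theorem ok71 : chkA tbl q71 c71 q71.rt [] [] = true := by decide +kernel

def c72 : CA := .split (.split (.split (.split (.split (.fin (.split .big (.deg 10))) (.fin (.split (.split .big (.deg 9)) (.deg 10)))) (.split (.fin (.split (.split .big (.red [2,2,2,2,2,2,2,2,1,1,0,2,0,0] [0,1,2,4,5] [3])) (.deg 10))) (.far 7 9))) (.split (.split (.fin (.split (.split .big (.iso 139 [6,1,3,0,2,10,7,4,5,8,9] [3,1,4,2,7,8,0,6,9,10,5])) (.deg 10))) (.fin (.split (.split (.split .big (.red [2,2,2,2,2,2,2,2,2,2,2,2,1,0,1] [1,2,3,4,5] [0])) (.deg 9)) (.deg 10)))) (.far 6 7))) (.split (.split (.split (.fin (.split (.split .big (.red [2,2,2,2,1,1,2,2,2,2,2,0,0,0] [0,1,2,3,4] [5])) (.deg 10))) (.far 5 9)) (.far 5 7)) (.far 5 6))) (.split (.split (.split (.split (.fin (.split (.split .big (.iso 139 [4,0,2,1,3,10,5,6,7,8,9] [1,3,2,4,0,6,7,8,9,10,5])) (.deg 10))) (.fin (.split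 (.split (.split .big (.red [2,2,2,2,2,2,2,2,2,2,2,2,1,0,1] [0,1,2,3,5] [4])) (.deg 9)) (.deg 10)))) (.far 4 7)) (.split (.split (.fin (.split (.split (.split .big (.iso 143 [4,0,2,1,3,5,7,6,8,9,10] [1,3,2,4,0,5,7,6,8,9,10])) (.split (.iso 143 [6,1,3,0,2,7,5,4,8,9,10] [3,1,4,2,7,6,0,5,8,9,10]) (.sep [0,1,2,3,4,6] [5,7,10] 0 1 9))) (.deg 10))) (.pet [[0],[1],[6],[10],[4],[5],[7],[3],[8,9],[2]])) (.far 6 7))) (.far 4 5))

theorem ok72 : chkA tbl q72 c72 q72.rt [] [] = true := by decide +kernel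

def c73 : CA := .split (.split (.split (.split (.split (.fin (.split .big (.deg 10))) (.fin (.split (.split .big (.iso 149 [4,1,2,0,3,9,6,7,5,8,10] [3,1,2,4,0,8,6,7,9,5,10])) (.deg 10)))) (.split (.fin (.split (.split .big (.iso 149 [3,0,2,1,4,8,5,7,6,9,10] [1,3,2,0,4,6,8,7,5,9,10])) (.deg 10))) (.far 8 9))) (.split (.split (.fin (.split (.split .big (.deg 7)) (.deg 10))) (.fin (.split (.split (.split .big (.deg 7)) (.split (.iso 151 [4,1,2,0,3,9,6,5,8,7,10] [3,1,2,4,0,7,6,9,8,5,10]) (.deg 7))) (.deg 10)))) (.split (.fin (.split (.split (.split .big (.deg 7)) (.split (.iso 151 [3,0,2,1,4,8,5,6,9,7,10] [1,3,2,0,4,6,7,9,5,8,10]) (.deg 7))) (.deg 10))) (.far 8 9)))) (.split (.split (.split (.fin (.split (.split .big (.deg 6)) (.deg 10))) (.fin (.split (.split (.split .big (.deg 6)) (.split (.red [2,1,2,2,1,0,0,2,0,0,0,0,0] [0,1,2,4,5] [3]) (.deg 6))) (.deg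 10)))) (.split (.fin (.split (.split (.split .big (.deg 6)) (.split (.red [0,0,0,0,0,0,0,0,0,0,0,0,2] [0,1,3,4,5] [2]) (.deg 6))) (.deg 10))) (.far 8 9))) (.split (.split (.fin (.split (.split (.split .big (.deg 6)) (.deg 7)) (.deg 10))) (.fin (.split (.split (.split (.split .big (.deg 6)) (.deg 7)) (.split (.split (.red [0,0,0,2,0,0,0,0,0,0,0,0,0,0] [0,1,2,4,5] [3]) (.deg 6)) (.deg 7))) (.split (.split (.split (.red [2,0,0,0,0,0,0,0,0,0,0,0,0,0] [0,1,2,3,5] [4]) (.deg 6)) (.deg 7)) (.split (.split (.red [0,0,0,2,0,0,0,0,0,0,0,0,0,0] [0,1,2,5] [3,4]) (.deg 6)) (.deg 7)))))) (.split (.fin (.split (.split (.split (.split .big (.deg 6)) (.deg 7)) (.split (.split (.red [0,0,0,0,0,0,0,0,0,0,0,0,0,2] [0,1,3,4,5] [2]) (.deg 6)) (.deg 7))) (.split (.split (.split (.red [0,0,0,0,0,0,2,0,0,0,0,0,0,0] [0,1,2,3,5] [4]) (.deg 6)) (.deg 7)) (.split (.split (.red [0,0,0,0,0,0,2,0,0,0,0,0,0,0]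 [0,1,3,5] [2,4]) (.deg 6)) (.deg 7))))) (.far 8 9))))) (.split (.split (.split (.split (.fin (.split (.split .big (.deg 5)) (.deg 10))) (.fin (.split (.split (.split .big (.deg 5)) (.split (.red [0,0,0,0,0,0,0,0,0,0,0,0,2] [0,1,2,4,5] [3]) (.deg 5))) (.deg 10)))) (.split (.fin (.split (.split (.split .big (.deg 5)) (.split (.red [2,2,1,1,2,0,0,2,0,0,0,0,0] [0,1,3,4,5] [2]) (.deg 5))) (.deg 10))) (.far 8 9))) (.split (.split (.fin (.split (.split (.split .big (.deg 5)) (.deg 7)) (.deg 10))) (.fin (.split (.split (.split (.split .big (.deg 5)) (.deg 7)) (.split (.split (.red [0,0,0,0,0,0,0,0,0,0,0,0,0,2] [0,1,2,4,5] [3]) (.deg 5)) (.deg 7))) (.split (.split (.split (.red [0,0,0,0,0,2,0,0,0,0,0,0,0,0] [0,1,2,3,5] [4]) (.deg 5)) (.deg 7)) (.split (.split (.red [0,0,0,0,0,2,0,0,0,0,0,0,0,0] [0,1,2,5] [3,4]) (.deg 5)) (.deg 7)))))) (.split (.fin (.split (.split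 (.split (.split .big (.deg 5)) (.deg 7)) (.split (.split (.red [0,2,0,0,0,0,0,0,0,0,0,0,0,0] [0,1,3,4,5] [2]) (.deg 5)) (.deg 7))) (.split (.split (.split (.red [2,0,0,0,0,0,0,0,0,0,0,0,0,0] [0,1,2,3,5] [4]) (.deg 5)) (.deg 7)) (.split (.split (.red [0,2,0,0,0,0,0,0,0,0,0,0,0,0] [0,1,3,5] [2,4]) (.deg 5)) (.deg 7))))) (.far 8 9)))) (.split (.split (.split (.fin (.split (.split (.split .big (.deg 5)) (.deg 6)) (.deg 10))) (.fin (.split (.split (.split (.split .big (.deg 5)) (.deg 6)) (.split (.split (.red [0,0,0,0,0,0,0,0,0,2,0,0,0,0] [0,1,2,4,5] [3]) (.deg 5)) (.deg 6))) (.split (.split (.split (.red [2,0,0,0,0,0,0,0,0,0,0,0,0,0] [0,1,2,3,5] [4]) (.deg 5)) (.deg 6)) (.split (.split (.red [0,0,0,0,0,0,0,0,0,2,0,0,0,0] [0,1,2,5] [3,4]) (.deg 5)) (.deg 6)))))) (.split (.fin (.split (.split (.split (.split .big (.deg 5)) (.deg 6)) (.split (.split (.red [0,0,0,0,0,0,0,0,2,0,0,0,0,0]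 [0,1,3,4,5] [2]) (.deg 5)) (.deg 6))) (.split (.split (.split (.red [2,0,0,0,0,0,0,0,0,0,0,0,0,0] [0,1,2,3,5] [4]) (.deg 5)) (.deg 6)) (.split (.split (.red [0,0,0,0,0,0,0,0,2,0,0,0,0,0] [0,1,3,5] [2,4]) (.deg 5)) (.deg 6))))) (.far 8 9))) (.split (.split (.fin (.split (.split (.split (.split .big (.deg 5)) (.deg 6)) (.deg 7)) (.split (.split (.split (.red [2,2,2,2,2,1,2,1,2,2,2,0,0,2] [0,1,2,3,5] [4]) (.deg 5)) (.deg 6)) (.deg 7)))) (.fin (.split (.split (.split (.split (.split .big (.deg 5)) (.deg 6)) (.deg 7)) (.split (.split (.split (.red [0,0,0,0,2,0,0,0,0,0,0,0,0,0,0] [0,1,2,4,5] [3]) (.deg 5)) (.deg 6)) (.deg 7))) (.split (.split (.split (.split (.red [2,0,0,0,0,0,0,0,0,0,0,0,0,0,0] [0,1,2,3,5] [4]) (.deg 5)) (.deg 6)) (.deg 7)) (.split (.split (.split (.red [0,0,0,0,2,0,0,0,0,0,0,0,0,0,0] [0,1,2,5] [3,4]) (.deg 5)) (.deg 6)) (.deg 7)))))) (.split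 (.fin (.split (.split (.split (.split (.split .big (.deg 5)) (.deg 6)) (.deg 7)) (.split (.split (.split (.red [0,0,2,0,0,0,0,0,0,0,0,0,0,0,0] [0,1,3,4,5] [2]) (.deg 5)) (.deg 6)) (.deg 7))) (.split (.split (.split (.split (.red [2,0,0,0,0,0,0,0,0,0,0,0,0,0,0] [0,1,2,3,5] [4]) (.deg 5)) (.deg 6)) (.deg 7)) (.split (.split (.split (.red [0,0,2,0,0,0,0,0,0,0,0,0,0,0,0] [0,1,3,5] [2,4]) (.deg 5)) (.deg 6)) (.deg 7))))) (.far 8 9)))))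

theorem ok73 : chkA tbl q73 c73 q73.rt [] [] = true := by decide +kernel

def c74 : CA := .split (.split (.split (.split (.split (.fin (.split .big (.deg 10))) (.fin (.split (.split .big (.red [2,2,2,1,1,0,2,1,2,2,2,2,1,0] [0,1,2,4,5] [3])) (.deg 10)))) (.split (.fin (.split (.split .big (.red [2,2,1,2,2,0,2,2,1,1,1,2,2,0] [1,2,3,4,5] [0])) (.deg 10))) (.far 7 8))) (.split (.split (.fin (.split (.split .big (.red [0,0,0,0,0,2,0,0,0,0,0,0,0,0] [0,2,3,4,5] [1])) (.deg 10))) (.far 6 8)) (.far 6 7))) (.split (.split (.split (.fin (.split (.split .big (.red [2,2,1,2,2,0,2,2,1,1,1,2,2,0] [0,1,2,3,4] [5])) (.deg 10))) (.far 5 8)) (.split (.fin (.split (.split (.split .big (.red [0,0,0,0,0,0,0,0,0,0,0,0,0,2,0] [0,1,2,3,4] [5])) (.split (.red [0,0,0,0,0,0,0,0,0,0,0,0,0,0,2] [1,2,3,4,5] [0]) (.red [0,0,0,0,0,0,0,0,0,0,0,0,0,0,2] [1,2,3,4] [0,5]))) (.deg 10))) (.far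 7 8))) (.far 5 6))) (.split (.split (.split (.split (.fin (.split (.split .big (.red [2,2,2,1,1,0,2,1,2,2,2,2,1,0] [0,1,2,3,5] [4])) (.deg 10))) (.fin (.split (.split (.split .big (.red [0,0,0,0,0,0,0,0,0,0,0,0,0,2,0] [0,1,2,3,5] [4])) (.split (.red [0,0,0,0,0,0,0,0,0,0,0,0,0,0,2] [0,1,2,4,5] [3]) (.red [0,0,0,0,0,0,0,0,0,0,0,0,0,0,2] [0,1,2,5] [3,4]))) (.deg 10)))) (.far 4 7)) (.far 4 6)) (.far 4 5))

theorem ok74 : chkA tbl q74 c74 q74.rt [] [] = true := by decide +kernel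

def c75 : CA := .split (.split (.split (.split (.split (.fin (.split .big (.deg 10))) (.fin (.split (.split .big (.red [2,2,2,1,1,2,0,1,2,2,2,2,2,1,0] [0,1,2,4,5] [3])) (.deg 10)))) (.split (.fin (.split (.split .big (.red [0,2,0,0,0,0,0,0,0,0,0,0,0,0,0] [0,2,3,4,5] [1])) (.deg 10))) (.far 7 8))) (.split (.split (.fin (.split (.split .big (.red [2,0,0,0,0,0,0,0,0,0,0,0,0,0,0] [1,2,3,4,5] [0])) (.deg 10))) (.far 6 8)) (.far 6 7))) (.split (.split (.split (.fin (.split (.split .big (.red [0,0,0,0,2,0,0,0,0,0,0,0,0,0,0] [0,1,2,3,4] [5])) (.deg 10))) (.far 5 8)) (.far 5 7)) (.far 5 6))) (.split (.split (.split (.split (.fin (.split (.split .big (.red [2,2,2,1,1,2,1,0,2,2,2,2,2,1,0] [0,1,2,3,5] [4])) (.deg 10))) (.pet [[0],[1],[4,10],[8],[2],[5],[6],[3],[9],[7]])) (.far 4 7)) (.far 4 6)) (.far 4 5))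

theorem ok75 : chkA tbl q75 c75 q75.rt [] [] = true := by decide +kernel

def c76 : CA := .split (.split (.split (.split (.fin (.split (.iso 121 [0,1,2,3,4,5,6,7,8,9,10] [0,1,2,3,4,5,6,7,8,9,10]) (.deg 10))) (.fin (.split (.split (.iso 136 [0,1,2,4,3,5,6,7,8,9,10] [0,1,2,4,3,5,6,7,8,9,10]) (.red [1,2,2,2,2,0,0,2,1,2,1,1,2,2] [0,1,2,3] [4,5])) (.deg 10)))) (.split (.fin (.split (.split (.iso 136 [0,1,2,5,3,4,7,6,9,8,10] [0,1,2,4,5,3,7,6,9,8,10]) (.red [1,2,2,2,2,2,1,0,0,1,2,2,1,2] [0,1,3,4] [2,5])) (.deg 10))) (.far 8 9))) (.split (.split (.fin (.split (.split (.iso 136 [0,1,3,4,2,5,8,9,6,7,10] [0,1,4,2,3,5,8,9,6,7,10]) (.red [1,2,2,2,2,2,1,1,2,0,0,2,1,2] [0,2,3,4] [1,5])) (.deg 10))) (.far 7 9)) (.split (.fin (.split (.split (.split (.iso 123 [0,1,2,3,4,5,6,7,9,8,10] [0,1,2,3,4,5,6,7,9,8,10]) (.red [0,0,0,0,0,0,0,0,0,0,0,0,0,2,0] [0,2,3,4] [1,5])) (.split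 (.red [0,0,0,0,0,0,0,0,0,0,0,0,0,0,2] [0,1,3,4] [2,5]) (.clo 0 1 (.pet [[0,2],[3],[8],[1,4],[6],[7],[9],[10],[5],[11]])))) (.deg 10))) (.far 8 9)))) (.split (.split (.split (.fin (.split (.split (.iso 136 [0,1,3,5,2,4,9,8,7,6,10] [0,1,4,2,5,3,9,8,7,6,10]) (.red [1,2,2,2,2,1,2,2,1,2,1,0,0,2] [1,2,3,4] [0,5])) (.deg 10))) (.fin (.split (.split (.split (.iso 123 [0,1,2,3,5,4,7,6,8,9,10] [0,1,2,3,5,4,7,6,8,9,10]) (.red [0,0,0,0,0,0,0,0,0,0,0,0,0,2,0] [1,2,3,4] [0,5])) (.split (.red [0,0,0,0,0,0,0,0,0,0,0,0,0,0,2] [0,1,2,3] [4,5]) (.clo 0 1 (.pet [[0,2],[3],[8],[1,4],[6],[7],[9],[11],[5],[10]])))) (.deg 10)))) (.far 6 8)) (.far 6 7))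

theorem ok76 : chkA tbl q76 c76 q76.rt [] [] = true := by decide +kernel

def c77 : CA := .split (.split (.split (.split (.fin (.split (.iso 122 [0,1,2,3,4,5,6,7,8,9,10] [0,1,2,3,4,5,6,7,8,9,10]) (.deg 10))) (.fin (.split (.split (.red [2,2,2,2,2,2,2,2,2,2,2,1,1,0,0] [0,1,2,3,5] [4]) (.red [2,0,0,0,0,0,0,0,0,0,0,0,0,0,0] [0,1,2,3] [4,5])) (.deg 10)))) (.split (.fin (.split (.split (.iso 137 [0,1,2,4,3,5,6,7,9,8,10] [0,1,2,4,3,5,6,7,9,8,10]) (.red [2,2,2,2,2,2,2,0,1,2,2,1,1,2,0] [0,1,3,5] [2,4])) (.deg 10))) (.far 8 9))) (.split (.split (.fin (.split (.split (.red [2,2,2,2,2,2,2,1,1,2,2,2,2,0,0] [0,1,2,3,5] [4]) (.red [2,0,0,0,0,0,0,0,0,0,0,0,0,0,0] [0,2,3,5] [1,4])) (.deg 10))) (.far 7 9)) (.far 7 8))) (.split (.split (.split (.fin (.split (.split (.iso 137 [0,1,3,5,2,4,8,9,7,6,10] [0,1,4,2,5,3,9,8,6,7,10]) (.red [2,2,2,2,2,2,2,1,1,2,2,0,1,2,0] [1,2,3,5]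 [0,4])) (.deg 10))) (.far 6 9)) (.split (.pet [[0],[1],[4],[6,10],[2],[3],[5],[9],[8],[7]]) (.far 8 9))) (.far 6 7))

theorem ok77 : chkA tbl q77 c77 q77.rt [] [] = true := by decide +kernel

end Pool.Agent.TH395.P5
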