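import Pool.Agent.H79.LF.TH395_P5_Tab

set_option autoImplicit false
set_option maxRecDepth 100000

/-! # Certificates, part 4 -/

namespace Pool.Agent.TH395.P5

def c100 : CA := .split (.split (.split (.split (.split (.fin (.split .big (.deg 10))) (.fin (.split (.split .big (.iso 142 [0,1,2,3,4,5,6,8,7,9,10] [0,1,2,3,4,5,6,8,7,9,10])) (.deg 10)))) (.split (.fin (.split (.split .big (.iso 127 [0,1,2,8,3,4,5,6,7,10,9] [0,1,2,4,5,6,7,8,3,10,9])) (.deg 10))) (.far 8 9))) (.split (.split (.fin (.split (.split .big (.red [0,0,0,0,0,0,0,0,0,0,0,2,0,0] [0,1,3,4,5] [2])) (.deg 10))) (.far 7 9)) (.far 7 8))) (.split (.split (.split (.fin (.split (.split .big (.iso 168 [2,6,0,1,3,4,10,5,7,8,9] [2,3,0,4,5,7,1,8,9,10,6])) (.deg 10))) (.fin (.split (.split (.split .big (.red [0,0,0,0,0,0,0,0,0,0,0,0,2,0,0] [0,2,3,4,5] [1])) (.split (.red [0,0,0,0,0,0,0,0,0,0,0,0,2,0,0]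 [1,2,3,4,5] [0]) (.red [0,0,0,0,0,0,0,0,0,0,2,0,0,0,0] [2,3,4,5] [0,1]))) (.deg 10)))) (.split (.fin (.split (.split (.split .big (.iso 170 [2,6,0,1,3,4,5,7,10,8,9] [2,3,0,4,5,6,1,7,9,10,8])) (.split (.red [2,1,0,2,0,2,0,0,0,1,2,2,1,0,0] [0,1,2,4,5] [3]) (.red [0,0,0,0,0,0,0,0,0,0,0,2,0,0,0] [0,2,4,5] [1,3]))) (.deg 10))) (.far 8 9))) (.far 6 7))) (.split (.split (.split (.split (.fin (.split (.split .big (.iso 168 [1,5,0,2,4,3,10,6,7,8,9] [2,0,3,5,4,1,7,8,9,10,6])) (.deg 10))) (.fin (.split (.split (.split .big (.red [0,0,0,0,0,0,0,0,0,0,0,0,2,0,0] [0,1,2,3,4] [5])) (.split (.red [0,0,0,0,0,0,0,0,0,0,0,0,2,0,0] [1,2,3,4,5] [0]) (.red [0,0,0,0,0,0,0,0,0,0,2,0,0,0,0] [1,2,3,4] [0,5]))) (.deg 10)))) (.split (.fin (.split (.split (.split .big (.iso 170 [1,5,0,2,4,3,6,7,10,8,9] [2,0,3,5,4,1,6,7,9,10,8])) (.split (.red [1,2,2,0,0,0,0,2,1,0,2,2,1,0,0]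 [0,1,2,4,5] [3]) (.red [0,0,0,0,0,0,0,0,0,0,0,2,0,0,0] [0,1,2,4] [3,5]))) (.deg 10))) (.far 8 9))) (.far 5 7)) (.split (.split (.split (.fin (.split (.split (.split .big (.iso 172 [1,5,0,2,4,3,6,7,10,8,9] [2,0,3,5,4,1,6,7,9,10,8])) (.split (.iso 172 [2,6,0,1,3,4,5,7,10,8,9] [2,3,0,4,5,6,1,7,9,10,8]) (.sep [1,2,3,4,5,6] [0,7,10] 1 2 8))) (.deg 10))) (.pet [[0,8],[1],[3],[6],[2],[9],[5],[7],[10],[4]])) (.split (.pet [[0],[1],[3],[6],[2],[8],[5],[7,9],[10],[4]]) (.far 8 9))) (.far 6 7)))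

theorem ok100 : chkA tbl q100 c100 q100.rt [] [] = true := by decide +kernel

def c101 : CA := .split (.split (.split (.split (.split (.fin (.split .big (.deg 10))) (.fin (.split (.split .big (.deg 9)) (.deg 10)))) (.split (.fin (.split (.split .big (.red [2,2,2,2,2,2,2,2,2,2,1,1,2,0] [0,1,2,4,5] [3])) (.deg 10))) (.far 8 9))) (.split (.split (.fin (.split (.split .big (.red [2,0,0,0,0,0,0,0,0,0,0,0,0,0] [0,1,3,4,5] [2])) (.deg 10))) (.far 7 9)) (.far 7 8))) (.split (.split (.split (.fin (.split (.split .big (.iso 169 [2,6,0,1,3,4,10,5,7,8,9] [2,3,0,4,5,7,1,8,9,10,6])) (.deg 10))) (.fin (.split (.split (.split .big (.iso 171 [2,6,0,1,3,4,5,7,10,8,9] [2,3,0,4,5,6,1,7,9,10,8])) (.deg 9)) (.deg 10)))) (.split (.fin (.split (.split (.split .big (.red [2,2,2,2,2,2,2,2,2,2,1,1,0,0,2] [0,2,3,4,5] [1])) (.split (.red [2,2,2,2,2,2,2,2,2,2,1,1,2,0,0] [0,1,2,4,5]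 [3]) (.red [0,2,0,0,0,0,0,0,0,0,0,0,0,0,0] [0,2,4,5] [1,3]))) (.deg 10))) (.far 8 9))) (.far 6 7))) (.split (.split (.split (.split (.fin (.split (.split .big (.iso 169 [1,5,0,2,4,3,10,6,7,8,9] [2,0,3,5,4,1,7,8,9,10,6])) (.deg 10))) (.fin (.split (.split (.split .big (.iso 171 [1,5,0,2,4,3,6,7,10,8,9] [2,0,3,5,4,1,6,7,9,10,8])) (.deg 9)) (.deg 10)))) (.split (.fin (.split (.split (.split .big (.red [2,2,2,2,2,2,2,2,2,2,1,1,0,0,2] [0,1,2,3,4] [5])) (.split (.red [2,2,2,2,2,2,2,2,2,2,1,1,2,0,0] [0,1,2,4,5] [3]) (.red [2,0,0,0,0,0,0,0,0,0,0,0,0,0,0] [0,1,2,4] [3,5]))) (.deg 10))) (.far 8 9))) (.far 5 7)) (.split (.split (.split (.fin (.split (.split (.split .big (.iso 162 [1,5,0,4,2,3,6,7,10,8,9] [2,0,4,5,3,1,6,7,9,10,8])) (.split (.iso 162 [2,6,0,3,1,4,5,7,10,8,9] [2,4,0,3,5,6,1,7,9,10,8]) (.sep [1,2,3,4,5,6] [0,7,10] 1 2 8))) (.deg 10))) (.pet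 [[0],[1],[3],[6],[2],[8,9],[5],[7],[10],[4]])) (.split (.pet [[0],[1],[3],[6],[2],[8],[5],[7],[10],[4]]) (.far 8 9))) (.far 6 7)))

theorem ok101 : chkA tbl q101 c101 q101.rt [] [] = true := by decide +kernel

def c102 : CA := .split (.split (.split (.split (.split (.fin (.split .big (.deg 10))) (.fin (.split (.split .big (.iso 143 [0,1,2,3,4,5,6,7,9,10,8] [0,1,2,3,4,5,6,7,10,8,9])) (.deg 10)))) (.split (.fin (.split (.split .big (.iso 128 [0,1,2,8,3,4,5,7,10,6,9] [0,1,2,4,5,6,9,7,3,10,8])) (.deg 10))) (.pet [[0],[1],[3],[6],[2],[8,10],[5],[7],[9],[4]]))) (.split (.split (.fin (.split (.split .big (.red [2,0,0,0,0,0,0,0,0,0,0,0,0,0,0] [0,1,3,4,5] [2])) (.deg 10))) (.fin (.split (.split (.split .big (.red [2,0,0,0,0,0,0,0,0,0,0,0,0,0,0,0] [0,1,3,4,5] [2])) (.split (.red [2,0,0,0,0,0,0,0,0,0,0,0,0,0,0,0] [1,2,3,4,5] [0]) (.red [2,0,0,0,0,0,0,0,0,0,0,0,0,0,0,0]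 [1,3,4,5] [0,2]))) (.deg 10)))) (.far 7 8))) (.split (.split (.split (.fin (.split (.split .big (.red [2,2,2,2,2,2,1,1,2,2,2,2,0,0,2] [0,2,3,4,5] [1])) (.deg 10))) (.far 6 9)) (.split (.fin (.split (.split (.split .big (.red [0,2,0,0,0,0,0,0,0,0,0,0,0,0,0,0] [0,2,3,4,5] [1])) (.split (.red [2,0,0,0,0,0,0,0,0,0,0,0,0,0,0,0] [0,1,2,4,5] [3]) (.red [0,2,0,0,0,0,0,0,0,0,0,0,0,0,0,0] [0,2,4,5] [1,3]))) (.deg 10))) (.far 6 9))) (.far 6 7))) (.split (.split (.split (.split (.fin (.split (.split .big (.red [2,2,2,2,1,1,2,2,2,2,2,2,0,0,2] [0,1,2,3,4] [5])) (.deg 10))) (.far 5 9)) (.split (.fin (.split (.split (.split .big (.red [2,0,0,0,0,0,0,0,0,0,0,0,0,0,0,0] [0,1,2,3,4] [5])) (.split (.red [0,2,0,0,0,0,0,0,0,0,0,0,0,0,0,0] [0,1,2,4,5] [3]) (.red [2,0,0,0,0,0,0,0,0,0,0,0,0,0,0,0] [0,1,2,4] [3,5]))) (.deg 10))) (.far 5 9))) (.far 5 7)) (.far 5 6))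

theorem ok102 : chkA tbl q102 c102 q102.rt [] [] = true := by decide +kernel

def c103 : CA := .split (.split (.split (.split (.split (.fin (.split .big (.deg 10))) (.fin (.split (.split .big (.red [2,0,0,0,0,0,0,0,0,0,0,0,0,0,0] [1,2,3,4,5] [0])) (.deg 10)))) (.split (.fin (.split (.split .big (.red [1,2,2,2,2,1,1,2,1,2,2,2,2,0,0] [0,1,3,4,5] [2])) (.deg 10))) (.far 8 9))) (.split (.split (.fin (.split (.split .big (.red [0,2,0,0,0,0,0,0,0,0,0,0,0,0,0] [0,1,2,3,5] [4])) (.deg 10))) (.far 7 9)) (.far 7 8))) (.split (.split (.split (.fin (.split (.split .big (.red [1,2,2,2,2,1,1,2,1,2,0,2,2,0,2] [0,2,3,4,5] [1])) (.deg 10))) (.fin (.split (.split (.split .big (.red [0,0,2,0,0,0,0,0,0,0,0,0,0,0,0,0] [0,2,3,4,5] [1])) (.split (.red [2,0,0,0,0,0,0,0,0,0,0,0,0,0,0,0] [1,2,3,4,5] [0]) (.red [2,0,0,0,0,0,0,0,0,0,0,0,0,0,0,0] [2,3,4,5] [0,1]))) (.deg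 10)))) (.split (.pet [[0],[1],[3],[7],[2],[8],[5],[6,10],[9],[4]]) (.far 8 9))) (.far 6 7))) (.split (.split (.split (.split (.fin (.split (.split .big (.red [2,0,0,0,0,0,0,0,0,0,0,0,0,0,0] [0,1,2,3,4] [5])) (.deg 10))) (.far 5 9)) (.far 5 8)) (.far 5 7)) (.far 5 6))

theorem ok103 : chkA tbl q103 c103 q103.rt [] [] = true := by decide +kernel

def c104 : CA := .split (.split (.split (.split (.fin (.split (.iso 146 [0,1,2,3,4,5,6,7,8,9,10] [0,1,2,3,4,5,6,7,8,9,10]) (.deg 10))) (.fin (.split (.split (.iso 150 [0,1,2,3,4,5,6,7,8,9,10] [0,1,2,3,4,5,6,7,8,9,10]) (.red [2,1,1,2,2,2,2,2,0,1,1,2,0] [0,1,2,4] [3,5])) (.deg 10)))) (.split (.fin (.split (.split (.iso 150 [0,2,1,4,3,5,7,6,9,8,10] [0,2,1,4,3,5,7,6,9,8,10]) (.red [1,2,2,1,2,2,2,2,1,2,0,1,0] [0,1,3,4] [2,5])) (.deg 10))) (.far 8 9))) (.split (.split (.fin (.split (.split (.iso 152 [0,1,2,3,4,5,6,8,9,7,10]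 [0,1,2,3,4,5,6,9,7,8,10]) (.deg 7)) (.deg 10))) (.fin (.split (.split (.split (.iso 153 [0,1,2,3,4,5,6,8,9,7,10] [0,1,2,3,4,5,6,9,7,8,10]) (.deg 7)) (.split (.red [1,2,2,1,2,2,2,2,1,2,2,1,0,0] [0,1,2,4] [3,5]) (.deg 7))) (.deg 10)))) (.split (.fin (.split (.split (.split (.iso 168 [0,1,2,4,3,5,6,9,8,7,10] [0,1,2,4,3,5,6,9,8,7,10]) (.deg 7)) (.split (.red [0,0,0,0,0,0,0,0,0,0,0,0,0,2] [0,1,3,4] [2,5]) (.deg 7))) (.deg 10))) (.far 8 9)))) (.split (.split (.split (.fin (.split (.split (.iso 152 [0,2,1,4,3,5,7,9,8,6,10] [0,2,1,4,3,5,9,6,8,7,10]) (.deg 6)) (.deg 10))) (.fin (.split (.split (.split (.iso 168 [0,2,1,3,4,5,7,8,9,6,10] [0,2,1,3,4,5,9,6,7,8,10]) (.deg 6)) (.split (.red [0,0,0,0,0,0,0,0,0,0,0,0,0,2] [0,1,2,4] [3,5]) (.deg 6))) (.deg 10)))) (.split (.fin (.split (.split (.split (.iso 153 [0,2,1,4,3,5,7,9,8,6,10] [0,2,1,4,3,5,9,6,8,7,10])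 (.deg 6)) (.split (.red [2,1,1,2,2,2,2,2,2,1,1,2,0,0] [0,1,3,4] [2,5]) (.deg 6))) (.deg 10))) (.far 8 9))) (.split (.split (.fin (.split (.split (.split (.iso 156 [0,1,2,3,4,5,8,9,6,7,10] [0,1,2,3,4,5,8,9,6,7,10]) (.deg 6)) (.deg 7)) (.deg 10))) (.fin (.split (.split (.split (.split (.red [0,0,0,0,0,0,0,0,0,0,0,0,0,0,2] [0,1,2,3,4] [5]) (.deg 6)) (.deg 7)) (.split (.split (.red [0,0,0,0,0,0,0,0,0,0,0,0,0,0,2] [0,1,2,4] [3,5]) (.deg 6)) (.deg 7))) (.split (.split (.split (.red [0,0,0,0,0,0,2,0,0,0,0,0,0,0,0] [0,1,2,3] [4,5]) (.deg 6)) (.deg 7)) (.split (.split (.clo 0 1 (.pet [[0],[1,6],[3],[4],[2],[5],[10],[8],[9],[7,11]])) (.deg 6)) (.deg 7)))))) (.split (.fin (.split (.split (.split (.split (.red [0,0,0,0,0,0,0,0,0,0,0,0,0,2,0] [0,1,2,3,4] [5]) (.deg 6)) (.deg 7)) (.split (.split (.red [0,0,0,0,0,0,0,0,0,0,0,0,0,2,0] [0,1,3,4] [2,5]) (.deg 6))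 (.deg 7))) (.split (.split (.split (.red [0,0,0,0,0,0,0,2,0,0,0,0,0,0,0] [0,1,2,3] [4,5]) (.deg 6)) (.deg 7)) (.split (.split (.clo 0 1 (.pet [[0],[1,6],[3],[4],[2],[5],[11],[8],[9],[7,10]])) (.deg 6)) (.deg 7))))) (.far 8 9))))

theorem ok104 : chkA tbl q104 c104 q104.rt [] [] = true := by decide +kernel

def c105 : CA := .split (.split (.split (.split (.fin (.split (.iso 147 [0,1,2,3,4,5,6,7,10,8,9] [0,1,2,3,4,5,6,7,9,10,8]) (.deg 10))) (.fin (.split (.split (.iso 157 [0,1,2,3,4,5,6,7,8,9,10] [0,1,2,3,4,5,6,7,8,9,10]) (.red [2,1,1,2,2,2,0,0,1,2,2,2,1,2] [0,2,3,4] [1,5])) (.deg 10)))) (.split (.fin (.split (.split (.iso 157 [0,2,1,4,3,5,7,6,9,8,10] [0,2,1,4,3,5,7,6,9,8,10]) (.red [1,2,2,1,2,2,1,2,0,0,2,2,1,2] [0,1,2,3] [4,5])) (.deg 10))) (.far 8 9))) (.split (.split (.fin (.split (.split (.iso 158 [0,1,2,3,4,5,6,7,8,9,10] [0,1,2,3,4,5,6,7,8,9,10])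 (.red [2,1,1,2,2,2,2,1,1,2,0,2,0,2] [0,1,2,4] [3,5])) (.deg 10))) (.fin (.split (.split (.split (.red [2,0,0,0,0,0,0,0,0,0,0,0,0,0,0] [0,1,2,3,4] [5]) (.red [0,2,0,0,0,0,0,0,0,0,0,0,0,0,0] [0,1,2,4] [3,5])) (.split (.red [0,2,0,0,0,0,0,0,0,0,0,0,0,0,0] [0,2,3,4] [1,5]) (.clo 0 1 (.flow [(10,2),(8,4),(6,0)] 1)))) (.deg 10)))) (.split (.fin (.split (.split (.split (.iso 170 [0,2,1,3,4,5,6,7,9,8,10] [0,2,1,3,4,5,6,7,9,8,10]) (.red [0,0,0,0,0,0,0,0,0,0,0,0,0,2,0] [0,1,2,4] [3,5])) (.split (.red [0,0,0,0,0,0,0,0,0,0,0,0,0,0,2] [0,1,2,3] [4,5]) (.clo 0 1 (.pet [[0],[1,8],[3],[4],[2,9],[5],[10],[6],[7],[11]])))) (.deg 10))) (.far 8 9)))) (.split (.split (.split (.fin (.split (.split (.iso 158 [0,2,1,4,3,5,7,6,9,8,10] [0,2,1,4,3,5,7,6,9,8,10]) (.red [1,2,2,1,2,2,1,2,2,1,2,0,0,2] [1,2,3,4] [0,5])) (.deg 10))) (.fin (.split (.split (.split (.iso 170 [0,1,2,4,3,5,7,6,8,9,10]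 [0,1,2,4,3,5,7,6,8,9,10]) (.red [0,0,0,0,0,0,0,0,0,0,0,0,0,2,0] [1,2,3,4] [0,5])) (.split (.red [0,0,0,0,0,0,0,0,0,0,0,0,0,0,2] [0,2,3,4] [1,5]) (.clo 0 1 (.pet [[0],[1,8],[3],[4],[2,9],[5],[11],[6],[7],[10]])))) (.deg 10)))) (.split (.fin (.split (.split (.split (.red [0,2,0,0,0,0,0,0,0,0,0,0,0,0,0] [0,1,2,3,4] [5]) (.red [2,0,0,0,0,0,0,0,0,0,0,0,0,0,0] [1,2,3,4] [0,5])) (.split (.red [2,0,0,0,0,0,0,0,0,0,0,0,0,0,0] [0,1,2,3] [4,5]) (.clo 0 1 (.flow [(10,2),(9,1),(7,3)] 0)))) (.deg 10))) (.far 8 9))) (.far 6 7))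

theorem ok105 : chkA tbl q105 c105 q105.rt [] [] = true := by decide +kernel

def c106 : CA := .split (.split (.split (.split (.fin (.split (.iso 148 [0,1,2,3,4,5,6,7,10,8,9] [0,1,2,3,4,5,6,7,9,10,8]) (.deg 10))) (.fin (.split (.split (.iso 162 [0,1,2,3,4,5,7,6,8,9,10] [0,1,2,3,4,5,7,6,8,9,10]) (.red [2,2,1,1,2,1,2,2,2,2,0,0,2,1,2] [0,2,3,4] [1,5])) (.deg 10)))) (.split (.fin (.split (.split (.iso 162 [0,2,1,4,3,5,6,7,9,8,10] [0,2,1,4,3,5,6,7,9,8,10]) (.red [2,2,1,1,2,1,2,2,2,2,2,1,0,0,2] [0,1,2,3] [4,5])) (.deg 10))) (.pet [[0],[1],[3],[4],[2],[5],[8,10],[6],[7],[9]]))) (.split (.split (.fin (.split (.split (.red [2,2,2,2,2,2,2,2,1,1,2,0,2,2,0] [0,1,2,3,4] [5]) (.red [0,2,0,0,0,0,0,0,0,0,0,0,0,0,0] [0,1,2,4] [3,5])) (.deg 10))) (.fin (.split (.split (.split (.red [2,0,0,0,0,0,0,0,0,0,0,0,0,0,0,0] [0,1,2,3,4] [5]) (.red [0,2,0,0,0,0,0,0,0,0,0,0,0,0,0,0]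 [0,1,2,4] [3,5])) (.split (.red [0,2,0,0,0,0,0,0,0,0,0,0,0,0,0,0] [0,2,3,4] [1,5]) (.clo 0 1 (.pet [[0],[1,8,11],[3],[4],[2],[5],[10],[6],[7],[9]])))) (.deg 10)))) (.far 7 8))) (.split (.split (.split (.fin (.split (.split (.red [2,2,2,2,2,2,1,1,2,2,2,2,2,0,0] [0,1,2,3,4] [5]) (.red [2,0,0,0,0,0,0,0,0,0,0,0,0,0,0] [1,2,3,4] [0,5])) (.deg 10))) (.far 6 9)) (.split (.fin (.split (.split (.split (.red [0,2,0,0,0,0,0,0,0,0,0,0,0,0,0,0] [0,1,2,3,4] [5]) (.red [2,0,0,0,0,0,0,0,0,0,0,0,0,0,0,0] [1,2,3,4] [0,5])) (.split (.red [2,0,0,0,0,0,0,0,0,0,0,0,0,0,0,0] [0,1,2,3] [4,5]) (.clo 0 1 (.pet [[0],[1,8,10],[3],[4],[2],[5],[11],[6],[7],[9]])))) (.deg 10))) (.far 6 9))) (.far 6 7))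

theorem ok106 : chkA tbl q106 c106 q106.rt [] [] = true := by decide +kernel

def c107 : CA := .split (.split (.split (.split (.split (.fin (.split .big (.deg 10))) (.fin (.split (.split .big (.deg 9)) (.deg 10)))) (.split (.fin (.split (.split .big (.deg 8)) (.deg 10))) (.fin (.split (.split (.split .big (.deg 8)) (.deg 9)) (.deg 10))))) (.split (.split (.fin (.split (.split .big (.deg 7)) (.deg 10))) (.fin (.split (.split (.split .big (.deg 7)) (.deg 9)) (.deg 10)))) (.split (.fin (.split (.split (.split .big (.deg 7)) (.deg 8)) (.deg 10))) (.fin (.split (.split (.split (.split .big (.deg 7)) (.deg 8)) (.deg 9)) (.split (.split (.split (.red [0,0,0,2,0,0,0,2,0,1,0,2,1] [0,1,2,3,5] [4]) (.deg 7)) (.deg 8)) (.deg 9))))))) (.split (.split (.split (.fin (.split (.split .big (.deg 6)) (.deg 10))) (.fin (.split (.split (.split .big (.deg 6)) (.deg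 9)) (.deg 10)))) (.split (.fin (.split (.split (.split .big (.deg 6)) (.deg 8)) (.deg 10))) (.fin (.split (.split (.split (.split .big (.deg 6)) (.deg 8)) (.deg 9)) (.split (.split (.split (.red [0,0,2,0,0,0,2,0,1,0,2,0,1] [0,1,2,3,5] [4]) (.deg 6)) (.deg 8)) (.deg 9)))))) (.split (.split (.fin (.split (.split (.split .big (.deg 6)) (.deg 7)) (.deg 10))) (.fin (.split (.split (.split (.split .big (.deg 6)) (.deg 7)) (.deg 9)) (.split (.split (.split (.red [2,1,0,2,0,0,0,2,0,2,2,2,1] [0,1,2,3,5] [4]) (.deg 6)) (.deg 7)) (.deg 9))))) (.split (.fin (.split (.split (.split (.split .big (.deg 6)) (.deg 7)) (.deg 8)) (.split (.split (.split (.red [1,2,2,0,0,0,2,0,2,0,2,1,2] [0,1,2,3,5] [4]) (.deg 6)) (.deg 7)) (.deg 8)))) (.fin (.split (.split (.split (.split (.split .big (.deg 6)) (.deg 7)) (.deg 8)) (.deg 9)) (.split (.split (.split (.split (.red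 [0,0,0,0,0,0,0,0,2,0,0,0,0,0] [0,1,2,3,5] [4]) (.deg 6)) (.deg 7)) (.deg 8)) (.deg 9)))))))) (.split (.split (.split (.split (.fin (.split (.split .big (.deg 5)) (.deg 10))) (.fin (.split (.split (.split .big (.deg 5)) (.deg 9)) (.deg 10)))) (.split (.fin (.split (.split (.split .big (.deg 5)) (.deg 8)) (.deg 10))) (.fin (.split (.split (.split (.split .big (.deg 5)) (.deg 8)) (.deg 9)) (.split (.split (.split (.red [2,0,1,0,2,0,0,0,2,2,2,2,1] [0,1,2,3,5] [4]) (.deg 5)) (.deg 8)) (.deg 9)))))) (.split (.split (.fin (.split (.split (.split .big (.deg 5)) (.deg 7)) (.deg 10))) (.fin (.split (.split (.split (.split .big (.deg 5)) (.deg 7)) (.deg 9)) (.split (.split (.split (.red [0,2,0,0,0,2,0,1,0,0,2,0,1] [0,1,2,3,5] [4]) (.deg 5)) (.deg 7)) (.deg 9))))) (.split (.fin (.split (.split (.split (.split .big (.deg 5)) (.deg 7)) (.deg 8)) (.split (.split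 (.split (.red [1,2,2,0,0,2,0,2,0,0,1,2,2] [0,1,2,3,5] [4]) (.deg 5)) (.deg 7)) (.deg 8)))) (.fin (.split (.split (.split (.split (.split .big (.deg 5)) (.deg 7)) (.deg 8)) (.deg 9)) (.split (.split (.split (.split (.red [0,0,0,0,0,0,0,2,0,0,0,0,0,0] [0,1,2,3,5] [4]) (.deg 5)) (.deg 7)) (.deg 8)) (.deg 9))))))) (.split (.split (.split (.fin (.split (.split (.split .big (.deg 5)) (.deg 6)) (.deg 10))) (.fin (.split (.split (.split (.split .big (.deg 5)) (.deg 6)) (.deg 9)) (.split (.split (.split (.red [2,1,0,2,0,2,2,0,0,0,1,2,2] [0,1,2,3,5] [4]) (.deg 5)) (.deg 6)) (.deg 9))))) (.split (.fin (.split (.split (.split (.split .big (.deg 5)) (.deg 6)) (.deg 8)) (.split (.split (.split (.red [2,0,0,0,0,2,1,0,0,0,2,0,1] [0,1,2,3,5] [4]) (.deg 5)) (.deg 6)) (.deg 8)))) (.fin (.split (.split (.split (.split (.split .big (.deg 5)) (.deg 6)) (.deg 8)) (.deg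 9)) (.split (.split (.split (.split (.red [0,0,0,0,0,0,2,0,0,0,0,0,0,0] [0,1,2,3,5] [4]) (.deg 5)) (.deg 6)) (.deg 8)) (.deg 9)))))) (.split (.split (.fin (.split (.split (.split (.split .big (.deg 5)) (.deg 6)) (.deg 7)) (.split (.split (.split (.red [2,0,0,0,0,1,2,0,0,0,2,1,0] [0,1,2,3,5] [4]) (.deg 5)) (.deg 6)) (.deg 7)))) (.fin (.split (.split (.split (.split (.split .big (.deg 5)) (.deg 6)) (.deg 7)) (.deg 9)) (.split (.split (.split (.split (.red [0,0,0,0,0,2,0,0,0,0,0,0,0,0] [0,1,2,3,5] [4]) (.deg 5)) (.deg 6)) (.deg 7)) (.deg 9))))) (.split (.fin (.split (.split (.split (.split (.split .big (.deg 5)) (.deg 6)) (.deg 7)) (.deg 8)) (.split (.split (.split (.split (.red [0,0,0,0,0,2,0,0,0,0,0,0,0,0] [0,1,2,3,5] [4]) (.deg 5)) (.deg 6)) (.deg 7)) (.deg 8)))) (.fin (.split (.split (.split (.split (.split (.split .big (.deg 5)) (.deg 6)) (.deg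 7)) (.deg 8)) (.deg 9)) (.split (.split (.split (.split (.split (.red [2,0,0,0,0,0,0,0,0,0,0,0,0,0,0] [0,1,2,3,5] [4]) (.deg 5)) (.deg 6)) (.deg 7)) (.deg 8)) (.deg 9))))))))

theorem ok107 : chkA tbl q107 c107 q107.rt [] [] = true := by decide +kernel

def c108 : CA := .split (.split (.split (.split (.split (.fin (.split .big (.deg 10))) (.fin (.split (.split .big (.red [1,2,2,2,1,2,2,1,2,2,2,1,0] [0,1,2,4,5] [3])) (.deg 10)))) (.split (.fin (.split (.split .big (.red [2,1,2,2,1,2,1,2,2,1,2,2,0] [0,1,3,4,5] [2])) (.deg 10))) (.fin (.split (.split (.split .big (.red [2,1,2,2,1,2,1,2,2,1,2,2,0,0] [0,1,3,4,5] [2])) (.split (.red [1,2,2,2,1,2,2,1,2,2,2,1,0,0] [0,1,2,4,5] [3]) (.red [1,2,2,2,1,2,2,1,2,2,2,1,0,0] [0,1,4,5] [2,3]))) (.deg 10))))) (.split (.split (.fin (.split (.split .big (.iso 167 [2,0,4,3,1,7,5,8,10,9,6] [1,4,0,3,2,6,10,5,7,9,8]))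 (.deg 10))) (.fin (.split (.split (.split .big (.red [0,2,0,0,0,0,0,0,0,0,0,0,0,0] [0,2,3,4,5] [1])) (.split (.red [0,0,0,0,2,0,0,0,0,0,0,0,0,0] [0,1,2,4,5] [3]) (.red [0,0,0,2,0,0,0,0,0,0,0,0,0,0] [0,2,4,5] [1,3]))) (.deg 10)))) (.far 7 8))) (.split (.split (.split (.fin (.split (.split .big (.iso 167 [1,0,3,4,2,6,5,9,10,8,7] [1,0,4,2,3,6,5,10,9,7,8])) (.deg 10))) (.far 6 9)) (.split (.fin (.split (.split (.split .big (.red [2,0,0,0,0,0,0,0,0,0,0,0,0,0] [1,2,3,4,5] [0])) (.split (.red [0,0,0,0,2,0,0,0,0,0,0,0,0,0] [0,1,3,4,5] [2]) (.red [0,0,2,0,0,0,0,0,0,0,0,0,0,0] [1,3,4,5] [0,2]))) (.deg 10))) (.far 6 9))) (.split (.split (.fin (.split (.split (.split .big (.red [0,0,0,0,0,0,0,0,0,0,0,0,2,0] [1,2,3,4,5] [0])) (.split (.red [0,0,0,0,0,0,0,0,0,0,0,0,0,2] [0,2,3,4,5] [1]) (.red [0,0,0,0,0,0,0,0,0,0,0,0,0,2] [2,3,4,5] [0,1]))) (.deg 10))) (.far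 6 9)) (.far 7 8)))) (.split (.split (.split (.split (.fin (.split (.split .big (.deg 5)) (.deg 10))) (.fin (.split (.split (.split .big (.deg 5)) (.split (.red [0,0,0,0,0,0,0,0,0,0,0,0,0,2] [0,1,2,4,5] [3]) (.deg 5))) (.deg 10)))) (.split (.fin (.split (.split (.split .big (.deg 5)) (.split (.red [0,0,0,0,0,0,0,0,0,0,0,0,0,2] [0,1,3,4,5] [2]) (.deg 5))) (.deg 10))) (.fin (.split (.split (.split (.split .big (.deg 5)) (.split (.red [0,0,0,0,0,0,0,0,0,0,0,0,0,0,2] [0,1,3,4,5] [2]) (.deg 5))) (.split (.split (.red [0,0,0,0,0,0,0,0,0,0,0,0,0,0,2] [0,1,2,4,5] [3]) (.deg 5)) (.split (.red [0,0,0,0,0,0,0,0,0,0,0,0,0,0,2] [0,1,4,5] [2,3]) (.deg 5)))) (.split (.split (.split (.red [0,0,0,0,0,2,0,0,0,0,0,0,0,0,0] [0,1,2,3,5] [4]) (.deg 5)) (.split (.red [0,0,0,0,0,2,0,0,0,0,0,0,0,0,0] [0,1,3,5] [2,4]) (.deg 5))) (.split (.split (.red [0,0,0,0,0,2,0,0,0,0,0,0,0,0,0]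 [0,1,2,5] [3,4]) (.deg 5)) (.split (.clo 0 1 (.pet [[0],[1,3],[6],[9],[2,4],[5],[8],[11],[10],[7]])) (.deg 5)))))))) (.split (.split (.fin (.split (.split (.split .big (.deg 5)) (.split (.red [2,2,1,1,2,0,0,0,2,0,2,0,0,0] [0,2,3,4,5] [1]) (.deg 5))) (.deg 10))) (.fin (.split (.split (.split (.split .big (.deg 5)) (.split (.red [0,2,0,0,0,0,0,0,0,0,0,0,0,0,0] [0,2,3,4,5] [1]) (.deg 5))) (.split (.split (.red [0,0,0,0,2,0,0,0,0,0,0,0,0,0,0] [0,1,2,4,5] [3]) (.deg 5)) (.split (.red [0,0,0,2,0,0,0,0,0,0,0,0,0,0,0] [0,2,4,5] [1,3]) (.deg 5)))) (.split (.split (.split (.red [0,2,0,0,0,0,0,0,0,0,0,0,0,0,0] [0,1,2,3,5] [4]) (.deg 5)) (.split (.red [0,2,0,0,0,0,0,0,0,0,0,0,0,0,0] [0,2,3,5] [1,4]) (.deg 5))) (.split (.split (.red [0,0,0,2,0,0,0,0,0,0,0,0,0,0,0] [0,1,2,5] [3,4]) (.deg 5)) (.split (.clo 0 1 (.flow [(5,5),(8,2),(6,0)] 1)) (.deg 5))))))) (.far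 7 8))) (.split (.split (.split (.fin (.split (.split (.split .big (.deg 5)) (.split (.red [2,2,1,1,2,0,0,0,2,0,2,0,0,0] [1,2,3,4,5] [0]) (.deg 5))) (.deg 10))) (.far 6 9)) (.split (.fin (.split (.split (.split (.split .big (.deg 5)) (.split (.red [2,0,0,0,0,0,0,0,0,0,0,0,0,0,0] [1,2,3,4,5] [0]) (.deg 5))) (.split (.split (.red [0,0,0,0,2,0,0,0,0,0,0,0,0,0,0] [0,1,3,4,5] [2]) (.deg 5)) (.split (.red [0,0,2,0,0,0,0,0,0,0,0,0,0,0,0] [1,3,4,5] [0,2]) (.deg 5)))) (.split (.split (.split (.red [2,0,0,0,0,0,0,0,0,0,0,0,0,0,0] [0,1,2,3,5] [4]) (.deg 5)) (.split (.red [2,0,0,0,0,0,0,0,0,0,0,0,0,0,0] [1,2,3,5] [0,4]) (.deg 5))) (.split (.split (.red [0,0,2,0,0,0,0,0,0,0,0,0,0,0,0] [0,1,3,5] [2,4]) (.deg 5)) (.split (.clo 0 1 (.flow [(5,5),(9,3),(7,1)] 0)) (.deg 5)))))) (.far 6 9))) (.split (.split (.fin (.split (.split (.split (.split .big (.deg 5)) (.split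 (.red [0,0,2,0,0,0,0,0,0,0,0,0,0,0,0] [1,2,3,4,5] [0]) (.deg 5))) (.split (.split (.red [0,0,0,2,0,0,0,0,0,0,0,0,0,0,0] [0,2,3,4,5] [1]) (.deg 5)) (.split (.red [2,0,0,0,0,0,0,0,0,0,0,0,0,0,0] [2,3,4,5] [0,1]) (.deg 5)))) (.split (.split (.split (.red [2,0,0,0,0,0,0,0,0,0,0,0,0,0,0] [0,1,2,3,5] [4]) (.deg 5)) (.split (.red [2,0,0,0,0,0,0,0,0,0,0,0,0,0,0] [1,2,3,5] [0,4]) (.deg 5))) (.split (.split (.red [0,2,0,0,0,0,0,0,0,0,0,0,0,0,0] [0,2,3,5] [1,4]) (.deg 5)) (.split (.clo 0 1 (.pet [[0],[1,3],[6],[9],[2,4],[5],[8],[10],[11],[7]])) (.deg 5)))))) (.far 6 9)) (.far 7 8))))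

theorem ok108 : chkA tbl q108 c108 q108.rt [] [] = true := by decide +kernel

def c109 : CA := .split (.split (.split (.split (.split (.fin (.split .big (.deg 10))) (.fin (.split (.split .big (.red [0,0,0,2,0,0,0,0,0,0,0,0,0,0] [0,2,3,4,5] [1])) (.deg 10)))) (.split (.fin (.split (.split .big (.red [2,2,1,1,2,0,2,0,1,2,2,2,1,2] [1,2,3,4,5] [0])) (.deg 10))) (.far 8 9))) (.split (.split (.fin (.split (.split .big (.red [2,1,2,2,1,2,0,0,2,1,2,1,2,2] [0,1,2,4,5] [3])) (.deg 10))) (.far 7 9)) (.far 7 8))) (.split (.split (.split (.fin (.split (.split .big (.red [2,1,2,2,1,2,2,1,0,1,2,0,2,2] [0,1,3,4,5] [2])) (.deg 10))) (.fin (.split (.split (.split .big (.red [0,0,2,0,0,0,0,0,0,0,0,0,0,0,0] [0,1,3,4,5] [2])) (.split (.red [0,0,0,2,0,0,0,0,0,0,0,0,0,0,0] [0,2,3,4,5] [1]) (.red [0,0,0,0,2,0,0,0,0,0,0,0,0,0,0] [0,3,4,5] [1,2]))) (.deg 10)))) (.split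 (.fin (.split (.split (.split .big (.red [0,0,0,0,2,0,0,0,0,0,0,0,0,0,0] [0,1,3,4,5] [2])) (.split (.red [2,0,0,0,0,0,0,0,0,0,0,0,0,0,0] [1,2,3,4,5] [0]) (.red [0,0,2,0,0,0,0,0,0,0,0,0,0,0,0] [1,3,4,5] [0,2]))) (.deg 10))) (.far 8 9))) (.split (.split (.fin (.split (.split (.split .big (.red [0,0,0,0,0,0,0,0,0,0,0,0,0,2,0] [0,1,3,4,5] [2])) (.split (.red [0,0,0,0,0,0,0,0,0,0,0,0,0,0,2] [0,1,2,4,5] [3]) (.red [0,0,0,0,0,0,0,0,0,0,0,0,0,0,2] [0,1,4,5] [2,3]))) (.deg 10))) (.far 7 9)) (.far 7 8)))) (.split (.split (.split (.split (.fin (.split (.split .big (.red [2,2,1,1,2,2,2,1,1,0,2,2,0,2] [0,1,2,3,4] [5])) (.deg 10))) (.fin (.split (.split (.split .big (.red [0,2,0,0,0,0,0,0,0,0,0,0,0,0,0] [0,1,2,3,4] [5])) (.split (.red [0,0,0,0,2,0,0,0,0,0,0,0,0,0,0] [0,2,3,4,5] [1]) (.red [0,0,0,2,0,0,0,0,0,0,0,0,0,0,0] [0,2,3,4] [1,5]))) (.deg 10)))) (.split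 (.fin (.split (.split (.split .big (.red [0,0,0,0,0,0,0,0,0,0,0,0,0,2,0] [0,1,2,3,4] [5])) (.split (.red [0,0,0,0,0,0,0,0,0,0,0,0,0,0,2] [1,2,3,4,5] [0]) (.red [0,0,0,0,0,0,0,0,0,0,0,0,0,0,2] [1,2,3,4] [0,5]))) (.deg 10))) (.far 8 9))) (.split (.split (.fin (.split (.split (.split .big (.red [0,0,0,2,0,0,0,0,0,0,0,0,0,0,0] [0,1,2,3,4] [5])) (.split (.red [2,0,0,0,0,0,0,0,0,0,0,0,0,0,0] [0,1,2,4,5] [3]) (.red [0,2,0,0,0,0,0,0,0,0,0,0,0,0,0] [0,1,2,4] [3,5]))) (.deg 10))) (.far 7 9)) (.far 7 8))) (.far 5 6))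

theorem ok109 : chkA tbl q109 c109 q109.rt [] [] = true := by decide +kernel

end Pool.Agent.TH395.P5
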