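import Pool.Agent.H79.LF.TH395_P5_Tab

set_option autoImplicit false
set_option maxRecDepth 100000

/-! # Certificates, part 10 -/

namespace Pool.Agent.TH395.P5

def c161 : CA := .split (.split (.split (.split (.split (.fin (.split .big (.deg 11))) (.fin (.split (.split .big (.deg 10)) (.deg 11)))) (.split (.fin (.split (.split .big (.red [2,2,2,2,2,2,2,2,2,2,2,0,1,1,2,0] [0,2,3,4,5] [1])) (.deg 11))) (.far 9 10))) (.split (.split (.fin (.split (.split .big (.red [2,0,0,0,0,0,0,0,0,0,0,0,0,0,0,0] [0,1,2,3,5] [4])) (.deg 11))) (.far 8 10)) (.far 8 9))) (.split (.split (.split (.fin (.split (.split .big (.red [0,2,0,0,0,0,0,0,0,0,0,0,0,0,0,0] [0,1,2,4,5] [3])) (.deg 11))) (.fin (.split (.split (.split .big (.red [0,2,0,0,0,0,0,0,0,0,0,0,0,0,0,0,0] [0,1,2,4,5] [3])) (.deg 10)) (.deg 11)))) (.far 7 9)) (.far 7 8))) (.split (.split (.split (.split (.fin (.split (.split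 .big (.red [2,2,2,2,2,2,2,2,1,1,1,2,0,0,0,2] [1,2,3,4,5] [0])) (.deg 11))) (.pet [[0],[1],[3],[4],[2],[5],[8],[6,11],[7],[9,10]])) (.split (.pet [[0],[1],[3],[4],[2],[5],[8],[6,11],[7],[9]]) (.far 9 10))) (.split (.split (.fin (.split (.split (.split .big (.red [0,0,2,0,0,0,0,0,0,0,0,0,0,0,0,0,0] [1,2,3,4,5] [0])) (.split (.red [2,0,0,0,0,0,0,0,0,0,0,0,0,0,0,0,0] [0,1,2,3,5] [4]) (.sep [0,1,2,3,4,5,6,8] [7,9,11] 0 1 10))) (.deg 11))) (.far 8 10)) (.far 8 9))) (.far 6 7))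

theorem ok161 : chkA tbl q161 c161 q161.rt [] [] = true := by decide +kernel

def c162 : CA := .split (.split (.split (.split (.split (.fin (.split .big (.deg 11))) (.fin (.split (.split .big (.deg 10)) (.deg 11)))) (.split (.fin (.split (.split .big (.red [2,2,2,2,2,2,2,2,2,2,2,0,1,1,2,0] [0,2,3,4,5] [1])) (.deg 11))) (.far 9 10))) (.split (.split (.fin (.split (.split .big (.red [2,2,1,1,2,1,2,2,2,2,2,1,0,0,0,2] [0,1,2,4,5] [3])) (.deg 11))) (.pet [[0],[1],[3],[4],[2],[5],[8,11],[7],[6],[9,10]])) (.split (.pet [[0],[1],[3],[4],[2],[5],[8,11],[7],[6],[9]]) (.far 9 10)))) (.split (.split (.split (.fin (.split (.split .big (.red [2,0,0,0,0,0,0,0,0,0,0,0,0,0,0,0] [0,1,2,3,5] [4])) (.deg 11))) (.far 7 10)) (.far 7 9)) (.split (.split (.fin (.split (.split (.split .big (.red [2,0,0,0,0,0,0,0,0,0,0,0,0,0,0,0,0] [0,1,2,3,5] [4])) (.split (.red [2,0,0,0,0,0,0,0,0,0,0,0,0,0,0,0,0]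 [0,1,2,4,5] [3]) (.sep [0,1,2,3,4,5,7,8] [6,9,11] 0 1 10))) (.deg 11))) (.far 7 10)) (.far 7 9)))) (.split (.split (.split (.split (.fin (.split (.split .big (.red [0,2,0,0,0,0,0,0,0,0,0,0,0,0,0,0] [1,2,3,4,5] [0])) (.deg 11))) (.fin (.split (.split (.split .big (.red [0,2,0,0,0,0,0,0,0,0,0,0,0,0,0,0,0] [1,2,3,4,5] [0])) (.deg 10)) (.deg 11)))) (.split (.fin (.split (.split (.split .big (.red [0,2,0,0,0,0,0,0,0,0,0,0,0,0,0,0,0] [1,2,3,4,5] [0])) (.split (.red [0,2,0,0,0,0,0,0,0,0,0,0,0,0,0,0,0] [0,2,3,4,5] [1]) (.red [0,2,0,0,0,0,0,0,0,0,0,0,0,0,0,0,0] [2,3,4,5] [0,1]))) (.deg 11))) (.far 9 10))) (.far 6 8)) (.far 6 7))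

theorem ok162 : chkA tbl q162 c162 q162.rt [] [] = true := by decide +kernel

def c163 : CA := .split (.split (.split (.split (.split (.fin (.split .big (.deg 11))) (.fin (.split (.split .big (.deg 10)) (.deg 11)))) (.split (.fin (.split (.split .big (.red [2,2,2,2,2,2,0,2,2,1,1,0,2,0,0] [0,1,2,4,5] [3])) (.deg 11))) (.far 8 10))) (.split (.split (.fin (.split (.split .big (.red [2,1,2,2,1,2,0,1,2,2,1,0,0,0,2] [1,2,3,4,5] [0])) (.deg 11))) (.fin (.split (.split (.split .big (.red [2,2,2,2,2,2,1,2,2,2,2,2,1,2,0,0] [1,2,3,4,5] [0])) (.deg 10)) (.deg 11)))) (.far 7 8))) (.split (.split (.split (.fin (.split (.split .big (.iso 178 [0,6,1,2,3,4,5,7,8,9,11,10] [0,2,3,4,5,6,1,7,8,9,11,10])) (.deg 11))) (.far 6 10)) (.far 6 8)) (.split (.split (.fin (.split (.split (.split .big (.red [2,1,2,0,0,2,2,1,0,0,0,0,0,0,2,1] [0,2,3,4,5] [1])) (.split (.red [0,0,0,0,0,0,0,0,0,0,0,0,0,0,0,2]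 [1,2,3,4,5] [0]) (.red [0,0,0,0,0,0,0,0,0,0,0,0,0,0,0,2] [2,3,4,5] [0,1]))) (.deg 11))) (.far 6 10)) (.far 7 8)))) (.split (.split (.split (.split (.fin (.split (.split .big (.iso 184 [1,5,0,3,2,4,11,7,6,8,9,10] [2,0,4,3,5,1,8,7,9,10,11,6])) (.deg 11))) (.fin (.split (.split (.split .big (.iso 197 [1,0,5,3,2,4,7,6,8,9,11,10] [1,0,4,3,5,2,7,6,8,9,11,10])) (.deg 10)) (.deg 11)))) (.split (.fin (.split (.split (.split .big (.red [2,2,2,2,2,2,0,2,2,1,1,0,0,0,0,2] [0,1,2,3,4] [5])) (.split (.red [2,2,2,2,2,2,0,2,2,1,1,0,2,0,0,0] [0,1,2,4,5] [3]) (.red [0,0,0,0,0,0,0,0,0,2,0,0,0,0,0,0] [0,1,2,4] [3,5]))) (.deg 11))) (.far 8 10))) (.far 5 7)) (.split (.split (.split (.fin (.split (.split (.split .big (.red [2,0,0,0,0,0,0,0,0,0,0,0,0,0,0,0] [0,1,2,3,4] [5])) (.split (.red [0,2,0,0,0,0,0,0,0,0,0,0,0,0,0,0] [0,2,3,4,5] [1]) (.red [2,0,0,0,0,0,0,0,0,0,0,0,0,0,0,0] [0,2,3,4]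 [1,5]))) (.deg 11))) (.far 6 10)) (.far 6 8)) (.far 5 7)))

theorem ok163 : chkA tbl q163 c163 q163.rt [] [] = true := by decide +kernel

def c164 : CA := .split (.split (.split (.split (.split (.fin (.split .big (.deg 11))) (.fin (.split (.split .big (.deg 10)) (.deg 11)))) (.split (.fin (.split (.split .big (.red [2,0,0,0,0,0,0,0,0,0,0,0,0,0,0,0] [1,2,3,4,5] [0])) (.deg 11))) (.fin (.split (.split (.split .big (.red [2,0,0,0,0,0,0,0,0,0,0,0,0,0,0,0,0] [1,2,3,4,5] [0])) (.deg 10)) (.deg 11))))) (.split (.split (.fin (.split (.split .big (.red [2,2,2,2,2,2,1,0,2,2,2,2,0,1,2,0] [0,1,3,4,5] [2])) (.deg 11))) (.far 7 10)) (.far 7 8))) (.split (.split (.split (.fin (.split (.split .big (.red [2,2,2,2,2,2,1,1,2,2,2,2,2,0,0,0] [0,2,3,4,5] [1])) (.deg 11))) (.far 6 10)) (.far 6 8)) (.far 6 7))) (.split (.split (.split (.split (.fin (.split (.split .big (.iso 196 [1,5,0,2,3,4,11,6,8,9,7,10]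 [2,0,3,4,5,1,7,10,8,9,11,6])) (.deg 11))) (.pet [[0],[1],[4],[6],[2],[7],[5,11],[8],[9,10],[3]])) (.far 5 8)) (.split (.split (.fin (.split (.split (.split .big (.red [2,0,0,0,0,0,0,0,0,0,0,0,0,0,0,0,0] [0,1,2,3,4] [5])) (.split (.red [0,2,0,0,0,0,0,0,0,0,0,0,0,0,0,0,0] [0,1,3,4,5] [2]) (.red [2,0,0,0,0,0,0,0,0,0,0,0,0,0,0,0,0] [0,1,3,4] [2,5]))) (.deg 11))) (.far 7 10)) (.far 7 8))) (.split (.split (.split (.fin (.split (.split (.split .big (.red [2,0,0,0,0,0,0,0,0,0,0,0,0,0,0,0,0] [0,1,2,3,4] [5])) (.split (.red [0,0,0,0,0,0,2,0,0,0,0,0,0,0,0,0,0] [0,2,3,4,5] [1]) (.red [0,0,0,0,0,0,2,0,0,0,0,0,0,0,0,0,0] [0,2,3,4] [1,5]))) (.deg 11))) (.far 6 10)) (.far 6 8)) (.far 6 7)))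

theorem ok164 : chkA tbl q164 c164 q164.rt [] [] = true := by decide +kernel

def c165 : CA := .split (.split (.split (.split (.split (.fin (.split .big (.deg 11))) (.fin (.split (.split .big (.red [2,2,1,1,2,1,2,2,2,2,2,2,1,0] [0,1,2,3,4] [5])) (.deg 11)))) (.split (.fin (.split (.split .big (.deg 9)) (.deg 11))) (.fin (.split (.split (.split .big (.deg 9)) (.split (.red [2,2,1,1,2,1,2,2,2,2,2,2,1,0,0] [0,1,2,3,4] [5]) (.deg 9))) (.deg 11))))) (.split (.split (.fin (.split (.split .big (.red [2,0,0,0,0,0,0,0,0,0,0,0,0,0] [0,1,2,4,5] [3])) (.deg 11))) (.far 8 10)) (.split (.fin (.split (.split (.split .big (.red [2,0,0,0,0,0,0,0,0,0,0,0,0,0,0] [0,1,2,4,5] [3])) (.deg 9)) (.deg 11))) (.far 8 10)))) (.split (.split (.split (.fin (.split (.split .big (.red [2,2,2,2,2,2,2,2,2,1,1,1,2,0] [0,2,3,4,5] [1])) (.deg 11))) (.fin (.split (.split (.split .big (.red [2,2,2,2,2,2,2,2,2,1,1,1,2,0,0]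 [0,2,3,4,5] [1])) (.split (.red [2,2,1,1,2,1,2,2,2,2,2,2,1,0,0] [0,1,2,3,4] [5]) (.sep [0,2,3,4,5,7,10] [1,8,11] 0 2 6))) (.deg 11)))) (.split (.fin (.split (.split (.split .big (.red [2,2,2,2,2,2,2,2,2,1,1,1,2,0,0] [0,2,3,4,5] [1])) (.deg 9)) (.deg 11))) (.fin (.split (.split (.split (.split .big (.red [2,2,2,2,2,2,2,2,2,1,1,1,2,0,0,0] [0,2,3,4,5] [1])) (.deg 9)) (.split (.split (.red [2,2,1,1,2,1,2,2,2,2,2,2,1,0,0,0] [0,1,2,3,4] [5]) (.sep [0,2,3,4,5,7,10] [1,8,11] 0 2 6)) (.deg 9))) (.split (.split (.split (.iso 196 [0,1,2,3,4,5,6,7,8,11,10,9] [0,1,2,3,4,5,6,7,8,11,10,9]) (.red [2,2,2,2,2,2,2,2,2,1,1,1,2,0,0,0] [0,3,4,5] [1,2])) (.deg 9)) (.split (.split (.red [2,2,1,1,2,1,0,2,2,2,2,2,1,2,0,0] [0,1,3,4] [2,5]) (.clo 0 1 (.deg 9))) (.deg 9))))))) (.far 7 8))) (.split (.split (.split (.split (.fin (.split (.split .big (.deg 6)) (.deg 11))) (.fin (.split (.split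 (.split .big (.deg 6)) (.split (.red [0,0,0,0,0,0,0,0,0,0,0,0,0,0,2] [0,1,2,3,4] [5]) (.deg 6))) (.deg 11)))) (.split (.fin (.split (.split (.split .big (.deg 6)) (.deg 9)) (.deg 11))) (.fin (.split (.split (.split (.split .big (.deg 6)) (.deg 9)) (.split (.split (.red [0,0,0,0,0,0,0,0,0,0,0,0,0,0,0,2] [0,1,2,3,4] [5]) (.deg 6)) (.deg 9))) (.split (.split (.split (.iso 198 [0,1,2,3,4,5,7,6,8,11,10,9] [0,1,2,3,4,5,7,6,8,11,10,9]) (.deg 6)) (.deg 9)) (.split (.split (.red [0,0,0,0,0,0,0,0,0,0,0,0,0,0,0,2] [0,1,3,4] [2,5]) (.deg 6)) (.deg 9))))))) (.split (.split (.fin (.split (.split (.split .big (.deg 6)) (.split (.red [2,0,0,0,0,0,0,0,0,0,0,0,0,0,0] [0,1,2,4,5] [3]) (.deg 6))) (.deg 11))) (.far 8 10)) (.split (.fin (.split (.split (.split (.split .big (.deg 6)) (.split (.red [2,0,0,0,0,0,0,0,0,0,0,0,0,0,0,0] [0,1,2,4,5] [3]) (.deg 6))) (.deg 9)) (.split (.split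 (.split (.red [2,2,2,2,2,2,0,2,2,1,1,2,0,0,0,0] [0,1,3,4,5] [2]) (.deg 6)) (.split (.red [0,0,0,0,0,0,0,0,0,2,0,0,0,0,0,0] [0,1,4,5] [2,3]) (.deg 6))) (.deg 9)))) (.far 8 10)))) (.split (.split (.split (.fin (.split (.split (.split .big (.deg 6)) (.split (.red [0,0,0,0,0,0,0,0,0,0,0,0,0,0,2] [0,2,3,4,5] [1]) (.deg 6))) (.deg 11))) (.pet [[0],[1,6],[4],[3],[2],[5],[11],[8],[7],[10]])) (.split (.fin (.split (.split (.split (.split .big (.deg 6)) (.split (.red [0,0,0,0,0,0,0,0,0,0,0,0,0,0,0,2] [0,2,3,4,5] [1]) (.deg 6))) (.deg 9)) (.split (.split (.split (.iso 199 [0,1,2,3,4,5,6,7,8,11,9,10] [0,1,2,3,4,5,6,7,8,10,11,9]) (.deg 6)) (.split (.red [0,0,0,0,0,0,0,0,0,0,0,0,0,0,0,2] [0,3,4,5] [1,2]) (.deg 6))) (.deg 9)))) (.pet [[0],[1,6],[4],[3],[2],[5],[11],[8],[7],[10]]))) (.far 7 8)))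

theorem ok165 : chkA tbl q165 c165 q165.rt [] [] = true := by decide +kernel

def c166 : CA := .split (.split (.split (.split (.split (.fin (.split .big (.deg 11))) (.fin (.split (.split .big (.red [0,2,0,0,0,0,0,0,0,0,0,0,0,0,0] [0,2,3,4,5] [1])) (.deg 11)))) (.split (.fin (.split (.split .big (.red [2,2,2,2,2,2,2,2,1,0,2,1,2,1,0] [0,1,2,3,4] [5])) (.deg 11))) (.far 9 10))) (.split (.split (.fin (.split (.split .big (.deg 8)) (.deg 11))) (.fin (.split (.split (.split .big (.deg 8)) (.split (.red [0,2,0,0,0,0,0,0,0,0,0,0,0,0,0,0] [0,2,3,4,5] [1]) (.deg 8))) (.deg 11)))) (.split (.fin (.split (.split (.split .big (.deg 8)) (.split (.red [2,2,2,2,2,2,2,2,1,1,2,1,2,0,0,0] [0,1,2,3,4] [5]) (.deg 8))) (.deg 11))) (.far 9 10)))) (.split (.split (.split (.fin (.split (.split .big (.red [2,0,0,0,0,0,0,0,0,0,0,0,0,0,0] [0,1,2,4,5] [3])) (.deg 11))) (.far 7 10)) (.far 7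 9)) (.split (.split (.fin (.split (.split (.split .big (.red [2,0,0,0,0,0,0,0,0,0,0,0,0,0,0,0] [0,1,2,4,5] [3])) (.deg 8)) (.deg 11))) (.far 7 10)) (.far 7 9)))) (.split (.split (.split (.split (.fin (.split (.split .big (.red [2,2,2,2,2,2,2,2,1,1,0,1,2,0,2] [1,2,3,4,5] [0])) (.deg 11))) (.fin (.split (.split (.split .big (.red [0,2,0,0,0,0,0,0,0,0,0,0,0,0,0,0] [1,2,3,4,5] [0])) (.split (.red [0,2,0,0,0,0,0,0,0,0,0,0,0,0,0,0] [0,2,3,4,5] [1]) (.sep [0,1,2,3,4,5,6,10] [7,9,11] 0 1 8))) (.deg 11)))) (.split (.pet [[0],[1],[4],[3],[2],[5],[9],[7],[6,11],[10]]) (.far 9 10))) (.split (.split (.fin (.split (.split (.split .big (.red [2,2,2,2,2,2,2,2,1,1,2,1,2,0,0,0] [1,2,3,4,5] [0])) (.deg 8)) (.deg 11))) (.fin (.split (.split (.split (.split .big (.red [0,2,0,0,0,0,0,0,0,0,0,0,0,0,0,0,0] [1,2,3,4,5] [0])) (.deg 8)) (.split (.split (.red [0,2,0,0,0,0,0,0,0,0,0,0,0,0,0,0,0]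 [0,2,3,4,5] [1]) (.sep [0,1,2,3,4,5,6,10] [7,9,11] 0 1 8)) (.deg 8))) (.split (.split (.split (.red [0,2,0,0,0,0,0,0,0,0,0,0,0,0,0,0,0] [0,1,3,4,5] [2]) (.red [0,0,0,0,0,0,2,0,0,0,0,0,0,0,0,0,0] [1,3,4,5] [0,2])) (.deg 8)) (.split (.split (.red [0,2,0,0,0,0,0,0,0,0,0,0,0,0,0,0,0] [0,3,4,5] [1,2]) (.clo 0 1 (.deg 8))) (.deg 8)))))) (.split (.pet [[0],[1],[4],[3],[2],[5],[9],[7],[6,11],[10]]) (.far 9 10)))) (.far 6 7))

theorem ok166 : chkA tbl q166 c166 q166.rt [] [] = true := by decide +kernel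

def c167 : CA := .split (.split (.split (.split (.split (.fin (.split .big (.deg 11))) (.fin (.split (.split .big (.iso 174 [0,4,1,2,3,5,10,6,9,11,7,8] [0,2,3,4,1,5,7,10,11,8,6,9])) (.deg 11)))) (.split (.fin (.split (.split .big (.red [2,2,1,1,2,1,2,2,0,2,2,2,1,0] [0,1,2,3,4] [5])) (.deg 11))) (.far 9 10))) (.split (.split (.fin (.split (.split .big (.deg 8)) (.deg 11))) (.fin (.split (.split (.split .big (.deg 8)) (.split (.red [0,0,0,0,0,0,0,0,0,2,0,0,0,0,0] [0,1,3,4,5] [2]) (.deg 8))) (.deg 11)))) (.split (.fin (.split (.split (.split .big (.deg 8)) (.split (.red [0,0,0,0,0,0,0,2,0,0,0,0,0,0,0] [0,1,2,3,4] [5]) (.deg 8))) (.deg 11))) (.far 9 10)))) (.split (.split (.split (.fin (.split (.split .big (.red [1,2,1,2,2,2,0,2,1,2,0,1,2,2] [0,2,3,4,5] [1])) (.deg 11))) (.fin (.split (.split (.split .big (.red [0,2,0,0,0,0,0,0,0,0,0,0,0,0,0] [0,2,3,4,5] [1])) (.split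 (.red [2,0,0,0,0,0,0,0,0,0,0,0,0,0,0] [0,1,3,4,5] [2]) (.red [0,0,0,0,2,0,0,0,0,0,0,0,0,0,0] [0,3,4,5] [1,2]))) (.deg 11)))) (.split (.fin (.split (.split (.split .big (.red [1,2,1,2,2,2,2,2,1,2,0,1,2,0,0] [0,2,3,4,5] [1])) (.split (.red [2,2,1,1,2,1,2,2,0,2,2,2,1,0,0] [0,1,2,3,4] [5]) (.red [1,2,1,2,2,2,2,2,1,0,2,1,2,0,0] [0,2,3,4] [1,5]))) (.deg 11))) (.far 9 10))) (.far 7 8))) (.split (.split (.split (.split (.fin (.split (.split .big (.deg 6)) (.deg 11))) (.fin (.split (.split (.split .big (.deg 6)) (.split (.red [2,1,2,2,1,0,0,2,0,0,2,0,0,0,0] [0,1,3,4,5] [2]) (.deg 6))) (.deg 11)))) (.split (.fin (.split (.split (.split .big (.deg 6)) (.split (.red [0,0,0,0,0,0,0,0,0,0,0,0,0,0,2] [0,1,2,3,4] [5]) (.deg 6))) (.deg 11))) (.far 9 10))) (.split (.split (.fin (.split (.split (.split .big (.deg 6)) (.deg 8)) (.deg 11))) (.fin (.split (.split (.split (.split .big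 (.deg 6)) (.deg 8)) (.split (.split (.red [2,0,0,0,0,0,0,0,0,0,0,0,0,0,0,0] [0,1,3,4,5] [2]) (.deg 6)) (.deg 8))) (.split (.split (.split (.red [2,0,0,0,0,0,0,0,0,0,0,0,0,0,0,0] [0,1,2,3,5] [4]) (.deg 6)) (.deg 8)) (.split (.split (.red [0,0,0,2,0,0,0,0,0,0,0,0,0,0,0,0] [0,1,3,5] [2,4]) (.deg 6)) (.deg 8)))))) (.split (.fin (.split (.split (.split (.split .big (.deg 6)) (.deg 8)) (.split (.split (.red [0,2,0,0,0,0,0,0,0,0,0,0,0,0,0,0] [0,1,2,3,4] [5]) (.deg 6)) (.deg 8))) (.split (.split (.split (.red [2,0,0,0,0,0,0,0,0,0,0,0,0,0,0,0] [0,1,2,3,5] [4]) (.deg 6)) (.deg 8)) (.split (.split (.red [0,2,0,0,0,0,0,0,0,0,0,0,0,0,0,0] [0,1,2,3] [4,5]) (.deg 6)) (.deg 8))))) (.far 9 10)))) (.split (.split (.split (.fin (.split (.split (.split .big (.deg 6)) (.split (.red [0,0,0,0,0,0,0,0,0,0,0,0,0,0,2] [0,2,3,4,5] [1]) (.deg 6))) (.deg 11))) (.fin (.split (.split (.split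 (.split .big (.deg 6)) (.split (.red [0,2,0,0,0,0,0,0,0,0,0,0,0,0,0,0] [0,2,3,4,5] [1]) (.deg 6))) (.split (.split (.red [2,0,0,0,0,0,0,0,0,0,0,0,0,0,0,0] [0,1,3,4,5] [2]) (.deg 6)) (.split (.red [0,0,0,0,2,0,0,0,0,0,0,0,0,0,0,0] [0,3,4,5] [1,2]) (.deg 6)))) (.split (.split (.split (.red [2,0,0,0,0,0,0,0,0,0,0,0,0,0,0,0] [0,1,2,3,5] [4]) (.deg 6)) (.split (.red [0,0,0,0,0,0,0,2,0,0,0,0,0,0,0,0] [0,2,3,5] [1,4]) (.deg 6))) (.split (.split (.red [0,0,0,2,0,0,0,0,0,0,0,0,0,0,0,0] [0,1,3,5] [2,4]) (.deg 6)) (.split (.clo 0 1 (.deg 8)) (.deg 6))))))) (.split (.fin (.split (.split (.split (.split .big (.deg 6)) (.split (.red [0,0,0,0,0,0,0,0,0,0,0,0,0,0,0,2] [0,2,3,4,5] [1]) (.deg 6))) (.split (.split (.red [0,0,0,0,0,0,0,0,0,0,0,0,0,0,0,2] [0,1,2,3,4] [5]) (.deg 6)) (.split (.red [0,0,0,0,0,0,0,0,0,0,0,0,0,0,0,2] [0,2,3,4] [1,5]) (.deg 6)))) (.split (.split (.split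 (.red [0,0,0,0,0,0,2,0,0,0,0,0,0,0,0,0] [0,1,2,3,5] [4]) (.deg 6)) (.split (.red [0,0,0,0,0,0,2,0,0,0,0,0,0,0,0,0] [0,2,3,5] [1,4]) (.deg 6))) (.split (.split (.red [0,0,0,0,0,0,2,0,0,0,0,0,0,0,0,0] [0,1,2,3] [4,5]) (.deg 6)) (.split (.clo 0 1 (.deg 8)) (.deg 6)))))) (.far 9 10))) (.far 7 8)))

theorem ok167 : chkA tbl q167 c167 q167.rt [] [] = true := by decide +kernel

def c168 : CA := .split (.split (.split (.split (.split (.fin (.split .big (.deg 11))) (.fin (.split (.split .big (.iso 195 [0,1,2,3,4,5,6,7,9,8,10,11] [0,1,2,3,4,5,6,7,9,8,10,11])) (.deg 11)))) (.split (.fin (.split (.split .big (.iso 193 [0,2,1,3,4,9,5,6,7,8,11,10] [0,2,1,3,4,6,7,8,9,5,11,10])) (.deg 11))) (.far 9 10))) (.split (.split (.fin (.split (.split .big (.red [0,0,0,0,0,0,0,0,0,0,0,0,2,0,0] [0,1,2,4,5] [3])) (.deg 11))) (.far 8 10)) (.far 8 9))) (.split (.split (.split (.fin (.split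 (.split .big (.red [2,2,2,2,2,2,2,2,2,1,1,1,2,2,0] [0,2,3,4,5] [1])) (.deg 11))) (.fin (.split (.split (.split .big (.red [0,0,0,0,0,0,0,0,0,0,0,0,0,2,0,0] [0,2,3,4,5] [1])) (.split (.red [0,0,0,0,0,0,0,0,0,0,0,0,0,2,0,0] [0,1,3,4,5] [2]) (.red [0,0,0,0,0,0,0,0,0,0,0,2,0,0,0,0] [0,3,4,5] [1,2]))) (.deg 11)))) (.split (.fin (.split (.split (.split .big (.red [2,2,2,2,2,2,2,2,2,1,1,1,2,2,0,0] [0,2,3,4,5] [1])) (.split (.red [1,2,0,2,2,0,0,0,0,1,0,2,2,1,0,0] [0,1,2,3,5] [4]) (.red [0,0,0,0,0,0,0,0,0,0,0,0,2,0,0,0] [0,2,3,5] [1,4]))) (.deg 11))) (.far 9 10))) (.far 7 8))) (.split (.split (.split (.split (.fin (.split (.split .big (.deg 6)) (.deg 11))) (.fin (.split (.split (.split .big (.deg 6)) (.split (.iso 185 [0,2,1,3,4,5,7,9,8,10,6,11] [0,2,1,3,4,5,10,6,8,7,9,11]) (.deg 6))) (.deg 11)))) (.split (.fin (.split (.split (.split .big (.deg 6)) (.split (.red [0,0,0,0,0,0,0,0,0,0,0,0,1,0,0,1]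 [0,1,2,3,5] [4]) (.deg 6))) (.deg 11))) (.far 9 10))) (.split (.split (.fin (.split (.split (.split .big (.deg 6)) (.split (.red [0,0,0,0,0,0,0,0,0,0,0,0,2,0,0,0] [0,1,2,4,5] [3]) (.deg 6))) (.deg 11))) (.far 8 10)) (.far 8 9))) (.split (.split (.split (.fin (.split (.split (.split .big (.deg 6)) (.split (.red [0,0,0,0,0,0,0,0,0,0,0,0,0,0,0,2] [0,2,3,4,5] [1]) (.deg 6))) (.deg 11))) (.pet [[0],[1,6],[4],[3],[2,9],[5],[11],[8],[7],[10]])) (.split (.pet [[0],[1,6],[4],[3],[2],[5],[11],[8,10],[7],[9]]) (.far 9 10))) (.far 7 8)))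

theorem ok168 : chkA tbl q168 c168 q168.rt [] [] = true := by decide +kernel

def c169 : CA := .split (.split (.split (.split (.split (.fin (.split .big (.deg 11))) (.fin (.split (.split .big (.deg 10)) (.deg 11)))) (.split (.fin (.split (.split .big (.red [2,2,2,2,2,2,0,2,2,2,2,1,1,2,0] [0,1,2,3,5] [4])) (.deg 11))) (.far 9 10))) (.split (.split (.fin (.split (.split .big (.red [2,0,0,0,0,0,0,0,0,0,0,0,0,0,0] [0,1,2,4,5] [3])) (.deg 11))) (.far 8 10)) (.far 8 9))) (.split (.split (.split (.fin (.split (.split .big (.red [2,2,2,2,2,2,2,2,2,1,1,1,2,0,0] [0,2,3,4,5] [1])) (.deg 11))) (.fin (.split (.split (.split .big (.red [2,2,2,2,2,2,2,2,2,1,1,1,2,0,0,0] [0,2,3,4,5] [1])) (.deg 10)) (.deg 11)))) (.split (.fin (.split (.split (.split .big (.red [2,2,2,2,2,2,0,2,2,2,2,1,1,0,0,2] [0,2,3,4,5] [1])) (.split (.red [2,2,2,2,2,2,0,2,2,2,2,1,1,2,0,0] [0,1,2,3,5] [4])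 (.red [0,2,0,0,0,0,0,0,0,0,0,0,0,0,0,0] [0,2,3,5] [1,4]))) (.deg 11))) (.far 9 10))) (.far 7 8))) (.split (.split (.split (.split (.fin (.split (.split .big (.deg 6)) (.deg 11))) (.fin (.split (.split (.split .big (.deg 6)) (.deg 10)) (.deg 11)))) (.split (.fin (.split (.split (.split .big (.deg 6)) (.split (.red [0,0,0,0,0,0,0,0,0,0,0,0,0,0,2,0] [0,1,2,3,5] [4]) (.deg 6))) (.deg 11))) (.far 9 10))) (.split (.split (.fin (.split (.split (.split .big (.deg 6)) (.split (.red [2,0,0,0,0,0,0,0,0,0,0,0,0,0,0,0] [0,1,2,4,5] [3]) (.deg 6))) (.deg 11))) (.far 8 10)) (.far 8 9))) (.split (.split (.split (.fin (.split (.split (.split .big (.deg 6)) (.split (.red [0,0,0,0,0,0,0,0,0,0,0,0,0,0,0,2] [0,2,3,4,5] [1]) (.deg 6))) (.deg 11))) (.pet [[0],[1,6],[4],[3],[2],[5],[11],[8],[7],[9,10]])) (.split (.pet [[0],[1,6],[4],[3],[2],[5],[11],[8],[7],[9]]) (.far 9 10))) (.far 7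 8)))

theorem ok169 : chkA tbl q169 c169 q169.rt [] [] = true := by decide +kernel

def c170 : CA := .split (.split (.split (.split (.split (.fin (.split .big (.deg 11))) (.fin (.split (.split .big (.iso 187 [0,2,1,3,4,5,6,7,10,9,11,8] [0,2,1,3,4,5,6,7,11,9,8,10])) (.deg 11)))) (.split (.fin (.split (.split .big (.red [0,0,0,0,0,0,0,0,0,0,0,0,0,0,2,0] [0,2,3,4,5] [1])) (.deg 11))) (.far 9 10))) (.split (.split (.fin (.split (.split .big (.red [2,2,2,2,2,2,2,2,1,0,0,1,1,2,2,2] [0,1,2,3,5] [4])) (.deg 11))) (.far 8 10)) (.far 8 9))) (.split (.split (.split (.fin (.split (.split .big (.red [0,0,0,0,0,0,0,0,0,0,0,0,0,2,0,0] [0,1,2,4,5] [3])) (.deg 11))) (.far 7 10)) (.far 7 9)) (.split (.split (.fin (.split (.split (.split .big (.red [2,0,0,0,0,0,0,0,0,0,0,0,0,0,0,0,0] [0,1,2,4,5] [3])) (.split (.red [2,0,0,0,0,0,0,0,0,0,0,0,0,0,0,0,0] [0,1,2,3,5] [4]) (.red [2,0,0,0,0,0,0,0,0,0,0,0,0,0,0,0,0]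 [0,1,2,5] [3,4]))) (.deg 11))) (.far 8 10)) (.far 8 9)))) (.split (.split (.split (.split (.fin (.split (.split .big (.red [2,2,2,2,2,2,2,2,1,1,0,1,0,2,2,2] [1,2,3,4,5] [0])) (.deg 11))) (.fin (.split (.split (.split .big (.red [0,2,0,0,0,0,0,0,0,0,0,0,0,0,0,0,0] [1,2,3,4,5] [0])) (.split (.red [0,2,0,0,0,0,0,0,0,0,0,0,0,0,0,0,0] [0,1,3,4,5] [2]) (.red [0,0,2,0,0,0,0,0,0,0,0,0,0,0,0,0,0] [1,3,4,5] [0,2]))) (.deg 11)))) (.split (.fin (.split (.split (.split .big (.red [0,2,0,0,0,0,0,0,0,0,0,0,0,0,0,0,0] [1,2,3,4,5] [0])) (.split (.red [0,2,0,0,0,0,0,0,0,0,0,0,0,0,0,0,0] [0,2,3,4,5] [1]) (.red [0,2,0,0,0,0,0,0,0,0,0,0,0,0,0,0,0] [2,3,4,5] [0,1]))) (.deg 11))) (.far 9 10))) (.split (.split (.pet [[0],[1],[4],[3],[2],[5],[8],[7,10],[6,11],[9]]) (.far 8 10)) (.far 8 9))) (.far 6 7))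

theorem ok170 : chkA tbl q170 c170 q170.rt [] [] = true := by decide +kernel

def c171 : CA := .split (.split (.split (.split (.split (.fin (.split .big (.deg 11))) (.fin (.split (.split .big (.iso 198 [0,1,2,3,4,5,6,8,7,10,9,11] [0,1,2,3,4,5,6,8,7,10,9,11])) (.deg 11)))) (.split (.fin (.split (.split .big (.red [0,0,0,0,0,0,0,0,0,0,0,0,0,0,2,0] [0,2,3,4,5] [1])) (.deg 11))) (.far 9 10))) (.split (.split (.fin (.split (.split .big (.iso 191 [1,0,4,2,3,8,5,6,7,11,10,9] [1,0,3,4,2,6,7,8,5,11,10,9])) (.deg 11))) (.far 8 10)) (.far 8 9))) (.split (.split (.split (.fin (.split (.split .big (.red [2,0,0,0,0,0,0,0,0,0,0,0,0,0,0,0] [0,1,2,4,5] [3])) (.deg 11))) (.far 7 10)) (.far 7 9)) (.split (.split (.fin (.split (.split (.split .big (.red [2,0,0,0,0,0,0,0,0,0,0,0,0,0,0,0,0] [0,1,2,4,5] [3])) (.split (.red [2,0,0,0,0,0,0,0,0,0,0,0,0,0,0,0,0] [0,1,2,3,5] [4]) (.red [2,0,0,0,0,0,0,0,0,0,0,0,0,0,0,0,0]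 [0,1,2,5] [3,4]))) (.deg 11))) (.far 8 10)) (.far 8 9)))) (.split (.split (.split (.split (.fin (.split (.split .big (.red [2,2,2,2,2,2,2,2,1,1,0,1,2,0,0,2] [1,2,3,4,5] [0])) (.deg 11))) (.pet [[0],[1,8],[4],[3],[2],[5],[10],[7],[6,11],[9]])) (.split (.fin (.split (.split (.split .big (.red [2,2,2,2,2,2,2,2,2,2,0,1,1,0,0,0,2] [1,2,3,4,5] [0])) (.split (.red [0,2,0,0,0,0,0,0,0,0,0,0,0,0,0,0,0] [0,2,3,4,5] [1]) (.red [0,0,2,0,0,0,0,0,0,0,0,0,0,0,0,0,0] [2,3,4,5] [0,1]))) (.deg 11))) (.far 9 10))) (.split (.split (.pet [[0],[1],[4],[3],[2],[5],[8,10],[7],[6,11],[9]]) (.far 8 10)) (.far 8 9))) (.far 6 7))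

theorem ok171 : chkA tbl q171 c171 q171.rt [] [] = true := by decide +kernel

end Pool.Agent.TH395.P5
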