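import Pool.Agent.H79.LF.TH395_P5_Tab

set_option autoImplicit false
set_option maxRecDepth 100000

/-! # Certificates, part 12 -/

namespace Pool.Agent.TH395.P5

def c182 : CA := .split (.split (.split (.split (.split (.fin (.split .big (.deg 12))) (.fin (.split (.split .big (.deg 11)) (.deg 12)))) (.split (.fin (.split (.split .big (.deg 10)) (.deg 12))) (.far 10 11))) (.split (.split (.fin (.split (.split .big (.red [1,2,2,2,2,2,1,2,1,2,2,2,1,0,0,0] [0,1,2,4,5] [3])) (.deg 12))) (.fin (.split (.split (.split .big (.red [2,2,2,1,2,2,2,2,2,2,0,2,2,2,0,0,1] [0,1,2,4,5] [3])) (.deg 11)) (.deg 12)))) (.split (.fin (.split (.split (.split .big (.red [2,2,2,1,2,2,2,2,2,2,0,2,2,0,2,0,1] [0,1,2,4,5] [3])) (.deg 10)) (.deg 12))) (.far 10 11)))) (.split (.split (.split (.fin (.split (.split .big (.red [0,0,2,0,0,0,0,0,0,0,0,0,0,0,0,0] [0,2,3,4,5] [1])) (.deg 12))) (.fin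 (.split (.split (.split .big (.red [0,0,2,0,0,0,0,0,0,0,0,0,0,0,0,0,0] [0,2,3,4,5] [1])) (.deg 11)) (.deg 12)))) (.split (.fin (.split (.split (.split .big (.red [0,0,2,0,0,0,0,0,0,0,0,0,0,0,0,0,0] [0,2,3,4,5] [1])) (.deg 10)) (.deg 12))) (.far 10 11))) (.far 7 9))) (.split (.split (.split (.split (.fin (.split (.split .big (.red [2,1,2,2,1,2,1,2,2,1,2,2,2,0,0,0] [1,2,3,4,5] [0])) (.deg 12))) (.fin (.split (.split (.split .big (.red [2,2,2,1,2,2,2,0,2,2,2,2,2,2,0,0,1] [1,2,3,4,5] [0])) (.deg 11)) (.deg 12)))) (.split (.fin (.split (.split (.split .big (.red [2,2,2,1,2,2,2,0,2,2,2,2,2,0,2,0,1] [1,2,3,4,5] [0])) (.deg 10)) (.deg 12))) (.far 10 11))) (.split (.split (.fin (.split (.split (.split .big (.red [2,1,2,2,1,2,1,2,2,1,2,2,2,0,0,0,0] [1,2,3,4,5] [0])) (.split (.red [1,2,2,2,2,2,1,2,1,2,2,2,1,0,0,0,0] [0,1,2,4,5] [3]) (.sep [1,2,5,6,8,9] [0,7,12] 1 2 10)))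 (.deg 12))) (.pet [[0],[1],[5],[9],[2],[3,4,11],[6],[7],[12],[8]])) (.split (.pet [[0],[1],[5],[9],[2],[3,4,10],[6],[7],[12],[8]]) (.far 10 11)))) (.far 6 7))

theorem ok182 : chkA tbl q182 c182 q182.rt [] [] = true := by decide +kernel

def c183 : CA := .split (.split (.split (.split (.split (.fin (.split .big (.deg 12))) (.fin (.split (.split .big (.deg 11)) (.deg 12)))) (.split (.fin (.split (.split .big (.red [0,0,0,0,0,0,0,0,0,2,0,0,0,0,0,0,0] [0,1,3,4,5] [2])) (.deg 12))) (.far 8 11))) (.split (.split (.fin (.split (.split .big (.red [0,0,0,0,0,0,0,2,0,0,0,0,0,0,0,0,0] [0,2,3,4,5] [1])) (.deg 12))) (.fin (.split (.split (.split .big (.red [0,0,0,0,0,0,0,2,0,0,0,0,0,0,0,0,0,0] [0,2,3,4,5] [1])) (.deg 11)) (.deg 12)))) (.far 7 8))) (.split (.split (.split (.fin (.split (.split .big (.red [0,0,0,0,0,2,0,0,0,0,0,0,0,0,0,0,0] [1,2,3,4,5] [0])) (.deg 12))) (.fin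 (.split (.split (.split .big (.red [0,0,0,0,0,2,0,0,0,0,0,0,0,0,0,0,0,0] [1,2,3,4,5] [0])) (.deg 11)) (.deg 12)))) (.far 6 8)) (.far 6 7))) (.split (.split (.split (.split (.fin (.split (.split .big (.deg 5)) (.deg 12))) (.pet [[0,5,12],[1],[3],[7],[2],[9,11],[6],[8],[10],[4]])) (.split (.fin (.split (.split (.split .big (.deg 5)) (.split (.red [0,0,0,0,0,0,0,0,0,2,0,0,0,0,0,0,0,0] [0,1,3,4,5] [2]) (.deg 5))) (.deg 12))) (.far 8 11))) (.split (.split (.fin (.split (.split (.split .big (.deg 5)) (.split (.red [0,0,0,0,0,0,0,2,0,0,0,0,0,0,0,0,0,0] [0,2,3,4,5] [1]) (.deg 5))) (.deg 12))) (.pet [[0,5,12],[1],[3],[7],[2],[9,11],[6],[8],[10],[4]])) (.far 7 8))) (.split (.split (.split (.fin (.split (.split (.split .big (.deg 5)) (.split (.red [0,0,0,0,0,2,0,0,0,0,0,0,0,0,0,0,0,0] [1,2,3,4,5] [0]) (.deg 5))) (.deg 12))) (.pet [[0,5,12],[1],[3],[7],[2],[9,11],[6],[8],[10],[4]]))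 (.far 6 8)) (.far 6 7)))

theorem ok183 : chkA tbl q183 c183 q183.rt [] [] = true := by decide +kernel

def c184 : CA := .split (.split (.split (.split (.split (.fin (.split .big (.deg 12))) (.fin (.split (.split .big (.deg 11)) (.deg 12)))) (.split (.fin (.split (.split .big (.red [2,2,2,2,2,2,0,2,2,0,1,1,0,2,0,0] [0,1,3,4,5] [2])) (.deg 12))) (.far 9 11))) (.split (.split (.fin (.split (.split .big (.iso 210 [2,0,1,4,8,3,5,6,7,9,10,12,11] [1,2,0,5,3,6,7,8,4,9,10,12,11])) (.deg 12))) (.far 8 11)) (.far 8 9))) (.split (.split (.split (.fin (.split (.split .big (.red [1,2,2,1,2,2,2,1,2,0,0,1,0,0,0,2] [0,2,3,4,5] [1])) (.deg 12))) (.fin (.split (.split (.split .big (.red [2,2,2,2,2,2,0,2,2,1,2,2,2,1,2,0,0] [0,2,3,4,5] [1])) (.deg 11)) (.deg 12)))) (.far 7 9)) (.split (.split (.fin (.split (.split (.split .big (.red [0,0,0,0,0,0,0,0,0,0,0,0,0,0,0,2,0] [0,2,3,4,5]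 [1])) (.split (.red [1,2,2,0,2,0,0,1,0,2,0,0,0,0,0,1,2] [0,1,2,4,5] [3]) (.red [0,0,0,0,0,0,0,0,0,0,0,0,0,0,0,2,0] [0,2,4,5] [1,3]))) (.deg 12))) (.far 8 11)) (.far 8 9)))) (.split (.split (.split (.split (.fin (.split (.split .big (.deg 6)) (.deg 12))) (.fin (.split (.split (.split .big (.deg 6)) (.deg 11)) (.deg 12)))) (.split (.fin (.split (.split (.split .big (.deg 6)) (.split (.red [0,0,0,0,0,0,0,0,0,0,0,0,0,0,0,2,0] [0,1,3,4,5] [2]) (.deg 6))) (.deg 12))) (.far 9 11))) (.split (.split (.fin (.split (.split (.split .big (.deg 6)) (.split (.red [2,2,2,2,2,2,0,2,2,1,2,2,2,1,2,0,0] [0,1,2,4,5] [3]) (.deg 6))) (.deg 12))) (.far 8 11)) (.far 8 9))) (.split (.split (.split (.fin (.split (.split (.split .big (.deg 6)) (.split (.red [2,2,2,2,2,2,2,2,2,1,2,2,0,1,2,0,0] [0,2,3,4,5] [1]) (.deg 6))) (.deg 12))) (.fin (.split (.split (.split (.split .big (.deg 6)) (.split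 (.red [2,2,2,2,2,2,2,2,2,1,2,2,2,1,0,0,0,0] [0,2,3,4,5] [1]) (.deg 6))) (.deg 11)) (.split (.split (.split (.red [2,0,0,0,0,0,0,0,0,0,0,0,0,0,0,0,0,0] [0,1,2,3,5] [4]) (.deg 6)) (.split (.red [0,0,0,0,0,0,0,2,0,0,0,0,0,0,0,0,0,0] [0,2,3,5] [1,4]) (.deg 6))) (.deg 11))))) (.far 7 9)) (.split (.split (.fin (.split (.split (.split (.split .big (.deg 6)) (.split (.red [2,0,0,0,0,0,0,0,0,0,0,0,0,0,0,0,0,0] [0,2,3,4,5] [1]) (.deg 6))) (.split (.split (.red [0,2,0,0,0,0,0,0,0,0,0,0,0,0,0,0,0,0] [0,1,2,4,5] [3]) (.deg 6)) (.split (.red [0,2,0,0,0,0,0,0,0,0,0,0,0,0,0,0,0,0] [0,2,4,5] [1,3]) (.deg 6)))) (.split (.split (.split (.red [2,0,0,0,0,0,0,0,0,0,0,0,0,0,0,0,0,0] [0,1,2,3,5] [4]) (.deg 6)) (.split (.sep [0,1,2,3,4,5,7,12] [6,8,9] 0 1 11) (.deg 6))) (.split (.split (.red [0,2,0,0,0,0,0,0,0,0,0,0,0,0,0,0,0,0] [0,1,2,5] [3,4]) (.deg 6)) (.split (.clo 0 1 (.deg 11)) (.deg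 6)))))) (.far 8 11)) (.far 8 9))))

theorem ok184 : chkA tbl q184 c184 q184.rt [] [] = true := by decide +kernel

def c185 : CA := .split (.split (.split (.split (.split (.fin (.split .big (.deg 12))) (.fin (.split (.split .big (.iso 206 [0,1,2,3,4,5,10,7,6,8,11,9,12] [0,1,2,3,4,5,8,7,9,11,6,10,12])) (.deg 12)))) (.split (.fin (.split (.split .big (.iso 208 [0,2,1,4,3,10,5,6,7,8,9,11,12] [0,2,1,4,3,6,7,8,9,10,5,11,12])) (.deg 12))) (.far 10 11))) (.split (.split (.fin (.split (.split .big (.red [0,0,0,0,0,0,0,0,0,0,0,0,2,0,0,0,0] [0,2,3,4,5] [1])) (.deg 12))) (.far 8 11)) (.split (.fin (.split (.split (.split .big (.red [0,0,0,0,0,0,0,0,0,0,0,0,2,0,0,0,0,0] [0,2,3,4,5] [1])) (.split (.red [0,0,0,0,0,0,0,0,0,0,0,0,2,0,0,0,0,0] [0,1,2,3,4] [5]) (.red [0,0,0,2,0,0,0,0,0,0,0,0,0,0,0,0,0,0] [0,2,3,4] [1,5]))) (.deg 12))) (.far 10 11)))) (.split (.split (.split (.fin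 (.split (.split .big (.iso 201 [1,0,3,2,7,4,5,6,8,9,12,10,11] [1,0,3,2,5,6,7,4,8,9,11,12,10])) (.deg 12))) (.far 7 11)) (.split (.fin (.split (.split (.split .big (.red [2,0,0,0,0,0,0,0,0,0,0,0,0,0,0,0,0,0] [0,1,2,4,5] [3])) (.split (.red [0,0,0,0,0,0,0,0,0,0,0,2,0,0,0,0,0,0] [0,1,2,3,4] [5]) (.red [2,0,0,0,0,0,0,0,0,0,0,0,0,0,0,0,0,0] [0,1,2,4] [3,5]))) (.deg 12))) (.far 10 11))) (.far 7 8))) (.split (.split (.split (.split (.fin (.split (.split .big (.red [2,2,2,2,2,2,2,2,1,1,1,2,2,0,0,0,2] [1,2,3,4,5] [0])) (.deg 12))) (.pet [[0],[1,7],[3],[4],[2,10],[5],[9],[6,12],[8],[11]])) (.split (.pet [[0],[1,7],[3],[4],[2],[5],[9,11],[6,12],[8],[10]]) (.far 10 11))) (.far 6 8)) (.split (.split (.split (.fin (.split (.split (.split .big (.red [2,2,2,2,2,2,2,2,2,2,2,0,2,1,1,0,0,0] [1,2,3,4,5] [0])) (.split (.red [0,0,0,0,0,0,0,0,0,0,0,0,2,0,0,0,0,0] [0,1,2,4,5] [3]) (.red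 [0,0,0,0,0,0,0,0,0,0,0,0,2,0,0,0,0,0] [1,2,4,5] [0,3]))) (.deg 12))) (.far 7 11)) (.split (.pet [[0],[1,7],[3],[4],[2],[5],[9,11],[6,12],[8],[10]]) (.far 10 11))) (.far 7 8)))

theorem ok185 : chkA tbl q185 c185 q185.rt [] [] = true := by decide +kernel

def c186 : CA := .split (.split (.split (.split (.split (.fin (.split .big (.deg 12))) (.fin (.split (.split .big (.deg 11)) (.deg 12)))) (.split (.fin (.split (.split .big (.iso 202 [2,0,4,1,10,3,5,7,9,6,8,12,11] [1,3,0,5,2,6,9,7,10,8,4,12,11])) (.deg 12))) (.far 10 11))) (.split (.split (.fin (.split (.split .big (.iso 202 [1,0,3,2,9,4,5,6,10,7,8,12,11] [1,0,3,2,5,6,7,9,10,4,8,12,11])) (.deg 12))) (.far 9 11)) (.far 9 10))) (.split (.split (.split (.fin (.split (.split .big (.red [2,1,1,2,2,2,2,1,1,2,0,0,0,0,0,2] [0,1,2,4,5] [3])) (.deg 12))) (.fin (.split (.split (.split .big (.red [2,2,2,2,2,2,2,2,2,2,1,2,2,1,0,0,0]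 [0,1,2,4,5] [3])) (.deg 11)) (.deg 12)))) (.split (.fin (.split (.split (.split .big (.red [2,2,2,2,2,2,2,2,2,2,1,0,2,1,2,0,0] [0,1,2,4,5] [3])) (.split (.red [2,2,2,2,2,2,2,2,2,2,1,0,2,1,2,0,0] [0,2,3,4,5] [1]) (.red [0,0,0,0,2,0,0,0,0,0,0,0,0,0,0,0,0] [0,2,4,5] [1,3]))) (.deg 12))) (.far 10 11))) (.split (.split (.fin (.split (.split (.split .big (.red [0,0,0,0,0,0,0,0,0,0,0,0,0,0,0,2,0] [0,1,2,4,5] [3])) (.split (.red [0,0,0,0,0,0,0,0,0,0,0,2,0,1,0,0,1] [0,1,2,3,4] [5]) (.red [0,0,0,0,0,0,0,0,0,0,0,0,0,0,0,2,0] [0,1,2,4] [3,5]))) (.deg 12))) (.far 9 11)) (.far 9 10)))) (.split (.split (.split (.split (.fin (.split (.split .big (.red [1,2,2,1,2,2,1,2,2,1,0,0,0,0,0,2] [1,2,3,4,5] [0])) (.deg 12))) (.fin (.split (.split (.split .big (.red [2,2,2,2,2,2,2,2,2,2,2,1,1,2,0,0,0] [1,2,3,4,5] [0])) (.deg 11)) (.deg 12)))) (.split (.fin (.split (.split (.split .big (.red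 [0,0,0,0,0,0,0,0,0,0,0,0,0,0,0,2,0] [1,2,3,4,5] [0])) (.split (.red [0,0,0,0,0,0,0,0,0,0,0,1,0,2,0,0,1] [0,2,3,4,5] [1]) (.red [0,0,0,0,0,0,0,0,0,0,0,0,0,0,0,2,0] [2,3,4,5] [0,1]))) (.deg 12))) (.far 10 11))) (.split (.split (.fin (.split (.split (.split .big (.red [2,2,2,2,2,2,2,2,2,2,2,1,1,0,2,0,0] [1,2,3,4,5] [0])) (.split (.red [2,2,2,2,2,2,2,2,2,2,2,1,1,0,2,0,0] [0,1,2,3,4] [5]) (.red [0,0,0,0,2,0,0,0,0,0,0,0,0,0,0,0,0] [1,2,3,4] [0,5]))) (.deg 12))) (.far 9 11)) (.far 9 10))) (.far 6 7))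

theorem ok186 : chkA tbl q186 c186 q186.rt [] [] = true := by decide +kernel

def c187 : CA := .split (.split (.split (.split (.split (.fin (.split .big (.deg 12))) (.fin (.split (.split .big (.red [2,2,2,2,2,2,2,2,1,0,2,1,2,0,2,1,0] [0,1,2,3,5] [4])) (.deg 12)))) (.split (.fin (.split (.split .big (.deg 10)) (.deg 12))) (.fin (.split (.split (.split .big (.deg 10)) (.split (.red [2,2,2,2,2,2,2,2,2,2,2,0,0,1,2,0,1,0] [0,1,2,3,5] [4]) (.deg 10))) (.deg 12))))) (.split (.split (.fin (.split (.split .big (.red [0,0,0,0,0,0,0,0,0,0,0,0,2,0,0,0,0] [0,1,2,3,4] [5])) (.deg 12))) (.far 9 11)) (.far 9 10))) (.split (.split (.split (.fin (.split (.split .big (.red [0,0,0,0,0,0,0,0,0,0,2,0,0,0,0,0,0] [0,1,2,4,5] [3])) (.deg 12))) (.fin (.split (.split (.split .big (.red [0,0,0,0,0,0,0,0,2,0,0,0,0,0,0,0,0,0] [0,1,2,4,5] [3])) (.split (.red [0,2,0,0,0,0,0,0,0,0,0,0,0,0,0,0,0,0]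 [0,1,2,3,5] [4]) (.red [0,0,0,2,0,0,0,0,0,0,0,0,0,0,0,0,0,0] [0,1,2,5] [3,4]))) (.deg 12)))) (.far 7 10)) (.far 7 9))) (.split (.split (.split (.split (.fin (.split (.split .big (.red [2,2,2,2,2,2,2,2,1,1,2,1,2,0,0,0,2] [1,2,3,4,5] [0])) (.deg 12))) (.pet [[0],[1],[3],[4],[2],[5],[9],[6,12],[7,8],[11]])) (.split (.fin (.split (.split (.split .big (.red [2,2,2,2,2,2,2,2,2,2,2,2,0,1,0,0,0,1] [1,2,3,4,5] [0])) (.deg 10)) (.deg 12))) (.pet [[0],[1],[3],[4],[2],[5],[9],[6,12],[7,8],[11]]))) (.split (.split (.fin (.split (.split (.split .big (.red [2,0,0,0,0,0,0,0,0,0,0,0,0,0,0,0,0,0] [1,2,3,4,5] [0])) (.split (.red [2,0,0,0,0,0,0,0,0,0,0,0,0,0,0,0,0,0] [0,1,2,3,4] [5]) (.red [2,0,0,0,0,0,0,0,0,0,0,0,0,0,0,0,0,0] [1,2,3,4] [0,5]))) (.deg 12))) (.far 9 11)) (.far 9 10))) (.far 6 7))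

theorem ok187 : chkA tbl q187 c187 q187.rt [] [] = true := by decide +kernel

def c188 : CA := .split (.split (.split (.split (.split (.fin (.split .big (.deg 12))) (.fin (.split (.split .big (.red [2,1,2,2,1,2,1,2,2,2,2,0,0,2,1,0] [0,1,2,3,4] [5])) (.deg 12)))) (.split (.fin (.split (.split .big (.deg 10)) (.deg 12))) (.fin (.split (.split (.split .big (.deg 10)) (.split (.red [2,2,2,2,2,1,2,2,2,2,2,2,0,2,0,1,0] [0,1,2,3,4] [5]) (.deg 10))) (.deg 12))))) (.split (.split (.fin (.split (.split .big (.deg 9)) (.deg 12))) (.fin (.split (.split (.split .big (.deg 9)) (.split (.red [2,2,2,2,2,1,2,2,2,2,2,0,2,2,0,1,0] [0,1,2,3,4] [5]) (.deg 9))) (.deg 12)))) (.far 9 10))) (.split (.split (.split (.fin (.split (.split .big (.red [2,0,0,0,0,0,0,0,0,0,0,0,0,0,0,0] [0,1,2,3,5] [4])) (.deg 12))) (.far 8 11)) (.split (.fin (.split (.split (.split .big (.red [2,0,0,0,0,0,0,0,0,0,0,0,0,0,0,0,0]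 [0,1,2,3,5] [4])) (.deg 10)) (.deg 12))) (.far 8 11))) (.split (.split (.fin (.split (.split (.split .big (.red [2,0,0,0,0,0,0,0,0,0,0,0,0,0,0,0,0] [0,1,2,3,5] [4])) (.deg 9)) (.deg 12))) (.far 8 11)) (.far 9 10)))) (.split (.split (.split (.split (.fin (.split (.split .big (.red [2,2,2,2,2,2,2,2,2,1,1,0,0,1,2,0] [0,2,3,4,5] [1])) (.deg 12))) (.fin (.split (.split (.split .big (.red [2,2,2,2,2,2,2,2,2,1,1,0,0,1,2,0,0] [0,2,3,4,5] [1])) (.split (.red [2,1,2,2,1,2,1,2,2,2,2,0,0,2,1,0,0] [0,1,2,3,4] [5]) (.sep [1,2,3,4,6,7,11] [0,8,12] 1 2 9))) (.deg 12)))) (.split (.fin (.split (.split (.split .big (.red [2,2,2,2,2,1,2,2,2,2,2,2,0,2,0,0,1] [0,2,3,4,5] [1])) (.deg 10)) (.deg 12))) (.pet [[0,5,10],[1],[3],[4],[2],[12],[6],[11],[7],[8]]))) (.split (.split (.fin (.split (.split (.split .big (.red [2,2,2,2,2,1,2,2,2,2,2,0,2,2,0,0,1] [0,2,3,4,5] [1])) (.deg 9)) (.deg 12)))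 (.pet [[0,5,9],[1],[3],[4],[2],[12],[6],[11],[7],[8]])) (.far 9 10))) (.far 7 8))

theorem ok188 : chkA tbl q188 c188 q188.rt [] [] = true := by decide +kernel

def c189 : CA := .split (.split (.split (.split (.split (.fin (.split .big (.deg 12))) (.fin (.split (.split .big (.iso 202 [0,1,2,3,5,4,6,7,10,8,11,9,12] [0,1,2,3,5,4,6,7,9,11,8,10,12])) (.deg 12)))) (.split (.fin (.split (.split .big (.red [2,1,1,2,2,2,2,0,1,1,0,0,2,0,0,0] [0,1,2,3,5] [4])) (.deg 12))) (.far 10 11))) (.split (.split (.fin (.split (.split .big (.deg 9)) (.deg 12))) (.far 9 11)) (.split (.fin (.split (.split (.split .big (.deg 9)) (.split (.red [2,1,1,2,2,2,2,0,1,1,0,0,2,0,0,0,0] [0,1,2,3,5] [4]) (.deg 9))) (.deg 12))) (.far 10 11)))) (.split (.split (.split (.fin (.split (.split .big (.red [1,2,2,2,1,2,2,1,2,2,1,0,0,0,0,0] [0,1,3,4,5] [2])) (.deg 12))) (.fin (.split (.split (.split .big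 (.red [2,2,2,2,2,1,2,2,2,2,2,2,0,0,0,2,1] [0,1,3,4,5] [2])) (.split (.red [2,2,2,2,2,1,2,2,2,2,0,2,2,2,1,0,0] [0,1,2,4,5] [3]) (.red [0,0,0,0,0,0,0,0,0,0,0,0,0,2,0,0,0] [0,1,4,5] [2,3]))) (.deg 12)))) (.split (.fin (.split (.split (.split .big (.red [0,0,0,0,0,2,0,0,0,0,0,0,0,1,2,1,2] [0,1,3,4,5] [2])) (.split (.red [2,2,2,2,2,1,2,2,2,2,2,2,2,0,1,0,0] [0,1,2,3,5] [4]) (.red [0,0,0,2,0,0,0,0,0,0,0,0,0,0,0,0,0] [0,1,3,5] [2,4]))) (.deg 12))) (.far 10 11))) (.split (.split (.fin (.split (.split (.split .big (.red [2,2,2,2,2,1,2,2,2,2,2,0,0,2,0,2,1] [0,1,3,4,5] [2])) (.deg 9)) (.deg 12))) (.far 9 11)) (.split (.fin (.split (.split (.split (.split .big (.red [2,0,0,0,0,0,0,0,0,0,0,0,0,0,0,0,0,0] [0,1,3,4,5] [2])) (.deg 9)) (.split (.split (.red [0,0,0,0,0,0,2,0,0,0,0,0,0,0,0,0,0,0] [0,1,2,3,5] [4]) (.red [0,0,2,0,0,0,0,0,0,0,0,0,0,0,0,0,0,0] [0,1,3,5] [2,4])) (.deg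 9))) (.split (.split (.split (.red [0,0,0,0,0,0,2,0,0,0,0,0,0,0,0,0,0,0] [0,1,2,3,4] [5]) (.red [0,0,0,0,0,0,0,0,0,2,0,0,0,0,0,0,0,0] [0,1,3,4] [2,5])) (.deg 9)) (.split (.split (.red [0,0,0,0,0,0,2,0,0,0,0,0,0,0,0,0,0,0] [0,1,2,3] [4,5]) (.clo 0 1 (.pet [[0,5,9],[1],[3],[4],[2],[12],[6],[10,11],[8],[7,13]]))) (.deg 9))))) (.far 10 11))))) (.split (.split (.split (.split (.fin (.split (.split .big (.red [1,2,2,2,1,2,2,1,2,0,1,0,0,0,0,2] [0,2,3,4,5] [1])) (.deg 12))) (.fin (.split (.split (.split .big (.red [2,2,2,2,2,0,2,2,2,2,2,0,1,0,2,2,1] [0,2,3,4,5] [1])) (.split (.red [2,2,2,2,2,2,2,2,2,2,2,0,1,1,2,0,0] [0,1,2,4,5] [3]) (.red [0,0,0,0,0,0,0,0,0,0,0,0,0,0,2,0,0] [0,2,4,5] [1,3]))) (.deg 12)))) (.split (.fin (.split (.split (.split .big (.red [0,0,0,0,0,0,0,0,0,0,0,0,0,0,0,2,0] [0,2,3,4,5] [1])) (.split (.red [0,0,0,0,0,2,0,0,0,0,0,0,0,1,0,0,1] [0,1,2,3,5] [4])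 (.red [0,0,0,0,0,0,0,0,0,0,0,0,0,0,0,2,0] [0,2,3,5] [1,4]))) (.deg 12))) (.far 10 11))) (.split (.split (.fin (.split (.split (.split .big (.red [1,2,2,2,1,2,2,1,2,0,1,0,2,0,0,0,0] [0,2,3,4,5] [1])) (.deg 9)) (.deg 12))) (.far 9 11)) (.split (.fin (.split (.split (.split (.split .big (.red [0,0,0,0,0,0,0,0,0,0,0,0,0,0,0,2,0,0] [0,2,3,4,5] [1])) (.deg 9)) (.split (.split (.red [0,0,0,0,0,0,0,0,0,0,0,0,0,0,0,2,0,0] [0,1,2,3,5] [4]) (.red [0,0,0,0,0,0,0,0,0,0,0,0,0,0,0,2,0,0] [0,2,3,5] [1,4])) (.deg 9))) (.split (.split (.split (.red [0,0,0,0,0,0,0,0,0,0,0,0,0,0,0,2,0,0] [0,1,2,3,4] [5]) (.red [0,0,0,0,0,0,0,0,0,0,0,0,0,0,0,2,0,0] [0,2,3,4] [1,5])) (.deg 9)) (.split (.split (.red [0,0,2,0,0,0,0,0,0,0,0,0,0,0,0,0,0,0] [0,1,2,3] [4,5]) (.clo 0 1 (.pet [[0,5,9],[1],[3],[4],[2],[13],[6],[10,11],[8],[7,12]]))) (.deg 9))))) (.far 10 11)))) (.far 7 8))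

theorem ok189 : chkA tbl q189 c189 q189.rt [] [] = true := by decide +kernel

def c190 : CA := .split (.split (.split (.split (.split (.fin (.split .big (.deg 12))) (.fin (.split (.split .big (.iso 204 [0,1,2,3,5,4,6,8,7,11,9,12,10] [0,1,2,3,5,4,6,8,7,10,12,9,11])) (.deg 12)))) (.split (.fin (.split (.split .big (.red [2,1,2,2,1,2,1,2,2,2,2,0,2,1,0,0,0] [0,1,2,3,5] [4])) (.deg 12))) (.pet [[0,5],[1],[3],[4],[2],[11],[6],[10,12],[8],[7]]))) (.split (.split (.fin (.split (.split .big (.deg 9)) (.deg 12))) (.far 9 11)) (.split (.pet [[0],[1],[3],[4],[2],[5,9,11,12],[6],[10],[8],[7]]) (.far 9 11)))) (.split (.split (.split (.fin (.split (.split .big (.red [0,0,0,0,0,0,0,0,0,0,0,0,0,0,0,2,0] [0,1,3,4,5] [2])) (.deg 12))) (.far 8 11)) (.split (.fin (.split (.split (.split .big (.red [2,0,0,0,0,0,0,0,0,0,0,0,0,0,0,0,0,0] [0,1,3,4,5] [2])) (.split (.red [2,2,2,2,2,2,2,2,2,1,1,0,2,2,0,0,0,0]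 [0,1,2,3,5] [4]) (.red [0,0,2,0,0,0,0,0,0,0,0,0,0,0,0,0,0,0] [0,1,3,5] [2,4]))) (.deg 12))) (.far 8 11))) (.split (.split (.fin (.split (.split (.split .big (.red [0,0,0,0,0,0,0,0,0,0,0,0,0,0,0,2,0,0] [0,1,3,4,5] [2])) (.deg 9)) (.deg 12))) (.far 9 11)) (.split (.pet [[0,5,9],[1],[3],[4],[2],[12],[6],[10],[8],[7]]) (.far 9 11))))) (.split (.split (.split (.split (.fin (.split (.split .big (.red [2,0,0,0,0,0,0,0,0,0,0,0,0,0,0,0,0] [0,2,3,4,5] [1])) (.deg 12))) (.fin (.split (.split (.split .big (.red [2,0,0,0,0,0,0,0,0,0,0,0,0,0,0,0,0,0] [0,2,3,4,5] [1])) (.split (.red [2,0,0,0,0,0,0,0,0,0,0,0,0,0,0,0,0,0] [0,1,2,4,5] [3]) (.red [2,0,0,0,0,0,0,0,0,0,0,0,0,0,0,0,0,0] [0,2,4,5] [1,3]))) (.deg 12)))) (.far 7 10)) (.split (.split (.fin (.split (.split (.split .big (.red [2,0,0,0,0,0,0,0,0,0,0,0,0,0,0,0,0,0] [0,2,3,4,5] [1])) (.deg 9)) (.deg 12))) (.far 9 11)) (.far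 7 10))) (.far 7 8))

theorem ok190 : chkA tbl q190 c190 q190.rt [] [] = true := by decide +kernel

def c191 : CA := .split (.split (.split (.split (.split (.fin (.split .big (.deg 12))) (.fin (.split (.split .big (.red [0,0,0,0,0,0,0,0,0,0,0,0,0,0,0,2,0] [0,1,2,3,4] [5])) (.deg 12)))) (.split (.fin (.split (.split .big (.iso 203 [0,1,2,3,5,4,6,7,8,10,9,11,12] [0,1,2,3,5,4,6,7,8,10,9,11,12])) (.deg 12))) (.far 10 11))) (.split (.split (.fin (.split (.split .big (.deg 9)) (.deg 12))) (.fin (.split (.split (.split .big (.deg 9)) (.split (.red [0,0,0,0,0,0,0,0,0,0,0,0,0,0,0,2,0,0] [0,1,2,3,4] [5]) (.deg 9))) (.deg 12)))) (.far 9 10))) (.split (.split (.split (.fin (.split (.split .big (.red [2,0,0,0,0,0,0,0,0,0,0,0,0,0,0,0,0] [0,1,2,3,5] [4])) (.deg 12))) (.far 8 11)) (.far 8 10)) (.split (.split (.fin (.split (.split (.split .big (.red [2,0,0,0,0,0,0,0,0,0,0,0,0,0,0,0,0,0]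 [0,1,2,3,5] [4])) (.deg 9)) (.deg 12))) (.far 8 11)) (.far 9 10)))) (.split (.split (.split (.split (.fin (.split (.split .big (.red [2,2,2,2,2,2,2,2,2,1,1,0,0,1,2,0,0] [0,2,3,4,5] [1])) (.deg 12))) (.fin (.split (.split (.split .big (.red [2,2,2,2,2,2,2,2,2,2,2,0,0,1,1,0,0,0] [0,2,3,4,5] [1])) (.split (.red [2,0,0,0,0,0,0,0,0,0,0,0,0,0,0,0,0,0] [0,1,2,3,4] [5]) (.red [0,0,2,0,0,0,0,0,0,0,0,0,0,0,0,0,0,0] [0,2,3,4] [1,5]))) (.deg 12)))) (.split (.pet [[0,5],[1],[3],[4],[2],[10],[6],[11],[7,12],[8]]) (.far 10 11))) (.split (.split (.pet [[0],[1],[3],[4],[2],[5,9,10,12],[6],[11],[7],[8]]) (.pet [[0,5,9],[1],[3],[4],[2],[12],[6],[11],[7],[8]])) (.far 9 10))) (.far 7 8))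

theorem ok191 : chkA tbl q191 c191 q191.rt [] [] = true := by decide +kernel

def c192 : CA := .split (.split (.split (.split (.split (.fin (.split .big (.deg 12))) (.fin (.split (.split .big (.deg 11)) (.deg 12)))) (.split (.fin (.split (.split .big (.deg 10)) (.deg 12))) (.far 10 11))) (.split (.split (.fin (.split (.split .big (.red [1,2,2,1,2,2,2,2,1,0,2,1,0,0,0] [0,1,2,4,5] [3])) (.deg 12))) (.fin (.split (.split (.split .big (.red [2,2,2,2,2,1,2,0,2,2,2,2,2,0,2,1] [0,1,2,4,5] [3])) (.deg 11)) (.deg 12)))) (.split (.fin (.split (.split (.split .big (.red [2,2,2,2,2,1,2,0,2,2,2,2,0,2,2,1] [0,1,2,4,5] [3])) (.deg 10)) (.deg 12))) (.far 10 11)))) (.split (.split (.split (.fin (.split (.split .big (.red [1,2,2,1,2,2,2,2,1,2,0,1,0,0,0] [0,1,3,4,5] [2])) (.deg 12))) (.fin (.split (.split (.split .big (.red [2,1,1,2,2,2,2,2,2,1,1,0,0,0,0,0] [0,1,3,4,5] [2])) (.deg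 11)) (.deg 12)))) (.split (.fin (.split (.split (.split .big (.red [2,1,1,2,2,2,2,2,2,1,1,0,0,0,0,0] [0,1,3,4,5] [2])) (.deg 10)) (.deg 12))) (.far 10 11))) (.far 8 9))) (.split (.split (.split (.split (.fin (.split (.split .big (.deg 7)) (.deg 12))) (.fin (.split (.split (.split .big (.deg 7)) (.deg 11)) (.deg 12)))) (.split (.fin (.split (.split (.split .big (.deg 7)) (.deg 10)) (.deg 12))) (.far 10 11))) (.split (.split (.fin (.split (.split (.split .big (.deg 7)) (.split (.red [1,2,2,1,2,2,2,2,1,2,2,1,0,0,0,0] [0,1,2,4,5] [3]) (.deg 7))) (.deg 12))) (.fin (.split (.split (.split (.split .big (.deg 7)) (.split (.red [0,0,0,0,0,0,0,0,0,0,0,0,0,2,0,0,0] [0,1,2,4,5] [3]) (.deg 7))) (.deg 11)) (.split (.split (.split (.iso 207 [1,0,3,2,4,5,6,8,7,9,12,11,10] [1,0,3,2,4,5,6,8,7,9,12,11,10]) (.deg 7)) (.split (.red [0,0,0,0,0,2,0,0,0,0,0,0,0,0,0,0,0] [0,1,2,4] [3,5])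 (.deg 7))) (.deg 11))))) (.split (.fin (.split (.split (.split (.split .big (.deg 7)) (.split (.red [0,0,0,0,0,0,0,0,0,0,0,0,2,0,0,0,0] [0,1,2,4,5] [3]) (.deg 7))) (.deg 10)) (.split (.split (.split (.iso 207 [1,0,3,2,4,5,6,8,7,9,12,10,11] [1,0,3,2,4,5,6,8,7,9,11,12,10]) (.deg 7)) (.split (.red [0,0,0,0,0,2,0,0,0,0,0,0,0,0,0,0,0] [0,1,2,4] [3,5]) (.deg 7))) (.deg 10)))) (.far 10 11)))) (.split (.split (.split (.fin (.split (.split (.split .big (.deg 7)) (.split (.red [0,0,0,0,0,0,0,0,0,0,0,0,0,0,0,2] [0,1,3,4,5] [2]) (.deg 7))) (.deg 12))) (.fin (.split (.split (.split (.split .big (.deg 7)) (.split (.red [0,0,0,0,0,0,0,0,0,0,0,0,0,0,0,0,2] [0,1,3,4,5] [2]) (.deg 7))) (.deg 11)) (.split (.split (.split (.iso 208 [0,1,2,3,4,5,6,9,7,8,12,11,10] [0,1,2,3,4,5,6,8,9,7,12,11,10]) (.deg 7)) (.split (.red [0,0,0,0,0,0,0,0,0,0,0,0,0,0,0,0,2] [0,1,3,4] [2,5]) (.deg 7)))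 (.deg 11))))) (.split (.fin (.split (.split (.split (.split .big (.deg 7)) (.split (.red [0,0,0,0,0,0,0,0,0,0,0,0,0,0,0,0,2] [0,1,3,4,5] [2]) (.deg 7))) (.deg 10)) (.split (.split (.split (.iso 208 [0,1,2,3,4,5,6,9,7,8,12,10,11] [0,1,2,3,4,5,6,8,9,7,11,12,10]) (.deg 7)) (.split (.red [0,0,0,0,0,0,0,0,0,0,0,0,0,0,0,0,2] [0,1,3,4] [2,5]) (.deg 7))) (.deg 10)))) (.far 10 11))) (.far 8 9)))

theorem ok192 : chkA tbl q192 c192 q192.rt [] [] = true := by decide +kernel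

end Pool.Agent.TH395.P5
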