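import Pool.Agent.H79.LF.TH395_P5_Tab

set_option autoImplicit false
set_option maxRecDepth 100000

/-! # Certificates, part 14 -/

namespace Pool.Agent.TH395.P5

def c203 : CA := .split (.split (.split (.split (.split (.fin (.split .big (.deg 13))) (.fin (.split (.split .big (.deg 12)) (.deg 13)))) (.split (.fin (.split (.split .big (.red [0,0,0,0,0,0,0,0,0,0,0,0,0,0,0,2,0,0] [0,1,2,3,5] [4])) (.deg 13))) (.far 11 12))) (.split (.split (.fin (.split (.split .big (.deg 10)) (.deg 13))) (.fin (.split (.split (.split .big (.deg 10)) (.deg 12)) (.deg 13)))) (.split (.fin (.split (.split (.split .big (.deg 10)) (.split (.red [0,0,0,0,0,0,0,0,0,0,0,0,0,0,0,2,0,0,0] [0,1,2,3,5] [4]) (.deg 10))) (.deg 13))) (.far 11 12)))) (.split (.split (.split (.fin (.split (.split .big (.red [2,0,0,0,0,0,0,0,0,0,0,0,0,0,0,0,0,0] [0,1,2,3,4] [5])) (.deg 13))) (.fin (.split (.split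 (.split .big (.red [2,0,0,0,0,0,0,0,0,0,0,0,0,0,0,0,0,0,0] [0,1,2,3,4] [5])) (.deg 12)) (.deg 13)))) (.far 8 11)) (.split (.split (.fin (.split (.split (.split .big (.red [2,0,0,0,0,0,0,0,0,0,0,0,0,0,0,0,0,0,0] [0,1,2,3,4] [5])) (.deg 10)) (.deg 13))) (.fin (.split (.split (.split (.split .big (.red [2,0,0,0,0,0,0,0,0,0,0,0,0,0,0,0,0,0,0,0] [0,1,2,3,4] [5])) (.deg 10)) (.deg 12)) (.split (.split (.split (.red [0,0,0,0,0,0,0,0,0,0,0,2,0,0,0,0,0,0,0,0] [1,2,3,4,5] [0]) (.red [0,2,0,0,0,0,0,0,0,0,0,0,0,0,0,0,0,0,0,0] [1,2,3,4] [0,5])) (.deg 10)) (.deg 12))))) (.far 8 11)))) (.split (.split (.split (.split (.fin (.split (.split .big (.red [2,2,2,0,2,2,2,2,2,1,1,0,0,1,2,0,0,2] [0,2,3,4,5] [1])) (.deg 13))) (.pet [[0,4],[1],[3],[5],[2],[9,12],[6],[11],[7,13],[8]])) (.split (.fin (.split (.split (.split .big (.red [2,2,2,1,2,2,2,2,2,2,2,2,2,0,0,1,0,0,0] [0,2,3,4,5]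 [1])) (.split (.red [2,0,0,0,0,0,0,0,0,0,0,0,0,0,0,0,0,0,0] [0,1,2,3,5] [4]) (.red [0,0,2,0,0,0,0,0,0,0,0,0,0,0,0,0,0,0,0] [0,2,3,5] [1,4]))) (.deg 13))) (.far 11 12))) (.split (.split (.pet [[0],[1],[3],[5],[2],[4,9,10,13],[6],[11],[7],[8]]) (.pet [[0,4,10],[1],[3],[5],[2],[13],[6],[9,11,12],[7],[8]])) (.split (.pet [[0,4,10],[1],[3],[5],[2],[13],[6],[11],[7],[8]]) (.far 11 12)))) (.far 7 8))

theorem ok203 : chkA tbl q203 c203 q203.rt [] [] = true := by decide +kernel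

def c204 : CA := .split (.split (.split (.split (.split (.fin (.split .big (.deg 13))) (.fin (.split (.split .big (.red [2,1,2,2,2,1,1,2,2,2,2,0,0,0,0,2,1,0] [1,2,3,4,5] [0])) (.deg 13)))) (.split (.fin (.split (.split .big (.deg 11)) (.deg 13))) (.pet [[0,4],[1],[3],[5],[2],[9,11,13],[6],[12],[7],[8]]))) (.split (.split (.fin (.split (.split .big (.deg 10)) (.deg 13))) (.pet [[0],[1],[3],[5],[2],[4,9,10,13],[6],[12],[7],[8]])) (.split (.fin (.split (.split (.split .big (.deg 10)) (.deg 11)) (.deg 13))) (.pet [[0,4,10],[1],[3],[5],[2],[13],[6],[12],[7,9,11],[8]])))) (.split (.split (.split (.fin (.split (.split .big (.red [2,0,0,0,0,0,0,0,0,0,0,0,0,0,0,0,0,0] [0,1,2,3,4] [5])) (.deg 13))) (.far 8 12)) (.split (.fin (.split (.split (.split .big (.red [2,0,0,0,0,0,0,0,0,0,0,0,0,0,0,0,0,0,0] [0,1,2,3,4] [5])) (.deg 11)) (.deg 13))) (.far 8 12))) (.split (.split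 (.fin (.split (.split (.split .big (.red [2,0,0,0,0,0,0,0,0,0,0,0,0,0,0,0,0,0,0] [0,1,2,3,4] [5])) (.deg 10)) (.deg 13))) (.far 8 12)) (.split (.fin (.split (.split (.split (.split .big (.red [2,0,0,0,0,0,0,0,0,0,0,0,0,0,0,0,0,0,0,0] [0,1,2,3,4] [5])) (.deg 10)) (.deg 11)) (.split (.split (.split (.red [0,0,0,0,0,0,0,0,0,0,0,2,0,0,0,0,0,0,0,0] [0,1,2,4,5] [3]) (.red [0,2,0,0,0,0,0,0,0,0,0,0,0,0,0,0,0,0,0,0] [0,1,2,4] [3,5])) (.deg 10)) (.deg 11)))) (.far 8 12))))) (.split (.split (.split (.split (.fin (.split (.split .big (.red [0,0,0,0,0,0,0,0,0,0,0,0,2,0,0,0,0,0] [0,2,3,4,5] [1])) (.deg 13))) (.fin (.split (.split (.split .big (.red [2,0,0,0,0,0,0,0,0,0,0,0,0,0,0,0,0,0,0] [0,2,3,4,5] [1])) (.split (.red [2,2,2,2,2,2,2,1,1,2,2,0,0,0,0,2,2,0,0] [1,2,3,4,5] [0]) (.red [0,0,2,0,0,0,0,0,0,0,0,0,0,0,0,0,0,0,0] [2,3,4,5] [0,1]))) (.deg 13)))) (.far 7 11)) (.split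 (.split (.fin (.split (.split (.split .big (.red [0,0,0,0,0,0,0,0,0,0,0,0,2,0,0,0,0,0,0] [0,2,3,4,5] [1])) (.deg 10)) (.deg 13))) (.pet [[0,4,10],[1],[3],[5],[2],[13],[6],[12],[7],[8]])) (.far 7 11))) (.far 7 8))

theorem ok204 : chkA tbl q204 c204 q204.rt [] [] = true := by decide +kernel

def c205 : CA := .split (.split (.split (.split (.split (.fin (.split .big (.deg 13))) (.fin (.split (.split .big (.deg 12)) (.deg 13)))) (.split (.fin (.split (.split .big (.red [0,0,0,0,0,2,0,0,0,0,0,0,0,0,0,0,0,0] [0,1,2,4,5] [3])) (.deg 13))) (.fin (.split (.split (.split .big (.red [0,0,0,0,0,2,0,0,0,0,0,0,0,0,0,0,0,0,0] [0,1,2,4,5] [3])) (.deg 12)) (.deg 13))))) (.split (.split (.fin (.split (.split .big (.red [1,2,2,1,2,2,2,0,1,2,0,1,0,0,0,0,0,2] [0,1,3,4,5] [2])) (.deg 13))) (.fin (.split (.split (.split .big (.red [0,0,0,0,0,0,0,2,0,0,0,0,2,1,0,2,1,2,0] [0,1,3,4,5]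 [2])) (.deg 12)) (.deg 13)))) (.far 8 9))) (.split (.split (.split (.fin (.split (.split .big (.red [2,1,1,2,2,2,2,2,2,1,1,0,0,0,0,0,0,0] [0,2,3,4,5] [1])) (.deg 13))) (.fin (.split (.split (.split .big (.red [0,0,0,0,2,0,0,0,0,0,0,0,0,1,2,1,2,0,2] [0,2,3,4,5] [1])) (.deg 12)) (.deg 13)))) (.far 7 9)) (.split (.split (.pet [[0],[1,6,10],[3],[4],[2],[5],[11],[8],[9],[7,13]]) (.pet [[0],[1,6],[3],[4],[2,7],[5],[10,12],[8],[9,11],[13]])) (.far 8 9)))) (.split (.split (.split (.split (.fin (.split (.split .big (.iso 212 [1,0,6,3,2,4,5,8,7,9,10,11,13,12] [1,0,4,3,5,6,2,8,7,9,10,11,13,12])) (.deg 13))) (.far 6 12)) (.split (.fin (.split (.split (.split .big (.red [0,0,0,0,0,0,0,0,0,0,0,0,0,0,0,0,0,2,0] [1,2,3,4,5] [0])) (.split (.red [0,0,0,0,0,2,0,0,0,0,0,0,0,0,0,0,0,0,0] [0,1,2,4,5] [3]) (.red [0,0,0,0,0,2,0,0,0,0,0,0,0,0,0,0,0,0,0] [1,2,4,5] [0,3]))) (.deg 13)))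 (.far 6 12))) (.split (.split (.fin (.split (.split (.split .big (.red [2,0,0,0,0,0,0,0,0,0,0,0,0,0,0,0,0,0,0] [1,2,3,4,5] [0])) (.split (.red [2,0,0,0,0,0,0,0,0,0,0,0,0,0,0,0,0,0,0] [0,1,3,4,5] [2]) (.red [0,0,2,0,0,0,0,0,0,0,0,0,0,0,0,0,0,0,0] [1,3,4,5] [0,2]))) (.deg 13))) (.far 6 12)) (.far 8 9))) (.split (.split (.split (.fin (.split (.split (.split .big (.red [0,0,0,0,0,2,0,0,0,0,0,0,0,0,0,0,0,0,0] [1,2,3,4,5] [0])) (.split (.red [0,0,0,0,0,0,0,0,0,0,0,0,0,2,0,0,0,0,0] [0,2,3,4,5] [1]) (.red [0,0,0,0,0,0,0,0,0,0,0,0,0,2,0,0,0,0,0] [2,3,4,5] [0,1]))) (.deg 13))) (.far 6 12)) (.far 7 9)) (.split (.split (.pet [[0],[1,6,10],[3],[4],[2],[5],[11],[8],[9],[7,13]]) (.far 6 12)) (.far 8 9))))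

theorem ok205 : chkA tbl q205 c205 q205.rt [] [] = true := by decide +kernel

def c206 : CA := .split (.split (.split (.split (.split (.fin (.split .big (.deg 13))) (.fin (.split (.split .big (.deg 12)) (.deg 13)))) (.split (.fin (.split (.split .big (.red [0,0,0,0,0,0,0,0,0,0,0,0,0,0,2,0,0,0] [0,1,2,4,5] [3])) (.deg 13))) (.fin (.split (.split (.split .big (.red [0,0,0,0,0,0,0,0,0,0,0,0,0,0,2,0,0,0,0] [0,1,2,4,5] [3])) (.deg 12)) (.deg 13))))) (.split (.split (.fin (.split (.split .big (.red [2,2,2,2,2,2,0,1,2,2,1,1,0,2,2,0,0,2] [0,2,3,4,5] [1])) (.deg 13))) (.pet [[0],[1,7],[3],[4],[2,6],[5],[11],[8,13],[9],[10,12]])) (.far 8 9))) (.split (.split (.split (.fin (.split (.split .big (.iso 211 [1,0,7,3,2,4,5,8,6,9,11,10,13,12] [1,0,4,3,5,6,8,2,7,9,11,10,13,12])) (.deg 13))) (.fin (.split (.split (.split .big (.red [0,0,0,0,0,0,0,2,0,0,0,0,0,0,0,2,1,2,1] [0,1,3,4,5]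 [2])) (.deg 12)) (.deg 13)))) (.far 7 9)) (.split (.split (.fin (.split (.split (.split .big (.red [0,0,0,0,0,0,0,0,0,0,0,0,0,0,2,0,0,0,0] [0,1,3,4,5] [2])) (.split (.red [2,2,2,2,2,2,1,0,2,2,2,2,0,0,2,1,2,0,0] [0,2,3,4,5] [1]) (.red [0,0,0,0,0,0,0,0,0,0,0,0,0,0,2,0,0,0,0] [0,3,4,5] [1,2]))) (.deg 13))) (.pet [[0],[1,7],[3],[4],[2,6],[5],[11],[8,13],[9],[10,12]])) (.far 8 9)))) (.split (.split (.split (.split (.fin (.split (.split .big (.iso 213 [2,0,6,1,4,3,5,7,8,9,10,11,13,12] [1,3,0,5,4,6,2,7,8,9,10,11,13,12])) (.deg 13))) (.far 6 12)) (.split (.fin (.split (.split (.split .big (.red [0,0,0,0,0,0,0,0,0,0,0,0,0,0,2,0,0,0,0] [1,2,3,4,5] [0])) (.split (.red [0,0,0,0,0,0,0,0,0,0,0,0,0,0,2,0,0,0,0] [0,1,2,4,5] [3]) (.red [0,0,0,2,0,0,0,0,0,0,0,0,0,0,0,0,0,0,0] [1,2,4,5] [0,3]))) (.deg 13))) (.far 6 12))) (.split (.split (.pet [[0],[1,7],[3],[4],[2],[5],[11],[8],[9],[6,10,13]])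 (.far 6 12)) (.far 8 9))) (.split (.split (.split (.fin (.split (.split (.split .big (.red [0,0,0,0,0,0,0,0,0,0,0,0,0,2,0,0,0,0,0] [1,2,3,4,5] [0])) (.split (.red [2,0,0,0,0,0,0,0,0,0,0,0,0,0,0,0,0,0,0] [0,1,3,4,5] [2]) (.red [2,0,0,0,0,0,0,0,0,0,0,0,0,0,0,0,0,0,0] [1,3,4,5] [0,2]))) (.deg 13))) (.far 6 12)) (.far 7 9)) (.split (.split (.pet [[0],[1],[3],[4],[2,6],[5],[7,11],[8],[9],[13]]) (.far 6 12)) (.far 8 9))))

theorem ok206 : chkA tbl q206 c206 q206.rt [] [] = true := by decide +kernel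

def c207 : CA := .split (.split (.split (.split (.split (.fin (.split .big (.deg 13))) (.fin (.split (.split .big (.deg 12)) (.deg 13)))) (.split (.fin (.split (.split .big (.iso 212 [0,1,5,2,3,4,6,7,8,9,11,10,12,13] [0,1,3,4,5,2,6,7,8,9,11,10,12,13])) (.deg 13))) (.far 11 12))) (.split (.split (.fin (.split (.split .big (.red [0,0,0,0,0,0,2,0,0,0,0,0,0,0,0,0,0,0] [0,1,2,4,5] [3])) (.deg 13))) (.fin (.split (.split (.split .big (.red [0,0,0,0,0,0,2,0,0,0,0,0,0,0,0,0,0,0,0] [0,1,2,4,5] [3])) (.deg 12)) (.deg 13)))) (.far 9 11))) (.split (.split (.split (.fin (.split (.split .big (.red [2,1,1,2,2,2,2,2,1,2,1,0,0,0,0,0,0,0] [0,1,3,4,5] [2])) (.deg 13))) (.fin (.split (.split (.split .big (.red [2,2,2,2,2,2,2,2,2,2,0,0,2,0,2,0,1,0,1] [0,1,3,4,5] [2])) (.deg 12)) (.deg 13)))) (.far 8 11)) (.far 8 9))) (.split (.split (.split (.split (.fin (.split (.split .big (.red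 [1,2,2,2,1,2,2,1,2,0,0,1,0,0,0,0,0,2] [0,2,3,4,5] [1])) (.deg 13))) (.fin (.split (.split (.split .big (.red [2,2,2,2,2,2,2,2,2,2,0,0,2,0,2,0,1,0,1] [0,2,3,4,5] [1])) (.deg 12)) (.deg 13)))) (.split (.fin (.split (.split (.split .big (.red [0,0,0,0,0,0,2,0,0,0,0,0,0,0,0,0,0,0,0] [0,2,3,4,5] [1])) (.split (.red [0,0,0,0,0,0,2,0,0,0,0,0,0,0,0,0,0,0,0] [0,1,2,3,5] [4]) (.red [0,2,0,0,0,0,0,0,0,0,0,0,0,0,0,0,0,0,0] [0,2,3,5] [1,4]))) (.deg 13))) (.far 11 12))) (.far 7 9)) (.split (.split (.split (.pet [[0,5,11],[1],[3],[4],[2],[10],[6],[8],[9],[7,13]]) (.pet [[0,5,11],[1],[3],[4],[2],[10],[6],[8],[9],[7,13]])) (.far 8 11)) (.far 8 9)))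

theorem ok207 : chkA tbl q207 c207 q207.rt [] [] = true := by decide +kernel

def c208 : CA := .split (.split (.split (.split (.split (.fin (.split .big (.deg 13))) (.fin (.split (.split .big (.deg 12)) (.deg 13)))) (.split (.fin (.split (.split .big (.iso 213 [1,0,5,2,3,4,6,8,7,9,11,10,12,13] [1,0,3,4,5,2,6,8,7,9,11,10,12,13])) (.deg 13))) (.far 11 12))) (.split (.split (.fin (.split (.split .big (.red [0,0,0,0,0,0,0,0,0,0,0,0,0,2,0,0,0,0] [0,1,3,4,5] [2])) (.deg 13))) (.fin (.split (.split (.split .big (.red [0,0,0,0,0,0,0,0,0,0,0,0,0,2,0,0,0,0,0] [0,1,3,4,5] [2])) (.deg 12)) (.deg 13)))) (.far 9 11))) (.split (.split (.split (.fin (.split (.split .big (.red [1,2,2,1,2,2,0,0,0,2,1,0,0,0,1,2,2,0] [0,1,2,3,5] [4])) (.deg 13))) (.fin (.split (.split (.split .big (.red [0,0,0,0,0,0,2,0,0,0,0,0,0,0,0,0,0,0,0] [0,1,2,3,5] [4])) (.deg 12)) (.deg 13)))) (.far 8 11))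 (.far 8 9))) (.split (.split (.split (.split (.fin (.split (.split .big (.red [2,2,2,2,2,2,2,2,2,1,1,1,2,2,0,0,0,0] [1,2,3,4,5] [0])) (.deg 13))) (.pet [[0],[1],[3],[4],[2,8],[6],[5,11,12,13],[9],[7],[10]])) (.split (.pet [[0],[1,5],[3],[4],[2,8],[6],[11],[9],[7,13],[10]]) (.far 11 12))) (.far 7 9)) (.split (.split (.split (.fin (.split (.split (.split .big (.red [2,2,2,2,2,1,2,2,2,0,2,2,0,2,0,1,2,0,0] [1,2,3,4,5] [0])) (.split (.red [0,0,0,0,0,0,0,0,0,0,0,0,0,2,0,0,0,0,0] [0,1,2,3,5] [4]) (.red [0,0,0,0,0,0,0,0,0,0,0,0,0,2,0,0,0,0,0] [1,2,3,5] [0,4]))) (.deg 13))) (.pet [[0],[1,5,12],[3],[4],[2],[6],[13],[9],[7],[8,10]])) (.far 8 11)) (.far 8 9)))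

theorem ok208 : chkA tbl q208 c208 q208.rt [] [] = true := by decide +kernel

def c209 : CA := .split (.split (.split (.split (.split (.fin (.split .big (.deg 13))) (.fin (.split (.split .big (.deg 12)) (.deg 13)))) (.split (.fin (.split (.split .big (.deg 11)) (.deg 13))) (.fin (.split (.split (.split .big (.deg 11)) (.deg 12)) (.deg 13))))) (.split (.split (.fin (.split (.split .big (.red [0,0,0,0,0,0,0,0,0,0,0,0,0,2,0,0,0] [0,1,2,4,5] [3])) (.deg 13))) (.far 9 12)) (.split (.fin (.split (.split (.split .big (.red [0,0,0,0,0,0,0,0,0,0,0,0,0,2,0,0,0,0] [0,1,2,4,5] [3])) (.deg 11)) (.deg 13))) (.far 9 12)))) (.split (.split (.split (.fin (.split (.split .big (.red [2,2,2,1,2,2,2,2,2,2,1,1,2,2,0,0,0] [0,1,3,4,5] [2])) (.deg 13))) (.fin (.split (.split (.split .big (.red [2,2,2,1,2,2,2,2,2,2,1,1,2,2,0,0,0,0] [0,1,3,4,5] [2])) (.deg 12)) (.deg 13)))) (.split (.fin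 (.split (.split (.split .big (.red [0,0,0,0,0,0,0,0,0,0,0,0,2,1,0,0,1,0] [0,1,3,4,5] [2])) (.deg 11)) (.deg 13))) (.fin (.split (.split (.split (.split .big (.red [2,0,0,0,0,0,0,0,0,0,0,0,0,0,0,0,0,0,0] [0,1,3,4,5] [2])) (.deg 11)) (.deg 12)) (.split (.split (.split (.red [0,0,0,0,0,0,0,0,0,0,0,0,2,0,0,0,0,0,0] [1,2,3,4,5] [0]) (.red [0,0,2,0,0,0,0,0,0,0,0,0,0,0,0,0,0,0,0] [1,3,4,5] [0,2])) (.deg 11)) (.deg 12)))))) (.far 8 9))) (.split (.split (.split (.split (.fin (.split (.split .big (.deg 7)) (.deg 13))) (.fin (.split (.split (.split .big (.deg 7)) (.deg 12)) (.deg 13)))) (.split (.fin (.split (.split (.split .big (.deg 7)) (.deg 11)) (.deg 13))) (.fin (.split (.split (.split (.split .big (.deg 7)) (.deg 11)) (.deg 12)) (.split (.split (.split (.red [0,0,0,2,0,0,0,0,0,0,0,0,0,0,1,0,1,2,2] [1,2,3,4,5] [0]) (.deg 7)) (.deg 11)) (.deg 12)))))) (.split (.split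 (.fin (.split (.split (.split .big (.deg 7)) (.split (.red [0,0,0,0,0,0,0,0,0,0,0,0,0,2,0,0,0,0] [0,1,2,4,5] [3]) (.deg 7))) (.deg 13))) (.far 9 12)) (.split (.fin (.split (.split (.split (.split .big (.deg 7)) (.split (.red [0,0,0,0,0,0,2,0,0,0,0,0,0,0,0,0,0,0,0] [0,1,2,4,5] [3]) (.deg 7))) (.deg 11)) (.split (.split (.split (.red [0,0,0,0,0,0,0,0,0,0,0,0,0,2,0,0,0,0,0] [1,2,3,4,5] [0]) (.deg 7)) (.split (.red [0,0,0,0,0,0,2,0,0,0,0,0,0,0,0,0,0,0,0] [1,2,4,5] [0,3]) (.deg 7))) (.deg 11)))) (.far 9 12)))) (.split (.split (.split (.fin (.split (.split (.split .big (.deg 7)) (.split (.red [0,0,0,0,0,0,0,0,0,0,0,0,0,0,0,0,0,2] [0,1,3,4,5] [2]) (.deg 7))) (.deg 13))) (.pet [[0,4],[1],[2,7],[5],[3],[10,12],[6],[13],[9],[8]])) (.split (.pet [[0],[1],[2,7],[5],[3],[4,10,11],[6],[13],[9],[8]]) (.pet [[0,4],[1],[2,7],[5],[3],[10,12],[6],[13],[9],[8]]))) (.far 8 9)))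

theorem ok209 : chkA tbl q209 c209 q209.rt [] [] = true := by decide +kernel

def c210 : CA := .split (.split (.split (.split (.split (.fin (.split .big (.deg 13))) (.fin (.split (.split .big (.deg 12)) (.deg 13)))) (.split (.fin (.split (.split .big (.deg 11)) (.deg 13))) (.fin (.split (.split (.split .big (.deg 11)) (.deg 12)) (.deg 13))))) (.split (.split (.fin (.split (.split .big (.red [2,2,2,0,2,2,2,0,2,2,1,1,0,2,0,0,0] [0,1,2,3,4] [5])) (.deg 13))) (.far 9 12)) (.split (.fin (.split (.split (.split .big (.red [2,2,2,0,2,2,2,0,2,2,1,1,0,2,0,0,0,0] [0,1,2,3,4] [5])) (.deg 11)) (.deg 13))) (.far 9 12)))) (.split (.split (.split (.fin (.split (.split .big (.red [1,2,2,2,1,2,2,2,2,1,1,0,0,0,0,0,0] [0,1,3,4,5] [2])) (.deg 13))) (.fin (.split (.split (.split .big (.red [2,2,2,1,2,2,2,0,2,2,2,2,2,1,2,0,0,0] [0,1,3,4,5] [2])) (.deg 12)) (.deg 13)))) (.split (.fin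 (.split (.split (.split .big (.red [2,2,2,1,2,2,2,0,2,2,2,2,2,0,0,0,2,1] [0,1,3,4,5] [2])) (.deg 11)) (.deg 13))) (.fin (.split (.split (.split (.split .big (.red [0,0,0,0,0,0,0,0,0,0,0,0,0,0,0,0,2,0,0] [0,1,3,4,5] [2])) (.deg 11)) (.deg 12)) (.split (.split (.split (.red [0,0,0,0,0,0,2,0,0,0,0,0,0,0,0,0,0,0,0] [1,2,3,4,5] [0]) (.red [0,0,0,0,0,0,2,0,0,0,0,0,0,0,0,0,0,0,0] [1,3,4,5] [0,2])) (.deg 11)) (.deg 12)))))) (.far 8 9))) (.split (.split (.split (.split (.fin (.split (.split .big (.deg 7)) (.deg 13))) (.fin (.split (.split (.split .big (.deg 7)) (.deg 12)) (.deg 13)))) (.split (.fin (.split (.split (.split .big (.deg 7)) (.deg 11)) (.deg 13))) (.fin (.split (.split (.split (.split .big (.deg 7)) (.deg 11)) (.deg 12)) (.split (.split (.split (.red [0,0,0,0,0,0,2,0,0,0,0,0,0,0,0,0,0,0,0] [1,2,3,4,5] [0]) (.deg 7)) (.deg 11)) (.deg 12)))))) (.split (.split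 (.fin (.split (.split (.split .big (.deg 7)) (.split (.red [0,0,0,0,0,0,0,0,0,0,0,0,0,0,0,0,2,0] [0,1,2,3,4] [5]) (.deg 7))) (.deg 13))) (.far 9 12)) (.split (.fin (.split (.split (.split (.split .big (.deg 7)) (.split (.red [0,0,0,0,0,0,0,0,0,0,0,0,0,0,0,0,0,2,0] [0,1,2,3,4] [5]) (.deg 7))) (.deg 11)) (.split (.split (.split (.red [0,0,0,0,0,0,0,0,0,0,0,0,0,0,0,0,0,2,0] [1,2,3,4,5] [0]) (.deg 7)) (.split (.red [0,0,2,0,0,0,0,0,0,0,0,0,0,0,0,0,0,0,0] [1,2,3,4] [0,5]) (.deg 7))) (.deg 11)))) (.far 9 12)))) (.split (.split (.split (.fin (.split (.split (.split .big (.deg 7)) (.split (.red [2,2,2,1,2,2,2,0,2,2,2,2,2,1,2,0,0,0] [0,1,3,4,5] [2]) (.deg 7))) (.deg 13))) (.fin (.split (.split (.split (.split .big (.deg 7)) (.split (.red [2,2,2,1,2,2,2,0,2,2,2,2,2,1,2,0,0,0,0] [0,1,3,4,5] [2]) (.deg 7))) (.deg 12)) (.split (.split (.split (.red [2,0,0,0,0,0,0,0,0,0,0,0,0,0,0,0,0,0,0]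 [1,2,3,4,5] [0]) (.deg 7)) (.split (.red [2,0,0,0,0,0,0,0,0,0,0,0,0,0,0,0,0,0,0] [1,3,4,5] [0,2]) (.deg 7))) (.deg 12))))) (.split (.fin (.split (.split (.split (.split .big (.deg 7)) (.split (.red [2,0,0,0,0,0,0,0,0,0,0,0,0,0,0,0,0,0,0] [0,1,3,4,5] [2]) (.deg 7))) (.deg 11)) (.split (.split (.split (.red [2,0,0,0,0,0,0,0,0,0,0,0,0,0,0,0,0,0,0] [1,2,3,4,5] [0]) (.deg 7)) (.split (.red [2,0,0,0,0,0,0,0,0,0,0,0,0,0,0,0,0,0,0] [1,3,4,5] [0,2]) (.deg 7))) (.deg 11)))) (.fin (.split (.split (.split (.split (.split .big (.deg 7)) (.split (.red [2,0,0,0,0,0,0,0,0,0,0,0,0,0,0,0,0,0,0,0] [0,1,3,4,5] [2]) (.deg 7))) (.deg 11)) (.deg 12)) (.split (.split (.split (.split (.red [2,0,0,0,0,0,0,0,0,0,0,0,0,0,0,0,0,0,0,0] [1,2,3,4,5] [0]) (.deg 7)) (.split (.red [2,0,0,0,0,0,0,0,0,0,0,0,0,0,0,0,0,0,0,0] [1,3,4,5] [0,2]) (.deg 7))) (.deg 11)) (.deg 12)))))) (.far 8 9)))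

theorem ok210 : chkA tbl q210 c210 q210.rt [] [] = true := by decide +kernel

def c211 : CA := .split (.split (.split (.split (.split (.fin (.split .big (.deg 14))) (.fin (.split (.split .big (.deg 13)) (.deg 14)))) (.split (.fin (.split (.split .big (.deg 12)) (.deg 14))) (.fin (.split (.split (.split .big (.deg 12)) (.deg 13)) (.deg 14))))) (.split (.split (.fin (.split (.split .big (.red [0,0,0,0,0,0,0,0,0,0,0,0,0,2,0,0,0,0,0] [0,1,2,3,5] [4])) (.deg 14))) (.fin (.split (.split (.split .big (.red [0,0,0,0,0,0,0,0,0,0,0,0,0,2,0,0,0,0,0,0] [0,1,2,3,5] [4])) (.deg 13)) (.deg 14)))) (.split (.fin (.split (.split (.split .big (.red [0,0,0,0,0,0,0,0,0,0,0,0,0,2,0,0,0,0,0,0] [0,1,2,3,5] [4])) (.deg 12)) (.deg 14))) (.fin (.split (.split (.split (.split .big (.red [0,0,0,0,0,0,0,0,0,0,0,0,0,2,0,0,0,0,0,0,0] [0,1,2,3,5] [4])) (.deg 12)) (.deg 13)) (.split (.split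 (.split (.red [0,0,0,0,0,0,2,0,0,0,0,0,0,0,0,0,0,0,0,0,0] [0,1,2,3,4] [5]) (.red [0,0,0,0,0,0,0,0,0,0,0,0,0,2,0,0,0,0,0,0,0] [0,1,2,3] [4,5])) (.deg 12)) (.deg 13))))))) (.split (.split (.split (.fin (.split (.split .big (.red [2,2,1,1,2,2,0,0,0,2,1,0,0,0,1,2,0,0,2] [0,1,2,4,5] [3])) (.deg 14))) (.far 8 13)) (.split (.fin (.split (.split (.split .big (.red [0,0,0,0,0,0,2,0,0,0,0,0,0,0,0,0,0,0,0,0] [0,1,2,4,5] [3])) (.deg 12)) (.deg 14))) (.far 8 13))) (.split (.split (.fin (.split (.split (.split .big (.red [0,0,0,0,0,0,0,0,0,0,0,0,0,2,0,0,0,0,0,0] [0,1,2,4,5] [3])) (.split (.red [0,0,0,0,0,0,0,0,0,0,0,0,0,2,0,0,0,0,0,0] [0,1,2,3,5] [4]) (.red [0,0,0,2,0,0,0,0,0,0,0,0,0,0,0,0,0,0,0,0] [0,1,2,5] [3,4]))) (.deg 14))) (.far 8 13)) (.split (.fin (.split (.split (.split (.split .big (.red [2,0,0,0,0,0,0,0,0,0,0,0,0,0,0,0,0,0,0,0,0] [0,1,2,4,5] [3])) (.split (.red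 [2,0,0,0,0,0,0,0,0,0,0,0,0,0,0,0,0,0,0,0,0] [0,1,2,3,5] [4]) (.red [0,0,0,2,0,0,0,0,0,0,0,0,0,0,0,0,0,0,0,0,0] [0,1,2,5] [3,4]))) (.deg 12)) (.split (.split (.split (.red [2,0,0,0,0,0,0,0,0,0,0,0,0,0,0,0,0,0,0,0,0] [0,1,2,3,4] [5]) (.red [0,0,0,2,0,0,0,0,0,0,0,0,0,0,0,0,0,0,0,0,0] [0,1,2,4] [3,5])) (.split (.red [2,0,0,0,0,0,0,0,0,0,0,0,0,0,0,0,0,0,0,0,0] [0,1,2,3] [4,5]) (.clo 0 1 (.deg 13)))) (.deg 12)))) (.far 8 13))))) (.split (.split (.split (.split (.fin (.split (.split .big (.red [2,1,2,2,2,2,2,2,2,0,1,1,2,2,0,0,0,0,2] [0,2,3,4,5] [1])) (.deg 14))) (.pet [[0,2],[1],[4,8],[5],[3],[10],[6],[11,13],[9],[7,14]])) (.split (.fin (.split (.split (.split .big (.red [2,2,2,2,2,2,2,2,2,1,2,0,2,0,0,1,0,2,0,0] [0,2,3,4,5] [1])) (.deg 12)) (.deg 14))) (.pet [[0,2],[1],[4,8],[5],[3],[10],[6],[11,13],[9],[7,14]]))) (.far 7 9)) (.split (.split (.split (.pet [[0,2],[1],[4],[5],[3],[10],[6],[8,11],[9],[7,14]])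 (.far 8 13)) (.split (.pet [[0,2],[1],[4],[5],[3],[10],[6],[8,11],[9],[7,14]]) (.far 8 13))) (.far 7 9)))

theorem ok211 : chkA tbl q211 c211 q211.rt [] [] = true := by decide +kernel

def c212 : CA := .split (.split (.split (.split (.split (.fin (.split .big (.deg 14))) (.fin (.split (.split .big (.deg 13)) (.deg 14)))) (.split (.fin (.split (.split .big (.deg 12)) (.deg 14))) (.fin (.split (.split (.split .big (.deg 12)) (.deg 13)) (.deg 14))))) (.split (.split (.fin (.split (.split .big (.red [0,0,0,0,0,0,2,0,0,0,0,0,0,0,0,0,0,0,0] [0,1,2,3,5] [4])) (.deg 14))) (.fin (.split (.split (.split .big (.red [0,0,0,0,0,0,2,0,0,0,0,0,0,0,0,0,0,0,0,0] [0,1,2,3,5] [4])) (.deg 13)) (.deg 14)))) (.split (.fin (.split (.split (.split .big (.red [0,0,0,0,0,0,2,0,0,0,0,0,0,0,0,0,0,0,0,0] [0,1,2,3,5] [4])) (.deg 12)) (.deg 14))) (.fin (.split (.split (.split (.split .big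 (.red [2,0,0,0,0,0,0,0,0,0,0,0,0,0,0,0,0,0,0,0,0] [0,1,2,3,5] [4])) (.deg 12)) (.deg 13)) (.split (.split (.split (.red [0,0,0,0,0,0,0,0,0,0,0,0,0,0,0,0,0,2,0,0,0] [1,2,3,4,5] [0]) (.red [2,0,0,0,0,0,0,0,0,0,0,0,0,0,0,0,0,0,0,0,0] [1,2,3,5] [0,4])) (.deg 12)) (.deg 13))))))) (.split (.split (.split (.fin (.split (.split .big (.red [2,2,1,1,2,2,2,2,1,2,1,0,0,0,0,0,0,0,0] [0,1,2,4,5] [3])) (.deg 14))) (.fin (.split (.split (.split .big (.red [2,1,2,2,2,2,2,2,2,1,2,2,2,2,0,0,0,0,0,0] [0,1,2,4,5] [3])) (.deg 13)) (.deg 14)))) (.split (.fin (.split (.split (.split .big (.red [2,2,2,2,2,2,2,2,0,2,0,0,2,2,0,2,1,0,0,1] [0,1,2,4,5] [3])) (.deg 12)) (.deg 14))) (.fin (.split (.split (.split (.split .big (.red [0,2,0,0,0,0,0,0,0,0,0,0,0,0,0,0,0,0,0,0,0] [0,1,2,4,5] [3])) (.deg 12)) (.deg 13)) (.split (.split (.split (.red [2,0,0,0,0,0,0,0,0,0,0,0,0,0,0,0,0,0,0,0,0] [1,2,3,4,5]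 [0]) (.red [0,0,0,2,0,0,0,0,0,0,0,0,0,0,0,0,0,0,0,0,0] [1,2,4,5] [0,3])) (.deg 12)) (.deg 13)))))) (.far 8 9))) (.split (.split (.split (.split (.fin (.split (.split .big (.red [1,2,2,2,2,1,2,1,2,0,0,1,0,0,0,0,0,0,2] [0,2,3,4,5] [1])) (.deg 14))) (.fin (.split (.split (.split .big (.red [0,0,0,0,0,0,0,0,0,2,0,0,2,1,0,2,0,1,2,0] [0,2,3,4,5] [1])) (.deg 13)) (.deg 14)))) (.split (.fin (.split (.split (.split .big (.red [2,2,2,2,2,2,2,2,2,2,0,0,2,0,0,2,1,0,0,1] [0,2,3,4,5] [1])) (.deg 12)) (.deg 14))) (.fin (.split (.split (.split (.split .big (.red [0,2,0,0,0,0,0,0,0,0,0,0,0,0,0,0,0,0,0,0,0] [0,2,3,4,5] [1])) (.deg 12)) (.deg 13)) (.split (.split (.split (.red [2,0,0,0,0,0,0,0,0,0,0,0,0,0,0,0,0,0,0,0,0] [1,2,3,4,5] [0]) (.red [0,0,2,0,0,0,0,0,0,0,0,0,0,0,0,0,0,0,0,0,0] [2,3,4,5] [0,1])) (.deg 12)) (.deg 13)))))) (.far 7 9)) (.split (.split (.split (.pet [[0,2,10],[1],[4],[5],[3],[11],[6],[8],[9],[7,14]])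 (.pet [[0,2],[1],[4,8],[5],[3],[10,13],[6],[14],[9,11],[7]])) (.split (.pet [[0,2,10],[1],[4],[5],[3],[11],[6],[8],[9],[7,14]]) (.pet [[0,2],[1],[4,8],[5],[3],[10,13],[6],[14],[9,11],[7]]))) (.far 8 9)))

theorem ok212 : chkA tbl q212 c212 q212.rt [] [] = true := by decide +kernel

end Pool.Agent.TH395.P5
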