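import Pool.Agent.H79.LF.TH399_P5_Bits

set_option autoImplicit false
set_option linter.unusedSectionVars false
set_option exponentiation.threshold 5000

/-! # Soundness of the boundary vector test (PF-A) -/

namespace Pool.Agent.TH399.P5.FLOW

open Finset Pool.Agent.TH462.T4 Pool.Agent.TH676.T4 Pool.Agent.TH395.P5

theorem tb_lt {x c : ℕ} (hx : x < 2 ^ 4096) (h : x.testBit c = true) : c < 4096 := by
  by_contra hc
  rw [Nat.testBit_lt_two_pow (lt_of_lt_of_le hx (Nat.pow_le_pow_right (by norm_num)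
    (not_lt.mp hc)))] at h
  exact Bool.noConfusion h

theorem fl_bit {b x c : ℕ} (hb : b < 12) (hc : c < 4096) :
    (fl b (fmL.getD b 0) x).testBit c = x.testBit (c ^^^ 2 ^ b) := by
  have h := chk_of chkF b c hb hc
  unfold cond at h
  generalize fmL.getD b 0 = m at h ⊢
  have e : (fl b m x).testBit c =
      ((decide (2 ^ b ≤ c) && (x.testBit (c - 2 ^ b) && m.testBit (c - 2 ^ b))) ||
        (x.testBit (2 ^ b + c) && m.testBit c)) := by
    show (((x &&& m) <<< (2 ^ b)) ||| ((x >>> (2 ^ b)) &&& m)).testBit c = _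
    rw [Nat.testBit_or, Nat.testBit_shiftLeft, Nat.testBit_and, Nat.testBit_and,
      Nat.testBit_shiftRight]
  rw [e]
  rw [Bool.and_eq_true, Bool.or_eq_true] at h
  rcases h.1 with h1 | h1
  · simp only [Bool.and_eq_true, decide_eq_true_eq, Bool.not_eq_true'] at h1
    obtain ⟨⟨⟨⟨-, h2⟩, h3⟩, h4⟩, h5⟩ := h1
    rw [h3, h4, h5]
    simp [h2]
  · simp only [Bool.and_eq_true, decide_eq_true_eq, Bool.not_eq_true', Bool.or_eq_true,
      decide_eq_false_iff_not] at h1
    obtain ⟨⟨⟨-, h2⟩, h3⟩, h5⟩ := h1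
    rw [h3, h5]
    rcases h2 with h2 | h2
    · simp [h2]
    · simp [h2]

theorem fl_lt {b x : ℕ} (hb : b < 12) (hx : x < 2 ^ 4096) :
    fl b (fmL.getD b 0) x < 2 ^ 4096 := by
  refine Nat.lt_pow_two_of_testBit _ fun c hc => ?_
  have h := fun c => chk_of chkF b c hb
  unfold cond at h
  generalize fmL.getD b 0 = m at h ⊢
  show (((x &&& m) <<< (2 ^ b)) ||| ((x >>> (2 ^ b)) &&& m)).testBit c = _
  rw [Nat.testBit_or, Nat.testBit_shiftLeft, Nat.testBit_and, Nat.testBit_and,
      Nat.testBit_shiftRight]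
  rw [Bool.or_eq_false_iff]
  constructor
  · by_contra hcon
    rw [Bool.not_eq_false] at hcon
    simp only [Bool.and_eq_true, decide_eq_true_eq] at hcon
    obtain ⟨h1, h2, h3⟩ := hcon
    have h4 := tb_lt hx h2
    have h5 := h _ h4
    rw [Bool.and_eq_true] at h5
    have h6 := h5.2
    rw [h3] at h6
    simp only [Bool.not_true, Bool.or_false, decide_eq_true_eq] at h6
    rw [Nat.sub_add_cancel h1] at h6
    exact absurd h6 (not_lt.mpr hc)
  · by_contra hcon
    rw [Bool.not_eq_false] at hcon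
    simp only [Bool.and_eq_true] at hcon
    have h4 := tb_lt hx hcon.1
    exact absurd (lt_of_le_of_lt (Nat.le_add_left c _) h4) (not_lt.mpr hc)

theorem xor_lt {c b : ℕ} (hc : c < 4096) (hb : b < 12) : c ^^^ 2 ^ b < 4096 :=
  Nat.xor_lt_two_pow (n := 12) hc (Nat.pow_lt_pow_right (by norm_num) hb)

theorem fl2_lt {a b x : ℕ} (ha : a < 12) (hb : b < 12) (hx : x < 2 ^ 4096) :
    fl2 a b x < 2 ^ 4096 := by
  unfold fl2
  rw [fz_eq]
  exact fl_lt hb (fl_lt ha hx)

theorem fl2_bit {a b x c : ℕ} (ha : a < 12) (hb : b < 12) (hc : c < 4096) :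
    (fl2 a b x).testBit c = x.testBit ((c ^^^ 2 ^ b) ^^^ 2 ^ a) := by
  unfold fl2
  rw [fz_eq, fl_bit hb hc, fl_bit ha (xor_lt hc hb)]

theorem eS_eq (i j M : ℕ) : eS i j M = Nat.lor (fl2 (2 * i) (2 * j) M)
    (Nat.lor (fl2 (2 * i + 1) (2 * j + 1) M)
      (fl2 (2 * i + 1) (2 * j + 1) (fl2 (2 * i) (2 * j) M))) := by
  unfold eS
  rw [fz_eq, fz_eq, fz_eq]

theorem eS_lt {i j M : ℕ} (hi : i < 6) (hj : j < 6) (hM : M < 2 ^ 4096) :
    eS i j M < 2 ^ 4096 := by
  rw [eS_eq]
  have h1 := fl2_lt (show 2 * i < 12 by omega) (show 2 * j < 12 by omega) hM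
  have h2 := fl2_lt (show 2 * i + 1 < 12 by omega) (show 2 * j + 1 < 12 by omega) hM
  have h3 := fl2_lt (show 2 * i + 1 < 12 by omega) (show 2 * j + 1 < 12 by omega) h1
  exact Nat.or_lt_two_pow h1 (Nat.or_lt_two_pow h2 h3)

/-- add `(1, 0)` at the slots `i` and `j` -/
def oA (i j c : ℕ) : ℕ := (c ^^^ 2 ^ (2 * j)) ^^^ 2 ^ (2 * i)

/-- add `(0, 1)` at the slots `i` and `j` -/
def oB (i j c : ℕ) : ℕ := (c ^^^ 2 ^ (2 * j + 1)) ^^^ 2 ^ (2 * i + 1)

theorem oA_lt {i j c : ℕ} (hi : i < 6) (hj : j < 6) (hc : c < 4096) : oA i j c < 4096 :=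
  xor_lt (xor_lt hc (by omega)) (by omega)

theorem oB_lt {i j c : ℕ} (hi : i < 6) (hj : j < 6) (hc : c < 4096) : oB i j c < 4096 :=
  xor_lt (xor_lt hc (by omega)) (by omega)

theorem xinv (c x y : ℕ) : (((c ^^^ x) ^^^ y) ^^^ x) ^^^ y = c := by
  apply Nat.eq_of_testBit_eq
  intro n
  rw [Nat.testBit_xor, Nat.testBit_xor, Nat.testBit_xor, Nat.testBit_xor]
  cases c.testBit n <;> cases x.testBit n <;> cases y.testBit n <;> rfl

theorem oA_oA (i j c : ℕ) : oA i j (oA i j c) = c := xinv _ _ _

theorem oB_oB (i j c : ℕ) : oB i j (oB i j c) = c := xinv _ _ _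

theorem eS_bit {i j M c : ℕ} (hi : i < 6) (hj : j < 6) (hc : c < 4096) :
    (eS i j M).testBit c =
      (M.testBit (oA i j c) || (M.testBit (oB i j c) || M.testBit (oA i j (oB i j c)))) := by
  rw [eS_eq]
  have e : ∀ x y z : ℕ, (Nat.lor x (Nat.lor y z)).testBit c =
      (x.testBit c || (y.testBit c || z.testBit c)) := by
    intro x y z
    show (x ||| (y ||| z)).testBit c = _
    rw [Nat.testBit_or, Nat.testBit_or]
  rw [e, fl2_bit (by omega) (by omega) hc, fl2_bit (by omega) (by omega) hc,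
    fl2_bit (by omega) (by omega) hc,
    fl2_bit (by omega) (by omega) (xor_lt (xor_lt hc (by omega)) (by omega))]
  rfl

theorem xor_tb (c a n : ℕ) : (c ^^^ 2 ^ a).testBit n = (c.testBit n ^^ decide (a = n)) := by
  rw [Nat.testBit_xor, Nat.testBit_two_pow]

/-- the value added -/
def ad (i j : ℕ) (t : K4) (l : ℕ) : K4 := (if l = i then t else 0) + (if l = j then t else 0)

theorem bA : ∀ x y p q : Bool, (((if ((x ^^ q) ^^ p) = true then 1 else 0),
    (if ((y ^^ false) ^^ false) = true then 1 else 0)) : K4) =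
    ((if x = true then 1 else 0), (if y = true then 1 else 0)) +
      ((if p = true then (1, 0) else 0) + (if q = true then (1, 0) else 0)) := by decide

theorem bB : ∀ x y p q : Bool, (((if ((x ^^ false) ^^ false) = true then 1 else 0),
    (if ((y ^^ q) ^^ p) = true then 1 else 0)) : K4) =
    ((if x = true then 1 else 0), (if y = true then 1 else 0)) +
      ((if p = true then (0, 1) else 0) + (if q = true then (0, 1) else 0)) := by decide

theorem kv_A (c i j : ℕ) (l : ℕ) : kv (oA i j c) l = kv c l + ad i j (1, 0) l := by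
  unfold kv ad oA
  rw [xor_tb, xor_tb, xor_tb, xor_tb]
  have e1 : decide (2 * i = 2 * l + 1) = false := by
    rw [decide_eq_false_iff_not]; omega
  have e2 : decide (2 * j = 2 * l + 1) = false := by
    rw [decide_eq_false_iff_not]; omega
  have e3 : decide (2 * i = 2 * l) = decide (l = i) := by
    rw [decide_eq_decide]; omega
  have e4 : decide (2 * j = 2 * l) = decide (l = j) := by
    rw [decide_eq_decide]; omega
  rw [e1, e2, e3, e4, bA]
  simp only [decide_eq_true_eq]

theorem kv_B (c i j : ℕ) (l : ℕ) : kv (oB i j c) l = kv c l + ad i j (0, 1) l := by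
  unfold kv ad oB
  rw [xor_tb, xor_tb, xor_tb, xor_tb]
  have e1 : decide (2 * i + 1 = 2 * l) = false := by
    rw [decide_eq_false_iff_not]; omega
  have e2 : decide (2 * j + 1 = 2 * l) = false := by
    rw [decide_eq_false_iff_not]; omega
  have e3 : decide (2 * i + 1 = 2 * l + 1) = decide (l = i) := by
    rw [decide_eq_decide]; omega
  have e4 : decide (2 * j + 1 = 2 * l + 1) = decide (l = j) := by
    rw [decide_eq_decide]; omega
  rw [e1, e2, e3, e4, bB]
  simp only [decide_eq_true_eq]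

theorem ad_add (i j : ℕ) (s t : K4) (l : ℕ) : ad i j s l + ad i j t l = ad i j (s + t) l := by
  unfold ad
  split_ifs <;> abel

theorem add_cancel (x y : K4) : (x + y) + y = x := by
  rw [add_assoc, K4.add_self, add_zero]

theorem eS_under {i j M c : ℕ} (hi : i < 6) (hj : j < 6) (hM : M < 2 ^ 4096)
    (h : (eS i j M).testBit c = true) :
    ∃ c0 t, t ≠ 0 ∧ M.testBit c0 = true ∧ ∀ l, kv c l = kv c0 l + ad i j t l := by
  have hc := tb_lt (eS_lt hi hj hM) h
  rw [eS_bit hi hj hc, Bool.or_eq_true, Bool.or_eq_true] at h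
  rcases h with h | h | h
  · refine ⟨_, (1, 0), by decide, h, fun l => ?_⟩
    rw [kv_A, add_cancel]
  · refine ⟨_, (0, 1), by decide, h, fun l => ?_⟩
    rw [kv_B, add_cancel]
  · refine ⟨_, (1, 1), by decide, h, fun l => ?_⟩
    rw [kv_A, kv_B, add_assoc (kv c l), ad_add]
    show _ = (kv c l + ad i j ((0, 1) + (1, 0)) l) + ad i j (1, 1) l
    have e : (((0, 1) : K4) + (1, 0)) = (1, 1) := by decide
    rw [e, add_cancel]

theorem eS_over {i j M c : ℕ} (hi : i < 6) (hj : j < 6) (hM : M < 2 ^ 4096)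
    (h : M.testBit c = true) (t : K4) (ht : t ≠ 0) :
    ∃ c', (eS i j M).testBit c' = true ∧ ∀ l, kv c' l = kv c l + ad i j t l := by
  have hc := tb_lt hM h
  have h3 : ∀ t : K4, t ≠ 0 → t = (1, 0) ∨ t = (0, 1) ∨ t = (1, 1) := by decide
  rcases h3 t ht with rfl | rfl | rfl
  · refine ⟨oA i j c, ?_, fun l => kv_A c i j l⟩
    rw [eS_bit hi hj (oA_lt hi hj hc), oA_oA, h]
    rfl
  · refine ⟨oB i j c, ?_, fun l => kv_B c i j l⟩
    rw [eS_bit hi hj (oB_lt hi hj hc), oB_oB, h]
    simp
  · refine ⟨oB i j (oA i j c), ?_, fun l => ?_⟩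
    · rw [eS_bit hi hj (oB_lt hi hj (oA_lt hi hj hc)), oB_oB, oA_oA, h]
      simp
    · rw [kv_B, kv_A, add_assoc, ad_add]
      have e : (((1, 0) : K4) + (0, 1)) = (1, 1) := by decide
      rw [e]

theorem eT_eq (m i j M : ℕ) : eT m i j M = if m = 1 then M else if m = 0 then eS i j M else
    Nat.lor M (eS i j M) := by
  unfold eT
  rw [cnd_eq, cnd_eq, fz_eq]
  simp only [Nat.beq_eq]

theorem eT_lt {m i j M : ℕ} (hi : i < 6) (hj : j < 6) (hM : M < 2 ^ 4096) :
    eT m i j M < 2 ^ 4096 := by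
  rw [eT_eq]
  split_ifs
  · exact hM
  · exact eS_lt hi hj hM
  · exact Nat.or_lt_two_pow hM (eS_lt hi hj hM)

theorem eT_over {m i j M c : ℕ} (hi : i < 6) (hj : j < 6) (hM : M < 2 ^ 4096)
    (h : M.testBit c = true) (t : K4) (ht : m = 0 → t ≠ 0) (ht1 : m = 1 → t = 0) :
    ∃ c', (eT m i j M).testBit c' = true ∧ ∀ l, kv c' l = kv c l + ad i j t l := by
  rw [eT_eq]
  have h0 : ∀ l, kv c l = kv c l + ad i j 0 l := by
    intro l
    unfold ad
    simp
  split_ifs with h1 h2
  · rw [ht1 h1]
    exact ⟨c, h, h0⟩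
  · exact eS_over hi hj hM h t (ht h2)
  · by_cases h3 : t = 0
    · rw [h3]
      refine ⟨c, ?_, h0⟩
      show (M ||| eS i j M).testBit c = true
      rw [Nat.testBit_or, h]
      rfl
    · obtain ⟨c', h4, h5⟩ := eS_over hi hj hM h t h3
      refine ⟨c', ?_, h5⟩
      show (M ||| eS i j M).testBit c' = true
      rw [Nat.testBit_or, h4]
      simp

theorem kv_zero {c i : ℕ} : kv c i = 0 ↔ c.testBit (2 * i) = false ∧
    c.testBit (2 * i + 1) = false := by
  unfold kv
  cases c.testBit (2 * i) <;> cases c.testBit (2 * i + 1) <;> simp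

theorem zm_bit {i c : ℕ} (hi : i < 6) (hc : c < 4096) :
    (zmL.getD i 0).testBit c = true ↔ kv c i = 0 := by
  have h := chk_of chkZ i c hi hc
  unfold condZ at h
  rw [beq_iff_eq] at h
  rw [h, kv_zero]
  simp only [Bool.and_eq_true, Bool.not_eq_true']

theorem oS_lt {i M : ℕ} (hM : M < 2 ^ 4096) : oS i M < 2 ^ 4096 :=
  Nat.lt_of_le_of_lt Nat.and_le_left hM

theorem oS_bit {i M c : ℕ} (hi : i < 6) (hM : M < 2 ^ 4096) :
    (oS i M).testBit c = true ↔ M.testBit c = true ∧ kv c i = 0 := by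
  show (M &&& zmL.getD i 0).testBit c = true ↔ _
  rw [Nat.testBit_and, Bool.and_eq_true]
  constructor
  · rintro ⟨h1, h2⟩
    exact ⟨h1, (zm_bit hi (tb_lt hM h1)).mp h2⟩
  · rintro ⟨h1, h2⟩
    exact ⟨h1, (zm_bit hi (tb_lt hM h1)).mpr h2⟩

theorem sub_bit {a b : ℕ} (h : sub a b = true) (c : ℕ) (hc : a.testBit c = true) :
    b.testBit c = true := by
  unfold sub at h
  rw [Nat.beq_eq] at h
  have h1 : (a &&& b).testBit c = a.testBit c := by
    show (Nat.land a b).testBit c = _
    rw [h]
  rw [Nat.testBit_and, hc, Bool.true_and] at h1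
  exact h1

theorem fin_bit {T c : ℕ} (hT : T < 2 ^ 4096) : ∀ us : List ℕ, (∀ i ∈ us, i < 6) →
    T.testBit c = true → (∀ i ∈ us, kv c i = 0) →
    (us.foldr (fun i a => Nat.land a (zmL.getD i 0)) T).testBit c = true := by
  intro us
  induction us with
  | nil => intro _ h _; exact h
  | cons i us ih =>
    intro h1 h2 h3
    rw [List.foldr_cons]
    have h4 := ih (fun i hi => h1 i (List.mem_cons_of_mem _ hi)) h2
      (fun i hi => h3 i (List.mem_cons_of_mem _ hi))
    show ((us.foldr (fun i a => Nat.land a (zmL.getD i 0)) T) &&& zmL.getD i 0).testBit c = true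
    rw [Nat.testBit_and, h4, Bool.true_and, zm_bit (h1 i List.mem_cons_self) (tb_lt hT h2)]
    exact h3 i List.mem_cons_self

/-! ### boundaries -/

section

variable {V E : Type} [Fintype V] [DecidableEq V] [Fintype E] [DecidableEq E]

theorem psh_add (φ : ℕ → V) (act : List ℕ) {c c0 i j : ℕ} (hi : i < 6) (hj : j < 6) (t : K4)
    (h : ∀ l, kv c l = kv c0 l + ad i j t l) (x : V) :
    psh φ act c x = psh φ act c0 x + ((if φ (act.getD i 99) = x then t else 0) +
      (if φ (act.getD j 99) = x then t else 0)) := by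
  unfold psh
  have e : ∀ l ∈ range 6, (if φ (act.getD l 99) = x then kv c l else 0) =
      (if φ (act.getD l 99) = x then kv c0 l else 0) +
      ((if l = i then (if φ (act.getD l 99) = x then t else 0) else 0) +
        (if l = j then (if φ (act.getD l 99) = x then t else 0) else 0)) := by
    intro l _
    rw [h l]
    unfold ad
    by_cases h1 : φ (act.getD l 99) = x
    · simp only [if_pos h1]
    · simp only [if_neg h1]
      by_cases h2 : l = i <;> by_cases h3 : l = j <;> simp [h2, h3]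
  rw [sum_congr rfl e, sum_add_distrib, sum_add_distrib, sum_ite_eq', sum_ite_eq',
    if_pos (mem_range.mpr hi), if_pos (mem_range.mpr hj)]

theorem psh_slot (φ : ℕ → V) (act : List ℕ) (c : ℕ) {i : ℕ} (hi : i < 6)
    (h : ∀ l, l < 6 → φ (act.getD l 99) = φ (act.getD i 99) → l = i) :
    psh φ act c (φ (act.getD i 99)) = kv c i := by
  unfold psh
  rw [sum_eq_single i]
  · rw [if_pos rfl]
  · intro l hl hli
    rw [if_neg]
    exact fun h1 => hli (h l (mem_range.mp hl) h1)
  · intro h1
    exact absurd (mem_range.mpr hi) h1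

theorem psh_congr (φ : ℕ → V) (act act' : List ℕ) (c i : ℕ) (hc : kv c i = 0)
    (h : ∀ l, l ≠ i → act.getD l 99 = act'.getD l 99) (x : V) :
    psh φ act c x = psh φ act' c x := by
  unfold psh
  refine sum_congr rfl fun l _ => ?_
  by_cases hl : l = i
  · rw [hl, hc]
    simp
  · rw [h l hl]

theorem bdF_insert (src dst : E → V) {F : Finset E} {e : E} (he : e ∉ F) (f : E → K4) (x : V) :
    bdF src dst (insert e F) f x =
      bdF src dst F f x + ((if src e = x then f e else 0) + (if dst e = x then f e else 0)) := by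
  unfold bdF
  rw [sum_insert he, add_comm]

theorem jv_con {src dst : E → V} {e : E} {a b : V} (h : JV src dst e a b) (t : K4) (x : V) :
    ((if src e = x then t else 0) + (if dst e = x then t else 0) : K4) =
      (if a = x then t else 0) + (if b = x then t else 0) := by
  rcases h with ⟨h1, h2⟩ | ⟨h1, h2⟩
  · rw [h1, h2]
  · rw [h1, h2, add_comm]

theorem bdF_upd (src dst : E → V) {F : Finset E} {e : E} (he : e ∉ F) (g : E → K4) (t : K4)
    (x : V) : bdF src dst F (Function.update g e t) x = bdF src dst F g x := by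
  unfold bdF
  refine sum_congr rfl fun e' he' => ?_
  have : e' ≠ e := fun h => he (h ▸ he')
  rw [Function.update_of_ne this]

theorem getD_set (act : List ℕ) (i a l : ℕ) (hi : i < act.length) :
    (act.set i a).getD l 99 = if l = i then a else act.getD l 99 := by
  rw [List.getD_eq_getElem?_getD, List.getD_eq_getElem?_getD, List.getElem?_set]
  by_cases h : l = i
  · rw [if_pos h.symm, if_pos h]
    subst h
    rw [if_pos hi]
    rfl
  · rw [if_neg (fun h2 => h h2.symm), if_neg h]

/-- the state during the run -/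
structure St (src dst : E → V) (φ : ℕ → V) (f : E → K4) (N : ℕ) (act : List ℕ) (nx S T : ℕ)
    (L : Finset E) : Prop where
  len : act.length = 6
  nx6 : nx ≤ N
  lt : ∀ l, l < 6 → act.getD l 99 < nx
  nd : ∀ l m, l < 6 → m < 6 → act.getD l 99 = act.getD m 99 → l = m
  S_lt : S < 2 ^ 4096
  T_lt : T < 2 ^ 4096
  old : ∀ e ∈ L, ∃ a b, a < nx ∧ b < nx ∧ JV src dst e (φ a) (φ b)
  un : ∀ c, S.testBit c = true → ∃ g : E → K4, (∀ e ∈ L, g e ≠ 0) ∧
    ∀ x, bdF src dst L g x = psh φ act c x
  ov : (∀ x, (∀ l, l < 6 → φ (act.getD l 99) ≠ x) → bdF src dst L f x = 0) →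
    ∃ c, T.testBit c = true ∧ ∀ x, bdF src dst L f x = psh φ act c x

theorem endNx_le : ∀ (ops : List Op) (nx : ℕ), nx ≤ endNx ops nx := by
  intro ops
  induction ops with
  | nil => intro nx; exact le_rfl
  | cons o l ih =>
    intro nx
    cases o with
    | e u v i j => exact ih nx
    | o i => exact (Nat.le_succ nx).trans (ih (nx + 1))

variable {src dst : E → V} {φ : ℕ → V} {f : E → K4} {N : ℕ}

theorem st_e {act : List ℕ} {nx S T : ℕ}
    {L : Finset E} (h : St src dst φ f N act nx S T L) {i j m : ℕ} (hi : i < 6) (hj : j < 6)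
    {e : E} (he : e ∉ L) (hJ : JV src dst e (φ (act.getD i 99)) (φ (act.getD j 99)))
    (hm0 : m = 0 → f e ≠ 0) (hm1 : m = 1 → f e = 0) :
    St src dst φ f N act nx (eS i j S) (eT m i j T) (insert e L) where
  len := h.len
  nx6 := h.nx6
  lt := h.lt
  nd := h.nd
  S_lt := eS_lt hi hj h.S_lt
  T_lt := eT_lt hi hj h.T_lt
  old := by
    intro e' he'
    rw [mem_insert] at he'
    rcases he' with rfl | he'
    · exact ⟨_, _, h.lt i hi, h.lt j hj, hJ⟩
    · exact h.old e' he'
  un := by
    intro c hc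
    obtain ⟨c0, t, ht, h1, h2⟩ := eS_under hi hj h.S_lt hc
    obtain ⟨g, hg, hg2⟩ := h.un c0 h1
    refine ⟨Function.update g e t, ?_, ?_⟩
    · intro e' he'
      rw [mem_insert] at he'
      by_cases h3 : e' = e
      · rw [h3, Function.update_self]
        exact ht
      · rw [Function.update_of_ne h3]
        exact hg e' (he'.resolve_left h3)
    · intro x
      rw [bdF_insert src dst he, bdF_upd src dst he, Function.update_self, hg2,
        jv_con hJ, psh_add φ act hi hj t h2]
  ov := by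
    intro hx
    have h0 : ∀ x, bdF src dst L f x = bdF src dst (insert e L) f x +
        ((if φ (act.getD i 99) = x then f e else 0) +
          (if φ (act.getD j 99) = x then f e else 0)) := by
      intro x
      rw [bdF_insert src dst he, jv_con hJ, add_cancel]
    obtain ⟨c, hc, hc2⟩ := h.ov (by
      intro x hxx
      rw [h0, hx x hxx, if_neg (hxx i hi), if_neg (hxx j hj)]
      simp)
    obtain ⟨c', h1, h2⟩ := eT_over (m := m) hi hj h.T_lt hc (f e) hm0 hm1
    refine ⟨c', h1, fun x => ?_⟩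
    rw [psh_add φ act hi hj (f e) h2, ← hc2, bdF_insert src dst he, jv_con hJ]

theorem st_o (hφ : ∀ i j, i < N → j < N → φ i = φ j → i = j) {act : List ℕ} {nx S T : ℕ}
    {L : Finset E} (h : St src dst φ f N act nx S T L) {i : ℕ} (hi : i < 6) (hN : nx + 1 ≤ N) :
    St src dst φ f N (act.set i nx) (nx + 1) (oS i S) (oS i T) L where
  len := by rw [List.length_set]; exact h.len
  nx6 := hN
  lt := by
    intro l hl
    rw [getD_set act i nx l (h.len ▸ hi)]
    split_ifs
    · exact Nat.lt_succ_self nx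
    · exact Nat.lt_succ_of_lt (h.lt l hl)
  nd := by
    intro l m hl hm hlm
    rw [getD_set act i nx l (h.len ▸ hi), getD_set act i nx m (h.len ▸ hi)] at hlm
    have h1 := h.lt l hl
    have h2 := h.lt m hm
    split_ifs at hlm with h3 h4 h4
    · rw [h3, h4]
    · omega
    · omega
    · exact h.nd l m hl hm hlm
  S_lt := oS_lt h.S_lt
  T_lt := oS_lt h.T_lt
  old := by
    intro e he
    obtain ⟨a, b, h1, h2, h3⟩ := h.old e he
    exact ⟨a, b, by omega, by omega, h3⟩
  un := by
    intro c hc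
    rw [oS_bit hi h.S_lt] at hc
    obtain ⟨g, hg, hg2⟩ := h.un c hc.1
    refine ⟨g, hg, fun x => ?_⟩
    rw [hg2]
    refine psh_congr φ act _ c i hc.2 (fun l hl => ?_) x
    rw [getD_set act i nx l (h.len ▸ hi), if_neg hl]
  ov := by
    intro hx
    have h0 : bdF src dst L f (φ nx) = 0 := by
      unfold bdF
      refine sum_eq_zero fun e he => ?_
      obtain ⟨a, b, h1, h2, h3⟩ := h.old e he
      rw [jv_con h3, if_neg, if_neg, add_zero]
      · intro h4
        have := hφ b nx (by omega) (by omega) h4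
        omega
      · intro h4
        have := hφ a nx (by omega) (by omega) h4
        omega
    have h6 := h.nx6
    obtain ⟨c, hc, hc2⟩ := h.ov (by
      intro x hxx
      by_cases h1 : φ nx = x
      · rw [← h1]
        exact h0
      · refine hx x fun l hl => ?_
        rw [getD_set act i nx l (h.len ▸ hi)]
        split_ifs
        · exact h1
        · exact hxx l hl)
    have hk : kv c i = 0 := by
      have h1 := psh_slot φ act c hi (fun l hl h2 => by
        have h3 := hφ _ _ (lt_of_lt_of_le (h.lt l hl) h6) (lt_of_lt_of_le (h.lt i hi) h6) h2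
        exact h.nd l i hl hi h3)
      rw [← h1, ← hc2]
      refine hx _ fun l hl h2 => ?_
      rw [getD_set act i nx l (h.len ▸ hi)] at h2
      have h3 := h.lt i hi
      have h4 := h.lt l hl
      split_ifs at h2 with h5
      · have := hφ _ _ (by omega) (by omega) h2
        omega
      · have := hφ _ _ (by omega) (by omega) h2
        exact h5 (h.nd l i hl hi this)
    refine ⟨c, (oS_bit hi h.T_lt).mpr ⟨hc, hk⟩, fun x => ?_⟩
    rw [hc2]
    refine psh_congr φ act _ c i hk (fun l hl => ?_) x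
    rw [getD_set act i nx l (h.len ▸ hi), if_neg hl]

theorem run (hφ : ∀ i j, i < N → j < N → φ i = φ j → i = j) (es : ℕ × ℕ → E) (us : List ℕ)
    (hus : ∀ i ∈ us, i < 6) (F : Finset E) : ∀ (ops : List Op) (act : List ℕ) (nx S T : ℕ)
    (ms : List ℕ) (L : Finset E), St src dst φ f N act nx S T L → endNx ops nx = N →
    okOps ops act nx = true → (edOf ops).Nodup →
    (∀ p ∈ edOf ops, ∀ q ∈ edOf ops, es p = es q → p = q) → (∀ p ∈ edOf ops, es p ∉ L) →
    (∀ p ∈ edOf ops, JV src dst (es p) (φ p.1) (φ p.2)) →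
    ms.length = (edOf ops).length →
    (∀ q ∈ (edOf ops).zip ms, (q.2 = 0 → f (es q.1) ≠ 0) ∧ (q.2 = 1 → f (es q.1) = 0)) →
    flowRun (flowFin us) ops ms S T = true →
    F = L ∪ img es (edOf ops) →
    (∀ x, (∀ i, i < 6 → φ ((endAct ops act nx).getD i 99) ≠ x) → bdF src dst F f x = 0) →
    (∀ i ∈ us, bdF src dst F f (φ ((endAct ops act nx).getD i 99)) = 0) →
    ∃ g : E → K4, (∀ e ∈ F, g e ≠ 0) ∧ ∀ x, bdF src dst F g x = bdF src dst F f x := by
  intro ops
  induction ops with
  | nil =>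
    intro act nx S T ms L h _ _ _ _ _ _ _ _ hr hF hb hb2
    have hF' : F = L := by
      rw [hF]
      unfold img edOf
      simp
    rw [hF'] at hb hb2 ⊢
    obtain ⟨c, hc, hc2⟩ := h.ov hb
    have h6 := h.nx6
    have h1 : ∀ i ∈ us, kv c i = 0 := by
      intro i hi
      have hi6 := hus i hi
      have h1 := psh_slot φ act c hi6 (fun l hl h2 => by
        have h3 := hφ _ _ (lt_of_lt_of_le (h.lt l hl) h6) (lt_of_lt_of_le (h.lt i hi6) h6) h2
        exact h.nd l i hl hi6 h3)
      rw [← h1, ← hc2]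
      exact hb2 i hi
    have h2 : S.testBit c = true := sub_bit hr c (fin_bit h.T_lt us hus hc h1)
    obtain ⟨g, hg, hg2⟩ := h.un c h2
    exact ⟨g, hg, fun x => by rw [hg2, hc2]⟩
  | cons o l ih =>
    intro act nx S T ms L h hN hok hnd hinj hL hJ hms hmod hr hF hb hb2
    cases o with
    | e u v i j =>
      cases ms with
      | nil => simp [edOf] at hms
      | cons m ms =>
        unfold okOps at hok
        simp only [Bool.and_eq_true, decide_eq_true_eq, Bool.not_eq_true',
          decide_eq_false_iff_not] at hok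
        obtain ⟨⟨⟨⟨⟨hi, hj⟩, hij⟩, hu⟩, hv⟩, hok⟩ := hok
        have hmem : (u, v) ∈ edOf (Op.e u v i j :: l) := List.mem_cons_self
        have hnd' : (u, v) ∉ edOf l ∧ (edOf l).Nodup := List.nodup_cons.mp hnd
        have hJ' := hJ _ hmem
        rw [show ((u, v) : ℕ × ℕ).1 = act.getD i 99 from hu.symm,
          show ((u, v) : ℕ × ℕ).2 = act.getD j 99 from hv.symm] at hJ'
        have hm := hmod ((u, v), m) List.mem_cons_self
        have hst := st_e h hi hj (hL _ hmem) hJ' hm.1 hm.2
        have hr' : flowRun (flowFin us) l ms (eS i j S) (eT m i j T) = true := by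
          unfold flowRun at hr
          rw [fz_eq, fz_eq] at hr
          exact hr
        refine ih act nx _ _ ms _ hst hN hok hnd'.2 ?_ ?_ ?_ ?_ ?_ hr' ?_ hb hb2
        · intro p hp q hq
          exact hinj p (List.mem_cons_of_mem _ hp) q (List.mem_cons_of_mem _ hq)
        · intro p hp hpe
          rw [mem_insert] at hpe
          rcases hpe with hpe | hpe
          · have := hinj p (List.mem_cons_of_mem _ hp) _ hmem hpe
            exact hnd'.1 (this ▸ hp)
          · exact hL p (List.mem_cons_of_mem _ hp) hpe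
        · exact fun p hp => hJ p (List.mem_cons_of_mem _ hp)
        · simpa [edOf] using hms
        · intro q hq
          exact hmod q (List.mem_cons_of_mem _ hq)
        · rw [hF]
          ext e
          unfold img
          simp only [edOf, List.toFinset_cons, image_insert, mem_union, mem_insert]
          tauto
    | o i =>
      unfold okOps at hok
      simp only [Bool.and_eq_true, decide_eq_true_eq] at hok
      have hN' : nx + 1 ≤ N := hN ▸ endNx_le l (nx + 1)
      have hst := st_o hφ h hok.1 hN'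
      have hr' : flowRun (flowFin us) l ms (oS i S) (oS i T) = true := by
        unfold flowRun at hr
        rw [fz_eq, fz_eq] at hr
        exact hr
      exact ih _ _ _ _ ms L hst hN hok.2 hnd hinj hL hJ hms hmod hr' hF hb hb2

end

theorem t : S_FLOW := by
  intro V E _ _ _ _ src dst φ es n ops ms us hok hN hφ hlt hnd hJ hms hus hr f h0 h1 hb hb2
  have hinj : ∀ p ∈ edOf ops, ∀ q ∈ edOf ops, es p = es q → p = q := by
    intro p hp q hq hpq
    have h2 := hJ p hp
    have h3 := hJ q hq
    rw [hpq] at h2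
    obtain ⟨h4, h5⟩ := hlt p hp
    obtain ⟨h6, h7⟩ := hlt q hq
    have hp1 : p.1 < n := by omega
    have hq1 : q.1 < n := by omega
    rcases h2 with ⟨h2, h2'⟩ | ⟨h2, h2'⟩ <;> rcases h3 with ⟨h3, h3'⟩ | ⟨h3, h3'⟩
    · exact Prod.ext (hφ _ _ hp1 hq1 (h2.symm.trans h3)) (hφ _ _ h5 h7 (h2'.symm.trans h3'))
    · have a1 := hφ _ _ hp1 h7 (h2.symm.trans h3)
      have a2 := hφ _ _ h5 hq1 (h2'.symm.trans h3')
      omega
    · have a1 := hφ _ _ h5 hq1 (h2.symm.trans h3)
      have a2 := hφ _ _ hp1 h7 (h2'.symm.trans h3')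
      omega
    · exact Prod.ext (hφ _ _ hp1 hq1 (h2'.symm.trans h3')) (hφ _ _ h5 h7 (h2.symm.trans h3))
  have hact : ∀ l, l < 6 → act0.getD l 99 = l := by decide
  have h6 : 6 ≤ n := hN ▸ endNx_le ops 6
  have hz : ∀ x, bdF src dst ∅ f x = 0 := fun x => rfl
  have hp0 : ∀ x, psh φ act0 0 x = 0 := by
    intro x
    unfold psh
    refine sum_eq_zero fun l _ => ?_
    have : kv 0 l = 0 := kv_zero.mpr ⟨Nat.zero_testBit _, Nat.zero_testBit _⟩
    rw [this]
    simp
  have hst : St src dst φ f n act0 6 1 1 ∅ := by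
    refine ⟨rfl, h6, ?_, ?_, Nat.one_lt_two_pow (by norm_num), Nat.one_lt_two_pow (by norm_num),
      ?_, ?_, ?_⟩
    · intro l hl
      rw [hact l hl]
      exact hl
    · intro l m hl hm hlm
      rwa [hact l hl, hact m hm] at hlm
    · intro e he
      exact absurd he (notMem_empty e)
    · intro c hc
      have hc0 : c = 0 := by
        rw [show (1 : ℕ) = 2 ^ 0 from rfl, Nat.testBit_two_pow, decide_eq_true_eq] at hc
        exact hc.symm
      rw [hc0]
      exact ⟨f, fun e he => absurd he (notMem_empty e), fun x => by rw [hz, hp0]⟩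
    · intro _
      exact ⟨0, rfl, fun x => by rw [hz, hp0]⟩
  have hmod : ∀ q ∈ (edOf ops).zip ms, (q.2 = 0 → f (es q.1) ≠ 0) ∧ (q.2 = 1 → f (es q.1) = 0) := by
    intro q hq
    constructor
    · intro h2
      refine h0 _ ?_
      unfold imgM
      rw [List.mem_toFinset, List.mem_map]
      exact ⟨q, List.mem_filter.mpr ⟨hq, by simpa using h2⟩, rfl⟩
    · intro h2
      refine h1 _ ?_
      unfold imgM
      rw [List.mem_toFinset, List.mem_map]
      exact ⟨q, List.mem_filter.mpr ⟨hq, by simpa using h2⟩, rfl⟩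
  exact run hφ es us hus (img es (edOf ops)) ops act0 6 1 1 ms ∅ hst hN hok hnd hinj
    (fun p _ => notMem_empty _) hJ hms hmod hr (by rw [empty_union]) hb hb2

end Pool.Agent.TH399.P5.FLOW

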