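import Pool.Agent.H79.LF.TH558_P5_CUTa

set_option autoImplicit false
set_option linter.unusedSectionVars false

/-! # The test of the cuts is sound (PF-B of helper395, by helper558) -/

namespace Pool.Agent.TH558.P5

open Finset Pool.Agent.TH462.T4 Pool.Agent.TH676.T4 Pool.Agent.TH395.P5

variable {V E : Type} [Fintype V] [DecidableEq V] [Fintype E] [DecidableEq E]

theorem crs_compl (src dst : E → V) (Y : Finset V) : crs src dst Yᶜ = crs src dst Y := by
  ext e
  rw [mem_crs, mem_crs, mem_compl, mem_compl, not_iff_not, not_iff_not]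

section geo
variable {src dst : E → V} {φ : ℕ → V} {es : ℕ × ℕ → E} {n : ℕ} {ed : List (ℕ × ℕ)} {rt : List ℕ}

theorem es_inj (hE : Emb src dst n ed rt φ)
    (hes : ∀ p ∈ ed, JV src dst (es p) (φ p.1) (φ p.2)) {p q : ℕ × ℕ} (hp : p ∈ ed) (hq : q ∈ ed)
    (h : es p = es q) : p = q := by
  have h1 := hes p hp
  have h2 := hes q hq
  rw [← h] at h2
  obtain ⟨a1, a2⟩ := hE.lt p hp
  obtain ⟨b1, b2⟩ := hE.lt q hq
  rcases h1 with ⟨c1, c2⟩ | ⟨c1, c2⟩ <;> rcases h2 with ⟨d1, d2⟩ | ⟨d1, d2⟩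
  · have e1 := hE.inj p.1 q.1 (by omega) (by omega) (c1.symm.trans d1)
    have e2 := hE.inj p.2 q.2 (by omega) (by omega) (c2.symm.trans d2)
    exact Prod.ext e1 e2
  · have e1 := hE.inj p.1 q.2 (by omega) (by omega) (c1.symm.trans d1)
    have e2 := hE.inj p.2 q.1 (by omega) (by omega) (c2.symm.trans d2)
    omega
  · have e1 := hE.inj p.2 q.1 (by omega) (by omega) (c1.symm.trans d1)
    have e2 := hE.inj p.1 q.2 (by omega) (by omega) (c2.symm.trans d2)
    omega
  · have e1 := hE.inj p.2 q.2 (by omega) (by omega) (c1.symm.trans d1)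
    have e2 := hE.inj p.1 q.1 (by omega) (by omega) (c2.symm.trans d2)
    exact Prod.ext e2 e1

theorem mem_of (hS : Smp src dst) (hE : Emb src dst n ed rt φ)
    (hes : ∀ p ∈ ed, JV src dst (es p) (φ p.1) (φ p.2)) {e : E} {i j : ℕ} (hi : i < n)
    (hj : j < n) (hij : i ≠ j) (h : JV src dst e (φ i) (φ j)) :
    ∃ p ∈ ed, e = es p ∧ ((p.1 = i ∧ p.2 = j) ∨ (p.1 = j ∧ p.2 = i)) := by
  have hne : φ i ≠ φ j := fun h' => hij (hE.inj i j hi hj h')
  rcases lt_or_gt_of_ne hij with h1 | h1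
  · have h2 := hE.ins i j h1 hj e h
    exact ⟨(i, j), h2, hS e (es (i, j)) (φ i) (φ j) hne h (hes _ h2), Or.inl ⟨rfl, rfl⟩⟩
  · have hs : JV src dst e (φ j) (φ i) := Or.symm h
    have h2 := hE.ins j i h1 hi e hs
    exact ⟨(j, i), h2, hS e (es (j, i)) (φ j) (φ i) hne.symm hs (hes _ h2),
      Or.inr ⟨rfl, rfl⟩⟩

/-- the vertices -/
def PP (φ : ℕ → V) (n : ℕ) : Finset V := (range n).image φ

theorem mem_PP {φ : ℕ → V} {n : ℕ} {x : V} : x ∈ PP φ n ↔ ∃ i < n, φ i = x := by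
  unfold PP
  simp

theorem mem_img_iff (hS : Smp src dst) (hE : Emb src dst n ed rt φ)
    (hes : ∀ p ∈ ed, JV src dst (es p) (φ p.1) (φ p.2)) {e : E} (hne : src e ≠ dst e) :
    e ∈ img es ed ↔ (src e ∈ PP φ n ∧ dst e ∈ PP φ n) := by
  unfold img
  rw [mem_image]
  constructor
  · rintro ⟨p, hp, rfl⟩
    rw [List.mem_toFinset] at hp
    obtain ⟨a1, a2⟩ := hE.lt p hp
    rcases hes p hp with ⟨c1, c2⟩ | ⟨c1, c2⟩
    · rw [c1, c2]
      exact ⟨mem_PP.2 ⟨p.1, by omega, rfl⟩, mem_PP.2 ⟨p.2, by omega, rfl⟩⟩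
    · rw [c1, c2]
      exact ⟨mem_PP.2 ⟨p.2, by omega, rfl⟩, mem_PP.2 ⟨p.1, by omega, rfl⟩⟩
  · rintro ⟨h1, h2⟩
    obtain ⟨i, hi, h1⟩ := mem_PP.1 h1
    obtain ⟨j, hj, h2⟩ := mem_PP.1 h2
    have hij : i ≠ j := by
      rintro rfl
      exact hne (h1.symm.trans h2)
    obtain ⟨p, hp, h3, -⟩ := mem_of hS hE hes hi hj hij (e := e) (Or.inl ⟨h1.symm, h2.symm⟩)
    exact ⟨p, List.mem_toFinset.2 hp, h3.symm⟩

theorem root_src (hE : Emb src dst n ed rt φ) {e : E} {i : ℕ} (hi : i < n) (h1 : φ i = src e)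
    (h2 : dst e ∉ PP φ n) : i ∈ rt := by
  by_contra hc
  have hne : dst e ≠ φ i := fun h => h2 (mem_PP.2 ⟨i, hi, h.symm⟩)
  obtain ⟨j, hj, h3⟩ := hE.cpt i hi hc e (dst e) hne (Or.inl ⟨h1.symm, rfl⟩)
  exact h2 (mem_PP.2 ⟨j, hj, h3.symm⟩)

theorem root_dst (hE : Emb src dst n ed rt φ) {e : E} {i : ℕ} (hi : i < n) (h1 : φ i = dst e)
    (h2 : src e ∉ PP φ n) : i ∈ rt := by
  by_contra hc
  have hne : src e ≠ φ i := fun h => h2 (mem_PP.2 ⟨i, hi, h.symm⟩)
  obtain ⟨j, hj, h3⟩ := hE.cpt i hi hc e (src e) hne (Or.inr ⟨rfl, h1.symm⟩)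
  exact h2 (mem_PP.2 ⟨j, hj, h3.symm⟩)

theorem lemA (hM : MinCx src dst) (hS : Smp src dst) (hE : Emb src dst n ed rt φ)
    (hes : ∀ p ∈ ed, JV src dst (es p) (φ p.1) (φ p.2)) {Y : Finset V}
    (hno : ∀ u ∈ rt, φ u ∉ Y) : (crs src dst Y \ img es ed).card ≠ 1 := by
  have h := hM.br (Y \ PP φ n) (disjoint_empty_right _)
  rw [sdiff_empty] at h
  have h1 : crs src dst (Y \ PP φ n) = crs src dst Y \ img es ed := by
    ext e
    rw [mem_sdiff, mem_crs, mem_crs]
    by_cases hne : src e = dst e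
    · simp [hne]
    · rw [mem_img_iff hS hE hes hne, mem_sdiff, mem_sdiff]
      have r1 : src e ∈ PP φ n → dst e ∉ PP φ n → src e ∉ Y := by
        intro a1 a2
        obtain ⟨i, hi, a3⟩ := mem_PP.1 a1
        rw [← a3]
        exact hno i (root_src hE hi a3 a2)
      have r2 : dst e ∈ PP φ n → src e ∉ PP φ n → dst e ∉ Y := by
        intro a1 a2
        obtain ⟨i, hi, a3⟩ := mem_PP.1 a1
        rw [← a3]
        exact hno i (root_dst hE hi a3 a2)
      tauto
  rw [← h1]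
  exact h

/-- the set given by `B` on the vertices and by `Y` outside -/
def YY (φ : ℕ → V) (n : ℕ) (B : ℕ → Bool) (Y : Finset V) : Finset V :=
  ((range n).filter fun u => B u = true).image φ ∪ (Y \ PP φ n)

theorem YY_in (hE : Emb src dst n ed rt φ) {B : ℕ → Bool} {Y : Finset V} {i : ℕ} (hi : i < n) :
    φ i ∈ YY φ n B Y ↔ B i = true := by
  unfold YY
  rw [mem_union, mem_image]
  constructor
  · rintro (⟨u, hu, h⟩ | h)
    · rw [mem_filter, mem_range] at hu
      rw [← hE.inj u i hu.1 hi h]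
      exact hu.2
    · rw [mem_sdiff] at h
      exact absurd (mem_PP.2 ⟨i, hi, rfl⟩) h.2
  · intro h
    exact Or.inl ⟨i, mem_filter.2 ⟨mem_range.2 hi, h⟩, rfl⟩

theorem YY_out {B : ℕ → Bool} {Y : Finset V} {x : V} (hx : x ∉ PP φ n) :
    x ∈ YY φ n B Y ↔ x ∈ Y := by
  unfold YY
  rw [mem_union, mem_image, mem_sdiff]
  constructor
  · rintro (⟨u, hu, h⟩ | h)
    · rw [mem_filter, mem_range] at hu
      exact absurd (mem_PP.2 ⟨u, hu.1, h⟩) hx
    · exact h.1
  · intro h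
    exact Or.inr ⟨h, hx⟩

theorem lemB (hS : Smp src dst) (hE : Emb src dst n ed rt φ)
    (hes : ∀ p ∈ ed, JV src dst (es p) (φ p.1) (φ p.2)) {Y : Finset V} {B : ℕ → Bool}
    (hB : ∀ u ∈ rt, B u = true ↔ φ u ∈ Y) {PL : List ((ℕ × ℕ) × ℕ)}
    (hPL : PL.map Prod.fst = ed) :
    (crs src dst (YY φ n B Y)).card ≤ PL.countP (cr B) + (crs src dst Y \ img es ed).card := by
  have hsub : crs src dst (YY φ n B Y) ⊆
      ((PL.filter (cr B)).map fun q => es q.1).toFinset ∪ (crs src dst Y \ img es ed) := by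
    intro e he
    rw [mem_crs] at he
    have hne : src e ≠ dst e := fun h => he (by rw [h])
    rw [mem_union, mem_sdiff, mem_img_iff hS hE hes hne]
    by_cases h1 : src e ∈ PP φ n <;> by_cases h2 : dst e ∈ PP φ n
    · left
      obtain ⟨i, hi, h3⟩ := mem_PP.1 h1
      obtain ⟨j, hj, h4⟩ := mem_PP.1 h2
      have hij : i ≠ j := by
        rintro rfl
        exact hne (h3.symm.trans h4)
      obtain ⟨p, hp, h5, h6⟩ := mem_of hS hE hes hi hj hij (e := e) (Or.inl ⟨h3.symm, h4.symm⟩)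
      rw [← h3, ← h4, YY_in hE hi, YY_in hE hj] at he
      rw [← hPL, List.mem_map] at hp
      obtain ⟨q, hq, h7⟩ := hp
      rw [List.mem_toFinset, List.mem_map]
      refine ⟨q, List.mem_filter.2 ⟨hq, ?_⟩, by rw [h7, h5]⟩
      unfold cr
      rw [h7]
      rcases h6 with ⟨h6, h8⟩ | ⟨h6, h8⟩
      · rw [h6, h8]
        revert he
        cases B i <;> cases B j <;> simp
      · rw [h6, h8]
        revert he
        cases B i <;> cases B j <;> simp
    · right
      obtain ⟨i, hi, h3⟩ := mem_PP.1 h1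
      have h4 := hB i (root_src hE hi h3 h2)
      rw [← h3, YY_in hE hi, YY_out h2, h4, h3] at he
      exact ⟨mem_crs.2 he, fun h => h2 h.2⟩
    · right
      obtain ⟨i, hi, h3⟩ := mem_PP.1 h2
      have h4 := hB i (root_dst hE hi h3 h1)
      rw [← h3, YY_in hE hi, YY_out h1, h4, h3] at he
      exact ⟨mem_crs.2 he, fun h => h1 h.1⟩
    · right
      rw [YY_out h1, YY_out h2] at he
      exact ⟨mem_crs.2 he, fun h => h1 h.1⟩
  refine (card_le_card hsub).trans ((card_union_le _ _).trans (Nat.add_le_add_right ?_ _))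
  refine (List.toFinset_card_le _).trans ?_
  rw [List.length_map, List.countP_eq_length_filter]

end geo

theorem main (src dst : E → V)
    (φ : ℕ → V) (es : ℕ × ℕ → E) (n : ℕ) (ops : List Op) (ms us rs rt : List ℕ)
    (hM : MinCx src dst) (hS : Smp src dst) (hE : Emb src dst n (edOf ops) rt φ)
    (hok : okOps ops act0 6 = true) (hnx : endNx ops 6 = n) (hnd : (edOf ops).Nodup)
    (hes : ∀ p ∈ edOf ops, JV src dst (es p) (φ p.1) (φ p.2))
    (hlen : ms.length = (edOf ops).length) (hms : ∀ m ∈ ms, m ≤ 2)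
    (hrs : ∀ i ∈ rs, i < 6 ∧ sl ops i ∈ rt) (hrn : rs.Nodup) (hrt : ∀ u ∈ rt, ∃ i ∈ rs, sl ops i = u)
    (hus : ∀ i ∈ us, i < 6 ∧ i ∉ rs)
    (hrun : cutRun (cutFin rs us) ops ms jAll 0 jAll jAll jAll jAll = true) :
    Br src dst (imgM es (edOf ops) ms 1) (imgM es (edOf ops) ms 2) := by
  obtain ⟨N0, N1, L0, L1, L2, L3, hfin, hI⟩ :=
    run (cutFin rs us) ops ms act0 6 [] _ _ _ _ _ _ hok hlen hms Inv0 hrun
  rw [List.nil_append, hnx] at hI
  obtain ⟨PL, hPL⟩ : ∃ PL, PL = (edOf ops).zip ms := ⟨_, rfl⟩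
  rw [← hPL] at hI
  have hfst : PL.map Prod.fst = edOf ops := by
    rw [hPL]
    exact List.map_fst_zip (le_of_eq hlen.symm)
  have hsnd : ∀ q ∈ PL, q.2 ≤ 2 := by
    intro q hq
    rw [hPL] at hq
    exact hms _ (List.of_mem_zip hq).2
  have hpm : ∀ q ∈ PL, q.1 ∈ edOf ops := by
    intro q hq
    rw [← hfst]
    exact List.mem_map_of_mem hq
  have huniq : ∀ q ∈ PL, ∀ q' ∈ PL, q.1 = q'.1 → q = q' := by
    have h1 : (PL.map Prod.fst).Nodup := by rw [hfst]; exact hnd
    intro q hq q' hq' h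
    exact List.inj_on_of_nodup_map h1 hq hq' h
  have himgM : ∀ m e, e ∈ imgM es (edOf ops) ms m ↔ ∃ q ∈ PL, q.2 = m ∧ es q.1 = e := by
    intro m e
    unfold imgM
    rw [List.mem_toFinset, List.mem_map, ← hPL]
    constructor
    · rintro ⟨q, hq, h⟩
      rw [List.mem_filter, decide_eq_true_eq] at hq
      exact ⟨q, hq.1, hq.2, h⟩
    · rintro ⟨q, hq, h1, h⟩
      exact ⟨q, List.mem_filter.2 ⟨hq, decide_eq_true h1⟩, h⟩
  have himg : ∀ e, e ∈ img es (edOf ops) ↔ ∃ q ∈ PL, es q.1 = e := by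
    intro e
    unfold img
    rw [mem_image]
    constructor
    · rintro ⟨p, hp, h⟩
      rw [List.mem_toFinset, ← hfst, List.mem_map] at hp
      obtain ⟨q, hq, rfl⟩ := hp
      exact ⟨q, hq, h⟩
    · rintro ⟨q, hq, h⟩
      exact ⟨q.1, List.mem_toFinset.2 (hpm q hq), h⟩
  -- the set
  intro Y hdis hcard
  obtain ⟨y, hy⟩ : ∃ y : ℕ → Bool, y = fun u => decide (φ u ∈ Y) := ⟨_, rfl⟩
  have hcr : ∀ q ∈ PL, (es q.1 ∈ crs src dst Y ↔ cr y q = true) := by
    intro q hq
    rw [mem_crs]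
    unfold cr
    rw [hy]
    beta_reduce
    rcases hes q.1 (hpm q hq) with ⟨c1, c2⟩ | ⟨c1, c2⟩ <;> rw [c1, c2] <;>
      by_cases a1 : φ q.1.1 ∈ Y <;> by_cases a2 : φ q.1.2 ∈ Y <;> simp [a1, a2]
  have hm2 : ∀ q ∈ PL, q.2 = 2 → cr y q = false := by
    intro q hq h2
    by_contra hc
    have h3 : cr y q = true := by simpa using hc
    exact disjoint_left.1 hdis ((hcr q hq).2 h3) ((himgM 2 _).2 ⟨q, hq, h2, rfl⟩)
  obtain ⟨A, hA⟩ : ∃ A, A = ((PL.filter fun q => q.2 == 0 && cr y q).map fun q => es q.1).toFinset :=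
    ⟨_, rfl⟩
  have hAmem : ∀ e, e ∈ A ↔ ∃ q ∈ PL, q.2 = 0 ∧ cr y q = true ∧ es q.1 = e := by
    intro e
    rw [hA, List.mem_toFinset, List.mem_map]
    constructor
    · rintro ⟨q, hq, h⟩
      rw [List.mem_filter, Bool.and_eq_true, beq_iff_eq] at hq
      exact ⟨q, hq.1, hq.2.1, hq.2.2, h⟩
    · rintro ⟨q, hq, h1, h2, h⟩
      refine ⟨q, List.mem_filter.2 ⟨hq, ?_⟩, h⟩
      rw [Bool.and_eq_true, beq_iff_eq]
      exact ⟨h1, h2⟩
  have hAcard : A.card = PL.countP (fun q => q.2 == 0 && cr y q) := by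
    rw [hA, List.toFinset_card_of_nodup, List.length_map, List.countP_eq_length_filter]
    have h1 : (PL.map Prod.fst).Nodup := by rw [hfst]; exact hnd
    have h2 : ((PL.filter fun q => q.2 == 0 && cr y q).map Prod.fst).Nodup :=
      h1.sublist (List.Sublist.map _ List.filter_sublist)
    have h3 : ((PL.filter fun q => q.2 == 0 && cr y q).map fun q => es q.1) =
        ((PL.filter fun q => q.2 == 0 && cr y q).map Prod.fst).map es := by
      rw [List.map_map]; rfl
    rw [h3]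
    refine List.Nodup.map_on ?_ h2
    intro p hp p' hp' h
    rw [List.mem_map] at hp hp'
    obtain ⟨q, hq, rfl⟩ := hp
    obtain ⟨q', hq', rfl⟩ := hp'
    exact es_inj hE hes (hpm q (List.mem_of_mem_filter hq)) (hpm q' (List.mem_of_mem_filter hq')) h
  have hsplit : crs src dst Y \ imgM es (edOf ops) ms 1 = A ∪ (crs src dst Y \ img es (edOf ops)) := by
    ext e
    rw [mem_sdiff, mem_union, mem_sdiff, himgM, hAmem, himg]
    constructor
    · rintro ⟨h1, h2⟩
      by_cases h3 : ∃ q ∈ PL, es q.1 = e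
      · left
        obtain ⟨q, hq, rfl⟩ := h3
        have h4 : cr y q = true := (hcr q hq).1 h1
        have h5 : q.2 ≠ 1 := fun h => h2 ⟨q, hq, h, rfl⟩
        have h6 : q.2 ≠ 2 := fun h => by
          rw [hm2 q hq h] at h4
          exact absurd h4 (by decide)
        have h7 := hsnd q hq
        exact ⟨q, hq, by omega, h4, rfl⟩
      · exact Or.inr ⟨h1, h3⟩
    · rintro (⟨q, hq, h1, h2, rfl⟩ | ⟨h1, h2⟩)
      · refine ⟨(hcr q hq).2 h2, ?_⟩
        rintro ⟨q', hq', h3, h4⟩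
        have h5 := huniq q hq q' hq' (es_inj hE hes (hpm q hq) (hpm q' hq') h4.symm)
        rw [← h5, h1] at h3
        exact absurd h3 (by decide)
      · exact ⟨h1, fun ⟨q, hq, _, h3⟩ => h2 ⟨q, hq, h3⟩⟩
  have hAdis : Disjoint A (crs src dst Y \ img es (edOf ops)) := by
    rw [disjoint_left]
    intro e he he2
    obtain ⟨q, hq, -, -, h⟩ := (hAmem e).1 he
    exact (mem_sdiff.1 he2).2 ((himg e).2 ⟨q, hq, h⟩)
  rw [hsplit, card_union_of_disjoint hAdis, hAcard] at hcard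
  -- the code
  obtain ⟨J, hJdef⟩ : ∃ J, J = cd fun i => y (sl ops i) := ⟨_, rfl⟩
  have hJ : J < 64 := by rw [hJdef]; exact cd_lt _
  have hJb : ∀ i < 6, J.testBit i = y (sl ops i) := fun i hi => by rw [hJdef]; exact cd_tb _ hi
  have hrs6 : ∀ i ∈ rs, i < 6 := fun i hi => (hrs i hi).1
  unfold cutFin at hfin
  rw [Bool.and_eq_true, Bool.and_eq_true] at hfin
  obtain ⟨hf1, hf2, hf3⟩ := hfin
  -- the trivial case
  have htriv : (triv rs).testBit J = true → (crs src dst Y \ img es (edOf ops)).card ≠ 1 := by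
    intro h
    rcases not_triv_of hrs6 hJ h with h1 | h1
    · refine lemA hM hS hE hes fun u hu hc => ?_
      obtain ⟨i, hi, rfl⟩ := hrt u hu
      have h2 := h1 i hi
      rw [hJb i (hrs6 i hi), hy] at h2
      simp only [decide_eq_false_iff_not] at h2
      exact h2 hc
    · rw [← crs_compl]
      refine lemA hM hS hE hes fun u hu hc => ?_
      obtain ⟨i, hi, rfl⟩ := hrt u hu
      have h2 := h1 i hi
      rw [hJb i (hrs6 i hi), hy] at h2
      simp only [decide_eq_true_eq] at h2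
      exact (mem_compl.1 hc) h2
  -- the other case
  have hund : ∀ p L, Un (endAct ops act0 6) n PL L p → (oJs us L).testBit J = true →
      (triv rs).testBit J = false →
      3 ≤ p + (crs src dst Y \ img es (edOf ops)).card ∧ ((mid rs).testBit J = true →
        4 ≤ p + (crs src dst Y \ img es (edOf ops)).card) := by
    intro p L hU hL ht
    obtain ⟨J', hJ', h1, h2⟩ := oJs_tb L us (fun i hi => (hus i hi).1) J hJ hL
    obtain ⟨B, -, b2, b3⟩ := hU J' hJ' h1
    have hbit : ∀ i ∈ rs, B (sl ops i) = J.testBit i := by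
      intro i hi
      have h3 : i ∉ us := fun h => (hus i h).2 hi
      have h4 := b2 i (hrs6 i hi)
      rw [h2 i (hrs6 i hi) h3] at h4
      exact h4
    have hB : ∀ u ∈ rt, B u = true ↔ φ u ∈ Y := by
      intro u hu
      obtain ⟨i, hi, rfl⟩ := hrt u hu
      rw [hbit i hi, hJb i (hrs6 i hi), hy]
      simp only [decide_eq_true_eq]
    have hle := lemB hS hE hes hB hfst
    have hle2 : (crs src dst (YY φ n B Y)).card ≤
        p + (crs src dst Y \ img es (edOf ops)).card := by omega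
    have hn : ∀ i ∈ rs, sl ops i < n := fun i hi => hE.rlt _ (hrs i hi).2
    have hin : ∀ i ∈ rs, (φ (sl ops i) ∈ YY φ n B Y ↔ J.testBit i = true) := by
      intro i hi
      rw [YY_in hE (hn i hi), hbit i hi]
    have hnis : ∀ i ∈ rs, Nis src dst (φ (sl ops i)) := fun i hi => hE.nis _ (hn i hi)
    have hdif : ∀ i ∈ rs, ∀ k ∈ rs, i ≠ k → φ (sl ops i) ≠ φ (sl ops k) := by
      intro i hi k hk hik h
      exact hI.bas.inj i (hrs6 i hi) k (hrs6 k hk) hik (hE.inj _ _ (hn i hi) (hn k hk) h)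
    constructor
    · have h5 : ¬ ∀ i ∈ rs, J.testBit i = false := fun h => by
        rw [triv_tb hJ hrs6 (Or.inl h)] at ht
        exact absurd ht (by decide)
      have h6 : ¬ ∀ i ∈ rs, J.testBit i = true := fun h => by
        rw [triv_tb hJ hrs6 (Or.inr h)] at ht
        exact absurd ht (by decide)
      push Not at h5 h6
      obtain ⟨i, hi, h5⟩ := h5
      obtain ⟨k, hk, h6⟩ := h6
      refine le_trans (cut3 hM (x := φ (sl ops i)) (y := φ (sl ops k)) ((hin i hi).2 ?_)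
        (fun h => h6 ((hin k hk).1 h)) (hnis i hi) (hnis k hk)) hle2
      simpa using h5
    · intro hm
      obtain ⟨⟨i, hi, i', hi', d1, t1, t2⟩, ⟨k, hk, k', hk', d2, f1, f2⟩⟩ :=
        mid_tb hJ hrs6 hrn hm
      refine le_trans (cut4 hM (x := φ (sl ops i)) (x2 := φ (sl ops i')) (y := φ (sl ops k))
        (y2 := φ (sl ops k')) ((hin i hi).2 t1) ((hin i' hi').2 t2) (hdif i hi i' hi' d1)
        ?_ ?_ (hdif k hk k' hk' d2) (hnis i hi) (hnis i' hi') (hnis k hk) (hnis k' hk')) hle2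
      · intro h
        rw [(hin k hk).1 h] at f1
        exact absurd f1 (by decide)
      · intro h
        rw [(hin k' hk').1 h] at f2
        exact absurd f2 (by decide)
  have ha : PL.countP (fun q => q.2 == 0 && cr y q) = 0 ∨
      PL.countP (fun q => q.2 == 0 && cr y q) = 1 := by omega
  rcases ha with ha | ha
  · -- no edge of mode 0
    have hr : (crs src dst Y \ img es (edOf ops)).card = 1 := by omega
    have ht : (triv rs).testBit J = false := by
      by_contra hc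
      exact htriv (by simpa using hc) hr
    have hN : N0.testBit J = true := by
      rw [hJdef]
      exact hI.o0 y hm2 ha
    have h1 := sub_tb hf3 hN
    rw [tb_lor, tb_lor, tb_land, ht, Bool.false_or, Bool.or_eq_true, Bool.and_eq_true] at h1
    rcases h1 with h1 | ⟨h1, h2⟩
    · have h3 := (hund 1 L1 hI.u1 h1 ht).1
      omega
    · have h3 := (hund 2 L2 hI.u2 h1 ht).2 h2
      omega
  · have hr : (crs src dst Y \ img es (edOf ops)).card = 0 := by omega
    have hN : N1.testBit J = true := by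
      rw [hJdef]
      exact hI.o1 y hm2 ha
    have ht : (triv rs).testBit J = false := by
      have h1 : Nat.land N1 (triv rs) = 0 := Nat.eq_of_beq_eq_true hf1
      have h2 := tb_land N1 (triv rs) J
      rw [h1, hN, Nat.zero_testBit, Bool.true_and] at h2
      exact h2.symm
    have h1 := sub_tb hf2 hN
    rw [tb_lor, tb_land, Bool.or_eq_true, Bool.and_eq_true] at h1
    rcases h1 with h1 | ⟨h1, h2⟩
    · have h3 := (hund 2 L2 hI.u2 h1 ht).1
      omega
    · have h3 := (hund 3 L3 hI.u3 h1 ht).2 h2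
      omega

theorem t : Pool.Agent.TH395.P5.S_CUT := by
  intro V E _ _ _ _ src dst φ es n ops ms us rs rt h1 h2 h3 h4 h5 h6 h7 h8 h9 h10 h11 h12 h13 h14
  exact main src dst φ es n ops ms us rs rt h1 h2 h3 h4 h5 h6 h7 h8 h9 h10 h11 h12 h13 h14

end Pool.Agent.TH558.P5
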