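import Pool.Agent.H79.LF.TH395_P5_C00
import Pool.Agent.H79.LF.TH395_P5_C01
import Pool.Agent.H79.LF.TH395_P5_C02
import Pool.Agent.H79.LF.TH395_P5_C03
import Pool.Agent.H79.LF.TH395_P5_C04
import Pool.Agent.H79.LF.TH395_P5_C05
import Pool.Agent.H79.LF.TH395_P5_C06
import Pool.Agent.H79.LF.TH395_P5_C07
import Pool.Agent.H79.LF.TH395_P5_C08
import Pool.Agent.H79.LF.TH395_P5_C09
import Pool.Agent.H79.LF.TH395_P5_C10
import Pool.Agent.H79.LF.TH395_P5_C11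
import Pool.Agent.H79.LF.TH395_P5_C12
import Pool.Agent.H79.LF.TH395_P5_C13
import Pool.Agent.H79.LF.TH395_P5_C14
import Pool.Agent.H79.LF.TH395_P5_C15
import Pool.Agent.H79.LF.TH399_P5_FLOW
import Pool.Agent.H79.LF.TH558_P5_CUT
import Pool.Agent.H79.LF.TH169_P5_GIRTH
import Pool.Agent.H79.LF.TH928_P5_PET
import Pool.Agent.H79.LF.TH599_P5_MAIN
import Pool.Agent.H79.LF.TH443_P5_TRANS

set_option autoImplicit false
set_option maxRecDepth 100000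

/-! # Assembly -/

namespace Pool.Agent.TH395.P5

theorem tbl_ok : ∀ q ∈ tbl, ∃ c, chkA tbl q c q.rt [] [] = true := by
  have h : ∀ tb : List QS, tb = tbl → ∀ q ∈ tbl, ∃ c, chkA tb q c q.rt [] [] = true := by
    intro tb htb
    unfold tbl
    refine List.forall_mem_cons.mpr ⟨⟨c0, by rw [htb]; exact ok0⟩, ?_⟩
    refine List.forall_mem_cons.mpr ⟨⟨c1, by rw [htb]; exact ok1⟩, ?_⟩
    refine List.forall_mem_cons.mpr ⟨⟨c2, by rw [htb]; exact ok2⟩, ?_⟩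
    refine List.forall_mem_cons.mpr ⟨⟨c3, by rw [htb]; exact ok3⟩, ?_⟩
    refine List.forall_mem_cons.mpr ⟨⟨c4, by rw [htb]; exact ok4⟩, ?_⟩
    refine List.forall_mem_cons.mpr ⟨⟨c5, by rw [htb]; exact ok5⟩, ?_⟩
    refine List.forall_mem_cons.mpr ⟨⟨c6, by rw [htb]; exact ok6⟩, ?_⟩
    refine List.forall_mem_cons.mpr ⟨⟨c7, by rw [htb]; exact ok7⟩, ?_⟩
    refine List.forall_mem_cons.mpr ⟨⟨c8, by rw [htb]; exact ok8⟩, ?_⟩
    refine List.forall_mem_cons.mpr ⟨⟨c9, by rw [htb]; exact ok9⟩, ?_⟩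
    refine List.forall_mem_cons.mpr ⟨⟨c10, by rw [htb]; exact ok10⟩, ?_⟩
    refine List.forall_mem_cons.mpr ⟨⟨c11, by rw [htb]; exact ok11⟩, ?_⟩
    refine List.forall_mem_cons.mpr ⟨⟨c12, by rw [htb]; exact ok12⟩, ?_⟩
    refine List.forall_mem_cons.mpr ⟨⟨c13, by rw [htb]; exact ok13⟩, ?_⟩
    refine List.forall_mem_cons.mpr ⟨⟨c14, by rw [htb]; exact ok14⟩, ?_⟩
    refine List.forall_mem_cons.mpr ⟨⟨c15, by rw [htb]; exact ok15⟩, ?_⟩
    refine List.forall_mem_cons.mpr ⟨⟨c16, by rw [htb]; exact ok16⟩, ?_⟩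
    refine List.forall_mem_cons.mpr ⟨⟨c17, by rw [htb]; exact ok17⟩, ?_⟩
    refine List.forall_mem_cons.mpr ⟨⟨c18, by rw [htb]; exact ok18⟩, ?_⟩
    refine List.forall_mem_cons.mpr ⟨⟨c19, by rw [htb]; exact ok19⟩, ?_⟩
    refine List.forall_mem_cons.mpr ⟨⟨c20, by rw [htb]; exact ok20⟩, ?_⟩
    refine List.forall_mem_cons.mpr ⟨⟨c21, by rw [htb]; exact ok21⟩, ?_⟩
    refine List.forall_mem_cons.mpr ⟨⟨c22, by rw [htb]; exact ok22⟩, ?_⟩
    refine List.forall_mem_cons.mpr ⟨⟨c23, by rw [htb]; exact ok23⟩, ?_⟩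
    refine List.forall_mem_cons.mpr ⟨⟨c24, by rw [htb]; exact ok24⟩, ?_⟩
    refine List.forall_mem_cons.mpr ⟨⟨c25, by rw [htb]; exact ok25⟩, ?_⟩
    refine List.forall_mem_cons.mpr ⟨⟨c26, by rw [htb]; exact ok26⟩, ?_⟩
    refine List.forall_mem_cons.mpr ⟨⟨c27, by rw [htb]; exact ok27⟩, ?_⟩
    refine List.forall_mem_cons.mpr ⟨⟨c28, by rw [htb]; exact ok28⟩, ?_⟩
    refine List.forall_mem_cons.mpr ⟨⟨c29, by rw [htb]; exact ok29⟩, ?_⟩
    refine List.forall_mem_cons.mpr ⟨⟨c30, by rw [htb]; exact ok30⟩, ?_⟩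
    refine List.forall_mem_cons.mpr ⟨⟨c31, by rw [htb]; exact ok31⟩, ?_⟩
    refine List.forall_mem_cons.mpr ⟨⟨c32, by rw [htb]; exact ok32⟩, ?_⟩
    refine List.forall_mem_cons.mpr ⟨⟨c33, by rw [htb]; exact ok33⟩, ?_⟩
    refine List.forall_mem_cons.mpr ⟨⟨c34, by rw [htb]; exact ok34⟩, ?_⟩
    refine List.forall_mem_cons.mpr ⟨⟨c35, by rw [htb]; exact ok35⟩, ?_⟩
    refine List.forall_mem_cons.mpr ⟨⟨c36, by rw [htb]; exact ok36⟩, ?_⟩
    refine List.forall_mem_cons.mpr ⟨⟨c37, by rw [htb]; exact ok37⟩, ?_⟩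
    refine List.forall_mem_cons.mpr ⟨⟨c38, by rw [htb]; exact ok38⟩, ?_⟩
    refine List.forall_mem_cons.mpr ⟨⟨c39, by rw [htb]; exact ok39⟩, ?_⟩
    refine List.forall_mem_cons.mpr ⟨⟨c40, by rw [htb]; exact ok40⟩, ?_⟩
    refine List.forall_mem_cons.mpr ⟨⟨c41, by rw [htb]; exact ok41⟩, ?_⟩
    refine List.forall_mem_cons.mpr ⟨⟨c42, by rw [htb]; exact ok42⟩, ?_⟩
    refine List.forall_mem_cons.mpr ⟨⟨c43, by rw [htb]; exact ok43⟩, ?_⟩
    refine List.forall_mem_cons.mpr ⟨⟨c44, by rw [htb]; exact ok44⟩, ?_⟩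
    refine List.forall_mem_cons.mpr ⟨⟨c45, by rw [htb]; exact ok45⟩, ?_⟩
    refine List.forall_mem_cons.mpr ⟨⟨c46, by rw [htb]; exact ok46⟩, ?_⟩
    refine List.forall_mem_cons.mpr ⟨⟨c47, by rw [htb]; exact ok47⟩, ?_⟩
    refine List.forall_mem_cons.mpr ⟨⟨c48, by rw [htb]; exact ok48⟩, ?_⟩
    refine List.forall_mem_cons.mpr ⟨⟨c49, by rw [htb]; exact ok49⟩, ?_⟩
    refine List.forall_mem_cons.mpr ⟨⟨c50, by rw [htb]; exact ok50⟩, ?_⟩
    refine List.forall_mem_cons.mpr ⟨⟨c51, by rw [htb]; exact ok51⟩, ?_⟩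
    refine List.forall_mem_cons.mpr ⟨⟨c52, by rw [htb]; exact ok52⟩, ?_⟩
    refine List.forall_mem_cons.mpr ⟨⟨c53, by rw [htb]; exact ok53⟩, ?_⟩
    refine List.forall_mem_cons.mpr ⟨⟨c54, by rw [htb]; exact ok54⟩, ?_⟩
    refine List.forall_mem_cons.mpr ⟨⟨c55, by rw [htb]; exact ok55⟩, ?_⟩
    refine List.forall_mem_cons.mpr ⟨⟨c56, by rw [htb]; exact ok56⟩, ?_⟩
    refine List.forall_mem_cons.mpr ⟨⟨c57, by rw [htb]; exact ok57⟩, ?_⟩
    refine List.forall_mem_cons.mpr ⟨⟨c58, by rw [htb]; exact ok58⟩, ?_⟩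
    refine List.forall_mem_cons.mpr ⟨⟨c59, by rw [htb]; exact ok59⟩, ?_⟩
    refine List.forall_mem_cons.mpr ⟨⟨c60, by rw [htb]; exact ok60⟩, ?_⟩
    refine List.forall_mem_cons.mpr ⟨⟨c61, by rw [htb]; exact ok61⟩, ?_⟩
    refine List.forall_mem_cons.mpr ⟨⟨c62, by rw [htb]; exact ok62⟩, ?_⟩
    refine List.forall_mem_cons.mpr ⟨⟨c63, by rw [htb]; exact ok63⟩, ?_⟩
    refine List.forall_mem_cons.mpr ⟨⟨c64, by rw [htb]; exact ok64⟩, ?_⟩
    refine List.forall_mem_cons.mpr ⟨⟨c65, by rw [htb]; exact ok65⟩, ?_⟩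
    refine List.forall_mem_cons.mpr ⟨⟨c66, by rw [htb]; exact ok66⟩, ?_⟩
    refine List.forall_mem_cons.mpr ⟨⟨c67, by rw [htb]; exact ok67⟩, ?_⟩
    refine List.forall_mem_cons.mpr ⟨⟨c68, by rw [htb]; exact ok68⟩, ?_⟩
    refine List.forall_mem_cons.mpr ⟨⟨c69, by rw [htb]; exact ok69⟩, ?_⟩
    refine List.forall_mem_cons.mpr ⟨⟨c70, by rw [htb]; exact ok70⟩, ?_⟩
    refine List.forall_mem_cons.mpr ⟨⟨c71, by rw [htb]; exact ok71⟩, ?_⟩
    refine List.forall_mem_cons.mpr ⟨⟨c72, by rw [htb]; exact ok72⟩, ?_⟩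
    refine List.forall_mem_cons.mpr ⟨⟨c73, by rw [htb]; exact ok73⟩, ?_⟩
    refine List.forall_mem_cons.mpr ⟨⟨c74, by rw [htb]; exact ok74⟩, ?_⟩
    refine List.forall_mem_cons.mpr ⟨⟨c75, by rw [htb]; exact ok75⟩, ?_⟩
    refine List.forall_mem_cons.mpr ⟨⟨c76, by rw [htb]; exact ok76⟩, ?_⟩
    refine List.forall_mem_cons.mpr ⟨⟨c77, by rw [htb]; exact ok77⟩, ?_⟩
    refine List.forall_mem_cons.mpr ⟨⟨c78, by rw [htb]; exact ok78⟩, ?_⟩
    refine List.forall_mem_cons.mpr ⟨⟨c79, by rw [htb]; exact ok79⟩, ?_⟩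
    refine List.forall_mem_cons.mpr ⟨⟨c80, by rw [htb]; exact ok80⟩, ?_⟩
    refine List.forall_mem_cons.mpr ⟨⟨c81, by rw [htb]; exact ok81⟩, ?_⟩
    refine List.forall_mem_cons.mpr ⟨⟨c82, by rw [htb]; exact ok82⟩, ?_⟩
    refine List.forall_mem_cons.mpr ⟨⟨c83, by rw [htb]; exact ok83⟩, ?_⟩
    refine List.forall_mem_cons.mpr ⟨⟨c84, by rw [htb]; exact ok84⟩, ?_⟩
    refine List.forall_mem_cons.mpr ⟨⟨c85, by rw [htb]; exact ok85⟩, ?_⟩
    refine List.forall_mem_cons.mpr ⟨⟨c86, by rw [htb]; exact ok86⟩, ?_⟩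
    refine List.forall_mem_cons.mpr ⟨⟨c87, by rw [htb]; exact ok87⟩, ?_⟩
    refine List.forall_mem_cons.mpr ⟨⟨c88, by rw [htb]; exact ok88⟩, ?_⟩
    refine List.forall_mem_cons.mpr ⟨⟨c89, by rw [htb]; exact ok89⟩, ?_⟩
    refine List.forall_mem_cons.mpr ⟨⟨c90, by rw [htb]; exact ok90⟩, ?_⟩
    refine List.forall_mem_cons.mpr ⟨⟨c91, by rw [htb]; exact ok91⟩, ?_⟩
    refine List.forall_mem_cons.mpr ⟨⟨c92, by rw [htb]; exact ok92⟩, ?_⟩
    refine List.forall_mem_cons.mpr ⟨⟨c93, by rw [htb]; exact ok93⟩, ?_⟩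
    refine List.forall_mem_cons.mpr ⟨⟨c94, by rw [htb]; exact ok94⟩, ?_⟩
    refine List.forall_mem_cons.mpr ⟨⟨c95, by rw [htb]; exact ok95⟩, ?_⟩
    refine List.forall_mem_cons.mpr ⟨⟨c96, by rw [htb]; exact ok96⟩, ?_⟩
    refine List.forall_mem_cons.mpr ⟨⟨c97, by rw [htb]; exact ok97⟩, ?_⟩
    refine List.forall_mem_cons.mpr ⟨⟨c98, by rw [htb]; exact ok98⟩, ?_⟩
    refine List.forall_mem_cons.mpr ⟨⟨c99, by rw [htb]; exact ok99⟩, ?_⟩
    refine List.forall_mem_cons.mpr ⟨⟨c100, by rw [htb]; exact ok100⟩, ?_⟩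
    refine List.forall_mem_cons.mpr ⟨⟨c101, by rw [htb]; exact ok101⟩, ?_⟩
    refine List.forall_mem_cons.mpr ⟨⟨c102, by rw [htb]; exact ok102⟩, ?_⟩
    refine List.forall_mem_cons.mpr ⟨⟨c103, by rw [htb]; exact ok103⟩, ?_⟩
    refine List.forall_mem_cons.mpr ⟨⟨c104, by rw [htb]; exact ok104⟩, ?_⟩
    refine List.forall_mem_cons.mpr ⟨⟨c105, by rw [htb]; exact ok105⟩, ?_⟩
    refine List.forall_mem_cons.mpr ⟨⟨c106, by rw [htb]; exact ok106⟩, ?_⟩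
    refine List.forall_mem_cons.mpr ⟨⟨c107, by rw [htb]; exact ok107⟩, ?_⟩
    refine List.forall_mem_cons.mpr ⟨⟨c108, by rw [htb]; exact ok108⟩, ?_⟩
    refine List.forall_mem_cons.mpr ⟨⟨c109, by rw [htb]; exact ok109⟩, ?_⟩
    refine List.forall_mem_cons.mpr ⟨⟨c110, by rw [htb]; exact ok110⟩, ?_⟩
    refine List.forall_mem_cons.mpr ⟨⟨c111, by rw [htb]; exact ok111⟩, ?_⟩
    refine List.forall_mem_cons.mpr ⟨⟨c112, by rw [htb]; exact ok112⟩, ?_⟩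
    refine List.forall_mem_cons.mpr ⟨⟨c113, by rw [htb]; exact ok113⟩, ?_⟩
    refine List.forall_mem_cons.mpr ⟨⟨c114, by rw [htb]; exact ok114⟩, ?_⟩
    refine List.forall_mem_cons.mpr ⟨⟨c115, by rw [htb]; exact ok115⟩, ?_⟩
    refine List.forall_mem_cons.mpr ⟨⟨c116, by rw [htb]; exact ok116⟩, ?_⟩
    refine List.forall_mem_cons.mpr ⟨⟨c117, by rw [htb]; exact ok117⟩, ?_⟩
    refine List.forall_mem_cons.mpr ⟨⟨c118, by rw [htb]; exact ok118⟩, ?_⟩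
    refine List.forall_mem_cons.mpr ⟨⟨c119, by rw [htb]; exact ok119⟩, ?_⟩
    refine List.forall_mem_cons.mpr ⟨⟨c120, by rw [htb]; exact ok120⟩, ?_⟩
    refine List.forall_mem_cons.mpr ⟨⟨c121, by rw [htb]; exact ok121⟩, ?_⟩
    refine List.forall_mem_cons.mpr ⟨⟨c122, by rw [htb]; exact ok122⟩, ?_⟩
    refine List.forall_mem_cons.mpr ⟨⟨c123, by rw [htb]; exact ok123⟩, ?_⟩
    refine List.forall_mem_cons.mpr ⟨⟨c124, by rw [htb]; exact ok124⟩, ?_⟩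
    refine List.forall_mem_cons.mpr ⟨⟨c125, by rw [htb]; exact ok125⟩, ?_⟩
    refine List.forall_mem_cons.mpr ⟨⟨c126, by rw [htb]; exact ok126⟩, ?_⟩
    refine List.forall_mem_cons.mpr ⟨⟨c127, by rw [htb]; exact ok127⟩, ?_⟩
    refine List.forall_mem_cons.mpr ⟨⟨c128, by rw [htb]; exact ok128⟩, ?_⟩
    refine List.forall_mem_cons.mpr ⟨⟨c129, by rw [htb]; exact ok129⟩, ?_⟩
    refine List.forall_mem_cons.mpr ⟨⟨c130, by rw [htb]; exact ok130⟩, ?_⟩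
    refine List.forall_mem_cons.mpr ⟨⟨c131, by rw [htb]; exact ok131⟩, ?_⟩
    refine List.forall_mem_cons.mpr ⟨⟨c132, by rw [htb]; exact ok132⟩, ?_⟩
    refine List.forall_mem_cons.mpr ⟨⟨c133, by rw [htb]; exact ok133⟩, ?_⟩
    refine List.forall_mem_cons.mpr ⟨⟨c134, by rw [htb]; exact ok134⟩, ?_⟩
    refine List.forall_mem_cons.mpr ⟨⟨c135, by rw [htb]; exact ok135⟩, ?_⟩
    refine List.forall_mem_cons.mpr ⟨⟨c136, by rw [htb]; exact ok136⟩, ?_⟩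
    refine List.forall_mem_cons.mpr ⟨⟨c137, by rw [htb]; exact ok137⟩, ?_⟩
    refine List.forall_mem_cons.mpr ⟨⟨c138, by rw [htb]; exact ok138⟩, ?_⟩
    refine List.forall_mem_cons.mpr ⟨⟨c139, by rw [htb]; exact ok139⟩, ?_⟩
    refine List.forall_mem_cons.mpr ⟨⟨c140, by rw [htb]; exact ok140⟩, ?_⟩
    refine List.forall_mem_cons.mpr ⟨⟨c141, by rw [htb]; exact ok141⟩, ?_⟩
    refine List.forall_mem_cons.mpr ⟨⟨c142, by rw [htb]; exact ok142⟩, ?_⟩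
    refine List.forall_mem_cons.mpr ⟨⟨c143, by rw [htb]; exact ok143⟩, ?_⟩
    refine List.forall_mem_cons.mpr ⟨⟨c144, by rw [htb]; exact ok144⟩, ?_⟩
    refine List.forall_mem_cons.mpr ⟨⟨c145, by rw [htb]; exact ok145⟩, ?_⟩
    refine List.forall_mem_cons.mpr ⟨⟨c146, by rw [htb]; exact ok146⟩, ?_⟩
    refine List.forall_mem_cons.mpr ⟨⟨c147, by rw [htb]; exact ok147⟩, ?_⟩
    refine List.forall_mem_cons.mpr ⟨⟨c148, by rw [htb]; exact ok148⟩, ?_⟩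
    refine List.forall_mem_cons.mpr ⟨⟨c149, by rw [htb]; exact ok149⟩, ?_⟩
    refine List.forall_mem_cons.mpr ⟨⟨c150, by rw [htb]; exact ok150⟩, ?_⟩
    refine List.forall_mem_cons.mpr ⟨⟨c151, by rw [htb]; exact ok151⟩, ?_⟩
    refine List.forall_mem_cons.mpr ⟨⟨c152, by rw [htb]; exact ok152⟩, ?_⟩
    refine List.forall_mem_cons.mpr ⟨⟨c153, by rw [htb]; exact ok153⟩, ?_⟩
    refine List.forall_mem_cons.mpr ⟨⟨c154, by rw [htb]; exact ok154⟩, ?_⟩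
    refine List.forall_mem_cons.mpr ⟨⟨c155, by rw [htb]; exact ok155⟩, ?_⟩
    refine List.forall_mem_cons.mpr ⟨⟨c156, by rw [htb]; exact ok156⟩, ?_⟩
    refine List.forall_mem_cons.mpr ⟨⟨c157, by rw [htb]; exact ok157⟩, ?_⟩
    refine List.forall_mem_cons.mpr ⟨⟨c158, by rw [htb]; exact ok158⟩, ?_⟩
    refine List.forall_mem_cons.mpr ⟨⟨c159, by rw [htb]; exact ok159⟩, ?_⟩
    refine List.forall_mem_cons.mpr ⟨⟨c160, by rw [htb]; exact ok160⟩, ?_⟩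
    refine List.forall_mem_cons.mpr ⟨⟨c161, by rw [htb]; exact ok161⟩, ?_⟩
    refine List.forall_mem_cons.mpr ⟨⟨c162, by rw [htb]; exact ok162⟩, ?_⟩
    refine List.forall_mem_cons.mpr ⟨⟨c163, by rw [htb]; exact ok163⟩, ?_⟩
    refine List.forall_mem_cons.mpr ⟨⟨c164, by rw [htb]; exact ok164⟩, ?_⟩
    refine List.forall_mem_cons.mpr ⟨⟨c165, by rw [htb]; exact ok165⟩, ?_⟩
    refine List.forall_mem_cons.mpr ⟨⟨c166, by rw [htb]; exact ok166⟩, ?_⟩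
    refine List.forall_mem_cons.mpr ⟨⟨c167, by rw [htb]; exact ok167⟩, ?_⟩
    refine List.forall_mem_cons.mpr ⟨⟨c168, by rw [htb]; exact ok168⟩, ?_⟩
    refine List.forall_mem_cons.mpr ⟨⟨c169, by rw [htb]; exact ok169⟩, ?_⟩
    refine List.forall_mem_cons.mpr ⟨⟨c170, by rw [htb]; exact ok170⟩, ?_⟩
    refine List.forall_mem_cons.mpr ⟨⟨c171, by rw [htb]; exact ok171⟩, ?_⟩
    refine List.forall_mem_cons.mpr ⟨⟨c172, by rw [htb]; exact ok172⟩, ?_⟩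
    refine List.forall_mem_cons.mpr ⟨⟨c173, by rw [htb]; exact ok173⟩, ?_⟩
    refine List.forall_mem_cons.mpr ⟨⟨c174, by rw [htb]; exact ok174⟩, ?_⟩
    refine List.forall_mem_cons.mpr ⟨⟨c175, by rw [htb]; exact ok175⟩, ?_⟩
    refine List.forall_mem_cons.mpr ⟨⟨c176, by rw [htb]; exact ok176⟩, ?_⟩
    refine List.forall_mem_cons.mpr ⟨⟨c177, by rw [htb]; exact ok177⟩, ?_⟩
    refine List.forall_mem_cons.mpr ⟨⟨c178, by rw [htb]; exact ok178⟩, ?_⟩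
    refine List.forall_mem_cons.mpr ⟨⟨c179, by rw [htb]; exact ok179⟩, ?_⟩
    refine List.forall_mem_cons.mpr ⟨⟨c180, by rw [htb]; exact ok180⟩, ?_⟩
    refine List.forall_mem_cons.mpr ⟨⟨c181, by rw [htb]; exact ok181⟩, ?_⟩
    refine List.forall_mem_cons.mpr ⟨⟨c182, by rw [htb]; exact ok182⟩, ?_⟩
    refine List.forall_mem_cons.mpr ⟨⟨c183, by rw [htb]; exact ok183⟩, ?_⟩
    refine List.forall_mem_cons.mpr ⟨⟨c184, by rw [htb]; exact ok184⟩, ?_⟩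
    refine List.forall_mem_cons.mpr ⟨⟨c185, by rw [htb]; exact ok185⟩, ?_⟩
    refine List.forall_mem_cons.mpr ⟨⟨c186, by rw [htb]; exact ok186⟩, ?_⟩
    refine List.forall_mem_cons.mpr ⟨⟨c187, by rw [htb]; exact ok187⟩, ?_⟩
    refine List.forall_mem_cons.mpr ⟨⟨c188, by rw [htb]; exact ok188⟩, ?_⟩
    refine List.forall_mem_cons.mpr ⟨⟨c189, by rw [htb]; exact ok189⟩, ?_⟩
    refine List.forall_mem_cons.mpr ⟨⟨c190, by rw [htb]; exact ok190⟩, ?_⟩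
    refine List.forall_mem_cons.mpr ⟨⟨c191, by rw [htb]; exact ok191⟩, ?_⟩
    refine List.forall_mem_cons.mpr ⟨⟨c192, by rw [htb]; exact ok192⟩, ?_⟩
    refine List.forall_mem_cons.mpr ⟨⟨c193, by rw [htb]; exact ok193⟩, ?_⟩
    refine List.forall_mem_cons.mpr ⟨⟨c194, by rw [htb]; exact ok194⟩, ?_⟩
    refine List.forall_mem_cons.mpr ⟨⟨c195, by rw [htb]; exact ok195⟩, ?_⟩
    refine List.forall_mem_cons.mpr ⟨⟨c196, by rw [htb]; exact ok196⟩, ?_⟩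
    refine List.forall_mem_cons.mpr ⟨⟨c197, by rw [htb]; exact ok197⟩, ?_⟩
    refine List.forall_mem_cons.mpr ⟨⟨c198, by rw [htb]; exact ok198⟩, ?_⟩
    refine List.forall_mem_cons.mpr ⟨⟨c199, by rw [htb]; exact ok199⟩, ?_⟩
    refine List.forall_mem_cons.mpr ⟨⟨c200, by rw [htb]; exact ok200⟩, ?_⟩
    refine List.forall_mem_cons.mpr ⟨⟨c201, by rw [htb]; exact ok201⟩, ?_⟩
    refine List.forall_mem_cons.mpr ⟨⟨c202, by rw [htb]; exact ok202⟩, ?_⟩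
    refine List.forall_mem_cons.mpr ⟨⟨c203, by rw [htb]; exact ok203⟩, ?_⟩
    refine List.forall_mem_cons.mpr ⟨⟨c204, by rw [htb]; exact ok204⟩, ?_⟩
    refine List.forall_mem_cons.mpr ⟨⟨c205, by rw [htb]; exact ok205⟩, ?_⟩
    refine List.forall_mem_cons.mpr ⟨⟨c206, by rw [htb]; exact ok206⟩, ?_⟩
    refine List.forall_mem_cons.mpr ⟨⟨c207, by rw [htb]; exact ok207⟩, ?_⟩
    refine List.forall_mem_cons.mpr ⟨⟨c208, by rw [htb]; exact ok208⟩, ?_⟩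
    refine List.forall_mem_cons.mpr ⟨⟨c209, by rw [htb]; exact ok209⟩, ?_⟩
    refine List.forall_mem_cons.mpr ⟨⟨c210, by rw [htb]; exact ok210⟩, ?_⟩
    refine List.forall_mem_cons.mpr ⟨⟨c211, by rw [htb]; exact ok211⟩, ?_⟩
    refine List.forall_mem_cons.mpr ⟨⟨c212, by rw [htb]; exact ok212⟩, ?_⟩
    refine List.forall_mem_cons.mpr ⟨⟨c213, by rw [htb]; exact ok213⟩, ?_⟩
    intro q hq
    exact absurd hq List.not_mem_nil
  exact h tbl rfl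

theorem tbl_zero : ∃ q ∈ tbl, q.n = 0 ∧ q.ops = [] ∧ q.rt = [] :=
  ⟨q0, List.mem_cons_self .., rfl, rfl, rfl⟩

theorem tbl_rt : ∀ q ∈ tbl, q.rt = [] → q.n = 0 := by
  have h : (tbl.all fun q => !q.rt.isEmpty || Nat.beq q.n 0) = true := by decide +kernel
  intro q hq hr
  have h1 := List.all_eq_true.mp h q hq
  rw [hr] at h1
  exact Nat.eq_of_beq_eq_true (by simpa using h1)

theorem parts : Parts where
  flow := TH399.P5.FLOW.t
  cut := TH558.P5.t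
  smp := TH169.P5.smp
  tri := TH169.P5.tri
  quad := TH169.P5.quad
  pet := TH928.P5.PET.t

theorem final : S_FINAL := by
  intro V E _ _ _ _ src dst h1 h2 h3
  exact TH599.P5.MAIN.t tbl tbl_ok tbl_zero tbl_rt parts V E src dst h1 h2 h3

theorem res : S_RES := TH443.P5.t final

end Pool.Agent.TH395.P5
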