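import Pool.Agent.H79.LF.W5h14_Circ_Link
import Pool.Agent.H79.LF.TH443_P5_TRANS

/-!
# The forms of the theorem for cycles and for matroids
-/

set_option autoImplicit false
set_option linter.unusedSectionVars false

namespace Pool.Agent.W5h14.Circ

open Finset Pool.Agent.TH462.T4 Pool.Agent.TH676.T4

variable {V E : Type} [Fintype V] [DecidableEq V] [Fintype E] [DecidableEq E]

/-- two cycles from a flow -/
theorem two_of_flow {src dst : E → V} (h : FlowOn src dst ∅ ∅) :
    ∃ C₁ C₂ : Finset E, TH395.P5.IsCycle src dst C₁ ∧ TH395.P5.IsCycle src dst C₂ ∧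
      C₁ ∪ C₂ = Finset.univ := by
  obtain ⟨f, hf, -, hf0⟩ := h
  refine ⟨univ.filter (fun e => (f e).1 ≠ 0), univ.filter (fun e => (f e).2 ≠ 0), ?_, ?_, ?_⟩
  · intro v
    refine TH443.P5.even_of_sum (fun e => (f e).1) v ?_
    have h1 := congrArg Prod.fst (hf v)
    unfold bd at h1
    rw [Prod.fst_sum] at h1
    refine Eq.trans ?_ h1
    · refine sum_congr rfl fun e _ => ?_
      rw [Prod.fst_add]
      split_ifs <;> rfl
  · intro v
    refine TH443.P5.even_of_sum (fun e => (f e).2) v ?_
    have h1 := congrArg Prod.snd (hf v)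
    unfold bd at h1
    rw [Prod.snd_sum] at h1
    refine Eq.trans ?_ h1
    · refine sum_congr rfl fun e _ => ?_
      rw [Prod.snd_add]
      split_ifs <;> rfl
  · ext e
    simp only [mem_union, mem_filter, mem_univ, true_and, iff_true]
    by_contra h
    push Not at h
    exact hf0 e (notMem_empty e) (notMem_empty e) (Prod.ext h.1 h.2)

/-- circuits as injective maps of the integers modulo `k` -/
theorem cl_of {src dst : E → V} {K : ℕ} (h : ∀ (k : ℕ) (p : ZMod k → V), Function.Injective p →
    (∀ i, ∃ e, (src e = p i ∧ dst e = p (i + 1)) ∨ (src e = p (i + 1) ∧ dst e = p i)) → k ≤ K) :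
    Cl K src dst := by
  intro k hk c hc
  have hpos := hc.pos
  have : NeZero k := ⟨by omega⟩
  have h1 := h k (fun i => c i.val) (fun i j hij => ZMod.val_injective k (hc.inj _ _
    (ZMod.val_lt i) (ZMod.val_lt j) hij)) (fun i => by
    have h2 : c ((i + 1).val) = c (i.val + 1) := by
      rw [hc.eq_iff, ZMod.val_add]
      rw [Nat.mod_mod]
      rcases Nat.lt_or_ge 1 k with h3 | h3
      · have : Fact (1 < k) := ⟨h3⟩
        rw [ZMod.val_one]
      · have : k = 1 := by omega
        subst this
        simp [Nat.mod_one]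
    obtain ⟨_, e, he⟩ := hc.adj i.val
    refine ⟨e, ?_⟩
    rw [h2]
    exact he)
  omega

end Pool.Agent.W5h14.Circ
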