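import Pool.Agent.H79.LF.Cub_Cyc
import Pool.Agent.H79.LF.R62_Helper17_Spider_Menger

set_option autoImplicit false
set_option linter.unusedSectionVars false

/-! # Two disjoint circuits joined by five disjoint paths -/

namespace Pool.Agent.H16.Cub

open Finset

variable {V : Type} [Fintype V] [DecidableEq V]

/-- the vertex is not isolated -/
def Ni (adj : V → V → Prop) (x : V) : Prop := ∃ y, adj x y

/-- the properties of minimal counterexamples which are used -/
structure Good (adj : V → V → Prop) : Prop where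
  sym : ∀ x y, adj x y → adj y x
  irr : ∀ x, ¬ adj x x
  deg : ∀ v, Ni adj v → ∀ u1 u2, ∃ w, adj v w ∧ w ≠ u1 ∧ w ≠ u2
  girth : ∀ k c, Cyc adj k c → 5 ≤ k
  sep : ∀ I Z : Finset V, (∀ x ∈ I, ∀ y, adj x y → y ∈ I ∨ y ∈ Z) → Disjoint I Z → Z.card ≤ 4 →
    (∀ A : Finset V, A ⊆ I → (∀ x ∈ A, Ni adj x) → A.card ≤ Z.card - 2) ∨
    (∀ A : Finset V, Disjoint A (I ∪ Z) → (∀ x ∈ A, Ni adj x) → A.card ≤ Z.card - 2)

variable {adj : V → V → Prop}

/-- a circuit of length five has no two vertices with a common neighbour outside -/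
theorem Good.five {k : ℕ} {c : ℕ → V} (hG : Good adj) (h : Cyc adj k c) (hk : k ≤ 5) {w : V}
    (hw : ∀ t, w ≠ c t) {s t : ℕ} (hne : c s ≠ c t) (h1 : adj w (c s)) (h2 : adj w (c t)) :
    False := by
  obtain ⟨k', c', h3, h4, -⟩ := h.short hG.sym hw hne h1 h2
  have := hG.girth _ _ h3
  omega

/-- a circuit is not contained in the closure of the small side of a separation -/
theorem Good.small (hG : Good adj) {k : ℕ} {c : ℕ → V} (h : Cyc adj k c)
    (hout : ∀ t, ∃ w, adj (c t) w ∧ ∀ s, w ≠ c s) (I Z : Finset V)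
    (hcl : ∀ x ∈ I, ∀ y, adj x y → y ∈ I ∨ y ∈ Z) (hdis : Disjoint I Z)
    (hK : ∀ t, c t ∈ I ∨ c t ∈ Z) (hZ : Z.card ≤ 4)
    (hI : ∀ A : Finset V, A ⊆ I → (∀ x ∈ A, Ni adj x) → A.card ≤ Z.card - 2) : False := by
  classical
  have hk := hG.girth _ _ h
  have hni : ∀ t, Ni adj (c t) := fun t => ⟨_, h.adj t⟩
  set I' := I.filter (fun x => Ni adj x) with hI'
  have hI'c : I'.card ≤ Z.card - 2 := hI _ (filter_subset _ _) (fun x hx => (mem_filter.mp hx).2)
  have hmI : ∀ {x}, x ∈ I' ↔ x ∈ I ∧ Ni adj x := by intro x; rw [hI', mem_filter]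
  set K := (range k).image c with hKdef
  have hKm : ∀ t, c t ∈ K := by
    intro t
    rw [hKdef, mem_image]
    exact ⟨t % k, mem_range.mpr (Nat.mod_lt _ (by omega)), h.mod t⟩
  have hKm' : ∀ {x}, x ∈ K → ∃ t, x = c t := by
    intro x hx
    obtain ⟨t, _, ht⟩ := mem_image.mp hx
    exact ⟨t, ht.symm⟩
  have hKc : K.card = k := by
    rw [hKdef, card_image_of_injOn, card_range]
    intro s hs t ht hst
    by_contra hne
    rw [coe_range, Set.mem_Iio] at hs ht
    rcases lt_or_gt_of_ne hne with h1 | h1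
    · exact h.inj _ _ h1 (by omega) hst
    · exact h.inj _ _ h1 (by omega) hst.symm
  have hKs : K ⊆ I' ∪ Z := by
    intro x hx
    obtain ⟨t, rfl⟩ := hKm' hx
    rw [mem_union, hmI]
    rcases hK t with h1 | h1
    · exact Or.inl ⟨h1, hni t⟩
    · exact Or.inr h1
  have hcard : (I' ∪ Z).card ≤ I'.card + Z.card := card_union_le _ _
  -- a vertex of the circuit in `I`
  obtain ⟨t0, ht0⟩ : ∃ t, c t ∈ I' := by
    by_contra hno
    push Not at hno
    have h1 : K ⊆ Z := by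
      intro x hx
      rcases mem_union.mp (hKs hx) with h2 | h2
      · obtain ⟨t, rfl⟩ := hKm' hx
        exact absurd h2 (hno t)
      · exact h2
    have := card_le_card h1
    omega
  have hstep : ∀ x ∈ I', ∀ y, adj x y → y ∈ I' ∪ Z := by
    intro x hx y hxy
    rw [mem_union, hmI]
    rcases hcl x (hmI.mp hx).1 y hxy with h1 | h1
    · exact Or.inl ⟨h1, x, hG.sym _ _ hxy⟩
    · exact Or.inr h1
  obtain ⟨w, hw1, hw2⟩ := hout t0
  have hwK : w ∉ K := by
    intro h1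
    obtain ⟨t, ht⟩ := hKm' h1
    exact hw2 t ht
  have hins : insert w K ⊆ I' ∪ Z := by
    intro x hx
    rcases mem_insert.mp hx with rfl | h1
    · exact hstep _ ht0 _ hw1
    · exact hKs h1
  have hic : (insert w K).card = k + 1 := by rw [card_insert_of_notMem hwK, hKc]
  have hle := card_le_card hins
  have hk5 : k = 5 := by omega
  have heq : insert w K = I' ∪ Z := eq_of_subset_of_card_le hins (by omega)
  have hI2 : I'.card = 2 := by omega
  by_cases hwI : w ∈ I'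
  · -- two neighbours of `w`
    have hwN := (hmI.mp hwI).2
    have hnb : ∀ y, adj w y → ∃ t, y = c t := by
      intro y hy
      have h1 := hstep _ hwI _ hy
      rw [← heq] at h1
      rcases mem_insert.mp h1 with h2 | h2
      · exact absurd (h2 ▸ hy) (hG.irr _)
      · exact hKm' h2
    obtain ⟨a, ha, -, -⟩ := hG.deg w hwN w w
    obtain ⟨b, hb, hba, -⟩ := hG.deg w hwN a a
    obtain ⟨s, rfl⟩ := hnb a ha
    obtain ⟨t, rfl⟩ := hnb b hb
    exact hG.five h hk5.le hw2 (Ne.symm hba) ha hb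
  · obtain ⟨x, y, hxy, hI2'⟩ := card_eq_two.mp hI2
    have hall : ∀ x ∈ I', ∃ t, x = c t ∧ adj w x := by
      intro x hx
      have h1 : x ∈ I' ∪ Z := mem_union_left _ hx
      rw [← heq] at h1
      rcases mem_insert.mp h1 with h2 | h2
      · exact absurd (h2 ▸ hx) hwI
      · obtain ⟨t, rfl⟩ := hKm' h2
        refine ⟨t, rfl, ?_⟩
        obtain ⟨w', hw1', hw2'⟩ := hout t
        have h3 := hstep _ hx _ hw1'
        rw [← heq] at h3
        rcases mem_insert.mp h3 with h4 | h4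
        · exact h4 ▸ hG.sym _ _ hw1'
        · obtain ⟨s, hs⟩ := hKm' h4
          exact absurd hs (hw2' s)
    obtain ⟨s, rfl, hs⟩ := hall x (by rw [hI2']; exact mem_insert_self _ _)
    obtain ⟨t, rfl, ht⟩ := hall y (by rw [hI2']; exact mem_insert_of_mem (mem_singleton_self _))
    exact hG.five h hk5.le hw2 hxy hs ht

/-- **Two disjoint circuits.** -/
theorem Good.two (hG : Good adj) (hne : ∃ x, Ni adj x) :
    ∃ k c m d, Cyc adj k c ∧ Cyc adj m d ∧ (∀ s t, c s ≠ d t) ∧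
      (∀ t, ∃ w, adj (c t) w ∧ ∀ s, w ≠ c s) ∧ (∀ t, ∃ w, adj (d t) w ∧ ∀ s, w ≠ d s) := by
  classical
  -- the shortest circuit
  have hex : ∃ k, ∃ c, Cyc adj k c := by
    obtain ⟨k, c, h, -⟩ := exists_cyc (adj := adj) {x | Ni adj x} hG.irr hne (by
      intro u v hv
      obtain ⟨w, hw, hw2, -⟩ := hG.deg v hv u u
      exact ⟨w, ⟨v, hG.sym _ _ hw⟩, hw, hw2⟩)
    exact ⟨k, c, h⟩
  obtain ⟨c, hc⟩ := Nat.find_spec hex
  set k := Nat.find hex with hk
  have hkmin : ∀ k' c', Cyc adj k' c' → k ≤ k' := fun k' c' h => Nat.find_min' hex ⟨c', h⟩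
  have hk5 := hG.girth _ _ hc
  have hc1 : ∀ w, (∀ t, w ≠ c t) → ∀ s t, adj w (c s) → adj w (c t) → c s = c t := by
    intro w hw s t h1 h2
    by_contra hne
    obtain ⟨k', c', h3, h4, -⟩ := hc.short hG.sym hw hne h1 h2
    have := hkmin _ _ h3
    omega
  have hc2 : ∀ s t, adj (c s) (c t) → c t = c (s + 1) ∨ c s = c (t + 1) := by
    intro s t h1
    by_contra hno
    push Not at hno
    obtain ⟨k', c', h3, h4, -⟩ := hc.chord hG.sym (s := s) (t := t)
      (fun h => hG.irr (c s) (by rw [← h] at h1; exact h1)) h1 hno.1 hno.2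
    have := hkmin _ _ h3
    omega
  have out_of : ∀ {k : ℕ} {c : ℕ → V}, Cyc adj k c →
      (∀ s t, adj (c s) (c t) → c t = c (s + 1) ∨ c s = c (t + 1)) →
      ∀ (P : V → Prop), (∀ t, ∀ u1 u2, ∃ w, adj (c t) w ∧ P w ∧ w ≠ u1 ∧ w ≠ u2) →
      ∀ t, ∃ w, adj (c t) w ∧ P w ∧ ∀ s, w ≠ c s := by
    intro k c hc hch P hP t
    have h3 := hc.three
    -- the predecessor of `c t`
    have hprev : ∀ s, c t = c (s + 1) → c s = c (t + (k - 1)) := by
      intro s hs
      have e1 : c (t + k) = c t := hc.per t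
      by_contra hne
      have e2 : c s = c (s % k) := (hc.mod s).symm
      have hs' : s % k < k := Nat.mod_lt _ (by omega)
      have e3 : c (t + (k - 1)) = c ((t + (k - 1)) % k) := (hc.mod _).symm
      have ht' : (t + (k - 1)) % k < k := Nat.mod_lt _ (by omega)
      have e5 : c ((s + 1) % k) = c (t % k) := by rw [hc.mod, hc.mod]; exact hs.symm
      have e6 : (s + 1) % k = t % k := by
        by_contra hne3
        have ha : (s + 1) % k < k := Nat.mod_lt _ (by omega)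
        have hb : t % k < k := Nat.mod_lt _ (by omega)
        rcases lt_or_gt_of_ne hne3 with h4 | h4
        · exact hc.inj _ _ h4 (by omega) e5
        · exact hc.inj _ _ h4 (by omega) e5.symm
      apply hne
      rw [e2, e3]
      congr 1
      have e7 : (s + 1 + (k - 1)) % k = (t + (k - 1)) % k := by
        rw [Nat.add_mod, e6, ← Nat.add_mod]
      rw [← e7, show s + 1 + (k - 1) = s + k by omega, Nat.add_mod_right]
    obtain ⟨w, hw, hPw, h1, h2⟩ := hP t (c (t + 1)) (c (t + (k - 1)))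
    refine ⟨w, hw, hPw, fun s hs => ?_⟩
    rw [hs] at hw h1 h2
    rcases hch t s hw with h4 | h4
    · exact h1 h4
    · exact h2 (hprev s h4)
  have hout : ∀ t, ∃ w, adj (c t) w ∧ ∀ s, w ≠ c s := by
    intro t
    obtain ⟨w, h1, -, h3⟩ := out_of hc hc2 (fun _ => True) (fun t u1 u2 => by
      obtain ⟨w, h1, h2, h3⟩ := hG.deg (c t) ⟨_, hc.adj t⟩ u1 u2
      exact ⟨w, h1, trivial, h2, h3⟩) t
    exact ⟨w, h1, h3⟩
  -- the rest of the graph
  let W : Set V := {x | Ni adj x ∧ ∀ t, x ≠ c t}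
  have hWne : W.Nonempty := by
    obtain ⟨w, h1, h2⟩ := hout 0
    exact ⟨w, ⟨_, hG.sym _ _ h1⟩, h2⟩
  have hWdeg : ∀ v ∈ W, ∀ u, ∃ w ∈ W, adj v w ∧ w ≠ u := by
    intro v hv u
    by_cases hnb : ∃ s, adj v (c s)
    · obtain ⟨s, hs⟩ := hnb
      obtain ⟨w, h1, h2, h3⟩ := hG.deg v hv.1 u (c s)
      refine ⟨w, ⟨⟨v, hG.sym _ _ h1⟩, fun t ht => ?_⟩, h1, h2⟩
      rw [ht] at h1 h3
      exact h3 (hc1 v hv.2 t s h1 hs)
    · push Not at hnb
      obtain ⟨w, h1, h2, h3⟩ := hG.deg v hv.1 u u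
      exact ⟨w, ⟨⟨v, hG.sym _ _ h1⟩, fun t ht => hnb t (ht ▸ h1)⟩, h1, h2⟩
  have hex2 : ∃ m, ∃ d, Cyc adj m d ∧ ∀ t, d t ∈ W := by
    obtain ⟨m, d, h1, h2⟩ := exists_cyc (adj := adj) W hG.irr hWne
      (fun u v hv => hWdeg v hv u)
    exact ⟨m, d, h1, h2⟩
  obtain ⟨d, hd, hdW⟩ := Nat.find_spec hex2
  set m := Nat.find hex2 with hm
  have hmmin : ∀ k' c', Cyc adj k' c' → (∀ t, c' t ∈ W) → m ≤ k' :=
    fun k' c' h h' => Nat.find_min' hex2 ⟨c', h, h'⟩
  have hm5 := hG.girth _ _ hd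
  have hd2 : ∀ s t, adj (d s) (d t) → d t = d (s + 1) ∨ d s = d (t + 1) := by
    intro s t h1
    by_contra hno
    push Not at hno
    obtain ⟨k', c', h3, h4, h5⟩ := hd.chord hG.sym (s := s) (t := t)
      (fun h => hG.irr (d s) (by rw [← h] at h1; exact h1)) h1 hno.1 hno.2
    have := hmmin _ _ h3 (fun t => by
      obtain ⟨s, hs⟩ := h5 t
      rw [hs]; exact hdW s)
    omega
  refine ⟨k, c, m, d, hc, hd, fun s t h => (hdW t).2 s h.symm, hout, fun t => ?_⟩
  obtain ⟨w, h1, -, h3⟩ := out_of hd hd2 (fun _ => True) (fun t u1 u2 => by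
    obtain ⟨w, h1, h2, h3⟩ := hG.deg (d t) ⟨_, hd.adj t⟩ u1 u2
    exact ⟨w, h1, trivial, h2, h3⟩) t
  exact ⟨w, h1, h3⟩

/-- **Five disjoint paths.** -/
theorem Good.paths (hG : Good adj) {k m : ℕ} {c d : ℕ → V} (hc : Cyc adj k c)
    (hd : Cyc adj m d) (hcd : ∀ s t, c s ≠ d t) (hc1 : ∀ t, ∃ w, adj (c t) w ∧ ∀ s, w ≠ c s)
    (hd1 : ∀ t, ∃ w, adj (d t) w ∧ ∀ s, w ≠ d s) :
    ∃ U : Fin 5 → Set V, (∀ i j, i ≠ j → ∀ x, x ∈ U i → x ∉ U j) ∧
      ∀ i, ∃ s t, c s ∈ U i ∧ Relation.ReflTransGen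
        (fun a b => (adj a b ∧ (∀ t, b ≠ c t) ∧ ∀ t, a ≠ d t) ∧ b ∈ U i) (c s) (d t) := by
  classical
  rcases Pool.Agent.H17Sp.menger_sets
    (fun a b => adj a b ∧ (∀ t, b ≠ c t) ∧ ∀ t, a ≠ d t) (Set.range c) (Set.range d) 5 with
    ⟨U, h1, h2⟩ | ⟨Z, hZ, hsep⟩
  · refine ⟨U, h1, fun i => ?_⟩
    obtain ⟨_, ⟨s, rfl⟩, h3, _, ⟨t, rfl⟩, h4⟩ := h2 i
    exact ⟨s, t, h3, h4⟩
  · exfalso
    -- the vertices which can be reached from the first circuit
    set R : Finset V := univ.filter (fun v => ∃ s, c s ∉ Z ∧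
      Relation.ReflTransGen (fun a b => adj a b ∧ b ∉ Z) (c s) v) with hR
    have hRm : ∀ {v}, v ∈ R ↔ ∃ s, c s ∉ Z ∧
      Relation.ReflTransGen (fun a b => adj a b ∧ b ∉ Z) (c s) v := by
      intro v; rw [hR, mem_filter]; simp
    have hRZ : ∀ v ∈ R, v ∉ Z := by
      intro v hv
      obtain ⟨s, hs, hp⟩ := hRm.mp hv
      cases hp with
      | refl => exact hs
      | tail _ h3 => exact h3.2
    have hRd : ∀ t, d t ∉ R := by
      intro t hv
      obtain ⟨s, hs, hp⟩ := hRm.mp hv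
      have key : ∀ v, Relation.ReflTransGen (fun a b => adj a b ∧ b ∉ Z) (c s) v →
          ∃ s', c s' ∉ Z ∧ (∀ t, v ≠ d t) ∧ Relation.ReflTransGen (fun a b =>
            (adj a b ∧ (∀ t, b ≠ c t) ∧ ∀ t, a ≠ d t) ∧ b ∉ Z) (c s') v := by
        intro v hv
        induction hv with
        | refl => exact ⟨s, hs, fun t => hcd s t, .refl⟩
        | @tail b e _ h3 ih =>
          obtain ⟨s', h4, h5, h6⟩ := ih
          by_cases he : ∃ r, e = c r
          · obtain ⟨r, rfl⟩ := he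
            exact ⟨r, h3.2, fun t => hcd r t, .refl⟩
          · push Not at he
            have h7 : Relation.ReflTransGen (fun a b =>
              (adj a b ∧ (∀ t, b ≠ c t) ∧ ∀ t, a ≠ d t) ∧ b ∉ Z) (c s') e :=
              h6.tail ⟨⟨h3.1, he, h5⟩, h3.2⟩
            refine ⟨s', h4, fun r hr => ?_, h7⟩
            exact hsep (c s') ⟨s', rfl⟩ h4 (d r) ⟨r, rfl⟩ (hr ▸ h7)
      obtain ⟨s', _, h5, _⟩ := key _ hp
      exact h5 t rfl
    have hcl : ∀ x ∈ R, ∀ y, adj x y → y ∈ R ∨ y ∈ Z := by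
      intro x hx y hxy
      by_cases hy : y ∈ Z
      · exact Or.inr hy
      · left
        obtain ⟨s, hs, hp⟩ := hRm.mp hx
        exact hRm.mpr ⟨s, hs, hp.tail ⟨hxy, hy⟩⟩
    have hdis : Disjoint R Z := by
      rw [disjoint_left]
      exact hRZ
    have hcK : ∀ t, c t ∈ R ∨ c t ∈ Z := by
      intro t
      by_cases h3 : c t ∈ Z
      · exact Or.inr h3
      · exact Or.inl (hRm.mpr ⟨t, h3, .refl⟩)
    have hZ4 : Z.card ≤ 4 := by omega
    rcases hG.sep R Z hcl hdis hZ4 with h | h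
    · exact hG.small hc hc1 R Z hcl hdis hcK hZ4 h
    · refine hG.small hd hd1 (R ∪ Z)ᶜ Z ?_ ?_ ?_ hZ4 ?_
      · intro x hx y hxy
        rw [mem_compl, mem_union, not_or] at hx
        by_cases hy : y ∈ Z
        · exact Or.inr hy
        · left
          rw [mem_compl, mem_union, not_or]
          refine ⟨fun hyR => ?_, hy⟩
          rcases hcl y hyR x (hG.sym _ _ hxy) with h3 | h3
          · exact hx.1 h3
          · exact hx.2 h3
      · rw [disjoint_left]
        intro x hx hxZ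
        rw [mem_compl, mem_union, not_or] at hx
        exact hx.2 hxZ
      · intro t
        by_cases hy : d t ∈ Z
        · exact Or.inr hy
        · left
          rw [mem_compl, mem_union, not_or]
          exact ⟨hRd t, hy⟩
      · intro A hA hAn
        refine h A ?_ hAn
        rw [disjoint_left]
        intro x hx
        exact mem_compl.mp (hA hx)

end Pool.Agent.H16.Cub
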