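import Pool.Agent.H79.LF.Cub_Main
import Pool.Agent.H79.LF.TH676_Blk_Main

set_option autoImplicit false
set_option linter.unusedSectionVars false

/-! # Cographic matroids: minors and blocks -/

namespace Pool.Agent.H16.Cub

open Finset Pool.Agent.TH462.T4 Pool.Agent.TH676.T4
open Pool.Agent.TH676.Blk (RepCo sum_star sum_star_mem mem_cutspace)
open Pool.Agent.TH499.TF (dlt mem_dlt)

variable {K L : Type} [Fintype K] [DecidableEq K] [Fintype L] [DecidableEq L]

/-- the cut space of a graph -/
def CS (pa pb : L → K) : Submodule (ZMod 2) (L → ZMod 2) :=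
  Submodule.span (ZMod 2) (Set.range (fun v : K => fun l : L =>
    if pa l = v ∨ pb l = v then (1 : ZMod 2) else 0))

theorem z2_cases (x : ZMod 2) : x = 0 ∨ x = 1 := by revert x; decide

theorem sum_cs {pa pb : L → K} (hne : ∀ l, pa l ≠ pb l) (J : Finset K)
    (l : L) : (∑ v ∈ J, (fun l : L =>
    if pa l = v ∨ pb l = v then (1 : ZMod 2) else 0)) l =
      if (pa l ∈ J ↔ pb l ∈ J) then 0 else 1 := by
  rw [Finset.sum_apply]
  have h1 : ∀ v, (if pa l = v ∨ pb l = v then (1 : ZMod 2) else 0)
      = (if pa l = v then 1 else 0) + (if pb l = v then 1 else 0) := by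
    intro v
    have := hne l
    by_cases a : pa l = v <;> by_cases b : pb l = v
    · exact absurd (a.trans b.symm) this
    · simp [a, b]
    · simp [a, b]
    · simp [a, b]
  simp only [h1]
  rw [sum_add_distrib, sum_ite_eq, sum_ite_eq]
  by_cases p : pa l ∈ J <;> by_cases q : pb l ∈ J <;> simp [p, q]
  decide

/-- the elements of the cut space are the cuts -/
theorem mem_CS {pa pb : L → K} (hne : ∀ l, pa l ≠ pb l)
    (x : L → ZMod 2) :
    x ∈ CS pa pb ↔ ∃ J : Finset K, ∀ l, x l = if (pa l ∈ J ↔ pb l ∈ J) then 0 else 1 := by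
  constructor
  · intro hx
    obtain ⟨c, hc⟩ := (Submodule.mem_span_range_iff_exists_fun (ZMod 2)).mp hx
    refine ⟨univ.filter (fun v => c v = 1), fun l => ?_⟩
    have h1 : (∑ v, c v • (fun l : L => if pa l = v ∨ pb l = v then (1 : ZMod 2) else 0)) =
        ∑ v ∈ univ.filter (fun v => c v = 1), (fun l : L =>
          if pa l = v ∨ pb l = v then (1 : ZMod 2) else 0) := by
      rw [sum_filter]
      refine sum_congr rfl fun v _ => ?_
      rcases z2_cases (c v) with h | h
      · rw [h]; simp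
      · rw [h]; simp
    rw [← sum_cs hne, ← hc, h1]
  · rintro ⟨J, hJ⟩
    have h1 : x = ∑ v ∈ J, (fun l : L => if pa l = v ∨ pb l = v then (1 : ZMod 2) else 0) := by
      funext l
      rw [hJ l, sum_cs hne]
    rw [h1]
    exact Submodule.sum_mem _ fun v _ => Submodule.subset_span ⟨v, rfl⟩

/-- the graph is simple, has no isolated vertices and no cuts with two edges -/
structure Nice (pa pb : L → K) : Prop where
  ne : ∀ l, pa l ≠ pb l
  smp : ∀ k l, (pa k = pa l ∧ pb k = pb l) ∨ (pa k = pb l ∧ pb k = pa l) → k = l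
  cov : ∀ i, ∃ l, pa l = i ∨ pb l = i
  pair : ∀ a b : L, a ≠ b → (Pi.single a 1 + Pi.single b 1 : L → ZMod 2) ∉ CS pa pb

theorem pair_of_cut {pa pb : L → K} (hne : ∀ l, pa l ≠ pb l)
    (hcut : ∀ J : Finset K, (univ.filter (fun l => ¬ (pa l ∈ J ↔ pb l ∈ J))).card ≠ 2) (a b : L)
    (hab : a ≠ b) : (Pi.single a 1 + Pi.single b 1 : L → ZMod 2) ∉ CS pa pb := by
  intro h
  obtain ⟨J, hJ⟩ := (mem_CS hne _).mp h
  apply hcut J
  rw [card_eq_two]
  refine ⟨a, b, hab, ?_⟩
  ext l
  rw [mem_filter, mem_insert, mem_singleton]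
  have h1 := hJ l
  constructor
  · rintro ⟨-, h2⟩
    rw [if_neg h2] at h1
    by_contra h3
    push Not at h3
    rw [Pi.add_apply, Pi.single_eq_of_ne h3.1, Pi.single_eq_of_ne h3.2] at h1
    exact absurd h1 (by decide)
  · intro h2
    refine ⟨mem_univ _, fun h3 => ?_⟩
    rw [if_pos h3] at h1
    rcases h2 with rfl | rfl
    · rw [Pi.add_apply, Pi.single_eq_same, Pi.single_eq_of_ne hab] at h1
      exact absurd h1 (by decide)
    · rw [Pi.add_apply, Pi.single_eq_same, Pi.single_eq_of_ne hab.symm] at h1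
      exact absurd h1 (by decide)

variable {V E : Type} [Fintype V] [DecidableEq V] [Fintype E] [DecidableEq E]

/-- **A minor of the graph gives a minor of the cographic matroid.** -/
theorem minor_gen {src dst : E → V} {n : ℕ} {vec : E → Fin n → ZMod 2}
    (hv : RepCo src dst vec) {pa pb : L → K} (hN : Nice pa pb)
    (hP : Mnr pa pb src dst) :
    ∃ (D : Finset E) (ed : L → E), Function.Injective (fun l => vec (ed l)) ∧
      ∀ x : L → ZMod 2,
      ∑ k, x k • vec (ed k) ∈ Submodule.span (ZMod 2) (vec '' (D : Set E)) ↔ x ∈ CS pa pb := by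
  classical
  obtain ⟨B, b1, b2, b3⟩ := hP
  choose ed hed using b3
  have buniq : ∀ {v i j}, v ∈ B i → v ∈ B j → i = j := by
    intro v i j hi hj
    by_contra h
    exact disjoint_left.mp (b2 i j h) hi hj
  have edinj : Function.Injective ed := by
    intro k l hkl
    apply hN.smp
    have h1 := hed k
    have h2 := hed l
    rw [← hkl] at h2
    rcases h1 with ⟨h1, h1'⟩ | ⟨h1, h1'⟩ <;> rcases h2 with ⟨h2, h2'⟩ | ⟨h2, h2'⟩
    · exact Or.inl ⟨buniq h1 h2, buniq h1' h2'⟩
    · exact Or.inr ⟨buniq h1 h2, buniq h1' h2'⟩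
    · exact Or.inr ⟨buniq h1' h2', buniq h1 h2⟩
    · exact Or.inl ⟨buniq h1' h2', buniq h1 h2⟩
  have ednot : ∀ k i, ¬ (src (ed k) ∈ B i ∧ dst (ed k) ∈ B i) := by
    rintro k i ⟨h1, h2⟩
    apply hN.ne k
    rcases hed k with ⟨h3, h4⟩ | ⟨h3, h4⟩
    · exact (buniq h3 h1).trans (buniq h2 h4)
    · exact (buniq h4 h2).trans (buniq h1 h3)
  let D : Finset E := univ.filter (fun e => (∀ k, e ≠ ed k) ∧
    ∀ i, ¬ (src e ∈ B i ∧ dst e ∈ B i))
  have hD : ∀ e, e ∈ D ↔ (∀ k, e ≠ ed k) ∧ ∀ i, ¬ (src e ∈ B i ∧ dst e ∈ B i) := by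
    intro e; simp [D]
  have hsplit : ∀ (y : E → ZMod 2), (∀ e, (∃ i, src e ∈ B i ∧ dst e ∈ B i) → y e = 0) →
      ∑ e, y e • vec e = ∑ k, y (ed k) • vec (ed k) + ∑ e ∈ D, y e • vec e := by
    intro y hy
    have h1 : (univ : Finset E) = univ.image ed ∪ (D ∪ univ.filter (fun e =>
        ∃ i, src e ∈ B i ∧ dst e ∈ B i)) := by
      ext e
      simp only [mem_univ, mem_union, mem_image, true_and, mem_filter, hD, true_iff]
      by_cases h : ∃ k, ed k = e
      · exact Or.inl h
      · push Not at h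
        by_cases h2 : ∃ i, src e ∈ B i ∧ dst e ∈ B i
        · exact Or.inr (Or.inr h2)
        · push Not at h2
          exact Or.inr (Or.inl ⟨fun k => (h k).symm, fun i h3 => h2 i h3.1 h3.2⟩)
    rw [h1, sum_union, sum_union, sum_image]
    · have h3 : ∑ e ∈ univ.filter (fun e => ∃ i, src e ∈ B i ∧ dst e ∈ B i), y e • vec e = 0 := by
        refine sum_eq_zero fun e he => ?_
        rw [hy e (mem_filter.mp he).2, zero_smul]
      rw [h3, add_zero]
    · intro k _ l _ h; exact edinj h
    · rw [disjoint_left]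
      intro e he he2
      obtain ⟨i, hi⟩ := (mem_filter.mp he2).2
      exact ((hD e).mp he).2 i hi
    · rw [disjoint_left]
      intro e he he2
      obtain ⟨k, _, rfl⟩ := mem_image.mp he
      rcases mem_union.mp he2 with h | h
      · exact ((hD _).mp h).1 k rfl
      · obtain ⟨i, hi⟩ := (mem_filter.mp h).2
        exact ednot k i hi
  have hcut : ∀ (J : Finset K) (Y : Finset V), (∀ i, (i ∈ J → B i ⊆ Y) ∧
      (i ∉ J → Disjoint (B i) Y)) → ∀ k, (ed k ∈ dlt src dst Y ↔ ¬ (pa k ∈ J ↔ pb k ∈ J)) := by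
    intro J Y hJ k
    rw [mem_dlt]
    have h1 : ∀ {v i}, v ∈ B i → (v ∈ Y ↔ i ∈ J) := by
      intro v i hv
      constructor
      · intro h
        by_contra h2
        exact disjoint_left.mp ((hJ i).2 h2) hv h
      · intro h
        exact (hJ i).1 h hv
    rcases hed k with ⟨h2, h3⟩ | ⟨h2, h3⟩
    · rw [h1 h2, h1 h3]
    · rw [h1 h2, h1 h3]
      exact not_congr ⟨fun h => h.symm, fun h => h.symm⟩
  have main : ∀ x : L → ZMod 2,
      ∑ k, x k • vec (ed k) ∈ Submodule.span (ZMod 2) (vec '' (D : Set E)) ↔ x ∈ CS pa pb := by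
    refine fun x => ⟨fun hx => ?_, fun hx => ?_⟩
    · obtain ⟨c0, hc0⟩ := (Submodule.mem_span_image_finset_iff_exists_fun (ZMod 2)).mp hx
      let c : E → ZMod 2 := fun e => if h : e ∈ D then c0 ⟨e, h⟩ else 0
      have hc : ∑ e ∈ D, c e • vec e = ∑ k, x k • vec (ed k) := by
        rw [← hc0, ← Finset.sum_coe_sort D (fun e => c e • vec e)]
        refine sum_congr rfl fun i _ => ?_
        simp only [c]
        rw [dif_pos i.2]
      let y : E → ZMod 2 := fun e => if h : ∃ k, ed k = e then x h.choose else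
        if e ∈ D then c e else 0
      have y1 : ∀ k, y (ed k) = x k := by
        intro k
        have h : ∃ l, ed l = ed k := ⟨k, rfl⟩
        simp only [y]
        rw [dif_pos h]
        exact congrArg x (edinj h.choose_spec)
      have y2 : ∀ e ∈ D, y e = c e := by
        intro e he
        have h : ¬ ∃ k, ed k = e := by
          rintro ⟨k, rfl⟩
          exact ((hD _).mp he).1 k rfl
        simp only [y]
        rw [dif_neg h, if_pos he]
      have y3 : ∀ e, (∃ i, src e ∈ B i ∧ dst e ∈ B i) → y e = 0 := by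
        rintro e ⟨i, hi⟩
        have h : ¬ ∃ k, ed k = e := by
          rintro ⟨k, rfl⟩
          exact ednot k i hi
        simp only [y]
        rw [dif_neg h, if_neg (fun h2 => ((hD e).mp h2).2 i hi)]
      have hsum : ∑ e, y e • vec e = 0 := by
        have e1 : ∑ e ∈ D, y e • vec e = ∑ e ∈ D, c e • vec e :=
          sum_congr rfl (fun e he => by rw [y2 e he])
        have e2 : ∑ k, y (ed k) • vec (ed k) = ∑ k, x k • vec (ed k) :=
          sum_congr rfl (fun k _ => by rw [y1 k])
        rw [hsplit y y3, e1, e2, hc]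
        funext i
        rw [Pi.add_apply]
        exact CharTwo.add_self_eq_zero _
      obtain ⟨Y, hY⟩ := mem_cutspace src dst y ((hv y).mp hsum)
      rw [mem_CS hN.ne]
      refine ⟨univ.filter (fun i => B i ⊆ Y), fun k => ?_⟩
      have h4 := hcut (univ.filter (fun i => B i ⊆ Y)) Y (fun i => ⟨fun h => (mem_filter.mp h).2,
        fun h => ?_⟩) k
      · rw [← y1 k, hY (ed k)]
        by_cases h5 : ed k ∈ dlt src dst Y
        · rw [if_pos h5, if_neg (h4.mp h5)]
        · rw [if_neg h5, if_pos (by_contra fun h6 => h5 (h4.mpr h6))]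
      · rw [disjoint_left]
        intro v hvi hvY
        apply h
        rw [mem_filter]
        refine ⟨mem_univ _, ?_⟩
        by_contra hns
        obtain ⟨e, he⟩ := (b1 i).2 ((B i).filter (fun w => w ∈ Y))
          (filter_subset _ _) ⟨v, mem_filter.mpr ⟨hvi, hvY⟩⟩ (fun heq => hns (fun w hw => by
            rw [← heq] at hw
            exact (mem_filter.mp hw).2))
        have hmm : ∀ b, b ∈ B i \ (B i).filter (fun w => w ∈ Y) → b ∈ B i ∧ b ∉ Y := by
          intro b hb
          rw [mem_sdiff] at hb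
          exact ⟨hb.1, fun h6 => hb.2 (mem_filter.mpr ⟨hb.1, h6⟩)⟩
        have h7 : e ∈ dlt src dst Y ∧ src e ∈ B i ∧ dst e ∈ B i := by
          rw [mem_dlt]
          rcases he with ⟨h8, h9⟩ | ⟨h8, h9⟩
          · have h8' := mem_filter.mp h8
            have h9' := hmm _ h9
            exact ⟨fun h10 => h9'.2 (h10.mp h8'.2), h8'.1, h9'.1⟩
          · have h9' := mem_filter.mp h9
            have h8' := hmm _ h8
            exact ⟨fun h10 => h8'.2 (h10.mpr h9'.2), h8'.1, h9'.1⟩
        have h11 := hY e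
        rw [if_pos h7.1, y3 e ⟨i, h7.2⟩] at h11
        exact absurd h11 (by decide)
    · obtain ⟨J, hJ⟩ := (mem_CS hN.ne x).mp hx
      let Y : Finset V := J.biUnion B
      have hYJ : ∀ i, (i ∈ J → B i ⊆ Y) ∧ (i ∉ J → Disjoint (B i) Y) := by
        intro i
        constructor
        · intro hi v hv
          exact mem_biUnion.mpr ⟨i, hi, hv⟩
        · intro hi
          rw [disjoint_left]
          intro v hv hvY
          obtain ⟨j, hj, hvj⟩ := mem_biUnion.mp hvY
          exact hi (buniq hvj hv ▸ hj)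
      have h1 := (hv _).mpr (sum_star_mem src dst Y)
      rw [hsplit _ (by
        rintro e ⟨i, hi1, hi2⟩
        rw [sum_star, if_neg]
        rw [mem_dlt, not_not]
        by_cases hi : i ∈ J
        · exact iff_of_true ((hYJ i).1 hi hi1) ((hYJ i).1 hi hi2)
        · exact iff_of_false (fun h => disjoint_left.mp ((hYJ i).2 hi) hi1 h)
            (fun h => disjoint_left.mp ((hYJ i).2 hi) hi2 h))] at h1
      have h2 : ∀ k, (∑ v ∈ Y, Pool.Agent.TH676.Blk.star src dst v) (ed k) = x k := by
        intro k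
        rw [sum_star, hJ k]
        have h4 := hcut J Y hYJ k
        by_cases h5 : ed k ∈ dlt src dst Y
        · rw [if_pos h5, if_neg (h4.mp h5)]
        · rw [if_neg h5, if_pos (by_contra fun h6 => h5 (h4.mpr h6))]
      have e2 : ∑ k, (∑ v ∈ Y, Pool.Agent.TH676.Blk.star src dst v) (ed k) • vec (ed k) =
          ∑ k, x k • vec (ed k) :=
        sum_congr rfl (fun k _ => by rw [h2 k])
      rw [e2] at h1
      rw [eq_neg_of_add_eq_zero_left h1]
      refine Submodule.neg_mem _ (Submodule.sum_mem _ fun e he => Submodule.smul_mem _ _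
        (Submodule.subset_span ⟨e, he, rfl⟩))
  refine ⟨D, ed, ?_, main⟩
  intro k l hkl
  by_contra hne
  apply hN.pair k l hne
  rw [← main]
  have : ∑ m', (Pi.single k 1 + Pi.single l 1 : L → ZMod 2) m' • vec (ed m') = 0 := by
    simp only [Pi.add_apply, add_smul]
    rw [Finset.sum_add_distrib]
    simp only [Pi.single_apply, ite_smul, one_smul, zero_smul, Finset.sum_ite_eq',
      Finset.mem_univ, if_true]
    have h3 : vec (ed k) = vec (ed l) := hkl
    rw [h3]
    funext i
    exact CharTwo.add_self_eq_zero _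
  rw [this]
  exact Submodule.zero_mem _

end Pool.Agent.H16.Cub
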