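import Mathlib

set_option autoImplicit false
set_option linter.unusedSectionVars false
set_option linter.unusedSimpArgs false

/-! # Menger's theorem (via Hall's theorem)

The directed version is adapted from the file `Results/MP_c7ba3e_co/Complete.lean`. -/

namespace Pool.Agent.H135R2.Menger

/-- A directed cycle of the digraph `G`: `len ≥ 2` distinct vertices indexed cyclically, each
dominating the next one. -/
structure DiCycle {V : Type*} (G : Digraph V) where
  len : ℕ
  two_le : 2 ≤ len
  vert : ZMod len → V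
  inj : Function.Injective vert
  adj : ∀ i, G.Adj (vert i) (vert (i + 1))

/-- The vertex set of a directed cycle. -/
def DiCycle.support {V : Type*} {G : Digraph V} (C : DiCycle G) : Set V := Set.range C.vert

/-- There are `k` directed cycles through `v` such that any two of them share only `v`. -/
def OpenlyDisjointAt {V : Type*} (G : Digraph V) (k : ℕ) (v : V) : Prop :=
  ∃ C : Fin k → DiCycle G, (∀ i, v ∈ (C i).support) ∧
    ∀ i j, i ≠ j → (C i).support ∩ (C j).support = {v}
section Cycle
variable {V : Type*} [Fintype V] [DecidableEq V]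

/-- projection of the auxiliary type -/
def proj (v : V) (k : ℕ) : ({u : V // u ≠ v} ⊕ Fin k) → V :=
  Sum.elim Subtype.val (fun _ => v)

theorem exists_cycle (G : Digraph V) (v : V) (k : ℕ)
    (τ : Equiv.Perm ({u : V // u ≠ v} ⊕ Fin k))
    (h1 : ∀ i, ∃ u, τ (Sum.inr i) = Sum.inl u ∧ G.Adj v u.1)
    (h2 : ∀ u, (∃ w, τ (Sum.inl u) = Sum.inl w ∧ (w = u ∨ G.Adj u.1 w.1)) ∨
      (∃ j, τ (Sum.inl u) = Sum.inr j ∧ G.Adj u.1 v)) (i : Fin k) :
    ∃ M : ℕ, (∀ n, 1 ≤ n → n < M → ∃ u, (τ ^ n) (Sum.inr i) = Sum.inl u) ∧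
      ∃ C : DiCycle G, C.support = {w | ∃ n < M, proj v k ((τ ^ n) (Sum.inr i)) = w} ∧ 0 < M := by
  classical
  set x : ℕ → ({u : V // u ≠ v} ⊕ Fin k) := fun n => (τ ^ n) (Sum.inr i) with hx
  have hx0 : x 0 = Sum.inr i := by simp [hx]
  have hxs : ∀ n, x (n + 1) = τ (x n) := by
    intro n
    simp only [hx]
    rw [pow_succ', Equiv.Perm.mul_apply]
  have hex : ∃ n, 1 ≤ n ∧ ∃ j, x n = Sum.inr j := by
    refine ⟨orderOf τ, orderOf_pos τ, i, ?_⟩
    simp [hx, pow_orderOf_eq_one]
  obtain ⟨M, ⟨hM1, jM, hjM⟩, hmin⟩ : ∃ M, (1 ≤ M ∧ ∃ j, x M = Sum.inr j) ∧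
      ∀ n < M, ¬ (1 ≤ n ∧ ∃ j, x n = Sum.inr j) :=
    ⟨Nat.find hex, Nat.find_spec hex, fun n hn => Nat.find_min hex hn⟩
  have hinl : ∀ n, 1 ≤ n → n < M → ∃ u, x n = Sum.inl u := by
    intro n hn hnM
    rcases hxn : x n with u | j
    · exact ⟨u, rfl⟩
    · exact absurd ⟨hn, j, hxn⟩ (hmin n hnM)
  have hM2 : 2 ≤ M := by
    by_contra hlt
    have : M = 1 := by omega
    obtain ⟨u, hu, _⟩ := h1 i
    rw [this] at hjM
    rw [show (1 : ℕ) = 0 + 1 from rfl, hxs, hx0, hu] at hjM
    cases hjM
  have hdist : ∀ a b, b < a → a < M → x a ≠ x b := by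
    intro a b hba haM hab
    have e1 : x (a - b) = Sum.inr i := by
      have : (τ ^ b) (x (a - b)) = (τ ^ b) (Sum.inr i) := by
        simp only [hx]
        rw [← Equiv.Perm.mul_apply, ← pow_add, show b + (a - b) = a by omega]
        exact hab
      exact (τ ^ b).injective this
    exact hmin (a - b) (by omega) ⟨by omega, i, e1⟩
  let f : ZMod M → V := fun j => proj v k (x j.val)
  have : NeZero M := ⟨by omega⟩
  have hval : ∀ j : ZMod M, j.val < M := fun j => ZMod.val_lt j
  have hpj : ∀ a b, a < M → b < M → proj v k (x a) = proj v k (x b) → a = b := by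
    intro a b ha hb hab
    by_contra hne
    rcases Nat.eq_zero_or_pos a with rfl | ha0
    · obtain ⟨u, hu⟩ := hinl b (by omega) hb
      rw [hx0, hu] at hab
      exact u.2 hab.symm
    · rcases Nat.eq_zero_or_pos b with rfl | hb0
      · obtain ⟨u, hu⟩ := hinl a (by omega) ha
        rw [hx0, hu] at hab
        exact u.2 hab
      · obtain ⟨u, hu⟩ := hinl a ha0 ha
        obtain ⟨w, hw⟩ := hinl b hb0 hb
        have huw : x a = x b := by
          rw [hu, hw] at hab ⊢
          congr 1
          exact Subtype.ext hab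
        rcases lt_or_gt_of_ne hne with h | h
        · exact hdist b a h hb huw.symm
        · exact hdist a b h ha huw
  have hadj : ∀ j : ZMod M, G.Adj (f j) (f (j + 1)) := by
    intro j
    have hj := hval j
    have hadd : (j + 1).val = (j.val + 1) % M := by
      rw [ZMod.val_add]
      have : Fact (1 < M) := ⟨by omega⟩
      rw [ZMod.val_one M]
    have hfj : f j = proj v k (x j.val) := rfl
    have hfj1 : f (j + 1) = proj v k (x (j + 1).val) := rfl
    rw [hfj, hfj1, hadd]
    by_cases hlast : j.val + 1 = M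
    · rw [hlast, Nat.mod_self, hx0]
      obtain ⟨u, hu⟩ := hinl j.val (by omega) hj
      rw [hu]
      have h3 : τ (Sum.inl u) = Sum.inr jM := by
        rw [← hu, ← hxs, hlast, hjM]
      rcases h2 u with ⟨w, hw, _⟩ | ⟨j', _, hadj⟩
      · rw [h3] at hw; cases hw
      · exact hadj
    · rw [Nat.mod_eq_of_lt (by omega)]
      obtain ⟨w, hw⟩ := hinl (j.val + 1) (by omega) (by omega)
      by_cases h0 : j.val = 0
      · obtain ⟨u, hu, hvu⟩ := h1 i
        have : x (j.val + 1) = Sum.inl u := by rw [hxs, h0, hx0, hu]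
        rw [this, h0, hx0]
        exact hvu
      · obtain ⟨u, hu⟩ := hinl j.val (by omega) hj
        have h3 : τ (Sum.inl u) = Sum.inl w := by rw [← hu, ← hxs, hw]
        rcases h2 u with ⟨w', hw', hc⟩ | ⟨j', hj', _⟩
        · rw [h3] at hw'
          have hww : w = w' := Sum.inl_injective hw'
          subst hww
          rcases hc with hc | hc
          · exfalso
            refine hdist (j.val + 1) j.val (by omega) (by omega) ?_
            rw [hw, hu, hc]
          · rw [hw, hu]; exact hc
        · rw [h3] at hj'; cases hj'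
  refine ⟨M, hinl, ⟨M, hM2, f, ?_, hadj⟩, ?_, by omega⟩
  · intro a b hab
    exact ZMod.val_injective M (hpj a.val b.val (hval a) (hval b) hab)
  · ext w
    constructor
    · rintro ⟨j, rfl⟩
      exact ⟨j.val, hval j, rfl⟩
    · rintro ⟨n, hn, rfl⟩
      refine ⟨(n : ZMod M), ?_⟩
      have : ((n : ℕ) : ZMod M).val = n := ZMod.val_cast_of_lt hn
      show proj v k (x ((n : ZMod M)).val) = _
      rw [this]

/-- Directed vertex Menger at a vertex. -/
theorem menger_sep (G : Digraph V) (hl : ∀ v, ¬ G.Adj v v) (k : ℕ) (v : V)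
    (h : ∀ P Q : Finset V, v ∈ P → v ∈ Q → P ∩ Q = {v} →
      (∀ p ∈ P, ∀ q ∈ Q, ¬ G.Adj p q) → k ≤ (P ∪ Q)ᶜ.card) :
    OpenlyDisjointAt G k v := by
  classical
  let X := {u : V // u ≠ v} ⊕ Fin k
  let t : X → Finset X := fun x => Finset.univ.filter fun y =>
    match x, y with
    | Sum.inl u, Sum.inl w => w = u ∨ G.Adj u.1 w.1
    | Sum.inl u, Sum.inr _ => G.Adj u.1 v
    | Sum.inr _, Sum.inl w => G.Adj v w.1
    | Sum.inr _, Sum.inr _ => False
  have hall : ∀ A : Finset X, A.card ≤ (A.biUnion t).card := by
    intro A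
    -- left part
    let A1 : Finset V := Finset.univ.filter fun u => ∃ hu : u ≠ v, (Sum.inl ⟨u, hu⟩ : X) ∈ A
    let A2 : Finset (Fin k) := Finset.univ.filter fun i => (Sum.inr i : X) ∈ A
    let B1 : Finset V := Finset.univ.filter fun w => ∃ hw : w ≠ v, (Sum.inl ⟨w, hw⟩ : X) ∈ A.biUnion t
    let B2 : Finset (Fin k) := Finset.univ.filter fun i => (Sum.inr i : X) ∈ A.biUnion t
    have hcard : ∀ Z : Finset X, Z.card =
        (Finset.univ.filter fun u : V => ∃ hu : u ≠ v, (Sum.inl ⟨u, hu⟩ : X) ∈ Z).card +
        (Finset.univ.filter fun i : Fin k => (Sum.inr i : X) ∈ Z).card := by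
      intro Z
      have e2 : Z.card = Z.toLeft.card + Z.toRight.card :=
        (Finset.card_toLeft_add_card_toRight).symm
      rw [e2]
      congr 1
      · have : (Finset.univ.filter fun u : V => ∃ hu : u ≠ v, (Sum.inl ⟨u, hu⟩ : X) ∈ Z) =
            Z.toLeft.map ⟨Subtype.val, Subtype.val_injective⟩ := by
          ext u
          simp only [Finset.mem_filter, Finset.mem_univ, true_and, Finset.mem_map,
            Finset.mem_toLeft, Function.Embedding.coeFn_mk, Subtype.exists, exists_and_right,
            exists_eq_right]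
        rw [this, Finset.card_map]
      · congr 1
        ext i
        simp
    rw [hcard A, hcard (A.biUnion t)]
    change A1.card + A2.card ≤ B1.card + B2.card
    have hA1v : v ∉ A1 := by simp [A1]
    have hA1B1 : A1 ⊆ B1 := by
      intro u hu
      simp only [A1, B1, Finset.mem_filter, Finset.mem_univ, true_and] at hu ⊢
      obtain ⟨hu, huA⟩ := hu
      refine ⟨hu, Finset.mem_biUnion.2 ⟨_, huA, ?_⟩⟩
      simp [t]
    by_cases hA2 : A2 = ∅
    · have := Finset.card_le_card hA1B1
      rw [hA2, Finset.card_empty]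
      omega
    · obtain ⟨i0, hi0⟩ := Finset.nonempty_iff_ne_empty.2 hA2
      have hi0' : (Sum.inr i0 : X) ∈ A := by simpa [A2] using hi0
      have hA2k : A2.card ≤ k := by
        have := Finset.card_le_univ A2
        simpa using this
      by_cases hR : ∃ u ∈ A1, G.Adj u v
      · obtain ⟨u, hu, huv⟩ := hR
        have hu' : ∃ hu : u ≠ v, (Sum.inl ⟨u, hu⟩ : X) ∈ A := by simpa [A1] using hu
        obtain ⟨hu1, hu2⟩ := hu'
        have hB2 : B2 = Finset.univ := by
          ext j
          simp only [B2, Finset.mem_filter, Finset.mem_univ, true_and, iff_true]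
          refine Finset.mem_biUnion.2 ⟨_, hu2, ?_⟩
          simp [t, huv]
        have := Finset.card_le_card hA1B1
        rw [hB2]
        simp only [Finset.card_univ, Fintype.card_fin]
        omega
      · push Not at hR
        let Q : Finset V := Finset.univ.filter fun w => w ∉ A1 ∧ (∀ u ∈ A1, ¬ G.Adj u w) ∧
          ¬ G.Adj v w
        have hk := h (insert v A1) Q (Finset.mem_insert_self _ _) (by
            simp only [Q, Finset.mem_filter, Finset.mem_univ, true_and]
            exact ⟨hA1v, hR, hl v⟩) (by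
            ext w
            simp only [Finset.mem_inter, Finset.mem_insert, Finset.mem_singleton, Q,
              Finset.mem_filter, Finset.mem_univ, true_and]
            constructor
            · rintro ⟨h1 | h1, h2, _⟩
              · exact h1
              · exact absurd h1 h2
            · rintro rfl
              exact ⟨Or.inl rfl, hA1v, hR, hl w⟩) (by
            intro p hp q hq
            simp only [Q, Finset.mem_filter, Finset.mem_univ, true_and] at hq
            rcases Finset.mem_insert.1 hp with rfl | hp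
            · exact hq.2.2
            · exact hq.2.1 p hp)
        have hsub : A1 ∪ (insert v A1 ∪ Q)ᶜ ⊆ B1 := by
          intro w hw
          rcases Finset.mem_union.1 hw with hw | hw
          · exact hA1B1 hw
          · simp only [Finset.mem_compl, Finset.mem_union, Finset.mem_insert, Q,
              Finset.mem_filter, Finset.mem_univ, true_and, not_or, not_and, not_forall] at hw
            obtain ⟨⟨hwv, hwA⟩, hw3⟩ := hw
            simp only [B1, Finset.mem_filter, Finset.mem_univ, true_and]
            refine ⟨hwv, ?_⟩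
            by_cases hvw : G.Adj v w
            · refine Finset.mem_biUnion.2 ⟨_, hi0', ?_⟩
              simp [t, hvw]
            · have h4 : ¬ ∀ u ∈ A1, ¬ G.Adj u w := fun h5 => hw3 hwA h5 hvw
              push Not at h4
              obtain ⟨u, hu, huw⟩ := h4
              have hu' : ∃ hu : u ≠ v, (Sum.inl ⟨u, hu⟩ : X) ∈ A := by simpa [A1] using hu
              obtain ⟨hu1, hu2⟩ := hu'
              refine Finset.mem_biUnion.2 ⟨_, hu2, ?_⟩
              simp [t, huw]
        have hdis : Disjoint A1 (insert v A1 ∪ Q)ᶜ := by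
          rw [Finset.disjoint_left]
          intro w hw hw'
          simp only [Finset.mem_compl, Finset.mem_union, Finset.mem_insert, not_or] at hw'
          exact hw'.1.2 hw
        have hc := Finset.card_le_card hsub
        rw [Finset.card_union_of_disjoint hdis] at hc
        omega
  obtain ⟨σ, hσinj, hσ⟩ := (Finset.all_card_le_biUnion_card_iff_exists_injective t).1 hall
  let τ : Equiv.Perm X := Equiv.ofBijective σ (Finite.injective_iff_bijective.1 hσinj)
  have hτ : ∀ x, τ x ∈ t x := hσ
  have h1 : ∀ i, ∃ u, τ (Sum.inr i) = Sum.inl u ∧ G.Adj v u.1 := by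
    intro i
    have := hτ (Sum.inr i)
    rcases hx : τ (Sum.inr i) with u | j
    · rw [hx] at this
      simp only [t, Finset.mem_filter, Finset.mem_univ, true_and] at this
      exact ⟨u, rfl, this⟩
    · rw [hx] at this
      simp [t] at this
  have h2 : ∀ u, (∃ w, τ (Sum.inl u) = Sum.inl w ∧ (w = u ∨ G.Adj u.1 w.1)) ∨
      (∃ j, τ (Sum.inl u) = Sum.inr j ∧ G.Adj u.1 v) := by
    intro u
    have := hτ (Sum.inl u)
    rcases hx : τ (Sum.inl u) with w | j
    · rw [hx] at this
      simp only [t, Finset.mem_filter, Finset.mem_univ, true_and] at this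
      exact Or.inl ⟨w, rfl, this⟩
    · rw [hx] at this
      simp only [t, Finset.mem_filter, Finset.mem_univ, true_and] at this
      exact Or.inr ⟨j, rfl, this⟩
  have hcyc := exists_cycle G v k τ h1 h2
  choose M hM C hC hpos using hcyc
  refine ⟨C, ?_, ?_⟩
  · intro i
    rw [hC]
    exact ⟨0, hpos i, by simp [proj]⟩
  · intro i j hij
    have key : ∀ i j, i ≠ j → ∀ a b, a < M i → b < M j → 1 ≤ b → b ≤ a →
        (τ ^ a) (Sum.inr i) ≠ (τ ^ b) (Sum.inr j) := by
      intro i j hij a b ha hb hb1 hba hab
      have e1 : (τ ^ (a - b)) (Sum.inr i) = Sum.inr j := by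
        have : (τ ^ b) ((τ ^ (a - b)) (Sum.inr i)) = (τ ^ b) (Sum.inr j) := by
          rw [← Equiv.Perm.mul_apply, ← pow_add, show b + (a - b) = a by omega]
          exact hab
        exact (τ ^ b).injective this
      by_cases h0 : a - b = 0
      · rw [h0] at e1
        simp only [pow_zero, Equiv.Perm.one_apply] at e1
        exact hij (Sum.inr_injective e1)
      · obtain ⟨u, hu⟩ := hM i (a - b) (by omega) (by omega)
        rw [e1] at hu
        cases hu
    rw [hC, hC]
    ext w
    simp only [Set.mem_inter_iff, Set.mem_ofPred_eq, Set.mem_singleton_iff]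
    constructor
    · rintro ⟨⟨a, ha, ha'⟩, ⟨b, hb, hb'⟩⟩
      by_contra hwv
      have ha1 : 1 ≤ a := by
        rcases Nat.eq_zero_or_pos a with rfl | h0
        · exact absurd (by simpa [proj] using ha'.symm) hwv
        · exact h0
      have hb1 : 1 ≤ b := by
        rcases Nat.eq_zero_or_pos b with rfl | h0
        · exact absurd (by simpa [proj] using hb'.symm) hwv
        · exact h0
      obtain ⟨u, hu⟩ := hM i a ha1 ha
      obtain ⟨u', hu'⟩ := hM j b hb1 hb
      have heq : (τ ^ a) (Sum.inr i) = (τ ^ b) (Sum.inr j) := by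
        rw [hu, hu']
        rw [hu] at ha'
        rw [hu'] at hb'
        congr 1
        exact Subtype.ext (ha'.trans hb'.symm)
      rcases le_total b a with hab | hab
      · exact key i j hij a b ha hb hb1 hab heq
      · exact key j i hij.symm b a hb ha ha1 hab heq.symm
    · rintro rfl
      exact ⟨⟨0, hpos i, by simp [proj]⟩, ⟨0, hpos j, by simp [proj]⟩⟩

end Cycle

end Pool.Agent.H135R2.Menger
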