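import Pool.Agent.H79.LF.H135R2_Pin_Menger

set_option autoImplicit false
set_option linter.unusedSectionVars false
set_option linter.unusedSimpArgs false

/-! # Menger's theorem for openly disjoint paths between two nonadjacent vertices -/

namespace Pool.Agent.H135R2.Menger

variable {V : Type*} [Fintype V] [DecidableEq V]

theorem exists_walk (H : SimpleGraph V) (f : ℕ → V) : ∀ m, (∀ n < m, H.Adj (f n) (f (n + 1))) →
    ∃ w : H.Walk (f 0) (f m), w.support = (List.range (m + 1)).map f := by
  intro m
  induction m with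
  | zero => intro _; exact ⟨SimpleGraph.Walk.nil, by simp⟩
  | succ m ih =>
    intro h
    obtain ⟨w, hw⟩ := ih (fun n hn => h n (by omega))
    refine ⟨w.concat (h m (by omega)), ?_⟩
    rw [SimpleGraph.Walk.support_concat, hw, List.range_succ (n := m + 1)]
    simp

theorem menger_paths (H : SimpleGraph V) {x y : V} (hxy : x ≠ y) (hadj : ¬ H.Adj x y) (k : ℕ)
    (h : ∀ (P : Set V) (S : Finset V), x ∈ P → y ∉ P → x ∉ S → y ∉ S →
      (∀ a b, a ∈ P → b ∉ P → H.Adj a b → b ∈ S) → k ≤ S.card) :
    ∃ P : Fin k → H.Walk x y, (∀ i, (P i).IsPath) ∧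
      ∀ i j, i ≠ j → ∀ v ∈ (P i).support, v ∈ (P j).support → v = x ∨ v = y := by
  classical
  let U := {u : V // u ≠ y}
  let x' : U := ⟨x, hxy⟩
  let D : Digraph U :=
    { Adj := fun a b => if a = x' then (b ≠ x' ∧ H.Adj x b.1) else
        (if b = x' then H.Adj a.1 y else H.Adj a.1 b.1) }
  have hDxb : ∀ b : U, D.Adj x' b ↔ (b ≠ x' ∧ H.Adj x b.1) := fun b => by simp [D]
  have hDax : ∀ a : U, a ≠ x' → (D.Adj a x' ↔ H.Adj a.1 y) := fun a ha => by simp [D, ha]
  have hDab : ∀ a b : U, a ≠ x' → b ≠ x' → (D.Adj a b ↔ H.Adj a.1 b.1) := fun a b ha hb => by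
    simp [D, ha, hb]
  have hl : ∀ v, ¬ D.Adj v v := by
    intro v hv
    by_cases hvx : v = x'
    · rw [hvx, hDxb] at hv; exact hv.1 rfl
    · rw [hDab v v hvx hvx] at hv
      exact H.loopless.irrefl _ hv
  have hcyc := menger_sep D hl k x' (by
    intro P Q hP hQ hPQ hno
    let PV : Set V := {v | ∃ hv : v ≠ y, (⟨v, hv⟩ : U) ∈ P}
    let S : Finset V := ((P ∪ Q)ᶜ).map ⟨Subtype.val, Subtype.val_injective⟩
    have h1 := h PV S ⟨hxy, hP⟩ (fun ⟨hv, _⟩ => hv rfl) ?_ ?_ ?_
    · rwa [Finset.card_map] at h1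
    · intro hx
      rw [Finset.mem_map] at hx
      obtain ⟨u, hu, hux⟩ := hx
      have : u = x' := Subtype.ext hux
      rw [this, Finset.mem_compl] at hu
      exact hu (Finset.mem_union_left _ hP)
    · intro hy
      rw [Finset.mem_map] at hy
      obtain ⟨u, _, huy⟩ := hy
      exact u.2 huy
    · rintro a b ⟨hay, ha⟩ hb hab
      by_cases hby : b = y
      · exfalso
        rw [hby] at hab
        have hax : (⟨a, hay⟩ : U) ≠ x' := by
          intro hax
          have : a = x := congrArg Subtype.val hax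
          rw [this] at hab
          exact hadj hab
        exact hno _ ha x' hQ ((hDax _ hax).2 hab)
      · have hbP : (⟨b, hby⟩ : U) ∉ P := fun hbP => hb ⟨hby, hbP⟩
        rw [Finset.mem_map]
        refine ⟨⟨b, hby⟩, ?_, rfl⟩
        rw [Finset.mem_compl, Finset.mem_union]
        rintro (hbP' | hbQ)
        · exact hbP hbP'
        · have hbx : (⟨b, hby⟩ : U) ≠ x' := fun hbx => hbP (by rw [hbx]; exact hP)
          apply hno _ ha _ hbQ
          by_cases hax : (⟨a, hay⟩ : U) = x'
          · rw [hax, hDxb]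
            refine ⟨hbx, ?_⟩
            have : a = x := congrArg Subtype.val hax
            rw [← this]; exact hab
          · rw [hDab _ _ hax hbx]; exact hab)
  obtain ⟨C, hC1, hC2⟩ := hcyc
  have hpath : ∀ i, ∃ w : H.Walk x y, w.IsPath ∧
      ∀ v ∈ w.support, v = y ∨ ∃ hv : v ≠ y, (⟨v, hv⟩ : U) ∈ (C i).support := by
    intro i
    have hC1i := hC1 i
    have h2 := (C i).two_le
    generalize C i = c at hC1i h2
    obtain ⟨i₀, hi₀⟩ := hC1i
    have hne0 : NeZero c.len := ⟨by omega⟩
    let f : ℕ → V := fun n => if n < c.len then (c.vert (i₀ + (n : ZMod c.len))).1 else y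
    have hf0 : f 0 = x := by
      simp only [f]
      rw [if_pos (by omega)]
      simp [hi₀, x']
    have hfm : f c.len = y := by
      simp only [f]
      rw [if_neg (lt_irrefl _)]
    have hvinj : ∀ a b : ℕ, a < c.len → b < c.len →
        c.vert (i₀ + (a : ZMod c.len)) = c.vert (i₀ + (b : ZMod c.len)) → a = b := by
      intro a b ha hb hab
      have h3 := add_left_cancel (c.inj hab)
      rw [ZMod.natCast_eq_natCast_iff'] at h3
      rwa [Nat.mod_eq_of_lt ha, Nat.mod_eq_of_lt hb] at h3
    have hvx : ∀ a : ℕ, a < c.len → 0 < a → c.vert (i₀ + (a : ZMod c.len)) ≠ x' := by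
      intro a ha ha0 h3
      have : c.vert (i₀ + (a : ZMod c.len)) = c.vert (i₀ + ((0 : ℕ) : ZMod c.len)) := by
        rw [h3, Nat.cast_zero, add_zero, hi₀]
      have := hvinj a 0 ha (by omega) this
      omega
    have hadjf : ∀ n < c.len, H.Adj (f n) (f (n + 1)) := by
      intro n hn
      have hD := c.adj (i₀ + (n : ZMod c.len))
      have hcast : i₀ + (n : ZMod c.len) + 1 = i₀ + ((n + 1 : ℕ) : ZMod c.len) := by
        push_cast; ring
      rw [hcast] at hD
      by_cases hn1 : n + 1 < c.len
      · have hb := hvx (n + 1) hn1 (by omega)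
        by_cases hn0 : n = 0
        · subst hn0
          rw [Nat.cast_zero, add_zero, hi₀, hDxb] at hD
          rw [hf0]
          simp only [f]
          rw [if_pos hn1]
          exact hD.2
        · rw [hDab _ _ (hvx n hn (by omega)) hb] at hD
          simp only [f]
          rw [if_pos hn, if_pos hn1]
          exact hD
      · have hnl : n + 1 = c.len := by omega
        have hlast : ((n + 1 : ℕ) : ZMod c.len) = 0 := by
          rw [hnl]; exact ZMod.natCast_self _
        rw [hlast, add_zero, hi₀, hDax _ (hvx n hn (by omega))] at hD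
        rw [hnl, hfm]
        simp only [f]
        rw [if_pos hn]
        exact hD
    obtain ⟨w, hw⟩ := exists_walk H f c.len hadjf
    have key : ∀ (Q : V → Prop) (a b a' b' : V) (ha : a = a') (hb : b = b') (w : H.Walk a b),
        w.support.Nodup → (∀ v ∈ w.support, Q v) →
        ∃ w : H.Walk a' b', w.IsPath ∧ ∀ v ∈ w.support, Q v := by
      intro Q a b a' b' ha hb w h1 h2
      subst ha; subst hb
      exact ⟨w, (SimpleGraph.Walk.isPath_def _).2 h1, h2⟩
    refine key (fun v => v = y ∨ ∃ hv : v ≠ y, (⟨v, hv⟩ : U) ∈ c.support) _ _ _ _ hf0 hfm w ?_ ?_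
    · rw [hw]
      refine List.Nodup.map_on ?_ List.nodup_range
      intro a ha b hb hab
      rw [List.mem_range] at ha hb
      simp only [f] at hab
      by_cases ha' : a < c.len
      · by_cases hb' : b < c.len
        · rw [if_pos ha', if_pos hb'] at hab
          exact hvinj a b ha' hb' (Subtype.ext hab)
        · rw [if_pos ha', if_neg hb'] at hab
          exact absurd hab (c.vert _).2
      · by_cases hb' : b < c.len
        · rw [if_neg ha', if_pos hb'] at hab
          exact absurd hab.symm (c.vert _).2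
        · omega
    · intro v hv
      rw [hw, List.mem_map] at hv
      obtain ⟨n, hn, hnv⟩ := hv
      simp only [f] at hnv
      by_cases hn' : n < c.len
      · rw [if_pos hn'] at hnv
        right
        refine ⟨by rw [← hnv]; exact (c.vert _).2, ?_⟩
        refine ⟨i₀ + (n : ZMod c.len), ?_⟩
        exact Subtype.ext hnv
      · rw [if_neg hn'] at hnv
        exact Or.inl hnv.symm
  choose w hw1 hw2 using hpath
  refine ⟨w, hw1, ?_⟩
  intro i j hij v hvi hvj
  by_cases hvy : v = y
  · exact Or.inr hvy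
  · left
    obtain ⟨_, h1⟩ := (hw2 i v hvi).resolve_left hvy
    obtain ⟨_, h2⟩ := (hw2 j v hvj).resolve_left hvy
    have h3 : (⟨v, hvy⟩ : U) ∈ (C i).support ∩ (C j).support := ⟨h1, h2⟩
    rw [hC2 i j hij, Set.mem_singleton_iff] at h3
    exact congrArg Subtype.val h3

end Pool.Agent.H135R2.Menger
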