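import Pool.Agent.H79.LF.H168DD_Retract

open Relation

set_option linter.unusedSectionVars false
set_option linter.unusedVariables false

namespace H168DD

variable {V : Type*} [DecidableEq V]
variable {D : V → V → Prop} {S W : Finset V} {t t1 t2 : V}

lemma Rch.exists_head {a b : V} (h : Rch D S a b) (hne : a ≠ b) :
    ∃ z ∈ S, D a z ∧ a ∈ S ∧ Rch D S z b := by
  rcases ReflTransGen.cases_head h with rfl | ⟨z, hz, h'⟩
  · exact absurd rfl hne
  · exact ⟨z, hz.2.2, hz.1, hz.2.1, h'⟩

lemma Rch.exists_tail {a b : V} (h : Rch D S a b) (hne : a ≠ b) :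
    ∃ z ∈ S, D z b ∧ b ∈ S ∧ Rch D S a z := by
  rcases ReflTransGen.cases_tail h with rfl | ⟨z, h', hz⟩
  · exact absurd rfl hne
  · exact ⟨z, hz.2.1, hz.1, hz.2.2, h'⟩

lemma Rch.closed_to {P : Finset V} {x w : V} (h : Rch D W x w)
    (hP : ∀ y, y ∈ W → Rch D W y w → y ∈ P) : Rch D P x w := by
  unfold Rch at h
  induction h using ReflTransGen.head_induction_on with
  | refl => exact Rch.refl
  | @head y z hyz hz ih =>
    have h1 : Rch D W z w := hz
    exact ih.head hyz.1 (hP y hyz.2.1 (h1.head hyz.1 hyz.2.1 hyz.2.2)) (hP z hyz.2.2 h1)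

lemma Rch.closed_from {P : Finset V} {x w : V} (h : Rch D W x w)
    (hP : ∀ y, y ∈ W → Rch D W x y → y ∈ P) : Rch D P x w := by
  unfold Rch at h
  induction h with
  | refl => exact Rch.refl
  | @tail y z hy hyz ih =>
    have h1 : Rch D W x y := hy
    exact ih.tail hyz.1 (hP y hyz.2.1 h1) (hP z hyz.2.2 (h1.tail hyz.1 hyz.2.1 hyz.2.2))

def add (D : V → V → Prop) (a b : V) : V → V → Prop :=
  fun x y => D x y ∨ (x = a ∧ y = b)

/-- F5 -/
lemma Odds.add_arc (h : Odds D S) {τ1 τ2 y1 y2 c : V} (h1 : Th D S τ1 y1 c) (h2 : Th D S τ2 y2 c)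
    (hne : τ1 ≠ τ2) : Odds (add D τ2 y1) S := by
  classical
  have hc1 : τ1 ≠ c := (h1.ne2 h).symm
  have hc2 : τ2 ≠ c := (h2.ne2 h).symm
  have hy1 : y1 ≠ τ1 := h1.ne1 h
  have hy1c : y1 ≠ c := h1.ne12 h
  have e21 : τ2 ≠ y1 := by
    rintro rfl
    exact hc1 ((h2.2.2.2.2 _ h1.1).1 h1.arc_in)
  refine ⟨?_, ?_, ?_⟩
  · rintro a (ha | ⟨ha, hb⟩)
    · exact h.irr _ ha
    · exact e21 (ha.symm.trans hb)
  · intro a ha b hb
    exact (h.sc a ha b hb).monoD (fun _ _ h => Or.inl h)
  intro W hW hWne hsc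
  by_cases hWsc : SC D W
  · exact h.odd W hW hWne hWsc
  -- both ends in W
  have hboth : τ2 ∈ W ∧ y1 ∈ W := by
    by_contra hcon
    apply hWsc
    intro a ha b hb
    refine (hsc a ha b hb).imp ?_
    rintro x y (hxy | ⟨rfl, rfl⟩) hx hy
    · exact ⟨hxy, hx, hy⟩
    · exact absurd ⟨hx, hy⟩ hcon
  obtain ⟨hτ2, hy1W⟩ := hboth
  have hWS := hW
  -- paths from y1 : new arc not needed
  have fromy1 : ∀ x, Rch (add D τ2 y1) W y1 x → Rch D W y1 x := by
    intro x hx
    unfold Rch at hx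
    induction hx with
    | refl => exact Rch.refl
    | @tail y z _ hyz ih =>
      rcases hyz.1 with h | ⟨_, rfl⟩
      · exact Rch.tail ih h hyz.2.1 hyz.2.2
      · exact Rch.refl
  have hp : Rch D W y1 τ2 := fromy1 _ (hsc y1 hy1W τ2 hτ2)
  have hτ1W : τ1 ∈ W := by
    by_contra hcon
    have hsub : W ⊆ S.erase τ1 := by
      intro x hx
      refine Finset.mem_erase.2 ⟨?_, hW hx⟩
      rintro rfl; exact hcon hx
    apply h.nt h1
    exact (hp.mono hsub).tail h2.arc_out (hsub hτ2) (Finset.mem_erase.2 ⟨hc1.symm, h1.2.2.1⟩)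
  have hcW : c ∈ W := by
    obtain ⟨z, hz, hd, _, _⟩ := (hsc τ1 hτ1W y1 hy1W).exists_head hy1.symm
    rcases hd with hd | ⟨he, _⟩
    · rw [(h1.2.2.2.2 z (hW hz)).1 hd] at hz; exact hz
    · exact absurd he hne
  by_cases hcy : Rch D W c y1
  · exfalso
    apply hWsc
    intro a ha b hb
    have := hsc a ha b hb
    unfold Rch at this
    induction this with
    | refl => exact Rch.refl
    | @tail y z _ hyz ih =>
      rcases hyz.1 with h | ⟨rfl, rfl⟩
      · exact (ih hyz.2.1).tail h hyz.2.1 hyz.2.2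
      · exact ((ih hyz.2.1).tail h2.arc_out hτ2 hcW).trans hcy
  -- case (b)
  set P1 := W.filter (fun v => Rch D W v y1) with hP1
  have memP1 : ∀ v, v ∈ P1 ↔ v ∈ W ∧ Rch D W v y1 := by intro v; simp [hP1]
  have hy1P : y1 ∈ P1 := (memP1 _).2 ⟨hy1W, Rch.refl⟩
  have hcP : c ∉ P1 := fun hx => hcy ((memP1 _).1 hx).2
  have hτ1P : τ1 ∉ P1 := by
    intro hx
    obtain ⟨z, hz, hd, _, h'⟩ := ((memP1 _).1 hx).2.exists_head hy1.symm
    rw [(h1.2.2.2.2 z (hW hz)).1 hd] at h'
    exact hcy h'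
  set Q := (W \ P1).erase τ1 with hQ
  have memQ : ∀ v, v ∈ Q ↔ v ≠ τ1 ∧ v ∈ W ∧ ¬ Rch D W v y1 := by
    intro v
    simp only [hQ, Finset.mem_erase, Finset.mem_sdiff, memP1]
    constructor
    · rintro ⟨a, b, c⟩; exact ⟨a, b, fun h => c ⟨b, h⟩⟩
    · rintro ⟨a, b, c⟩; exact ⟨a, b, fun h => c h.2⟩
  have hcQ : c ∈ Q := (memQ _).2 ⟨hc1.symm, hcW, hcy⟩
  have fromc : ∀ x, Rch (add D τ2 y1) W c x → Rch D W c x ∨ Rch D W y1 x := by
    intro x hx
    unfold Rch at hx
    induction hx with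
    | refl => exact Or.inl Rch.refl
    | @tail y z _ hyz ih =>
      rcases hyz.1 with h | ⟨_, rfl⟩
      · rcases ih with ih | ih
        · exact Or.inl (Rch.tail ih h hyz.2.1 hyz.2.2)
        · exact Or.inr (Rch.tail ih h hyz.2.1 hyz.2.2)
      · exact Or.inr Rch.refl
  have sc1 : SC D P1 := by
    have toP : ∀ w ∈ P1, ∀ x, Rch D W x w → Rch D P1 x w := by
      intro w hw x hx
      refine hx.closed_to ?_
      intro y hyW hy
      exact (memP1 _).2 ⟨hyW, hy.trans ((memP1 _).1 hw).2⟩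
    apply SC.of_hub y1
    · intro w hw
      have hw' := (memP1 _).1 hw
      rcases fromc w (hsc c hcW w hw'.1) with h | h
      · exact absurd (h.trans hw'.2) hcy
      · exact toP w hw _ h
    · intro w hw
      exact toP y1 hy1P _ ((memP1 _).1 hw).2
  have sc2 : SC D Q := by
    have toc : ∀ x, Rch (add D τ2 y1) W x c → x ∈ Q → Rch D Q x c := by
      intro x hx
      unfold Rch at hx
      induction hx using ReflTransGen.head_induction_on with
      | refl => intro _; exact Rch.refl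
      | @head x z hxz _ ih =>
        intro hxQ
        rcases hxz.1 with hd | ⟨rfl, rfl⟩
        · have hzQ : z ∈ Q := by
            rw [memQ] at hxQ ⊢
            refine ⟨?_, hxz.2.2, ?_⟩
            · rintro rfl
              have := (h1.2.2.2.1 x (hW hxz.2.1)).1 hd
              subst this
              exact hxQ.2.2 Rch.refl
            · intro hzy
              exact hxQ.2.2 (hzy.head hd hxz.2.1 hxz.2.2)
          exact (ih hzQ).head hd hxQ hzQ
        · exact Rch.single h2.arc_out hxQ hcQ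
    have fromc' : ∀ x, Rch D W c x → Rch D Q c x := by
      intro x hx
      refine hx.closed_from ?_
      intro y hyW hy
      have hny : ¬ Rch D W y y1 := fun h => hcy (hy.trans h)
      refine (memQ _).2 ⟨?_, hyW, hny⟩
      rintro rfl
      obtain ⟨z, hz, hd, _, h'⟩ := hy.exists_tail hc1.symm
      rw [(h1.2.2.2.1 z (hW hz)).1 hd] at h'
      exact hcy h'
    have hQW : ∀ x ∈ Q, x ∈ W := fun x hx => ((memQ _).1 hx).2.1
    have hQS : Q ⊆ S.erase τ1 := by
      intro x hx
      exact Finset.mem_erase.2 ⟨((memQ _).1 hx).1, hW (hQW x hx)⟩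
    apply SC.of_hub c
    · intro v hv
      rcases fromc v (hsc c hcW v (hQW v hv)) with hr | hr
      · exact fromc' v hr
      · have key : ∀ x, Rch D W y1 x →
            Rch D (S.erase τ1) y1 x ∨ x = τ1 ∨ Rch D W c x := by
          intro x hx
          unfold Rch at hx
          induction hx with
          | refl => exact Or.inl Rch.refl
          | @tail y z _ hyz ih =>
            rcases ih with ih | ih | ih
            · by_cases hz : z = τ1
              · exact Or.inr (Or.inl hz)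
              · refine Or.inl ?_
                have hy : y ∈ S.erase τ1 := ih.mem_right
                  (Finset.mem_erase.2 ⟨hy1, hW hy1W⟩)
                exact Rch.tail ih hyz.1 hy (Finset.mem_erase.2 ⟨hz, hW hyz.2.2⟩)
            · subst ih
              have := (h1.2.2.2.2 z (hW hyz.2.2)).1 hyz.1
              subst this
              exact Or.inr (Or.inr Rch.refl)
            · exact Or.inr (Or.inr (Rch.tail ih hyz.1 hyz.2.1 hyz.2.2))
        rcases key v hr with hk | hk | hk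
        · exfalso
          apply h.nt h1
          exact hk.trans ((toc v (hsc v (hQW v hv) c hcW) hv).mono hQS)
        · exact absurd hk ((memQ _).1 hv).1
        · exact fromc' v hk
    · intro v hv
      exact toc v (hsc v (hQW v hv) c hcW) hv
  have o1 := h.odd P1 (fun x hx => hW ((memP1 _).1 hx).1) ⟨y1, hy1P⟩ sc1
  have o2 := h.odd Q (fun x hx => hW ((memQ _).1 hx).2.1) ⟨c, hcQ⟩ sc2
  have hP1W : P1 ⊆ W := Finset.filter_subset _ _
  have e1 : (W \ P1).card + P1.card = W.card := Finset.card_sdiff_add_card_eq_card hP1W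
  have e2 : Q.card + 1 = (W \ P1).card := by
    rw [hQ]
    exact Finset.card_erase_add_one (Finset.mem_sdiff.2 ⟨hτ1W, hτ1P⟩)
  obtain ⟨p, hp⟩ := o1
  obtain ⟨q, hq⟩ := o2
  exact ⟨p + q + 1, by omega⟩

end H168DD
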