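import Pool.Agent.H79.LF.H168DD_Main2

open Relation

set_option linter.unusedSectionVars false
set_option linter.unusedVariables false

namespace H168DD

variable {V : Type*} [DecidableEq V]
variable {D : V → V → Prop} {S W R0 : Finset V}

/-- `C` is a dominating set of the digraph induced on `S`. -/
def Dom (D : V → V → Prop) (S C : Finset V) : Prop :=
  C ⊆ S ∧ ∀ v ∈ S, v ∉ C → ∃ u ∈ C, D u v

/-- rank function form of the out-forest lemma -/
lemma forest (f : V → ℕ) : ∀ n (S : Finset V), (S \ R0).card = n → R0 ⊆ S →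
    (∀ v ∈ S \ R0, ∃ u ∈ S, D u v ∧ f u < f v) →
    ∃ C R : Finset V, C ⊆ S \ R0 ∧ R ⊆ S \ R0 ∧ (∀ v ∈ R, ∃ u ∈ R0, D u v) ∧
      (∀ v ∈ S \ R0, v ∉ C → v ∉ R → ∃ u ∈ C, D u v) ∧ 2 * C.card + R.card ≤ (S \ R0).card := by
  classical
  intro n
  induction n using Nat.strong_induction_on with
  | _ n ih =>
    intro S hn hR hf
    by_cases hex : ∃ u ∈ S \ R0, ∃ v ∈ S \ R0, D u v ∧ f u < f v
    · -- choose u of maximal rank
      set A := (S \ R0).filter (fun u => ∃ v ∈ S \ R0, D u v ∧ f u < f v) with hA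
      have hAne : A.Nonempty := by
        obtain ⟨u, hu, hv⟩ := hex
        exact ⟨u, Finset.mem_filter.2 ⟨hu, hv⟩⟩
      obtain ⟨u, huA, humax⟩ := Finset.exists_max_image A f hAne
      obtain ⟨huS, v, hv, huv, hfuv⟩ := Finset.mem_filter.1 huA
      set Z := (S \ R0).filter (fun x => x ≠ u ∧ D u x ∧ f u < f x ∧
        ∀ y ∈ S, D y x → f y < f x → y = u) with hZ
      have huv' : u ≠ v := by rintro rfl; omega
      set X := insert u (insert v Z) with hX
      have hXS : X ⊆ S \ R0 := by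
        intro x hx
        rw [hX, Finset.mem_insert, Finset.mem_insert] at hx
        rcases hx with rfl | rfl | hx
        · exact huS
        · exact hv
        · exact (Finset.mem_filter.1 hx).1
      have hXf : ∀ x ∈ X, x ≠ u → f u < f x ∧ D u x := by
        intro x hx hxu
        rw [hX, Finset.mem_insert, Finset.mem_insert] at hx
        rcases hx with rfl | rfl | hx
        · exact absurd rfl hxu
        · exact ⟨hfuv, huv⟩
        · exact ⟨(Finset.mem_filter.1 hx).2.2.2.1, (Finset.mem_filter.1 hx).2.2.1⟩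
      have hX2 : 2 ≤ X.card := by
        have : ({u, v} : Finset V) ⊆ X := by
          intro z hz
          simp only [Finset.mem_insert, Finset.mem_singleton] at hz
          rcases hz with rfl | rfl <;> simp [hX]
        have := Finset.card_le_card this
        rwa [Finset.card_pair huv'] at this
      set S' := S \ X with hS'
      have hS'R : S' \ R0 = (S \ R0) \ X := by
        ext x; simp only [hS', Finset.mem_sdiff]; tauto
      have hcard : (S' \ R0).card + X.card = (S \ R0).card := by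
        rw [hS'R]; exact Finset.card_sdiff_add_card_eq_card hXS
      have hR' : R0 ⊆ S' := by
        intro x hx
        refine Finset.mem_sdiff.2 ⟨hR hx, fun hxX => ?_⟩
        exact (Finset.mem_sdiff.1 (hXS hxX)).2 hx
      have hf' : ∀ x ∈ S' \ R0, ∃ y ∈ S', D y x ∧ f y < f x := by
        intro x hx
        have hx' : x ∈ S \ R0 ∧ x ∉ X := by rw [hS'R] at hx; exact Finset.mem_sdiff.1 hx
        obtain ⟨y, hy, hyx, hfy⟩ := hf x hx'.1
        by_cases hall : ∀ y ∈ S, D y x → f y < f x → y = u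
        · exfalso
          have := hall y hy hyx hfy
          subst this
          apply hx'.2
          rw [hX]
          refine Finset.mem_insert_of_mem (Finset.mem_insert_of_mem ?_)
          exact Finset.mem_filter.2 ⟨hx'.1, by rintro rfl; omega, hyx, hfy, hall⟩
        · push Not at hall
          obtain ⟨z, hz, hzx, hfz, hzu⟩ := hall
          refine ⟨z, Finset.mem_sdiff.2 ⟨hz, fun hzX => ?_⟩, hzx, hfz⟩
          have h1 := (hXf z hzX hzu).1
          have h2 := humax z (Finset.mem_filter.2 ⟨hXS hzX, x, hx'.1, hzx, hfz⟩)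
          omega
      obtain ⟨C, R, hC, hRR, h1, h2, h3⟩ := ih (S' \ R0).card (by omega) S' rfl hR' hf'
      have hsub : S' \ R0 ⊆ S \ R0 := by rw [hS'R]; exact Finset.sdiff_subset
      refine ⟨insert u C, R, ?_, hRR.trans hsub, h1, ?_, ?_⟩
      · intro x hx
        rcases Finset.mem_insert.1 hx with rfl | hx
        · exact huS
        · exact hsub (hC hx)
      · intro x hx hxC hxR
        rw [Finset.mem_insert, not_or] at hxC
        by_cases hxX : x ∈ X
        · exact ⟨u, Finset.mem_insert_self _ _, (hXf x hxX hxC.1).2⟩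
        · obtain ⟨y, hy, hyx⟩ := h2 x (by rw [hS'R]; exact Finset.mem_sdiff.2 ⟨hx, hxX⟩) hxC.2 hxR
          exact ⟨y, Finset.mem_insert_of_mem hy, hyx⟩
      · have := Finset.card_insert_le u C
        omega
    · push Not at hex
      refine ⟨∅, S \ R0, by simp, Finset.Subset.refl _, ?_, ?_, by simp⟩
      · intro v hv
        obtain ⟨u, hu, huv, hfu⟩ := hf v hv
        by_cases huR : u ∈ R0
        · exact ⟨u, huR, huv⟩
        · have := hex u (Finset.mem_sdiff.2 ⟨hu, huR⟩) v hv huv
          omega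
      · intro v hv _ h; exact absurd hv h

/-- levels -/
def lev (D : V → V → Prop) (S R0 : Finset V) : ℕ → V → Prop
  | 0, v => v ∈ R0
  | (n + 1), v => v ∈ S ∧ ∃ u, lev D S R0 n u ∧ D u v

lemma lev_mem (hR : R0 ⊆ S) : ∀ n v, lev D S R0 n v → v ∈ S
  | 0, v, h => hR h
  | (n + 1), v, h => h.1

lemma lev_of_rch (hR : R0 ⊆ S) {r v : V} (hr : r ∈ R0) (h : Rch D S r v) :
    ∃ n, lev D S R0 n v := by
  unfold Rch at h
  induction h with
  | refl => exact ⟨0, hr⟩
  | @tail y z _ hyz ih =>
    obtain ⟨n, hn⟩ := ih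
    exact ⟨n + 1, hyz.2.2, y, hn, hyz.1⟩

/-- out-forest lemma -/
lemma forest' (hR : R0 ⊆ S) (hreach : ∀ v ∈ S, ∃ r ∈ R0, Rch D S r v) :
    ∃ C R : Finset V, C ⊆ S \ R0 ∧ R ⊆ S \ R0 ∧ (∀ v ∈ R, ∃ u ∈ R0, D u v) ∧
      (∀ v ∈ S \ R0, v ∉ C → v ∉ R → ∃ u ∈ C, D u v) ∧ 2 * C.card + R.card ≤ (S \ R0).card := by
  classical
  have hlev : ∀ v ∈ S, ∃ n, lev D S R0 n v := by
    intro v hv
    obtain ⟨r, hr, h⟩ := hreach v hv
    exact lev_of_rch hR hr h
  refine forest (fun v => if h : ∃ n, lev D S R0 n v then Nat.find h else 0) _ S rfl hR ?_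
  intro v hv
  rw [Finset.mem_sdiff] at hv
  have hex := hlev v hv.1
  have hspec := Nat.find_spec hex
  have hpos : Nat.find hex ≠ 0 := by
    intro h0
    rw [h0] at hspec
    exact hv.2 hspec
  obtain ⟨m, hm⟩ := Nat.exists_eq_succ_of_ne_zero hpos
  rw [hm] at hspec
  obtain ⟨_, u, hu, huv⟩ := hspec
  refine ⟨u, lev_mem hR m u hu, huv, ?_⟩
  have hex' : ∃ n, lev D S R0 n u := ⟨m, hu⟩
  simp only [dif_pos hex, dif_pos hex']
  have : Nat.find hex' ≤ m := Nat.find_min' hex' hu
  omega

/-- Lemma G -/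
lemma dom_containing {I : Finset V} (hsc : SC D S) (hI : I ⊆ S) (hne : I.Nonempty) :
    ∃ C, I ⊆ C ∧ Dom D S C ∧ 2 * C.card ≤ S.card + I.card := by
  obtain ⟨i, hi⟩ := hne
  obtain ⟨C, R, hC, hR, h1, h2, h3⟩ := forest' (D := D) hI
    (fun v hv => ⟨i, hi, hsc i (hI hi) v hv⟩)
  refine ⟨I ∪ C, Finset.subset_union_left, ⟨?_, ?_⟩, ?_⟩
  · exact Finset.union_subset hI (hC.trans Finset.sdiff_subset)
  · intro v hv hvC
    rw [Finset.mem_union, not_or] at hvC
    by_cases hvR : v ∈ R
    · obtain ⟨u, hu, huv⟩ := h1 v hvR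
      exact ⟨u, Finset.mem_union_left _ hu, huv⟩
    · obtain ⟨u, hu, huv⟩ := h2 v (Finset.mem_sdiff.2 ⟨hv, hvC.1⟩) hvC.2 hvR
      exact ⟨u, Finset.mem_union_right _ hu, huv⟩
  · have e1 := Finset.card_union_le I C
    have e2 : (S \ I).card + I.card = S.card := Finset.card_sdiff_add_card_eq_card hI
    omega

/-- Lemma A : a strongly connected digraph with no small dominating set is in the class `Odds` -/
lemma odds_of_bad (irr : ∀ a, ¬ D a a) (hsc : SC D S)
    (hbad : ∀ C, Dom D S C → S.card < 2 * C.card) : Odds D S := by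
  classical
  refine ⟨irr, hsc, ?_⟩
  intro W hW hne hWsc
  by_contra hodd
  rw [Nat.not_odd_iff_even] at hodd
  obtain ⟨w, hw⟩ := hne
  obtain ⟨C, R, hC, hR, h1, h2, h3⟩ := forest' (D := D) hW
    (fun v hv => ⟨w, hw, hsc w (hW hw) v hv⟩)
  have e2 : (S \ W).card + W.card = S.card := Finset.card_sdiff_add_card_eq_card hW
  -- choose the demanded set
  have hI : ∃ I : Finset V, I ⊆ W ∧ I.Nonempty ∧ (∀ v ∈ R, ∃ u ∈ I, D u v) ∧
      ∃ C', I ⊆ C' ∧ Dom D W C' ∧ 2 * C'.card ≤ W.card + R.card := by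
    by_cases hRe : R = ∅
    · obtain ⟨C', hC1, hC2, hC3⟩ := dom_containing hWsc (Finset.singleton_subset_iff.2 hw)
        (Finset.singleton_nonempty w)
      refine ⟨{w}, Finset.singleton_subset_iff.2 hw, Finset.singleton_nonempty w, ?_, C', hC1, hC2, ?_⟩
      · intro v hv; rw [hRe] at hv; simp at hv
      · rw [Finset.card_singleton] at hC3
        obtain ⟨p, hp⟩ := hodd
        omega
    · choose! g hg using h1
      have hRne := Finset.nonempty_iff_ne_empty.2 hRe
      have hIW : R.image g ⊆ W := by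
        intro x hx
        obtain ⟨v, hv, rfl⟩ := Finset.mem_image.1 hx
        exact (hg v hv).1
      obtain ⟨C', hC1, hC2, hC3⟩ := dom_containing hWsc hIW (hRne.image g)
      refine ⟨R.image g, hIW, hRne.image g, ?_, C', hC1, hC2, ?_⟩
      · intro v hv
        exact ⟨g v, Finset.mem_image_of_mem g hv, (hg v hv).2⟩
      · have := Finset.card_image_le (s := R) (f := g)
        omega
  obtain ⟨I, hIW, hIne, hIR, C', hC1, hC2, hC3⟩ := hI
  have hdom : Dom D S (C ∪ C') := by
    refine ⟨Finset.union_subset (hC.trans Finset.sdiff_subset) (hC2.1.trans hW), ?_⟩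
    intro v hv hvC
    rw [Finset.mem_union, not_or] at hvC
    by_cases hvW : v ∈ W
    · obtain ⟨u, hu, huv⟩ := hC2.2 v hvW hvC.2
      exact ⟨u, Finset.mem_union_right _ hu, huv⟩
    · by_cases hvR : v ∈ R
      · obtain ⟨u, hu, huv⟩ := hIR v hvR
        exact ⟨u, Finset.mem_union_right _ (hC1 hu), huv⟩
      · obtain ⟨u, hu, huv⟩ := h2 v (Finset.mem_sdiff.2 ⟨hv, hvW⟩) hvC.1 hvR
        exact ⟨u, Finset.mem_union_left _ hu, huv⟩
  have := hbad _ hdom
  have := Finset.card_union_le C C'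
  omega

end H168DD
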