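import Pool.Agent.H79.LF.H168DD_Basic

open Relation

set_option linter.unusedSectionVars false
set_option linter.unusedVariables false

namespace H168DD

variable {V : Type*} [DecidableEq V]
variable {D : V → V → Prop} {S W : Finset V} {t t1 t2 : V}

lemma Th.arc_in (ht : Th D S t t1 t2) : D t1 t := (ht.2.2.2.1 _ ht.2.1).2 rfl
lemma Th.arc_out (ht : Th D S t t1 t2) : D t t2 := (ht.2.2.2.2 _ ht.2.2.1).2 rfl
lemma Th.ne1 (h : Odds D S) (ht : Th D S t t1 t2) : t1 ≠ t := by
  rintro rfl; exact h.irr _ ht.arc_in
lemma Th.ne2 (h : Odds D S) (ht : Th D S t t1 t2) : t2 ≠ t := by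
  rintro rfl; exact h.irr _ ht.arc_out
lemma Th.ne12 (h : Odds D S) (ht : Th D S t t1 t2) : t1 ≠ t2 := by
  rintro rfl; exact h.no2 ht.2.1 ht.1 ht.arc_in ht.arc_out

/-- F3 -/
lemma Odds.retract (h : Odds D S) (ht : Th D S t t1 t2) :
    Odds (con D {t1, t, t2} t2) (cset S {t1, t, t2} t2) := by
  have n1 := ht.ne1 h
  have n2 := ht.ne2 h
  have n12 := ht.ne12 h
  have a1 := ht.arc_in
  have a2 := ht.arc_out
  have hc : t2 ∈ ({t1, t, t2} : Finset V) := by simp
  have hU : ({t1, t, t2} : Finset V) ⊆ S := by
    intro x hx
    simp only [Finset.mem_insert, Finset.mem_singleton] at hx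
    rcases hx with rfl | rfl | rfl
    · exact ht.2.1
    · exact ht.1
    · exact ht.2.2.1
  refine ⟨fun a ha => ha.1 rfl, con_sc h.sc hU hc, ?_⟩
  intro W hW hne hsc
  by_cases hcW : t2 ∈ W
  swap
  · have hdis : ∀ x ∈ W, x ∉ ({t1, t, t2} : Finset V) := by
      intro x hx
      rcases mem_cset.1 (hW hx) with h | h
      · subst h; exact absurd hx hcW
      · exact h.2
    refine h.odd W ?_ hne (con_sc_of_not_mem hc h.irr hdis hsc)
    intro x hx
    rcases mem_cset.1 (hW hx) with h | h
    · subst h; exact absurd hx hcW
    · exact h.1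
  have hdis : ∀ x ∈ W, x ∈ ({t1, t, t2} : Finset V) → x = t2 := by
    intro x hx hxU
    rcases mem_cset.1 (hW hx) with h | h
    · exact h
    · exact absurd hxU h.2
  have hWt1 : t1 ∉ W := fun hx => n12 (hdis t1 hx (by simp))
  have hWt : t ∉ W := fun hx => n2 (hdis t hx (by simp)).symm
  set P : Finset V := (W.erase t2) ∪ {t1, t, t2} with hP
  have hWS : W.erase t2 ⊆ S := by
    intro x hx
    rcases mem_cset.1 (hW (Finset.mem_of_mem_erase hx)) with h | h
    · exact absurd h (Finset.ne_of_mem_erase hx)
    · exact h.1
  have hPS : P ⊆ S := Finset.union_subset hWS hU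
  have ht1P : t1 ∈ P := by simp [hP]
  have htP : t ∈ P := by simp [hP]
  have ht2P : t2 ∈ P := by simp [hP]
  have hWpos : 0 < W.card := Finset.card_pos.2 hne
  have hcardWe : (W.erase t2).card + 1 = W.card := by
    rw [Finset.card_erase_of_mem hcW]; omega
  by_cases hback : Rch D P t2 t1
  · -- everything in U mutually reachable
    have hUU : ∀ u ∈ ({t1, t, t2} : Finset V), ∀ v ∈ ({t1, t, t2} : Finset V), Rch D P u v := by
      have p12 : Rch D P t1 t := Rch.single a1 ht1P htP
      have p23 : Rch D P t t2 := Rch.single a2 htP ht2P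
      have hub1 : ∀ u ∈ ({t1, t, t2} : Finset V), Rch D P t2 u := by
        intro u hu
        simp only [Finset.mem_insert, Finset.mem_singleton] at hu
        rcases hu with rfl | rfl | rfl
        · exact hback
        · exact hback.trans p12
        · exact Rch.refl
      have hub2 : ∀ u ∈ ({t1, t, t2} : Finset V), Rch D P u t2 := by
        intro u hu
        simp only [Finset.mem_insert, Finset.mem_singleton] at hu
        rcases hu with rfl | rfl | rfl
        · exact p12.trans p23
        · exact p23
        · exact Rch.refl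
      intro u hu v hv
      exact (hub2 u hu).trans (hub1 v hv)
    have hsc' := con_lift (D := D) hc hcW hdis hUU hsc
    have o1 := h.odd P hPS ⟨t1, ht1P⟩ hsc'
    have hcard : P.card = (W.erase t2).card + 3 := by
      rw [hP, Finset.card_union_of_disjoint]
      · congr 1
        rw [Finset.card_insert_of_notMem (by simp [n1, n12]), Finset.card_pair n2.symm]
      · rw [Finset.disjoint_left]
        intro x hx hxU
        exact Finset.ne_of_mem_erase hx (hdis x (Finset.mem_of_mem_erase hx) hxU)
    obtain ⟨p, hp⟩ := o1
    exact ⟨p - 1, by omega⟩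
  · -- two separate pieces
    classical
    set X := W.erase t2 with hX
    have hXW : ∀ x ∈ X, x ∈ W := fun x hx => Finset.mem_of_mem_erase hx
    have hXU : ∀ x ∈ X, x ∉ ({t1, t, t2} : Finset V) := by
      intro x hx hxU
      exact Finset.ne_of_mem_erase hx (hdis x (hXW x hx) hxU)
    have hXP : ∀ x ∈ X, x ∈ P := fun x hx => Finset.mem_union_left _ hx
    have hXt : ∀ x ∈ X, x ≠ t := by rintro x hx rfl; exact hXU x hx (by simp)
    have hXt1 : ∀ x ∈ X, x ≠ t1 := by rintro x hx rfl; exact hXU x hx (by simp)
    have hXt2 : ∀ x ∈ X, x ≠ t2 := by rintro x hx rfl; exact hXU x hx (by simp)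
    -- reachability facts
    have hsub1 : insert t1 X ⊆ P := by
      intro x hx
      rcases Finset.mem_insert.1 hx with rfl | hx
      · exact ht1P
      · exact hXP x hx
    have hsub2 : insert t2 X ⊆ P := by
      intro x hx
      rcases Finset.mem_insert.1 hx with rfl | hx
      · exact ht2P
      · exact hXP x hx
    have hsubt1 : insert t1 X ⊆ S.erase t := by
      intro x hx
      rcases Finset.mem_insert.1 hx with rfl | hx
      · exact Finset.mem_erase.2 ⟨n1, ht.2.1⟩
      · exact Finset.mem_erase.2 ⟨hXt x hx, hPS (hXP x hx)⟩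
    have hsubt2 : insert t2 X ⊆ S.erase t := by
      intro x hx
      rcases Finset.mem_insert.1 hx with rfl | hx
      · exact Finset.mem_erase.2 ⟨n2, ht.2.2.1⟩
      · exact Finset.mem_erase.2 ⟨hXt x hx, hPS (hXP x hx)⟩
    -- departures
    have hdep : ∀ y, Rch (con D {t1, t, t2} t2) W t2 y →
        y = t2 ∨ (y ∈ X ∧ (Rch D (insert t1 X) t1 y ∨ Rch D (insert t2 X) t2 y)) := by
      intro y hy
      unfold Rch at hy
      induction hy with
      | refl => exact Or.inl rfl
      | @tail y z _ hyz ih =>
        obtain ⟨⟨_, u, v, huv, hu, hv⟩, hy, hz⟩ := hyz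
        by_cases hz2 : z = t2
        · exact Or.inl hz2
        have hzX : z ∈ X := Finset.mem_erase.2 ⟨hz2, hz⟩
        rw [rep_eq_iff_of_ne hc (hXU z hzX)] at hv
        subst hv
        refine Or.inr ⟨hzX, ?_⟩
        rcases ih with rfl | ⟨hyX, ih⟩
        · rw [rep_eq_c_iff hc] at hu
          simp only [Finset.mem_insert, Finset.mem_singleton] at hu
          rcases hu with rfl | rfl | rfl
          · exact Or.inl (Rch.single huv (by simp) (by simp [hzX]))
          · exfalso
            have := (ht.2.2.2.2 v (hPS (hXP v hzX))).1 huv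
            exact hz2 this
          · exact Or.inr (Rch.single huv (by simp) (by simp [hzX]))
        · rw [rep_eq_iff_of_ne hc (hXU y hyX)] at hu
          subst hu
          rcases ih with ih | ih
          · exact Or.inl (ih.tail huv (by simp [hyX]) (by simp [hzX]))
          · exact Or.inr (ih.tail huv (by simp [hyX]) (by simp [hzX]))
    have harr : ∀ y, Rch (con D {t1, t, t2} t2) W y t2 →
        y = t2 ∨ (y ∈ X ∧ (Rch D (insert t1 X) y t1 ∨ Rch D (insert t2 X) y t2)) := by
      intro y hy
      unfold Rch at hy
      induction hy using ReflTransGen.head_induction_on with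
      | refl => exact Or.inl rfl
      | @head z y hzy _ ih =>
        obtain ⟨⟨_, u, v, huv, hu, hv⟩, hz, hy⟩ := hzy
        by_cases hz2 : z = t2
        · exact Or.inl hz2
        have hzX : z ∈ X := Finset.mem_erase.2 ⟨hz2, hz⟩
        rw [rep_eq_iff_of_ne hc (hXU z hzX)] at hu
        subst hu
        refine Or.inr ⟨hzX, ?_⟩
        rcases ih with rfl | ⟨hyX, ih⟩
        · rw [rep_eq_c_iff hc] at hv
          simp only [Finset.mem_insert, Finset.mem_singleton] at hv
          rcases hv with rfl | rfl | rfl
          · exact Or.inl (Rch.single huv (by simp [hzX]) (by simp))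
          · exfalso
            have := (ht.2.2.2.1 u (hPS (hXP u hzX))).1 huv
            exact hXt1 u hzX this
          · exact Or.inr (Rch.single huv (by simp [hzX]) (by simp))
        · rw [rep_eq_iff_of_ne hc (hXU y hyX)] at hv
          subst hv
          rcases ih with ih | ih
          · exact Or.inl (ih.head huv (by simp [hzX]) (by simp [hyX]))
          · exact Or.inr (ih.head huv (by simp [hzX]) (by simp [hyX]))
    have dep : ∀ x ∈ X, Rch D (insert t1 X) t1 x ∨ Rch D (insert t2 X) t2 x := by
      intro x hx
      rcases hdep x (hsc t2 hcW x (hXW x hx)) with h | h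
      · exact absurd h (hXt2 x hx)
      · exact h.2
    have arr : ∀ x ∈ X, Rch D (insert t1 X) x t1 ∨ Rch D (insert t2 X) x t2 := by
      intro x hx
      rcases harr x (hsc x (hXW x hx) t2 hcW) with h | h
      · exact absurd h (hXt2 x hx)
      · exact h.2
    -- no path t1 -> t2 avoiding t
    have no12 : ∀ x, Rch D (insert t1 X) t1 x → Rch D (insert t2 X) x t2 → False := by
      intro x h1 h2
      exact h.nt ht ((h1.mono hsubt1).trans (h2.mono hsubt2))
    have no21 : ∀ x, Rch D (insert t2 X) t2 x → Rch D (insert t1 X) x t1 → False := by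
      intro x h1 h2
      exact hback ((h1.mono hsub2).trans (h2.mono hsub1))
    set X1 := X.filter (fun x => Rch D (insert t1 X) t1 x) with hX1
    set X2 := X.filter (fun x => Rch D (insert t2 X) t2 x) with hX2
    have hX12 : X1 ∪ X2 = X := by
      ext x
      simp only [hX1, hX2, Finset.mem_union, Finset.mem_filter]
      constructor
      · rintro (h | h) <;> exact h.1
      · intro hx
        rcases dep x hx with h | h
        · exact Or.inl ⟨hx, h⟩
        · exact Or.inr ⟨hx, h⟩
    have back1 : ∀ x ∈ X1, Rch D (insert t1 X) x t1 := by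
      intro x hx
      have hx' := Finset.mem_filter.1 hx
      rcases arr x hx'.1 with h | h
      · exact h
      · exact absurd h (fun h => no12 x hx'.2 h)
    have back2 : ∀ x ∈ X2, Rch D (insert t2 X) x t2 := by
      intro x hx
      have hx' := Finset.mem_filter.1 hx
      rcases arr x hx'.1 with h | h
      · exact absurd h (fun h => no21 x hx'.2 h)
      · exact h
    have hdisj : Disjoint X1 X2 := by
      rw [Finset.disjoint_left]
      intro x h1 h2
      exact no21 x (Finset.mem_filter.1 h2).2 (back1 x h1)
    -- general fact: closure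
    have clos : ∀ (s : V) (Y : Finset V), Y = X.filter (fun x => Rch D (insert s X) s x) →
        (∀ x ∈ Y, Rch D (insert s X) x s) → SC D (insert s Y) := by
      intro s Y hY hback
      have mem : ∀ x, Rch D (insert s X) s x → x ∈ insert s Y := by
        intro x hx
        have hxm := hx.mem_right (by simp : s ∈ insert s X)
        rcases Finset.mem_insert.1 hxm with h | h
        · exact Finset.mem_insert.2 (Or.inl h)
        · refine Finset.mem_insert.2 (Or.inr ?_)
          rw [hY]; exact Finset.mem_filter.2 ⟨h, hx⟩
      have fwd : ∀ x, Rch D (insert s X) s x → Rch D (insert s Y) s x := by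
        intro x hx
        unfold Rch at hx
        induction hx with
        | refl => exact Rch.refl
        | @tail y z hy hyz ih =>
          exact ih.tail hyz.1 (mem y hy) (mem z (hy.tail hyz))
      have bwd : ∀ x, Rch D (insert s X) x s → Rch D (insert s X) s x →
          Rch D (insert s Y) x s := by
        intro x hx
        unfold Rch at hx
        induction hx using ReflTransGen.head_induction_on with
        | refl => intro _; exact Rch.refl
        | @head y z hyz _ ih =>
          intro hy
          have hz : Rch D (insert s X) s z := hy.tail hyz.1 hyz.2.1 hyz.2.2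
          exact (ih hz).head hyz.1 (mem y hy) (mem z hz)
      apply SC.of_hub s
      · intro u hu
        rcases Finset.mem_insert.1 hu with rfl | hu
        · exact Rch.refl
        · rw [hY] at hu
          exact fwd u (Finset.mem_filter.1 hu).2
      · intro u hu
        rcases Finset.mem_insert.1 hu with rfl | hu
        · exact Rch.refl
        · have h1 := hback u hu
          rw [hY] at hu
          exact bwd u h1 (Finset.mem_filter.1 hu).2
    have sc1 := clos t1 X1 rfl back1
    have sc2 := clos t2 X2 rfl back2
    have sub1 : insert t1 X1 ⊆ S := by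
      intro x hx
      rcases Finset.mem_insert.1 hx with rfl | hx
      · exact ht.2.1
      · exact hPS (hXP x (Finset.mem_filter.1 hx).1)
    have sub2 : insert t2 X2 ⊆ S := by
      intro x hx
      rcases Finset.mem_insert.1 hx with rfl | hx
      · exact ht.2.2.1
      · exact hPS (hXP x (Finset.mem_filter.1 hx).1)
    have o1 := h.odd _ sub1 ⟨t1, by simp⟩ sc1
    have o2 := h.odd _ sub2 ⟨t2, by simp⟩ sc2
    have c1 : (insert t1 X1).card = X1.card + 1 := Finset.card_insert_of_notMem
      (fun h => hXt1 t1 (Finset.mem_filter.1 h).1 rfl)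
    have c2 : (insert t2 X2).card = X2.card + 1 := Finset.card_insert_of_notMem
      (fun h => hXt2 t2 (Finset.mem_filter.1 h).1 rfl)
    rw [c1] at o1
    rw [c2] at o2
    have hcx : X1.card + X2.card = X.card := by
      rw [← Finset.card_union_of_disjoint hdisj, hX12]
    obtain ⟨p, hp⟩ := o1
    obtain ⟨q, hq⟩ := o2
    have e1 : X1.card = 2 * p := by omega
    have e2 : X2.card = 2 * q := by omega
    have e3 : X.card = 2 * p + 2 * q := by omega
    have e4 : X.card + 1 = W.card := hcardWe
    exact ⟨p + q, by omega⟩

end H168DD
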