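import Pool.Agent.H79.LF.H168DD_TutteFam

set_option linter.unusedSectionVars false
set_option linter.unusedVariables false

namespace H168DD

open SimpleGraph

variable {V : Type*} [DecidableEq V]

/-- the auxiliary graph: `G` on `T` plus `l` universal vertices -/
def auxG (G : SimpleGraph V) (T : Finset V) (l : ℕ) : SimpleGraph (↥T ⊕ Fin l) where
  Adj
    | Sum.inl a, Sum.inl b => G.Adj a.1 b.1
    | Sum.inl _, Sum.inr _ => True
    | Sum.inr _, Sum.inl _ => True
    | Sum.inr i, Sum.inr j => i ≠ j
  symm := ⟨by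
    rintro (a | i) (b | j) h
    · exact G.adj_symm h
    · trivial
    · trivial
    · exact Ne.symm h⟩
  loopless := ⟨by
    rintro (a | i) h
    · exact G.irrefl h
    · exact h rfl⟩

/-- Tutte-Berge type statement. -/
lemma tutte_berge (G : SimpleGraph V) (T : Finset V) (l : ℕ) (heven : Even (T.card + l))
    (hcond : ∀ (A : Finset V) (F : Finset (Finset V)), A ⊆ T → (∀ O ∈ F, Odd O.card) →
      (∀ O ∈ F, ∀ O' ∈ F, O ≠ O' → Disjoint O O') → (∀ O ∈ F, O ⊆ T \ A) →
      (∀ O ∈ F, ∀ x ∈ O, ∀ y ∈ T, G.Adj x y → y ∈ O ∨ y ∈ A) → F.card ≤ A.card + l) :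
    ∃ (U : Finset V) (m : V → V), U ⊆ T ∧ U.card ≤ l ∧
      ∀ x ∈ T \ U, m x ∈ T \ U ∧ m (m x) = x ∧ G.Adj x (m x) := by
  classical
  have hm : ∃ m : (↥T ⊕ Fin l) → (↥T ⊕ Fin l), ∀ x, m (m x) = x ∧ (auxG G T l).Adj x (m x) := by
    apply tutte_fam
    intro A F hodd hdisj hdA hclos
    by_cases hall : ∀ i : Fin l, Sum.inr i ∈ A
    · -- all auxiliary vertices in A
      let φ : Finset (↥T ⊕ Fin l) → Finset V := fun O => O.toLeft.map ⟨Subtype.val, Subtype.val_injective⟩
      have hφ : ∀ O x, x ∈ φ O ↔ ∃ h : x ∈ T, Sum.inl ⟨x, h⟩ ∈ O := by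
        intro O x
        simp only [φ, Finset.mem_map, Finset.mem_toLeft, Function.Embedding.coeFn_mk]
        constructor
        · rintro ⟨a, ha, rfl⟩; exact ⟨a.2, ha⟩
        · rintro ⟨h, hx⟩; exact ⟨⟨x, h⟩, hx, rfl⟩
      have hcardφ : ∀ O, (φ O).card = O.toLeft.card := fun O => Finset.card_map _
      have hnoR : ∀ O ∈ F, ∀ i : Fin l, Sum.inr i ∉ O := by
        intro O hO i hi
        exact (Finset.disjoint_left.1 (hdA O hO)) hi (hall i)
      have hcardO : ∀ O ∈ F, (φ O).card = O.card := by
        intro O hO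
        have h1 := Finset.card_toLeft_add_card_toRight (u := O)
        have h2 : O.toRight = ∅ := by
          rw [Finset.eq_empty_iff_forall_notMem]
          intro i hi
          exact hnoR O hO i (Finset.mem_toRight.1 hi)
        rw [h2, Finset.card_empty] at h1
        rw [hcardφ]; omega
      have hcardA : A.card = (φ A).card + l := by
        have h1 := Finset.card_toLeft_add_card_toRight (u := A)
        have h2 : A.toRight = Finset.univ := by
          rw [Finset.eq_univ_iff_forall]
          intro i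
          exact Finset.mem_toRight.2 (hall i)
        rw [h2, Finset.card_univ, Fintype.card_fin] at h1
        rw [hcardφ]; omega
      have hinj : Set.InjOn φ (F : Set (Finset (↥T ⊕ Fin l))) := by
        intro O hO O' hO' he
        ext x
        rcases x with a | i
        · have h1 := hφ O a.1
          have h2 := hφ O' a.1
          rw [he] at h1
          constructor
          · intro h
            obtain ⟨_, h'⟩ := h2.1 (h1.2 ⟨a.2, h⟩)
            exact h'
          · intro h
            obtain ⟨_, h'⟩ := h1.1 (h2.2 ⟨a.2, h⟩)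
            exact h'
        · exact ⟨fun h => absurd h (hnoR O hO i), fun h => absurd h (hnoR O' hO' i)⟩
      have hres := hcond (φ A) (F.image φ) ?_ ?_ ?_ ?_ ?_
      · rw [Finset.card_image_of_injOn hinj] at hres
        omega
      · intro x hx
        obtain ⟨h, _⟩ := (hφ A x).1 hx
        exact h
      · intro O hO
        obtain ⟨O1, hO1, rfl⟩ := Finset.mem_image.1 hO
        rw [hcardO O1 hO1]; exact hodd O1 hO1
      · intro O hO O' hO' hne
        obtain ⟨O1, hO1, rfl⟩ := Finset.mem_image.1 hO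
        obtain ⟨O2, hO2, rfl⟩ := Finset.mem_image.1 hO'
        have hne' : O1 ≠ O2 := by rintro rfl; exact hne rfl
        rw [Finset.disjoint_left]
        intro x hx hx'
        obtain ⟨h, h1⟩ := (hφ O1 x).1 hx
        obtain ⟨_, h2⟩ := (hφ O2 x).1 hx'
        exact Finset.disjoint_left.1 (hdisj O1 hO1 O2 hO2 hne') h1 h2
      · intro O hO x hx
        obtain ⟨O1, hO1, rfl⟩ := Finset.mem_image.1 hO
        obtain ⟨h, h1⟩ := (hφ O1 x).1 hx
        refine Finset.mem_sdiff.2 ⟨h, fun hxA => ?_⟩
        obtain ⟨_, h2⟩ := (hφ A x).1 hxA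
        exact Finset.disjoint_left.1 (hdA O1 hO1) h1 h2
      · intro O hO x hx y hy hxy
        obtain ⟨O1, hO1, rfl⟩ := Finset.mem_image.1 hO
        obtain ⟨h, h1⟩ := (hφ O1 x).1 hx
        have hadj : (auxG G T l).Adj (Sum.inl ⟨x, h⟩) (Sum.inl ⟨y, hy⟩) := hxy
        rcases hclos O1 hO1 _ h1 _ hadj with h2 | h2
        · exact Or.inl ((hφ O1 y).2 ⟨hy, h2⟩)
        · exact Or.inr ((hφ A y).2 ⟨hy, h2⟩)
    · push Not at hall
      obtain ⟨i, hi⟩ := hall
      have huniv : ∀ x, x ≠ Sum.inr i → (auxG G T l).Adj x (Sum.inr i) := by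
        rintro (a | j) h
        · trivial
        · exact fun e => h (by rw [e])
      have hiO : ∀ O ∈ F, Sum.inr i ∈ O := by
        intro O hO
        obtain ⟨p, hp⟩ := hodd O hO
        obtain ⟨x, hx⟩ := Finset.card_pos.1 (by omega : 0 < O.card)
        by_cases hxi : x = Sum.inr i
        · rw [← hxi]; exact hx
        · exact (hclos O hO x hx _ (huniv x hxi)).resolve_right hi
      have hle1 : F.card ≤ 1 := by
        rw [Finset.card_le_one]
        intro O hO O' hO'
        by_contra hne
        exact Finset.disjoint_left.1 (hdisj O hO O' hO' hne) (hiO O hO) (hiO O' hO')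
      by_cases hA : A = ∅
      · subst hA
        rw [Finset.card_empty, Nat.le_zero, Finset.card_eq_zero]
        rw [Finset.eq_empty_iff_forall_notMem]
        intro O hO
        have hOu : O = Finset.univ := by
          rw [Finset.eq_univ_iff_forall]
          intro x
          by_cases hxi : x = Sum.inr i
          · rw [hxi]; exact hiO O hO
          · have := hclos O hO _ (hiO O hO) x (huniv x hxi).symm
            simpa using this
        have ho := hodd O hO
        rw [hOu, Finset.card_univ, Fintype.card_sum, Fintype.card_coe, Fintype.card_fin] at ho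
        exact (Nat.not_even_iff_odd.2 ho) heven
      · have := Finset.card_pos.2 (Finset.nonempty_iff_ne_empty.2 hA)
        omega
  obtain ⟨m, hm⟩ := hm
  have hinjm : Function.Injective m := by
    intro a b h
    rw [← (hm a).1, h, (hm b).1]
  set U := T.filter (fun x => ∃ (h : x ∈ T) (i : Fin l), m (Sum.inl ⟨x, h⟩) = Sum.inr i) with hU
  let m' : V → V := fun x => if h : x ∈ T then
    (match m (Sum.inl ⟨x, h⟩) with
      | Sum.inl y => y.1
      | Sum.inr _ => x) else x
  refine ⟨U, m', Finset.filter_subset _ _, ?_, ?_⟩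
  · have hfi : ∀ x ∈ U, ∃ i : Fin l, ∃ h : x ∈ T, m (Sum.inl ⟨x, h⟩) = Sum.inr i := by
      intro x hx
      obtain ⟨_, h, i, hi⟩ := Finset.mem_filter.1 hx
      exact ⟨i, h, hi⟩
    by_cases hUe : U = ∅
    · rw [hUe]; simp
    obtain ⟨x0, hx0⟩ := Finset.nonempty_iff_ne_empty.2 hUe
    have hne : Nonempty (Fin l) := ⟨(hfi x0 hx0).choose⟩
    choose! f hf using hfi
    have hc : U.card ≤ (Finset.univ : Finset (Fin l)).card := by
      apply Finset.card_le_card_of_injOn f
      · intro x _; exact Finset.mem_coe.2 (Finset.mem_univ _)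
      · intro x hx y hy he
        obtain ⟨h1, e1⟩ := hf x hx
        obtain ⟨h2, e2⟩ := hf y hy
        rw [he, ← e2] at e1
        have := hinjm e1
        simpa using this
    rwa [Finset.card_univ, Fintype.card_fin] at hc
  · intro x hx
    rw [Finset.mem_sdiff] at hx
    obtain ⟨hxT, hxU⟩ := hx
    have hx1 : ∃ y, m (Sum.inl ⟨x, hxT⟩) = Sum.inl y := by
      rcases hy : m (Sum.inl ⟨x, hxT⟩) with y | i
      · exact ⟨y, rfl⟩
      · exact absurd (Finset.mem_filter.2 ⟨hxT, hxT, i, hy⟩) hxU
    obtain ⟨y, hy⟩ := hx1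
    have e1 : m' x = y.1 := by simp only [m', dif_pos hxT, hy]
    have hmy : m (Sum.inl y) = Sum.inl ⟨x, hxT⟩ := by rw [← hy]; exact (hm _).1
    have e2 : m' y.1 = x := by
      have : (⟨y.1, y.2⟩ : ↥T) = y := rfl
      simp only [m', dif_pos y.2]
      rw [hmy]
    rw [e1]
    refine ⟨?_, e2, ?_⟩
    · refine Finset.mem_sdiff.2 ⟨y.2, fun hyU => ?_⟩
      obtain ⟨_, h, i, hi⟩ := Finset.mem_filter.1 hyU
      have : m (Sum.inl y) = Sum.inr i := hi
      rw [hmy] at this
      exact absurd this (by simp)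
    · have := (hm (Sum.inl ⟨x, hxT⟩)).2
      rw [hy] at this
      exact this

end H168DD
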