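import Pool.Agent.H79.LF.TH525_LAD_Konig

/-!
# König's theorem for bipartite multigraphs, and equitable colourings of arcs
-/

set_option autoImplicit false

namespace Pool.Agent.Q251.TC

open Finset

open Classical in
/-- **König.** -/
theorem kon {S A B : Type} [Fintype S] [Fintype A] [Fintype B] (f : S → A) (g : S → B) (m : ℕ)
    (hf : ∀ a, (univ.filter (fun s => f s = a)).card ≤ m)
    (hg : ∀ b, (univ.filter (fun s => g s = b)).card ≤ m) :
    ∃ κ : S → Fin m, ∀ s s', s ≠ s' → (f s = f s' ∨ g s = g s') → κ s ≠ κ s' := by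
  let W := A ⊕ B
  let M : W → W → ℕ := fun x y => match x, y with
    | Sum.inl a, Sum.inr b => (univ.filter (fun s => f s = a ∧ g s = b)).card
    | _, _ => 0
  have hrow : ∀ v, ∑ w, M v w ≤ m := by
    rintro (a | b)
    · rw [Fintype.sum_sum_type]
      have h1 : ∑ x : A, M (Sum.inl a) (Sum.inl x) = 0 := sum_eq_zero fun x _ => rfl
      have h2 : ∑ b : B, M (Sum.inl a) (Sum.inr b) = (univ.filter (fun s => f s = a)).card := by
        rw [card_eq_sum_card_fiberwise (f := g) (t := (univ : Finset B))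
          (fun _ _ => mem_coe.2 (mem_univ _))]
        refine sum_congr rfl fun b _ => ?_
        rw [filter_filter]
      rw [h1, h2, zero_add]
      exact hf a
    · have h1 : ∑ w, M (Sum.inr b) w = 0 := sum_eq_zero fun x _ => by rcases x with x | x <;> rfl
      rw [h1]
      exact Nat.zero_le _
  have hcol : ∀ w, ∑ v, M v w ≤ m := by
    rintro (a | b)
    · have h1 : ∑ v, M v (Sum.inl a) = 0 := sum_eq_zero fun x _ => by rcases x with x | x <;> rfl
      rw [h1]
      exact Nat.zero_le _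
    · rw [Fintype.sum_sum_type]
      have h1 : ∑ x : B, M (Sum.inr x) (Sum.inr b) = 0 := sum_eq_zero fun x _ => rfl
      have h2 : ∑ a : A, M (Sum.inl a) (Sum.inr b) = (univ.filter (fun s => g s = b)).card := by
        rw [card_eq_sum_card_fiberwise (f := f) (t := (univ : Finset A))
          (fun _ _ => mem_coe.2 (mem_univ _))]
        refine sum_congr rfl fun a _ => ?_
        rw [filter_filter]
        refine congrArg card ?_
        ext s
        simp only [mem_filter, mem_univ, true_and, and_comm]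
      rw [h1, h2, add_zero]
      exact hg b
  have htot : ∑ v, ∑ w, M v w ≤ m * Fintype.card W := by
    refine (sum_le_sum fun v _ => hrow v).trans (le_of_eq ?_)
    rw [sum_const, card_univ, smul_eq_mul, mul_comm]
  obtain ⟨M', hM1, hM2, hM3⟩ := Pool.Agent.TH525.LAD.fill m (m * Fintype.card W - ∑ v, ∑ w, M v w) M
    hrow hcol (by omega)
  obtain ⟨σ, hσ⟩ := Pool.Agent.H150R2.ZSF.koenig m M' hM2 hM3
  have hle : ∀ a b, Fintype.card {s // f s = a ∧ g s = b} ≤
      Fintype.card {i : Fin m // σ i (Sum.inl a) = Sum.inr b} := by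
    intro a b
    rw [Fintype.card_subtype, Fintype.card_subtype]
    have h1 : (univ.filter (fun s => f s = a ∧ g s = b)).card ≤ M' (Sum.inl a) (Sum.inr b) :=
      hM1 (Sum.inl a) (Sum.inr b)
    refine h1.trans (le_of_eq ?_)
    rw [hσ, card_filter]
    refine sum_congr rfl fun i _ => ?_
    by_cases hi : σ i (Sum.inl a) = Sum.inr b
    · rw [if_pos hi, if_pos hi]
    · rw [if_neg hi, if_neg hi]
  have e : ∀ a b, {s // f s = a ∧ g s = b} ↪ {i : Fin m // σ i (Sum.inl a) = Sum.inr b} :=
    fun a b => Classical.choice (Function.Embedding.nonempty_of_card_le (hle a b))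
  let κ : S → Fin m := fun s => (e (f s) (g s) ⟨s, rfl, rfl⟩).1
  have hκ : ∀ s a b (h : f s = a ∧ g s = b), κ s = (e a b ⟨s, h⟩).1 := by
    rintro s a b ⟨rfl, rfl⟩
    rfl
  have hκ2 : ∀ s, σ (κ s) (Sum.inl (f s)) = Sum.inr (g s) := fun s => (e (f s) (g s) _).2
  refine ⟨κ, ?_⟩
  intro s s' hne h h1
  have h2 := hκ2 s
  have h3 := hκ2 s'
  rw [← h1] at h3
  have h4 : f s = f s' ∧ g s = g s' := by
    rcases h with h | h
    · refine ⟨h, ?_⟩
      rw [h, h3] at h2
      exact (Sum.inr.inj h2).symm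
    · refine ⟨?_, h⟩
      rw [← h, ← h2] at h3
      exact (Sum.inl.inj ((σ (κ s)).injective h3)).symm
  have h5 := hκ s (f s') (g s') h4
  have h6 := hκ s' (f s') (g s') ⟨rfl, rfl⟩
  rw [h5, h6] at h1
  have h7 := (e (f s') (g s')).injective (Subtype.ext h1)
  exact hne (congrArg Subtype.val h7)

open Classical in
/-- a map into blocks -/
theorem blocks {S V : Type} [Fintype S] (t : S → V) (h N : ℕ)
    (ht : ∀ v, (univ.filter (fun s => t s = v)).card ≤ h * N) :
    ∃ β : S → Fin h, ∀ v j, (univ.filter (fun s => (t s, β s) = (v, j))).card ≤ N := by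
  have e : ∀ v, {s // t s = v} ↪ (Fin h × Fin N) := fun v =>
    Classical.choice (Function.Embedding.nonempty_of_card_le (by
      rw [Fintype.card_subtype, Fintype.card_prod, Fintype.card_fin, Fintype.card_fin]
      exact ht v))
  refine ⟨fun s => (e (t s) ⟨s, rfl⟩).1, ?_⟩
  have he : ∀ s v (hs : t s = v), (e (t s) ⟨s, rfl⟩) = e v ⟨s, hs⟩ := by
    rintro s v rfl
    rfl
  intro v j
  have hN : (univ : Finset (Fin N)).card = N := by rw [card_univ, Fintype.card_fin]
  refine le_trans (card_le_card_of_injOn (t := (univ : Finset (Fin N)))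
    (fun s => (e (t s) ⟨s, rfl⟩).2) (fun _ _ => mem_coe.2 (mem_univ _)) ?_) (le_of_eq hN)
  intro s hs s' hs' h1
  rw [mem_coe, mem_filter] at hs hs'
  have h2 := Prod.ext_iff.1 hs.2
  have h3 := Prod.ext_iff.1 hs'.2
  have h4 : e (t s) ⟨s, rfl⟩ = e (t s') ⟨s', rfl⟩ := Prod.ext (h2.2.trans h3.2.symm) h1
  rw [he s v h2.1, he s' v h3.1] at h4
  exact congrArg Subtype.val ((e v).injective h4)

open Classical in
/-- **Equitable colouring of arcs.** -/
theorem eqc {S V : Type} [Fintype S] [Fintype V] (t u : S → V) (h N : ℕ)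
    (ht : ∀ v, (univ.filter (fun s => t s = v)).card ≤ h * N)
    (hu : ∀ v, (univ.filter (fun s => u s = v)).card ≤ h * N) :
    ∃ κ : S → Fin N, ∀ v c, (univ.filter (fun s => t s = v ∧ κ s = c)).card ≤ h ∧
      (univ.filter (fun s => u s = v ∧ κ s = c)).card ≤ h := by
  obtain ⟨β, hβ⟩ := blocks t h N ht
  obtain ⟨γ, hγ⟩ := blocks u h N hu
  obtain ⟨κ, hκ⟩ := kon (fun s => (t s, β s)) (fun s => (u s, γ s)) N
    (fun a => by obtain ⟨v, j⟩ := a; convert hβ v j)
    (fun a => by obtain ⟨v, j⟩ := a; convert hγ v j)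
  have hh : (univ : Finset (Fin h)).card = h := by rw [card_univ, Fintype.card_fin]
  refine ⟨κ, fun v c => ⟨?_, ?_⟩⟩
  · refine le_trans (card_le_card_of_injOn (t := (univ : Finset (Fin h))) β
      (fun _ _ => mem_coe.2 (mem_univ _)) ?_) (le_of_eq hh)
    intro s hs s' hs' h1
    rw [mem_coe, mem_filter] at hs hs'
    by_contra hne
    refine hκ s s' hne (Or.inl ?_) (hs.2.2.trans hs'.2.2.symm)
    exact Prod.ext (hs.2.1.trans hs'.2.1.symm) h1
  · refine le_trans (card_le_card_of_injOn (t := (univ : Finset (Fin h))) γ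
      (fun _ _ => mem_coe.2 (mem_univ _)) ?_) (le_of_eq hh)
    intro s hs s' hs' h1
    rw [mem_coe, mem_filter] at hs hs'
    by_contra hne
    refine hκ s s' hne (Or.inr ?_) (hs.2.2.trans hs'.2.2.symm)
    exact Prod.ext (hs.2.1.trans hs'.2.1.symm) h1

end Pool.Agent.Q251.TC
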