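import Pool.Agent.H79.LF.TH499_TF_TDec

set_option autoImplicit false
set_option linter.unusedSectionVars false

/-! # The lowest node with three vertices below it -/

namespace Pool.Agent.TH499.TF

open Finset

variable {V E : Type} [Fintype V] [DecidableEq V] [Fintype E] [DecidableEq E]
variable {C : (E → V) → (E → V) → Prop} {src dst : E → V}
variable {w : ℕ} {N : Finset ℕ} {par : ℕ → ℕ} {B : ℕ → Finset V}

/-- parent, with the root fixed -/
def pr (par : ℕ → ℕ) (i : ℕ) : ℕ := if i = 0 then 0 else par i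

/-- the node `t` is below `i` -/
def Under (par : ℕ → ℕ) (i t : ℕ) : Prop := ∃ k, (pr par)^[k] t = i

/-- the smallest node whose bag contains `x` -/
def IsTop (N : Finset ℕ) (B : ℕ → Finset V) (x : V) (t : ℕ) : Prop :=
  t ∈ N ∧ x ∈ B t ∧ ∀ j ∈ N, x ∈ B j → t ≤ j

theorem IsTop.unique {x : V} {t t' : ℕ} (h : IsTop N B x t) (h' : IsTop N B x t') : t = t' :=
  le_antisymm (h.2.2 _ h'.1 h'.2.1) (h'.2.2 _ h.1 h.2.1)

theorem TD.pr_mem (h : TD src dst w N par B) {i : ℕ} (hi : i ∈ N) :
    pr par i ∈ N ∧ pr par i ≤ i := by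
  unfold pr
  by_cases h0 : i = 0
  · rw [if_pos h0]; exact ⟨h.root, by omega⟩
  · rw [if_neg h0]; exact ⟨(h.up i hi h0).1, (h.up i hi h0).2.le⟩

theorem TD.it_mem (h : TD src dst w N par B) {i : ℕ} (hi : i ∈ N) (k : ℕ) :
    (pr par)^[k] i ∈ N ∧ (pr par)^[k] i ≤ i := by
  induction k with
  | zero => exact ⟨hi, le_rfl⟩
  | succ k ih =>
    rw [Function.iterate_succ_apply']
    obtain ⟨h1, h2⟩ := h.pr_mem ih.1
    exact ⟨h1, h2.trans ih.2⟩

theorem TD.a1 (h : TD src dst w N par B) {x : V} {t b : ℕ} (ht : IsTop N B x t) (hb : b ∈ N)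
    (hx : x ∈ B b) (k : ℕ) : t ≤ (pr par)^[k] b → x ∈ B ((pr par)^[k] b) := by
  induction k with
  | zero => intro _; exact hx
  | succ k ih =>
    rw [Function.iterate_succ_apply']
    intro hk
    obtain ⟨h1, h2⟩ := h.it_mem hb k
    generalize (pr par)^[k] b = j at ih hk h1 h2
    by_cases h0 : j = 0
    · subst h0
      have : pr par 0 = 0 := by unfold pr; rw [if_pos rfl]
      rw [this] at hk ⊢
      exact ih hk
    · obtain ⟨h3, h4⟩ := h.up j h1 h0
      have : pr par j = par j := by unfold pr; rw [if_neg h0]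
      rw [this] at hk ⊢
      exact h.conn j h1 t ht.1 x (by omega) (ih (by omega)) ht.2.1

theorem TD.a2 (h : TD src dst w N par B) {x : V} {t : ℕ} (ht : IsTop N B x t) (b : ℕ) :
    b ∈ N → x ∈ B b → Under par t b := by
  induction b using Nat.strong_induction_on with
  | _ b ih =>
    intro hb hx
    by_cases he : b = t
    · exact ⟨0, he⟩
    · have h1 := ht.2.2 b hb hx
      have h0 : b ≠ 0 := by omega
      obtain ⟨h3, h4⟩ := h.up b hb h0
      obtain ⟨k, hk⟩ := ih (par b) h4 h3 (h.conn b hb t ht.1 x (by omega) hx ht.2.1)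
      refine ⟨k + 1, ?_⟩
      rw [Function.iterate_succ_apply]
      have : pr par b = par b := by unfold pr; rw [if_neg h0]
      rw [this]; exact hk

theorem TD.a3 (h : TD src dst w N par B) (b : ℕ) : b ∈ N → Under par 0 b := by
  induction b using Nat.strong_induction_on with
  | _ b ih =>
    intro hb
    by_cases h0 : b = 0
    · exact ⟨0, h0⟩
    · obtain ⟨h3, h4⟩ := h.up b hb h0
      obtain ⟨k, hk⟩ := ih (par b) h4 h3
      refine ⟨k + 1, ?_⟩
      rw [Function.iterate_succ_apply]
      have : pr par b = par b := by unfold pr; rw [if_neg h0]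
      rw [this]; exact hk

theorem under_cmp {i t b : ℕ} (h1 : Under par i b) (h2 : Under par t b) :
    Under par i t ∨ Under par t i := by
  obtain ⟨k, hk⟩ := h1
  obtain ⟨m, hm⟩ := h2
  rcases le_total k m with h | h
  · obtain ⟨c, rfl⟩ := Nat.exists_eq_add_of_le h
    right
    refine ⟨c, ?_⟩
    rw [← hk, ← Function.iterate_add_apply, add_comm c k, hm]
  · obtain ⟨c, rfl⟩ := Nat.exists_eq_add_of_le h
    left
    refine ⟨c, ?_⟩
    rw [← hm, ← Function.iterate_add_apply, add_comm c m, hk]

theorem under_trans {i j b : ℕ} (h1 : Under par i j) (h2 : Under par j b) : Under par i b := by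
  obtain ⟨k, hk⟩ := h1
  obtain ⟨m, hm⟩ := h2
  exact ⟨k + m, by rw [Function.iterate_add_apply, hm, hk]⟩

/-- a node properly below `i` is below a child of `i` -/
theorem TD.child (h : TD src dst w N par B) {i t : ℕ} (ht : t ∈ N) (hu : Under par i t)
    (hne : t ≠ i) : ∃ c ∈ N, c ≠ 0 ∧ par c = i ∧ i < c ∧ Under par c t := by
  classical
  have hs := Nat.find_spec hu
  have hm := fun m => @Nat.find_min _ _ hu m
  generalize Nat.find hu = k at hs hm
  cases k with
  | zero => exact absurd hs hne
  | succ k =>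
    rw [Function.iterate_succ_apply'] at hs
    have h1 := hm k (by omega)
    have hc := (h.it_mem ht k).1
    have h0 : (pr par)^[k] t ≠ 0 := by
      intro h0
      rw [h0] at hs
      have : pr par 0 = 0 := by unfold pr; rw [if_pos rfl]
      rw [this] at hs
      exact h1 (h0.trans hs)
    have h2 : ∀ j, j ≠ 0 → pr par j = par j := fun j hj => if_neg hj
    rw [h2 _ h0] at hs
    refine ⟨_, hc, h0, hs, ?_, k, rfl⟩
    rw [← hs]
    exact (h.up _ hc h0).2

theorem MC.deg3 (hC : Closed C) (h : MC C src dst) {x y : V} (hxy : Ad src dst x y) :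
    ∃ a b c, a ≠ b ∧ b ≠ c ∧ a ≠ c ∧ Ad src dst x a ∧ Ad src dst x b ∧ Ad src dst x c := by
  classical
  have h1 := h.deg hC hxy (univ.filter (fun z => Ad src dst x z)) (fun z hz => by simpa using hz)
  obtain ⟨a, ha, b, hb, c, hc, hab, hac, hbc⟩ := two_lt_card.mp h1
  simp only [mem_filter, mem_univ, true_and] at ha hb hc
  exact ⟨a, b, c, hab, hbc, hac, ha, hb, hc⟩

theorem MC.noTD (hC : Closed C) (h : MC C src dst) (hN : NoC (Ad src dst))
    (hD : TD src dst 5 N par B) (hmin : ∀ i ∈ N, i ≠ 0 → ¬ B i ⊆ B (par i))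
    (hnis : ∀ i ∈ N, ∀ x ∈ B i, ∃ y, Ad src dst x y) (hne : ∃ x y, Ad src dst x y) :
    False := by
  classical
  have g := hN.g
  have bag : ∀ x y, Ad src dst x y → ∃ i ∈ N, x ∈ B i ∧ y ∈ B i := by
    rintro x y ⟨n1, e, he⟩
    obtain ⟨i, hi, h1, h2⟩ := hD.edge e (he.ne_loop n1)
    rcases he with ⟨h3, h4⟩ | ⟨h3, h4⟩
    · exact ⟨i, hi, h3 ▸ h1, h4 ▸ h2⟩
    · exact ⟨i, hi, h4 ▸ h2, h3 ▸ h1⟩
  have top : ∀ x, (∃ y, Ad src dst x y) → ∃ t, IsTop N B x t := by
    rintro x ⟨y, hy⟩
    obtain ⟨i, hi, h1, _⟩ := bag x y hy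
    have hex : ∃ i, i ∈ N ∧ x ∈ B i := ⟨i, hi, h1⟩
    refine ⟨Nat.find hex, (Nat.find_spec hex).1, (Nat.find_spec hex).2, fun j hj hx => ?_⟩
    exact Nat.find_min' hex ⟨hj, hx⟩
  obtain ⟨P, hP⟩ : ∃ P : ℕ → Finset V, ∀ i x, x ∈ P i ↔ ∃ t, IsTop N B x t ∧ Under par i t :=
    ⟨fun i => univ.filter (fun x => ∃ t, IsTop N B x t ∧ Under par i t), fun i x => by
      simp only [mem_filter, mem_univ, true_and]⟩
  -- neighbours of the vertices below a node
  have nb : ∀ i ∈ N, ∀ p ∈ P i, ∀ y, Ad src dst p y → y ∈ P i ∨ y ∈ B i := by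
    intro i hi p hp y hy
    obtain ⟨t, ht, hu⟩ := (hP i p).mp hp
    obtain ⟨b, hb, h1, h2⟩ := bag p y hy
    obtain ⟨t', ht'⟩ := top y ⟨p, hy.symm⟩
    have u1 := under_trans hu (hD.a2 ht b hb h1)
    have u2 := hD.a2 ht' b hb h2
    rcases under_cmp u1 u2 with h3 | h3
    · exact Or.inl ((hP i y).mpr ⟨t', ht', h3⟩)
    · right
      obtain ⟨k, hk⟩ := u1
      rw [← hk]
      apply hD.a1 ht' hb h2 k
      rw [hk]
      obtain ⟨m, hm⟩ := h3
      rw [← hm]
      exact (hD.it_mem hi m).2
  -- bag vertices that are not below a child are in the bag of the parent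
  have up : ∀ c ∈ N, c ≠ 0 → ∀ y ∈ B c, y ∉ P c → y ∈ B (par c) := by
    intro c hc hc0 y hy hyP
    obtain ⟨t, ht⟩ := top y (hnis c hc y hy)
    have htc : t ≠ c := by
      rintro rfl
      exact hyP ((hP t y).mpr ⟨t, ht, 0, rfl⟩)
    have h1 := ht.2.2 c hc hy
    exact hD.conn c hc t ht.1 y (by omega) hy ht.2.1
  have notin : ∀ c ∈ N, c ≠ 0 → ∀ y ∈ P c, y ∉ B (par c) := by
    intro c hc hc0 y hy hyB
    obtain ⟨t, ht, k, hk⟩ := (hP c y).mp hy
    have h1 := ht.2.2 (par c) (hD.up c hc hc0).1 hyB
    have h2 := (hD.up c hc hc0).2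
    have h3 := (hD.it_mem ht.1 k).2
    omega
  have meet : ∀ c ∈ N, c ≠ 0 → ∃ v ∈ P c, v ∈ B c := by
    intro c hc hc0
    have h1 := hmin c hc hc0
    rw [not_subset] at h1
    obtain ⟨v, hv, hv2⟩ := h1
    refine ⟨v, ?_, hv⟩
    by_contra h2
    exact hv2 (up c hc hc0 v hv h2)
  -- the lowest node
  obtain ⟨x0, y0, hxy0⟩ := hne
  have h0 : 3 ≤ (P 0).card := by
    obtain ⟨a, b, c, hab, hbc, hac, ha, hb, hc⟩ := h.deg3 hC hxy0
    have hin : ∀ z, Ad src dst x0 z → z ∈ P 0 := by
      intro z hz
      obtain ⟨t, ht⟩ := top z ⟨x0, hz.symm⟩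
      exact (hP 0 z).mpr ⟨t, ht, hD.a3 t ht.1⟩
    have h1 : ({a, b, c} : Finset V) ⊆ P 0 := by
      intro z hz
      simp only [mem_insert, mem_singleton] at hz
      rcases hz with rfl | rfl | rfl
      · exact hin _ ha
      · exact hin _ hb
      · exact hin _ hc
    have h2 := card_le_card h1
    rw [card_insert_of_notMem (by simp [hab, hac]), card_pair hbc] at h2
    exact h2
  obtain ⟨i, hi, hi3, himax⟩ : ∃ i ∈ N, 3 ≤ (P i).card ∧ ∀ j ∈ N, 3 ≤ (P j).card → j ≤ i := by
    have hne : (N.filter (fun i => 3 ≤ (P i).card)).Nonempty :=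
      ⟨0, mem_filter.mpr ⟨hD.root, h0⟩⟩
    have hm := max'_mem _ hne
    rw [mem_filter] at hm
    exact ⟨_, hm.1, hm.2, fun j hj hj3 => le_max' _ _ (mem_filter.mpr ⟨hj, hj3⟩)⟩
  have nis : ∀ i, ∀ p ∈ P i, ∃ y, Ad src dst p y := by
    intro i p hp
    obtain ⟨t, ht, _⟩ := (hP i p).mp hp
    exact hnis t ht.1 p ht.2.1
  have L : Loc (Ad src dst) (B i) (P i) := by
    refine ⟨hD.card i hi, nb i hi, ?_, ?_⟩
    · intro p hp
      obtain ⟨y, hy⟩ := nis i p hp
      exact h.deg3 hC hy
    · intro x hx hxB
      obtain ⟨t, ht, hu⟩ := (hP i x).mp hx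
      obtain ⟨c, hc, hc0, hpc, hic, hcu⟩ := hD.child ht.1 hu (by
        rintro rfl
        exact hxB ht.2.1)
      have hxc : x ∈ P c := (hP c x).mpr ⟨t, ht, hcu⟩
      have hc2 : (P c).card ≤ 2 := by
        by_contra h1
        have := himax c hc (by omega)
        omega
      have hup : ∀ y ∈ B c, y ∉ P c → y ∈ B i := by
        intro y hy hyP
        rw [← hpc]; exact up c hc hc0 y hy hyP
      have hni : ∀ y ∈ P c, y ∉ B i := by
        intro y hy
        rw [← hpc]; exact notin c hc hc0 y hy
      -- at most four vertices of the bag of the child are in the bag of the parent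
      have h4 : (B c \ P c).card ≤ 4 := by
        obtain ⟨v, hv, hv2⟩ := meet c hc hc0
        have h1 : B c \ P c ⊆ (B c).erase v := by
          intro z hz
          rw [mem_sdiff] at hz
          exact mem_erase.mpr ⟨fun e => hz.2 (e ▸ hv), hz.1⟩
        have h2 := card_le_card h1
        rw [card_erase_of_mem hv2] at h2
        have := hD.card c hc
        omega
      have nbc : ∀ p ∈ P c, ∀ y, Ad src dst p y → y ∈ P c ∨ y ∈ B c \ P c := by
        intro p hp y hy
        by_cases h1 : y ∈ P c
        · exact Or.inl h1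
        · exact Or.inr (mem_sdiff.mpr ⟨(nb c hc p hp y hy).resolve_left h1, h1⟩)
      by_cases hex : ∃ x' ∈ P c, Ad src dst x x'
      · right
        obtain ⟨x', hx', hxx⟩ := hex
        have hQ : ∀ z ∈ P c, z = x ∨ z = x' := by
          intro z hz
          by_contra hcon
          push Not at hcon
          have h1 : ({z, x, x'} : Finset V) ⊆ P c := by
            intro y hy
            simp only [mem_insert, mem_singleton] at hy
            rcases hy with rfl | rfl | rfl <;> assumption
          have h2 := card_le_card h1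
          rw [card_insert_of_notMem (by simp [hcon.1, hcon.2]), card_pair hxx.1] at h2
          omega
        -- two outer neighbours
        have two : ∀ x x', (∀ z ∈ P c, z = x ∨ z = x') → x ∈ P c → Ad src dst x x' →
            ∃ p q, p ≠ q ∧ Ad src dst x p ∧ Ad src dst x q ∧ p ∈ B c \ P c ∧ q ∈ B c \ P c := by
          intro x x' hQ hx hxx
          obtain ⟨a, b, d, hab, hbd, had, ha, hb, hd⟩ := h.deg3 hC hxx
          have hm : ∀ z, Ad src dst x z → z ≠ x' → z ∈ B c \ P c := by
            intro z hz hzx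
            refine (nbc x hx z hz).resolve_left fun h1 => ?_
            rcases hQ z h1 with e | e
            · exact hz.1 e.symm
            · exact hzx e
          by_cases e1 : a = x'
          · exact ⟨b, d, hbd, hb, hd, hm b hb (fun e => hab (e1.trans e.symm)),
              hm d hd (fun e => had (e1.trans e.symm))⟩
          · by_cases e2 : b = x'
            · exact ⟨a, d, had, ha, hd, hm a ha e1, hm d hd (fun e => hbd (e2.trans e.symm))⟩
            · exact ⟨a, b, hab, ha, hb, hm a ha e1, hm b hb e2⟩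
        obtain ⟨p, q, hpq, hp, hq, hpM, hqM⟩ := two x x' hQ hxc hxx
        obtain ⟨r, s, hrs, hr, hs, hrM, hsM⟩ := two x' x (fun z hz => (hQ z hz).symm) hx' hxx.symm
        have tri : ∀ {α}, Ad src dst x α → ¬ Ad src dst x' α := fun h1 h2 =>
          g.tri _ _ _ hxx h2 h1.symm
        have npr : p ≠ r := fun e => tri hp (e ▸ hr)
        have nps : p ≠ s := fun e => tri hp (e ▸ hs)
        have nqr : q ≠ r := fun e => tri hq (e ▸ hr)
        have nqs : q ≠ s := fun e => tri hq (e ▸ hs)
        have hall : ∀ z ∈ B c \ P c, z = p ∨ z = q ∨ z = r ∨ z = s := by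
          intro z hz
          by_contra hcon
          push Not at hcon
          obtain ⟨k1, k2, k3, k4⟩ := hcon
          have h1 : ({z, p, q, r, s} : Finset V) ⊆ B c \ P c := by
            intro y hy
            simp only [mem_insert, mem_singleton] at hy
            rcases hy with rfl | rfl | rfl | rfl | rfl <;> assumption
          have h2 := card_le_card h1
          rw [card_insert_of_notMem (by simp [k1, k2, k3, k4]),
            card_insert_of_notMem (by simp [hpq, npr, nps]),
            card_insert_of_notMem (by simp [nqr, nqs]), card_pair hrs] at h2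
          omega
        have inB : ∀ z ∈ B c \ P c, z ∈ B i := fun z hz =>
          hup z (mem_sdiff.mp hz).1 (mem_sdiff.mp hz).2
        refine ⟨x', p, q, r, s, ?_, ?_, hni x' hx', inB p hpM, inB q hqM, inB r hrM,
          inB s hsM, ?_⟩
        · intro z
          constructor
          · intro hz
            rcases nbc x hxc z hz with h1 | h1
            · rcases hQ z h1 with e | e
              · exact absurd e.symm hz.1
              · exact Or.inl e
            · rcases hall z h1 with e | e | e | e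
              · exact Or.inr (Or.inl e)
              · exact Or.inr (Or.inr e)
              · exact absurd (e ▸ hr) (tri hz)
              · exact absurd (e ▸ hs) (tri hz)
          · rintro (rfl | rfl | rfl) <;> assumption
        · intro z
          constructor
          · intro hz
            rcases nbc x' hx' z hz with h1 | h1
            · rcases hQ z h1 with e | e
              · exact Or.inl e
              · exact absurd e.symm hz.1
            · rcases hall z h1 with e | e | e | e
              · exact absurd hz (tri (e ▸ hp))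
              · exact absurd hz (tri (e ▸ hq))
              · exact Or.inr (Or.inl e)
              · exact Or.inr (Or.inr e)
          · rintro (rfl | rfl | rfl)
            · exact hxx.symm
            · exact hr
            · exact hs
        · (simp only [List.nodup_cons, List.mem_cons, List.not_mem_nil, not_or, not_false_eq_true,
            List.nodup_nil, and_true, or_false]; repeat' apply And.intro) <;> assumption
      · left
        intro y hy
        rcases nbc x hxc y hy with h1 | h1
        · exact absurd ⟨y, h1, hy⟩ hex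
        · exact hup y (mem_sdiff.mp h1).1 (mem_sdiff.mp h1).2
  refine hN.lemB L ?_ hi3
  by_cases hi0 : i = 0
  · by_contra hcon
    push Not at hcon
    -- the root bag is empty
    have hempty : ∀ z, z ∉ B i := by
      intro z hz
      refine hcon z ?_ hz
      obtain ⟨t, ht⟩ := top z (hnis i hi z hz)
      refine (hP i z).mpr ⟨t, ht, ?_⟩
      rw [hi0]
      exact hD.a3 t ht.1
    have hne : (P i).Nonempty := by rw [← card_pos]; omega
    obtain ⟨x, hx⟩ := hne
    rcases L.q x hx (hempty x) with h1 | ⟨x', p, q, r, s, _, _, _, h2, _⟩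
    · obtain ⟨y, hy⟩ := nis i x hx
      exact hempty y (h1 y hy)
    · exact hempty p h2
  · exact meet i hi hi0

end Pool.Agent.TH499.TF
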