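import Pool.Agent.H79.LF.TH497_BF_Conf
import Pool.Agent.H79.LF.TH499_TF_TreeP

set_option autoImplicit false
set_option linter.unusedSectionVars false
set_option linter.unusedVariables false
set_option synthInstance.maxHeartbeats 400000
set_option synthInstance.maxSize 2048

/-! # The assembly: a minimal counterexample without the four configurations has no tree
decomposition with bags of at most five vertices -/

namespace Pool.Agent.TH455.TFA

open Finset Pool.Agent.TH676.A Pool.Agent.TH497.BF
open Pool.Agent.TH499.TF (Joins Ad N3 Dbl G5 NoC TD HasTD IsTop Under under_cmp under_trans Loc)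

variable {V E : Type} [Fintype V] [DecidableEq V] [Fintype E] [DecidableEq E]
variable {Γ : Type} [AddCommGroup Γ] {A : Γ → Prop} {src dst : E → V}

/-- every vertex with a neighbour has three neighbours -/
theorem deg3 (hF : Facts A) (h : MinCx A src dst) {x y : V} (hxy : Ad src dst x y) :
    ∃ a b c, a ≠ b ∧ b ≠ c ∧ a ≠ c ∧ Ad src dst x a ∧ Ad src dst x b ∧ Ad src dst x c := by
  classical
  obtain ⟨n1, e0, h0⟩ := hxy
  have hl0 := h0.ne_loop n1
  have nx : Nis src dst x := by
    refine ⟨e0, hl0, ?_⟩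
    rcases h0 with ⟨a, b⟩ | ⟨a, b⟩
    · exact Or.inl a
    · exact Or.inr b
  have ny : Nis src dst y := by
    refine ⟨e0, hl0, ?_⟩
    rcases h0 with ⟨a, b⟩ | ⟨a, b⟩
    · exact Or.inr b
    · exact Or.inl a
  have h1 := cut3 hF.alg h (Y := {x}) (mem_singleton_self x) (by simpa using Ne.symm n1) nx ny
  obtain ⟨e1, he1, e2, he2, e3, he3, h12, h13, h23⟩ := two_lt_card.mp h1
  have key : ∀ e ∈ crs src dst {x}, ∃ z, x ≠ z ∧ Joins src dst e x z := by
    intro e he
    rw [mem_crs, mem_singleton, mem_singleton] at he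
    by_cases hs : src e = x
    · have hd : dst e ≠ x := fun hd => he ⟨fun _ => hd, fun _ => hs⟩
      exact ⟨dst e, hd.symm, Or.inl ⟨hs, rfl⟩⟩
    · have hd : dst e = x := by
        by_contra hd; exact he ⟨fun h => absurd h hs, fun h => absurd h hd⟩
      exact ⟨src e, Ne.symm hs, Or.inr ⟨rfl, hd⟩⟩
  obtain ⟨a, na, ha⟩ := key e1 he1
  obtain ⟨b, nb, hb⟩ := key e2 he2
  obtain ⟨c, nc, hc⟩ := key e3 he3
  refine ⟨a, b, c, ?_, ?_, ?_, ⟨na, e1, ha⟩, ⟨nb, e2, hb⟩, ⟨nc, e3, hc⟩⟩
  · rintro rfl; exact h12 (par hF h na ha hb)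
  · rintro rfl; exact h23 (par hF h nb hb hc)
  · rintro rfl; exact h13 (par hF h na ha hc)

/-- **No tree decomposition.** -/
theorem noTD (hF : Facts A) (h : MinCx A src dst) (hN : NoC (Ad src dst))
    {N : Finset ℕ} {par : ℕ → ℕ} {B : ℕ → Finset V}
    (hD : TD src dst 5 N par B) (hmin : ∀ i ∈ N, i ≠ 0 → ¬ B i ⊆ B (par i))
    (hnis : ∀ i ∈ N, ∀ x ∈ B i, ∃ y, Ad src dst x y) (hne : ∃ x y, Ad src dst x y) :
    False := by
  classical
  have g := hN.g
  have bag : ∀ x y, Ad src dst x y → ∃ i ∈ N, x ∈ B i ∧ y ∈ B i := by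
    rintro x y ⟨n1, e, he⟩
    obtain ⟨i, hi, h1, h2⟩ := hD.edge e (he.ne_loop n1)
    rcases he with ⟨h3, h4⟩ | ⟨h3, h4⟩
    · exact ⟨i, hi, h3 ▸ h1, h4 ▸ h2⟩
    · exact ⟨i, hi, h4 ▸ h2, h3 ▸ h1⟩
  have top : ∀ x, (∃ y, Ad src dst x y) → ∃ t, IsTop N B x t := by
    rintro x ⟨y, hy⟩
    obtain ⟨i, hi, h1, _⟩ := bag x y hy
    have hex : ∃ i, i ∈ N ∧ x ∈ B i := ⟨i, hi, h1⟩
    refine ⟨Nat.find hex, (Nat.find_spec hex).1, (Nat.find_spec hex).2, fun j hj hx => ?_⟩
    exact Nat.find_min' hex ⟨hj, hx⟩
  obtain ⟨P, hP⟩ : ∃ P : ℕ → Finset V, ∀ i x, x ∈ P i ↔ ∃ t, IsTop N B x t ∧ Under par i t :=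
    ⟨fun i => univ.filter (fun x => ∃ t, IsTop N B x t ∧ Under par i t), fun i x => by
      simp only [mem_filter, mem_univ, true_and]⟩
  -- neighbours of the vertices below a node
  have nb : ∀ i ∈ N, ∀ p ∈ P i, ∀ y, Ad src dst p y → y ∈ P i ∨ y ∈ B i := by
    intro i hi p hp y hy
    obtain ⟨t, ht, hu⟩ := (hP i p).mp hp
    obtain ⟨b, hb, h1, h2⟩ := bag p y hy
    obtain ⟨t', ht'⟩ := top y ⟨p, hy.symm⟩
    have u1 := under_trans hu (hD.a2 ht b hb h1)
    have u2 := hD.a2 ht' b hb h2
    rcases under_cmp u1 u2 with h3 | h3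
    · exact Or.inl ((hP i y).mpr ⟨t', ht', h3⟩)
    · right
      obtain ⟨k, hk⟩ := u1
      rw [← hk]
      apply hD.a1 ht' hb h2 k
      rw [hk]
      obtain ⟨m, hm⟩ := h3
      rw [← hm]
      exact (hD.it_mem hi m).2
  -- bag vertices that are not below a child are in the bag of the parent
  have up : ∀ c ∈ N, c ≠ 0 → ∀ y ∈ B c, y ∉ P c → y ∈ B (par c) := by
    intro c hc hc0 y hy hyP
    obtain ⟨t, ht⟩ := top y (hnis c hc y hy)
    have htc : t ≠ c := by
      rintro rfl
      exact hyP ((hP t y).mpr ⟨t, ht, 0, rfl⟩)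
    have h1 := ht.2.2 c hc hy
    exact hD.conn c hc t ht.1 y (by omega) hy ht.2.1
  have notin : ∀ c ∈ N, c ≠ 0 → ∀ y ∈ P c, y ∉ B (par c) := by
    intro c hc hc0 y hy hyB
    obtain ⟨t, ht, k, hk⟩ := (hP c y).mp hy
    have h1 := ht.2.2 (par c) (hD.up c hc hc0).1 hyB
    have h2 := (hD.up c hc hc0).2
    have h3 := (hD.it_mem ht.1 k).2
    omega
  have meet : ∀ c ∈ N, c ≠ 0 → ∃ v ∈ P c, v ∈ B c := by
    intro c hc hc0
    have h1 := hmin c hc hc0
    rw [not_subset] at h1
    obtain ⟨v, hv, hv2⟩ := h1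
    refine ⟨v, ?_, hv⟩
    by_contra h2
    exact hv2 (up c hc hc0 v hv h2)
  -- the lowest node
  obtain ⟨x0, y0, hxy0⟩ := hne
  have h0 : 3 ≤ (P 0).card := by
    obtain ⟨a, b, c, hab, hbc, hac, ha, hb, hc⟩ := deg3 hF h hxy0
    have hin : ∀ z, Ad src dst x0 z → z ∈ P 0 := by
      intro z hz
      obtain ⟨t, ht⟩ := top z ⟨x0, hz.symm⟩
      exact (hP 0 z).mpr ⟨t, ht, hD.a3 t ht.1⟩
    have h1 : ({a, b, c} : Finset V) ⊆ P 0 := by
      intro z hz
      simp only [mem_insert, mem_singleton] at hz
      rcases hz with rfl | rfl | rfl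
      · exact hin _ ha
      · exact hin _ hb
      · exact hin _ hc
    have h2 := card_le_card h1
    rw [card_insert_of_notMem (by simp [hab, hac]), card_pair hbc] at h2
    exact h2
  obtain ⟨i, hi, hi3, himax⟩ : ∃ i ∈ N, 3 ≤ (P i).card ∧ ∀ j ∈ N, 3 ≤ (P j).card → j ≤ i := by
    have hne : (N.filter (fun i => 3 ≤ (P i).card)).Nonempty :=
      ⟨0, mem_filter.mpr ⟨hD.root, h0⟩⟩
    have hm := max'_mem _ hne
    rw [mem_filter] at hm
    exact ⟨_, hm.1, hm.2, fun j hj hj3 => le_max' _ _ (mem_filter.mpr ⟨hj, hj3⟩)⟩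
  have nis : ∀ i, ∀ p ∈ P i, ∃ y, Ad src dst p y := by
    intro i p hp
    obtain ⟨t, ht, _⟩ := (hP i p).mp hp
    exact hnis t ht.1 p ht.2.1
  have L : Loc (Ad src dst) (B i) (P i) := by
    refine ⟨hD.card i hi, nb i hi, ?_, ?_⟩
    · intro p hp
      obtain ⟨y, hy⟩ := nis i p hp
      exact deg3 hF h hy
    · intro x hx hxB
      obtain ⟨t, ht, hu⟩ := (hP i x).mp hx
      obtain ⟨c, hc, hc0, hpc, hic, hcu⟩ := hD.child ht.1 hu (by
        rintro rfl
        exact hxB ht.2.1)
      have hxc : x ∈ P c := (hP c x).mpr ⟨t, ht, hcu⟩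
      have hc2 : (P c).card ≤ 2 := by
        by_contra h1
        have := himax c hc (by omega)
        omega
      have hup : ∀ y ∈ B c, y ∉ P c → y ∈ B i := by
        intro y hy hyP
        rw [← hpc]; exact up c hc hc0 y hy hyP
      have hni : ∀ y ∈ P c, y ∉ B i := by
        intro y hy
        rw [← hpc]; exact notin c hc hc0 y hy
      -- at most four vertices of the bag of the child are in the bag of the parent
      have h4 : (B c \ P c).card ≤ 4 := by
        obtain ⟨v, hv, hv2⟩ := meet c hc hc0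
        have h1 : B c \ P c ⊆ (B c).erase v := by
          intro z hz
          rw [mem_sdiff] at hz
          exact mem_erase.mpr ⟨fun e => hz.2 (e ▸ hv), hz.1⟩
        have h2 := card_le_card h1
        rw [card_erase_of_mem hv2] at h2
        have := hD.card c hc
        omega
      have nbc : ∀ p ∈ P c, ∀ y, Ad src dst p y → y ∈ P c ∨ y ∈ B c \ P c := by
        intro p hp y hy
        by_cases h1 : y ∈ P c
        · exact Or.inl h1
        · exact Or.inr (mem_sdiff.mpr ⟨(nb c hc p hp y hy).resolve_left h1, h1⟩)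
      by_cases hex : ∃ x' ∈ P c, Ad src dst x x'
      · right
        obtain ⟨x', hx', hxx⟩ := hex
        have hQ : ∀ z ∈ P c, z = x ∨ z = x' := by
          intro z hz
          by_contra hcon
          push Not at hcon
          have h1 : ({z, x, x'} : Finset V) ⊆ P c := by
            intro y hy
            simp only [mem_insert, mem_singleton] at hy
            rcases hy with rfl | rfl | rfl <;> assumption
          have h2 := card_le_card h1
          rw [card_insert_of_notMem (by simp [hcon.1, hcon.2]), card_pair hxx.1] at h2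
          omega
        -- two outer neighbours
        have two : ∀ x x', (∀ z ∈ P c, z = x ∨ z = x') → x ∈ P c → Ad src dst x x' →
            ∃ p q, p ≠ q ∧ Ad src dst x p ∧ Ad src dst x q ∧ p ∈ B c \ P c ∧ q ∈ B c \ P c := by
          intro x x' hQ hx hxx
          obtain ⟨a, b, d, hab, hbd, had, ha, hb, hd⟩ := deg3 hF h hxx
          have hm : ∀ z, Ad src dst x z → z ≠ x' → z ∈ B c \ P c := by
            intro z hz hzx
            refine (nbc x hx z hz).resolve_left fun h1 => ?_
            rcases hQ z h1 with e | e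
            · exact hz.1 e.symm
            · exact hzx e
          by_cases e1 : a = x'
          · exact ⟨b, d, hbd, hb, hd, hm b hb (fun e => hab (e1.trans e.symm)),
              hm d hd (fun e => had (e1.trans e.symm))⟩
          · by_cases e2 : b = x'
            · exact ⟨a, d, had, ha, hd, hm a ha e1, hm d hd (fun e => hbd (e2.trans e.symm))⟩
            · exact ⟨a, b, hab, ha, hb, hm a ha e1, hm b hb e2⟩
        obtain ⟨p, q, hpq, hp, hq, hpM, hqM⟩ := two x x' hQ hxc hxx
        obtain ⟨r, s, hrs, hr, hs, hrM, hsM⟩ := two x' x (fun z hz => (hQ z hz).symm) hx' hxx.symm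
        have tri : ∀ {α}, Ad src dst x α → ¬ Ad src dst x' α := fun h1 h2 =>
          g.tri _ _ _ hxx h2 h1.symm
        have npr : p ≠ r := fun e => tri hp (e ▸ hr)
        have nps : p ≠ s := fun e => tri hp (e ▸ hs)
        have nqr : q ≠ r := fun e => tri hq (e ▸ hr)
        have nqs : q ≠ s := fun e => tri hq (e ▸ hs)
        have hall : ∀ z ∈ B c \ P c, z = p ∨ z = q ∨ z = r ∨ z = s := by
          intro z hz
          by_contra hcon
          push Not at hcon
          obtain ⟨k1, k2, k3, k4⟩ := hcon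
          have h1 : ({z, p, q, r, s} : Finset V) ⊆ B c \ P c := by
            intro y hy
            simp only [mem_insert, mem_singleton] at hy
            rcases hy with rfl | rfl | rfl | rfl | rfl <;> assumption
          have h2 := card_le_card h1
          rw [card_insert_of_notMem (by simp [k1, k2, k3, k4]),
            card_insert_of_notMem (by simp [hpq, npr, nps]),
            card_insert_of_notMem (by simp [nqr, nqs]), card_pair hrs] at h2
          omega
        have inB : ∀ z ∈ B c \ P c, z ∈ B i := fun z hz =>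
          hup z (mem_sdiff.mp hz).1 (mem_sdiff.mp hz).2
        refine ⟨x', p, q, r, s, ?_, ?_, hni x' hx', inB p hpM, inB q hqM, inB r hrM,
          inB s hsM, ?_⟩
        · intro z
          constructor
          · intro hz
            rcases nbc x hxc z hz with h1 | h1
            · rcases hQ z h1 with e | e
              · exact absurd e.symm hz.1
              · exact Or.inl e
            · rcases hall z h1 with e | e | e | e
              · exact Or.inr (Or.inl e)
              · exact Or.inr (Or.inr e)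
              · exact absurd (e ▸ hr) (tri hz)
              · exact absurd (e ▸ hs) (tri hz)
          · rintro (rfl | rfl | rfl) <;> assumption
        · intro z
          constructor
          · intro hz
            rcases nbc x' hx' z hz with h1 | h1
            · rcases hQ z h1 with e | e
              · exact Or.inl e
              · exact absurd e.symm hz.1
            · rcases hall z h1 with e | e | e | e
              · exact absurd hz (tri (e ▸ hp))
              · exact absurd hz (tri (e ▸ hq))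
              · exact Or.inr (Or.inl e)
              · exact Or.inr (Or.inr e)
          · rintro (rfl | rfl | rfl)
            · exact hxx.symm
            · exact hr
            · exact hs
        · (simp only [List.nodup_cons, List.mem_cons, List.not_mem_nil, not_or, not_false_eq_true,
            List.nodup_nil, and_true, or_false]; repeat' apply And.intro) <;> assumption
      · left
        intro y hy
        rcases nbc x hxc y hy with h1 | h1
        · exact absurd ⟨y, h1, hy⟩ hex
        · exact hup y (mem_sdiff.mp h1).1 (mem_sdiff.mp h1).2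
  refine hN.lemB L ?_ hi3
  by_cases hi0 : i = 0
  · by_contra hcon
    push Not at hcon
    -- the root bag is empty
    have hempty : ∀ z, z ∉ B i := by
      intro z hz
      refine hcon z ?_ hz
      obtain ⟨t, ht⟩ := top z (hnis i hi z hz)
      refine (hP i z).mpr ⟨t, ht, ?_⟩
      rw [hi0]
      exact hD.a3 t ht.1
    have hne : (P i).Nonempty := by rw [← card_pos]; omega
    obtain ⟨x, hx⟩ := hne
    rcases L.q x hx (hempty x) with h1 | ⟨x', p, q, r, s, _, _, _, h2, _⟩
    · obtain ⟨y, hy⟩ := nis i x hx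
      exact hempty y (h1 y hy)
    · exact hempty p h2
  · exact meet i hi hi0


theorem htd_closed : MC (HasTD 5 : (E → V) → (E → V) → Prop) := by
  refine ⟨fun src dst e h _ => ?_, fun src dst e h hne => ?_⟩
  · exact HasTD.loop src dst {e} h
  · exact HasTD.contract src dst e h hne

/-- **The core.**  If a minimal counterexample contains none of the four configurations, then
every bridgeless graph of treewidth at most four has a flow with values in `A`. -/
theorem core (hF : Facts A)
    (hN : ∀ s d : E → V, MinCx A s d → NoC (Ad s d))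
    (hT : HasTD 5 src dst) (hB : Br src dst ∅ ∅) : FlowOn A src dst ∅ ∅ := by
  classical
  by_contra hnf
  obtain ⟨s, d, hc, hm⟩ := exists_minCx hF.alg.two htd_closed src dst hT hB hnf
  have hex : ∃ e, s e ≠ d e := by
    by_contra hcon
    push Not at hcon
    obtain ⟨t, ht, _⟩ := hF.hp
    obtain ⟨a, ha⟩ : ∃ a, A a := ⟨t 0, ht 0⟩
    refine hm.nf ⟨fun _ => a, fun v => ?_, fun e he => absurd he (notMem_empty _),
      fun e _ _ => ha⟩
    unfold bd
    refine sum_eq_zero fun e _ => ?_
    rw [hcon e]
    by_cases hv : d e = v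
    · rw [if_pos hv, hF.alg.two]
    · rw [if_neg hv, add_zero]
  obtain ⟨e0, he0⟩ := hex
  obtain ⟨n, par, B, h0, h1, h2, h4⟩ := hc
  have hn : 0 < n := by
    obtain ⟨i, hi, _⟩ := h1 e0
    omega
  have hD : TD s d 5 (range n) par
      (fun i => (B i).filter (fun x => ∃ y, Ad s d x y)) := by
    refine ⟨mem_range.mpr hn, ?_, ?_, ?_, ?_⟩
    · intro i hi hi0
      rw [mem_range] at hi
      have := h0 i (by omega) hi
      exact ⟨mem_range.mpr (by omega), this⟩
    · intro e he
      obtain ⟨i, hi, h5, h6⟩ := h1 e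
      exact ⟨i, mem_range.mpr hi, mem_filter.mpr ⟨h5, d e, he, e, Or.inl ⟨rfl, rfl⟩⟩,
        mem_filter.mpr ⟨h6, s e, he.symm, e, Or.inr ⟨rfl, rfl⟩⟩⟩
    · intro i hi j _ v hji hvi hvj
      rw [mem_filter] at hvi hvj
      exact mem_filter.mpr ⟨h2 i j v hji (mem_range.mp hi) hvi.1 hvj.1, hvi.2⟩
    · intro i hi
      exact (card_filter_le _ _).trans (h4 i (mem_range.mp hi))
  obtain ⟨N', par', hD', hmin⟩ := TD.minimal _ (range n) par rfl hD
  exact noTD hF hm (hN s d hm) hD' hmin (fun i _ x hx => (mem_filter.mp hx).2)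
    ⟨s e0, d e0, he0, e0, Or.inl ⟨rfl, rfl⟩⟩

end Pool.Agent.TH455.TFA
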