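import Pool.Agent.H79.LF.TH497_BF_Conf

set_option autoImplicit false
set_option linter.unusedSectionVars false
set_option linter.unusedVariables false
set_option synthInstance.maxHeartbeats 400000
set_option synthInstance.maxSize 2048

/-! # Three reducible configurations -/

namespace Pool.Agent.TH497.BF

open Finset Pool.Agent.TH676.A
open Pool.Agent.TH499.TF (Joins Ad N3 Dbl G5 gadget)

variable {V E : Type} [Fintype V] [DecidableEq V] [Fintype E] [DecidableEq E]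
variable {Γ : Type} [AddCommGroup Γ] {A : Γ → Prop} {src dst : E → V}

/-- all neighbours of the vertex `l i` are in the part -/
def Inn (src dst : E → V) {N m : ℕ} (p q : Fin m → Fin N) (l : Fin N → V) (i : Fin N) : Prop :=
  ∀ y, Ad src dst (l i) y → ∃ k, (p k = i ∧ y = l (q k)) ∨ (q k = i ∧ y = l (p k))

/-- the sum of a flow inside the part vanishes at an inner vertex -/
theorem inner_zero (hF : Facts A) (h : MinCx A src dst) {N m : ℕ} (p q : Fin m → Fin N)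
    {l : Fin N → V} (hl : Function.Injective l) {ε : Fin m → E} (hε : Function.Injective ε)
    (hj : ∀ k, Joins src dst (ε k) (l (p k)) (l (q k)))
    (hpq : ∀ k, p k ≠ q k) {f : E → Γ} (hf : ∀ v, bd src dst f v = 0) {i : Fin N}
    (hi : Inn src dst p q l i) : bd p q (fun k => f (ε k)) i = 0 := by
  classical
  have hE := hF.alg.two
  rw [← hf (l i)]
  have h1 : bd p q (fun k => f (ε k)) i =
      ∑ k, ((if src (ε k) = l i then f (ε k) else 0) + (if dst (ε k) = l i then f (ε k) else 0)) := by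
    unfold bd
    refine sum_congr rfl fun k _ => ?_
    rw [jsum hE (hj k)]
    simp only [hl.eq_iff]
  rw [h1]
  unfold bd
  rw [← sum_image (s := univ) (g := ε)
    (f := fun e => ((if src e = l i then f e else 0) + (if dst e = l i then f e else 0)))
    (fun a _ b _ hab => hε hab)]
  refine sum_subset (subset_univ _) fun e _ he => ?_
  by_cases hl0 : src e = dst e
  · rw [hl0]; exact hE _
  · have key : ∀ y, Joins src dst e (l i) y → False := by
      intro y hy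
      have hne : l i ≠ y := by
        rintro rfl
        rcases hy with ⟨a, b⟩ | ⟨a, b⟩ <;> exact hl0 (a.trans b.symm)
      obtain ⟨k, hk⟩ := hi y ⟨hne, e, hy⟩
      apply he
      rw [mem_image]
      refine ⟨k, mem_univ _, ?_⟩
      rcases hk with ⟨h2, h3⟩ | ⟨h2, h3⟩
      · subst h2
        rw [h3] at hy
        exact par hF h (fun h4 => hpq k (hl h4)) (hj k) hy
      · subst h2
        rw [h3] at hy
        exact par hF h (fun h4 => hpq k (hl h4).symm) ((hj k).symm) hy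
    by_cases h2 : src e = l i
    · exact absurd (Or.inl ⟨h2, rfl⟩) (key (dst e))
    · by_cases h3 : dst e = l i
      · exact absurd (Or.inr ⟨rfl, h3⟩) (key (src e))
      · rw [if_neg h2, if_neg h3, add_zero]

/-- **Configurations.**  Delete the edges in `Dk`, and replace the values in the part. -/
theorem config (hF : Facts A) (h : MinCx A src dst) {N m : ℕ} (p q : Fin m → Fin N)
    (hpq : ∀ k k', ((p k = p k' ∧ q k = q k') ∨ (p k = q k' ∧ q k = p k')) → k = k')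
    {l : Fin N → V} (hl : Function.Injective l)
    (ha : ∀ k, Ad src dst (l (p k)) (l (q k))) (Dk : Finset (Fin m)) (hD : Dk.Nonempty)
    (hbr : ∀ ε : Fin m → E, (∀ k, Joins src dst (ε k) (l (p k)) (l (q k))) →
      Br src dst (Dk.image ε) ∅)
    (inn : Finset (Fin N)) (hinn : ∀ i ∈ inn, Inn src dst p q l i)
    (hs : ∀ s : Fin m → Γ, (∀ k ∈ Dk, s k = 0) → (∀ k, k ∉ Dk → A (s k)) →
      (∀ i ∈ inn, bd p q s i = 0) → ∃ t : Fin m → Γ, (∀ k, A (t k)) ∧ ∀ i, bd p q t i = bd p q s i) :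
    False := by
  obtain ⟨ε, hε, hj⟩ := gadget p q hpq hl ha
  obtain ⟨k0, hk0⟩ := hD
  obtain ⟨f, f0, f1, f2⟩ := delf hF.alg h (D := Dk.image ε) (e := ε k0)
    (mem_image_of_mem _ hk0) ((hj k0).ne_loop (ha k0).1) (hbr ε hj)
  have hpq2 : ∀ k, p k ≠ q k := fun k hk => (ha k).1 (by rw [hk])
  obtain ⟨t, t1, t2⟩ := hs (fun k => f (ε k)) (fun k hk => f1 _ (mem_image_of_mem _ hk))
    (fun k hk => f2 _ (fun h1 => by
      obtain ⟨k', hk', hkk⟩ := mem_image.mp h1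
      exact hk ((hε hkk) ▸ hk')))
    (fun i hi => inner_zero hF h p q hl hε hj hpq2 f0 (hinn i hi))
  exact h.nf (rep hF.alg.two p q hl hε hj f0 (fun e he => f2 e (fun h1 => by
    obtain ⟨k', _, hkk⟩ := mem_image.mp h1
    exact he k' hkk.symm)) t1 t2)

/-- the same with one deleted edge -/
theorem config1 (hF : Facts A) (h : MinCx A src dst) {N m : ℕ} (p q : Fin m → Fin N)
    (hpq : ∀ k k', ((p k = p k' ∧ q k = q k') ∨ (p k = q k' ∧ q k = p k')) → k = k')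
    {l : Fin N → V} (hl : Function.Injective l)
    (ha : ∀ k, Ad src dst (l (p k)) (l (q k))) (k0 : Fin m)
    (inn : Finset (Fin N)) (hinn : ∀ i ∈ inn, Inn src dst p q l i)
    (hs : ∀ s : Fin m → Γ, s k0 = 0 → (∀ k, k ≠ k0 → A (s k)) →
      (∀ i ∈ inn, bd p q s i = 0) → ∃ t : Fin m → Γ, (∀ k, A (t k)) ∧ ∀ i, bd p q t i = bd p q s i) :
    False := by
  refine config hF h p q hpq hl ha {k0} (singleton_nonempty _) ?_ inn hinn ?_
  · intro ε _
    rw [image_singleton]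
    exact br1 hF.alg h _
  · intro s h1 h2 h3
    exact hs s (h1 k0 (mem_singleton_self _)) (fun k hk => h2 k (by simpa using hk)) h3

/-- a vertex with three neighbours in the part is inner -/
theorem inn_of_N3 {N m : ℕ} {p q : Fin m → Fin N} {l : Fin N → V} {i : Fin N} {a b c : V}
    (h : N3 (Ad src dst) (l i) a b c)
    (ha : ∃ k, (p k = i ∧ a = l (q k)) ∨ (q k = i ∧ a = l (p k)))
    (hb : ∃ k, (p k = i ∧ b = l (q k)) ∨ (q k = i ∧ b = l (p k)))
    (hc : ∃ k, (p k = i ∧ c = l (q k)) ∨ (q k = i ∧ c = l (p k))) : Inn src dst p q l i := by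
  intro y hy
  rcases (h y).mp hy with rfl | rfl | rfl
  · exact ha
  · exact hb
  · exact hc

theorem z1 (hE : Ex2 Γ) {a b c : Γ} (h : a + (b + c) = 0) : a + b = c :=
  hE.eq (by rw [add_assoc]; exact h)

theorem z2 (hE : Ex2 Γ) {a b c : Γ} (h : a + (b + c) = 0) : b + c = a := (hE.eq h).symm

theorem QD.of {a b c d m : Γ} (ha : A a) (hb : A b) (hc : A c) (hd : A d) (hm : A m)
    (e1 : a + b = m) (e2 : c + d = m) : QD A ![a, b, c, d] := by
  refine ⟨ha, hb, hc, hd, ?_, ?_⟩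
  · change A (a + b); rw [e1]; exact hm
  · change a + b = c + d; rw [e1, e2]

/-- configuration c1 -/
theorem c1 (hF : Facts A) (h : MinCx A src dst) {u v x1 x2 y1 y2 i i' j j' : V}
    (hnd : [u, v, x1, x2, y1, y2, i, i', j, j'].Nodup)
    (hu : N3 (Ad src dst) u v x1 y1) (hv : N3 (Ad src dst) v u i i')
    (hx : Dbl (Ad src dst) x1 x2 u j i j') (hy : Dbl (Ad src dst) y1 y2 u j' i' j) : False := by
  have hE := hF.alg.two
  have hinj : Function.Injective (![u, v, x1, x2, y1, y2, i, i', j, j'] : Fin 10 → V) := by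
    rw [← List.nodup_ofFn]; exact hnd
  refine config1 hF h (N := 10) (m := 13) ![0, 0, 0, 1, 1, 2, 2, 3, 3, 4, 4, 5, 5]
    ![1, 2, 4, 6, 7, 8, 3, 6, 9, 9, 5, 7, 8] (by decide) hinj ?_ 0 {0, 1, 2, 3, 4, 5} ?_ ?_
  · intro k; fin_cases k
    · exact (hu _).mpr (Or.inl rfl)
    · exact (hu _).mpr (Or.inr (Or.inl rfl))
    · exact (hu _).mpr (Or.inr (Or.inr rfl))
    · exact (hv _).mpr (Or.inr (Or.inl rfl))
    · exact (hv _).mpr (Or.inr (Or.inr rfl))
    · exact (hx.1 _).mpr (Or.inr (Or.inr rfl))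
    · exact (hx.1 _).mpr (Or.inl rfl)
    · exact (hx.2 _).mpr (Or.inr (Or.inl rfl))
    · exact (hx.2 _).mpr (Or.inr (Or.inr rfl))
    · exact (hy.1 _).mpr (Or.inr (Or.inr rfl))
    · exact (hy.1 _).mpr (Or.inl rfl)
    · exact (hy.2 _).mpr (Or.inr (Or.inl rfl))
    · exact (hy.2 _).mpr (Or.inr (Or.inr rfl))
  · intro t ht
    simp only [mem_insert, mem_singleton] at ht
    rcases ht with rfl | rfl | rfl | rfl | rfl | rfl
    · exact inn_of_N3 hu ⟨0, Or.inl ⟨rfl, rfl⟩⟩ ⟨1, Or.inl ⟨rfl, rfl⟩⟩ ⟨2, Or.inl ⟨rfl, rfl⟩⟩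
    · exact inn_of_N3 hv ⟨0, Or.inr ⟨rfl, rfl⟩⟩ ⟨3, Or.inl ⟨rfl, rfl⟩⟩ ⟨4, Or.inl ⟨rfl, rfl⟩⟩
    · exact inn_of_N3 hx.1 ⟨6, Or.inl ⟨rfl, rfl⟩⟩ ⟨1, Or.inr ⟨rfl, rfl⟩⟩ ⟨5, Or.inl ⟨rfl, rfl⟩⟩
    · exact inn_of_N3 hx.2 ⟨6, Or.inr ⟨rfl, rfl⟩⟩ ⟨7, Or.inl ⟨rfl, rfl⟩⟩ ⟨8, Or.inl ⟨rfl, rfl⟩⟩
    · exact inn_of_N3 hy.1 ⟨10, Or.inl ⟨rfl, rfl⟩⟩ ⟨2, Or.inr ⟨rfl, rfl⟩⟩ ⟨9, Or.inl ⟨rfl, rfl⟩⟩
    · exact inn_of_N3 hy.2 ⟨10, Or.inr ⟨rfl, rfl⟩⟩ ⟨11, Or.inl ⟨rfl, rfl⟩⟩ ⟨12, Or.inl ⟨rfl, rfl⟩⟩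
  · intro s s0 sA sI
    have i0 := sI 0 (by decide)
    have i1 := sI 1 (by decide)
    have i2 := sI 2 (by decide)
    have i3 := sI 3 (by decide)
    have i4 := sI 4 (by decide)
    have i5 := sI 5 (by decide)
    simp [bd, Fin.sum_univ_succ, s0] at i0 i1 i2 i3 i4 i5
    have d1 : QD A ![s 1, s 5, s 7, s 8] := QD.of (sA 1 (by decide)) (sA 5 (by decide))
      (sA 7 (by decide)) (sA 8 (by decide)) (sA 6 (by decide)) (z1 hE i2) (z2 hE i3)
    have d2 : QD A ![s 2, s 9, s 11, s 12] := QD.of (sA 2 (by decide)) (sA 9 (by decide))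
      (sA 11 (by decide)) (sA 12 (by decide)) (sA 10 (by decide)) (z1 hE i4) (z2 hE i5)
    obtain ⟨w, ι, ι', e1, e2, k1, k2, k3, k4, q1, q2, k5, k6, k7, k8, k9⟩ :=
      hF.c1 (s 3) (sA 3 (by decide)) _ _ d1 d2 (hE.eq i0)
    have h34 : s 3 = s 4 := hE.eq i1
    have k7' : s 4 + s 11 = ι' + e2 2 := by rw [← h34]; exact k7
    have k6' : s 3 + s 7 = ι + e1 2 := k6
    have k8' : s 5 + s 12 = e1 1 + e2 3 := k8
    have k9' : s 8 + s 9 = e1 3 + e2 1 := k9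
    refine ⟨![w, e1 0, e2 0, ι, ι', e1 1, e1 0 + e1 1, e1 2, e1 3, e2 1, e2 0 + e2 1, e2 2, e2 3],
      ?_, ?_⟩
    · intro k; fin_cases k
      · exact k1
      · exact q1.a0
      · exact q2.a0
      · exact k2
      · exact k3
      · exact q1.a1
      · exact q1.am
      · exact q1.a2
      · exact q1.a3
      · exact q2.a1
      · exact q2.am
      · exact q2.a2
      · exact q2.a3
    · intro t; fin_cases t
      · refine Eq.trans ?_ (sI 0 (by decide)).symm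
        simp [bd, Fin.sum_univ_succ]
        rw [← add_assoc]; exact k5
      · refine Eq.trans ?_ (sI 1 (by decide)).symm
        simp [bd, Fin.sum_univ_succ]
        rw [← add_assoc]; exact k4
      · refine Eq.trans ?_ (sI 2 (by decide)).symm
        refine Eq.trans ?_ (hE (e1 0 + e1 1))
        simp [bd, Fin.sum_univ_succ]
        abel
      · refine Eq.trans ?_ (sI 3 (by decide)).symm
        simp [bd, Fin.sum_univ_succ]
        rw [q1.eq]; exact hE _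
      · refine Eq.trans ?_ (sI 4 (by decide)).symm
        refine Eq.trans ?_ (hE (e2 0 + e2 1))
        simp [bd, Fin.sum_univ_succ]
        abel
      · refine Eq.trans ?_ (sI 5 (by decide)).symm
        simp [bd, Fin.sum_univ_succ]
        rw [q2.eq]; exact hE _
      · simp [bd, Fin.sum_univ_succ]
        rw [k6']
      · simp [bd, Fin.sum_univ_succ]
        rw [k7']
      · simp [bd, Fin.sum_univ_succ]
        rw [k8']
      · simp [bd, Fin.sum_univ_succ]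
        rw [k9']

/-- configuration c2 -/
theorem c2 (hF : Facts A) (h : MinCx A src dst) {x1 u a y1 n c x2 b y2 x3 y3 : V}
    (hnd : [x1, u, a, y1, n, c, x2, b, y2, x3, y3].Nodup)
    (h1 : Dbl (Ad src dst) x1 y1 u a n c) (h2 : Dbl (Ad src dst) x2 y2 u b n a)
    (h3 : Dbl (Ad src dst) x3 y3 u c n b) : False := by
  have hE := hF.alg.two
  have hinj : Function.Injective (![x1, u, a, y1, n, c, x2, b, y2, x3, y3] : Fin 11 → V) := by
    rw [← List.nodup_ofFn]; exact hnd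
  refine config1 hF h (N := 11) (m := 15) ![0, 0, 0, 3, 3, 6, 6, 6, 8, 8, 9, 9, 9, 10, 10]
    ![1, 2, 3, 4, 5, 1, 7, 8, 4, 2, 1, 5, 10, 4, 7]
    (by decide) hinj ?_ 2 {0, 3, 6, 8, 9, 10} ?_ ?_
  · intro k; fin_cases k
    · exact (h1.1 _).mpr (Or.inr (Or.inl rfl))
    · exact (h1.1 _).mpr (Or.inr (Or.inr rfl))
    · exact (h1.1 _).mpr (Or.inl rfl)
    · exact (h1.2 _).mpr (Or.inr (Or.inl rfl))
    · exact (h1.2 _).mpr (Or.inr (Or.inr rfl))
    · exact (h2.1 _).mpr (Or.inr (Or.inl rfl))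
    · exact (h2.1 _).mpr (Or.inr (Or.inr rfl))
    · exact (h2.1 _).mpr (Or.inl rfl)
    · exact (h2.2 _).mpr (Or.inr (Or.inl rfl))
    · exact (h2.2 _).mpr (Or.inr (Or.inr rfl))
    · exact (h3.1 _).mpr (Or.inr (Or.inl rfl))
    · exact (h3.1 _).mpr (Or.inr (Or.inr rfl))
    · exact (h3.1 _).mpr (Or.inl rfl)
    · exact (h3.2 _).mpr (Or.inr (Or.inl rfl))
    · exact (h3.2 _).mpr (Or.inr (Or.inr rfl))
  · intro t ht
    simp only [mem_insert, mem_singleton] at ht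
    rcases ht with rfl | rfl | rfl | rfl | rfl | rfl
    · exact inn_of_N3 h1.1 ⟨2, Or.inl ⟨rfl, rfl⟩⟩ ⟨0, Or.inl ⟨rfl, rfl⟩⟩ ⟨1, Or.inl ⟨rfl, rfl⟩⟩
    · exact inn_of_N3 h1.2 ⟨2, Or.inr ⟨rfl, rfl⟩⟩ ⟨3, Or.inl ⟨rfl, rfl⟩⟩ ⟨4, Or.inl ⟨rfl, rfl⟩⟩
    · exact inn_of_N3 h2.1 ⟨7, Or.inl ⟨rfl, rfl⟩⟩ ⟨5, Or.inl ⟨rfl, rfl⟩⟩ ⟨6, Or.inl ⟨rfl, rfl⟩⟩
    · exact inn_of_N3 h2.2 ⟨7, Or.inr ⟨rfl, rfl⟩⟩ ⟨8, Or.inl ⟨rfl, rfl⟩⟩ ⟨9, Or.inl ⟨rfl, rfl⟩⟩
    · exact inn_of_N3 h3.1 ⟨12, Or.inl ⟨rfl, rfl⟩⟩ ⟨10, Or.inl ⟨rfl, rfl⟩⟩ ⟨11, Or.inl ⟨rfl, rfl⟩⟩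
    · exact inn_of_N3 h3.2 ⟨12, Or.inr ⟨rfl, rfl⟩⟩ ⟨13, Or.inl ⟨rfl, rfl⟩⟩ ⟨14, Or.inl ⟨rfl, rfl⟩⟩
  · intro s s0 sA sI
    have i0 := sI 0 (by decide)
    have i1 := sI 3 (by decide)
    have i2 := sI 6 (by decide)
    have i3 := sI 8 (by decide)
    have i4 := sI 9 (by decide)
    have i5 := sI 10 (by decide)
    simp [bd, Fin.sum_univ_succ, s0] at i0 i1 i2 i3 i4 i5
    have d2 : QD A ![s 5, s 6, s 8, s 9] := QD.of (sA 5 (by decide)) (sA 6 (by decide))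
      (sA 8 (by decide)) (sA 9 (by decide)) (sA 7 (by decide)) (z1 hE i2) (z2 hE i3)
    have d3 : QD A ![s 10, s 11, s 13, s 14] := QD.of (sA 10 (by decide)) (sA 11 (by decide))
      (sA 13 (by decide)) (sA 14 (by decide)) (sA 12 (by decide)) (z1 hE i4) (z2 hE i5)
    obtain ⟨e1, e2, e3, q1, q2, q3, k1, k2, k3, k4, k5⟩ :=
      hF.c2 (s 0) (s 3) (sA 0 (by decide)) (sA 3 (by decide)) _ _ d2 d3
    have h01 : s 0 = s 1 := hE.eq i0
    have h34 : s 3 = s 4 := hE.eq i1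
    have k1' : s 0 + (s 5 + s 10) = e1 0 + (e2 0 + e3 0) := by
      rw [← add_assoc, ← add_assoc]; exact k1
    have k2' : s 1 + s 9 = e1 1 + e2 3 := by rw [← h01]; exact k2
    have k3' : s 3 + (s 8 + s 13) = e1 2 + (e2 2 + e3 2) := by
      rw [← add_assoc, ← add_assoc]; exact k3
    have k4' : s 4 + s 11 = e1 3 + e3 1 := by rw [← h34]; exact k4
    have k5' : s 6 + s 14 = e2 1 + e3 3 := k5
    refine ⟨![e1 0, e1 1, e1 0 + e1 1, e1 2, e1 3, e2 0, e2 1, e2 0 + e2 1, e2 2, e2 3,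
      e3 0, e3 1, e3 0 + e3 1, e3 2, e3 3], ?_, ?_⟩
    · intro k; fin_cases k
      · exact q1.a0
      · exact q1.a1
      · exact q1.am
      · exact q1.a2
      · exact q1.a3
      · exact q2.a0
      · exact q2.a1
      · exact q2.am
      · exact q2.a2
      · exact q2.a3
      · exact q3.a0
      · exact q3.a1
      · exact q3.am
      · exact q3.a2
      · exact q3.a3
    · intro t; fin_cases t
      · refine Eq.trans ?_ (sI 0 (by decide)).symm
        refine Eq.trans ?_ (hE (e1 0 + e1 1))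
        simp [bd, Fin.sum_univ_succ]
        abel
      · simp [bd, Fin.sum_univ_succ]
        rw [k1']
      · simp [bd, Fin.sum_univ_succ]
        rw [k2']
      · refine Eq.trans ?_ (sI 3 (by decide)).symm
        simp [bd, Fin.sum_univ_succ]
        rw [q1.eq]; exact hE _
      · simp [bd, Fin.sum_univ_succ]
        rw [k3']
      · simp [bd, Fin.sum_univ_succ]
        rw [k4']
      · refine Eq.trans ?_ (sI 6 (by decide)).symm
        refine Eq.trans ?_ (hE (e2 0 + e2 1))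
        simp [bd, Fin.sum_univ_succ]
        abel
      · simp [bd, Fin.sum_univ_succ]
        rw [k5']
      · refine Eq.trans ?_ (sI 8 (by decide)).symm
        simp [bd, Fin.sum_univ_succ]
        rw [q2.eq]; exact hE _
      · refine Eq.trans ?_ (sI 9 (by decide)).symm
        refine Eq.trans ?_ (hE (e3 0 + e3 1))
        simp [bd, Fin.sum_univ_succ]
        abel
      · refine Eq.trans ?_ (sI 10 (by decide)).symm
        simp [bd, Fin.sum_univ_succ]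
        rw [q3.eq]; exact hE _

/-- configuration c3 -/
theorem c3 (hF : Facts A) (h : MinCx A src dst) {x1 u b y1 a n x2 c y2 x3 y3 : V}
    (hnd : [x1, u, b, y1, a, n, x2, c, y2, x3, y3].Nodup)
    (h1 : Dbl (Ad src dst) x1 y1 u b a n) (h2 : Dbl (Ad src dst) x2 y2 u c a b)
    (h3 : Dbl (Ad src dst) x3 y3 u a n c) : False := by
  have hE := hF.alg.two
  have hinj : Function.Injective (![x1, u, b, y1, a, n, x2, c, y2, x3, y3] : Fin 11 → V) := by
    rw [← List.nodup_ofFn]; exact hnd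
  refine config1 hF h (N := 11) (m := 15) ![0, 0, 0, 3, 3, 6, 6, 6, 8, 8, 9, 9, 9, 10, 10]
    ![1, 2, 3, 4, 5, 1, 7, 8, 4, 2, 1, 4, 10, 5, 7]
    (by decide) hinj ?_ 2 {0, 3, 6, 8, 9, 10} ?_ ?_
  · intro k; fin_cases k
    · exact (h1.1 _).mpr (Or.inr (Or.inl rfl))
    · exact (h1.1 _).mpr (Or.inr (Or.inr rfl))
    · exact (h1.1 _).mpr (Or.inl rfl)
    · exact (h1.2 _).mpr (Or.inr (Or.inl rfl))
    · exact (h1.2 _).mpr (Or.inr (Or.inr rfl))
    · exact (h2.1 _).mpr (Or.inr (Or.inl rfl))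
    · exact (h2.1 _).mpr (Or.inr (Or.inr rfl))
    · exact (h2.1 _).mpr (Or.inl rfl)
    · exact (h2.2 _).mpr (Or.inr (Or.inl rfl))
    · exact (h2.2 _).mpr (Or.inr (Or.inr rfl))
    · exact (h3.1 _).mpr (Or.inr (Or.inl rfl))
    · exact (h3.1 _).mpr (Or.inr (Or.inr rfl))
    · exact (h3.1 _).mpr (Or.inl rfl)
    · exact (h3.2 _).mpr (Or.inr (Or.inl rfl))
    · exact (h3.2 _).mpr (Or.inr (Or.inr rfl))
  · intro t ht
    simp only [mem_insert, mem_singleton] at ht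
    rcases ht with rfl | rfl | rfl | rfl | rfl | rfl
    · exact inn_of_N3 h1.1 ⟨2, Or.inl ⟨rfl, rfl⟩⟩ ⟨0, Or.inl ⟨rfl, rfl⟩⟩ ⟨1, Or.inl ⟨rfl, rfl⟩⟩
    · exact inn_of_N3 h1.2 ⟨2, Or.inr ⟨rfl, rfl⟩⟩ ⟨3, Or.inl ⟨rfl, rfl⟩⟩ ⟨4, Or.inl ⟨rfl, rfl⟩⟩
    · exact inn_of_N3 h2.1 ⟨7, Or.inl ⟨rfl, rfl⟩⟩ ⟨5, Or.inl ⟨rfl, rfl⟩⟩ ⟨6, Or.inl ⟨rfl, rfl⟩⟩
    · exact inn_of_N3 h2.2 ⟨7, Or.inr ⟨rfl, rfl⟩⟩ ⟨8, Or.inl ⟨rfl, rfl⟩⟩ ⟨9, Or.inl ⟨rfl, rfl⟩⟩
    · exact inn_of_N3 h3.1 ⟨12, Or.inl ⟨rfl, rfl⟩⟩ ⟨10, Or.inl ⟨rfl, rfl⟩⟩ ⟨11, Or.inl ⟨rfl, rfl⟩⟩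
    · exact inn_of_N3 h3.2 ⟨12, Or.inr ⟨rfl, rfl⟩⟩ ⟨13, Or.inl ⟨rfl, rfl⟩⟩ ⟨14, Or.inl ⟨rfl, rfl⟩⟩
  · intro s s0 sA sI
    have i0 := sI 0 (by decide)
    have i1 := sI 3 (by decide)
    have i2 := sI 6 (by decide)
    have i3 := sI 8 (by decide)
    have i4 := sI 9 (by decide)
    have i5 := sI 10 (by decide)
    simp [bd, Fin.sum_univ_succ, s0] at i0 i1 i2 i3 i4 i5
    have d2 : QD A ![s 5, s 6, s 8, s 9] := QD.of (sA 5 (by decide)) (sA 6 (by decide))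
      (sA 8 (by decide)) (sA 9 (by decide)) (sA 7 (by decide)) (z1 hE i2) (z2 hE i3)
    have d3 : QD A ![s 10, s 11, s 13, s 14] := QD.of (sA 10 (by decide)) (sA 11 (by decide))
      (sA 13 (by decide)) (sA 14 (by decide)) (sA 12 (by decide)) (z1 hE i4) (z2 hE i5)
    obtain ⟨e1, e2, e3, q1, q2, q3, k1, k2, k3, k4, k5⟩ :=
      hF.c3 (s 0) (s 3) (sA 0 (by decide)) (sA 3 (by decide)) _ _ d2 d3
    have h01 : s 0 = s 1 := hE.eq i0
    have h34 : s 3 = s 4 := hE.eq i1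
    have k1' : s 0 + (s 5 + s 10) = e1 0 + (e2 0 + e3 0) := by
      rw [← add_assoc, ← add_assoc]; exact k1
    have k2' : s 1 + s 9 = e1 1 + e2 3 := by rw [← h01]; exact k2
    have k3' : s 3 + (s 8 + s 11) = e1 2 + (e2 2 + e3 1) := by
      rw [← add_assoc, ← add_assoc]; exact k3
    have k4' : s 4 + s 13 = e1 3 + e3 2 := by rw [← h34]; exact k4
    have k5' : s 6 + s 14 = e2 1 + e3 3 := k5
    refine ⟨![e1 0, e1 1, e1 0 + e1 1, e1 2, e1 3, e2 0, e2 1, e2 0 + e2 1, e2 2, e2 3,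
      e3 0, e3 1, e3 0 + e3 1, e3 2, e3 3], ?_, ?_⟩
    · intro k; fin_cases k
      · exact q1.a0
      · exact q1.a1
      · exact q1.am
      · exact q1.a2
      · exact q1.a3
      · exact q2.a0
      · exact q2.a1
      · exact q2.am
      · exact q2.a2
      · exact q2.a3
      · exact q3.a0
      · exact q3.a1
      · exact q3.am
      · exact q3.a2
      · exact q3.a3
    · intro t; fin_cases t
      · refine Eq.trans ?_ (sI 0 (by decide)).symm
        refine Eq.trans ?_ (hE (e1 0 + e1 1))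
        simp [bd, Fin.sum_univ_succ]
        abel
      · simp [bd, Fin.sum_univ_succ]
        rw [k1']
      · simp [bd, Fin.sum_univ_succ]
        rw [k2']
      · refine Eq.trans ?_ (sI 3 (by decide)).symm
        simp [bd, Fin.sum_univ_succ]
        rw [q1.eq]; exact hE _
      · simp [bd, Fin.sum_univ_succ]
        rw [k3']
      · simp [bd, Fin.sum_univ_succ]
        rw [k4']
      · refine Eq.trans ?_ (sI 6 (by decide)).symm
        refine Eq.trans ?_ (hE (e2 0 + e2 1))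
        simp [bd, Fin.sum_univ_succ]
        abel
      · simp [bd, Fin.sum_univ_succ]
        rw [k5']
      · refine Eq.trans ?_ (sI 8 (by decide)).symm
        simp [bd, Fin.sum_univ_succ]
        rw [q2.eq]; exact hE _
      · refine Eq.trans ?_ (sI 9 (by decide)).symm
        refine Eq.trans ?_ (hE (e3 0 + e3 1))
        simp [bd, Fin.sum_univ_succ]
        abel
      · refine Eq.trans ?_ (sI 10 (by decide)).symm
        simp [bd, Fin.sum_univ_succ]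
        rw [q3.eq]; exact hE _

end Pool.Agent.TH497.BF
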