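import Pool.Agent.H79.LF.Q253_VC_Count
import Pool.Agent.H79.LF.Q251_TC_Kon
import Pool.Agent.H79.LF.TH169_P5_GIRTH
import Pool.Agent.H79.LF.TH443_P5_TRANS
import Pool.Agent.H79.LF.TH362_TF_Main
import Pool.Agent.H79.LF.TH362_TF_Contr
import Pool.Agent.H79.LF.TH362_TF_Cyc

/-!
# Four-flows of Petersen-minor-free graphs with a vertex cover of at most nine vertices
-/

set_option autoImplicit false
set_option linter.unusedSectionVars false

namespace Pool.Agent.Q253.VC

open Finset Pool.Agent.TH462.T4 Pool.Agent.TH676.T4 Pool.Agent.TH395.P5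

variable {V E : Type} [Fintype V] [DecidableEq V] [Fintype E] [DecidableEq E]

/-- the edges at `v` which are not loops -/
def inc (s d : E → V) (v : V) : Finset E :=
  univ.filter (fun e => s e ≠ d e ∧ (s e = v ∨ d e = v))

theorem mem_inc {s d : E → V} {v : V} {e : E} :
    e ∈ inc s d v ↔ s e ≠ d e ∧ (s e = v ∨ d e = v) := by
  simp [inc]

/-- the other end -/
def oth (s d : E → V) (v : V) (e : E) : V := if s e = v then d e else s e

theorem oth_jv {s d : E → V} {v : V} {e : E} (h : e ∈ inc s d v) :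
    JV s d e v (oth s d v e) ∧ v ≠ oth s d v e := by
  obtain ⟨h1, h2⟩ := mem_inc.1 h
  unfold oth
  split_ifs with h3
  · exact ⟨Or.inl ⟨h3, rfl⟩, fun h4 => h1 (h3.trans h4)⟩
  · have h4 := h2.resolve_left h3
    exact ⟨Or.inr ⟨rfl, h4⟩, fun h5 => h1 (h5.symm.trans h4.symm)⟩

/-- the simple graph -/
def gr (s d : E → V) : SimpleGraph V where
  Adj x y := x ≠ y ∧ ∃ e, JV s d e x y
  symm := ⟨fun _ _ h => ⟨h.1.symm, by
    obtain ⟨e, he⟩ := h.2
    exact ⟨e, Or.symm he⟩⟩⟩
  loopless := ⟨fun _ h => h.1 rfl⟩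

instance (s d : E → V) : DecidableRel (gr s d).Adj := fun x y =>
  inferInstanceAs (Decidable (x ≠ y ∧ ∃ e, (s e = x ∧ d e = y) ∨ (s e = y ∧ d e = x)))

theorem nb_eq (s d : E → V) (v : V) :
    (gr s d).neighborFinset v = (inc s d v).image (oth s d v) := by
  ext y
  rw [SimpleGraph.mem_neighborFinset, mem_image]
  constructor
  · rintro ⟨hne, e, he⟩
    rcases he with ⟨h1, h2⟩ | ⟨h1, h2⟩
    · exact ⟨e, mem_inc.2 ⟨by rw [h1, h2]; exact hne, Or.inl h1⟩, by unfold oth; rw [if_pos h1, h2]⟩
    · exact ⟨e, mem_inc.2 ⟨by rw [h1, h2]; exact hne.symm, Or.inr h2⟩, by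
        unfold oth; rw [if_neg (by rw [h1]; exact hne.symm), h1]⟩
  · rintro ⟨e, he, rfl⟩
    obtain ⟨h1, h2⟩ := oth_jv he
    exact ⟨h2, e, h1⟩

theorem oth_inj {s d : E → V} (hS : Smp s d) (v : V) : Set.InjOn (oth s d v) (inc s d v) := by
  intro e he e' he' h
  obtain ⟨h1, h2⟩ := oth_jv he
  obtain ⟨h3, _⟩ := oth_jv he'
  rw [← h] at h3
  exact hS e e' _ _ h2 h1 h3

theorem deg_inc {s d : E → V} (hS : Smp s d) (v : V) : (gr s d).degree v = (inc s d v).card := by
  rw [← SimpleGraph.card_neighborFinset_eq_degree, nb_eq, card_image_of_injOn (oth_inj hS v)]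

theorem inc_out {s d : E → V} (hS : Smp s d) (X : Finset V) (v : V) :
    ((inc s d v).filter (fun e => oth s d v e ∉ X)).card =
      ((gr s d).neighborFinset v \ X).card := by
  rw [nb_eq, ← card_image_of_injOn ((oth_inj hS v).mono (filter_subset _ _))]
  congr 1
  ext y
  simp only [mem_image, mem_filter, mem_sdiff]
  constructor
  · rintro ⟨e, ⟨h1, h2⟩, rfl⟩
    exact ⟨⟨e, h1, rfl⟩, h2⟩
  · rintro ⟨⟨e, h1, rfl⟩, h2⟩
    exact ⟨e, ⟨h1, h2⟩, rfl⟩

theorem inc_in {s d : E → V} (hS : Smp s d) (X : Finset V) (v : V) :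
    ((inc s d v).filter (fun e => ¬ oth s d v e ∉ X)).card = (ri (gr s d) X v).card := by
  unfold ri
  rw [nb_eq, ← card_image_of_injOn ((oth_inj hS v).mono (filter_subset _ _))]
  congr 1
  ext y
  simp only [mem_image, mem_filter, mem_inter, not_not]
  constructor
  · rintro ⟨e, ⟨h1, h2⟩, rfl⟩
    exact ⟨⟨e, h1, rfl⟩, h2⟩
  · rintro ⟨⟨e, h1, rfl⟩, h2⟩
    exact ⟨e, ⟨h1, h2⟩, rfl⟩

theorem bd_inc (s d : E → V) (f : E → K4) (v : V) : bd s d f v = ∑ e ∈ inc s d v, f e := by
  unfold bd inc
  rw [sum_filter]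
  refine sum_congr rfl fun e _ => ?_
  by_cases h1 : s e = v <;> by_cases h2 : d e = v
  · rw [if_pos h1, if_pos h2, if_neg (by rw [h1, h2]; simp), K4.add_self]
  · rw [if_pos h1, if_neg h2, if_pos ⟨by rw [h1]; exact fun h => h2 h.symm, Or.inl h1⟩, add_zero]
  · rw [if_neg h1, if_pos h2, if_pos ⟨by rw [h2]; exact h1, Or.inr h2⟩, zero_add]
  · rw [if_neg h1, if_neg h2, if_neg (by tauto), add_zero]

theorem odd_deg {s d : E → V} (hS : Smp s d) (v : V) :
    Odd (TH362.TF.deg s d univ v) ↔ Odd ((gr s d).degree v) := by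
  have h : TH362.TF.deg s d univ v = (inc s d v).card +
      2 * (univ.filter (fun e => s e = d e ∧ s e = v)).card := by
    unfold TH362.TF.deg inc
    rw [card_filter, card_filter, mul_sum, ← sum_add_distrib]
    refine sum_congr rfl fun e _ => ?_
    by_cases h1 : s e = v <;> by_cases h2 : d e = v
    · rw [if_pos h1, if_pos h2, if_neg (by rw [h1, h2]; simp), if_pos ⟨by rw [h1, h2], h1⟩]
      rfl
    · rw [if_pos h1, if_neg h2, if_pos ⟨by rw [h1]; exact fun h => h2 h.symm, Or.inl h1⟩,
        if_neg (by rintro ⟨h3, _⟩; exact h2 (h3.symm.trans h1))]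
      rfl
    · rw [if_neg h1, if_pos h2, if_pos ⟨by rw [h2]; exact h1, Or.inr h2⟩,
        if_neg (by tauto)]
      rfl
    · rw [if_neg h1, if_neg h2, if_neg (by tauto), if_neg (by tauto)]
      rfl
  rw [h, deg_inc hS, Nat.odd_add]
  constructor
  · intro h1
    exact h1.2 (even_two_mul _)
  · intro h1
    exact ⟨fun _ => even_two_mul _, fun _ => h1⟩

/-- the three values -/
def val : Fin 3 → K4 := ![(0, 1), (1, 0), (1, 1)]

theorem val_ne : ∀ c, val c ≠ 0 := by decide

theorem val_sum : ∑ c, val c = 0 := by decide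

theorem sum_three {T : Finset E} {col : E → Fin 3} (hT : T.card = 3) (hinj : Set.InjOn col T) :
    ∑ e ∈ T, val (col e) = 0 := by
  have h1 : T.image col = univ := eq_univ_of_card _ (by
    rw [card_image_of_injOn hinj, hT]
    rfl)
  rw [← sum_image (f := val) hinj, h1, val_sum]

theorem sum_even {T : Finset E} (hT : Even T.card) : ∑ _e ∈ T, ((1, 1) : K4) = 0 := by
  rw [sum_const]
  obtain ⟨k, hk⟩ := hT
  rw [hk, add_smul, K4.add_self]

/-- **The exceptional case.** -/
theorem flow_bip {s d : E → V} (hS : Smp s d) (X : Finset V)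
    (hc : ∀ e, s e ≠ d e → s e ∈ X ∨ d e ∈ X)
    (h1 : ∀ y, y ∉ X → (gr s d).degree y = 0 ∨ (gr s d).degree y = 3)
    (h2 : ∀ x ∈ X, ((gr s d).neighborFinset x \ X).card = 3 ∧ Even (ri (gr s d) X x).card) :
    FlowOn s d ∅ ∅ := by
  classical
  let S := {e : E // ¬ (s e ∈ X ↔ d e ∈ X)}
  let fx : S → V := fun e => if s e.1 ∈ X then s e.1 else d e.1
  let gy : S → V := fun e => if s e.1 ∈ X then d e.1 else s e.1
  have hfx : ∀ e : S, fx e ∈ X := by
    intro e
    change (if s e.1 ∈ X then s e.1 else d e.1) ∈ X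
    split_ifs with h
    · exact h
    · have := e.2
      tauto
  have hgy : ∀ e : S, gy e ∉ X := by
    intro e
    change (if s e.1 ∈ X then d e.1 else s e.1) ∉ X
    split_ifs with h
    · have := e.2
      tauto
    · exact h
  have hne : ∀ e : S, s e.1 ≠ d e.1 := by
    intro e h
    apply e.2
    rw [h]
  have hfi : ∀ e : S, e.1 ∈ inc s d (fx e) ∧ oth s d (fx e) e.1 = gy e := by
    intro e
    rw [mem_inc]
    change (s e.1 ≠ d e.1 ∧ (s e.1 = (if s e.1 ∈ X then s e.1 else d e.1) ∨
      d e.1 = (if s e.1 ∈ X then s e.1 else d e.1))) ∧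
      (if s e.1 = (if s e.1 ∈ X then s e.1 else d e.1) then d e.1 else s e.1) =
      (if s e.1 ∈ X then d e.1 else s e.1)
    by_cases h : s e.1 ∈ X
    · rw [if_pos h, if_pos h, if_pos rfl]
      exact ⟨⟨hne e, Or.inl rfl⟩, rfl⟩
    · rw [if_neg h, if_neg h, if_neg (hne e)]
      exact ⟨⟨hne e, Or.inr rfl⟩, rfl⟩
  have hgi : ∀ e : S, e.1 ∈ inc s d (gy e) := by
    intro e
    rw [mem_inc]
    change s e.1 ≠ d e.1 ∧ (s e.1 = (if s e.1 ∈ X then d e.1 else s e.1) ∨
      d e.1 = (if s e.1 ∈ X then d e.1 else s e.1))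
    by_cases h : s e.1 ∈ X
    · rw [if_pos h]
      exact ⟨hne e, Or.inr rfl⟩
    · rw [if_neg h]
      exact ⟨hne e, Or.inl rfl⟩
  have hfc : ∀ x, (univ.filter (fun e : S => fx e = x)).card ≤ 3 := by
    intro x
    by_cases hx : x ∈ X
    · rw [← (h2 x hx).1, ← inc_out hS]
      refine card_le_card_of_injOn (fun e => e.1) ?_ (fun a _ b _ h => Subtype.ext h)
      intro e he
      have he := (mem_filter.1 he).2
      obtain ⟨k1, k2⟩ := hfi e
      rw [he] at k1 k2
      exact mem_filter.2 ⟨k1, by rw [k2]; exact hgy e⟩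
    · rw [filter_false_of_mem]
      · simp
      · intro e _ he
        exact hx (he ▸ hfx e)
  have hgc : ∀ y, (univ.filter (fun e : S => gy e = y)).card ≤ 3 := by
    intro y
    by_cases hy : y ∈ X
    · rw [filter_false_of_mem]
      · simp
      · intro e _ he
        exact hgy e (he ▸ hy)
    · have h3 : (inc s d y).card ≤ 3 := by
        rw [← deg_inc hS]
        rcases h1 y hy with h | h <;> omega
      refine le_trans ?_ h3
      refine card_le_card_of_injOn (fun e => e.1) ?_ (fun a _ b _ h => Subtype.ext h)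
      intro e he
      have he := (mem_filter.1 he).2
      have k1 := hgi e
      rw [he] at k1
      exact k1
  obtain ⟨κ, hκ⟩ := Q251.TC.kon fx gy 3 (by
    intro x
    convert hfc x) (by
    intro y
    convert hgc y)
  let col : E → Fin 3 := fun e => if h : ¬ (s e ∈ X ↔ d e ∈ X) then κ ⟨e, h⟩ else 0
  have hcol : ∀ e (h : ¬ (s e ∈ X ↔ d e ∈ X)), col e = κ ⟨e, h⟩ := fun e h => dif_pos h
  let f : E → K4 := fun e => if ¬ (s e ∈ X ↔ d e ∈ X) then val (col e) else (1, 1)
  have hf1 : ∀ e, ¬ (s e ∈ X ↔ d e ∈ X) → f e = val (col e) := fun e h => if_pos h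
  have hf2 : ∀ e, (s e ∈ X ↔ d e ∈ X) → f e = (1, 1) := fun e h => if_neg (not_not.2 h)
  -- the colours at a vertex are different
  have hin : ∀ (v : V) (e e' : E), e ∈ inc s d v → e' ∈ inc s d v →
      ¬ (s e ∈ X ↔ d e ∈ X) → ¬ (s e' ∈ X ↔ d e' ∈ X) → col e = col e' → e = e' := by
    intro v e e' he he' hX hX' hc'
    by_contra hne'
    rw [hcol e hX, hcol e' hX'] at hc'
    refine hκ ⟨e, hX⟩ ⟨e', hX'⟩ (fun h => hne' (congrArg Subtype.val h)) ?_ hc'
    obtain ⟨_, j1⟩ := mem_inc.1 he
    obtain ⟨_, j2⟩ := mem_inc.1 he'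
    change (if s e ∈ X then s e else d e) = (if s e' ∈ X then s e' else d e') ∨
      (if s e ∈ X then d e else s e) = (if s e' ∈ X then d e' else s e')
    by_cases hv : v ∈ X
    · left
      have k1 : (if s e ∈ X then s e else d e) = v := by
        split_ifs with h
        · rcases j1 with h3 | h3
          · exact h3
          · exfalso
            rw [h3] at hX
            tauto
        · rcases j1 with h3 | h3
          · rw [h3] at h
            exact absurd hv h
          · exact h3
      have k2 : (if s e' ∈ X then s e' else d e') = v := by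
        split_ifs with h
        · rcases j2 with h3 | h3
          · exact h3
          · exfalso
            rw [h3] at hX'
            tauto
        · rcases j2 with h3 | h3
          · rw [h3] at h
            exact absurd hv h
          · exact h3
      rw [k1, k2]
    · right
      have k1 : (if s e ∈ X then d e else s e) = v := by
        split_ifs with h
        · rcases j1 with h3 | h3
          · rw [h3] at h
            exact absurd h hv
          · exact h3
        · rcases j1 with h3 | h3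
          · exact h3
          · exfalso
            rw [h3] at hX
            tauto
      have k2 : (if s e' ∈ X then d e' else s e') = v := by
        split_ifs with h
        · rcases j2 with h3 | h3
          · rw [h3] at h
            exact absurd h hv
          · exact h3
        · rcases j2 with h3 | h3
          · exact h3
          · exfalso
            rw [h3] at hX'
            tauto
      rw [k1, k2]
  refine ⟨f, fun v => ?_, fun e he => absurd he (notMem_empty _), fun e _ _ => ?_⟩
  · rw [bd_inc]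
    by_cases hv : v ∈ X
    · rw [← sum_filter_add_sum_filter_not (inc s d v) (fun e => oth s d v e ∉ X)]
      have k1 : ∀ e ∈ (inc s d v).filter (fun e => oth s d v e ∉ X),
          ¬ (s e ∈ X ↔ d e ∈ X) := by
        intro e he
        obtain ⟨he, hm⟩ := mem_filter.1 he
        rcases (oth_jv he).1 with ⟨a, b⟩ | ⟨a, b⟩
        · rw [a, b]
          tauto
        · rw [a, b]
          tauto
      have k2 : ∀ e ∈ (inc s d v).filter (fun e => ¬ oth s d v e ∉ X),
          (s e ∈ X ↔ d e ∈ X) := by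
        intro e he
        obtain ⟨he, hm⟩ := mem_filter.1 he
        rw [not_not] at hm
        rcases (oth_jv he).1 with ⟨a, b⟩ | ⟨a, b⟩
        · rw [a, b]
          tauto
        · rw [a, b]
          tauto
      rw [sum_congr rfl (fun e he => hf1 e (k1 e he)), sum_congr rfl (fun e he => hf2 e (k2 e he)),
        sum_three (by rw [inc_out hS]; exact (h2 v hv).1) ?_, sum_even, add_zero]
      · rw [inc_in hS]
        exact (h2 v hv).2
      · intro e he e' he' hc'
        exact hin v e e' (mem_filter.1 he).1 (mem_filter.1 he').1 (k1 e he) (k1 e' he') hc'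
    · have k1 : ∀ e ∈ inc s d v, ¬ (s e ∈ X ↔ d e ∈ X) := by
        intro e he
        obtain ⟨ha, hb⟩ := mem_inc.1 he
        have hc1 := hc e ha
        rcases hb with h | h
        · rw [h] at hc1 ⊢
          tauto
        · rw [h] at hc1 ⊢
          tauto
      rcases h1 v hv with h | h
      · rw [deg_inc hS, card_eq_zero] at h
        rw [h, sum_empty]
      · rw [deg_inc hS] at h
        rw [sum_congr rfl (fun e he => hf1 e (k1 e he)), sum_three h]
        intro e he e' he' hc'
        exact hin v e e' he he' (k1 e he) (k1 e' he') hc'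
  · by_cases h : (s e ∈ X ↔ d e ∈ X)
    · rw [hf2 e h]
      decide
    · rw [hf1 e h]
      exact val_ne _

end Pool.Agent.Q253.VC
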