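import Pool.Agent.H79.LF.TH362_TF_Nxt
import Mathlib.Data.Nat.Bitwise
import Mathlib.Tactic.Ring

/-!
# Search engine for the finite part

The cubic graphs `(p, m)` on `Fin n`, `n ≤ 16`, with `Gi n p m`, for a fixed permutation `p`, are
enumerated by a search which is run by the kernel. The mates are stored in a natural number `M`: the
`v`-th digit in base `32` is `m v + 1` or `0` (unknown). The free vertices are the bits of `fr`. The
tables: `P`, `Q` (base `32`) the permutation and its inverse, `T` (base `2 ^ 16`) the possible mates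
of a vertex, `R` the possible mates of the neighbours of `v` if the mate of `v` is known.
-/

set_option autoImplicit false

namespace Pool.Agent.TH362.TF.Eng

/-- five bit digit -/
def dg (a v : ℕ) : ℕ := Nat.land (Nat.shiftRight a (Nat.mul 5 v)) 31

/-- two bit digit -/
def d2 (a v : ℕ) : ℕ := Nat.land (Nat.shiftRight a (Nat.mul 2 v)) 3

/-- sixteen bit digit, with the higher ones -/
def dw (a v : ℕ) : ℕ := Nat.shiftRight a (Nat.mul 16 v)

/-- candidates for the mate of the largest free vertex -/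
def mk (P Q T R fr M : ℕ) : ℕ :=
  (fun v => Nat.land (Nat.land fr (dw T v)) (Nat.land (dw R (dg M (dg P v))) (dw R (dg M (dg Q v)))))
    (Nat.log2 fr)

/-- add the pair `v`, `u` -/
def st (M v u : ℕ) : ℕ :=
  Nat.lor M (Nat.lor (Nat.shiftLeft (Nat.succ u) (Nat.mul 5 v)) (Nat.shiftLeft (Nat.succ v) (Nat.mul 5 u)))

/-- remove `v` and `u` from the free vertices -/
def cl (fr v u : ℕ) : ℕ := Nat.xor fr (Nat.lor (Nat.shiftLeft 1 v) (Nat.shiftLeft 1 u))

/-- the search: `A` is the set of the candidates for the largest free vertex -/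
def go (P Q T R : ℕ) (lf : ℕ → Bool) : ℕ → ℕ → ℕ → ℕ → Bool
  | 0, _, _, _ => false
  | f + 1, fr, M, A =>
    bif Nat.beq A 0 then true else
      (bif Nat.beq (cl fr (Nat.log2 fr) (Nat.log2 A)) 0 then lf (st M (Nat.log2 fr) (Nat.log2 A)) else
        go P Q T R lf f (cl fr (Nat.log2 fr) (Nat.log2 A)) (st M (Nat.log2 fr) (Nat.log2 A))
          (mk P Q T R (cl fr (Nat.log2 fr) (Nat.log2 A)) (st M (Nat.log2 fr) (Nat.log2 A)))) &&
      go P Q T R lf f fr M (Nat.xor A (Nat.shiftLeft 1 (Nat.log2 A)))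

/-- run the search from the state `fr`, `M` -/
def run (P Q T R fr M : ℕ) (lf : ℕ → Bool) : Bool :=
  go P Q T R lf 200 fr M (mk P Q T R fr M)

/-- is the partial colouring `C` consistent at `x` -/
def ckx (Q M C x : ℕ) : Bool :=
  bif Nat.beq (Nat.mul (Nat.mul (d2 C x) (d2 C (dg Q x)))
    (Nat.mul (d2 C (Nat.pred (dg M x))) (d2 C (dg Q (Nat.pred (dg M x)))))) 0 then true
  else Nat.beq (Nat.add (d2 C x) (d2 C (dg Q x)))
    (Nat.add (d2 C (Nat.pred (dg M x))) (d2 C (dg Q (Nat.pred (dg M x)))))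

/-- search for a colouring; `0` means failure -/
def fnd (P Q M n : ℕ) : ℕ → ℕ → ℕ → ℕ → ℕ
  | 0, _, _, _ => 0
  | f + 1, v, k, C =>
    bif Nat.beq v n then C else
    bif Nat.beq k 0 then 0 else
    (fun r => bif Nat.beq r 0 then fnd P Q M n f v (Nat.pred k) C else r)
    (bif (bif Nat.beq (d2 C (dg P v)) k then true else Nat.beq (d2 C (dg Q v)) k) then 0
      else bif (ckx Q M (Nat.lor C (Nat.shiftLeft k (Nat.mul 2 v))) v &&
          ckx Q M (Nat.lor C (Nat.shiftLeft k (Nat.mul 2 v))) (dg P v)) then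
        fnd P Q M n f (Nat.succ v) 3 (Nat.lor C (Nat.shiftLeft k (Nat.mul 2 v))) else 0)

/-- final check of a colouring -/
def chk (P Q M C : ℕ) : ℕ → Bool
  | 0 => true
  | v + 1 =>
    (bif Nat.beq (d2 C v) 0 then false else bif Nat.beq (d2 C v) (d2 C (dg P v)) then false else
      Nat.beq (Nat.add (d2 C v) (d2 C (dg Q v)))
        (Nat.add (d2 C (Nat.pred (dg M v))) (d2 C (dg Q (Nat.pred (dg M v)))))) && chk P Q M C v

/-- a leaf: find a colouring and check it -/
def lfC (P Q n M : ℕ) : Bool := chk P Q M (fnd P Q M n 200 0 3 0) n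

/-- the tables are correct -/
structure Tab (n : ℕ) (p : Equiv.Perm (Fin n)) (P Q T R : ℕ) : Prop where
  hn : n ≤ 16
  hP : ∀ v : Fin n, dg P v = (p v).val
  hQ : ∀ v : Fin n, dg Q (p v).val = v.val
  hT : ∀ v u : Fin n, (dw T v).testBit u = false → u = v ∨ u = p v ∨ u = p (p v) ∨
    u = p (p (p v)) ∨ v = p u ∨ v = p (p u) ∨ v = p (p (p u))
  hR0 : ∀ u : Fin n, (dw R 0).testBit u = true
  hR : ∀ b u : Fin n, (dw R (b.val + 1)).testBit u = false → u = p b ∨ b = p u

/-- the tables are correct, for natural numbers -/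
def TabN (l : List ℕ) (n P Q T R : ℕ) : Prop :=
  n ≤ 16 ∧ (∀ v < n, dg P v = nxt l v ∧ dg Q (nxt l v) = v ∧ (dw R 0).testBit v = true) ∧
    (∀ v < n, ∀ u < n, (dw T v).testBit u = false → u = v ∨ u = nxt l v ∨ u = nxt l (nxt l v) ∨
      u = nxt l (nxt l (nxt l v)) ∨ v = nxt l u ∨ v = nxt l (nxt l u) ∨
      v = nxt l (nxt l (nxt l u))) ∧
    ∀ v < n, ∀ u < n, (dw R (v + 1)).testBit u = false → u = nxt l v ∨ v = nxt l u

instance (l : List ℕ) (n P Q T R : ℕ) : Decidable (TabN l n P Q T R) :=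
  have : Decidable (∀ v < n, dg P v = nxt l v ∧ dg Q (nxt l v) = v ∧ (dw R 0).testBit v = true) :=
    Nat.decidableBallLT n _
  have : Decidable (∀ v < n, ∀ u < n, (dw T v).testBit u = false → u = v ∨ u = nxt l v ∨
      u = nxt l (nxt l v) ∨
      u = nxt l (nxt l (nxt l v)) ∨ v = nxt l u ∨ v = nxt l (nxt l u) ∨
      v = nxt l (nxt l (nxt l u))) :=
    @Nat.decidableBallLT n _ (fun _ _ => @Nat.decidableBallLT n _ (fun _ _ => inferInstance))
  have : Decidable (∀ v < n, ∀ u < n, (dw R (v + 1)).testBit u = false →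
      u = nxt l v ∨ v = nxt l u) :=
    @Nat.decidableBallLT n _ (fun _ _ => @Nat.decidableBallLT n _ (fun _ _ => inferInstance))
  inferInstanceAs (Decidable (_ ∧ _ ∧ _ ∧ _))

theorem TabN.tab {l : List ℕ} {n P Q T R : ℕ} (h : TabN l n P Q T R) {p : Equiv.Perm (Fin n)}
    (hp : Std l n p) : Tab n p P Q T R := by
  obtain ⟨h0, h1, h2, h3⟩ := h
  have hp' : ∀ v : Fin n, nxt l v.val = (p v).val := fun v => (hp v).symm
  refine ⟨h0, fun v => ?_, fun v => ?_, fun v u huv => ?_, fun u => (h1 u u.2).2.2,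
    fun b u hbu => ?_⟩
  · rw [(h1 v v.2).1, hp']
  · have := (h1 v v.2).2.1
    rwa [hp'] at this
  · have := h2 v v.2 u u.2 huv
    simpa only [hp', ← Fin.ext_iff] using this
  · have := h3 b b.2 u u.2 hbu
    simpa only [hp', ← Fin.ext_iff] using this

/-! ### digits -/

theorem beqf {a b : ℕ} (h : a ≠ b) : Nat.beq a b = false := by
  cases hb : Nat.beq a b
  · rfl
  · exact absurd (Nat.eq_of_beq_eq_true hb) h

theorem dg_eq (a v : ℕ) : dg a v = (a >>> (5 * v)) &&& 31 := rfl

theorem dg_or (a b v : ℕ) : dg (a ||| b) v = dg a v ||| dg b v := by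
  rw [dg_eq, dg_eq, dg_eq, Nat.shiftRight_or_distrib, Nat.and_or_distrib_right]

theorem dg_shift {x : ℕ} (hx : x < 32) (v w : ℕ) :
    dg (x <<< (5 * v)) w = if w = v then x else 0 := by
  rw [dg_eq]
  apply Nat.eq_of_testBit_eq
  intro i
  have h31 : (31 : ℕ) = 2 ^ 5 - 1 := rfl
  rw [Nat.testBit_and, Nat.testBit_shiftRight, Nat.testBit_shiftLeft, h31,
    Nat.testBit_two_pow_sub_one]
  by_cases hi : i < 5
  · by_cases hw : w = v
    · subst hw
      simp [hi]
    · rw [if_neg hw, Nat.zero_testBit]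
      rcases Nat.lt_or_ge w v with h | h
      · have : ¬ (5 * w + i ≥ 5 * v) := by omega
        simp [this]
      · have h5 : x < 2 ^ (5 * w + i - 5 * v) :=
          lt_of_lt_of_le hx (by
            rw [show (32 : ℕ) = 2 ^ 5 from rfl]
            exact Nat.pow_le_pow_right (by norm_num) (by omega))
        rw [Nat.testBit_lt_two_pow h5]
        simp
  · have hx5 : ∀ y : ℕ, y < 32 → y.testBit i = false := fun y hy =>
      Nat.testBit_lt_two_pow (lt_of_lt_of_le hy (by
            rw [show (32 : ℕ) = 2 ^ 5 from rfl]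
            exact Nat.pow_le_pow_right (by norm_num) (by omega)))
    split_ifs
    · rw [hx5 x hx]; simp [hi]
    · simp [hi]

theorem dg_st (M v u w : ℕ) (hv : v < 31) (hu : u < 31) :
    dg (st M v u) w = dg M w ||| ((if w = v then u + 1 else 0) ||| (if w = u then v + 1 else 0)) := by
  have : st M v u = M ||| (((u + 1) <<< (5 * v)) ||| ((v + 1) <<< (5 * u))) := rfl
  rw [this, dg_or, dg_or, dg_shift (by omega), dg_shift (by omega)]

theorem tb_cl (fr v u w : ℕ) :
    (cl fr v u).testBit w = (fr.testBit w != (decide (v = w) || decide (u = w))) := by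
  have : cl fr v u = fr ^^^ ((1 <<< v) ||| (1 <<< u)) := rfl
  rw [this, Nat.testBit_xor, Nat.testBit_or, Nat.one_shiftLeft, Nat.one_shiftLeft,
    Nat.testBit_two_pow, Nat.testBit_two_pow]

/-- the state `fr`, `M` is compatible with `m` -/
structure Inv (n : ℕ) (m : Fin n → Fin n) (fr M : ℕ) : Prop where
  a : ∀ w, fr.testBit w = true ↔ (w < n ∧ dg M w = 0)
  b : ∀ w : Fin n, dg M w ≠ 0 → dg M w = (m w).val + 1
  c : ∀ w : Fin n, dg M w ≠ 0 → dg M (m w) ≠ 0

theorem Inv.init (n : ℕ) (m : Fin n → Fin n) : Inv n m (2 ^ n - 1) 0 := by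
  have h0 : ∀ w, dg 0 w = 0 := by
    intro w
    rw [dg_eq, Nat.zero_shiftRight, Nat.zero_and]
  refine ⟨fun w => ?_, fun w h => absurd (h0 w) h, fun w h => absurd (h0 w) h⟩
  rw [Nat.testBit_two_pow_sub_one]
  simp [h0]

theorem Inv.step {n : ℕ} {m : Fin n → Fin n} {fr M : ℕ} (h : Inv n m fr M) (hn : n ≤ 16)
    (mm : ∀ v, m (m v) = v) (m0 : ∀ v, m v ≠ v) (v : Fin n) (hv : fr.testBit v = true) :
    Inv n m (cl fr v (m v)) (st M v (m v)) := by
  have hv0 : dg M v = 0 := ((h.a v).1 hv).2
  have hu0 : dg M (m v) = 0 := by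
    by_contra hne
    have := h.c (m v) hne
    rw [mm] at this
    exact this hv0
  have hd : ∀ w : ℕ, dg (st M v (m v)) w =
      dg M w ||| ((if w = v.val then (m v).val + 1 else 0) |||
        (if w = (m v).val then v.val + 1 else 0)) :=
    fun w => dg_st M v (m v) w (by have := v.2; omega) (by have := (m v).2; omega)
  have hne : v.val ≠ (m v).val := fun e => m0 v (Fin.ext e.symm)
  have e1 : dg (st M v (m v)) v = (m v).val + 1 := by
    rw [hd, hv0, if_pos rfl, if_neg hne]; simp
  have e2 : dg (st M v (m v)) (m v) = v.val + 1 := by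
    rw [hd, hu0, if_pos rfl, if_neg hne.symm]; simp
  have e3 : ∀ w : ℕ, w ≠ v.val → w ≠ (m v).val → dg (st M v (m v)) w = dg M w := by
    intro w h1 h2
    rw [hd, if_neg h1, if_neg h2]; simp
  refine ⟨fun w => ?_, fun w hw => ?_, fun w hw => ?_⟩
  · rw [tb_cl]
    by_cases h1 : w = v.val
    · subst h1
      rw [hv, e1]
      simp
    · by_cases h2 : w = (m v).val
      · subst h2
        have : fr.testBit (m v) = true := (h.a _).2 ⟨(m v).2, hu0⟩
        rw [this, e2]
        simp
      · rw [e3 w h1 h2]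
        have h1' : ¬ (v.val = w) := fun e => h1 e.symm
        have h2' : ¬ ((m v).val = w) := fun e => h2 e.symm
        rw [← h.a w]
        simp [h1', h2']
  · by_cases h1 : w.val = v.val
    · have : w = v := Fin.ext h1
      subst this
      exact e1
    · by_cases h2 : w.val = (m v).val
      · have : w = m v := Fin.ext h2
        subst this
        rw [e2, mm]
      · rw [e3 w h1 h2] at hw ⊢
        exact h.b w hw
  · by_cases h1 : w.val = v.val
    · have : w = v := Fin.ext h1
      subst this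
      rw [e2]; omega
    · by_cases h2 : w.val = (m v).val
      · have : w = m v := Fin.ext h2
        subst this
        rw [mm, e1]; omega
      · rw [e3 w h1 h2] at hw
        have hc := h.c w hw
        have h3 : (m w).val ≠ v.val := by
          intro e
          apply hc
          rw [e]; exact hv0
        have h4 : (m w).val ≠ (m v).val := by
          intro e
          apply hc
          rw [e]; exact hu0
        rw [e3 _ h3 h4]
        exact hc

/-- the state with one given pair -/
theorem Inv.one {n : ℕ} {m : Fin n → Fin n} (hn : n ≤ 16)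
    (mm : ∀ v, m (m v) = v) (m0 : ∀ v, m v ≠ v) (v u : Fin n) (h : m v = u) :
    Inv n m (cl (2 ^ n - 1) v u) (st 0 v u) := by
  subst h
  refine (Inv.init n m).step hn mm m0 v ?_
  rw [Nat.testBit_two_pow_sub_one]
  simp

section
variable {n : ℕ} {p : Equiv.Perm (Fin n)} {m : Fin n → Fin n} {P Q T R : ℕ}

theorem mk_ok (tb : Tab n p P Q T R) (g : Gi n p m) {fr M : ℕ} (h : Inv n m fr M)
    (v : Fin n) (hv : v.val = Nat.log2 fr) (hfr : fr.testBit v = true) :
    (mk P Q T R fr M).testBit (m v) = true := by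
  have hv0 : dg M v = 0 := ((h.a v).1 hfr).2
  have e : mk P Q T R fr M = (fr &&& dw T v) &&& (dw R (dg M (dg P v)) &&& dw R (dg M (dg Q v))) := by
    rw [hv]; rfl
  rw [e, Nat.testBit_and, Nat.testBit_and, Nat.testBit_and]
  have h1 : fr.testBit (m v) = true := by
    refine (h.a _).2 ⟨(m v).2, ?_⟩
    by_contra hne
    have := h.c (m v) hne
    rw [g.mm] at this
    exact this hv0
  have h2 : (dw T v).testBit (m v) = true := by
    by_contra hne
    rw [Bool.not_eq_true] at hne
    rcases tb.hT v (m v) hne with e | e | e | e | e | e | e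
    · exact g.m0 v e
    · exact g.m1 v e
    · exact g.m2 v e
    · exact g.m3 v e
    · exact g.m1 (m v) (by rw [g.mm]; exact e)
    · exact g.m2 (m v) (by rw [g.mm]; exact e)
    · exact g.m3 (m v) (by rw [g.mm]; exact e)
  have h3 : (dw R (dg M (dg P v))).testBit (m v) = true := by
    rw [tb.hP v]
    by_cases hz : dg M (p v) = 0
    · rw [hz]; exact tb.hR0 _
    · rw [h.b _ hz]
      by_contra hne
      rw [Bool.not_eq_true] at hne
      rcases tb.hR _ _ hne with e | e
      · exact g.q2 v e.symm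
      · exact g.q1 v e
  have h4 : (dw R (dg M (dg Q v))).testBit (m v) = true := by
    obtain ⟨w, rfl⟩ := p.surjective v
    rw [tb.hQ w]
    by_cases hz : dg M w = 0
    · rw [hz]; exact tb.hR0 _
    · rw [h.b _ hz]
      by_contra hne
      rw [Bool.not_eq_true] at hne
      rcases tb.hR _ _ hne with e | e
      · exact g.q1 w e
      · exact g.q2 w e.symm
  rw [h1, h2, h3, h4]
  rfl

theorem go_sound (tb : Tab n p P Q T R) (g : Gi n p m) {lf : ℕ → Bool} {Goal : Prop}
    (hlf : ∀ M, (∀ w : Fin n, dg M w = (m w).val + 1) → lf M = true → Goal) (f : ℕ) :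
    ∀ (fr M A : ℕ) (v : Fin n), Inv n m fr M → v.val = Nat.log2 fr → fr.testBit v = true →
      A.testBit (m v) = true → go P Q T R lf f fr M A = true → Goal := by
  induction f with
  | zero => intro fr M A v _ _ _ _ hgo; exact absurd hgo (by simp [go])
  | succ f ih =>
    intro fr M A v hI hv hfr hA hgo
    have hA0 : A ≠ 0 := by
      rintro rfl
      simp at hA
    rw [go] at hgo
    have hb : Nat.beq A 0 = false := beqf hA0
    rw [hb, cond_false, Bool.and_eq_true] at hgo
    obtain ⟨h1, h2⟩ := hgo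
    by_cases hu : (m v).val = Nat.log2 A
    · rw [← hu, ← hv] at h1
      have hI' := hI.step tb.hn g.mm g.m0 v hfr
      by_cases hz : cl fr v (m v) = 0
      · rw [hz] at h1 hI'
        refine hlf _ (fun w => ?_) h1
        apply hI'.b
        intro hw
        have := (hI'.a w).2 ⟨w.2, hw⟩
        simp at this
      · have hb' : Nat.beq (cl fr v (m v)) 0 = false := beqf hz
        rw [hb', cond_false] at h1
        have ht : (cl fr v (m v)).testBit (Nat.log2 (cl fr v (m v))) = true :=
          Nat.testBit_log2 hz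
        have hlt : Nat.log2 (cl fr v (m v)) < n := ((hI'.a _).1 ht).1
        exact ih _ _ _ ⟨_, hlt⟩ hI' rfl ht (mk_ok tb g hI' ⟨_, hlt⟩ rfl ht) h1
    · refine ih fr M _ v hI hv hfr ?_ h2
      have : Nat.xor A (Nat.shiftLeft 1 (Nat.log2 A)) = A ^^^ (1 <<< Nat.log2 A) := rfl
      rw [this, Nat.testBit_xor, Nat.one_shiftLeft, Nat.testBit_two_pow, hA]
      have : ¬ (Nat.log2 A = (m v).val) := fun e => hu e.symm
      simp [this]

/-- soundness of the search from the state `fr`, `M` -/
theorem run_sound (tb : Tab n p P Q T R) (g : Gi n p m) {lf : ℕ → Bool} {Goal : Prop}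
    (hlf : ∀ M, (∀ w : Fin n, dg M w = (m w).val + 1) → lf M = true → Goal) {fr M : ℕ}
    (hI : Inv n m fr M) (hfr : fr ≠ 0) (h : run P Q T R fr M lf = true) : Goal := by
  have ht : fr.testBit (Nat.log2 fr) = true := Nat.testBit_log2 hfr
  have hlt : Nat.log2 fr < n := ((hI.a _).1 ht).1
  exact go_sound tb g hlf 200 _ _ _ ⟨_, hlt⟩ hI rfl ht (mk_ok tb g hI ⟨_, hlt⟩ rfl ht) h

theorem d2_lt (a v : ℕ) : d2 a v < 4 := by
  have h : d2 a v = (a >>> (2 * v)) &&& 3 := rfl
  have h2 : (a >>> (2 * v)) &&& 3 ≤ 3 := Nat.and_le_right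
  omega

theorem chk_iff {P Q M C : ℕ} (k : ℕ) (h : chk P Q M C k = true) : ∀ v < k, d2 C v ≠ 0 ∧
    d2 C v ≠ d2 C (dg P v) ∧ d2 C v + d2 C (dg Q v) =
      d2 C (dg M v - 1) + d2 C (dg Q (dg M v - 1)) := by
  induction k with
  | zero => intro v hv; omega
  | succ k ih =>
    rw [chk, Bool.and_eq_true] at h
    intro v hv
    rcases Nat.lt_or_ge v k with h1 | h1
    · exact ih h.2 v h1
    · have : v = k := by omega
      subst this
      have h2 := h.1
      by_cases h3 : d2 C v = 0
      · rw [h3] at h2; simp at h2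
      · have hb : Nat.beq (d2 C v) 0 = false := beqf h3
        rw [hb, cond_false] at h2
        by_cases h4 : d2 C v = d2 C (dg P v)
        · rw [← h4] at h2; simp at h2
        · have hb' : Nat.beq (d2 C v) (d2 C (dg P v)) = false := beqf h4
          rw [hb', cond_false] at h2
          exact ⟨h3, h4, Nat.eq_of_beq_eq_true h2⟩

theorem lfC_sound (tb : Tab n p P Q T R) (M : ℕ) (hM : ∀ w : Fin n, dg M w = (m w).val + 1)
    (h : lfC P Q n M = true) : Col n p m := by
  set C := fnd P Q M n 200 0 3 0 with hC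
  have h' := chk_iff n (show chk P Q M C n = true from h)
  have key : ∀ v : Fin n, d2 C v ≠ 0 ∧ d2 C v ≠ d2 C (p v).val ∧
      d2 C v + d2 C (p.symm v).val = d2 C (m v).val + d2 C (p.symm (m v)).val := by
    intro v
    obtain ⟨h1, h2, h3⟩ := h' v v.2
    have hq : ∀ w : Fin n, dg Q w = (p.symm w).val := by
      intro w
      have := tb.hQ (p.symm w)
      rwa [Equiv.apply_symm_apply] at this
    rw [tb.hP] at h2
    rw [hM v, Nat.add_sub_cancel, hq, hq] at h3
    exact ⟨h1, h2, h3⟩
  have key2 : ∀ v : Fin n, d2 C (p.symm v).val ≠ d2 C v := by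
    intro v
    have := (key (p.symm v)).2.1
    rwa [Equiv.apply_symm_apply] at this
  have b1 : ∀ v : Fin n, d2 C v - 1 < 3 := fun v => by
    have := d2_lt C v; omega
  have b2 : ∀ v : Fin n, 5 - (d2 C v + d2 C (p.symm v).val) < 3 := fun v => by
    have h1 := (key v).1
    have h2 := (key (p.symm v)).1
    have h3 := key2 v
    omega
  refine ⟨fun v => ⟨_, b1 v⟩, fun v => ⟨_, b2 v⟩, fun v => ⟨?_, ?_, ?_, ?_⟩⟩
  · rw [Fin.mk.injEq, (key v).2.2]
  · rw [Ne, Fin.mk.injEq]
    have h1 := (key v).1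
    have h2 := (key (p v)).1
    have h3 := (key v).2.1
    omega
  · rw [Ne, Fin.mk.injEq]
    have h1 := (key v).1
    have h2 := (key (p.symm v)).1
    have h3 := key2 v
    have h4 := d2_lt C v
    have h5 := d2_lt C (p.symm v)
    omega
  · rw [Ne, Fin.mk.injEq, Equiv.symm_apply_apply]
    have h1 := (key v).1
    have h2 := (key (p v)).1
    have h3 := (key v).2.1
    have h4 := d2_lt C v
    have h5 := d2_lt C (p v)
    omega

/-- the case where all graphs can be coloured -/
theorem col_of_run {l : List ℕ} (tn : TabN l n P Q T R) (hp : Std l n p) (g : Gi n p m)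
    {fr M : ℕ} (hI : Inv n m fr M) (hfr : fr ≠ 0)
    (h : run P Q T R fr M (lfC P Q n) = true) : Col n p m :=
  run_sound (tn.tab hp) g (fun M hM h => lfC_sound (tn.tab hp) M hM h) hI hfr h

/-- the same, from the empty state -/
theorem col_of_run0 {l : List ℕ} (tn : TabN l n P Q T R) (hp : Std l n p) (g : Gi n p m)
    (h : run P Q T R (2 ^ n - 1) 0 (lfC P Q n) = true) (hn : n ≠ 0) : Col n p m :=
  col_of_run tn hp g (Inv.init n m) (by
    have : 1 < 2 ^ n := Nat.one_lt_two_pow hn
    omega) h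

/-- the same, with one given pair -/
theorem col_of_run1 {l : List ℕ} (tn : TabN l n P Q T R) (hp : Std l n p) (g : Gi n p m)
    (v u : Fin n) (hvu : m v = u) (hfr : cl (2 ^ n - 1) v u ≠ 0)
    (h : run P Q T R (cl (2 ^ n - 1) v u) (st 0 v u) (lfC P Q n) = true) : Col n p m :=
  col_of_run tn hp g (Inv.one tn.1 g.mm g.m0 v u hvu) hfr h

end

end Pool.Agent.TH362.TF.Eng
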