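import Pool.Agent.H79.LF.TH362_TF_Eng

set_option autoImplicit false

namespace Pool.Agent.TH362.TF

open Finset

theorem tab59 : Eng.TabN [5, 9] 14
    199900512782108462145 455774704772580443140
    328692140343490434788595196640892540133389651278461213148253798368
    330396673560255317573923441966992077730841194496095752553564938456399871 := by
  decide +kernel

theorem run59 : Eng.run 199900512782108462145 455774704772580443140
    328692140343490434788595196640892540133389651278461213148253798368
    330396673560255317573923441966992077730841194496095752553564938456399871
    (2 ^ 14 - 1) 0 (Eng.lfC 199900512782108462145 455774704772580443140 14) = true := by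
  decide +kernel

theorem fin59 (p : Equiv.Perm (Fin 14)) (m : Fin 14 → Fin 14) (hp : Std [5, 9] 14 p)
    (g : Gi 14 p m) : Col 14 p m :=
  Eng.col_of_run0 tab59 hp g run59 (by norm_num)

end Pool.Agent.TH362.TF
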