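import Pool.Agent.H79.LF.TH362_TF_FinB1
import Pool.Agent.H79.LF.TH362_TF_FinB2

/-!
# The case of two cycles of length five

All the graphs are Petersen graphs: the first cycle is the outer cycle.
-/

set_option autoImplicit false

namespace Pool.Agent.TH362.TF

open Finset

namespace Eng

/-- the vertex of the Petersen graph -/
def kap (M w : ℕ) : Fin 10 := Fin.ofNat 10 (bif Nat.blt w 5 then w else Nat.add 4 (dg M w))

/-- check that the graph is the Petersen graph -/
def PetN (M : ℕ) : Prop :=
  (∀ v : Fin 10, ∀ u : Fin 10, kap M v.val = kap M u.val → v = u) ∧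
    ∀ v : Fin 10, padj (kap M v.val) (kap M (nxt [5, 5] v.val)) = true ∧
      padj (kap M v.val) (kap M (dg M v.val - 1)) = true

instance (M : ℕ) : Decidable (PetN M) :=
  inferInstanceAs (Decidable (_ ∧ _))

theorem lfP_sound {p : Equiv.Perm (Fin 10)} {m : Fin 10 → Fin 10} (hp : Std [5, 5] 10 p) (M : ℕ)
    (hM : ∀ w : Fin 10, dg M w = (m w).val + 1) (h : decide (PetN M) = true) : Pet 10 p m := by
  obtain ⟨h1, h2⟩ := of_decide_eq_true h
  refine ⟨Equiv.ofBijective (fun v : Fin 10 => kap M v.val)
    ((Finite.injective_iff_bijective).1 fun v u e => h1 v u e), fun v => ?_⟩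
  obtain ⟨h3, h4⟩ := h2 v
  rw [← hp v] at h3
  rw [hM v, Nat.add_sub_cancel] at h4
  exact ⟨h3, h4⟩

end Eng

theorem tab55 : Eng.TabN [5, 5] 10
    186100060654657 289383390446596
    691333650068787525205087229601242439428867040
    1074212244862847667041396430110721832195184107847679 := by
  decide +kernel

theorem run55 : Eng.run 186100060654657 289383390446596
    691333650068787525205087229601242439428867040
    1074212244862847667041396430110721832195184107847679
    (2 ^ 10 - 1) 0 (fun M => decide (Eng.PetN M)) = true := by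
  decide +kernel

theorem fin55 (p : Equiv.Perm (Fin 10)) (m : Fin 10 → Fin 10) (hp : Std [5,5] 10 p) (g : Gi 10 p m) :
    Col 10 p m ∨ Pet 10 p m :=
  Or.inr (Eng.run_sound (tab55.tab hp) g (fun M hM h => Eng.lfP_sound hp M hM h)
    (Eng.Inv.init 10 m) (by norm_num) run55)

end Pool.Agent.TH362.TF
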