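import Pool.Agent.H79.LF.TH362_TF_Eng

set_option autoImplicit false

namespace Pool.Agent.TH362.TF

open Finset

theorem tab57 : Eng.TabN [5, 7] 12
    192890905991187521 370710452808778756
    2969255417669750571128549204538682146898657581106991072
    19076259201745278821955051816064137701458144488255187596476415 := by
  decide +kernel

theorem run57 : Eng.run 192890905991187521 370710452808778756
    2969255417669750571128549204538682146898657581106991072
    19076259201745278821955051816064137701458144488255187596476415
    (2 ^ 12 - 1) 0 (Eng.lfC 192890905991187521 370710452808778756 12) = true := by
  decide +kernel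

theorem fin57 (p : Equiv.Perm (Fin 12)) (m : Fin 12 → Fin 12) (hp : Std [5, 7] 12 p)
    (g : Gi 12 p m) : Col 12 p m :=
  Eng.col_of_run0 tab57 hp g run57 (by norm_num)

theorem tab77 : Eng.TabN [7, 7] 14
    273687489069435718721 455774705012796621830
    52245566899033054916040450386077315054672291903524426237513580416
    327808518680208856153635408515872378767908111253664582425657924579622911 := by
  decide +kernel

theorem run77 : Eng.run 273687489069435718721 455774705012796621830
    52245566899033054916040450386077315054672291903524426237513580416
    327808518680208856153635408515872378767908111253664582425657924579622911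
    (2 ^ 14 - 1) 0 (Eng.lfC 273687489069435718721 455774705012796621830 14) = true := by
  decide +kernel

theorem fin77 (p : Equiv.Perm (Fin 14)) (m : Fin 14 → Fin 14) (hp : Std [7, 7] 14 p)
    (g : Gi 14 p m) : Col 14 p m :=
  Eng.col_of_run0 tab77 hp g run77 (by norm_num)

end Pool.Agent.TH362.TF
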