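import Pool.Agent.H79.LF.TH395_P5_Tab

set_option autoImplicit false
set_option maxRecDepth 100000

/-! # Certificates, part 0 -/

namespace Pool.Agent.TH395.P5

def c0 : CA := .fin (.split (.iso 1 [0] [0]) (.deg 0))

theorem ok0 : chkA tbl q0 c0 q0.rt [] [] = true := by decide +kernel

def c1 : CA := .split (.fin (.split (.iso 2 [0,1] [0,1]) (.deg 1))) (.fin (.split (.split (.iso 3 [0,1] [0,1]) (.deg 0)) (.deg 1)))

theorem ok1 : chkA tbl q1 c1 q1.rt [] [] = true := by decide +kernel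

def c2 : CA := .split (.split (.fin (.split (.iso 4 [0,1,2] [0,1,2]) (.deg 2))) (.fin (.split (.split (.iso 5 [0,1,2] [0,1,2]) (.deg 1)) (.deg 2)))) (.split (.fin (.split (.split (.iso 5 [1,0,2] [1,0,2]) (.deg 0)) (.deg 2))) (.fin (.split (.split (.split (.iso 6 [0,1,2] [0,1,2]) (.deg 0)) (.deg 1)) (.deg 2))))

theorem ok2 : chkA tbl q2 c2 q2.rt [] [] = true := by decide +kernel

def c3 : CA := .split (.split (.fin (.split (.iso 5 [2,0,1] [1,2,0]) (.deg 2))) (.fin (.split (.split (.iso 6 [0,2,1] [0,2,1]) (.deg 1)) (.deg 2)))) (.split (.fin (.split (.split (.iso 6 [1,2,0] [2,0,1]) (.deg 0)) (.deg 2))) (.far 0 1))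

theorem ok3 : chkA tbl q3 c3 q3.rt [] [] = true := by decide +kernel

def c4 : CA := .split (.split (.split (.fin (.split (.iso 8 [0,1,2,3] [0,1,2,3]) (.deg 3))) (.fin (.split (.split (.iso 9 [0,1,2,3] [0,1,2,3]) (.deg 2)) (.deg 3)))) (.split (.fin (.split (.split (.iso 9 [0,2,1,3] [0,2,1,3]) (.deg 1)) (.deg 3))) (.fin (.split (.split (.split (.iso 10 [0,1,2,3] [0,1,2,3]) (.deg 1)) (.deg 2)) (.deg 3))))) (.split (.split (.fin (.split (.split (.iso 9 [1,2,0,3] [2,0,1,3]) (.deg 0)) (.deg 3))) (.fin (.split (.split (.split (.iso 10 [1,0,2,3] [1,0,2,3]) (.deg 0)) (.deg 2)) (.deg 3)))) (.split (.fin (.split (.split (.split (.iso 10 [2,0,1,3] [1,2,0,3]) (.deg 0)) (.deg 1)) (.deg 3))) (.fin (.split (.split (.split (.split (.iso 11 [0,1,2,3] [0,1,2,3]) (.deg 0)) (.deg 1)) (.deg 2)) (.split (.split (.split (.iso 7 [3,0,1,2] [1,2,3,0]) (.deg 0)) (.deg 1)) (.deg 2))))))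

theorem ok4 : chkA tbl q4 c4 q4.rt [] [] = true := by decide +kernel

def c5 : CA := .split (.split (.split (.fin (.split (.iso 9 [0,3,1,2] [0,2,3,1]) (.deg 3))) (.fin (.split (.split (.iso 10 [0,1,3,2] [0,1,3,2]) (.deg 2)) (.deg 3)))) (.split (.fin (.split (.split (.iso 10 [0,2,3,1] [0,3,1,2]) (.deg 1)) (.deg 3))) (.far 1 2))) (.split (.split (.fin (.split (.split (.iso 13 [0,3,1,2] [0,2,3,1]) (.deg 0)) (.deg 3))) (.fin (.split (.split (.split (.iso 12 [0,1,3,2] [0,1,3,2]) (.deg 0)) (.deg 2)) (.deg 3)))) (.split (.fin (.split (.split (.split (.iso 12 [0,2,3,1] [0,3,1,2]) (.deg 0)) (.deg 1)) (.deg 3))) (.far 1 2)))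

theorem ok5 : chkA tbl q5 c5 q5.rt [] [] = true := by decide +kernel

def c6 : CA := .split (.split (.split (.fin (.split (.iso 10 [3,0,1,2] [1,2,3,0]) (.deg 3))) (.fin (.split (.split (.iso 11 [0,1,3,2] [0,1,3,2]) (.iso 7 [2,0,1,3] [1,2,0,3])) (.deg 3)))) (.split (.fin (.split (.split (.iso 12 [0,3,2,1] [0,3,2,1]) (.deg 1)) (.deg 3))) (.far 1 2))) (.split (.split (.fin (.split (.split (.iso 12 [1,3,2,0] [3,0,2,1]) (.deg 0)) (.deg 3))) (.far 0 2)) (.far 0 1))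

theorem ok6 : chkA tbl q6 c6 q6.rt [] [] = true := by decide +kernel

def c7 : CA := .split (.split (.split (.fin (.split (.iso 14 [0,4,1,2,3] [0,2,3,4,1]) (.deg 4))) (.fin (.split (.split (.iso 16 [0,1,2,3,4] [0,1,2,3,4]) (.deg 3)) (.deg 4)))) (.split (.fin (.split (.split (.iso 16 [0,1,3,2,4] [0,1,3,2,4]) (.deg 2)) (.deg 4))) (.far 2 3))) (.split (.split (.fin (.split (.split (.iso 16 [0,2,3,1,4] [0,3,1,2,4]) (.deg 1)) (.deg 4))) (.far 1 3)) (.far 1 2))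

theorem ok7 : chkA tbl q7 c7 q7.rt [] [] = true := by decide +kernel

def c8 : CA := .split (.split (.split (.split (.fin (.split (.iso 17 [0,1,2,3,4] [0,1,2,3,4]) (.deg 4))) (.fin (.split (.split (.iso 18 [0,1,2,3,4] [0,1,2,3,4]) (.deg 3)) (.deg 4)))) (.split (.fin (.split (.split (.iso 18 [0,1,3,2,4] [0,1,3,2,4]) (.deg 2)) (.deg 4))) (.fin (.split (.split (.split (.iso 19 [0,1,2,3,4] [0,1,2,3,4]) (.deg 2)) (.deg 3)) (.deg 4))))) (.split (.split (.fin (.split (.split (.iso 18 [0,2,3,1,4] [0,3,1,2,4]) (.deg 1)) (.deg 4))) (.fin (.split (.split (.split (.iso 19 [0,2,1,3,4] [0,2,1,3,4]) (.deg 1)) (.deg 3)) (.deg 4)))) (.split (.fin (.split (.split (.split (.iso 19 [0,3,1,2,4] [0,2,3,1,4]) (.deg 1)) (.deg 2)) (.deg 4))) (.fin (.split (.split (.split (.split (.iso 20 [0,1,2,3,4] [0,1,2,3,4]) (.deg 1)) (.deg 2)) (.deg 3)) (.split (.split (.split (.iso 14 [4,0,1,2,3] [1,2,3,4,0]) (.deg 1)) (.deg 2)) (.deg 3)))))))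 (.split (.split (.split (.fin (.split (.split (.iso 18 [1,2,3,0,4] [3,0,1,2,4]) (.deg 0)) (.deg 4))) (.fin (.split (.split (.split (.iso 19 [1,2,0,3,4] [2,0,1,3,4]) (.deg 0)) (.deg 3)) (.deg 4)))) (.split (.fin (.split (.split (.split (.iso 19 [1,3,0,2,4] [2,0,3,1,4]) (.deg 0)) (.deg 2)) (.deg 4))) (.fin (.split (.split (.split (.split (.iso 20 [1,0,2,3,4] [1,0,2,3,4]) (.deg 0)) (.deg 2)) (.deg 3)) (.split (.split (.split (.iso 14 [4,1,0,2,3] [2,1,3,4,0]) (.deg 0)) (.deg 2)) (.deg 3)))))) (.split (.split (.fin (.split (.split (.split (.iso 19 [2,3,0,1,4] [2,3,0,1,4]) (.deg 0)) (.deg 1)) (.deg 4))) (.fin (.split (.split (.split (.split (.iso 20 [2,0,1,3,4] [1,2,0,3,4]) (.deg 0)) (.deg 1)) (.deg 3)) (.split (.split (.split (.iso 14 [4,2,0,1,3] [2,3,1,4,0]) (.deg 0)) (.deg 1)) (.deg 3))))) (.split (.fin (.split (.split (.split (.split (.iso 20 [3,0,1,2,4] [1,2,3,0,4]) (.deg 0)) (.deg 1)) (.deg 2)) (.split (.split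 (.split (.iso 14 [4,3,0,1,2] [2,3,4,1,0]) (.deg 0)) (.deg 1)) (.deg 2)))) (.fin (.split (.split (.split (.split (.split (.iso 21 [0,1,2,3,4] [0,1,2,3,4]) (.deg 0)) (.deg 1)) (.deg 2)) (.deg 3)) (.split (.split (.split (.split (.iso 15 [4,0,1,2,3] [1,2,3,4,0]) (.deg 0)) (.deg 1)) (.deg 2)) (.deg 3)))))))

theorem ok8 : chkA tbl q8 c8 q8.rt [] [] = true := by decide +kernel

def c9 : CA := .split (.split (.split (.split (.fin (.split (.iso 18 [0,1,4,2,3] [0,1,3,4,2]) (.deg 4))) (.fin (.split (.split (.iso 19 [0,1,2,4,3] [0,1,2,4,3]) (.deg 3)) (.deg 4)))) (.split (.fin (.split (.split (.iso 19 [0,1,3,4,2] [0,1,4,2,3]) (.deg 2)) (.deg 4))) (.far 2 3))) (.split (.split (.fin (.split (.split (.iso 25 [0,1,4,2,3] [0,1,3,4,2]) (.deg 1)) (.deg 4))) (.fin (.split (.split (.split (.iso 23 [0,1,2,4,3] [0,1,2,4,3]) (.deg 1)) (.deg 3)) (.deg 4)))) (.split (.fin (.split (.split (.split (.iso 23 [0,1,3,4,2] [0,1,4,2,3]) (.deg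 1)) (.deg 2)) (.deg 4))) (.far 2 3)))) (.split (.split (.split (.fin (.split (.split (.iso 25 [1,0,4,2,3] [1,0,3,4,2]) (.deg 0)) (.deg 4))) (.fin (.split (.split (.split (.iso 23 [1,0,2,4,3] [1,0,2,4,3]) (.deg 0)) (.deg 3)) (.deg 4)))) (.split (.fin (.split (.split (.split (.iso 23 [1,0,3,4,2] [1,0,4,2,3]) (.deg 0)) (.deg 2)) (.deg 4))) (.far 2 3))) (.split (.split (.fin (.split (.split (.split (.iso 26 [2,3,0,1,4] [2,3,0,1,4]) (.deg 0)) (.deg 1)) (.deg 4))) (.fin (.split (.split (.split (.split (.iso 22 [2,0,1,3,4] [1,2,0,3,4]) (.deg 0)) (.deg 1)) (.deg 3)) (.split (.split (.split (.iso 16 [4,0,1,3,2] [1,2,4,3,0]) (.deg 0)) (.deg 1)) (.deg 3))))) (.split (.fin (.split (.split (.split (.split (.iso 22 [3,0,1,2,4] [1,2,3,0,4]) (.deg 0)) (.deg 1)) (.deg 2)) (.split (.split (.split (.iso 16 [4,0,1,2,3] [1,2,3,4,0]) (.deg 0)) (.deg 1)) (.deg 2)))) (.far 2 3))))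

theorem ok9 : chkA tbl q9 c9 q9.rt [] [] = true := by decide +kernel

def c10 : CA := .split (.split (.split (.split (.fin (.split (.iso 19 [0,4,1,2,3] [0,2,3,4,1]) (.deg 4))) (.fin (.split (.split (.iso 20 [0,1,2,4,3] [0,1,2,4,3]) (.iso 14 [3,0,1,2,4] [1,2,3,0,4])) (.deg 4)))) (.split (.fin (.split (.split (.iso 23 [0,1,4,3,2] [0,1,4,3,2]) (.deg 2)) (.deg 4))) (.far 2 3))) (.split (.split (.fin (.split (.split (.iso 23 [0,2,4,3,1] [0,4,1,3,2]) (.deg 1)) (.deg 4))) (.far 1 3)) (.far 1 2))) (.split (.split (.split (.fin (.split (.split (.iso 26 [0,4,1,2,3] [0,2,3,4,1]) (.deg 0)) (.deg 4))) (.fin (.split (.split (.split (.iso 22 [0,1,2,4,3] [0,1,2,4,3]) (.deg 0)) (.split (.iso 16 [3,1,2,4,0] [4,1,2,0,3]) (.deg 0))) (.deg 4)))) (.split (.fin (.split (.split (.split (.iso 24 [0,1,4,3,2] [0,1,4,3,2]) (.deg 0)) (.deg 2)) (.deg 4))) (.far 2 3))) (.split (.split (.fin (.split (.split (.split (.iso 24 [0,2,4,3,1] [0,4,1,3,2])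 (.deg 0)) (.deg 1)) (.deg 4))) (.far 1 3)) (.far 1 2)))

theorem ok10 : chkA tbl q10 c10 q10.rt [] [] = true := by decide +kernel

def c11 : CA := .split (.split (.split (.split (.fin (.split (.iso 20 [4,0,1,2,3] [1,2,3,4,0]) (.deg 4))) (.fin (.split (.split (.iso 21 [0,1,2,4,3] [0,1,2,4,3]) (.iso 15 [3,0,1,2,4] [1,2,3,0,4])) (.deg 4)))) (.split (.fin (.split (.split (.iso 22 [4,0,1,2,3] [1,2,3,4,0]) (.deg 2)) (.deg 4))) (.far 2 3))) (.split (.split (.fin (.split (.split (.iso 22 [4,0,2,1,3] [1,3,2,4,0]) (.deg 1)) (.deg 4))) (.far 1 3)) (.far 1 2))) (.split (.split (.split (.fin (.split (.split (.iso 22 [4,1,2,0,3] [3,1,2,4,0]) (.deg 0)) (.deg 4))) (.far 0 3)) (.far 0 2)) (.far 0 1))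

theorem ok11 : chkA tbl q11 c11 q11.rt [] [] = true := by decide +kernel

def c12 : CA := .split (.split (.split (.split (.fin (.split (.iso 23 [4,0,1,2,3] [1,2,3,4,0]) (.deg 4))) (.fin (.split (.split (.iso 22 [0,1,4,2,3] [0,1,3,4,2]) (.iso 16 [3,1,4,2,0] [4,1,3,0,2])) (.deg 4)))) (.split (.fin (.split (.split (.iso 22 [1,0,4,3,2] [1,0,4,3,2]) (.iso 16 [2,0,4,3,1] [1,4,0,3,2])) (.deg 4))) (.far 2 3))) (.split (.split (.fin (.split (.split (.iso 24 [0,4,2,1,3] [0,3,2,4,1]) (.deg 1)) (.deg 4))) (.far 1 3)) (.far 1 2))) (.split (.split (.split (.fin (.split (.split (.iso 24 [1,4,3,0,2] [3,0,4,2,1]) (.deg 0)) (.deg 4))) (.far 0 3)) (.far 0 2)) (.split (.split (.fin (.split (.split (.split (.iso 27 [0,2,4,3,1] [0,4,1,3,2]) (.deg 0)) (.deg 1)) (.deg 4))) (.far 1 3)) (.far 1 2)))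

theorem ok12 : chkA tbl q12 c12 q12.rt [] [] = true := by decide +kernel

def c13 : CA := .split (.split (.split (.split (.fin (.split (.iso 25 [4,0,1,2,3] [1,2,3,4,0]) (.deg 4))) (.fin (.split (.split (.iso 26 [0,1,2,4,3] [0,1,2,4,3]) (.deg 3)) (.deg 4)))) (.split (.fin (.split (.split (.iso 26 [0,1,3,4,2] [0,1,4,2,3]) (.deg 2)) (.deg 4))) (.far 2 3))) (.split (.split (.fin (.split (.split (.iso 26 [2,3,0,4,1] [2,4,0,1,3]) (.deg 1)) (.deg 4))) (.fin (.split (.split (.split (.iso 24 [0,2,1,3,4] [0,2,1,3,4]) (.deg 1)) (.deg 3)) (.deg 4)))) (.split (.fin (.split (.split (.split (.iso 24 [0,3,1,2,4] [0,2,3,1,4]) (.deg 1)) (.deg 2)) (.deg 4))) (.far 2 3)))) (.split (.split (.split (.fin (.split (.split (.iso 26 [2,3,1,4,0] [4,2,0,1,3]) (.deg 0)) (.deg 4))) (.fin (.split (.split (.split (.iso 24 [1,2,0,3,4] [2,0,1,3,4]) (.deg 0)) (.deg 3)) (.deg 4)))) (.split (.fin (.split (.split (.split (.iso 24 [1,3,0,2,4] [2,0,3,1,4])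 (.deg 0)) (.deg 2)) (.deg 4))) (.far 2 3))) (.far 0 1))

theorem ok13 : chkA tbl q13 c13 q13.rt [] [] = true := by decide +kernel

def c14 : CA := .split (.split (.split (.split (.fin (.split (.iso 29 [0,1,5,2,3,4] [0,1,3,4,5,2]) (.deg 5))) (.fin (.split (.split (.iso 31 [0,1,2,3,4,5] [0,1,2,3,4,5]) (.deg 4)) (.deg 5)))) (.split (.fin (.split (.split (.iso 31 [0,1,2,4,3,5] [0,1,2,4,3,5]) (.deg 3)) (.deg 5))) (.far 3 4))) (.split (.split (.fin (.split (.split (.iso 31 [0,1,3,4,2,5] [0,1,4,2,3,5]) (.deg 2)) (.deg 5))) (.far 2 4)) (.far 2 3))) (.split (.split (.split (.fin (.split (.split (.iso 32 [0,2,3,4,1,5] [0,4,1,2,3,5]) (.deg 1)) (.deg 5))) (.fin (.split (.split (.split (.iso 33 [0,2,3,4,1,5] [0,4,1,2,3,5]) (.deg 1)) (.deg 4)) (.deg 5)))) (.split (.fin (.split (.split (.split (.iso 33 [0,2,4,3,1,5] [0,4,1,3,2,5]) (.deg 1)) (.deg 3)) (.deg 5))) (.far 3 4))) (.split (.split (.fin (.split (.split (.split (.iso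 33 [0,3,4,2,1,5] [0,4,3,1,2,5]) (.deg 1)) (.deg 2)) (.deg 5))) (.far 2 4)) (.far 2 3)))

theorem ok14 : chkA tbl q14 c14 q14.rt [] [] = true := by decide +kernel

def c15 : CA := .split (.split (.split (.split (.fin (.split (.iso 30 [0,5,1,2,3,4] [0,2,3,4,5,1]) (.deg 5))) (.fin (.split (.split (.iso 35 [0,1,2,3,4,5] [0,1,2,3,4,5]) (.deg 4)) (.deg 5)))) (.split (.fin (.split (.split (.iso 35 [0,1,2,4,3,5] [0,1,2,4,3,5]) (.deg 3)) (.deg 5))) (.far 3 4))) (.split (.split (.fin (.split (.split (.iso 35 [0,1,3,4,2,5] [0,1,4,2,3,5]) (.deg 2)) (.deg 5))) (.far 2 4)) (.far 2 3))) (.split (.split (.split (.fin (.split (.split (.iso 35 [0,2,3,4,1,5] [0,4,1,2,3,5]) (.deg 1)) (.deg 5))) (.far 1 4)) (.far 1 3)) (.far 1 2))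

theorem ok15 : chkA tbl q15 c15 q15.rt [] [] = true := by decide +kernel

def c16 : CA := .split (.split (.split (.split (.fin (.split (.iso 31 [0,5,1,2,3,4] [0,2,3,4,5,1]) (.deg 5))) (.fin (.split (.split (.iso 33 [0,1,2,3,5,4] [0,1,2,3,5,4]) (.deg 4)) (.deg 5)))) (.split (.fin (.split (.split (.iso 38 [0,1,2,3,4,5] [0,1,2,3,4,5]) (.iso 28 [0,3,1,2,4,5] [0,2,3,1,4,5])) (.deg 5))) (.far 3 4))) (.split (.split (.fin (.split (.split (.iso 36 [0,1,2,3,5,4] [0,1,2,3,5,4]) (.deg 2)) (.deg 5))) (.fin (.split (.split (.split (.iso 37 [0,1,2,3,5,4] [0,1,2,3,5,4]) (.deg 2)) (.deg 4)) (.deg 5)))) (.far 2 3))) (.split (.split (.split (.fin (.split (.split (.iso 36 [0,2,1,3,5,4] [0,2,1,3,5,4]) (.deg 1)) (.deg 5))) (.fin (.split (.split (.split (.iso 37 [0,2,1,3,5,4] [0,2,1,3,5,4]) (.deg 1)) (.deg 4)) (.deg 5)))) (.far 1 3)) (.far 1 2))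

theorem ok16 : chkA tbl q16 c16 q16.rt [] [] = true := by decide +kernel

def c17 : CA := .split (.split (.split (.split (.split (.fin (.split .big (.deg 5))) (.fin (.split (.split .big (.deg 4)) (.deg 5)))) (.split (.fin (.split (.split .big (.deg 3)) (.deg 5))) (.fin (.split (.split (.split .big (.deg 3)) (.deg 4)) (.deg 5))))) (.split (.split (.fin (.split (.split .big (.deg 2)) (.deg 5))) (.fin (.split (.split (.split .big (.deg 2)) (.deg 4)) (.deg 5)))) (.split (.fin (.split (.split (.split .big (.deg 2)) (.deg 3)) (.deg 5))) (.fin (.split (.split (.split (.split .big (.deg 2)) (.deg 3)) (.deg 4)) (.split (.split (.split (.iso 29 [5,0,1,2,3,4] [1,2,3,4,5,0]) (.deg 2)) (.deg 3)) (.deg 4))))))) (.split (.split (.split (.fin (.split (.split .big (.deg 1)) (.deg 5))) (.fin (.split (.split (.split .big (.deg 1)) (.deg 4)) (.deg 5)))) (.split (.fin (.split (.split (.split .big (.deg 1)) (.deg 3)) (.deg 5))) (.fin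 (.split (.split (.split (.split .big (.deg 1)) (.deg 3)) (.deg 4)) (.split (.split (.split (.iso 29 [5,0,2,1,3,4] [1,3,2,4,5,0]) (.deg 1)) (.deg 3)) (.deg 4)))))) (.split (.split (.fin (.split (.split (.split .big (.deg 1)) (.deg 2)) (.deg 5))) (.fin (.split (.split (.split (.split .big (.deg 1)) (.deg 2)) (.deg 4)) (.split (.split (.split (.iso 29 [5,0,3,1,2,4] [1,3,4,2,5,0]) (.deg 1)) (.deg 2)) (.deg 4))))) (.split (.fin (.split (.split (.split (.split .big (.deg 1)) (.deg 2)) (.deg 3)) (.split (.split (.split (.iso 29 [5,0,4,1,2,3] [1,3,4,5,2,0]) (.deg 1)) (.deg 2)) (.deg 3)))) (.fin (.split (.split (.split (.split (.split .big (.deg 1)) (.deg 2)) (.deg 3)) (.deg 4)) (.split (.split (.split (.split (.iso 30 [5,0,1,2,3,4] [1,2,3,4,5,0]) (.deg 1)) (.deg 2)) (.deg 3)) (.deg 4)))))))) (.split (.split (.split (.split (.fin (.split (.split .big (.deg 0)) (.deg 5))) (.fin (.split (.split (.split .big (.deg 0)) (.deg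 4)) (.deg 5)))) (.split (.fin (.split (.split (.split .big (.deg 0)) (.deg 3)) (.deg 5))) (.fin (.split (.split (.split (.split .big (.deg 0)) (.deg 3)) (.deg 4)) (.split (.split (.split (.iso 29 [5,1,2,0,3,4] [3,1,2,4,5,0]) (.deg 0)) (.deg 3)) (.deg 4)))))) (.split (.split (.fin (.split (.split (.split .big (.deg 0)) (.deg 2)) (.deg 5))) (.fin (.split (.split (.split (.split .big (.deg 0)) (.deg 2)) (.deg 4)) (.split (.split (.split (.iso 29 [5,1,3,0,2,4] [3,1,4,2,5,0]) (.deg 0)) (.deg 2)) (.deg 4))))) (.split (.fin (.split (.split (.split (.split .big (.deg 0)) (.deg 2)) (.deg 3)) (.split (.split (.split (.iso 29 [5,1,4,0,2,3] [3,1,4,5,2,0]) (.deg 0)) (.deg 2)) (.deg 3)))) (.fin (.split (.split (.split (.split (.split .big (.deg 0)) (.deg 2)) (.deg 3)) (.deg 4)) (.split (.split (.split (.split (.iso 30 [5,1,0,2,3,4] [2,1,3,4,5,0]) (.deg 0)) (.deg 2)) (.deg 3)) (.deg 4))))))) (.split (.split (.split (.fin (.split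 (.split (.split .big (.deg 0)) (.deg 1)) (.deg 5))) (.fin (.split (.split (.split (.split .big (.deg 0)) (.deg 1)) (.deg 4)) (.split (.split (.split (.iso 29 [5,2,3,0,1,4] [3,4,1,2,5,0]) (.deg 0)) (.deg 1)) (.deg 4))))) (.split (.fin (.split (.split (.split (.split .big (.deg 0)) (.deg 1)) (.deg 3)) (.split (.split (.split (.iso 29 [5,2,4,0,1,3] [3,4,1,5,2,0]) (.deg 0)) (.deg 1)) (.deg 3)))) (.fin (.split (.split (.split (.split (.split .big (.deg 0)) (.deg 1)) (.deg 3)) (.deg 4)) (.split (.split (.split (.split (.iso 30 [5,2,0,1,3,4] [2,3,1,4,5,0]) (.deg 0)) (.deg 1)) (.deg 3)) (.deg 4)))))) (.split (.split (.fin (.split (.split (.split (.split .big (.deg 0)) (.deg 1)) (.deg 2)) (.split (.split (.split (.iso 29 [5,3,4,0,1,2] [3,4,5,1,2,0]) (.deg 0)) (.deg 1)) (.deg 2)))) (.fin (.split (.split (.split (.split (.split .big (.deg 0)) (.deg 1)) (.deg 2)) (.deg 4)) (.split (.split (.split (.split (.iso 30 [5,3,0,1,2,4]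 [2,3,4,1,5,0]) (.deg 0)) (.deg 1)) (.deg 2)) (.deg 4))))) (.split (.fin (.split (.split (.split (.split (.split .big (.deg 0)) (.deg 1)) (.deg 2)) (.deg 3)) (.split (.split (.split (.split (.iso 30 [5,4,0,1,2,3] [2,3,4,5,1,0]) (.deg 0)) (.deg 1)) (.deg 2)) (.deg 3)))) (.fin (.split (.split (.split (.split (.split (.split .big (.deg 0)) (.deg 1)) (.deg 2)) (.deg 3)) (.deg 4)) (.split (.split (.split (.split (.split (.iso 34 [5,0,1,2,3,4] [1,2,3,4,5,0]) (.deg 0)) (.deg 1)) (.deg 2)) (.deg 3)) (.deg 4))))))))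

theorem ok17 : chkA tbl q17 c17 q17.rt [] [] = true := by decide +kernel

def c18 : CA := .split (.split (.split (.split (.split (.fin (.split .big (.deg 5))) (.fin (.split (.split .big (.deg 4)) (.deg 5)))) (.split (.fin (.split (.split .big (.deg 3)) (.deg 5))) (.far 3 4))) (.split (.split (.fin (.split (.split .big (.deg 2)) (.deg 5))) (.fin (.split (.split (.split .big (.deg 2)) (.deg 4)) (.deg 5)))) (.split (.fin (.split (.split (.split .big (.deg 2)) (.deg 3)) (.deg 5))) (.far 3 4)))) (.split (.split (.split (.fin (.split (.split .big (.deg 1)) (.deg 5))) (.fin (.split (.split (.split .big (.deg 1)) (.deg 4)) (.deg 5)))) (.split (.fin (.split (.split (.split .big (.deg 1)) (.deg 3)) (.deg 5))) (.far 3 4))) (.split (.split (.fin (.split (.split (.split .big (.deg 1)) (.deg 2)) (.deg 5))) (.fin (.split (.split (.split (.split .big (.deg 1)) (.deg 2)) (.deg 4)) (.split (.split (.split (.iso 31 [5,0,1,2,4,3]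 [1,2,3,5,4,0]) (.deg 1)) (.deg 2)) (.deg 4))))) (.split (.fin (.split (.split (.split (.split .big (.deg 1)) (.deg 2)) (.deg 3)) (.split (.split (.split (.iso 31 [5,0,1,2,3,4] [1,2,3,4,5,0]) (.deg 1)) (.deg 2)) (.deg 3)))) (.far 3 4))))) (.split (.split (.split (.split (.fin (.split (.split .big (.deg 0)) (.deg 5))) (.fin (.split (.split (.split .big (.deg 0)) (.deg 4)) (.deg 5)))) (.split (.fin (.split (.split (.split .big (.deg 0)) (.deg 3)) (.deg 5))) (.far 3 4))) (.split (.split (.fin (.split (.split (.split .big (.deg 0)) (.deg 2)) (.deg 5))) (.fin (.split (.split (.split (.split .big (.deg 0)) (.deg 2)) (.deg 4)) (.split (.split (.split (.iso 31 [5,1,0,2,4,3] [2,1,3,5,4,0]) (.deg 0)) (.deg 2)) (.deg 4))))) (.split (.fin (.split (.split (.split (.split .big (.deg 0)) (.deg 2)) (.deg 3)) (.split (.split (.split (.iso 31 [5,1,0,2,3,4] [2,1,3,4,5,0]) (.deg 0)) (.deg 2)) (.deg 3)))) (.far 3 4)))) (.split (.split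 (.split (.fin (.split (.split (.split .big (.deg 0)) (.deg 1)) (.deg 5))) (.fin (.split (.split (.split (.split .big (.deg 0)) (.deg 1)) (.deg 4)) (.split (.split (.split (.iso 31 [5,2,0,1,4,3] [2,3,1,5,4,0]) (.deg 0)) (.deg 1)) (.deg 4))))) (.split (.fin (.split (.split (.split (.split .big (.deg 0)) (.deg 1)) (.deg 3)) (.split (.split (.split (.iso 31 [5,2,0,1,3,4] [2,3,1,4,5,0]) (.deg 0)) (.deg 1)) (.deg 3)))) (.far 3 4))) (.split (.split (.fin (.split (.split (.split (.split .big (.deg 0)) (.deg 1)) (.deg 2)) (.split (.split (.split (.iso 32 [5,0,1,2,3,4] [1,2,3,4,5,0]) (.deg 0)) (.deg 1)) (.deg 2)))) (.fin (.split (.split (.split (.split (.split .big (.deg 0)) (.deg 1)) (.deg 2)) (.deg 4)) (.split (.split (.split (.split (.iso 35 [5,0,1,2,4,3] [1,2,3,5,4,0]) (.deg 0)) (.deg 1)) (.deg 2)) (.deg 4))))) (.split (.fin (.split (.split (.split (.split (.split .big (.deg 0)) (.deg 1)) (.deg 2)) (.deg 3)) (.split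 (.split (.split (.split (.iso 35 [5,0,1,2,3,4] [1,2,3,4,5,0]) (.deg 0)) (.deg 1)) (.deg 2)) (.deg 3)))) (.far 3 4)))))

theorem ok18 : chkA tbl q18 c18 q18.rt [] [] = true := by decide +kernel

def c19 : CA := .split (.split (.split (.split (.split (.fin (.split .big (.deg 5))) (.fin (.split (.split .big (.iso 29 [4,0,1,2,3,5] [1,2,3,4,0,5])) (.deg 5)))) (.split (.fin (.split (.split .big (.deg 3)) (.deg 5))) (.far 3 4))) (.split (.split (.fin (.split (.split .big (.deg 2)) (.deg 5))) (.far 2 4)) (.far 2 3))) (.split (.split (.split (.fin (.split (.split .big (.deg 1)) (.deg 5))) (.fin (.split (.split (.split .big (.deg 1)) (.split (.iso 31 [4,0,2,3,5,1] [1,5,2,3,0,4]) (.deg 1))) (.deg 5)))) (.split (.fin (.split (.split (.split .big (.deg 1)) (.deg 3)) (.deg 5))) (.far 3 4))) (.split (.split (.fin (.split (.split (.split .big (.deg 1)) (.deg 2)) (.deg 5))) (.far 2 4)) (.far 2 3)))) (.split (.split (.split (.split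 (.fin (.split (.split .big (.deg 0)) (.deg 5))) (.fin (.split (.split (.split .big (.deg 0)) (.split (.iso 31 [4,1,2,3,5,0] [5,1,2,3,0,4]) (.deg 0))) (.deg 5)))) (.split (.fin (.split (.split (.split .big (.deg 0)) (.deg 3)) (.deg 5))) (.far 3 4))) (.split (.split (.fin (.split (.split (.split .big (.deg 0)) (.deg 2)) (.deg 5))) (.far 2 4)) (.far 2 3))) (.split (.split (.split (.fin (.split (.split (.split .big (.deg 0)) (.deg 1)) (.deg 5))) (.fin (.split (.split (.split (.split .big (.deg 0)) (.deg 1)) (.split (.split (.iso 38 [4,2,3,5,0,1] [4,5,1,2,0,3]) (.deg 0)) (.deg 1))) (.split (.split (.split (.iso 38 [5,0,1,4,2,3] [1,2,4,5,3,0]) (.deg 0)) (.deg 1)) (.split (.split (.iso 28 [4,5,2,3,0,1] [4,5,2,3,0,1]) (.deg 0)) (.deg 1)))))) (.split (.fin (.split (.split (.split (.split .big (.deg 0)) (.deg 1)) (.deg 3)) (.split (.split (.split (.iso 33 [5,0,1,3,2,4] [1,2,4,3,5,0]) (.deg 0)) (.deg 1)) (.deg 3)))) (.far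 3 4))) (.split (.split (.fin (.split (.split (.split (.split .big (.deg 0)) (.deg 1)) (.deg 2)) (.split (.split (.split (.iso 33 [5,0,1,2,3,4] [1,2,3,4,5,0]) (.deg 0)) (.deg 1)) (.deg 2)))) (.far 2 4)) (.far 2 3))))

theorem ok19 : chkA tbl q19 c19 q19.rt [] [] = true := by decide +kernel

def c20 : CA := .split (.split (.split (.split (.split (.fin (.split .big (.deg 5))) (.fin (.split (.split .big (.iso 30 [4,0,1,2,3,5] [1,2,3,4,0,5])) (.deg 5)))) (.split (.fin (.split (.split .big (.deg 3)) (.deg 5))) (.far 3 4))) (.split (.split (.fin (.split (.split .big (.deg 2)) (.deg 5))) (.far 2 4)) (.far 2 3))) (.split (.split (.split (.fin (.split (.split .big (.deg 1)) (.deg 5))) (.far 1 4)) (.far 1 3)) (.far 1 2))) (.split (.split (.split (.split (.fin (.split (.split .big (.deg 0)) (.deg 5))) (.fin (.split (.split (.split .big (.deg 0)) (.split (.iso 35 [4,1,2,3,5,0] [5,1,2,3,0,4]) (.deg 0))) (.deg 5)))) (.split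 (.fin (.split (.split (.split .big (.deg 0)) (.deg 3)) (.deg 5))) (.far 3 4))) (.split (.split (.fin (.split (.split (.split .big (.deg 0)) (.deg 2)) (.deg 5))) (.far 2 4)) (.far 2 3))) (.split (.split (.split (.fin (.split (.split (.split .big (.deg 0)) (.deg 1)) (.deg 5))) (.far 1 4)) (.far 1 3)) (.far 1 2)))

theorem ok20 : chkA tbl q20 c20 q20.rt [] [] = true := by decide +kernel

def c21 : CA := .split (.split (.split (.split (.split (.fin (.split .big (.deg 5))) (.fin (.split (.split .big (.iso 34 [4,0,1,2,3,5] [1,2,3,4,0,5])) (.deg 5)))) (.split (.fin (.split (.split .big (.deg 3)) (.deg 5))) (.far 3 4))) (.split (.split (.fin (.split (.split .big (.deg 2)) (.deg 5))) (.far 2 4)) (.far 2 3))) (.split (.split (.split (.fin (.split (.split .big (.deg 1)) (.deg 5))) (.far 1 4)) (.far 1 3)) (.far 1 2))) (.split (.split (.split (.split (.fin (.split (.split .big (.deg 0)) (.deg 5))) (.far 0 4)) (.far 0 3))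 (.far 0 2)) (.far 0 1))

theorem ok21 : chkA tbl q21 c21 q21.rt [] [] = true := by decide +kernel

def c22 : CA := .split (.split (.split (.split (.split (.fin (.split .big (.deg 5))) (.fin (.split (.split .big (.iso 35 [4,1,2,5,3,0] [5,1,2,4,0,3])) (.deg 5)))) (.split (.fin (.split (.split .big (.iso 38 [3,0,5,4,1,2] [1,4,5,0,3,2])) (.deg 5))) (.far 3 4))) (.split (.split (.fin (.split (.split .big (.deg 2)) (.deg 5))) (.far 2 4)) (.far 2 3))) (.split (.split (.split (.fin (.split (.split .big (.deg 1)) (.deg 5))) (.far 1 4)) (.far 1 3)) (.far 1 2))) (.split (.split (.split (.split (.fin (.split (.split .big (.deg 0)) (.deg 5))) (.far 0 4)) (.far 0 3)) (.split (.split (.fin (.split (.split (.split .big (.deg 0)) (.deg 2)) (.deg 5))) (.far 2 4)) (.far 2 3))) (.split (.split (.split (.fin (.split (.split (.split .big (.deg 0)) (.deg 1)) (.deg 5))) (.far 1 4)) (.far 1 3)) (.far 1 2)))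

theorem ok22 : chkA tbl q22 c22 q22.rt [] [] = true := by decide +kernel

def c23 : CA := .split (.split (.split (.split (.split (.fin (.split .big (.deg 5))) (.fin (.split (.split .big (.iso 31 [4,0,2,5,3,1] [1,5,2,4,0,3])) (.deg 5)))) (.split (.fin (.split (.split .big (.iso 31 [3,0,1,5,4,2] [1,2,5,0,4,3])) (.deg 5))) (.far 3 4))) (.split (.split (.fin (.split (.split .big (.deg 2)) (.deg 5))) (.far 2 4)) (.far 2 3))) (.split (.split (.split (.fin (.split (.split .big (.deg 1)) (.deg 5))) (.far 1 4)) (.far 1 3)) (.split (.split (.fin (.split (.split (.split .big (.deg 1)) (.deg 2)) (.deg 5))) (.far 2 4)) (.far 2 3)))) (.split (.split (.split (.split (.fin (.split (.split .big (.deg 0)) (.deg 5))) (.fin (.split (.split (.split .big (.deg 0)) (.split (.iso 36 [4,2,3,5,1,0] [5,4,1,2,0,3]) (.deg 0))) (.deg 5)))) (.split (.fin (.split (.split (.split .big (.deg 0)) (.split (.iso 36 [3,1,4,5,2,0] [5,1,4,0,2,3])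 (.deg 0))) (.deg 5))) (.far 3 4))) (.split (.split (.fin (.split (.split (.split .big (.deg 0)) (.deg 2)) (.deg 5))) (.far 2 4)) (.far 2 3))) (.split (.split (.split (.fin (.split (.split (.split .big (.deg 0)) (.deg 1)) (.deg 5))) (.far 1 4)) (.far 1 3)) (.split (.split (.fin (.split (.split (.split (.split .big (.deg 0)) (.deg 1)) (.deg 2)) (.split (.split (.split (.iso 37 [5,0,1,2,3,4] [1,2,3,4,5,0]) (.deg 0)) (.deg 1)) (.deg 2)))) (.far 2 4)) (.far 2 3))))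

theorem ok23 : chkA tbl q23 c23 q23.rt [] [] = true := by decide +kernel

def c24 : CA := .split (.split (.split (.split (.split (.fin (.split .big (.deg 5))) (.fin (.split (.split .big (.iso 36 [4,5,2,3,0,1] [4,5,2,3,0,1])) (.deg 5)))) (.split (.fin (.split (.split .big (.iso 33 [3,1,5,4,0,2] [4,1,5,0,3,2])) (.deg 5))) (.far 3 4))) (.split (.split (.fin (.split (.split .big (.iso 33 [2,0,5,4,1,3] [1,4,0,5,3,2])) (.deg 5))) (.far 2 4)) (.far 2 3))) (.split (.split (.split (.fin (.split (.split .big (.deg 1)) (.deg 5))) (.far 1 4)) (.far 1 3)) (.split (.split (.fin (.split (.split (.split .big (.deg 1)) (.split (.iso 37 [2,0,4,5,3,1] [1,5,0,4,2,3]) (.deg 1))) (.deg 5))) (.far 2 4)) (.far 2 3)))) (.split (.split (.split (.split (.fin (.split (.split .big (.deg 0)) (.deg 5))) (.far 0 4)) (.split (.fin (.split (.split (.split .big (.deg 0)) (.split (.iso 37 [3,1,4,5,2,0] [5,1,4,0,2,3]) (.deg 0))) (.deg 5))) (.far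 3 4))) (.far 0 2)) (.split (.split (.split (.fin (.split (.split (.split .big (.deg 0)) (.deg 1)) (.deg 5))) (.far 1 4)) (.far 1 3)) (.far 0 2)))

theorem ok24 : chkA tbl q24 c24 q24.rt [] [] = true := by decide +kernel

def c25 : CA := .split (.split (.split (.split (.split (.fin (.split .big (.deg 5))) (.fin (.split (.split .big (.deg 4)) (.deg 5)))) (.split (.fin (.split (.split .big (.deg 3)) (.deg 5))) (.far 3 4))) (.split (.split (.fin (.split (.split .big (.deg 2)) (.deg 5))) (.fin (.split (.split (.split .big (.deg 2)) (.deg 4)) (.deg 5)))) (.split (.fin (.split (.split (.split .big (.deg 2)) (.deg 3)) (.deg 5))) (.far 3 4)))) (.split (.split (.split (.fin (.split (.split .big (.deg 1)) (.deg 5))) (.fin (.split (.split (.split .big (.deg 1)) (.deg 4)) (.deg 5)))) (.split (.fin (.split (.split (.split .big (.deg 1)) (.deg 3)) (.deg 5))) (.far 3 4))) (.far 1 2))) (.split (.split (.split (.split (.fin (.split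 (.split .big (.deg 0)) (.deg 5))) (.fin (.split (.split (.split .big (.deg 0)) (.deg 4)) (.deg 5)))) (.split (.fin (.split (.split (.split .big (.deg 0)) (.deg 3)) (.deg 5))) (.far 3 4))) (.split (.split (.fin (.split (.split (.split .big (.deg 0)) (.deg 2)) (.deg 5))) (.fin (.split (.split (.split (.split .big (.deg 0)) (.deg 2)) (.deg 4)) (.split (.split (.split (.iso 36 [5,0,2,4,1,3] [1,4,2,5,3,0]) (.deg 0)) (.deg 2)) (.deg 4))))) (.split (.fin (.split (.split (.split (.split .big (.deg 0)) (.deg 2)) (.deg 3)) (.split (.split (.split (.iso 36 [5,0,2,3,1,4] [1,4,2,3,5,0]) (.deg 0)) (.deg 2)) (.deg 3)))) (.far 3 4)))) (.split (.split (.split (.fin (.split (.split (.split .big (.deg 0)) (.deg 1)) (.deg 5))) (.fin (.split (.split (.split (.split .big (.deg 0)) (.deg 1)) (.deg 4)) (.split (.split (.split (.iso 36 [5,0,1,4,2,3] [1,2,4,5,3,0]) (.deg 0)) (.deg 1)) (.deg 4))))) (.split (.fin (.split (.split (.split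 (.split .big (.deg 0)) (.deg 1)) (.deg 3)) (.split (.split (.split (.iso 36 [5,0,1,3,2,4] [1,2,4,3,5,0]) (.deg 0)) (.deg 1)) (.deg 3)))) (.far 3 4))) (.far 1 2)))

theorem ok25 : chkA tbl q25 c25 q25.rt [] [] = true := by decide +kernel

def c26 : CA := .split (.split (.split (.split (.split (.fin (.split .big (.deg 5))) (.fin (.split (.split .big (.iso 32 [4,2,3,5,0,1] [4,5,1,2,0,3])) (.deg 5)))) (.split (.fin (.split (.split .big (.deg 3)) (.deg 5))) (.far 3 4))) (.split (.split (.fin (.split (.split .big (.deg 2)) (.deg 5))) (.far 2 4)) (.far 2 3))) (.split (.split (.split (.fin (.split (.split .big (.deg 1)) (.deg 5))) (.fin (.split (.split (.split .big (.deg 1)) (.split (.iso 33 [4,2,3,5,0,1] [4,5,1,2,0,3]) (.deg 1))) (.deg 5)))) (.split (.fin (.split (.split (.split .big (.deg 1)) (.deg 3)) (.deg 5))) (.far 3 4))) (.split (.split (.fin (.split (.split (.split .big (.deg 1)) (.deg 2)) (.deg 5))) (.far 2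 4)) (.far 2 3)))) (.split (.split (.split (.split (.fin (.split (.split .big (.deg 0)) (.deg 5))) (.fin (.split (.split (.split .big (.deg 0)) (.split (.iso 33 [4,2,3,5,1,0] [5,4,1,2,0,3]) (.deg 0))) (.deg 5)))) (.split (.fin (.split (.split (.split .big (.deg 0)) (.deg 3)) (.deg 5))) (.far 3 4))) (.split (.split (.fin (.split (.split (.split .big (.deg 0)) (.deg 2)) (.deg 5))) (.far 2 4)) (.far 2 3))) (.far 0 1))

theorem ok26 : chkA tbl q26 c26 q26.rt [] [] = true := by decide +kernel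

def c27 : CA := .split (.split (.split (.split (.split (.fin (.split .big (.deg 5))) (.fin (.split (.split .big (.iso 37 [4,5,2,3,0,1] [4,5,2,3,0,1])) (.deg 5)))) (.split (.fin (.split (.split .big (.iso 37 [3,5,1,4,0,2] [4,2,5,0,3,1])) (.deg 5))) (.far 3 4))) (.split (.split (.fin (.split (.split .big (.iso 37 [2,5,0,4,1,3] [2,4,0,5,3,1])) (.deg 5))) (.far 2 4)) (.far 2 3))) (.split (.split (.split (.fin (.split (.split .big (.iso 37 [1,5,0,3,2,4] [2,0,4,3,5,1])) (.deg 5))) (.far 1 4)) (.far 1 3)) (.far 1 2))) (.split (.split (.split (.split (.fin (.split (.split .big (.iso 37 [0,5,1,2,3,4] [0,2,3,4,5,1])) (.deg 5))) (.far 0 4)) (.far 0 3)) (.far 0 2)) (.far 0 1))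

theorem ok27 : chkA tbl q27 c27 q27.rt [] [] = true := by decide +kernel

def c28 : CA := .split (.split (.split (.split (.fin (.split (.iso 42 [0,1,6,2,3,4,5] [0,1,3,4,5,6,2]) (.deg 6))) (.fin (.split (.split (.iso 44 [0,1,2,3,4,5,6] [0,1,2,3,4,5,6]) (.deg 5)) (.deg 6)))) (.split (.fin (.split (.split (.iso 44 [0,1,2,3,5,4,6] [0,1,2,3,5,4,6]) (.deg 4)) (.deg 6))) (.far 4 5))) (.split (.split (.fin (.split (.split (.iso 44 [1,0,4,5,2,3,6] [1,0,4,5,2,3,6]) (.deg 3)) (.deg 6))) (.fin (.split (.split (.split (.iso 45 [0,1,2,4,3,5,6] [0,1,2,4,3,5,6]) (.deg 3)) (.deg 5)) (.deg 6)))) (.split (.fin (.split (.split (.split (.iso 45 [0,1,2,5,3,4,6] [0,1,2,4,5,3,6]) (.deg 3)) (.deg 4)) (.deg 6))) (.far 4 5)))) (.split (.split (.split (.fin (.split (.split (.iso 44 [1,0,4,5,3,2,6] [1,0,5,4,2,3,6]) (.deg 2)) (.deg 6))) (.fin (.split (.split (.split (.iso 45 [0,1,3,4,2,5,6] [0,1,4,2,3,5,6]) (.deg 2)) (.deg 5)) (.deg 6))))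 (.split (.fin (.split (.split (.split (.iso 45 [0,1,3,5,2,4,6] [0,1,4,2,5,3,6]) (.deg 2)) (.deg 4)) (.deg 6))) (.far 4 5))) (.far 2 3))

theorem ok28 : chkA tbl q28 c28 q28.rt [] [] = true := by decide +kernel

def c29 : CA := .split (.split (.split (.split (.split (.fin (.split .big (.deg 6))) (.fin (.split (.split .big (.deg 5)) (.deg 6)))) (.split (.fin (.split (.split .big (.deg 4)) (.deg 6))) (.far 4 5))) (.split (.split (.fin (.split (.split .big (.deg 3)) (.deg 6))) (.far 3 5)) (.far 3 4))) (.split (.split (.split (.fin (.split (.split .big (.deg 2)) (.deg 6))) (.fin (.split (.split (.split .big (.deg 2)) (.deg 5)) (.deg 6)))) (.split (.fin (.split (.split (.split .big (.deg 2)) (.deg 4)) (.deg 6))) (.far 4 5))) (.split (.split (.fin (.split (.split (.split .big (.deg 2)) (.deg 3)) (.deg 6))) (.far 3 5)) (.far 3 4)))) (.split (.split (.split (.split (.fin (.split (.split .big (.deg 1)) (.deg 6))) (.fin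 (.split (.split (.split .big (.deg 1)) (.deg 5)) (.deg 6)))) (.split (.fin (.split (.split (.split .big (.deg 1)) (.deg 4)) (.deg 6))) (.far 4 5))) (.split (.split (.fin (.split (.split (.split .big (.deg 1)) (.deg 3)) (.deg 6))) (.far 3 5)) (.far 3 4))) (.split (.split (.split (.fin (.split (.split (.split .big (.deg 1)) (.deg 2)) (.deg 6))) (.fin (.split (.split (.split (.split .big (.deg 1)) (.deg 2)) (.deg 5)) (.split (.split (.split (.iso 39 [0,6,3,4,1,5,2] [0,4,6,2,3,5,1]) (.deg 1)) (.deg 2)) (.deg 5))))) (.split (.fin (.split (.split (.split (.split .big (.deg 1)) (.deg 2)) (.deg 4)) (.split (.split (.split (.iso 39 [0,6,3,5,1,4,2] [0,4,6,2,5,3,1]) (.deg 1)) (.deg 2)) (.deg 4)))) (.far 4 5))) (.split (.split (.fin (.split (.split (.split (.split .big (.deg 1)) (.deg 2)) (.deg 3)) (.split (.split (.split (.iso 39 [0,6,4,5,1,3,2] [0,4,6,5,2,3,1]) (.deg 1)) (.deg 2)) (.deg 3)))) (.far 3 5)) (.far 3 4))))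

theorem ok29 : chkA tbl q29 c29 q29.rt [] [] = true := by decide +kernel

def c30 : CA := .split (.split (.split (.split (.split (.fin (.split .big (.deg 6))) (.fin (.split (.split .big (.deg 5)) (.deg 6)))) (.split (.fin (.split (.split .big (.deg 4)) (.deg 6))) (.far 4 5))) (.split (.split (.fin (.split (.split .big (.deg 3)) (.deg 6))) (.far 3 5)) (.far 3 4))) (.split (.split (.split (.fin (.split (.split .big (.deg 2)) (.deg 6))) (.far 2 5)) (.far 2 4)) (.far 2 3))) (.split (.split (.split (.split (.fin (.split (.split .big (.deg 1)) (.deg 6))) (.fin (.split (.split (.split .big (.deg 1)) (.deg 5)) (.deg 6)))) (.split (.fin (.split (.split (.split .big (.deg 1)) (.deg 4)) (.deg 6))) (.far 4 5))) (.split (.split (.fin (.split (.split (.split .big (.deg 1)) (.deg 3)) (.deg 6))) (.far 3 5)) (.far 3 4))) (.split (.split (.split (.fin (.split (.split (.split .big (.deg 1)) (.deg 2)) (.deg 6))) (.far 2 5)) (.far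 2 4)) (.far 2 3)))

theorem ok30 : chkA tbl q30 c30 q30.rt [] [] = true := by decide +kernel

def c31 : CA := .split (.split (.split (.split (.split (.fin (.split .big (.deg 6))) (.fin (.split (.split .big (.deg 5)) (.deg 6)))) (.split (.fin (.split (.split .big (.iso 42 [0,4,1,2,3,5,6] [0,2,3,4,1,5,6])) (.deg 6))) (.far 4 5))) (.split (.split (.fin (.split (.split .big (.deg 3)) (.deg 6))) (.fin (.split (.split (.split .big (.deg 3)) (.deg 5)) (.deg 6)))) (.far 3 4))) (.split (.split (.split (.fin (.split (.split .big (.deg 2)) (.deg 6))) (.fin (.split (.split (.split .big (.deg 2)) (.deg 5)) (.deg 6)))) (.far 2 4)) (.far 2 3))) (.split (.split (.split (.split (.fin (.split (.split .big (.deg 1)) (.deg 6))) (.fin (.split (.split (.split .big (.deg 1)) (.deg 5)) (.deg 6)))) (.split (.fin (.split (.split (.split .big (.deg 1)) (.split (.iso 44 [0,4,2,3,5,6,1] [0,6,2,3,1,4,5]) (.deg 1))) (.deg 6))) (.far 4 5)))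 (.split (.split (.fin (.split (.split (.split .big (.deg 1)) (.deg 3)) (.deg 6))) (.fin (.split (.split (.split (.split .big (.deg 1)) (.deg 3)) (.deg 5)) (.split (.split (.split (.iso 40 [0,6,2,1,3,4,5] [0,3,2,4,5,6,1]) (.deg 1)) (.deg 3)) (.deg 5))))) (.far 3 4))) (.split (.split (.split (.fin (.split (.split (.split .big (.deg 1)) (.deg 2)) (.deg 6))) (.fin (.split (.split (.split (.split .big (.deg 1)) (.deg 2)) (.deg 5)) (.split (.split (.split (.iso 40 [0,6,3,1,2,4,5] [0,3,4,2,5,6,1]) (.deg 1)) (.deg 2)) (.deg 5))))) (.far 2 4)) (.far 2 3)))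

theorem ok31 : chkA tbl q31 c31 q31.rt [] [] = true := by decide +kernel

def c32 : CA := .split (.split (.split (.split (.split (.fin (.split .big (.deg 6))) (.fin (.split (.split .big (.deg 5)) (.deg 6)))) (.split (.fin (.split (.split .big (.deg 4)) (.deg 6))) (.far 4 5))) (.split (.split (.fin (.split (.split .big (.deg 3)) (.deg 6))) (.fin (.split (.split (.split .big (.deg 3)) (.deg 5)) (.deg 6)))) (.split (.fin (.split (.split (.split .big (.deg 3)) (.deg 4)) (.deg 6))) (.far 4 5)))) (.split (.split (.split (.fin (.split (.split .big (.deg 2)) (.deg 6))) (.fin (.split (.split (.split .big (.deg 2)) (.deg 5)) (.deg 6)))) (.split (.fin (.split (.split (.split .big (.deg 2)) (.deg 4)) (.deg 6))) (.far 4 5))) (.far 2 3))) (.split (.split (.split (.split (.fin (.split (.split .big (.deg 1)) (.deg 6))) (.fin (.split (.split (.split .big (.deg 1)) (.deg 5)) (.deg 6)))) (.split (.fin (.split (.split (.split .big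 (.deg 1)) (.deg 4)) (.deg 6))) (.far 4 5))) (.far 1 3)) (.far 1 2))

theorem ok32 : chkA tbl q32 c32 q32.rt [] [] = true := by decide +kernel

def c33 : CA := .split (.split (.split (.split (.split (.fin (.split .big (.deg 6))) (.fin (.split (.split .big (.iso 39 [0,5,1,2,4,3,6] [0,2,3,5,4,1,6])) (.deg 6)))) (.split (.fin (.split (.split .big (.deg 4)) (.deg 6))) (.far 4 5))) (.split (.split (.fin (.split (.split .big (.iso 44 [0,3,1,2,6,5,4] [0,2,3,1,6,5,4])) (.deg 6))) (.far 3 5)) (.far 3 4))) (.split (.split (.split (.fin (.split (.split .big (.deg 2)) (.deg 6))) (.fin (.split (.split (.split .big (.deg 2)) (.split (.iso 40 [0,5,1,4,3,2,6] [0,2,5,4,3,1,6]) (.deg 2))) (.deg 6)))) (.split (.fin (.split (.split (.split .big (.deg 2)) (.deg 4)) (.deg 6))) (.far 4 5))) (.far 2 3))) (.split (.split (.split (.split (.fin (.split (.split .big (.deg 1)) (.deg 6))) (.fin (.split (.split (.split .big (.deg 1)) (.split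 (.iso 40 [0,5,2,4,3,1,6] [0,5,2,4,3,1,6]) (.deg 1))) (.deg 6)))) (.split (.fin (.split (.split (.split .big (.deg 1)) (.deg 4)) (.deg 6))) (.far 4 5))) (.far 1 3)) (.far 1 2))

theorem ok33 : chkA tbl q33 c33 q33.rt [] [] = true := by decide +kernel

def c34 : CA := .split (.split (.split (.split (.split (.fin (.split .big (.deg 6))) (.fin (.split (.split .big (.deg 5)) (.deg 6)))) (.split (.fin (.split (.split .big (.deg 4)) (.deg 6))) (.far 4 5))) (.split (.split (.fin (.split (.split .big (.deg 3)) (.deg 6))) (.far 3 5)) (.far 3 4))) (.split (.split (.split (.fin (.split (.split .big (.deg 2)) (.deg 6))) (.far 2 5)) (.far 2 4)) (.far 2 3))) (.split (.split (.split (.split (.fin (.split (.split .big (.deg 1)) (.deg 6))) (.far 1 5)) (.far 1 4)) (.far 1 3)) (.far 1 2))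

theorem ok34 : chkA tbl q34 c34 q34.rt [] [] = true := by decide +kernel

def c35 : CA := .split (.split (.split (.split (.split (.fin (.split .big (.deg 6))) (.fin (.split (.split .big (.deg 5)) (.deg 6)))) (.split (.fin (.split (.split .big (.iso 43 [4,0,5,6,1,2,3] [1,4,5,6,0,2,3])) (.deg 6))) (.far 4 5))) (.split (.split (.fin (.split (.split .big (.deg 3)) (.deg 6))) (.fin (.split (.split (.split .big (.deg 3)) (.deg 5)) (.deg 6)))) (.far 3 4))) (.split (.split (.split (.fin (.split (.split .big (.deg 2)) (.deg 6))) (.fin (.split (.split (.split .big (.deg 2)) (.deg 5)) (.deg 6)))) (.far 2 4)) (.far 2 3))) (.split (.split (.split (.split (.fin (.split (.split .big (.deg 1)) (.deg 6))) (.fin (.split (.split (.split .big (.deg 1)) (.deg 5)) (.deg 6)))) (.far 1 4)) (.far 1 3)) (.far 1 2))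

theorem ok35 : chkA tbl q35 c35 q35.rt [] [] = true := by decide +kernel

def c36 : CA := .split (.split (.split (.split (.split (.fin (.split .big (.deg 6))) (.fin (.split (.split .big (.deg 5)) (.deg 6)))) (.split (.fin (.split (.split .big (.deg 4)) (.deg 6))) (.fin (.split (.split (.split .big (.deg 4)) (.deg 5)) (.deg 6))))) (.split (.split (.fin (.split (.split .big (.iso 44 [3,0,5,6,1,2,4] [1,4,5,0,6,2,3])) (.deg 6))) (.far 3 5)) (.split (.fin (.split (.split (.split .big (.iso 45 [0,3,1,5,2,6,4] [0,2,4,1,6,3,5])) (.deg 4)) (.deg 6))) (.far 3 5)))) (.split (.split (.split (.fin (.split (.split .big (.iso 44 [2,0,4,6,1,3,5] [1,4,0,5,2,6,3])) (.deg 6))) (.fin (.split (.split (.split .big (.iso 45 [0,2,1,4,3,6,5] [0,2,1,4,3,6,5])) (.deg 5)) (.deg 6)))) (.far 2 4)) (.far 2 3))) (.split (.split (.split (.split (.fin (.split (.split .big (.deg 1)) (.deg 6))) (.fin (.split (.split (.split .big (.deg 1)) (.deg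 5)) (.deg 6)))) (.split (.fin (.split (.split (.split .big (.deg 1)) (.deg 4)) (.deg 6))) (.fin (.split (.split (.split (.split .big (.deg 1)) (.deg 4)) (.deg 5)) (.split (.split (.split (.iso 41 [0,6,1,2,3,4,5] [0,2,3,4,5,6,1]) (.deg 1)) (.deg 4)) (.deg 5)))))) (.far 1 3)) (.far 1 2))

theorem ok36 : chkA tbl q36 c36 q36.rt [] [] = true := by decide +kernel

def c37 : CA := .split (.split (.split (.split (.split (.fin (.split .big (.deg 6))) (.fin (.split (.split .big (.iso 40 [0,5,1,6,3,2,4] [0,2,5,4,6,1,3])) (.deg 6)))) (.split (.fin (.split (.split .big (.iso 40 [0,4,1,6,2,3,5] [0,2,4,5,1,6,3])) (.deg 6))) (.far 4 5))) (.split (.split (.fin (.split (.split .big (.iso 45 [0,3,1,6,2,5,4] [0,2,4,1,6,5,3])) (.deg 6))) (.far 3 5)) (.far 3 4))) (.split (.split (.split (.fin (.split (.split .big (.iso 45 [0,2,1,6,3,4,5] [0,2,1,4,5,6,3])) (.deg 6))) (.far 2 5)) (.far 2 4)) (.far 2 3))) (.split (.split (.split (.split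 (.fin (.split (.split .big (.deg 1)) (.deg 6))) (.fin (.split (.split (.split .big (.deg 1)) (.split (.iso 41 [0,5,3,1,2,6,4] [0,3,4,2,6,1,5]) (.deg 1))) (.deg 6)))) (.split (.fin (.split (.split (.split .big (.deg 1)) (.split (.iso 41 [0,4,2,1,3,6,5] [0,3,2,4,1,6,5]) (.deg 1))) (.deg 6))) (.far 4 5))) (.far 1 3)) (.far 1 2))

theorem ok37 : chkA tbl q37 c37 q37.rt [] [] = true := by decide +kernel

def c38 : CA := .split (.split (.split (.split (.split (.fin (.split .big (.deg 6))) (.fin (.split (.split .big (.deg 5)) (.deg 6)))) (.split (.fin (.split (.split .big (.deg 4)) (.deg 6))) (.far 4 5))) (.split (.split (.fin (.split (.split .big (.iso 43 [0,3,1,2,4,5,6] [0,2,3,1,4,5,6])) (.deg 6))) (.far 3 5)) (.far 3 4))) (.split (.split (.split (.fin (.split (.split .big (.deg 2)) (.deg 6))) (.fin (.split (.split (.split .big (.deg 2)) (.deg 5)) (.deg 6)))) (.split (.fin (.split (.split (.split .big (.deg 2)) (.deg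 4)) (.deg 6))) (.far 4 5))) (.far 2 3))) (.split (.split (.split (.split (.fin (.split (.split .big (.deg 1)) (.deg 6))) (.fin (.split (.split (.split .big (.deg 1)) (.deg 5)) (.deg 6)))) (.split (.fin (.split (.split (.split .big (.deg 1)) (.deg 4)) (.deg 6))) (.far 4 5))) (.far 1 3)) (.far 1 2))

theorem ok38 : chkA tbl q38 c38 q38.rt [] [] = true := by decide +kernel

def c39 : CA := .split (.split (.split (.split (.split (.fin (.split .big (.deg 7))) (.fin (.split (.split .big (.deg 6)) (.deg 7)))) (.split (.fin (.split (.split .big (.iso 50 [5,0,1,7,2,3,4,6] [1,2,4,5,6,0,7,3])) (.deg 7))) (.far 5 6))) (.split (.split (.fin (.split (.split .big (.deg 4)) (.deg 7))) (.far 4 6)) (.far 4 5))) (.split (.split (.split (.fin (.split (.split .big (.deg 3)) (.deg 7))) (.fin (.split (.split (.split .big (.deg 3)) (.deg 6)) (.deg 7)))) (.far 3 5)) (.split (.split (.fin (.split (.split (.split .big (.deg 3)) (.deg 4))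 (.deg 7))) (.far 4 6)) (.far 4 5)))) (.split (.split (.split (.split (.fin (.split (.split .big (.deg 2)) (.deg 7))) (.fin (.split (.split (.split .big (.deg 2)) (.deg 6)) (.deg 7)))) (.far 2 5)) (.split (.split (.fin (.split (.split (.split .big (.deg 2)) (.deg 4)) (.deg 7))) (.far 4 6)) (.far 4 5))) (.far 2 3))

theorem ok39 : chkA tbl q39 c39 q39.rt [] [] = true := by decide +kernel

def c40 : CA := .split (.split (.split (.split (.split (.fin (.split .big (.deg 7))) (.fin (.split (.split .big (.iso 47 [1,6,0,3,7,4,5,2] [2,0,7,3,5,6,1,4])) (.deg 7)))) (.split (.fin (.split (.split .big (.iso 47 [0,5,1,2,7,4,6,3] [0,2,3,7,5,1,6,4])) (.deg 7))) (.far 5 6))) (.split (.split (.fin (.split (.split .big (.iso 52 [4,0,1,7,2,3,5,6] [1,2,4,5,0,6,7,3])) (.deg 7))) (.far 4 6)) (.far 4 5))) (.split (.split (.split (.fin (.split (.split .big (.deg 3)) (.deg 7))) (.far 3 6)) (.split (.fin (.split (.split (.split .big (.deg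 3)) (.split (.iso 48 [0,5,1,2,4,6,7,3] [0,2,3,7,4,1,5,6]) (.deg 3))) (.deg 7))) (.far 5 6))) (.far 3 4))) (.split (.split (.split (.split (.fin (.split (.split .big (.deg 2)) (.deg 7))) (.fin (.split (.split (.split .big (.deg 2)) (.split (.iso 48 [1,6,0,3,4,5,7,2] [2,0,7,3,4,5,1,6]) (.deg 2))) (.deg 7)))) (.far 2 5)) (.far 2 4)) (.split (.split (.split (.fin (.split (.split (.split .big (.deg 2)) (.deg 3)) (.deg 7))) (.far 3 6)) (.far 2 5)) (.far 3 4)))

theorem ok40 : chkA tbl q40 c40 q40.rt [] [] = true := by decide +kernel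

def c41 : CA := .split (.split (.split (.split (.split (.fin (.split .big (.deg 7))) (.fin (.split (.split .big (.iso 48 [6,1,0,7,4,2,5,3] [2,1,5,7,4,6,0,3])) (.deg 7)))) (.split (.fin (.split (.split .big (.iso 48 [5,1,0,7,3,2,6,4] [2,1,5,4,7,0,6,3])) (.deg 7))) (.far 5 6))) (.split (.split (.fin (.split (.split .big (.iso 48 [4,0,1,7,6,2,3,5] [1,2,5,6,0,7,4,3])) (.deg 7))) (.far 4 6)) (.split (.fin (.split (.split (.split .big (.iso 49 [0,4,1,2,6,3,7,5] [0,2,3,5,1,7,4,6])) (.split (.iso 49 [1,5,0,2,3,6,7,4] [2,0,3,4,7,1,5,6]) (.iso 46 [0,4,1,5,2,3,6,7] [0,2,4,5,1,3,6,7]))) (.deg 7))) (.far 5 6)))) (.split (.split (.split (.fin (.split (.split .big (.iso 48 [3,0,1,7,5,2,4,6] [1,2,5,0,6,4,7,3])) (.deg 7))) (.fin (.split (.split (.split .big (.iso 49 [0,3,1,2,5,4,7,6] [0,2,3,1,5,4,7,6])) (.split (.iso 49 [1,6,0,2,4,5,7,3] [2,0,3,7,4,5,1,6]) (.iso 46 [0,3,1,6,2,4,5,7] [0,2,4,1,5,6,3,7]))) (.deg 7)))) (.far 3 5))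 (.far 3 4))) (.split (.split (.split (.split (.fin (.split (.split .big (.iso 51 [2,0,1,7,3,4,5,6] [1,2,0,4,5,6,7,3])) (.deg 7))) (.far 2 6)) (.far 2 5)) (.far 2 4)) (.far 2 3))

theorem ok41 : chkA tbl q41 c41 q41.rt [] [] = true := by decide +kernel

def c42 : CA := .split (.split (.split (.split (.split (.fin (.split .big (.deg 7))) (.fin (.split (.split .big (.deg 6)) (.deg 7)))) (.split (.fin (.split (.split .big (.deg 5)) (.deg 7))) (.far 5 6))) (.split (.split (.fin (.split (.split .big (.deg 4)) (.deg 7))) (.fin (.split (.split (.split .big (.deg 4)) (.deg 6)) (.deg 7)))) (.split (.fin (.split (.split (.split .big (.deg 4)) (.deg 5)) (.deg 7))) (.far 5 6)))) (.split (.split (.split (.fin (.split (.split .big (.deg 3)) (.deg 7))) (.fin (.split (.split (.split .big (.deg 3)) (.deg 6)) (.deg 7)))) (.split (.fin (.split (.split (.split .big (.deg 3)) (.deg 5)) (.deg 7))) (.far 5 6))) (.far 3 4))) (.split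 (.split (.split (.split (.fin (.split (.split .big (.deg 2)) (.deg 7))) (.fin (.split (.split (.split .big (.deg 2)) (.deg 6)) (.deg 7)))) (.split (.fin (.split (.split (.split .big (.deg 2)) (.deg 5)) (.deg 7))) (.far 5 6))) (.split (.split (.fin (.split (.split (.split .big (.deg 2)) (.deg 4)) (.deg 7))) (.fin (.split (.split (.split (.split .big (.deg 2)) (.deg 4)) (.deg 6)) (.split (.split (.split (.iso 47 [0,1,7,3,5,4,6,2] [0,1,7,3,5,4,6,2]) (.deg 2)) (.deg 4)) (.deg 6))))) (.split (.fin (.split (.split (.split (.split .big (.deg 2)) (.deg 4)) (.deg 5)) (.split (.split (.split (.iso 47 [0,1,7,3,6,4,5,2] [0,1,7,3,5,6,4,2]) (.deg 2)) (.deg 4)) (.deg 5)))) (.far 5 6)))) (.split (.split (.split (.fin (.split (.split (.split .big (.deg 2)) (.deg 3)) (.deg 7))) (.fin (.split (.split (.split (.split .big (.deg 2)) (.deg 3)) (.deg 6)) (.split (.split (.split (.iso 47 [0,1,7,4,5,3,6,2] [0,1,7,5,3,4,6,2]) (.deg 2))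 (.deg 3)) (.deg 6))))) (.split (.fin (.split (.split (.split (.split .big (.deg 2)) (.deg 3)) (.deg 5)) (.split (.split (.split (.iso 47 [0,1,7,4,6,3,5,2] [0,1,7,5,3,6,4,2]) (.deg 2)) (.deg 3)) (.deg 5)))) (.far 5 6))) (.far 3 4)))

theorem ok42 : chkA tbl q42 c42 q42.rt [] [] = true := by decide +kernel

def c43 : CA := .split (.split (.split (.split (.split (.fin (.split .big (.deg 7))) (.fin (.split (.split .big (.deg 6)) (.deg 7)))) (.split (.fin (.split (.split .big (.deg 5)) (.deg 7))) (.far 5 6))) (.split (.split (.fin (.split (.split .big (.deg 4)) (.deg 7))) (.far 4 6)) (.far 4 5))) (.split (.split (.split (.fin (.split (.split .big (.deg 3)) (.deg 7))) (.fin (.split (.split (.split .big (.deg 3)) (.deg 6)) (.deg 7)))) (.split (.fin (.split (.split (.split .big (.deg 3)) (.deg 5)) (.deg 7))) (.far 5 6))) (.split (.split (.fin (.split (.split (.split .big (.deg 3)) (.deg 4)) (.deg 7))) (.far 4 6)) (.far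 4 5)))) (.split (.split (.split (.split (.fin (.split (.split .big (.deg 2)) (.deg 7))) (.fin (.split (.split (.split .big (.deg 2)) (.deg 6)) (.deg 7)))) (.split (.fin (.split (.split (.split .big (.deg 2)) (.deg 5)) (.deg 7))) (.far 5 6))) (.split (.split (.fin (.split (.split (.split .big (.deg 2)) (.deg 4)) (.deg 7))) (.far 4 6)) (.far 4 5))) (.far 2 3))

theorem ok43 : chkA tbl q43 c43 q43.rt [] [] = true := by decide +kernel

def c44 : CA := .split (.split (.split (.split (.split (.fin (.split .big (.deg 7))) (.fin (.split (.split .big (.deg 6)) (.deg 7)))) (.split (.fin (.split (.split .big (.iso 50 [1,0,5,4,2,3,6,7] [1,0,4,5,3,2,6,7])) (.deg 7))) (.far 5 6))) (.split (.split (.fin (.split (.split .big (.deg 4)) (.deg 7))) (.fin (.split (.split (.split .big (.deg 4)) (.deg 6)) (.deg 7)))) (.far 4 5))) (.split (.split (.split (.fin (.split (.split .big (.deg 3)) (.deg 7))) (.fin (.split (.split (.split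 .big (.deg 3)) (.deg 6)) (.deg 7)))) (.split (.fin (.split (.split (.split .big (.deg 3)) (.split (.iso 52 [1,0,5,4,2,6,3,7] [1,0,4,6,3,2,5,7]) (.deg 3))) (.deg 7))) (.far 5 6))) (.split (.split (.fin (.split (.split (.split .big (.deg 3)) (.deg 4)) (.deg 7))) (.fin (.split (.split (.split (.split .big (.deg 3)) (.deg 4)) (.deg 6)) (.split (.split (.split (.iso 48 [0,1,7,2,3,4,5,6] [0,1,3,4,5,6,7,2]) (.deg 3)) (.deg 4)) (.deg 6))))) (.far 4 5)))) (.split (.split (.split (.split (.fin (.split (.split .big (.deg 2)) (.deg 7))) (.fin (.split (.split (.split .big (.deg 2)) (.deg 6)) (.deg 7)))) (.split (.fin (.split (.split (.split .big (.deg 2)) (.split (.iso 52 [1,0,5,4,3,6,2,7] [1,0,6,4,3,2,5,7]) (.deg 2))) (.deg 7))) (.far 5 6))) (.split (.split (.fin (.split (.split (.split .big (.deg 2)) (.deg 4)) (.deg 7))) (.fin (.split (.split (.split (.split .big (.deg 2)) (.deg 4)) (.deg 6)) (.split (.split (.split (.iso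 48 [0,1,7,3,2,4,5,6] [0,1,4,3,5,6,7,2]) (.deg 2)) (.deg 4)) (.deg 6))))) (.far 4 5))) (.far 2 3))

theorem ok44 : chkA tbl q44 c44 q44.rt [] [] = true := by decide +kernel

def c45 : CA := .split (.split (.split (.split (.split (.fin (.split .big (.deg 7))) (.fin (.split (.split .big (.iso 47 [0,1,6,2,3,4,5,7] [0,1,3,4,5,6,2,7])) (.deg 7)))) (.split (.fin (.split (.split .big (.iso 52 [1,0,5,3,2,7,4,6] [1,0,4,3,6,2,7,5])) (.deg 7))) (.far 5 6))) (.split (.split (.fin (.split (.split .big (.iso 52 [0,1,4,2,3,7,5,6] [0,1,3,4,2,6,7,5])) (.deg 7))) (.far 4 6)) (.far 4 5))) (.split (.split (.split (.fin (.split (.split .big (.deg 3)) (.deg 7))) (.fin (.split (.split (.split .big (.deg 3)) (.split (.iso 48 [0,1,6,2,4,5,3,7] [0,1,3,6,4,5,2,7]) (.deg 3))) (.deg 7)))) (.far 3 5)) (.split (.split (.fin (.split (.split (.split .big (.deg 3)) (.split (.iso 51 [0,1,4,2,3,5,7,6] [0,1,3,4,2,5,7,6]) (.deg 3))) (.deg 7))) (.far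 4 6)) (.far 4 5)))) (.split (.split (.split (.split (.fin (.split (.split .big (.deg 2)) (.deg 7))) (.fin (.split (.split (.split .big (.deg 2)) (.split (.iso 48 [1,0,6,3,5,4,2,7] [1,0,6,3,5,4,2,7]) (.deg 2))) (.deg 7)))) (.split (.fin (.split (.split (.split .big (.deg 2)) (.split (.iso 51 [1,0,5,3,2,4,7,6] [1,0,4,3,5,2,7,6]) (.deg 2))) (.deg 7))) (.far 5 6))) (.far 2 4)) (.split (.split (.split (.fin (.split (.split (.split .big (.deg 2)) (.deg 3)) (.deg 7))) (.fin (.split (.split (.split (.split .big (.deg 2)) (.deg 3)) (.split (.split (.iso 49 [0,1,6,4,5,2,3,7] [0,1,5,6,3,4,2,7]) (.deg 2)) (.deg 3))) (.split (.split (.split (.iso 49 [0,1,7,2,3,4,5,6] [0,1,3,4,5,6,7,2]) (.deg 2)) (.deg 3)) (.split (.split (.iso 46 [0,1,6,7,4,2,5,3] [0,1,5,7,4,6,2,3]) (.deg 2)) (.deg 3)))))) (.far 3 5)) (.far 2 4)))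

theorem ok45 : chkA tbl q45 c45 q45.rt [] [] = true := by decide +kernel

def c46 : CA := .split (.split (.split (.split (.fin (.split (.iso 55 [0,1,2,3,4,5,6,7,8] [0,1,2,3,4,5,6,7,8]) (.deg 8))) (.fin (.split (.split (.iso 54 [0,2,1,3,4,5,6,7,8] [0,2,1,3,4,5,6,7,8]) (.iso 60 [7,1,3,0,2,8,6,5,4] [3,1,4,2,8,7,6,0,5])) (.deg 8)))) (.split (.fin (.split (.split (.iso 54 [0,3,1,2,5,4,7,6,8] [0,2,3,1,5,4,7,6,8]) (.iso 60 [6,1,2,0,3,8,7,4,5] [3,1,2,4,7,8,0,6,5])) (.deg 8))) (.far 6 7))) (.split (.split (.fin (.split (.split (.iso 54 [1,2,0,3,6,7,4,5,8] [2,0,1,3,6,7,4,5,8]) (.iso 60 [5,0,3,1,2,8,4,7,6] [1,3,4,2,6,0,8,7,5])) (.deg 8))) (.far 5 7)) (.split (.fin (.split (.split (.split (.iso 56 [0,1,2,3,4,5,7,6,8] [0,1,2,3,4,5,7,6,8]) (.iso 61 [5,0,3,1,2,4,7,6,8] [1,3,4,2,5,0,7,6,8])) (.split (.iso 61 [6,1,2,0,3,7,4,5,8] [3,1,2,4,6,7,0,5,8]) (.clo 0 1 (.pet [[0],[1],[6],[2],[4],[5],[7],[8],[3],[9]])))) (.deg 8))) (.far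 6 7)))) (.split (.split (.split (.fin (.split (.split (.iso 54 [1,3,0,2,7,6,5,4,8] [2,0,3,1,7,6,5,4,8]) (.iso 60 [4,0,2,1,3,8,5,6,7] [1,3,2,4,0,6,7,8,5])) (.deg 8))) (.fin (.split (.split (.split (.iso 56 [0,1,3,2,5,4,6,7,8] [0,1,3,2,5,4,6,7,8]) (.iso 61 [4,0,2,1,3,5,6,7,8] [1,3,2,4,0,5,6,7,8])) (.split (.iso 61 [7,1,3,0,2,6,5,4,8] [3,1,4,2,7,6,5,0,8]) (.clo 0 1 (.pet [[0],[1],[6],[2],[4],[5],[7],[9],[3],[8]])))) (.deg 8)))) (.far 4 6)) (.far 4 5))

theorem ok46 : chkA tbl q46 c46 q46.rt [] [] = true := by decide +kernel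

def c47 : CA := .split (.split (.split (.split (.split (.fin (.split .big (.deg 8))) (.fin (.split (.split .big (.deg 7)) (.deg 8)))) (.split (.fin (.split (.split .big (.iso 62 [1,6,0,2,4,8,3,5,7] [2,0,3,6,4,7,1,8,5])) (.deg 8))) (.far 6 7))) (.split (.split (.fin (.split (.split .big (.iso 62 [0,5,1,2,3,8,4,6,7] [0,2,3,4,6,1,7,8,5])) (.deg 8))) (.far 5 7)) (.far 5 6))) (.split (.split (.split (.fin (.split (.split .big (.deg 4)) (.deg 8))) (.fin (.split (.split (.split .big (.deg 4)) (.deg 7)) (.deg 8)))) (.far 4 6)) (.split (.split (.fin (.split (.split (.split .big (.deg 4)) (.split (.iso 66 [0,5,2,1,3,7,6,8,4] [0,3,2,4,8,1,6,5,7]) (.deg 4))) (.deg 8))) (.far 5 7)) (.far 5 6)))) (.split (.split (.split (.split (.fin (.split (.split .big (.deg 3)) (.deg 8))) (.fin (.split (.split (.split .big (.deg 3)) (.deg 7)) (.deg 8)))) (.split (.fin (.split (.split (.split .big (.deg 3)) (.split (.iso 66 [1,6,2,0,4,7,5,8,3]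 [3,0,2,8,4,6,1,5,7]) (.deg 3))) (.deg 8))) (.far 6 7))) (.far 3 5)) (.split (.split (.split (.fin (.split (.split (.split .big (.deg 3)) (.deg 4)) (.deg 8))) (.fin (.split (.split (.split (.split .big (.deg 3)) (.deg 4)) (.deg 7)) (.split (.split (.split (.red [2,1,0,2,2,2,2,1,0,0,2] [0,1,3,4,5] [2]) (.deg 3)) (.deg 4)) (.deg 7))))) (.far 4 6)) (.far 3 5)))

theorem ok47 : chkA tbl q47 c47 q47.rt [] [] = true := by decide +kernel

def c48 : CA := .split (.split (.split (.split (.split (.fin (.split .big (.deg 8))) (.fin (.split (.split .big (.iso 53 [0,7,1,2,3,4,5,6,8] [0,2,3,4,5,6,7,1,8])) (.deg 8)))) (.split (.fin (.split (.split .big (.iso 57 [1,0,6,2,3,5,4,7,8] [1,0,3,4,6,5,2,7,8])) (.deg 8))) (.far 6 7))) (.split (.split (.fin (.split (.split .big (.iso 66 [5,1,0,2,8,3,4,6,7] [2,1,3,5,6,0,7,8,4])) (.deg 8))) (.far 5 7)) (.far 5 6))) (.split (.split (.split (.fin (.split (.split .big (.iso 63 [0,4,1,2,3,8,5,6,7]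 [0,2,3,4,1,6,7,8,5])) (.deg 8))) (.far 4 7)) (.split (.fin (.split (.split (.split .big (.iso 67 [0,4,2,1,3,5,8,7,6] [0,3,2,4,1,5,8,7,6])) (.split (.iso 58 [1,0,6,2,3,5,4,7,8] [1,0,3,4,6,5,2,7,8]) (.iso 60 [0,1,4,6,2,3,5,8,7] [0,1,4,5,2,6,3,8,7]))) (.deg 8))) (.far 6 7))) (.far 4 5))) (.split (.split (.split (.split (.fin (.split (.split .big (.deg 3)) (.deg 8))) (.fin (.split (.split (.split .big (.deg 3)) (.split (.red [2,1,2,2,2,2,2,2,2,1,2] [0,2,3,4,5] [1]) (.deg 3))) (.deg 8)))) (.split (.fin (.split (.split (.split .big (.deg 3)) (.split (.red [2,0,2,1,1,2,0,0,0,0,0] [1,2,3,4,5] [0]) (.deg 3))) (.deg 8))) (.far 6 7))) (.split (.split (.fin (.split (.split (.split .big (.deg 3)) (.split (.iso 64 [1,5,0,2,4,6,8,3,7] [2,0,3,7,4,1,5,8,6]) (.deg 3))) (.deg 8))) (.far 5 7)) (.far 5 6))) (.far 3 4))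

theorem ok48 : chkA tbl q48 c48 q48.rt [] [] = true := by decide +kernel

def c49 : CA := .split (.split (.split (.split (.split (.fin (.split .big (.deg 8))) (.fin (.split (.split .big (.red [2,0,0,0,0,0,0,0,0,0,0] [0,2,3,4,5] [1])) (.deg 8)))) (.split (.fin (.split (.split .big (.iso 58 [1,6,0,2,8,4,7,3,5] [2,0,3,7,5,8,1,6,4])) (.deg 8))) (.far 6 7))) (.split (.split (.fin (.split (.split .big (.iso 58 [0,5,1,2,8,3,7,4,6] [0,2,3,5,7,1,8,6,4])) (.deg 8))) (.far 5 7)) (.far 5 6))) (.split (.split (.split (.fin (.split (.split .big (.iso 67 [4,1,0,2,8,3,6,5,7] [2,1,3,5,0,7,6,8,4])) (.deg 8))) (.far 4 7)) (.far 4 6)) (.split (.split (.fin (.split (.split (.split .big (.iso 65 [1,4,0,2,3,6,8,5,7] [2,0,3,4,1,7,5,8,6])) (.split (.iso 59 [0,1,5,2,3,4,7,6,8] [0,1,3,4,5,2,7,6,8]) (.iso 61 [1,0,4,5,2,3,8,7,6] [1,0,4,5,2,3,8,7,6]))) (.deg 8))) (.far 5 7)) (.far 5 6)))) (.split (.split (.split (.split (.fin (.split (.split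 .big (.iso 67 [3,0,1,2,8,4,5,6,7] [1,2,3,0,5,6,7,8,4])) (.deg 8))) (.far 3 7)) (.split (.fin (.split (.split (.split .big (.iso 65 [0,3,1,2,4,5,8,6,7] [0,2,3,1,4,5,7,8,6])) (.split (.iso 59 [1,0,6,2,4,3,7,5,8] [1,0,3,5,4,7,2,6,8]) (.iso 61 [0,1,3,6,2,4,8,7,5] [0,1,4,2,5,8,3,7,6]))) (.deg 8))) (.far 6 7))) (.far 3 5)) (.far 3 4))

theorem ok49 : chkA tbl q49 c49 q49.rt [] [] = true := by decide +kernel

def c50 : CA := .split (.split (.split (.split (.split (.fin (.split .big (.deg 8))) (.fin (.split (.split .big (.deg 7)) (.deg 8)))) (.split (.fin (.split (.split .big (.deg 6)) (.deg 8))) (.far 6 7))) (.split (.split (.fin (.split (.split .big (.deg 5)) (.deg 8))) (.fin (.split (.split (.split .big (.deg 5)) (.deg 7)) (.deg 8)))) (.split (.fin (.split (.split (.split .big (.deg 5)) (.deg 6)) (.deg 8))) (.far 6 7)))) (.split (.split (.split (.fin (.split (.split .big (.deg 4)) (.deg 8))) (.fin (.split (.split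 (.split .big (.deg 4)) (.deg 7)) (.deg 8)))) (.split (.fin (.split (.split (.split .big (.deg 4)) (.deg 6)) (.deg 8))) (.far 6 7))) (.far 4 5))) (.split (.split (.split (.split (.fin (.split (.split .big (.deg 3)) (.deg 8))) (.fin (.split (.split (.split .big (.deg 3)) (.deg 7)) (.deg 8)))) (.split (.fin (.split (.split (.split .big (.deg 3)) (.deg 6)) (.deg 8))) (.far 6 7))) (.split (.split (.fin (.split (.split (.split .big (.deg 3)) (.deg 5)) (.deg 8))) (.fin (.split (.split (.split (.split .big (.deg 3)) (.deg 5)) (.deg 7)) (.split (.split (.split (.iso 57 [0,1,2,8,4,3,5,7,6] [0,1,2,5,4,6,8,7,3]) (.deg 3)) (.deg 5)) (.deg 7))))) (.split (.fin (.split (.split (.split (.split .big (.deg 3)) (.deg 5)) (.deg 6)) (.split (.split (.split (.iso 57 [0,1,2,8,4,3,5,6,7] [0,1,2,5,4,6,7,8,3]) (.deg 3)) (.deg 5)) (.deg 6)))) (.far 6 7)))) (.split (.split (.split (.fin (.split (.split (.split .big (.deg 3)) (.deg 4)) (.deg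 8))) (.fin (.split (.split (.split (.split .big (.deg 3)) (.deg 4)) (.deg 7)) (.split (.split (.split (.iso 57 [0,1,2,8,5,3,4,7,6] [0,1,2,5,6,4,8,7,3]) (.deg 3)) (.deg 4)) (.deg 7))))) (.split (.fin (.split (.split (.split (.split .big (.deg 3)) (.deg 4)) (.deg 6)) (.split (.split (.split (.iso 57 [0,1,2,8,5,3,4,6,7] [0,1,2,5,6,4,7,8,3]) (.deg 3)) (.deg 4)) (.deg 6)))) (.far 6 7))) (.far 4 5)))

theorem ok50 : chkA tbl q50 c50 q50.rt [] [] = true := by decide +kernel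

def c51 : CA := .split (.split (.split (.split (.split (.fin (.split .big (.deg 8))) (.fin (.split (.split .big (.iso 66 [0,2,7,1,3,8,5,6,4] [0,3,1,4,8,6,7,2,5])) (.deg 8)))) (.split (.fin (.split (.split .big (.iso 66 [0,2,6,1,3,8,4,7,5] [0,3,1,4,6,8,2,7,5])) (.deg 8))) (.far 6 7))) (.split (.split (.fin (.split (.split .big (.iso 66 [0,1,5,2,3,8,7,4,6] [0,1,3,4,7,2,8,6,5])) (.deg 8))) (.far 5 7)) (.split (.fin (.split (.split (.split .big (.iso 67 [0,1,5,2,3,7,4,8,6] [0,1,3,4,6,2,8,5,7])) (.split (.iso 67 [0,2,6,1,3,4,7,8,5] [0,3,1,4,5,8,2,6,7]) (.iso 60 [0,1,2,5,6,3,4,7,8] [0,1,2,5,6,3,4,7,8]))) (.deg 8))) (.far 6 7)))) (.split (.split (.split (.fin (.split (.split .big (.iso 66 [0,1,4,2,3,8,6,5,7] [0,1,3,4,2,7,6,8,5])) (.deg 8))) (.fin (.split (.split (.split .big (.iso 67 [0,1,4,2,3,6,5,8,7] [0,1,3,4,2,6,5,8,7])) (.split (.iso 67 [0,2,7,1,3,5,6,8,4] [0,3,1,4,8,5,6,2,7]) (.iso 60 [0,1,2,4,7,3,5,6,8] [0,1,2,5,3,6,7,4,8])))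 (.deg 8)))) (.far 4 6)) (.far 4 5))) (.split (.split (.split (.split (.fin (.split (.split .big (.deg 3)) (.deg 8))) (.fin (.split (.split (.split .big (.deg 3)) (.split (.iso 64 [0,2,1,7,5,3,6,4,8] [0,2,1,5,7,4,6,3,8]) (.deg 3))) (.deg 8)))) (.split (.fin (.split (.split (.split .big (.deg 3)) (.split (.iso 64 [0,2,1,6,4,3,7,5,8] [0,2,1,5,4,7,3,6,8]) (.deg 3))) (.deg 8))) (.far 6 7))) (.split (.split (.fin (.split (.split (.split .big (.deg 3)) (.split (.iso 64 [0,1,2,5,7,3,4,6,8] [0,1,2,5,6,3,7,4,8]) (.deg 3))) (.deg 8))) (.far 5 7)) (.split (.fin (.split (.split (.split (.split .big (.deg 3)) (.split (.iso 65 [0,1,2,5,7,3,4,6,8] [0,1,2,5,6,3,7,4,8]) (.deg 3))) (.split (.split (.iso 65 [0,2,1,6,4,3,7,5,8] [0,2,1,5,4,7,3,6,8]) (.deg 3)) (.split (.iso 61 [0,1,2,5,6,4,7,8,3] [0,1,2,8,5,3,4,6,7]) (.deg 3)))) (.split (.split (.split (.iso 59 [0,1,2,8,3,5,6,4,7] [0,1,2,4,7,5,6,8,3]) (.deg 3)) (.split (.iso 61 [1,0,5,2,8,3,7,6,4]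 [1,0,3,5,8,2,7,6,4]) (.deg 3))) (.split (.split (.iso 61 [2,0,6,1,8,3,4,5,7] [1,3,0,5,6,7,2,8,4]) (.deg 3)) (.split (.clo 0 1 (.pet [[0],[1],[4],[6],[2],[3],[5],[9],[8],[7]])) (.deg 3)))))) (.far 6 7)))) (.split (.split (.split (.fin (.split (.split (.split .big (.deg 3)) (.split (.iso 64 [0,1,2,4,6,3,5,7,8] [0,1,2,5,3,6,4,7,8]) (.deg 3))) (.deg 8))) (.fin (.split (.split (.split (.split .big (.deg 3)) (.split (.iso 65 [0,1,2,4,6,3,5,7,8] [0,1,2,5,3,6,4,7,8]) (.deg 3))) (.split (.split (.iso 65 [0,2,1,7,5,3,6,4,8] [0,2,1,5,7,4,6,3,8]) (.deg 3)) (.split (.iso 61 [0,1,2,4,7,5,6,8,3] [0,1,2,8,3,5,6,4,7]) (.deg 3)))) (.split (.split (.split (.iso 59 [0,1,2,8,3,4,7,5,6] [0,1,2,4,5,7,8,6,3]) (.deg 3)) (.split (.iso 61 [1,0,4,2,8,3,6,7,5] [1,0,3,5,2,8,6,7,4]) (.deg 3))) (.split (.split (.iso 61 [2,0,7,1,8,3,5,4,6] [1,3,0,5,7,6,8,2,4]) (.deg 3)) (.split (.clo 0 1 (.pet [[0],[1],[4],[6],[2],[3],[5],[8],[9],[7]])) (.deg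 3))))))) (.far 4 6)) (.far 4 5)))

theorem ok51 : chkA tbl q51 c51 q51.rt [] [] = true := by decide +kernel

def c52 : CA := .split (.split (.split (.split (.split (.fin (.split .big (.deg 8))) (.fin (.split (.split .big (.iso 62 [0,2,1,7,3,5,4,6,8] [0,2,1,4,6,5,7,3,8])) (.deg 8)))) (.split (.fin (.split (.split .big (.iso 62 [0,1,2,6,3,4,5,7,8] [0,1,2,4,5,6,3,7,8])) (.deg 8))) (.far 6 7))) (.split (.split (.fin (.split (.split .big (.deg 5)) (.deg 8))) (.far 5 7)) (.split (.fin (.split (.split (.split .big (.deg 5)) (.split (.iso 63 [0,1,2,6,3,4,7,5,8] [0,1,2,4,5,7,3,6,8]) (.deg 5))) (.deg 8))) (.far 6 7)))) (.split (.split (.split (.fin (.split (.split .big (.deg 4)) (.deg 8))) (.fin (.split (.split (.split .big (.deg 4)) (.split (.iso 63 [0,2,1,7,3,5,6,4,8] [0,2,1,4,7,5,6,3,8]) (.deg 4))) (.deg 8)))) (.far 4 6)) (.split (.split (.fin (.split (.split (.split .big (.deg 4)) (.deg 5)) (.deg 8))) (.far 5 7)) (.far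 4 6)))) (.split (.split (.split (.split (.fin (.split (.split .big (.deg 3)) (.deg 8))) (.fin (.split (.split (.split .big (.deg 3)) (.split (.iso 66 [2,0,1,7,5,4,6,3,8] [1,2,0,7,5,4,6,3,8]) (.deg 3))) (.deg 8)))) (.split (.fin (.split (.split (.split .big (.deg 3)) (.split (.iso 66 [1,0,2,6,4,5,7,3,8] [1,0,2,7,4,5,3,6,8]) (.deg 3))) (.deg 8))) (.far 6 7))) (.split (.split (.fin (.split (.split (.split .big (.deg 3)) (.deg 5)) (.deg 8))) (.far 5 7)) (.split (.fin (.split (.split (.split (.split .big (.deg 3)) (.deg 5)) (.split (.split (.iso 67 [1,0,2,6,4,7,3,5,8] [1,0,2,6,4,7,3,5,8]) (.deg 3)) (.deg 5))) (.split (.split (.split (.iso 58 [0,1,2,8,4,3,6,5,7] [0,1,2,5,4,7,6,8,3]) (.deg 3)) (.deg 5)) (.split (.split (.iso 60 [1,0,6,2,8,4,3,7,5] [1,0,3,6,5,8,2,7,4]) (.deg 3)) (.deg 5))))) (.far 6 7)))) (.split (.split (.split (.fin (.split (.split (.split .big (.deg 3)) (.deg 4)) (.deg 8))) (.fin (.split (.split (.split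 (.split .big (.deg 3)) (.deg 4)) (.split (.split (.iso 67 [2,0,1,7,5,6,3,4,8] [1,2,0,6,7,4,5,3,8]) (.deg 3)) (.deg 4))) (.split (.split (.split (.iso 58 [0,2,1,8,5,3,7,4,6] [0,2,1,5,7,4,8,6,3]) (.deg 3)) (.deg 4)) (.split (.split (.iso 60 [2,0,7,1,8,5,3,6,4] [1,3,0,6,8,5,7,2,4]) (.deg 3)) (.deg 4)))))) (.far 4 6)) (.split (.split (.fin (.split (.split (.split (.split .big (.deg 3)) (.deg 4)) (.deg 5)) (.split (.split (.split (.red [2,0,1,2,0,0,0,0,0,1,2] [0,1,3,4,5] [2]) (.deg 3)) (.deg 4)) (.deg 5)))) (.far 5 7)) (.far 4 6))))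

theorem ok52 : chkA tbl q52 c52 q52.rt [] [] = true := by decide +kernel

def c53 : CA := .split (.split (.split (.split (.split (.fin (.split .big (.deg 9))) (.fin (.split (.split .big (.deg 8)) (.deg 9)))) (.split (.fin (.split (.split .big (.iso 110 [7,1,2,0,3,9,8,6,5,4] [3,1,2,4,9,8,7,0,6,5])) (.deg 9))) (.far 7 8))) (.split (.split (.fin (.split (.split .big (.iso 95 [6,2,3,0,1,9,7,8,5,4] [3,4,1,2,9,8,0,6,7,5])) (.deg 9))) (.fin (.split (.split (.split .big (.iso 98 [6,2,3,0,1,5,4,7,9,8] [3,4,1,2,6,5,0,7,9,8])) (.deg 8)) (.deg 9)))) (.far 6 7))) (.split (.split (.split (.fin (.split (.split .big (.iso 110 [5,0,3,1,2,9,4,6,7,8] [1,3,4,2,6,0,7,8,9,5])) (.deg 9))) (.fin (.split (.split (.split .big (.red [1,0,0,2,2,2,1,0,0,0,0,0] [0,1,2,3,4] [5])) (.deg 8)) (.deg 9)))) (.split (.fin (.split (.split (.split .big (.red [1,2,2,2,2,2,1,1,2,0,2,1] [0,1,2,3,4] [5])) (.split (.red [2,1,0,1,2,1,2,2,2,2,1,2] [0,1,2,4,5]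 [3]) (.red [1,2,2,2,2,2,1,1,2,0,2,1] [0,1,2,4] [3,5]))) (.deg 9))) (.far 7 8))) (.far 5 6))) (.split (.split (.split (.split (.fin (.split (.split .big (.deg 4)) (.deg 9))) (.fin (.split (.split (.split .big (.deg 4)) (.deg 8)) (.deg 9)))) (.split (.fin (.split (.split (.split .big (.deg 4)) (.split (.red [0,1,0,0,0,1,2,2,2,0,0,0] [0,1,2,4,5] [3]) (.deg 4))) (.deg 9))) (.far 7 8))) (.split (.split (.fin (.split (.split (.split .big (.deg 4)) (.split (.iso 98 [6,3,2,1,0,7,8,5,9,4] [4,3,2,1,9,7,0,5,6,8]) (.deg 4))) (.deg 9))) (.fin (.split (.split (.split (.split .big (.deg 4)) (.split (.red [0,0,0,0,0,2,0,0,0,0,0,0,0] [1,2,3,4,5] [0]) (.deg 4))) (.deg 8)) (.split (.split (.split (.red [2,2,1,2,2,2,2,2,2,1,2,0,2] [0,2,3,4,5] [1]) (.deg 4)) (.split (.red [0,0,0,0,0,2,0,0,0,0,0,0,0] [2,3,4,5] [0,1]) (.deg 4))) (.deg 8))))) (.far 6 7))) (.far 4 5))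

theorem ok53 : chkA tbl q53 c53 q53.rt [] [] = true := by decide +kernel

def c54 : CA := .split (.split (.split (.split (.split (.fin (.split .big (.deg 9))) (.fin (.split (.split .big (.deg 8)) (.deg 9)))) (.split (.fin (.split (.split .big (.red [2,2,2,2,2,2,2,2,1,1,2,0] [0,2,3,4,5] [1])) (.deg 9))) (.far 7 8))) (.split (.split (.fin (.split (.split .big (.iso 111 [6,1,2,0,3,9,4,5,7,8] [3,1,2,4,6,7,0,8,9,5])) (.deg 9))) (.fin (.split (.split (.split .big (.iso 114 [6,1,2,0,3,4,5,7,9,8] [3,1,2,4,5,6,0,7,9,8])) (.deg 8)) (.deg 9)))) (.far 6 7))) (.split (.split (.split (.fin (.split (.split .big (.iso 111 [5,0,3,1,2,9,4,6,7,8] [1,3,4,2,6,0,7,8,9,5])) (.deg 9))) (.fin (.split (.split (.split .big (.iso 114 [5,0,3,1,2,4,6,7,9,8] [1,3,4,2,5,0,6,7,9,8])) (.deg 8)) (.deg 9)))) (.far 5 7)) (.split (.split (.fin (.split (.split (.split .big (.iso 112 [5,0,3,1,2,4,7,6,9,8] [1,3,4,2,5,0,7,6,9,8])) (.split (.iso 112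 [6,1,2,0,3,4,7,5,9,8] [3,1,2,4,5,7,0,6,9,8]) (.sep [0,1,2,3,5,6] [4,7,9] 0 1 8))) (.deg 9))) (.fin (.split (.split (.split (.split .big (.iso 113 [5,0,3,1,2,4,7,6,9,8] [1,3,4,2,5,0,7,6,9,8])) (.split (.iso 113 [6,1,2,0,3,4,7,5,9,8] [3,1,2,4,5,7,0,6,9,8]) (.sep [0,1,2,3,5,6] [4,7,9] 0 1 8))) (.deg 8)) (.split (.split (.split (.iso 68 [0,1,2,3,4,5,6,7,9,8] [0,1,2,3,4,5,6,7,9,8]) (.iso 88 [5,0,3,9,1,2,4,6,7,8] [1,4,5,2,6,0,7,8,9,3])) (.split (.iso 88 [6,1,2,9,0,3,4,5,7,8] [4,1,2,5,6,7,0,8,9,3]) (.clo 0 1 (.pet [[0],[2],[6],[1],[4],[5],[7],[8,9],[3],[10]])))) (.deg 8))))) (.far 6 7)))) (.split (.split (.split (.split (.fin (.split (.split .big (.iso 96 [4,0,1,2,3,9,5,6,7,8] [1,2,3,4,0,6,7,8,9,5])) (.deg 9))) (.fin (.split (.split (.split .big (.iso 100 [4,0,1,2,3,5,6,7,9,8] [1,2,3,4,0,5,6,7,9,8])) (.deg 8)) (.deg 9)))) (.split (.fin (.split (.split (.split .big (.red [2,2,2,2,2,2,2,2,1,1,0,0,2] [0,1,2,3,5] [4]))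 (.split (.red [2,2,2,2,2,2,2,2,1,1,2,0,0] [0,2,3,4,5] [1]) (.red [0,0,2,0,0,0,0,0,0,0,0,0,0] [0,2,3,5] [1,4]))) (.deg 9))) (.far 7 8))) (.far 4 6)) (.far 4 5))

theorem ok54 : chkA tbl q54 c54 q54.rt [] [] = true := by decide +kernel

def c55 : CA := .split (.split (.split (.split (.split (.fin (.split .big (.deg 9))) (.fin (.split (.split .big (.deg 8)) (.deg 9)))) (.split (.fin (.split (.split .big (.iso 93 [7,1,3,0,2,9,6,5,4,8] [3,1,4,2,8,7,6,0,9,5])) (.deg 9))) (.fin (.split (.split (.split .big (.iso 99 [7,1,3,0,2,6,5,4,9,8] [3,1,4,2,7,6,5,0,9,8])) (.deg 8)) (.deg 9))))) (.split (.split (.fin (.split (.split .big (.iso 93 [6,1,2,0,3,9,7,4,5,8] [3,1,2,4,7,8,0,6,9,5])) (.deg 9))) (.fin (.split (.split (.split .big (.iso 99 [6,1,2,0,3,7,4,5,9,8] [3,1,2,4,6,7,0,5,9,8])) (.deg 8)) (.deg 9)))) (.far 6 7))) (.split (.split (.split (.fin (.split (.split .big (.iso 93 [5,0,3,1,2,9,4,7,6,8] [1,3,4,2,6,0,8,7,9,5]))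 (.deg 9))) (.fin (.split (.split (.split .big (.iso 99 [5,0,3,1,2,4,7,6,9,8] [1,3,4,2,5,0,7,6,9,8])) (.deg 8)) (.deg 9)))) (.far 5 7)) (.split (.split (.fin (.split (.split (.split .big (.iso 94 [5,0,3,1,2,4,7,6,8,9] [1,3,4,2,5,0,7,6,8,9])) (.split (.iso 94 [6,1,2,0,3,7,4,5,8,9] [3,1,2,4,6,7,0,5,8,9]) (.sep [0,1,2,3,5,6] [4,7,9] 0 1 8))) (.deg 9))) (.fin (.split (.split (.split (.split .big (.iso 101 [5,0,3,1,2,4,7,6,9,8] [1,3,4,2,5,0,7,6,9,8])) (.split (.iso 101 [6,1,2,0,3,7,4,5,9,8] [3,1,2,4,6,7,0,5,9,8]) (.sep [0,1,2,3,5,6] [4,7,9] 0 1 8))) (.deg 8)) (.split (.split (.split (.iso 72 [0,1,2,3,4,5,7,6,9,8] [0,1,2,3,4,5,7,6,9,8]) (.iso 78 [5,0,3,9,1,2,4,7,6,8] [1,4,5,2,6,0,8,7,9,3])) (.split (.iso 78 [6,1,2,9,0,3,7,4,5,8] [4,1,2,5,7,8,0,6,9,3]) (.clo 0 1 (.deg 8)))) (.deg 8))))) (.far 6 7)))) (.split (.split (.split (.split (.fin (.split (.split .big (.iso 93 [4,0,2,1,3,9,5,6,7,8] [1,3,2,4,0,6,7,8,9,5])) (.deg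 9))) (.fin (.split (.split (.split .big (.iso 99 [4,0,2,1,3,5,6,7,9,8] [1,3,2,4,0,5,6,7,9,8])) (.deg 8)) (.deg 9)))) (.split (.fin (.split (.split (.split .big (.iso 94 [4,0,2,1,3,5,6,7,8,9] [1,3,2,4,0,5,6,7,8,9])) (.split (.iso 94 [7,1,3,0,2,6,5,4,8,9] [3,1,4,2,7,6,5,0,8,9]) (.sep [0,1,2,3,4,7] [5,6,9] 0 1 8))) (.deg 9))) (.fin (.split (.split (.split (.split .big (.iso 101 [4,0,2,1,3,5,6,7,9,8] [1,3,2,4,0,5,6,7,9,8])) (.split (.iso 101 [7,1,3,0,2,6,5,4,9,8] [3,1,4,2,7,6,5,0,9,8]) (.sep [0,1,2,3,4,7] [5,6,9] 0 1 8))) (.deg 8)) (.split (.split (.split (.iso 72 [0,1,3,2,5,4,6,7,9,8] [0,1,3,2,5,4,6,7,9,8]) (.iso 78 [4,0,2,9,1,3,5,6,7,8] [1,4,2,5,0,6,7,8,9,3])) (.split (.iso 78 [7,1,3,9,0,2,6,5,4,8] [4,1,5,2,8,7,6,0,9,3]) (.clo 0 1 (.deg 8)))) (.deg 8)))))) (.far 4 6)) (.far 4 5))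

theorem ok55 : chkA tbl q55 c55 q55.rt [] [] = true := by decide +kernel

def c56 : CA := .split (.split (.split (.split (.split (.fin (.split .big (.deg 9))) (.fin (.split (.split .big (.iso 72 [0,1,2,3,4,5,6,7,8,9] [0,1,2,3,4,5,6,7,8,9])) (.deg 9)))) (.split (.fin (.split (.split .big (.red [2,2,2,2,2,2,2,2,1,1,0,0,2] [0,1,2,4,5] [3])) (.deg 9))) (.far 7 8))) (.split (.split (.fin (.split (.split .big (.iso 97 [6,1,3,0,2,9,7,4,5,8] [3,1,4,2,7,8,0,6,9,5])) (.deg 9))) (.fin (.split (.split (.split .big (.iso 103 [6,1,3,0,2,7,4,5,9,8] [3,1,4,2,6,7,0,5,9,8])) (.split (.iso 68 [0,2,1,3,4,5,7,6,8,9] [0,2,1,3,4,5,7,6,8,9]) (.iso 92 [6,1,3,0,2,9,7,4,5,8] [3,1,4,2,7,8,0,6,9,5]))) (.deg 9)))) (.far 6 7))) (.split (.split (.split (.fin (.split (.split .big (.red [2,2,2,2,1,1,2,2,2,2,0,0,2] [0,1,2,3,4] [5])) (.deg 9))) (.far 5 8)) (.far 5 7)) (.far 5 6))) (.split (.split (.split (.split (.fin (.split (.split .big (.iso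 97 [4,0,2,1,3,9,5,6,7,8] [1,3,2,4,0,6,7,8,9,5])) (.deg 9))) (.fin (.split (.split (.split .big (.iso 103 [4,0,2,1,3,5,6,7,9,8] [1,3,2,4,0,5,6,7,9,8])) (.split (.iso 68 [1,3,0,2,6,7,5,4,8,9] [2,0,3,1,7,6,4,5,8,9]) (.iso 92 [4,0,2,1,3,9,5,6,7,8] [1,3,2,4,0,6,7,8,9,5]))) (.deg 9)))) (.far 4 7)) (.split (.split (.fin (.split (.split (.split .big (.iso 102 [4,0,2,1,3,5,7,6,9,8] [1,3,2,4,0,5,7,6,9,8])) (.split (.iso 102 [6,1,3,0,2,7,5,4,9,8] [3,1,4,2,7,6,0,5,9,8]) (.sep [0,1,2,3,4,6] [5,7,9] 0 1 8))) (.deg 9))) (.pet [[0],[1],[6],[9],[4],[5],[7],[3],[8],[2]])) (.far 6 7))) (.far 4 5))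

theorem ok56 : chkA tbl q56 c56 q56.rt [] [] = true := by decide +kernel

def c57 : CA := .split (.split (.split (.split (.split (.fin (.split .big (.deg 9))) (.fin (.split (.split .big (.deg 8)) (.deg 9)))) (.split (.fin (.split (.split .big (.iso 110 [2,7,0,1,3,8,9,5,6,4] [2,3,0,4,9,7,8,1,5,6])) (.deg 9))) (.far 7 8))) (.split (.split (.fin (.split (.split .big (.iso 110 [1,6,0,2,3,4,9,5,7,8] [2,0,3,4,5,7,1,8,9,6])) (.deg 9))) (.fin (.split (.split (.split .big (.red [2,2,0,2,2,2,2,2,2,1,2,1] [1,2,3,4,5] [0])) (.deg 8)) (.deg 9)))) (.far 6 7))) (.split (.split (.split (.fin (.split (.split .big (.iso 79 [0,5,1,2,3,9,4,6,7,8] [0,2,3,4,6,1,7,8,9,5])) (.deg 9))) (.fin (.split (.split (.split .big (.iso 82 [0,5,1,2,3,4,6,7,9,8] [0,2,3,4,5,1,6,7,9,8])) (.deg 8)) (.deg 9)))) (.far 5 7)) (.far 5 6))) (.split (.split (.split (.split (.fin (.split (.split .big (.deg 4)) (.deg 9))) (.fin (.split (.split (.split .big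 (.deg 4)) (.deg 8)) (.deg 9)))) (.split (.fin (.split (.split (.split .big (.deg 4)) (.split (.red [2,2,1,2,2,2,2,2,2,0,1,2] [0,2,3,4,5] [1]) (.deg 4))) (.deg 9))) (.far 7 8))) (.far 4 6)) (.split (.split (.split (.fin (.split (.split (.split .big (.deg 4)) (.split (.iso 82 [0,5,2,1,3,8,7,6,9,4] [0,3,2,4,9,1,7,6,5,8]) (.deg 4))) (.deg 9))) (.fin (.split (.split (.split (.split .big (.deg 4)) (.split (.iso 85 [0,5,1,2,3,6,7,4,8,9] [0,2,3,4,7,1,5,6,8,9]) (.deg 4))) (.deg 8)) (.split (.split (.split (.iso 74 [0,1,2,3,6,4,5,7,8,9] [0,1,2,3,5,6,4,7,8,9]) (.deg 4)) (.split (.iso 76 [0,5,1,2,3,9,6,4,7,8] [0,2,3,4,7,1,6,8,9,5]) (.deg 4))) (.deg 8))))) (.far 5 7)) (.far 5 6)))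

theorem ok57 : chkA tbl q57 c57 q57.rt [] [] = true := by decide +kernel

def c58 : CA := .split (.split (.split (.split (.split (.fin (.split .big (.deg 9))) (.fin (.split (.split .big (.iso 89 [0,2,1,8,3,5,7,6,4,9] [0,2,1,4,8,5,7,6,3,9])) (.deg 9)))) (.split (.fin (.split (.split .big (.red [2,2,0,1,2,1,2,2,1,1,2,2] [0,2,3,4,5] [1])) (.deg 9))) (.far 7 8))) (.split (.split (.fin (.split (.split .big (.red [2,0,0,0,0,0,0,0,0,0,0,0] [1,2,3,4,5] [0])) (.deg 9))) (.far 6 8)) (.far 6 7))) (.split (.split (.split (.fin (.split (.split .big (.iso 80 [0,5,1,2,3,9,4,6,7,8] [0,2,3,4,6,1,7,8,9,5])) (.deg 9))) (.fin (.split (.split (.split .big (.iso 83 [0,5,1,2,3,4,6,7,9,8] [0,2,3,4,5,1,6,7,9,8])) (.split (.iso 117 [2,0,1,8,3,7,5,6,4,9] [1,2,0,4,8,6,7,5,3,9]) (.iso 78 [0,2,5,1,8,3,7,9,6,4] [0,3,1,5,9,2,8,6,4,7]))) (.deg 9)))) (.far 5 7)) (.far 5 6))) (.split (.split (.split (.split (.fin (.split (.split .big (.deg 4))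 (.deg 9))) (.fin (.split (.split (.split .big (.deg 4)) (.split (.iso 90 [0,2,1,8,3,5,7,6,4,9] [0,2,1,4,8,5,7,6,3,9]) (.deg 4))) (.deg 9)))) (.split (.fin (.split (.split (.split .big (.deg 4)) (.split (.red [0,0,0,0,0,0,0,0,0,0,0,0,2] [0,2,3,4,5] [1]) (.deg 4))) (.deg 9))) (.far 7 8))) (.far 4 6)) (.split (.split (.split (.fin (.split (.split (.split .big (.deg 4)) (.split (.iso 84 [0,5,2,1,3,7,6,9,8,4] [0,3,2,4,9,1,6,5,8,7]) (.deg 4))) (.deg 9))) (.fin (.split (.split (.split (.split .big (.deg 4)) (.split (.iso 86 [0,5,2,1,3,7,6,4,9,8] [0,3,2,4,7,1,6,5,9,8]) (.deg 4))) (.split (.split (.iso 118 [2,0,1,8,3,7,5,6,4,9] [1,2,0,4,8,6,7,5,3,9]) (.deg 4)) (.split (.iso 88 [0,2,5,1,3,8,7,6,9,4] [0,3,1,4,9,2,7,6,5,8]) (.deg 4)))) (.split (.split (.split (.iso 75 [0,1,2,9,4,5,6,8,7,3] [0,1,2,9,4,5,6,8,7,3]) (.deg 4)) (.split (.iso 77 [0,5,1,2,9,3,4,6,7,8] [0,2,3,5,6,1,7,8,9,4]) (.deg 4))) (.split (.split (.iso 92 [2,0,8,1,9,7,5,4,6,3]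 [1,3,0,9,7,6,8,5,2,4]) (.deg 4)) (.split (.clo 0 1 (.pet [[0],[1],[4,10],[7],[2],[5],[6],[9],[3],[8]])) (.deg 4))))))) (.far 5 7)) (.far 5 6)))

theorem ok58 : chkA tbl q58 c58 q58.rt [] [] = true := by decide +kernel

def c59 : CA := .split (.split (.split (.split (.split (.fin (.split .big (.deg 9))) (.fin (.split (.split .big (.iso 117 [0,2,8,1,3,4,6,5,9,7] [0,3,1,4,5,7,6,9,2,8])) (.deg 9)))) (.split (.fin (.split (.split .big (.iso 117 [0,1,7,2,3,4,5,6,9,8] [0,1,3,4,5,6,7,2,9,8])) (.deg 9))) (.fin (.split (.split (.split .big (.iso 118 [0,1,7,2,3,4,5,6,9,8] [0,1,3,4,5,6,7,2,9,8])) (.split (.iso 118 [0,2,8,1,3,4,6,5,9,7] [0,3,1,4,5,7,6,9,2,8]) (.iso 92 [0,1,2,7,8,4,5,9,6,3] [0,1,2,9,5,6,8,3,4,7]))) (.deg 9))))) (.split (.split (.fin (.split (.split .big (.red [0,2,0,0,0,0,0,0,0,0,0,0,0] [1,2,3,4,5] [0])) (.deg 9))) (.far 6 8)) (.far 6 7))) (.split (.split (.split (.fin (.split (.split .big (.red [2,0,0,0,0,0,0,0,0,0,0,0,0]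 [0,1,2,3,4] [5])) (.deg 9))) (.far 5 8)) (.far 5 7)) (.far 5 6))) (.split (.split (.split (.split (.fin (.split (.split .big (.iso 81 [0,4,1,2,3,9,5,6,7,8] [0,2,3,4,1,6,7,8,9,5])) (.deg 9))) (.fin (.split (.split (.split .big (.iso 87 [0,4,1,2,3,6,5,9,7,8] [0,2,3,4,1,6,5,8,9,7])) (.split (.iso 91 [0,2,1,8,3,4,6,5,7,9] [0,2,1,4,5,7,6,8,3,9]) (.iso 88 [0,4,2,1,8,3,9,5,6,7] [0,3,2,5,1,7,8,9,4,6]))) (.deg 9)))) (.split (.fin (.split (.split (.split .big (.iso 87 [0,4,2,1,3,5,6,9,8,7] [0,3,2,4,1,5,6,9,8,7])) (.split (.iso 91 [0,1,2,7,3,4,5,6,8,9] [0,1,2,4,5,6,7,3,8,9]) (.iso 88 [0,4,1,2,7,3,9,6,5,8] [0,2,3,5,1,8,7,4,9,6]))) (.deg 9))) (.pet [[0],[1],[5],[8],[2],[4],[7],[3],[9],[6]]))) (.far 4 6)) (.far 4 5))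

theorem ok59 : chkA tbl q59 c59 q59.rt [] [] = true := by decide +kernel

def c60 : CA := .split (.split (.split (.split (.fin (.split (.iso 93 [0,1,2,3,4,5,6,7,8,9] [0,1,2,3,4,5,6,7,8,9]) (.deg 9))) (.fin (.split (.split (.iso 96 [0,1,2,3,4,5,6,7,8,9] [0,1,2,3,4,5,6,7,8,9]) (.red [1,2,2,2,2,2,1,1,2,1,2,0] [0,1,3,5] [2,4])) (.deg 9)))) (.split (.fin (.split (.split (.iso 111 [0,1,2,4,3,5,6,8,7,9] [0,1,2,4,3,5,6,8,7,9]) (.iso 104 [2,0,7,1,3,4,5,9,6,8] [1,3,0,4,5,6,8,2,9,7])) (.deg 9))) (.far 7 8))) (.split (.split (.fin (.split (.split (.iso 111 [0,2,1,3,4,5,7,8,6,9] [0,2,1,3,4,5,8,6,7,9]) (.iso 104 [1,0,6,2,4,3,5,9,7,8] [1,0,3,5,4,6,2,8,9,7])) (.deg 9))) (.far 6 8)) (.split (.fin (.split (.split (.split (.iso 97 [0,1,2,3,4,5,6,8,7,9] [0,1,2,3,4,5,6,8,7,9]) (.iso 115 [1,0,6,4,2,3,5,8,7,9] [1,0,4,5,3,6,2,8,7,9])) (.split (.iso 115 [2,0,7,3,1,4,5,8,6,9] [1,4,0,3,5,6,8,2,7,9]) (.clo 0 1 (.deg 5)))) (.deg 9))) (.far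 7 8)))) (.split (.split (.split (.fin (.split (.split (.iso 99 [0,1,2,3,4,6,7,8,5,9] [0,1,2,3,4,8,5,6,7,9]) (.deg 5)) (.deg 9))) (.fin (.split (.split (.split (.iso 100 [0,1,2,3,4,6,7,8,5,9] [0,1,2,3,4,8,5,6,7,9]) (.deg 5)) (.split (.red [0,0,0,0,0,0,0,0,0,0,0,0,2] [0,1,3,5] [2,4]) (.deg 5))) (.deg 9)))) (.split (.fin (.split (.split (.split (.iso 114 [0,1,2,4,3,6,8,7,5,9] [0,1,2,4,3,8,5,7,6,9]) (.deg 5)) (.split (.iso 105 [2,0,7,1,3,4,6,8,5,9] [1,3,0,4,5,8,6,2,7,9]) (.deg 5))) (.deg 9))) (.far 7 8))) (.split (.split (.fin (.split (.split (.split (.iso 114 [0,2,1,3,4,7,8,6,5,9] [0,2,1,3,4,8,7,5,6,9]) (.deg 5)) (.split (.iso 105 [1,0,6,2,4,3,7,8,5,9] [1,0,3,5,4,8,2,6,7,9]) (.deg 5))) (.deg 9))) (.far 6 8)) (.split (.fin (.split (.split (.split (.split (.iso 103 [0,1,2,3,4,6,8,7,5,9] [0,1,2,3,4,8,5,7,6,9]) (.deg 5)) (.split (.iso 116 [1,0,6,4,2,3,8,7,5,9] [1,0,4,5,3,8,2,7,6,9]) (.deg 5))) (.split (.split (.iso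 116 [2,0,7,3,1,4,8,6,5,9] [1,4,0,3,5,8,7,2,6,9]) (.deg 5)) (.split (.clo 0 1 (.pet [[0,5],[1],[3],[7],[2],[10],[6],[8],[9],[4]])) (.deg 5)))) (.split (.split (.split (.iso 92 [0,1,2,3,4,5,6,8,7,9] [0,1,2,3,4,5,6,8,7,9]) (.deg 5)) (.split (.clo 0 1 (.pet [[0],[1],[3],[7],[2],[5,10],[6],[8],[9],[4]])) (.deg 5))) (.split (.split (.clo 0 1 (.pet [[0],[1],[3],[7],[2],[5,10],[6],[8],[9],[4]])) (.deg 5)) (.split (.two 0) (.deg 5)))))) (.far 7 8))))

theorem ok60 : chkA tbl q60 c60 q60.rt [] [] = true := by decide +kernel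

def c61 : CA := .split (.split (.split (.split (.fin (.split (.iso 94 [0,1,2,3,4,5,6,7,9,8] [0,1,2,3,4,5,6,7,9,8]) (.deg 9))) (.fin (.split (.split (.iso 101 [0,1,2,3,4,5,6,7,8,9] [0,1,2,3,4,5,6,7,8,9]) (.iso 78 [0,1,2,8,3,4,5,6,7,9] [0,1,2,4,5,6,7,8,3,9])) (.deg 9)))) (.split (.fin (.split (.split (.red [2,2,2,2,2,2,2,2,1,1,2,0,0] [0,1,2,3,5] [4]) (.red [2,0,0,0,0,0,0,0,0,0,0,0,0] [0,1,3,5] [2,4])) (.deg 9))) (.far 7 8))) (.split (.split (.fin (.split (.split (.iso 112 [0,1,2,4,3,5,6,7,8,9] [0,1,2,4,3,5,6,7,8,9]) (.iso 115 [2,6,0,1,3,4,9,5,7,8] [2,3,0,4,5,7,1,8,9,6])) (.deg 9))) (.fin (.split (.split (.split (.iso 113 [0,1,2,4,3,5,6,7,8,9] [0,1,2,4,3,5,6,7,8,9]) (.iso 116 [2,6,0,1,3,4,5,7,9,8] [2,3,0,4,5,6,1,7,9,8])) (.split (.iso 88 [0,1,2,8,4,3,5,7,6,9] [0,1,2,5,4,6,8,7,3,9]) (.clo 0 1 (.pet [[0],[1],[3],[6],[2],[8],[5,10],[7],[9],[4]])))) (.deg 9)))) (.far 6 7))) (.split (.split (.split (.fin (.split (.split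 (.iso 112 [0,2,1,3,4,6,5,7,8,9] [0,2,1,3,4,6,5,7,8,9]) (.iso 115 [1,5,0,2,4,3,9,6,7,8] [2,0,3,5,4,1,7,8,9,6])) (.deg 9))) (.fin (.split (.split (.split (.iso 113 [0,2,1,3,4,6,5,7,8,9] [0,2,1,3,4,6,5,7,8,9]) (.iso 116 [1,5,0,2,4,3,6,7,9,8] [2,0,3,5,4,1,6,7,9,8])) (.split (.iso 88 [0,2,1,8,3,4,6,7,5,9] [0,2,1,4,5,8,6,7,3,9]) (.clo 0 1 (.pet [[0],[1],[3],[6,10],[2],[8],[5],[7],[9],[4]])))) (.deg 9)))) (.far 5 7)) (.split (.split (.fin (.split (.split (.split (.iso 102 [0,1,2,3,4,5,6,7,8,9] [0,1,2,3,4,5,6,7,8,9]) (.iso 106 [1,0,5,2,4,3,6,7,8,9] [1,0,3,5,4,2,6,7,8,9])) (.split (.iso 106 [2,0,6,1,3,4,5,7,8,9] [1,3,0,4,5,6,2,7,8,9]) (.clo 0 1 (.pet [[0,8],[1],[3],[6],[2],[10],[5],[7],[9],[4]])))) (.deg 9))) (.pet [[0],[1],[3],[6],[2],[8],[5],[7],[9],[4]])) (.far 6 7)))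

theorem ok61 : chkA tbl q61 c61 q61.rt [] [] = true := by decide +kernel

def c62 : CA := .split (.split (.split (.split (.split (.fin (.split .big (.deg 9))) (.fin (.split (.split .big (.deg 8)) (.deg 9)))) (.split (.fin (.split (.split .big (.iso 107 [0,1,2,3,7,4,5,6,8,9] [0,1,2,3,5,6,7,4,8,9])) (.deg 9))) (.far 7 8))) (.split (.split (.fin (.split (.split .big (.deg 6)) (.deg 9))) (.fin (.split (.split (.split .big (.deg 6)) (.deg 8)) (.deg 9)))) (.far 6 7))) (.split (.split (.split (.fin (.split (.split .big (.deg 5)) (.deg 9))) (.fin (.split (.split (.split .big (.deg 5)) (.deg 8)) (.deg 9)))) (.split (.fin (.split (.split (.split .big (.deg 5)) (.split (.iso 73 [0,2,3,1,7,4,6,8,5,9] [0,3,1,2,5,8,6,4,7,9]) (.deg 5))) (.deg 9))) (.far 7 8))) (.split (.split (.fin (.split (.split (.split .big (.deg 5)) (.deg 6)) (.deg 9))) (.fin (.split (.split (.split (.split .big (.deg 5)) (.deg 6)) (.deg 8)) (.split (.split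 (.split (.red [2,2,2,0,1,1,2,2,0,0,0,2] [0,1,2,4,5] [3]) (.deg 5)) (.deg 6)) (.deg 8))))) (.far 6 7)))) (.split (.split (.split (.split (.fin (.split (.split .big (.deg 4)) (.deg 9))) (.fin (.split (.split (.split .big (.deg 4)) (.deg 8)) (.deg 9)))) (.split (.fin (.split (.split (.split .big (.deg 4)) (.split (.iso 73 [1,3,2,0,7,5,8,6,4,9] [3,0,2,1,8,5,7,4,6,9]) (.deg 4))) (.deg 9))) (.far 7 8))) (.split (.split (.fin (.split (.split (.split .big (.deg 4)) (.deg 6)) (.deg 9))) (.fin (.split (.split (.split (.split .big (.deg 4)) (.deg 6)) (.deg 8)) (.split (.split (.split (.red [2,2,2,1,0,0,2,2,1,0,0,2] [0,1,2,4,5] [3]) (.deg 4)) (.deg 6)) (.deg 8))))) (.far 6 7))) (.split (.split (.split (.fin (.split (.split (.split .big (.deg 4)) (.deg 5)) (.deg 9))) (.fin (.split (.split (.split (.split .big (.deg 4)) (.deg 5)) (.deg 8)) (.split (.split (.split (.red [2,0,0,2,1,0,0,0,0,0,2,1] [0,1,2,4,5] [3]) (.deg 4)) (.deg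 5)) (.deg 8))))) (.split (.fin (.split (.split (.split (.split .big (.deg 4)) (.deg 5)) (.split (.split (.iso 69 [2,3,0,1,7,6,8,4,5,9] [2,3,0,1,7,8,5,4,6,9]) (.deg 4)) (.deg 5))) (.split (.split (.split (.iso 89 [0,1,2,3,9,4,5,7,6,8] [0,1,2,3,5,6,8,7,9,4]) (.deg 4)) (.deg 5)) (.split (.split (.iso 104 [7,2,3,0,1,9,6,8,4,5] [3,4,1,2,8,9,6,0,7,5]) (.deg 4)) (.deg 5))))) (.far 7 8))) (.split (.split (.fin (.split (.split (.split (.split .big (.deg 4)) (.deg 5)) (.deg 6)) (.split (.split (.split (.red [2,0,0,1,2,0,0,0,0,0,1,2] [0,1,2,4,5] [3]) (.deg 4)) (.deg 5)) (.deg 6)))) (.fin (.split (.split (.split (.split (.split .big (.deg 4)) (.deg 5)) (.deg 6)) (.deg 8)) (.split (.split (.split (.split (.red [0,0,0,2,0,0,0,0,0,0,0,0,0] [0,1,2,4,5] [3]) (.deg 4)) (.deg 5)) (.deg 6)) (.deg 8))))) (.far 6 7))))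

theorem ok62 : chkA tbl q62 c62 q62.rt [] [] = true := by decide +kernel

def c63 : CA := .split (.split (.split (.split (.split (.fin (.split .big (.deg 9))) (.fin (.split (.split .big (.iso 110 [1,0,3,8,2,5,4,6,7,9] [1,0,4,2,6,5,7,8,3,9])) (.deg 9)))) (.split (.fin (.split (.split .big (.iso 110 [0,1,2,7,3,4,5,6,8,9] [0,1,2,4,5,6,7,3,8,9])) (.deg 9))) (.far 7 8))) (.split (.split (.fin (.split (.split .big (.iso 73 [0,1,6,2,3,4,5,9,7,8] [0,1,3,4,5,6,2,8,9,7])) (.deg 9))) (.far 6 8)) (.far 6 7))) (.split (.split (.split (.fin (.split (.split .big (.deg 5)) (.deg 9))) (.fin (.split (.split (.split .big (.deg 5)) (.split (.red [2,1,2,0,0,2,1,0,0,0,0,0] [0,1,3,4,5] [2]) (.deg 5))) (.deg 9)))) (.split (.fin (.split (.split (.split .big (.deg 5)) (.split (.red [2,2,2,0,1,2,2,2,2,2,1,2] [0,2,3,4,5] [1]) (.deg 5))) (.deg 9))) (.far 7 8))) (.split (.split (.fin (.split (.split (.split .big (.deg 5)) (.split (.iso 108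 [0,1,2,3,6,4,5,7,8,9] [0,1,2,3,5,6,4,7,8,9]) (.deg 5))) (.deg 9))) (.far 6 8)) (.far 6 7)))) (.split (.split (.split (.split (.fin (.split (.split .big (.deg 4)) (.deg 9))) (.fin (.split (.split (.split .big (.deg 4)) (.split (.red [2,2,2,1,0,2,2,2,2,2,1,2] [0,1,3,4,5] [2]) (.deg 4))) (.deg 9)))) (.split (.fin (.split (.split (.split .big (.deg 4)) (.split (.red [2,2,1,0,0,1,2,0,0,0,0,0] [0,2,3,4,5] [1]) (.deg 4))) (.deg 9))) (.far 7 8))) (.split (.split (.fin (.split (.split (.split .big (.deg 4)) (.split (.iso 108 [1,0,3,2,6,5,4,8,7,9] [1,0,3,2,6,5,4,8,7,9]) (.deg 4))) (.deg 9))) (.far 6 8)) (.far 6 7))) (.split (.split (.split (.fin (.split (.split (.split .big (.deg 4)) (.deg 5)) (.deg 9))) (.fin (.split (.split (.split (.split .big (.deg 4)) (.deg 5)) (.split (.split (.red [0,0,0,0,0,0,0,0,2,0,0,0,0] [0,1,3,4,5] [2]) (.deg 4)) (.deg 5))) (.split (.split (.split (.red [2,0,0,0,0,0,0,0,0,0,0,0,0] [0,1,2,4,5]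 [3]) (.deg 4)) (.deg 5)) (.split (.split (.red [2,0,0,0,0,0,0,0,0,0,0,0,0] [0,1,4,5] [2,3]) (.deg 4)) (.deg 5)))))) (.split (.fin (.split (.split (.split (.split .big (.deg 4)) (.deg 5)) (.split (.split (.red [0,0,0,0,0,0,0,2,0,0,0,0,0] [0,2,3,4,5] [1]) (.deg 4)) (.deg 5))) (.split (.split (.split (.red [2,0,0,0,0,0,0,0,0,0,0,0,0] [0,1,2,4,5] [3]) (.deg 4)) (.deg 5)) (.split (.split (.red [2,0,0,0,0,0,0,0,0,0,0,0,0] [0,2,4,5] [1,3]) (.deg 4)) (.deg 5))))) (.far 7 8))) (.split (.split (.fin (.split (.split (.split (.split .big (.deg 4)) (.deg 5)) (.split (.split (.iso 109 [0,1,2,3,6,7,8,4,5,9] [0,1,2,3,7,8,4,5,6,9]) (.deg 4)) (.deg 5))) (.split (.split (.split (.iso 90 [0,1,2,3,9,4,5,6,7,8] [0,1,2,3,5,6,7,8,9,4]) (.deg 4)) (.deg 5)) (.split (.split (.iso 105 [6,2,3,0,1,9,4,5,7,8] [3,4,1,2,6,7,0,8,9,5]) (.deg 4)) (.deg 5))))) (.far 6 8)) (.far 6 7))))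

theorem ok63 : chkA tbl q63 c63 q63.rt [] [] = true := by decide +kernel

end Pool.Agent.TH395.P5
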