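import Pool.Agent.H79.LF.TH395_P5_Red

set_option autoImplicit false
set_option linter.unusedSectionVars false

/-! # Adding a vertex, relabelling, small degrees and separations -/

namespace Pool.Agent.TH395.P5

open Finset Pool.Agent.TH462.T4 Pool.Agent.TH676.T4

variable {V E : Type} [Fintype V] [DecidableEq V] [Fintype E] [DecidableEq E]

/-- the labels with a new vertex `v` -/
def nxt (φ : ℕ → V) (n : ℕ) (v : V) (i : ℕ) : V := if i = n then v else φ i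

theorem nxt_lt {φ : ℕ → V} {n : ℕ} {v : V} {i : ℕ} (h : i < n) : nxt φ n v i = φ i := by
  unfold nxt; rw [if_neg h.ne]

theorem nxt_self {φ : ℕ → V} {n : ℕ} {v : V} : nxt φ n v n = v := by
  unfold nxt; rw [if_pos rfl]

/-- the vertex `ψ i` has a neighbour outside `ψ 0, ..., ψ (m - 1)` -/
def Outs (src dst : E → V) (m : ℕ) (ψ : ℕ → V) (i : ℕ) : Prop :=
  ∃ e y, JV src dst e (ψ i) y ∧ y ≠ ψ i ∧ ∀ j, j < m → y ≠ ψ j

theorem JV.nis_right {src dst : E → V} {e : E} {x y : V} (h : JV src dst e x y) (hxy : x ≠ y) :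
    Nis src dst y := by
  refine ⟨e, JV.ne h hxy, ?_⟩
  rcases h with ⟨_, b⟩ | ⟨a, _⟩
  · exact Or.inr b
  · exact Or.inl a

theorem JV.nis_left {src dst : E → V} {e : E} {x y : V} (h : JV src dst e x y) (hxy : x ≠ y) :
    Nis src dst x := JV.nis_right (JV.symm h) hxy.symm

/-- **a new vertex** -/
theorem Emb.ext {src dst : E → V} {n : ℕ} {ed : List (ℕ × ℕ)} {rt : List ℕ} {φ : ℕ → V}
    (h : Emb src dst n ed rt φ) {v : V} (hv : ∀ i, i < n → v ≠ φ i) (nv : Nis src dst v)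
    {A : List ℕ} (hA : ∀ a ∈ A, a < n ∧ ∃ e, JV src dst e (φ a) v)
    (hA2 : ∀ i, i < n → (∃ e, JV src dst e (φ i) v) → i ∈ A)
    {ed' : List (ℕ × ℕ)} (hed : ∀ p, p ∈ ed' ↔ p ∈ ed ∨ ∃ a ∈ A, p = (a, n))
    {rt' : List ℕ} (h1 : ∀ i ∈ rt', i < n + 1 ∧ Outs src dst (n + 1) (nxt φ n v) i)
    (h2 : ∀ i, i < n + 1 → i ∉ rt' → ¬ Outs src dst (n + 1) (nxt φ n v) i) :
    Emb src dst (n + 1) ed' rt' (nxt φ n v) where
  inj := by
    intro i j hi hj hij
    rcases Nat.lt_succ_iff_lt_or_eq.mp hi with a | a <;>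
      rcases Nat.lt_succ_iff_lt_or_eq.mp hj with b | b
    · rw [nxt_lt a, nxt_lt b] at hij
      exact h.inj i j a b hij
    · subst b
      rw [nxt_lt a, nxt_self] at hij
      exact absurd hij.symm (hv i a)
    · subst a
      rw [nxt_lt b, nxt_self] at hij
      exact absurd hij (hv j b)
    · rw [a, b]
  lt := by
    intro p hp
    rcases (hed p).mp hp with h3 | ⟨a, ha, rfl⟩
    · have := h.lt p h3
      exact ⟨this.1, this.2.trans (Nat.lt_succ_self n)⟩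
    · exact ⟨(hA a ha).1, Nat.lt_succ_self n⟩
  edge := by
    intro p hp
    rcases (hed p).mp hp with h3 | ⟨a, ha, rfl⟩
    · have := h.lt p h3
      rw [nxt_lt (this.1.trans this.2), nxt_lt this.2]
      exact h.edge p h3
    · rw [nxt_lt (hA a ha).1, nxt_self]
      exact (hA a ha).2
  ins := by
    intro i j hij hj e he
    rw [hed]
    rcases Nat.lt_succ_iff_lt_or_eq.mp hj with b | b
    · rw [nxt_lt (hij.trans b), nxt_lt b] at he
      exact Or.inl (h.ins i j hij b e he)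
    · subst b
      rw [nxt_lt hij, nxt_self] at he
      exact Or.inr ⟨i, hA2 i hij ⟨e, he⟩, rfl⟩
  cpt := by
    intro i hi hr e y hy he
    by_contra h3
    push Not at h3
    exact h2 i hi hr ⟨e, y, he, hy, h3⟩
  rlt := fun i hi => (h1 i hi).1
  out := fun i hi => (h1 i hi).2
  nis := by
    intro i hi
    rcases Nat.lt_succ_iff_lt_or_eq.mp hi with a | a
    · rw [nxt_lt a]; exact h.nis i a
    · rw [a, nxt_self]; exact nv

theorem adjE_iff {ed : List (ℕ × ℕ)} {a b : ℕ} :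
    adjE ed a b = true ↔ (a, b) ∈ ed ∨ (b, a) ∈ ed := by
  unfold adjE
  rw [List.any_eq_true]
  constructor
  · rintro ⟨p, hp, h⟩
    rw [Bool.or_eq_true, Bool.and_eq_true, Bool.and_eq_true, beq_iff, beq_iff, beq_iff,
      beq_iff] at h
    rcases h with ⟨h1, h2⟩ | ⟨h1, h2⟩
    · left
      have : p = (a, b) := Prod.ext h1 h2
      exact this ▸ hp
    · right
      have : p = (b, a) := Prod.ext h1 h2
      exact this ▸ hp
  · rintro (h | h)
    · exact ⟨_, h, by simp [beq_iff]⟩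
    · exact ⟨_, h, by simp [beq_iff]⟩

/-- the graph `ed2` with roots `rt2` is isomorphic to `ed` with roots `rt` -/
def isoChk (n n2 : ℕ) (ed ed2 : List (ℕ × ℕ)) (rt rt2 π ρ : List ℕ) : Bool :=
  Nat.beq n2 n && (((List.range n).all fun x => Nat.ble (π.getD x 0 + 1) n &&
      (Nat.ble (ρ.getD x 0 + 1) n && (Nat.beq (ρ.getD (π.getD x 0) 0) x &&
      Nat.beq (π.getD (ρ.getD x 0) 0) x))) &&
    ((ed2.all fun p => Nat.ble (p.1 + 1) p.2 && (Nat.ble (p.2 + 1) n &&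
      adjE ed (π.getD p.1 0) (π.getD p.2 0))) &&
    ((ed.all fun p => adjE ed2 (ρ.getD p.1 0) (ρ.getD p.2 0)) &&
    ((rt2.all fun r => memN (π.getD r 0) rt && Nat.ble (r + 1) n) &&
      rt.all fun r => memN (ρ.getD r 0) rt2))))

theorem Emb.iso {src dst : E → V} {n n2 : ℕ} {ed ed2 : List (ℕ × ℕ)} {rt rt2 π ρ : List ℕ}
    {φ : ℕ → V} (h : Emb src dst n ed rt φ) (hc : isoChk n n2 ed ed2 rt rt2 π ρ = true) :
    Emb src dst n2 ed2 rt2 (fun i => φ (π.getD i 0)) ∧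
      ∀ x, (∃ i, i < n ∧ φ i = x) ↔ ∃ i, i < n2 ∧ φ (π.getD i 0) = x := by
  unfold isoChk at hc
  simp only [Bool.and_eq_true, beq_iff, ble_iff, List.all_eq_true, List.mem_range, memN_iff,
    adjE_iff] at hc
  obtain ⟨rfl, hp, h2, h3, h4, h5⟩ := hc
  have hlt : ∀ i, i < n2 → π.getD i 0 < n2 := fun i hi => (hp i hi).1
  have hinj : ∀ i j, i < n2 → j < n2 → π.getD i 0 = π.getD j 0 → i = j := by
    intro i j hi hj hij
    rw [← (hp i hi).2.2.1, ← (hp j hj).2.2.1, hij]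
  refine ⟨⟨?_, ?_, ?_, ?_, ?_, ?_, ?_, ?_⟩, ?_⟩
  · intro i j hi hj hij
    exact hinj i j hi hj (h.inj _ _ (hlt i hi) (hlt j hj) hij)
  · intro p hp'
    exact ⟨(h2 p hp').1, (h2 p hp').2.1⟩
  · intro p hp'
    rcases (h2 p hp').2.2 with h6 | h6
    · exact h.edge _ h6
    · obtain ⟨e, he⟩ := h.edge _ h6
      exact ⟨e, JV.symm he⟩
  · intro i j hij hj e he
    have hi : i < n2 := hij.trans hj
    have key : ∀ a b, a < b → b < n2 → JV src dst e (φ a) (φ b) →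
        (ρ.getD a 0, ρ.getD b 0) ∈ ed2 ∨ (ρ.getD b 0, ρ.getD a 0) ∈ ed2 := by
      intro a b hab hb he
      exact h3 _ (h.ins a b hab hb e he)
    have h7 : (i, j) ∈ ed2 ∨ (j, i) ∈ ed2 := by
      have hne : π.getD i 0 ≠ π.getD j 0 := fun h8 => hij.ne (hinj i j hi hj h8)
      rcases lt_or_gt_of_ne hne with h8 | h8
      · have := key _ _ h8 (hlt j hj) he
        rw [(hp i hi).2.2.1, (hp j hj).2.2.1] at this
        exact this
      · have := key _ _ h8 (hlt i hi) (JV.symm he)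
        rw [(hp i hi).2.2.1, (hp j hj).2.2.1] at this
        exact this.symm
    rcases h7 with h7 | h7
    · exact h7
    · have := (h2 _ h7).1
      change j + 1 ≤ i at this
      omega
  · intro i hi hr e y hy he
    have h6 : π.getD i 0 ∉ rt := by
      intro h7
      have := h5 _ h7
      rw [(hp i hi).2.2.1] at this
      exact hr this
    obtain ⟨j, hj, hj2⟩ := h.cpt _ (hlt i hi) h6 e y hy he
    exact ⟨ρ.getD j 0, (hp j hj).2.1, by rw [(hp j hj).2.2.2]; exact hj2⟩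
  · intro i hi
    exact (h4 i hi).2
  · intro i hi
    obtain ⟨e, y, he, hy, hy2⟩ := h.out _ (h4 i hi).1
    exact ⟨e, y, he, hy, fun j hj => hy2 _ (hlt j hj)⟩
  · intro i hi
    exact h.nis _ (hlt i hi)
  · intro x
    constructor
    · rintro ⟨i, hi, rfl⟩
      exact ⟨ρ.getD i 0, (hp i hi).2.1, by rw [(hp i hi).2.2.2]⟩
    · rintro ⟨i, hi, rfl⟩
      exact ⟨_, hlt i hi, rfl⟩

/-- the degree of `x` in a list of pairs -/
def degE (ed : List (ℕ × ℕ)) (x : ℕ) : ℕ :=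
  (ed.filter fun p => Nat.beq p.1 x || Nat.beq p.2 x).length

/-- a complete vertex has degree at least three -/
theorem Emb.deg {src dst : E → V} (hM : MinCx src dst) (hS : Smp src dst) {n : ℕ}
    {ed : List (ℕ × ℕ)} {rt : List ℕ} {φ : ℕ → V} (h : Emb src dst n ed rt φ) {x : ℕ}
    (hx : x < n) (hr : x ∉ rt) (hd : degE ed x ≤ 2) : False := by
  obtain ⟨es, hes⟩ := h.choose_es (by omega)
  obtain ⟨e0, he0, he0'⟩ := h.nis x hx
  -- the other end
  obtain ⟨y, hy, hyj⟩ : ∃ y, y ≠ φ x ∧ JV src dst e0 (φ x) y := by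
    rcases he0' with h1 | h1
    · exact ⟨dst e0, fun h2 => he0 (h1.trans h2.symm), Or.inl ⟨h1, rfl⟩⟩
    · exact ⟨src e0, fun h2 => he0 (h2.trans h1.symm), Or.inr ⟨rfl, h1⟩⟩
  have h3 := cut3 hM (Y := {φ x}) (x := φ x) (y := y) (mem_singleton_self _)
    (by rw [mem_singleton]; exact hy) (h.nis x hx) (JV.nis_right hyj hy.symm)
  have h4 : crs src dst {φ x} ⊆
      (((ed.filter fun p => Nat.beq p.1 x || Nat.beq p.2 x).map es).toFinset) := by
    intro e he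
    rw [mem_crs, mem_singleton, mem_singleton] at he
    obtain ⟨z, hz, hzj⟩ : ∃ z, z ≠ φ x ∧ JV src dst e (φ x) z := by
      by_cases h5 : src e = φ x
      · exact ⟨dst e, fun h6 => he ⟨fun _ => h6, fun _ => h5⟩, Or.inl ⟨h5, rfl⟩⟩
      · refine ⟨src e, h5, Or.inr ⟨rfl, ?_⟩⟩
        by_contra h6
        exact he ⟨fun h7 => absurd h7 h5, fun h7 => absurd h7 h6⟩
    obtain ⟨j, hj, rfl⟩ := h.cpt x hx hr e z hz hzj
    have hne : x ≠ j := fun h5 => hz (by rw [h5])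
    rw [List.mem_toFinset, List.mem_map]
    rcases lt_or_gt_of_ne hne with h5 | h5
    · have h6 := h.ins x j h5 hj e hzj
      refine ⟨(x, j), ?_, ?_⟩
      · rw [List.mem_filter]
        exact ⟨h6, by rw [Bool.or_eq_true, beq_iff, beq_iff]; exact Or.inl rfl⟩
      · exact hS _ _ _ _ hz.symm (hes _ h6) hzj
    · have h6 := h.ins j x h5 hx e (JV.symm hzj)
      refine ⟨(j, x), ?_, ?_⟩
      · rw [List.mem_filter]
        exact ⟨h6, by rw [Bool.or_eq_true, beq_iff, beq_iff]; exact Or.inr rfl⟩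
      · exact hS _ _ _ _ hz (hes _ h6) (JV.symm hzj)
  have h5 := (card_le_card h4).trans (List.toFinset_card_le _)
  rw [List.length_map] at h5
  unfold degE at hd
  omega

/-- the images of a list of labels -/
def im (φ : ℕ → V) (l : List ℕ) : Finset V := (l.map φ).toFinset

theorem mem_im {φ : ℕ → V} {l : List ℕ} {x : V} : x ∈ im φ l ↔ ∃ i ∈ l, φ i = x := by
  unfold im
  rw [List.mem_toFinset, List.mem_map]

theorem im_card (φ : ℕ → V) (l : List ℕ) : (im φ l).card ≤ l.length := by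
  unfold im
  exact (List.toFinset_card_le _).trans (by rw [List.length_map])

/-- closed sets of labels -/
theorem Emb.closed {src dst : E → V} {n : ℕ} {ed : List (ℕ × ℕ)} {rt : List ℕ} {φ : ℕ → V}
    (h : Emb src dst n ed rt φ) {I Z : List ℕ} (hI : ∀ i ∈ I, i < n ∧ i ∉ rt)
    (hc : ∀ p ∈ ed, (p.1 ∈ I → p.2 ∈ I ∨ p.2 ∈ Z) ∧ (p.2 ∈ I → p.1 ∈ I ∨ p.1 ∈ Z)) :
    TH497.T4.Closed src dst (im φ Z) (im φ I) := by
  have key : ∀ e i y, i ∈ I → JV src dst e (φ i) y → y ∈ im φ I ∪ im φ Z := by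
    intro e i y hi hj
    by_cases hy : y = φ i
    · rw [hy]
      exact mem_union_left _ (mem_im.mpr ⟨i, hi, rfl⟩)
    · obtain ⟨j, hjn, rfl⟩ := h.cpt i (hI i hi).1 (hI i hi).2 e y hy hj
      have hne : i ≠ j := fun h5 => hy (by rw [h5])
      have h6 : j ∈ I ∨ j ∈ Z := by
        rcases lt_or_gt_of_ne hne with h5 | h5
        · exact (hc _ (h.ins i j h5 hjn e hj)).1 hi
        · exact (hc _ (h.ins j i h5 (hI i hi).1 e (JV.symm hj))).2 hi
      rw [mem_union, mem_im, mem_im]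
      rcases h6 with h6 | h6
      · exact Or.inl ⟨j, h6, rfl⟩
      · exact Or.inr ⟨j, h6, rfl⟩
  intro e he
  rcases he with he | he
  · obtain ⟨i, hi, hi2⟩ := mem_im.mp he
    exact ⟨mem_union_left _ he, key e i _ hi (Or.inl ⟨hi2.symm, rfl⟩)⟩
  · obtain ⟨i, hi, hi2⟩ := mem_im.mp he
    exact ⟨key e i _ hi (Or.inr ⟨rfl, hi2.symm⟩), mem_union_left _ he⟩

/-- the labels which are not roots -/
def nonR (n : ℕ) (rt : List ℕ) : List ℕ := (List.range n).filter fun i => !memN i rt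

theorem mem_nonR {n : ℕ} {rt : List ℕ} {i : ℕ} : i ∈ nonR n rt ↔ i < n ∧ i ∉ rt := by
  unfold nonR
  rw [List.mem_filter, List.mem_range, Bool.not_eq_true', ← Bool.not_eq_true, memN_iff]

theorem Emb.closed_nonR {src dst : E → V} {n : ℕ} {ed : List (ℕ × ℕ)} {rt : List ℕ} {φ : ℕ → V}
    (h : Emb src dst n ed rt φ) : TH497.T4.Closed src dst (im φ rt) (im φ (nonR n rt)) := by
  refine h.closed (fun i hi => mem_nonR.mp hi) fun p hp => ?_
  have := h.lt p hp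
  refine ⟨fun _ => ?_, fun _ => ?_⟩
  · by_cases h1 : p.2 ∈ rt
    · exact Or.inr h1
    · exact Or.inl (mem_nonR.mpr ⟨this.2, h1⟩)
  · by_cases h1 : p.1 ∈ rt
    · exact Or.inr h1
    · exact Or.inl (mem_nonR.mpr ⟨this.1.trans this.2, h1⟩)

/-- at most two roots -/
theorem Emb.two_roots {src dst : E → V} (hM : MinCx src dst) {n : ℕ} {ed : List (ℕ × ℕ)}
    {rt : List ℕ} {φ : ℕ → V} (h : Emb src dst n ed rt φ) (hl : rt.length ≤ 2) {r x : ℕ}
    (hr : r ∈ rt) (hx : x < n) (hxr : x ∉ rt) : False := by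
  obtain ⟨e, y, hj, hy, hy2⟩ := h.out r hr
  refine TH497.T4.sep2 hM h.closed_nonR ((im_card _ _).trans hl) (x := φ x) (y := y)
    (mem_im.mpr ⟨x, mem_nonR.mpr ⟨hx, hxr⟩, rfl⟩) (h.nis x hx) ?_ ?_ (JV.nis_right hj hy.symm)
  · intro h1
    obtain ⟨i, hi, hi2⟩ := mem_im.mp h1
    exact hy2 i (mem_nonR.mp hi).1 hi2.symm
  · intro h1
    obtain ⟨i, hi, hi2⟩ := mem_im.mp h1
    exact hy2 i (h.rlt i hi) hi2.symm

/-- a closed set of at least two labels with at most three neighbours -/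
theorem Emb.sep3 {src dst : E → V} (hM : MinCx src dst) {n : ℕ} {ed : List (ℕ × ℕ)}
    {rt : List ℕ} {φ : ℕ → V} (h : Emb src dst n ed rt φ) {I Z : List ℕ}
    (hI : ∀ i ∈ I, i < n ∧ i ∉ rt)
    (hc : ∀ p ∈ ed, (p.1 ∈ I → p.2 ∈ I ∨ p.2 ∈ Z) ∧ (p.2 ∈ I → p.1 ∈ I ∨ p.1 ∈ Z))
    (hZ : Z.length ≤ 3) (hZn : ∀ z ∈ Z, z < n) {x x2 r : ℕ} (hx : x ∈ I) (hx2 : x2 ∈ I)
    (hne : x ≠ x2) (hr : r ∈ rt) (hrZ : r ∉ Z) : False := by
  obtain ⟨e, y, hj, hy, hy2⟩ := h.out r hr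
  refine TH497.T4.sep3 hM (h.closed hI hc) ((im_card _ _).trans hZ) (x := φ x) (x2 := φ x2)
    (y := φ r) (y2 := y) (mem_im.mpr ⟨x, hx, rfl⟩) (h.nis x (hI x hx).1)
    (mem_im.mpr ⟨x2, hx2, rfl⟩) (h.nis x2 (hI x2 hx2).1)
    (fun h1 => hne (h.inj _ _ (hI x hx).1 (hI x2 hx2).1 h1)) ?_ ?_ (h.nis r (h.rlt r hr)) ?_ ?_
    (JV.nis_right hj hy.symm) hy.symm
  · intro h1
    obtain ⟨i, hi, hi2⟩ := mem_im.mp h1
    have := h.inj _ _ (hI i hi).1 (h.rlt r hr) hi2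
    exact (hI i hi).2 (this ▸ hr)
  · intro h1
    obtain ⟨i, hi, hi2⟩ := mem_im.mp h1
    have := h.inj _ _ (hZn i hi) (h.rlt r hr) hi2
    exact hrZ (this ▸ hi)
  · intro h1
    obtain ⟨i, hi, hi2⟩ := mem_im.mp h1
    exact hy2 i (hI i hi).1 hi2.symm
  · intro h1
    obtain ⟨i, hi, hi2⟩ := mem_im.mp h1
    exact hy2 i (hZn i hi) hi2.symm

/-- at most three roots: the rest is one vertex, joined to all roots -/
theorem Emb.three_roots {src dst : E → V} (hM : MinCx src dst) {n : ℕ} {ed : List (ℕ × ℕ)}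
    {rt : List ℕ} {φ : ℕ → V} (h : Emb src dst n ed rt φ) (hl : rt.length ≤ 3) {r x x2 : ℕ}
    (hr : r ∈ rt) (hx : x < n) (hxr : x ∉ rt) (hx2 : x2 < n) (hxr2 : x2 ∉ rt) (hne : x ≠ x2)
    {ed' : List (ℕ × ℕ)} (hed : ∀ p, p ∈ ed' ↔ p ∈ ed ∨ ∃ a ∈ rt, p = (a, n)) :
    ∃ w, (∀ y, Nis src dst y → ∃ i, i < n + 1 ∧ y = nxt φ n w i) ∧
      Emb src dst (n + 1) ed' [] (nxt φ n w) := by
  obtain ⟨e, w, hj, hw, hw2⟩ := h.out r hr
  have nw := JV.nis_right hj hw.symm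
  have huniq : ∀ y, Nis src dst y → (∀ i, i < n → y ≠ φ i) → y = w := by
    intro y ny hy
    by_contra hyw
    have hni : ∀ z, (∀ i, i < n → z ≠ φ i) → z ∉ im φ (nonR n rt) ∧ z ∉ im φ rt := by
      intro z hz
      constructor
      · intro h1
        obtain ⟨i, hi, hi2⟩ := mem_im.mp h1
        exact hz i (mem_nonR.mp hi).1 hi2.symm
      · intro h1
        obtain ⟨i, hi, hi2⟩ := mem_im.mp h1
        exact hz i (h.rlt i hi) hi2.symm
    exact TH497.T4.sep3 hM h.closed_nonR ((im_card _ _).trans hl) (x := φ x) (x2 := φ x2)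
      (y := w) (y2 := y) (mem_im.mpr ⟨x, mem_nonR.mpr ⟨hx, hxr⟩, rfl⟩) (h.nis x hx)
      (mem_im.mpr ⟨x2, mem_nonR.mpr ⟨hx2, hxr2⟩, rfl⟩) (h.nis x2 hx2)
      (fun h1 => hne (h.inj _ _ hx hx2 h1)) (hni w hw2).1 (hni w hw2).2 nw (hni y hy).1
      (hni y hy).2 ny (Ne.symm hyw)
  have hall : ∀ y, Nis src dst y → ∃ i, i < n + 1 ∧ y = nxt φ n w i := by
    intro y ny
    by_cases hy : ∀ i, i < n → y ≠ φ i
    · exact ⟨n, Nat.lt_succ_self n, by rw [nxt_self]; exact huniq y ny hy⟩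
    · push Not at hy
      obtain ⟨i, hi, hi2⟩ := hy
      exact ⟨i, hi.trans (Nat.lt_succ_self n), by rw [nxt_lt hi]; exact hi2⟩
  refine ⟨w, hall, h.ext hw2 nw (A := rt) ?_ ?_ hed (by simp) ?_⟩
  · intro a ha
    refine ⟨h.rlt a ha, ?_⟩
    obtain ⟨e', y, hj', hy, hy2⟩ := h.out a ha
    have := huniq y (JV.nis_right hj' hy.symm) hy2
    exact ⟨e', this ▸ hj'⟩
  · intro i hi ⟨e', he'⟩
    by_contra h1
    obtain ⟨j, hj1, hj2⟩ := h.cpt i hi h1 e' w (hw2 i hi) he'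
    exact hw2 j hj1 hj2
  · rintro i hi _ ⟨e', y, hj', hy, hy2⟩
    obtain ⟨j, hj1, hj2⟩ := hall y (JV.nis_right hj' hy.symm)
    exact hy2 j hj1 hj2

end Pool.Agent.TH395.P5
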