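import Pool.Agent.H79.LF.TH497_PW_Red

set_option autoImplicit false

/-! # The exploration of a graph of small pathwidth -/

namespace Pool.Agent.TH497.PW

open Finset

variable {V E : Type} [Fintype V] [DecidableEq V] [Fintype E] [DecidableEq E]

open Classical in
/-- vertices of `P` with a neighbour outside `P` -/
noncomputable def bd (src dst : E → V) (P : Finset V) : Finset V :=
  P.filter (fun x => ¬ Cpt src dst P x)

omit [Fintype V] [DecidableEq V] [Fintype E] [DecidableEq E] in
theorem mem_bd {src dst : E → V} {P : Finset V} {x : V} :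
    x ∈ bd src dst P ↔ x ∈ P ∧ ¬ Cpt src dst P x := by
  classical
  simp [bd]

omit [Fintype V] in
theorem forget_all {dflt : SwR} {Ev : Env} {tb : Tb} {W : ℕ} (hE : Ev.OK W dflt)
    (hT : ∀ i, Tst dflt Ev tb W (tb.get i)) {src dst : E → V} (h3 : H3 src dst)
    {P : Finset V} (m : ℕ) : ∀ Z : Finset V, Z.card = m → Good tb src dst P Z → Z ⊆ P →
    (∀ z ∈ Z, Nis src dst z) → (∀ x ∈ P, x ∉ Z → Cpt src dst P x) →
    Good tb src dst P (bd src dst P) := by
  induction m with
  | zero =>
    intro Z hZ hG hZP _ hc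
    rw [card_eq_zero] at hZ
    have : bd src dst P = Z := by
      rw [hZ]
      apply eq_empty_of_forall_notMem
      intro x hx
      rw [mem_bd] at hx
      exact hx.2 (hc x hx.1 (by rw [hZ]; simp))
    rw [this]; exact hG
  | succ m ih =>
    intro Z hZ hG hZP hn hc
    by_cases h : ∃ x ∈ Z, Cpt src dst P x
    · obtain ⟨x, hx, hxc⟩ := h
      refine ih (Z.erase x) (by rw [card_erase_of_mem hx, hZ]; rfl)
        (forget hE hT h3 hG hZP hn hc hx hxc) ((erase_subset _ _).trans hZP)
        (fun z hz => hn z (mem_of_mem_erase hz)) ?_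
      intro y hy hyZ
      by_cases hyx : y = x
      · rw [hyx]; exact hxc
      · exact hc y hy (fun h => hyZ (mem_erase.mpr ⟨hyx, h⟩))
    · push Not at h
      have : bd src dst P = Z := by
        ext x
        rw [mem_bd]
        constructor
        · rintro ⟨h1, h2⟩
          by_contra h4
          exact h2 (hc x h1 h4)
        · intro hx
          exact ⟨hZP hx, h x hx⟩
      rw [this]; exact hG

/-- exploration with small boundaries -/
theorem explore {dflt : SwR} {Ev : Env} {tb : Tb} {W : ℕ} (hE : Ev.OK W dflt) (hW : 1 ≤ W)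
    (hT : ∀ i, Tst dflt Ev tb W (tb.get i)) {src dst : E → V} (h3 : H3 src dst)
    (hS : Smp src dst) (rk : V → ℕ)
    (hb : ∀ P : Finset V, (∀ x ∈ P, Nis src dst x → ∀ y, y ∉ P → Nis src dst y → rk x ≤ rk y) →
      (bd src dst P).card ≤ W) (m : ℕ) : ∀ P : Finset V, (univ \ P).card = m →
    (∀ x, ¬ Nis src dst x → x ∈ P) →
    (∀ x ∈ P, Nis src dst x → ∀ y, y ∉ P → Nis src dst y → rk x ≤ rk y) →
    Good tb src dst P (bd src dst P) → Ext src dst (ind src dst univ) (fun _ => 0) := by
  induction m with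
  | zero =>
    intro P hP _ _ hG
    rw [card_eq_zero, sdiff_eq_empty_iff_subset, univ_subset_iff] at hP
    subst hP
    obtain ⟨i, k, β, hk, hR, _, hZ⟩ := hG
    have hk0 : k = 0 := by
      by_contra h0
      have := (hZ (β 0)).mpr ⟨0, by omega, rfl⟩
      rw [mem_bd] at this
      exact this.2 (fun e _ _ => ⟨mem_univ _, mem_univ _⟩)
    subst hk0
    have h1 := (hT i).z hk
    exact (hR.fl 0 (by norm_num) h1).congr fun x => by simp [push]
  | succ m ih =>
    intro P hP hiso hini hG
    -- the next vertex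
    have hne : (univ \ P).Nonempty := by
      rw [← card_pos, hP]; omega
    obtain ⟨v, hv, hmin⟩ := exists_min_image (univ \ P) rk hne
    rw [mem_sdiff] at hv
    have hvP := hv.2
    have hnv : Nis src dst v := by
      by_contra h
      exact hvP (hiso v h)
    have hZP : bd src dst P ⊆ P := fun x hx => (mem_bd.mp hx).1
    have hn : ∀ z ∈ bd src dst P, Nis src dst z := by
      intro z hz
      have := (mem_bd.mp hz).2
      unfold Cpt at this
      push Not at this
      obtain ⟨e, he, he2, _⟩ := this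
      exact ⟨e, he, he2⟩
    have hc : ∀ x ∈ P, x ∉ bd src dst P → Cpt src dst P x := by
      intro x hx hx2
      by_contra h
      exact hx2 (mem_bd.mpr ⟨hx, h⟩)
    have hnc : ∀ z ∈ bd src dst P, ¬ Cpt src dst P z := fun z hz => (mem_bd.mp hz).2
    have hini' : ∀ x ∈ insert v P, Nis src dst x → ∀ y, y ∉ insert v P → Nis src dst y →
        rk x ≤ rk y := by
      intro x hx hnx y hy hny
      have hyP : y ∉ P := fun h => hy (mem_insert_of_mem h)
      rcases mem_insert.mp hx with h | h
      · rw [h]; exact hmin y (mem_sdiff.mpr ⟨mem_univ _, hyP⟩)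
      · exact hini x h hnx y hyP hny
    have hiso' : ∀ x, ¬ Nis src dst x → x ∈ insert v P := fun x hx =>
      mem_insert_of_mem (hiso x hx)
    have hcard : (univ \ insert v P).card = m := by
      have h1 : univ \ insert v P = (univ \ P).erase v := by
        ext x
        simp only [mem_sdiff, mem_univ, true_and, mem_insert, not_or, mem_erase]
      rw [h1, card_erase_of_mem (mem_sdiff.mpr hv), hP]
      rfl
    have hZP' : insert v (bd src dst P) ⊆ insert v P := insert_subset_insert _ hZP
    have hn' : ∀ z ∈ insert v (bd src dst P), Nis src dst z := by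
      intro z hz
      rcases mem_insert.mp hz with h | h
      · rw [h]; exact hnv
      · exact hn z h
    have hc' : ∀ x ∈ insert v P, x ∉ insert v (bd src dst P) → Cpt src dst (insert v P) x := by
      intro x hx hx2
      rw [mem_insert, not_or] at hx2
      exact (hc x ((mem_insert.mp hx).resolve_left hx2.1) hx2.2).mono (subset_insert _ _)
    refine ih (insert v P) hcard hiso' hini' ?_
    rcases step hE hW hT h3 hS hG hZP hn hc hnc hvP hnv with ⟨_, hG'⟩ | ⟨hcW, hG'⟩
    · exact forget_all hE hT h3 _ _ rfl hG' hZP' hn' hc'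
    · have hlt : (bd src dst (insert v P)).card < (insert v (bd src dst P)).card := by
        rw [card_insert_of_notMem (fun h => hvP (hZP h)), hcW]
        exact Nat.lt_succ_of_le (hb _ hini')
      obtain ⟨u, hu, hu2⟩ := exists_mem_notMem_of_card_lt_card hlt
      have huc : Cpt src dst (insert v P) u := by
        by_contra h
        exact hu2 (mem_bd.mpr ⟨hZP' hu, h⟩)
      refine forget_all hE hT h3 _ _ rfl (hG' u hu huc) ((erase_subset _ _).trans hZP')
        (fun z hz => hn' z (mem_of_mem_erase hz)) ?_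
      intro y hy hyZ
      by_cases hyx : y = u
      · rw [hyx]; exact huc
      · exact hc' y hy (fun h => hyZ (mem_erase.mpr ⟨hyx, h⟩))

theorem explore_all {dflt : SwR} {Ev : Env} {tb : Tb} {W : ℕ} (hE : Ev.OK W dflt) (hW : 1 ≤ W)
    (hT : ∀ i, Tst dflt Ev tb W (tb.get i)) (h0 : (tb.get 0).k = 0) (h00 : (tb.get 0).l0 = 0)
    (h01 : (tb.get 0).l1 = 0) (h02 : (tb.get 0).l2 = 0) {src dst : E → V} (h3 : H3 src dst)
    (hS : Smp src dst) (rk : V → ℕ)
    (hb : ∀ P : Finset V, (∀ x ∈ P, Nis src dst x → ∀ y, y ∉ P → Nis src dst y → rk x ≤ rk y) →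
      (bd src dst P).card ≤ W) : Ext src dst (ind src dst univ) (fun _ => 0) := by
  classical
  rcases isEmpty_or_nonempty V with hV | ⟨⟨v0⟩⟩
  · refine ⟨fun _ => 1, fun e _ => (hV.false (src e)).elim, fun x => (hV.false x).elim⟩
  set P0 : Finset V := univ.filter (fun x => ¬ Nis src dst x) with hP0
  have hm : ∀ x, x ∈ P0 ↔ ¬ Nis src dst x := by intro x; simp [hP0]
  have hind : ind src dst P0 = ∅ := by
    apply eq_empty_of_forall_notMem
    intro e he
    rw [mem_ind, hm] at he
    exact he.2.1 ⟨e, he.1, Or.inl rfl⟩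
  have hbd : bd src dst P0 = ∅ := by
    apply eq_empty_of_forall_notMem
    intro x hx
    rw [mem_bd, hm] at hx
    apply hx.2
    intro e he he2
    exact absurd ⟨e, he, he2⟩ hx.1
  refine explore hE hW hT h3 hS rk hb _ P0 rfl (fun x hx => (hm x).mpr hx)
    (fun x hx hn => absurd hn ((hm x).mp hx)) ?_
  rw [hbd]
  refine ⟨0, 0, fun _ => v0, h0, ?_, by omega, by simp⟩
  rw [hind, h00, h01, h02]
  refine ⟨?_, ?_, ?_, ?_⟩
  · intro c _ _
    exact ⟨fun _ => 1, by simp, fun x => by simp [push]⟩
  · intro J _ h; simp at h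
  · intro J _ h; simp at h
  · intro J _ h; simp at h

/-- a path decomposition with bags of at most `w` vertices -/
def HasPD (w : ℕ) (src dst : E → V) : Prop :=
  ∃ X : ℕ → Finset V, (∀ e, ∃ i, src e ∈ X i ∧ dst e ∈ X i) ∧
    (∀ i j k, i ≤ j → j ≤ k → X i ∩ X k ⊆ X j) ∧ ∀ i, (X i).card ≤ w

omit [Fintype V] [Fintype E] [DecidableEq E] in
theorem HasPD.contract {w : ℕ} (src dst : E → V) (e : E) (h : HasPD w src dst)
    (hne : src e ≠ dst e) :
    HasPD w (phi (src e) (dst e) ∘ src) (phi (src e) (dst e) ∘ dst) := by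
  obtain ⟨X, h1, h2, h4⟩ := h
  refine ⟨fun i => (X i).image (phi (src e) (dst e)), ?_, ?_, fun i => card_image_le.trans (h4 i)⟩
  · intro d
    obtain ⟨i, hi1, hi2⟩ := h1 d
    exact ⟨i, mem_image_of_mem _ hi1, mem_image_of_mem _ hi2⟩
  · intro i j k hij hjk x hx
    rw [mem_inter, mem_image, mem_image] at hx
    obtain ⟨⟨y, hy, hyx⟩, ⟨z, hz, hzx⟩⟩ := hx
    rw [mem_image]
    by_cases hxu : x = src e
    · obtain ⟨b, hb1, hb2⟩ := h1 e
      have key : ∀ t, (∀ y, y ∈ X t → phi (src e) (dst e) y = x →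
          y ∈ X t ∧ (y = src e ∨ y = dst e)) := by
        intro t y hy hyx
        refine ⟨hy, ?_⟩
        unfold phi at hyx
        by_cases h : y = dst e
        · exact Or.inr h
        · rw [if_neg h] at hyx
          exact Or.inl (hyx.trans hxu)
      have hfin : ∀ y, (y = src e ∨ y = dst e) → phi (src e) (dst e) y = x := by
        rintro y (rfl | rfl)
        · unfold phi; rw [if_neg hne, hxu]
        · unfold phi; rw [if_pos rfl, hxu]
      have hyb : ∀ y, (y = src e ∨ y = dst e) → y ∈ X b := by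
        rintro y (rfl | rfl)
        · exact hb1
        · exact hb2
      rcases le_total j b with hjb | hjb
      · obtain ⟨h5, h6⟩ := key i y hy hyx
        exact ⟨y, h2 i j b hij hjb (mem_inter.mpr ⟨h5, hyb y h6⟩), hfin y h6⟩
      · obtain ⟨h5, h6⟩ := key k z hz hzx
        exact ⟨z, h2 b j k hjb hjk (mem_inter.mpr ⟨hyb z h6, h5⟩), hfin z h6⟩
    · have hy' : y = x := by
        unfold phi at hyx
        by_cases h : y = dst e
        · rw [if_pos h] at hyx; exact absurd hyx.symm hxu
        · rw [if_neg h] at hyx; exact hyx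
      have hz' : z = x := by
        unfold phi at hzx
        by_cases h : z = dst e
        · rw [if_pos h] at hzx; exact absurd hzx.symm hxu
        · rw [if_neg h] at hzx; exact hzx
      refine ⟨x, h2 i j k hij hjk (mem_inter.mpr ⟨hy' ▸ hy, hz' ▸ hz⟩), ?_⟩
      rw [← hy']
      exact hyx.trans hy'.symm

omit [Fintype V] [Fintype E] in
theorem HasPD.loop {w : ℕ} (src dst : E → V) (D : Finset E) (h : HasPD w src dst) :
    HasPD w src (lp src dst D) := by
  obtain ⟨X, h1, h2, h4⟩ := h
  refine ⟨X, fun e => ?_, h2, h4⟩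
  obtain ⟨i, hi1, hi2⟩ := h1 e
  refine ⟨i, hi1, ?_⟩
  unfold lp
  split_ifs
  · exact hi1
  · exact hi2

omit [Fintype V] [Fintype E] [DecidableEq E] in
theorem HasPD.bound {W : ℕ} {src dst : E → V} (h : HasPD (W + 1) src dst) :
    ∃ rk : V → ℕ, ∀ P : Finset V,
      (∀ x ∈ P, Nis src dst x → ∀ y, y ∉ P → Nis src dst y → rk x ≤ rk y) →
      (bd src dst P).card ≤ W := by
  classical
  obtain ⟨X, h1, h2, h4⟩ := h
  refine ⟨fun v => sInf {i | v ∈ X i}, fun P hP => ?_⟩
  set rk : V → ℕ := fun v => sInf {i | v ∈ X i} with hrk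
  have hmem : ∀ v, Nis src dst v → v ∈ X (rk v) := by
    rintro v ⟨e, _, he⟩
    obtain ⟨i, hi1, hi2⟩ := h1 e
    have : (rk v) ∈ {i | v ∈ X i} := Nat.sInf_mem ⟨i, by
      rcases he with he | he
      · exact he ▸ hi1
      · exact he ▸ hi2⟩
    exact this
  have hle : ∀ v i, v ∈ X i → rk v ≤ i := fun v i hi => Nat.sInf_le hi
  -- neighbours outside
  have hout : ∀ x ∈ bd src dst P, ∃ y, y ∉ P ∧ Nis src dst y ∧ ∃ j, x ∈ X j ∧ y ∈ X j := by
    intro x hx
    obtain ⟨hxP, hxc⟩ := mem_bd.mp hx
    unfold Cpt at hxc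
    push Not at hxc
    obtain ⟨e, he, he2, he3⟩ := hxc
    obtain ⟨j, hj1, hj2⟩ := h1 e
    rcases he2 with h | h
    · exact ⟨dst e, he3 (h ▸ hxP), ⟨e, he, Or.inr rfl⟩, j, h ▸ hj1, hj2⟩
    · refine ⟨src e, fun h' => he3 h' (h ▸ hxP), ⟨e, he, Or.inl rfl⟩, j, h ▸ hj2, hj1⟩
  by_cases hex : ∃ n y, rk y = n ∧ y ∉ P ∧ Nis src dst y
  · obtain ⟨w, hw1, hw2, hw3⟩ := Nat.find_spec hex
    have hmin : ∀ y, y ∉ P → Nis src dst y → rk w ≤ rk y := by
      intro y hy1 hy2
      rw [hw1]
      exact Nat.find_min' hex ⟨y, rfl, hy1, hy2⟩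
    have hsub : bd src dst P ⊆ (X (rk w)).erase w := by
      intro x hx
      obtain ⟨y, hy1, hy2, j, hj1, hj2⟩ := hout x hx
      obtain ⟨hxP, hxc⟩ := mem_bd.mp hx
      have hnx : Nis src dst x := by
        unfold Cpt at hxc
        push Not at hxc
        obtain ⟨e, he, he2, _⟩ := hxc
        exact ⟨e, he, he2⟩
      rw [mem_erase]
      refine ⟨fun h => hw2 (h ▸ hxP), ?_⟩
      exact h2 (rk x) (rk w) j (hP x hxP hnx w hw2 hw3) ((hmin y hy1 hy2).trans (hle y j hj2))
        (mem_inter.mpr ⟨hmem x hnx, hj1⟩)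
    have h5 := card_le_card hsub
    rw [card_erase_of_mem (hmem w hw3)] at h5
    have h6 := h4 (rk w)
    omega
  · push Not at hex
    have : bd src dst P = ∅ := by
      apply eq_empty_of_forall_notMem
      intro x hx
      obtain ⟨y, hy1, hy2, _⟩ := hout x hx
      exact hex _ y rfl hy1 hy2
    rw [this]; simp

omit [DecidableEq E] in
theorem nzf_of_ext {src dst : E → V} (h : Ext src dst (ind src dst univ) (fun _ => 0)) :
    NZF src dst := by
  classical
  obtain ⟨f, hf, hc⟩ := h
  refine ⟨fun e => if src e = dst e then 1 else f e, fun e => ?_, fun x => ?_⟩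
  · change (if src e = dst e then (1 : ZMod 5) else f e) ≠ 0
    by_cases h : src e = dst e
    · rw [if_pos h]; decide
    · rw [if_neg h]
      exact hf e (mem_ind.mpr ⟨h, mem_univ _, mem_univ _⟩)
  · refine Eq.trans ?_ (hc x)
    rw [← sum_subset (subset_univ (ind src dst univ))]
    · refine sum_congr rfl fun e he => ?_
      change (if src e = dst e then (1 : ZMod 5) else f e) * ic src dst e x = _
      rw [if_neg (mem_ind.mp he).1]
    · intro e _ he
      have h : src e = dst e := by
        by_contra h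
        exact he (mem_ind.mpr ⟨h, mem_univ _, mem_univ _⟩)
      rw [ic_loop h, mul_zero]

/-- all states of a table -/
def AllT (Q : St → Prop) : Tb → Prop
  | .lf s => Q s
  | .nd l r => AllT Q l ∧ AllT Q r

theorem AllT.get {Q : St → Prop} {t : Tb} (h : AllT Q t) : ∀ i, Q (t.get i) := by
  induction t with
  | lf s => intro i; exact h
  | nd l r ihl ihr =>
    intro i
    have e : (Tb.nd l r).get i = cnd (Nat.beq (Nat.land i 1) 0) (l.get (Nat.shiftRight i 1))
      (r.get (Nat.shiftRight i 1)) := rfl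
    rw [e]
    cases Nat.beq (Nat.land i 1) 0 with
    | true => exact ihl h.1 _
    | false => exact ihr h.2 _

/-- **Main theorem with a table as a hypothesis.** -/
theorem flow_of_table {dflt : SwR} {Ev : Env} {tb : Tb} {W : ℕ} (hE : Ev.OK W dflt) (hW : 1 ≤ W)
    (hT : ∀ i, ∃ c, chk dflt Ev tb W (tb.get i) c = true) (h0 : (tb.get 0).k = 0)
    (h00 : (tb.get 0).l0 = 0) (h01 : (tb.get 0).l1 = 0) (h02 : (tb.get 0).l2 = 0)
    (src dst : E → V) (hb : ∀ Y, (dlt src dst Y).card ≠ 1) (hPD : HasPD (W + 1) src dst) :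
    NZF src dst := by
  refine main_red (HasPD (W + 1)) (fun src dst e h hne => HasPD.contract src dst e h hne)
    (fun src dst D h => HasPD.loop src dst D h) ?_ _ src dst rfl hb hPD
  intro src dst hPD h3 hS
  obtain ⟨rk, hrk⟩ := hPD.bound
  exact nzf_of_ext (explore_all hE hW (fun i => chk_tst hE (hT i).choose_spec) h0 h00 h01 h02 h3 hS
    rk hrk)

end Pool.Agent.TH497.PW
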