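import Pool.Agent.H79.LF.TH395_P5_Stm

set_option autoImplicit false
set_option linter.unusedSectionVars false

/-! # Reducible rooted graphs -/

namespace Pool.Agent.TH395.P5

open Finset Pool.Agent.TH462.T4 Pool.Agent.TH676.T4

/-! ### membership tests -/

def memN (x : ℕ) (l : List ℕ) : Bool := l.any fun y => Nat.beq y x

theorem beq_iff {a b : ℕ} : Nat.beq a b = true ↔ a = b :=
  ⟨Nat.eq_of_beq_eq_true, fun h => h ▸ Nat.beq_refl a⟩

theorem ble_iff {a b : ℕ} : Nat.ble a b = true ↔ a ≤ b :=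
  ⟨Nat.le_of_ble_eq_true, Nat.ble_eq_true_of_le⟩

theorem memN_iff {x : ℕ} {l : List ℕ} : memN x l = true ↔ x ∈ l := by
  unfold memN
  rw [List.any_eq_true]
  constructor
  · rintro ⟨y, hy, h⟩
    rw [beq_iff] at h
    exact h ▸ hy
  · intro h
    exact ⟨x, h, beq_iff.mpr rfl⟩

def memP (p : ℕ × ℕ) (l : List (ℕ × ℕ)) : Bool :=
  l.any fun q => Nat.beq q.1 p.1 && Nat.beq q.2 p.2

theorem memP_iff {p : ℕ × ℕ} {l : List (ℕ × ℕ)} : memP p l = true ↔ p ∈ l := by
  unfold memP
  rw [List.any_eq_true]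
  constructor
  · rintro ⟨q, hq, h⟩
    rw [Bool.and_eq_true, beq_iff, beq_iff] at h
    have : q = p := Prod.ext h.1 h.2
    exact this ▸ hq
  · intro h
    exact ⟨p, h, by rw [Bool.and_eq_true, beq_iff, beq_iff]; exact ⟨rfl, rfl⟩⟩

def noDupP : List (ℕ × ℕ) → Bool
  | [] => true
  | x :: l => !memP x l && noDupP l

theorem noDupP_iff {l : List (ℕ × ℕ)} : noDupP l = true ↔ l.Nodup := by
  induction l with
  | nil => simp [noDupP]
  | cons x l ih =>
    rw [noDupP, Bool.and_eq_true, ih, List.nodup_cons, ← memP_iff]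
    simp

theorem noDup_iff {l : List ℕ} : noDup l = true ↔ l.Nodup := by
  induction l with
  | nil => simp [noDup]
  | cons x l ih =>
    rw [noDup, Bool.and_eq_true, ih, List.nodup_cons, List.all_eq_true]
    constructor
    · rintro ⟨h1, h2⟩
      refine ⟨fun h => ?_, h2⟩
      have := h1 x h
      rw [beq_iff.mpr rfl] at this
      simp at this
    · rintro ⟨h1, h2⟩
      refine ⟨fun y hy => ?_, h2⟩
      rw [Bool.not_eq_true', ← Bool.not_eq_true, beq_iff]
      exact fun h => h1 (h ▸ hy)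

/-- all tests of a reduction -/
noncomputable def redOK (n : ℕ) (ops : List Op) (rt ms rs us : List ℕ) : Bool :=
  okOps ops act0 6 && (Nat.beq (endNx ops 6) n && (noDupP (edOf ops) &&
    (Nat.beq ms.length (edOf ops).length && ((ms.all fun m => Nat.ble m 2) &&
    ((ms.any fun m => !Nat.beq m 0) &&
    ((rs.all fun i => Nat.ble (i + 1) 6 && memN (sl ops i) rt) && (noDup rs &&
    ((rt.all fun u => rs.any fun i => Nat.beq (sl ops i) u) &&
    ((us.all fun i => Nat.ble (i + 1) 6 && (!memN i rs && (!memN (sl ops i) rt &&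
        Nat.ble (sl ops i + 1) n))) &&
      redChk ops ms rs us)))))))))

variable {V E : Type} [Fintype V] [DecidableEq V] [Fintype E] [DecidableEq E]

theorem JV.symm {src dst : E → V} {e : E} {x y : V} (h : JV src dst e x y) : JV src dst e y x := by
  rcases h with ⟨a, b⟩ | ⟨a, b⟩
  · exact Or.inr ⟨a, b⟩
  · exact Or.inl ⟨a, b⟩

theorem JV.ne {src dst : E → V} {e : E} {x y : V} (h : JV src dst e x y) (hxy : x ≠ y) :
    src e ≠ dst e := by
  rcases h with ⟨a, b⟩ | ⟨a, b⟩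
  · rw [a, b]; exact hxy
  · rw [a, b]; exact hxy.symm

/-- a choice of the edges -/
theorem Emb.choose_es {src dst : E → V} {n : ℕ} {ed : List (ℕ × ℕ)} {rt : List ℕ} {φ : ℕ → V}
    (h : Emb src dst n ed rt φ) (hn : 0 < n) :
    ∃ es : ℕ × ℕ → E, ∀ p ∈ ed, JV src dst (es p) (φ p.1) (φ p.2) := by
  classical
  obtain ⟨e0, _⟩ := h.nis 0 hn
  refine ⟨fun p => if hp : ∃ e, JV src dst e (φ p.1) (φ p.2) then hp.choose else e0, ?_⟩
  intro p hp
  have h1 := h.edge p hp
  simp only [h1, dif_pos]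
  exact h1.choose_spec

/-- the nonloops inside the part are the listed edges -/
theorem Emb.mem_img {src dst : E → V} {n : ℕ} {ed : List (ℕ × ℕ)} {rt : List ℕ} {φ : ℕ → V}
    (h : Emb src dst n ed rt φ) (hS : Smp src dst) {es : ℕ × ℕ → E}
    (hes : ∀ p ∈ ed, JV src dst (es p) (φ p.1) (φ p.2)) {i j : ℕ} (hi : i < n) (hj : j < n)
    (hij : i ≠ j) {e : E} (he : JV src dst e (φ i) (φ j)) : e ∈ img es ed := by
  have key : ∀ i j, i < j → j < n → JV src dst e (φ i) (φ j) → e ∈ img es ed := by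
    intro i j hij hj he
    have h1 := h.ins i j hij hj e he
    have h2 := hes _ h1
    have hne : φ i ≠ φ j := fun h3 => hij.ne (h.inj _ _ (hij.trans hj) hj h3)
    rw [hS e (es (i, j)) _ _ hne he h2]
    unfold img
    exact mem_image_of_mem _ (List.mem_toFinset.mpr h1)
  rcases lt_or_gt_of_ne hij with h1 | h1
  · exact key i j h1 hj he
  · exact key j i h1 hi (JV.symm he)

theorem Emb.img_ends {src dst : E → V} {n : ℕ} {ed : List (ℕ × ℕ)} {rt : List ℕ} {φ : ℕ → V}
    (h : Emb src dst n ed rt φ) {es : ℕ × ℕ → E}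
    (hes : ∀ p ∈ ed, JV src dst (es p) (φ p.1) (φ p.2)) {e : E} (he : e ∈ img es ed) :
    ∃ p ∈ ed, es p = e ∧ p.1 < p.2 ∧ p.2 < n ∧ JV src dst e (φ p.1) (φ p.2) := by
  unfold img at he
  obtain ⟨p, hp, rfl⟩ := mem_image.mp he
  rw [List.mem_toFinset] at hp
  exact ⟨p, hp, rfl, (h.lt p hp).1, (h.lt p hp).2, hes p hp⟩

theorem bdF_univ (src dst : E → V) (f : E → K4) (x : V) : bdF src dst univ f x = bd src dst f x :=
  rfl

/-- at a complete vertex the boundary is the boundary inside the part -/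
theorem Emb.bd_eq {src dst : E → V} {n : ℕ} {ed : List (ℕ × ℕ)} {rt : List ℕ} {φ : ℕ → V}
    (h : Emb src dst n ed rt φ) (hS : Smp src dst) {es : ℕ × ℕ → E}
    (hes : ∀ p ∈ ed, JV src dst (es p) (φ p.1) (φ p.2)) {i : ℕ} (hi : i < n) (hr : i ∉ rt)
    (f : E → K4) : bdF src dst (img es ed) f (φ i) = bd src dst f (φ i) := by
  unfold bdF bd
  refine sum_subset (subset_univ _) ?_
  intro e _ he
  by_cases h1 : src e = φ i
  · by_cases h2 : dst e = φ i
    · rw [if_pos h1, if_pos h2, K4.add_self]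
    · exfalso
      obtain ⟨j, hj, hj2⟩ := h.cpt i hi hr e (dst e) h2 (Or.inl ⟨h1, rfl⟩)
      exact he (h.mem_img hS hes hi hj (fun h3 => h2 (by rw [hj2, h3])) (Or.inl ⟨h1, hj2⟩))
  · by_cases h2 : dst e = φ i
    · exfalso
      obtain ⟨j, hj, hj2⟩ := h.cpt i hi hr e (src e) h1 (Or.inr ⟨rfl, h2⟩)
      exact he (h.mem_img hS hes hi hj (fun h3 => h1 (by rw [hj2, h3])) (Or.inr ⟨hj2, h2⟩))
    · rw [if_neg h1, if_neg h2, add_zero]

/-- outside the part the boundary inside the part is zero -/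
theorem Emb.bd_out {src dst : E → V} {n : ℕ} {ed : List (ℕ × ℕ)} {rt : List ℕ} {φ : ℕ → V}
    (h : Emb src dst n ed rt φ) {es : ℕ × ℕ → E}
    (hes : ∀ p ∈ ed, JV src dst (es p) (φ p.1) (φ p.2)) {x : V} (hx : ∀ i, i < n → x ≠ φ i)
    (f : E → K4) : bdF src dst (img es ed) f x = 0 := by
  unfold bdF
  refine sum_eq_zero fun e he => ?_
  obtain ⟨p, hp, _, h1, h2, hj⟩ := h.img_ends hes he
  have a1 : src e ≠ x := by
    rcases hj with ⟨a, _⟩ | ⟨a, _⟩
    · rw [a]; exact (hx _ (h1.trans h2)).symm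
    · rw [a]; exact (hx _ h2).symm
  have a2 : dst e ≠ x := by
    rcases hj with ⟨_, a⟩ | ⟨_, a⟩
    · rw [a]; exact (hx _ h2).symm
    · rw [a]; exact (hx _ (h1.trans h2)).symm
  rw [if_neg a1, if_neg a2, add_zero]

theorem bdF_split (src dst : E → V) (F : Finset E) (f : E → K4) (x : V) :
    bd src dst f x = bdF src dst F f x + bdF src dst Fᶜ f x := by
  unfold bd bdF
  rw [← sum_add_sum_compl F]

theorem bdF_congr {src dst : E → V} {F : Finset E} {f g : E → K4} (h : ∀ e ∈ F, f e = g e) (x : V) :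
    bdF src dst F f x = bdF src dst F g x := by
  unfold bdF
  exact sum_congr rfl fun e he => by rw [h e he]

/-- replacing the values inside the part -/
theorem glue_part {src dst : E → V} {F : Finset E} {f g : E → K4} (hf : ∀ v, bd src dst f v = 0)
    (hg : ∀ x, bdF src dst F g x = bdF src dst F f x) (hgn : ∀ e ∈ F, g e ≠ 0)
    (hfn : ∀ e, e ∉ F → f e ≠ 0) : FlowOn src dst ∅ ∅ := by
  refine ⟨fun e => if e ∈ F then g e else f e, fun v => ?_, fun e he => absurd he (notMem_empty _),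
    fun e _ _ => ?_⟩
  · rw [bdF_split src dst F, bdF_congr (F := F) (g := g) (fun e he => if_pos he),
      bdF_congr (F := Fᶜ) (g := f) (fun e he => if_neg (mem_compl.mp he)), hg, ← bdF_split, hf]
  · by_cases he : e ∈ F
    · simp only [he, if_true]; exact hgn e he
    · simp only [he, if_false]; exact hfn e he

theorem mem_zip_of {α β : Type} {l : List α} {m : List β} (h : m.length = l.length) {a : α}
    (ha : a ∈ l) : ∃ b, (a, b) ∈ l.zip m := by
  obtain ⟨i, hi, rfl⟩ := List.getElem_of_mem ha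
  refine ⟨m[i], ?_⟩
  rw [List.mem_iff_getElem]
  refine ⟨i, by rw [List.length_zip]; omega, ?_⟩
  rw [List.getElem_zip]

theorem mem_zip_of' {α β : Type} {l : List α} {m : List β} (h : m.length = l.length) {b : β}
    (hb : b ∈ m) : ∃ a, (a, b) ∈ l.zip m := by
  obtain ⟨i, hi, rfl⟩ := List.getElem_of_mem hb
  refine ⟨l[i], ?_⟩
  rw [List.mem_iff_getElem]
  refine ⟨i, by rw [List.length_zip]; omega, ?_⟩
  rw [List.getElem_zip]

theorem mem_imgM {es : ℕ × ℕ → E} {ps : List (ℕ × ℕ)} {ms : List ℕ} {m : ℕ} {e : E} :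
    e ∈ imgM es ps ms m ↔ ∃ p, (p, m) ∈ ps.zip ms ∧ es p = e := by
  unfold imgM
  rw [List.mem_toFinset, List.mem_map]
  constructor
  · rintro ⟨q, hq, rfl⟩
    rw [List.mem_filter, decide_eq_true_eq] at hq
    exact ⟨q.1, by rw [← hq.2]; exact hq.1, rfl⟩
  · rintro ⟨p, hp, rfl⟩
    exact ⟨(p, m), by rw [List.mem_filter, decide_eq_true_eq]; exact ⟨hp, rfl⟩, rfl⟩

theorem es_inj {src dst : E → V} {n : ℕ} {ed : List (ℕ × ℕ)} {rt : List ℕ} {φ : ℕ → V}
    (h : Emb src dst n ed rt φ) {es : ℕ × ℕ → E}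
    (hes : ∀ p ∈ ed, JV src dst (es p) (φ p.1) (φ p.2)) {p q : ℕ × ℕ} (hp : p ∈ ed) (hq : q ∈ ed)
    (he : es p = es q) : p = q := by
  have h1 := hes p hp
  have h2 := hes q hq
  rw [he] at h1
  obtain ⟨a1, a2⟩ := h.lt p hp
  obtain ⟨b1, b2⟩ := h.lt q hq
  have key : ∀ i j, i < n → j < n → φ i = φ j → i = j := h.inj
  rcases h1 with ⟨c1, c2⟩ | ⟨c1, c2⟩ <;> rcases h2 with ⟨d1, d2⟩ | ⟨d1, d2⟩
  · have e1 := key _ _ (a1.trans a2) (b1.trans b2) (c1.symm.trans d1)
    have e2 := key _ _ a2 b2 (c2.symm.trans d2)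
    exact Prod.ext e1 e2
  · have e1 := key _ _ (a1.trans a2) b2 (c1.symm.trans d1)
    have e2 := key _ _ a2 (b1.trans b2) (c2.symm.trans d2)
    omega
  · have e1 := key _ _ a2 (b1.trans b2) (c1.symm.trans d1)
    have e2 := key _ _ (a1.trans a2) b2 (c2.symm.trans d2)
    omega
  · have e1 := key _ _ a2 b2 (c1.symm.trans d1)
    have e2 := key _ _ (a1.trans a2) (b1.trans b2) (c2.symm.trans d2)
    exact Prod.ext e2 e1

theorem zip_fun {α β : Type} {l : List α} (hl : l.Nodup) : ∀ {m : List β} {a : α} {b b' : β},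
    (a, b) ∈ l.zip m → (a, b') ∈ l.zip m → b = b' := by
  induction l with
  | nil => intro m a b b' h; simp at h
  | cons x l ih =>
    intro m a b b' h h'
    rcases m with _ | ⟨y, m⟩
    · simp at h
    · rw [List.zip_cons_cons, List.mem_cons] at h h'
      rw [List.nodup_cons] at hl
      rcases h with h | h <;> rcases h' with h' | h'
      · rw [Prod.mk.injEq] at h h'
        rw [h.2, h'.2]
      · rw [Prod.mk.injEq] at h
        exact absurd ((List.of_mem_zip h').1) (by rw [h.1]; exact hl.1)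
      · rw [Prod.mk.injEq] at h'
        exact absurd ((List.of_mem_zip h).1) (by rw [h'.1]; exact hl.1)
      · exact ih hl.2 h h'

/-- **A reducible part does not occur in a minimal counterexample.** -/
theorem red_sound (hF : S_FLOW) (hC : S_CUT) {src dst : E → V} (hM : MinCx src dst)
    (hS : Smp src dst) {n : ℕ} {ops : List Op} {rt ms rs us : List ℕ} {φ : ℕ → V}
    (h : Emb src dst n (edOf ops) rt φ) (hn : 0 < n) (hc : redOK n ops rt ms rs us = true) :
    False := by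
  unfold redOK at hc
  simp only [Bool.and_eq_true, beq_iff, noDupP_iff, noDup_iff, List.all_eq_true,
    List.any_eq_true, ble_iff, memN_iff, Bool.not_eq_true', redChk] at hc
  obtain ⟨c1, c2, c3, c4, c5, ⟨m, hm, hm0⟩, c7, c8, c9, c10, c11, c12⟩ := hc
  have hus : ∀ i ∈ us, i ∉ rs ∧ sl ops i ∉ rt ∧ sl ops i < n := by
    intro i hi
    obtain ⟨_, h1, h2, h3'⟩ := c10 i hi
    refine ⟨fun h3 => ?_, fun h3 => ?_, h3'⟩
    · rw [memN_iff.mpr h3] at h1; exact absurd h1 (by simp)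
    · rw [memN_iff.mpr h3] at h2; exact absurd h2 (by simp)
  obtain ⟨es, hes⟩ := h.choose_es hn
  have hBr := hC V E src dst φ es n ops ms us rs rt hM hS h c1 c2 c3 hes c4 c5
    (fun i hi => ⟨(c7 i hi).1, (c7 i hi).2⟩) c8 c9 (fun i hi => ⟨(c10 i hi).1, (hus i hi).1⟩) c11
  have hdis : Disjoint (imgM es (edOf ops) ms 1) (imgM es (edOf ops) ms 2) := by
    rw [disjoint_left]
    intro e h1 h2
    obtain ⟨p, hp, rfl⟩ := mem_imgM.mp h1
    obtain ⟨q, hq, hqe⟩ := mem_imgM.mp h2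
    have : q = p := es_inj h hes (List.of_mem_zip hq).1 (List.of_mem_zip hp).1 hqe
    subst this
    exact absurd (zip_fun c3 hp hq) (by norm_num)
  have hne : ∃ e ∈ imgM es (edOf ops) ms 1 ∪ imgM es (edOf ops) ms 2, src e ≠ dst e := by
    obtain ⟨p, hp⟩ := mem_zip_of' c4 hm
    have hm' : m = 1 ∨ m = 2 := by
      have h1 := c5 m hm
      have h2 : m ≠ 0 := by
        intro h3
        rw [h3] at hm0
        exact absurd hm0 (by decide)
      omega
    have hpe := (List.of_mem_zip hp).1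
    have hlt := h.lt p hpe
    refine ⟨es p, ?_, JV.ne (hes p hpe) (fun h3 => ?_)⟩
    · rw [mem_union, mem_imgM, mem_imgM]
      rcases hm' with h1 | h1
      · left; exact ⟨p, h1 ▸ hp, rfl⟩
      · right; exact ⟨p, h1 ▸ hp, rfl⟩
    · have := h.inj _ _ (hlt.1.trans hlt.2) hlt.2 h3
      omega
  obtain ⟨f, hf0, hf1, hf2⟩ := hM.crit _ _ hdis hne hBr
  obtain ⟨g, hg1, hg2⟩ := hF V E src dst φ es n ops ms us c1 c2 h.inj h.lt c3 hes c4
    (fun i hi => (c10 i hi).1) c12 f (fun e he => by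
      obtain ⟨p, hp, rfl⟩ := mem_imgM.mp he
      refine hf2 _ (fun h1 => ?_) (fun h1 => ?_)
      · obtain ⟨q, hq, hqe⟩ := mem_imgM.mp h1
        have : q = p := es_inj h hes (List.of_mem_zip hq).1 (List.of_mem_zip hp).1 hqe
        subst this
        exact absurd (zip_fun c3 hp hq) (by norm_num)
      · obtain ⟨q, hq, hqe⟩ := mem_imgM.mp h1
        have : q = p := es_inj h hes (List.of_mem_zip hq).1 (List.of_mem_zip hp).1 hqe
        subst this
        exact absurd (zip_fun c3 hp hq) (by norm_num)) hf1 (fun x hx => by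
      by_cases hxP : ∃ j, j < n ∧ x = φ j
      · obtain ⟨j, hj, rfl⟩ := hxP
        have hjr : j ∉ rt := by
          intro h1
          obtain ⟨i, hi, hi2⟩ := c9 j h1
          exact hx i (c7 i hi).1 (by rw [hi2])
        rw [h.bd_eq hS hes hj hjr, hf0]
      · exact h.bd_out hes (fun i hi h1 => hxP ⟨i, hi, h1⟩) f) (fun i hi => by
      rw [h.bd_eq hS hes (hus i hi).2.2 (hus i hi).2.1, hf0])
  refine hM.nf (glue_part hf0 hg2 hg1 fun e he => hf2 e (fun h1 => ?_) (fun h1 => ?_))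
  · obtain ⟨p, hp, rfl⟩ := mem_imgM.mp h1
    exact he (mem_image_of_mem _ (List.mem_toFinset.mpr (List.of_mem_zip hp).1))
  · obtain ⟨p, hp, rfl⟩ := mem_imgM.mp h1
    exact he (mem_image_of_mem _ (List.mem_toFinset.mpr (List.of_mem_zip hp).1))

end Pool.Agent.TH395.P5
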