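import Pool.Agent.H79.LF.TH395_P5_Ext

set_option autoImplicit false
set_option linter.unusedSectionVars false

/-! # The closure test and its soundness -/

namespace Pool.Agent.TH395.P5

open Finset Pool.Agent.TH462.T4 Pool.Agent.TH676.T4

/-- a table state: the number of vertices, the construction, the roots with their slots, and a
free slot -/
structure QS where
  n : ℕ
  ops : List Op
  rt : List (ℕ × ℕ)
  fs : ℕ

/-- the construction of the graph with one more vertex, joined to the roots `A` -/
def nextOps (n : ℕ) (ops : List Op) (fs : ℕ) (A : List (ℕ × ℕ)) : List Op :=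
  ops ++ ((if n < 6 then [] else [Op.o fs]) ++
    A.map fun a => Op.e a.1 n a.2 (if n < 6 then n else fs))

theorem edOf_append (l m : List Op) : edOf (l ++ m) = edOf l ++ edOf m := by
  induction l with
  | nil => rfl
  | cons x l ih =>
    rcases x with ⟨u, v, i, j⟩ | i
    · rw [List.cons_append, edOf, edOf, ih, List.cons_append]
    · rw [List.cons_append, edOf, edOf, ih]

theorem edOf_map (n s : ℕ) (A : List (ℕ × ℕ)) :
    edOf (A.map fun a => Op.e a.1 n a.2 s) = A.map fun a => (a.1, n) := by
  induction A with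
  | nil => rfl
  | cons x l ih => rw [List.map_cons, edOf, ih, List.map_cons]

theorem edOf_next (n : ℕ) (ops : List Op) (fs : ℕ) (A : List (ℕ × ℕ)) :
    edOf (nextOps n ops fs A) = edOf ops ++ A.map fun a => (a.1, n) := by
  unfold nextOps
  rw [edOf_append, edOf_append, edOf_map]
  congr 1
  by_cases h : n < 6
  · rw [if_pos h]; rfl
  · rw [if_neg h]; rfl

theorem mem_edOf_next {n : ℕ} {ops : List Op} {fs : ℕ} {A : List (ℕ × ℕ)} (p : ℕ × ℕ) :
    p ∈ edOf (nextOps n ops fs A) ↔ p ∈ edOf ops ∨ ∃ a ∈ A.map Prod.fst, p = (a, n) := by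
  rw [edOf_next, List.mem_append, List.mem_map]
  constructor
  · rintro (h | ⟨a, ha, rfl⟩)
    · exact Or.inl h
    · exact Or.inr ⟨a.1, List.mem_map_of_mem ha, rfl⟩
  · rintro (h | ⟨a, ha, rfl⟩)
    · exact Or.inl h
    · obtain ⟨b, hb, rfl⟩ := List.mem_map.mp ha
      exact Or.inr ⟨b, hb, rfl⟩

/-- certificates for the graph closed by one vertex joined to all roots -/
inductive CC
  | pet (B : List (List ℕ))
  | deg (x : ℕ)
  | flow (A : List (ℕ × ℕ)) (fs : ℕ)

/-- certificates after the choice of the neighbours of the new vertex -/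
inductive CR
  | split (a b : CR)
  | deg (x : ℕ)
  | big
  | red (ms rs us : List ℕ)
  | iso (s : ℕ) (π ρ : List ℕ)
  | two (x : ℕ)
  | sep (I Z : List ℕ) (x x2 r : ℕ)
  | clo (x x2 : ℕ) (c : CC)

/-- certificates for a table state -/
inductive CA
  | split (a b : CA)
  | far (a b : ℕ)
  | pet (B : List (List ℕ))
  | fin (c : CR)

noncomputable def chkC (n : ℕ) (ops : List Op) (rt : List ℕ) : CC → Bool
  | .pet B => petChk (n + 1) (edOf ops ++ rt.map fun a => (a, n)) B
  | .deg x => Nat.ble (x + 1) (n + 1) && Nat.ble (degE (edOf ops ++ rt.map fun a => (a, n)) x) 2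
  | .flow A fs => (A.all fun a => memN a.1 rt) && ((rt.all fun r => memN r (A.map Prod.fst)) &&
      (okOps (nextOps n ops fs A) act0 6 && (Nat.beq (endNx (nextOps n ops fs A) 6) (n + 1) &&
      (noDupP (edOf (nextOps n ops fs A)) &&
      flowRun (flowFin []) (nextOps n ops fs A)
        (List.replicate (edOf (nextOps n ops fs A)).length 1) 1 1))))

def getQ : List QS → ℕ → Option QS
  | [], _ => none
  | q :: _, 0 => some q
  | _ :: l, n + 1 => getQ l n

theorem getQ_mem : ∀ {l : List QS} {i : ℕ} {q : QS}, getQ l i = some q → q ∈ l := by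
  intro l
  induction l with
  | nil => intro i q h; simp [getQ] at h
  | cons x l ih =>
    intro i q h
    rcases i with _ | i
    · simp only [getQ, Option.some.injEq] at h
      rw [← h]; exact List.mem_cons_self ..
    · exact List.mem_cons_of_mem _ (ih h)

noncomputable def chkR (tb : List QS) (n : ℕ) (ops : List Op) : CR → List ℕ → List ℕ → Bool
  | .split a b, x :: cs, rt => chkR tb n ops a cs (x :: rt) && chkR tb n ops b cs rt
  | .deg x, cs, rt => Nat.ble (x + 1) n && (!memN x rt && (!memN x cs &&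
      Nat.ble (degE (edOf ops) x) 2))
  | .big, _, rt => noDup rt && Nat.ble 6 rt.length
  | .red ms rs us, [], rt => Nat.ble 1 n && redOK n ops rt ms rs us
  | .iso s π ρ, [], rt =>
    match getQ tb s with
    | some q => isoChk n q.n (edOf ops) (edOf q.ops) rt (q.rt.map Prod.fst) π ρ
    | none => false
  | .two x, [], rt => Nat.ble rt.length 2 && (!rt.isEmpty && (Nat.ble (x + 1) n && !memN x rt))
  | .sep I Z x x2 r, [], rt => (I.all fun i => Nat.ble (i + 1) n && !memN i rt) &&
      (((edOf ops).all fun p => (!memN p.1 I || (memN p.2 I || memN p.2 Z)) &&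
        (!memN p.2 I || (memN p.1 I || memN p.1 Z))) &&
      (Nat.ble Z.length 3 && ((Z.all fun z => Nat.ble (z + 1) n) &&
      (memN x I && (memN x2 I && (!Nat.beq x x2 && (memN r rt && !memN r Z)))))))
  | .clo x x2 c, [], rt => Nat.ble rt.length 3 && (!rt.isEmpty && (Nat.ble (x + 1) n &&
      (!memN x rt && (Nat.ble (x2 + 1) n && (!memN x2 rt && (!Nat.beq x x2 &&
        chkC n ops rt c))))))
  | _, _, _ => false

noncomputable def chkA (tb : List QS) (q : QS) : CA → List (ℕ × ℕ) → List (ℕ × ℕ) → List ℕ → Bool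
  | .split a b, r :: rem, cho, non =>
    chkA tb q a rem cho (r.1 :: non) && chkA tb q b rem (r :: cho) non
  | .far a b, _, cho, _ => memN a (cho.map Prod.fst) && (memN b (cho.map Prod.fst) &&
      (!Nat.beq a b && (adjE (edOf q.ops) a b ||
        (List.range q.n).any fun c => adjE (edOf q.ops) a c && adjE (edOf q.ops) b c)))
  | .pet B, [], cho, _ => petChk (q.n + 1) (edOf (nextOps q.n q.ops q.fs cho)) B
  | .fin c, [], cho, non =>
    chkR tb (q.n + 1) (nextOps q.n q.ops q.fs cho) c (q.n :: cho.map Prod.fst) non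
  | _, _, _, _ => false

variable {V E : Type} [Fintype V] [DecidableEq V] [Fintype E] [DecidableEq E]

/-- the hypotheses on the parts of the proof -/
structure Parts : Prop where
  flow : S_FLOW
  cut : S_CUT
  smp : S_SMP
  tri : S_TRI
  quad : S_QUAD
  pet : S_PET

theorem flow_closed (hp : Parts) {src dst : E → V} (hM : MinCx src dst) (hS : Smp src dst)
    {n : ℕ} {ops : List Op} {φ : ℕ → V} (h : Emb src dst n (edOf ops) [] φ) (hn : 0 < n)
    (hall : ∀ y, Nis src dst y → ∃ i, i < n ∧ y = φ i)
    (c1 : okOps ops act0 6 = true) (c2 : endNx ops 6 = n) (c3 : (edOf ops).Nodup)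
    (c4 : flowRun (flowFin []) ops (List.replicate (edOf ops).length 1) 1 1 = true) : False := by
  obtain ⟨es, hes⟩ := h.choose_es hn
  have hzip : ∀ (l : List (ℕ × ℕ)) (p : ℕ × ℕ) (m : ℕ),
      (p, m) ∈ l.zip (List.replicate l.length 1) → m = 1 := by
    intro l p m h1
    exact List.eq_of_mem_replicate (List.of_mem_zip h1).2
  obtain ⟨g, hg1, hg2⟩ := hp.flow V E src dst φ es n ops (List.replicate (edOf ops).length 1) []
    c1 c2 h.inj h.lt c3 hes (by simp) (by simp) c4 (fun _ => 0) (fun e he => by
      obtain ⟨p, hp1, _⟩ := mem_imgM.mp he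
      exact absurd (hzip _ _ _ hp1) (by norm_num)) (fun e _ => rfl)
    (fun x _ => by unfold bdF; simp) (by simp)
  refine hM.nf ⟨fun e => if e ∈ img es (edOf ops) then g e else (1, 1), fun v => ?_,
    fun e he => absurd he (notMem_empty _), fun e _ _ => ?_⟩
  · rw [bdF_split src dst (img es (edOf ops)),
      bdF_congr (F := img es (edOf ops)) (g := g) (fun e he => if_pos he), hg2]
    have h1 : bdF src dst (img es (edOf ops)) (fun _ => 0) v = 0 := by unfold bdF; simp
    rw [h1, zero_add]
    unfold bdF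
    refine sum_eq_zero fun e he => ?_
    have h2 : src e = dst e := by
      by_contra h3
      obtain ⟨i, hi, hi2⟩ := hall (src e) ⟨e, h3, Or.inl rfl⟩
      obtain ⟨j, hj, hj2⟩ := hall (dst e) ⟨e, h3, Or.inr rfl⟩
      have hij : i ≠ j := fun h4 => h3 (by rw [hi2, hj2, h4])
      exact (mem_compl.mp he) (h.mem_img hS hes hi hj hij (Or.inl ⟨hi2, hj2⟩))
    rw [h2]
    exact K4.add_self _
  · by_cases he : e ∈ img es (edOf ops)
    · simp only [he, if_true]; exact hg1 e he
    · simp only [he, if_false]; decide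

theorem chkC_sound (hp : Parts) {src dst : E → V} (hM : MinCx src dst) (hS : Smp src dst)
    (hnp : ¬ PetMinor src dst) {n : ℕ} {ops : List Op} {rt : List ℕ} {φ : ℕ → V}
    (h : Emb src dst n (edOf ops) rt φ) (hl : rt.length ≤ 3) {r x x2 : ℕ}
    (hr : r ∈ rt) (hx : x < n) (hxr : x ∉ rt) (hx2 : x2 < n) (hxr2 : x2 ∉ rt) (hne : x ≠ x2)
    (c : CC) (hc : chkC n ops rt c = true) : False := by
  rcases c with B | x' | ⟨A, fs⟩
  · obtain ⟨w, _, hE⟩ := h.three_roots hM hl hr hx hxr hx2 hxr2 hne
      (ed' := edOf ops ++ rt.map fun a => (a, n)) (by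
        intro p
        rw [List.mem_append, List.mem_map]
        constructor
        · rintro (h1 | ⟨a, ha, rfl⟩)
          · exact Or.inl h1
          · exact Or.inr ⟨a, ha, rfl⟩
        · rintro (h1 | ⟨a, ha, rfl⟩)
          · exact Or.inl h1
          · exact Or.inr ⟨a, ha, rfl⟩)
    exact hnp (hp.pet V E src dst _ _ _ _ B hE hc)
  · obtain ⟨w, _, hE⟩ := h.three_roots hM hl hr hx hxr hx2 hxr2 hne
      (ed' := edOf ops ++ rt.map fun a => (a, n)) (by
        intro p
        rw [List.mem_append, List.mem_map]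
        constructor
        · rintro (h1 | ⟨a, ha, rfl⟩)
          · exact Or.inl h1
          · exact Or.inr ⟨a, ha, rfl⟩
        · rintro (h1 | ⟨a, ha, rfl⟩)
          · exact Or.inl h1
          · exact Or.inr ⟨a, ha, rfl⟩)
    change (Nat.ble (x' + 1) (n + 1) && _) = true at hc
    rw [Bool.and_eq_true, ble_iff, ble_iff] at hc
    exact hE.deg hM hS (x := x') (by omega) (by simp) hc.2
  · change ((A.all fun a => memN a.1 rt) && _) = true at hc
    simp only [Bool.and_eq_true, List.all_eq_true, memN_iff, beq_iff, noDupP_iff] at hc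
    obtain ⟨c1, c2, c3, c4, c5, c6⟩ := hc
    obtain ⟨w, hall, hE⟩ := h.three_roots hM hl hr hx hxr hx2 hxr2 hne
      (ed' := edOf (nextOps n ops fs A)) (by
        intro p
        rw [mem_edOf_next]
        constructor
        · rintro (h1 | ⟨a, ha, rfl⟩)
          · exact Or.inl h1
          · obtain ⟨b, hb, rfl⟩ := List.mem_map.mp ha
            exact Or.inr ⟨b.1, c1 b hb, rfl⟩
        · rintro (h1 | ⟨a, ha, rfl⟩)
          · exact Or.inl h1
          · exact Or.inr ⟨a, c2 a ha, rfl⟩)
    exact flow_closed hp hM hS hE (Nat.succ_pos n) hall c3 c4 c5 c6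

/-- represented by a table state -/
def InTb (tb : List QS) (src dst : E → V) (n : ℕ) (φ : ℕ → V) : Prop :=
  ∃ q ∈ tb, ∃ ψ : ℕ → V, Emb src dst q.n (edOf q.ops) (q.rt.map Prod.fst) ψ ∧
    ∀ x, (∃ i, i < n ∧ φ i = x) ↔ ∃ i, i < q.n ∧ ψ i = x

theorem nmem_of {x : ℕ} {l : List ℕ} (h : memN x l = false) : x ∉ l := by
  intro h1
  rw [memN_iff.mpr h1] at h
  exact absurd h (by simp)

theorem chkR_sound (hp : Parts) {src dst : E → V} (hM : MinCx src dst) (hS : Smp src dst)
    (hnp : ¬ PetMinor src dst) {tb : List QS} {n : ℕ} {ops : List Op} {φ : ℕ → V}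
    (hE : ∀ rt : List ℕ, (∀ i ∈ rt, i < n ∧ Outs src dst n φ i) →
      (∀ i, i < n → i ∉ rt → ¬ Outs src dst n φ i) → Emb src dst n (edOf ops) rt φ)
    (hE0 : ∃ rt, Emb src dst n (edOf ops) rt φ)
    (hb : ∀ rt : List ℕ, rt.Nodup → (∀ i ∈ rt, i < n ∧ Outs src dst n φ i) → rt.length ≤ 5)
    (c : CR) : ∀ (cs rt : List ℕ), chkR tb n ops c cs rt = true → (∀ i ∈ cs, i < n) →
      (∀ i ∈ rt, i < n ∧ Outs src dst n φ i) →
      (∀ i, i < n → i ∉ rt → i ∉ cs → ¬ Outs src dst n φ i) → InTb tb src dst n φ := by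
  induction c with
  | split a b iha ihb =>
    intro cs rt hc h1 h2 h3
    rcases cs with _ | ⟨x, cs⟩
    · exact absurd hc (by simp [chkR])
    · change (chkR tb n ops a cs (x :: rt) && chkR tb n ops b cs rt) = true at hc
      rw [Bool.and_eq_true] at hc
      by_cases hx : Outs src dst n φ x
      · refine iha _ _ hc.1 (fun i hi => h1 i (List.mem_cons_of_mem _ hi)) ?_ ?_
        · intro i hi
          rcases List.mem_cons.mp hi with h4 | h4
          · rw [h4]; exact ⟨h1 x (List.mem_cons_self ..), hx⟩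
          · exact h2 i h4
        · intro i hi h4 h5
          rw [List.mem_cons, not_or] at h4
          exact h3 i hi h4.2 (by rw [List.mem_cons, not_or]; exact ⟨h4.1, h5⟩)
      · refine ihb _ _ hc.2 (fun i hi => h1 i (List.mem_cons_of_mem _ hi)) h2 ?_
        intro i hi h4 h5
        by_cases hix : i = x
        · rw [hix]; exact hx
        · exact h3 i hi h4 (by rw [List.mem_cons, not_or]; exact ⟨hix, h5⟩)
  | deg x =>
    intro cs rt hc h1 h2 h3
    change (Nat.ble (x + 1) n && (!memN x rt && (!memN x cs && Nat.ble (degE (edOf ops) x) 2)))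
      = true at hc
    simp only [Bool.and_eq_true, ble_iff, Bool.not_eq_true'] at hc
    obtain ⟨c1, c2, c3, c4⟩ := hc
    exfalso
    obtain ⟨rt0, h4⟩ := hE0
    by_cases h5 : x ∈ rt0
    · exact h3 x c1 (nmem_of c2) (nmem_of c3) (h4.out x h5)
    · exact h4.deg hM hS c1 h5 c4
  | big =>
    intro cs rt hc h1 h2 h3
    change (noDup rt && Nat.ble 6 rt.length) = true at hc
    rw [Bool.and_eq_true, noDup_iff, ble_iff] at hc
    have := hb rt hc.1 h2
    omega
  | red ms rs us =>
    intro cs rt hc h1 h2 h3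
    rcases cs with _ | ⟨x, cs⟩
    · change (Nat.ble 1 n && redOK n ops rt ms rs us) = true at hc
      rw [Bool.and_eq_true, ble_iff] at hc
      exact (red_sound hp.flow hp.cut hM hS (hE rt h2 (fun i hi h4 => h3 i hi h4 (by simp)))
        hc.1 hc.2).elim
    · exact absurd hc (by simp [chkR])
  | iso s π ρ =>
    intro cs rt hc h1 h2 h3
    rcases cs with _ | ⟨x, cs⟩
    · have hc' : (match getQ tb s with
        | some q => isoChk n q.n (edOf ops) (edOf q.ops) rt (q.rt.map Prod.fst) π ρ
        | none => false) = true := hc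
      rcases hq : getQ tb s with _ | q
      · rw [hq] at hc'; exact absurd hc' (by simp)
      · rw [hq] at hc'
        obtain ⟨h5, h6⟩ := (hE rt h2 (fun i hi h4 => h3 i hi h4 (by simp))).iso hc'
        exact ⟨q, getQ_mem hq, _, h5, h6⟩
    · exact absurd hc (by simp [chkR])
  | two x =>
    intro cs rt hc h1 h2 h3
    rcases cs with _ | ⟨y, cs⟩
    · change (Nat.ble rt.length 2 && (!rt.isEmpty && (Nat.ble (x + 1) n && !memN x rt)))
        = true at hc
      simp only [Bool.and_eq_true, ble_iff, Bool.not_eq_true'] at hc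
      obtain ⟨c1, c2, c3, c4⟩ := hc
      rcases rt with _ | ⟨r, rt⟩
      · simp at c2
      · exact ((hE _ h2 (fun i hi h4 => h3 i hi h4 (by simp))).two_roots hM c1
          (List.mem_cons_self ..) c3 (nmem_of c4)).elim
    · exact absurd hc (by simp [chkR])
  | sep I Z x x2 r =>
    intro cs rt hc h1 h2 h3
    rcases cs with _ | ⟨y, cs⟩
    · change ((I.all fun i => Nat.ble (i + 1) n && !memN i rt) && _) = true at hc
      simp only [Bool.and_eq_true, ble_iff, Bool.not_eq_true', List.all_eq_true, memN_iff,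
        Bool.or_eq_true] at hc
      obtain ⟨c1, c2, c3, c4, c5, c6, c7, c8, c9⟩ := hc
      exfalso
      refine (hE _ h2 (fun i hi h4 => h3 i hi h4 (by simp))).sep3 hM (I := I) (Z := Z)
        (fun i hi => ⟨(c1 i hi).1, nmem_of (c1 i hi).2⟩) ?_ c3 c4 c5 c6 ?_ c8 (nmem_of c9)
      · intro p hp'
        obtain ⟨d1, d2⟩ := c2 p hp'
        refine ⟨fun h4 => ?_, fun h4 => ?_⟩
        · rcases d1 with d1 | d1
          · exact absurd h4 (nmem_of d1)
          · exact d1
        · rcases d2 with d2 | d2
          · exact absurd h4 (nmem_of d2)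
          · exact d2
      · intro h4
        rw [beq_iff.mpr h4] at c7
        exact absurd c7 (by simp)
    · exact absurd hc (by simp [chkR])
  | clo x x2 c =>
    intro cs rt hc h1 h2 h3
    rcases cs with _ | ⟨y, cs⟩
    · change (Nat.ble rt.length 3 && (!rt.isEmpty && (Nat.ble (x + 1) n &&
        (!memN x rt && (Nat.ble (x2 + 1) n && (!memN x2 rt && (!Nat.beq x x2 &&
        chkC n ops rt c))))))) = true at hc
      simp only [Bool.and_eq_true, ble_iff, Bool.not_eq_true'] at hc
      obtain ⟨c1, c2, c3, c4, c5, c6, c7, c8⟩ := hc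
      exfalso
      rcases rt with _ | ⟨r, rt⟩
      · simp at c2
      · refine chkC_sound hp hM hS hnp (hE _ h2 (fun i hi h4 => h3 i hi h4 (by simp))) c1
          (List.mem_cons_self ..) c3 (nmem_of c4) c5 (nmem_of c6) ?_ c c8
        intro h4
        rw [beq_iff.mpr h4] at c7
        exact absurd c7 (by simp)
    · exact absurd hc (by simp [chkR])

/-- **one more vertex** -/
theorem chkA_sound (hp : Parts) {src dst : E → V} (hM : MinCx src dst)
    (hnp : ¬ PetMinor src dst) {tb : List QS} {q : QS} {φ : ℕ → V}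
    (h : Emb src dst q.n (edOf q.ops) (q.rt.map Prod.fst) φ) {v : V}
    (hv : ∀ i, i < q.n → v ≠ φ i) (nv : Nis src dst v)
    (hb : ∀ rt : List ℕ, rt.Nodup →
      (∀ i ∈ rt, i < q.n + 1 ∧ Outs src dst (q.n + 1) (nxt φ q.n v) i) → rt.length ≤ 5)
    (c : CA) : ∀ (rem cho : List (ℕ × ℕ)) (non : List ℕ), chkA tb q c rem cho non = true →
      (∀ r ∈ rem, r ∈ q.rt) →
      (∀ r ∈ cho, r ∈ q.rt ∧ ∃ e, JV src dst e (φ r.1) v) →
      (∀ x ∈ non, x ∈ q.rt.map Prod.fst ∧ ¬ ∃ e, JV src dst e (φ x) v) →
      (∀ r ∈ q.rt, r ∈ rem ∨ r ∈ cho ∨ r.1 ∈ non) →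
      InTb tb src dst (q.n + 1) (nxt φ q.n v) := by
  have hS := hp.smp V E src dst hM
  induction c with
  | split a b iha ihb =>
    intro rem cho non hc h1 h2 h3 h4
    rcases rem with _ | ⟨r, rem⟩
    · exact absurd hc (by simp [chkA])
    · change (chkA tb q a rem cho (r.1 :: non) && chkA tb q b rem (r :: cho) non) = true at hc
      rw [Bool.and_eq_true] at hc
      have hr := h1 r (List.mem_cons_self ..)
      by_cases hx : ∃ e, JV src dst e (φ r.1) v
      · refine ihb _ _ _ hc.2 (fun i hi => h1 i (List.mem_cons_of_mem _ hi)) ?_ h3 ?_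
        · intro i hi
          rcases List.mem_cons.mp hi with h5 | h5
          · rw [h5]; exact ⟨hr, hx⟩
          · exact h2 i h5
        · intro i hi
          rcases h4 i hi with h5 | h5 | h5
          · rcases List.mem_cons.mp h5 with h6 | h6
            · right; left; rw [h6]; exact List.mem_cons_self ..
            · exact Or.inl h6
          · exact Or.inr (Or.inl (List.mem_cons_of_mem _ h5))
          · exact Or.inr (Or.inr h5)
      · refine iha _ _ _ hc.1 (fun i hi => h1 i (List.mem_cons_of_mem _ hi)) h2 ?_ ?_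
        · intro i hi
          rcases List.mem_cons.mp hi with h5 | h5
          · rw [h5]; exact ⟨List.mem_map_of_mem hr, hx⟩
          · exact h3 i h5
        · intro i hi
          rcases h4 i hi with h5 | h5 | h5
          · rcases List.mem_cons.mp h5 with h6 | h6
            · right; right; rw [h6]; exact List.mem_cons_self ..
            · exact Or.inl h6
          · exact Or.inr (Or.inl h5)
          · exact Or.inr (Or.inr (List.mem_cons_of_mem _ h5))
  | far a b =>
    intro rem cho non hc h1 h2 h3 h4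
    exfalso
    change (memN a (cho.map Prod.fst) && (memN b (cho.map Prod.fst) &&
      (!Nat.beq a b && (adjE (edOf q.ops) a b ||
        (List.range q.n).any fun c => adjE (edOf q.ops) a c && adjE (edOf q.ops) b c)))) = true
      at hc
    simp only [Bool.and_eq_true, memN_iff, Bool.not_eq_true', Bool.or_eq_true, List.any_eq_true,
      List.mem_range] at hc
    obtain ⟨c1, c2, c3, c4⟩ := hc
    have hab : a ≠ b := by
      intro h5
      rw [beq_iff.mpr h5] at c3
      exact absurd c3 (by simp)
    obtain ⟨ra, hra, rfl⟩ := List.mem_map.mp c1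
    obtain ⟨rb, hrb, rfl⟩ := List.mem_map.mp c2
    obtain ⟨ha, hva⟩ := h2 ra hra
    obtain ⟨hb', hvb⟩ := h2 rb hrb
    have han := h.rlt _ (List.mem_map_of_mem (f := Prod.fst) ha)
    have hbn := h.rlt _ (List.mem_map_of_mem (f := Prod.fst) hb')
    have hφ : φ ra.1 ≠ φ rb.1 := fun h5 => hab (h.inj _ _ han hbn h5)
    have hadj : ∀ x y, adjE (edOf q.ops) x y = true → ∃ e, JV src dst e (φ x) (φ y) := by
      intro x y hxy
      rcases adjE_iff.mp hxy with h5 | h5
      · exact h.edge _ h5
      · obtain ⟨e, he⟩ := h.edge _ h5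
        exact ⟨e, JV.symm he⟩
    have hsym : ∀ x y, (∃ e, JV src dst e x y) → ∃ e, JV src dst e y x := by
      rintro x y ⟨e, he⟩
      exact ⟨e, JV.symm he⟩
    rcases c4 with c4 | ⟨c, hcn, c5, c6⟩
    · exact hp.tri V E src dst hM (φ ra.1) (φ rb.1) v hφ (hv _ han).symm (hv _ hbn).symm
        (hadj _ _ c4) hvb (hsym _ _ hva)
    · have hca : φ ra.1 ≠ φ c := by
        intro h5
        have := h.inj _ _ han hcn h5
        rw [← this] at c5
        rcases adjE_iff.mp c5 with h6 | h6
        · exact absurd (h.lt _ h6).1 (lt_irrefl _)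
        · exact absurd (h.lt _ h6).1 (lt_irrefl _)
      have hcb : φ rb.1 ≠ φ c := by
        intro h5
        have := h.inj _ _ hbn hcn h5
        rw [← this] at c6
        rcases adjE_iff.mp c6 with h6 | h6
        · exact absurd (h.lt _ h6).1 (lt_irrefl _)
        · exact absurd (h.lt _ h6).1 (lt_irrefl _)
      exact hp.quad V E src dst hM (φ ra.1) (φ c) (φ rb.1) v hca hφ (hv _ han).symm hcb.symm
        (hv _ hcn).symm (hv _ hbn).symm (hadj _ _ c5) (hsym _ _ (hadj _ _ c6)) hvb
        (hsym _ _ hva)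
  | pet B =>
    intro rem cho non hc h1 h2 h3 h4
    exfalso
    rcases rem with _ | ⟨r, rem⟩
    · change petChk (q.n + 1) (edOf (nextOps q.n q.ops q.fs cho)) B = true at hc
      classical
      have hE := h.ext hv nv (A := cho.map Prod.fst) (by
          intro a ha
          obtain ⟨r, hr, rfl⟩ := List.mem_map.mp ha
          exact ⟨h.rlt _ (List.mem_map_of_mem (f := Prod.fst) (h2 r hr).1), (h2 r hr).2⟩) (by
          intro i hi hie
          by_cases hir : i ∈ q.rt.map Prod.fst
          · obtain ⟨r, hr, rfl⟩ := List.mem_map.mp hir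
            rcases h4 r hr with h5 | h5 | h5
            · simp at h5
            · exact List.mem_map_of_mem h5
            · exact absurd hie (h3 _ h5).2
          · obtain ⟨e, he⟩ := hie
            obtain ⟨j, hj, hj2⟩ := h.cpt i hi hir e v (hv i hi) he
            exact absurd hj2 (hv j hj)) (ed' := edOf (nextOps q.n q.ops q.fs cho)) mem_edOf_next
        (rt' := (List.range (q.n + 1)).filter fun i =>
          decide (Outs src dst (q.n + 1) (nxt φ q.n v) i)) (by
          intro i hi
          rw [List.mem_filter, List.mem_range, decide_eq_true_eq] at hi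
          exact hi) (by
          intro i hi h5 h6
          exact h5 (by rw [List.mem_filter, List.mem_range, decide_eq_true_eq]; exact ⟨hi, h6⟩))
      exact hnp (hp.pet V E src dst _ _ _ _ B hE hc)
    · exact absurd hc (by simp [chkA])
  | fin c =>
    intro rem cho non hc h1 h2 h3 h4
    rcases rem with _ | ⟨r, rem⟩
    · change chkR tb (q.n + 1) (nextOps q.n q.ops q.fs cho) c (q.n :: cho.map Prod.fst) non
        = true at hc
      have hA1 : ∀ a ∈ cho.map Prod.fst, a < q.n ∧ ∃ e, JV src dst e (φ a) v := by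
        intro a ha
        obtain ⟨r, hr, rfl⟩ := List.mem_map.mp ha
        exact ⟨h.rlt _ (List.mem_map_of_mem (f := Prod.fst) (h2 r hr).1), (h2 r hr).2⟩
      have hA2 : ∀ i, i < q.n → (∃ e, JV src dst e (φ i) v) → i ∈ cho.map Prod.fst := by
        intro i hi hie
        by_cases hir : i ∈ q.rt.map Prod.fst
        · obtain ⟨r, hr, rfl⟩ := List.mem_map.mp hir
          rcases h4 r hr with h5 | h5 | h5
          · simp at h5
          · exact List.mem_map_of_mem h5
          · exact absurd hie (h3 _ h5).2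
        · obtain ⟨e, he⟩ := hie
          obtain ⟨j, hj, hj2⟩ := h.cpt i hi hir e v (hv i hi) he
          exact absurd hj2 (hv j hj)
      have hE : ∀ rt : List ℕ,
          (∀ i ∈ rt, i < q.n + 1 ∧ Outs src dst (q.n + 1) (nxt φ q.n v) i) →
          (∀ i, i < q.n + 1 → i ∉ rt → ¬ Outs src dst (q.n + 1) (nxt φ q.n v) i) →
          Emb src dst (q.n + 1) (edOf (nextOps q.n q.ops q.fs cho)) rt (nxt φ q.n v) :=
        fun rt h5 h6 => h.ext hv nv hA1 hA2 mem_edOf_next h5 h6
      classical
      have hE0 : ∃ rt, Emb src dst (q.n + 1) (edOf (nextOps q.n q.ops q.fs cho)) rt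
          (nxt φ q.n v) := by
        refine ⟨(List.range (q.n + 1)).filter fun i =>
          decide (Outs src dst (q.n + 1) (nxt φ q.n v) i), hE _ ?_ ?_⟩
        · intro i hi
          rw [List.mem_filter, List.mem_range, decide_eq_true_eq] at hi
          exact hi
        · intro i hi h5 h6
          exact h5 (by rw [List.mem_filter, List.mem_range, decide_eq_true_eq]; exact ⟨hi, h6⟩)
      refine chkR_sound hp hM hS hnp hE hE0 hb c _ _ hc ?_ ?_ ?_
      · intro i hi
        rcases List.mem_cons.mp hi with h5 | h5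
        · rw [h5]; exact Nat.lt_succ_self _
        · exact (hA1 i h5).1.trans (Nat.lt_succ_self _)
      · intro i hi
        obtain ⟨h5, h6⟩ := h3 i hi
        have hin := h.rlt i h5
        refine ⟨hin.trans (Nat.lt_succ_self _), ?_⟩
        obtain ⟨e, y, hj, hy, hy2⟩ := h.out i h5
        refine ⟨e, y, ?_, ?_, ?_⟩
        · rw [nxt_lt hin]; exact hj
        · rw [nxt_lt hin]; exact hy
        · intro j hj'
          rcases Nat.lt_succ_iff_lt_or_eq.mp hj' with h7 | h7
          · rw [nxt_lt h7]; exact hy2 j h7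
          · rw [h7, nxt_self]
            intro h8
            exact h6 ⟨e, h8 ▸ hj⟩
      · rintro i hi h5 h6 ⟨e, y, hj, hy, hy2⟩
        rw [List.mem_cons, not_or] at h6
        have hin : i < q.n := by
          have := h6.1
          omega
        rw [nxt_lt hin] at hj hy
        by_cases hir : i ∈ q.rt.map Prod.fst
        · obtain ⟨r, hr, rfl⟩ := List.mem_map.mp hir
          rcases h4 r hr with h7 | h7 | h7
          · simp at h7
          · exact h6.2 (List.mem_map_of_mem h7)
          · exact h5 h7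
        · obtain ⟨j, hjn, hj2⟩ := h.cpt i hin hir e y hy hj
          exact hy2 j (hjn.trans (Nat.lt_succ_self _)) (by rw [nxt_lt hjn]; exact hj2)
    · exact absurd hc (by simp [chkA])

end Pool.Agent.TH395.P5
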