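import Pool.Agent.H79.LF.TH395_P5_Defs

set_option autoImplicit false

/-! # Statements of the parts -/

namespace Pool.Agent.TH395.P5

open Finset Pool.Agent.TH462.T4 Pool.Agent.TH676.T4

/-- vertex name in slot `i` at the end -/
def sl (ops : List Op) (i : ℕ) : ℕ := (endAct ops act0 6).getD i 99

/-- PF-A: the test of the flows is sound -/
def S_FLOW : Prop :=
  ∀ (V E : Type) [Fintype V] [DecidableEq V] [Fintype E] [DecidableEq E] (src dst : E → V)
    (φ : ℕ → V) (es : ℕ × ℕ → E) (n : ℕ) (ops : List Op) (ms us : List ℕ),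
    okOps ops act0 6 = true → endNx ops 6 = n →
    (∀ i j, i < n → j < n → φ i = φ j → i = j) →
    (∀ p ∈ edOf ops, p.1 < p.2 ∧ p.2 < n) → (edOf ops).Nodup →
    (∀ p ∈ edOf ops, JV src dst (es p) (φ p.1) (φ p.2)) →
    ms.length = (edOf ops).length → (∀ i ∈ us, i < 6) →
    flowRun (flowFin us) ops ms 1 1 = true →
    ∀ f : E → K4, (∀ e ∈ imgM es (edOf ops) ms 0, f e ≠ 0) →
      (∀ e ∈ imgM es (edOf ops) ms 1, f e = 0) →
      (∀ x, (∀ i, i < 6 → φ (sl ops i) ≠ x) → bdF src dst (img es (edOf ops)) f x = 0) →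
      (∀ i ∈ us, bdF src dst (img es (edOf ops)) f (φ (sl ops i)) = 0) →
      ∃ g : E → K4, (∀ e ∈ img es (edOf ops), g e ≠ 0) ∧
        ∀ x, bdF src dst (img es (edOf ops)) g x = bdF src dst (img es (edOf ops)) f x

/-- PF-B: the test of the cuts is sound -/
def S_CUT : Prop :=
  ∀ (V E : Type) [Fintype V] [DecidableEq V] [Fintype E] [DecidableEq E] (src dst : E → V)
    (φ : ℕ → V) (es : ℕ × ℕ → E) (n : ℕ) (ops : List Op) (ms us rs rt : List ℕ),
    MinCx src dst → Smp src dst → Emb src dst n (edOf ops) rt φ →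
    okOps ops act0 6 = true → endNx ops 6 = n → (edOf ops).Nodup →
    (∀ p ∈ edOf ops, JV src dst (es p) (φ p.1) (φ p.2)) →
    ms.length = (edOf ops).length → (∀ m ∈ ms, m ≤ 2) →
    (∀ i ∈ rs, i < 6 ∧ sl ops i ∈ rt) → rs.Nodup → (∀ u ∈ rt, ∃ i ∈ rs, sl ops i = u) →
    (∀ i ∈ us, i < 6 ∧ i ∉ rs) →
    cutRun (cutFin rs us) ops ms jAll 0 jAll jAll jAll jAll = true →
    Br src dst (imgM es (edOf ops) ms 1) (imgM es (edOf ops) ms 2)

/-- PF-C1: no parallel edges -/
def S_SMP : Prop :=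
  ∀ (V E : Type) [Fintype V] [DecidableEq V] [Fintype E] [DecidableEq E] (src dst : E → V),
    MinCx src dst → Smp src dst

/-- PF-C2: no triangles -/
def S_TRI : Prop :=
  ∀ (V E : Type) [Fintype V] [DecidableEq V] [Fintype E] [DecidableEq E] (src dst : E → V),
    MinCx src dst → ∀ a b c : V, a ≠ b → a ≠ c → b ≠ c → (∃ e, JV src dst e a b) →
      (∃ e, JV src dst e b c) → (∃ e, JV src dst e c a) → False

/-- PF-C3: no circuits of length four -/
def S_QUAD : Prop :=
  ∀ (V E : Type) [Fintype V] [DecidableEq V] [Fintype E] [DecidableEq E] (src dst : E → V),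
    MinCx src dst → ∀ a b c d : V, a ≠ b → a ≠ c → a ≠ d → b ≠ c → b ≠ d → c ≠ d →
      (∃ e, JV src dst e a b) → (∃ e, JV src dst e b c) → (∃ e, JV src dst e c d) →
      (∃ e, JV src dst e d a) → False

/-- adjacency in a list of pairs -/
def adjE (ed : List (ℕ × ℕ)) (a b : ℕ) : Bool :=
  ed.any fun p => (Nat.beq p.1 a && Nat.beq p.2 b) || (Nat.beq p.1 b && Nat.beq p.2 a)

/-- every entry of the list is joined to an earlier one or to one in `acc` -/
def connL (ed : List (ℕ × ℕ)) : List ℕ → List ℕ → Bool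
  | _, [] => true
  | acc, x :: l => (acc.isEmpty || acc.any fun y => adjE ed x y) && connL ed (x :: acc) l

def noDup : List ℕ → Bool
  | [] => true
  | x :: l => (l.all fun y => !Nat.beq x y) && noDup l

/-- the edges of the Petersen graph -/
def petN : List (ℕ × ℕ) :=
  [(0, 1), (1, 2), (2, 3), (3, 4), (4, 0), (5, 7), (7, 9), (9, 6), (6, 8), (8, 5),
    (0, 5), (1, 6), (2, 7), (3, 8), (4, 9)]

/-- `B` is a list of ten branch sets of a Petersen minor in the graph on `0, ..., n - 1` -/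
def petChk (n : ℕ) (ed : List (ℕ × ℕ)) (B : List (List ℕ)) : Bool :=
  Nat.beq B.length 10 && (noDup B.flatten && ((B.flatten.all fun x => Nat.ble (x + 1) n) &&
    ((B.all fun l => !l.isEmpty && connL ed [] l) &&
      (petN.all fun q => (B.getD q.1 []).any fun x => (B.getD q.2 []).any fun y => adjE ed x y))))

/-- PF-D: the Petersen test is sound -/
def S_PET : Prop :=
  ∀ (V E : Type) [Fintype V] [DecidableEq V] [Fintype E] [DecidableEq E] (src dst : E → V)
    (φ : ℕ → V) (n : ℕ) (ed : List (ℕ × ℕ)) (rt : List ℕ) (B : List (List ℕ)),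
    Emb src dst n ed rt φ → petChk n ed B = true → PetMinor src dst

end Pool.Agent.TH395.P5
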