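import Pool.Agent.H79.LF.TH395_P5_Step

set_option autoImplicit false

/-! # The table of rooted graphs -/

namespace Pool.Agent.TH395.P5

def q0 : QS := ⟨0,[],[],0⟩

def q1 : QS := ⟨1,[],[(0,0)],0⟩

def q2 : QS := ⟨2,[],[(0,0),(1,1)],0⟩

def q3 : QS := ⟨2,[.e 0 1 0 1],[(0,0),(1,1)],0⟩

def q4 : QS := ⟨3,[],[(0,0),(1,1),(2,2)],0⟩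

def q5 : QS := ⟨3,[.e 1 2 1 2],[(0,0),(1,1),(2,2)],0⟩

def q6 : QS := ⟨3,[.e 0 2 0 2,.e 1 2 1 2],[(0,0),(1,1),(2,2)],0⟩

def q7 : QS := ⟨4,[.e 0 1 0 1,.e 0 2 0 2,.e 0 3 0 3],[(1,1),(2,2),(3,3)],0⟩

def q8 : QS := ⟨4,[],[(0,0),(1,1),(2,2),(3,3)],0⟩

def q9 : QS := ⟨4,[.e 2 3 2 3],[(0,0),(1,1),(2,2),(3,3)],0⟩

def q10 : QS := ⟨4,[.e 1 3 1 3,.e 2 3 2 3],[(0,0),(1,1),(2,2),(3,3)],0⟩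

def q11 : QS := ⟨4,[.e 0 3 0 3,.e 1 3 1 3,.e 2 3 2 3],[(0,0),(1,1),(2,2),(3,3)],0⟩

def q12 : QS := ⟨4,[.e 0 2 0 2,.e 1 3 1 3,.e 2 3 2 3],[(0,0),(1,1),(2,2),(3,3)],0⟩

def q13 : QS := ⟨4,[.e 0 1 0 1,.e 2 3 2 3],[(0,0),(1,1),(2,2),(3,3)],0⟩

def q14 : QS := ⟨5,[.e 0 2 0 2,.e 0 3 0 3,.e 0 4 0 4],[(1,1),(2,2),(3,3),(4,4)],0⟩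

def q15 : QS := ⟨5,[.e 0 1 0 1,.e 0 2 0 2,.e 0 3 0 3,.e 0 4 0 4],[(1,1),(2,2),(3,3),(4,4)],0⟩

def q16 : QS := ⟨5,[.e 0 1 0 1,.e 0 2 0 2,.e 0 3 0 3,.e 3 4 3 4],[(1,1),(2,2),(3,3),(4,4)],0⟩

def q17 : QS := ⟨5,[],[(0,0),(1,1),(2,2),(3,3),(4,4)],0⟩

def q18 : QS := ⟨5,[.e 3 4 3 4],[(0,0),(1,1),(2,2),(3,3),(4,4)],0⟩

def q19 : QS := ⟨5,[.e 2 4 2 4,.e 3 4 3 4],[(0,0),(1,1),(2,2),(3,3),(4,4)],0⟩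

def q20 : QS := ⟨5,[.e 1 4 1 4,.e 2 4 2 4,.e 3 4 3 4],[(0,0),(1,1),(2,2),(3,3),(4,4)],0⟩

def q21 : QS := ⟨5,[.e 0 4 0 4,.e 1 4 1 4,.e 2 4 2 4,.e 3 4 3 4],[(0,0),(1,1),(2,2),(3,3),(4,4)],0⟩

def q22 : QS := ⟨5,[.e 0 3 0 3,.e 1 4 1 4,.e 2 4 2 4,.e 3 4 3 4],[(0,0),(1,1),(2,2),(3,3),(4,4)],0⟩

def q23 : QS := ⟨5,[.e 1 3 1 3,.e 2 4 2 4,.e 3 4 3 4],[(0,0),(1,1),(2,2),(3,3),(4,4)],0⟩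

def q24 : QS := ⟨5,[.e 0 2 0 2,.e 1 3 1 3,.e 2 4 2 4,.e 3 4 3 4],[(0,0),(1,1),(2,2),(3,3),(4,4)],0⟩

def q25 : QS := ⟨5,[.e 1 2 1 2,.e 3 4 3 4],[(0,0),(1,1),(2,2),(3,3),(4,4)],0⟩

def q26 : QS := ⟨5,[.e 0 1 0 1,.e 2 4 2 4,.e 3 4 3 4],[(0,0),(1,1),(2,2),(3,3),(4,4)],0⟩

def q27 : QS := ⟨5,[.e 0 1 0 1,.e 0 2 0 2,.e 1 3 1 3,.e 2 4 2 4,.e 3 4 3 4],[(0,0),(1,1),(2,2),(3,3),(4,4)],0⟩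

def q28 : QS := ⟨6,[.e 0 1 0 1,.e 0 2 0 2,.e 0 3 0 3,.e 1 4 1 4,.e 1 5 1 5],[(2,2),(3,3),(4,4),(5,5)],0⟩

def q29 : QS := ⟨6,[.e 0 3 0 3,.e 0 4 0 4,.e 0 5 0 5],[(1,1),(2,2),(3,3),(4,4),(5,5)],0⟩

def q30 : QS := ⟨6,[.e 0 2 0 2,.e 0 3 0 3,.e 0 4 0 4,.e 0 5 0 5],[(1,1),(2,2),(3,3),(4,4),(5,5)],0⟩

def q31 : QS := ⟨6,[.e 0 2 0 2,.e 0 3 0 3,.e 0 4 0 4,.e 4 5 4 5],[(1,1),(2,2),(3,3),(4,4),(5,5)],0⟩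

def q32 : QS := ⟨6,[.e 0 1 0 1,.e 0 2 0 2,.e 0 3 0 3,.e 4 5 4 5],[(1,1),(2,2),(3,3),(4,4),(5,5)],0⟩

def q33 : QS := ⟨6,[.e 0 1 0 1,.e 0 2 0 2,.e 0 3 0 3,.e 3 5 3 5,.e 4 5 4 5],[(1,1),(2,2),(3,3),(4,4),(5,5)],0⟩

def q34 : QS := ⟨6,[.e 0 1 0 1,.e 0 2 0 2,.e 0 3 0 3,.e 0 4 0 4,.e 0 5 0 5],[(1,1),(2,2),(3,3),(4,4),(5,5)],0⟩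

def q35 : QS := ⟨6,[.e 0 1 0 1,.e 0 2 0 2,.e 0 3 0 3,.e 0 4 0 4,.e 4 5 4 5],[(1,1),(2,2),(3,3),(4,4),(5,5)],0⟩

def q36 : QS := ⟨6,[.e 0 1 0 1,.e 0 2 0 2,.e 0 3 0 3,.e 2 4 2 4,.e 3 5 3 5],[(1,1),(2,2),(3,3),(4,4),(5,5)],0⟩

def q37 : QS := ⟨6,[.e 0 1 0 1,.e 0 2 0 2,.e 0 3 0 3,.e 2 4 2 4,.e 3 5 3 5,.e 4 5 4 5],[(1,1),(2,2),(3,3),(4,4),(5,5)],0⟩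

def q38 : QS := ⟨6,[.e 0 1 0 1,.e 0 2 0 2,.e 0 3 0 3,.e 3 4 3 4,.e 3 5 3 5],[(1,1),(2,2),(3,3),(4,4),(5,5)],0⟩

def q39 : QS := ⟨7,[.e 0 2 0 2,.e 0 3 0 3,.e 1 4 1 4,.e 0 5 0 5,.e 1 5 1 5,.o 0,.e 1 6 1 0],[(2,2),(3,3),(4,4),(5,5),(6,0)],1⟩

def q40 : QS := ⟨7,[.e 0 2 0 2,.e 1 3 1 3,.e 0 4 0 4,.e 1 4 1 4,.e 0 5 0 5,.o 0,.e 1 6 1 0,.e 5 6 5 0],[(2,2),(3,3),(4,4),(5,5),(6,0)],1⟩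

def q41 : QS := ⟨7,[.e 0 2 0 2,.e 1 2 1 2,.e 0 3 0 3,.e 0 4 0 4,.e 1 5 1 5,.e 3 5 3 5,.o 0,.e 1 6 1 0,.e 4 6 4 0],[(2,2),(3,3),(4,4),(5,5),(6,0)],1⟩

def q42 : QS := ⟨7,[.e 0 1 0 1,.e 0 3 0 3,.e 0 4 0 4,.e 1 5 1 5,.o 0,.e 1 6 1 0],[(2,2),(3,3),(4,4),(5,5),(6,0)],1⟩

def q43 : QS := ⟨7,[.e 0 1 0 1,.e 0 2 0 2,.e 0 3 0 3,.e 1 4 1 4,.e 1 5 1 5,.o 0,.e 1 6 1 0],[(2,2),(3,3),(4,4),(5,5),(6,0)],1⟩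

def q44 : QS := ⟨7,[.e 0 1 0 1,.e 0 2 0 2,.e 0 3 0 3,.e 1 4 1 4,.e 1 5 1 5,.o 0,.e 5 6 5 0],[(2,2),(3,3),(4,4),(5,5),(6,0)],1⟩

def q45 : QS := ⟨7,[.e 0 1 0 1,.e 0 2 0 2,.e 1 3 1 3,.e 0 4 0 4,.e 1 5 1 5,.o 0,.e 4 6 4 0,.e 5 6 5 0],[(2,2),(3,3),(4,4),(5,5),(6,0)],1⟩

def q46 : QS := ⟨8,[.e 0 1 0 1,.e 2 3 2 3,.e 0 4 0 4,.e 2 4 2 4,.e 0 5 0 5,.e 3 5 3 5,.o 0,.e 1 6 1 0,.e 2 6 2 0,.o 2,.e 1 7 1 2,.e 3 7 3 2],[(4,4),(5,5),(6,0),(7,2)],1⟩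

def q47 : QS := ⟨8,[.e 0 1 0 1,.e 0 3 0 3,.e 1 4 1 4,.e 0 5 0 5,.e 2 5 2 5,.o 0,.e 1 6 1 0,.e 2 6 2 0,.o 1,.e 2 7 2 1],[(3,3),(4,4),(5,5),(6,0),(7,1)],2⟩

def q48 : QS := ⟨8,[.e 0 1 0 1,.e 0 3 0 3,.e 0 4 0 4,.e 2 4 2 4,.e 1 5 1 5,.e 2 5 2 5,.o 0,.e 1 6 1 0,.o 1,.e 2 7 2 1,.e 6 7 0 1],[(3,3),(4,4),(5,5),(6,0),(7,1)],2⟩

def q49 : QS := ⟨8,[.e 0 1 0 1,.e 0 3 0 3,.e 2 3 2 3,.e 1 4 1 4,.e 2 4 2 4,.e 0 5 0 5,.o 0,.e 1 6 1 0,.o 1,.e 2 7 2 1,.e 5 7 5 1,.e 6 7 0 1],[(3,3),(4,4),(5,5),(6,0),(7,1)],2⟩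

def q50 : QS := ⟨8,[.e 0 1 0 1,.e 0 2 0 2,.e 0 3 0 3,.e 1 4 1 4,.e 1 5 1 5,.o 0,.e 2 6 2 0,.o 1,.e 2 7 2 1],[(3,3),(4,4),(5,5),(6,0),(7,1)],2⟩

def q51 : QS := ⟨8,[.e 0 1 0 1,.e 0 2 0 2,.e 0 3 0 3,.e 1 4 1 4,.e 1 5 1 5,.o 0,.e 2 6 2 0,.e 4 6 4 0,.o 1,.e 2 7 2 1,.e 5 7 5 1],[(3,3),(4,4),(5,5),(6,0),(7,1)],2⟩

def q52 : QS := ⟨8,[.e 0 1 0 1,.e 0 2 0 2,.e 0 3 0 3,.e 1 4 1 4,.e 2 5 2 5,.o 0,.e 1 6 1 0,.o 1,.e 2 7 2 1,.e 6 7 0 1],[(3,3),(4,4),(5,5),(6,0),(7,1)],2⟩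

def q53 : QS := ⟨9,[.e 0 2 0 2,.e 1 3 1 3,.e 0 4 0 4,.e 0 5 0 5,.e 3 5 3 5,.o 0,.e 2 6 2 0,.e 3 6 3 0,.o 3,.e 1 7 1 3,.e 2 7 2 3,.o 2,.e 1 8 1 2],[(4,4),(5,5),(6,0),(7,3),(8,2)],1⟩

def q54 : QS := ⟨9,[.e 0 2 0 2,.e 1 3 1 3,.e 0 4 0 4,.e 1 4 1 4,.e 0 5 0 5,.e 3 5 3 5,.o 0,.e 1 6 1 0,.e 2 6 2 0,.o 1,.e 2 7 2 1,.e 3 7 3 1,.o 2,.e 7 8 1 2],[(4,4),(5,5),(6,0),(7,1),(8,2)],3⟩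

def q55 : QS := ⟨9,[.e 0 1 0 1,.e 2 3 2 3,.e 0 4 0 4,.e 2 4 2 4,.e 0 5 0 5,.e 3 5 3 5,.o 0,.e 1 6 1 0,.e 2 6 2 0,.o 2,.e 1 7 1 2,.e 3 7 3 2,.o 1],[(4,4),(5,5),(6,0),(7,2),(8,1)],3⟩

def q56 : QS := ⟨9,[.e 0 1 0 1,.e 2 3 2 3,.e 0 4 0 4,.e 2 4 2 4,.e 0 5 0 5,.e 3 5 3 5,.o 0,.e 1 6 1 0,.e 3 6 3 0,.o 3,.e 1 7 1 3,.e 2 7 2 3,.o 1,.e 5 8 5 1,.e 7 8 3 1],[(4,4),(5,5),(6,0),(7,3),(8,1)],2⟩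

def q57 : QS := ⟨9,[.e 0 1 0 1,.e 0 2 0 2,.e 1 4 1 4,.e 0 5 0 5,.e 3 5 3 5,.o 0,.e 1 6 1 0,.e 3 6 3 0,.o 1,.e 2 7 2 1,.e 3 7 3 1,.o 3,.e 2 8 2 3],[(4,4),(5,5),(6,0),(7,1),(8,3)],2⟩

def q58 : QS := ⟨9,[.e 0 1 0 1,.e 0 2 0 2,.e 1 4 1 4,.e 0 5 0 5,.e 3 5 3 5,.o 0,.e 1 6 1 0,.e 3 6 3 0,.o 1,.e 2 7 2 1,.e 3 7 3 1,.o 3,.e 2 8 2 3,.e 6 8 0 3],[(4,4),(5,5),(6,0),(7,1),(8,3)],2⟩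

def q59 : QS := ⟨9,[.e 0 1 0 1,.e 0 2 0 2,.e 0 4 0 4,.e 3 4 3 4,.e 1 5 1 5,.e 3 5 3 5,.o 0,.e 2 6 2 0,.e 3 6 3 0,.o 3,.e 1 7 1 3,.e 6 7 0 3,.o 1,.e 2 8 2 1,.e 5 8 5 1],[(4,4),(5,5),(6,0),(7,3),(8,1)],2⟩

def q60 : QS := ⟨9,[.e 0 1 0 1,.e 0 2 0 2,.e 1 3 1 3,.e 2 4 2 4,.e 0 5 0 5,.o 0,.e 1 6 1 0,.e 4 6 4 0,.o 1,.e 2 7 2 1,.e 3 7 3 1,.o 2,.e 3 8 3 2,.e 4 8 4 2],[(5,5),(6,0),(7,1),(8,2)],3⟩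

def q61 : QS := ⟨9,[.e 0 1 0 1,.e 0 2 0 2,.e 1 3 1 3,.e 2 4 2 4,.e 1 5 1 5,.e 4 5 4 5,.o 1,.e 2 6 2 1,.e 3 6 3 1,.o 2,.e 3 7 3 2,.e 4 7 4 2,.o 3,.e 0 8 0 3,.e 7 8 2 3],[(5,5),(6,1),(7,2),(8,3)],0⟩

def q62 : QS := ⟨9,[.e 0 1 0 1,.e 0 2 0 2,.e 1 3 1 3,.e 0 4 0 4,.e 1 5 1 5,.o 0,.e 2 6 2 0,.o 1,.e 2 7 2 1,.e 3 7 3 1,.o 2,.e 3 8 3 2],[(4,4),(5,5),(6,0),(7,1),(8,2)],3⟩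

def q63 : QS := ⟨9,[.e 0 1 0 1,.e 0 2 0 2,.e 1 3 1 3,.e 0 4 0 4,.e 1 5 1 5,.o 0,.e 2 6 2 0,.e 3 6 3 0,.o 1,.e 2 7 2 1,.o 2,.e 3 8 3 2,.e 7 8 1 2],[(4,4),(5,5),(6,0),(7,1),(8,2)],3⟩

def q64 : QS := ⟨9,[.e 0 1 0 1,.e 0 2 0 2,.e 1 3 1 3,.e 2 4 2 4,.e 3 4 3 4,.e 0 5 0 5,.o 0,.e 1 6 1 0,.o 1,.e 2 7 2 1,.e 6 7 0 1,.o 2,.e 3 8 3 2,.e 5 8 5 2],[(4,4),(5,5),(6,0),(7,1),(8,2)],3⟩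

def q65 : QS := ⟨9,[.e 0 1 0 1,.e 0 2 0 2,.e 1 3 1 3,.e 2 4 2 4,.e 3 4 3 4,.e 0 5 0 5,.o 0,.e 1 6 1 0,.o 1,.e 2 7 2 1,.e 6 7 0 1,.o 2,.e 3 8 3 2,.e 5 8 5 2,.e 7 8 1 2],[(4,4),(5,5),(6,0),(7,1),(8,2)],3⟩

def q66 : QS := ⟨9,[.e 0 1 0 1,.e 1 2 1 2,.e 0 3 0 3,.e 0 4 0 4,.e 2 5 2 5,.o 0,.e 2 6 2 0,.e 3 6 3 0,.o 2,.e 1 7 1 2,.o 1,.e 3 8 3 1,.e 7 8 2 1],[(4,4),(5,5),(6,0),(7,2),(8,1)],3⟩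

def q67 : QS := ⟨9,[.e 0 1 0 1,.e 1 2 1 2,.e 0 3 0 3,.e 0 4 0 4,.e 2 5 2 5,.e 3 5 3 5,.o 0,.e 1 6 1 0,.o 1,.e 2 7 2 1,.o 2,.e 3 8 3 2,.e 6 8 0 2,.e 7 8 1 2],[(4,4),(5,5),(6,0),(7,1),(8,2)],3⟩

def q68 : QS := ⟨10,[.e 0 2 0 2,.e 1 3 1 3,.e 0 4 0 4,.e 1 4 1 4,.e 0 5 0 5,.e 3 5 3 5,.o 0,.e 1 6 1 0,.e 2 6 2 0,.o 1,.e 2 7 2 1,.e 3 7 3 1,.o 2,.e 5 8 5 2,.e 6 8 0 2,.o 3,.e 7 9 1 3,.e 8 9 2 3],[(4,4),(5,5),(6,0),(7,1),(9,3)],2⟩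

def q69 : QS := ⟨10,[.e 0 2 0 2,.e 1 3 1 3,.e 2 3 2 3,.e 0 4 0 4,.e 1 4 1 4,.e 0 5 0 5,.o 0,.e 1 6 1 0,.o 1,.e 2 7 2 1,.o 2,.e 3 8 3 2,.o 3,.e 4 9 4 3,.e 7 9 1 3,.e 8 9 2 3],[(5,5),(6,0),(7,1),(8,2),(9,3)],4⟩

def q70 : QS := ⟨10,[.e 1 2 1 2,.e 0 3 0 3,.e 1 3 1 3,.e 0 4 0 4,.e 2 4 2 4,.e 0 5 0 5,.o 0,.e 1 6 1 0,.o 1,.e 2 7 2 1,.o 2,.e 3 8 3 2,.e 7 8 1 2,.o 3,.e 4 9 4 3,.e 6 9 0 3,.e 8 9 2 3],[(5,5),(6,0),(7,1),(8,2),(9,3)],4⟩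

def q71 : QS := ⟨10,[.e 0 2 0 2,.e 1 2 1 2,.e 0 3 0 3,.e 1 4 1 4,.e 3 4 3 4,.e 0 5 0 5,.o 0,.e 1 6 1 0,.o 1,.e 3 7 3 1,.e 6 7 0 1,.o 3,.e 4 8 4 3,.e 5 8 5 3,.o 4,.e 2 9 2 4,.e 7 9 1 4,.e 8 9 3 4],[(5,5),(6,0),(7,1),(8,3),(9,4)],2⟩

def q72 : QS := ⟨10,[.e 0 1 0 1,.e 2 3 2 3,.e 0 4 0 4,.e 2 4 2 4,.e 0 5 0 5,.e 3 5 3 5,.o 0,.e 1 6 1 0,.e 3 6 3 0,.o 3,.e 1 7 1 3,.e 2 7 2 3,.o 1,.e 5 8 5 1,.e 7 8 3 1,.o 2,.e 8 9 1 2],[(4,4),(5,5),(6,0),(7,3),(9,2)],1⟩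

def q73 : QS := ⟨10,[.e 0 1 0 1,.e 0 3 0 3,.e 2 3 2 3,.e 1 4 1 4,.e 2 4 2 4,.e 0 5 0 5,.o 0,.e 1 6 1 0,.o 1,.e 2 7 2 1,.o 2,.e 3 8 3 2,.o 3,.e 4 9 4 3,.e 8 9 2 3],[(5,5),(6,0),(7,1),(8,2),(9,3)],4⟩

def q74 : QS := ⟨10,[.e 0 1 0 1,.e 0 2 0 2,.e 1 4 1 4,.e 3 4 3 4,.e 1 5 1 5,.o 1,.e 0 6 0 1,.e 3 6 3 1,.o 0,.e 2 7 2 0,.e 3 7 3 0,.o 3,.e 2 8 2 3,.o 2,.e 5 9 5 2,.e 6 9 1 2,.e 8 9 3 2],[(4,4),(5,5),(6,1),(7,0),(8,3)],2⟩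

def q75 : QS := ⟨10,[.e 0 1 0 1,.e 0 2 0 2,.e 1 4 1 4,.e 3 4 3 4,.e 0 5 0 5,.e 3 5 3 5,.o 0,.e 1 6 1 0,.o 1,.e 2 7 2 1,.e 3 7 3 1,.e 6 7 0 1,.o 3,.e 2 8 2 3,.o 2,.e 5 9 5 2,.e 6 9 0 2,.e 8 9 3 2],[(4,4),(5,5),(6,0),(7,1),(8,3)],2⟩

def q76 : QS := ⟨10,[.e 0 1 0 1,.e 0 2 0 2,.e 0 3 0 3,.e 1 4 1 4,.e 1 5 1 5,.o 0,.e 2 6 2 0,.e 4 6 4 0,.o 1,.e 2 7 2 1,.e 5 7 5 1,.o 2,.e 3 8 3 2,.e 4 8 4 2,.o 4,.e 3 9 3 4,.e 5 9 5 4],[(6,0),(7,1),(8,2),(9,4)],3⟩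

def q77 : QS := ⟨10,[.e 0 1 0 1,.e 0 2 0 2,.e 0 3 0 3,.e 1 4 1 4,.e 1 5 1 5,.o 0,.e 2 6 2 0,.e 4 6 4 0,.o 1,.e 2 7 2 1,.e 5 7 5 1,.o 2,.e 3 8 3 2,.e 5 8 5 2,.o 5,.e 3 9 3 5,.e 4 9 4 5,.e 7 9 1 5],[(6,0),(7,1),(8,2),(9,5)],3⟩

def q78 : QS := ⟨10,[.e 0 1 0 1,.e 0 2 0 2,.e 0 3 0 3,.e 1 4 1 4,.e 2 5 2 5,.o 0,.e 1 6 1 0,.e 5 6 5 0,.o 1,.e 2 7 2 1,.e 4 7 4 1,.o 2,.e 3 8 3 2,.e 4 8 4 2,.e 5 8 5 2,.o 4,.e 3 9 3 4],[(6,0),(7,1),(8,2),(9,4)],3⟩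

def q79 : QS := ⟨10,[.e 0 1 0 1,.e 0 2 0 2,.e 0 3 0 3,.e 1 4 1 4,.e 1 5 1 5,.o 0,.e 2 6 2 0,.o 1,.e 2 7 2 1,.e 4 7 4 1,.o 2,.e 3 8 3 2,.e 4 8 4 2,.o 4,.e 3 9 3 4],[(5,5),(6,0),(7,1),(8,2),(9,4)],3⟩

def q80 : QS := ⟨10,[.e 0 1 0 1,.e 0 2 0 2,.e 0 3 0 3,.e 1 4 1 4,.e 1 5 1 5,.o 0,.e 2 6 2 0,.o 1,.e 2 7 2 1,.e 4 7 4 1,.o 2,.e 3 8 3 2,.e 4 8 4 2,.o 4,.e 3 9 3 4,.e 7 9 1 4],[(5,5),(6,0),(7,1),(8,2),(9,4)],3⟩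

def q81 : QS := ⟨10,[.e 0 1 0 1,.e 0 2 0 2,.e 0 3 0 3,.e 1 4 1 4,.e 1 5 1 5,.o 0,.e 2 6 2 0,.e 4 6 4 0,.o 1,.e 3 7 3 1,.e 4 7 4 1,.o 4,.e 2 8 2 4,.e 7 8 1 4,.o 2,.e 3 9 3 2,.e 6 9 0 2],[(5,5),(6,0),(7,1),(8,4),(9,2)],3⟩

def q82 : QS := ⟨10,[.e 0 1 0 1,.e 0 2 0 2,.e 0 3 0 3,.e 1 4 1 4,.e 2 5 2 5,.o 0,.e 2 6 2 0,.e 4 6 4 0,.o 2,.e 3 7 3 2,.e 4 7 4 2,.o 4,.e 1 8 1 4,.o 1,.e 3 9 3 1,.e 8 9 4 1],[(5,5),(6,0),(7,2),(8,4),(9,1)],3⟩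

def q83 : QS := ⟨10,[.e 0 1 0 1,.e 0 2 0 2,.e 0 3 0 3,.e 1 4 1 4,.e 2 5 2 5,.o 0,.e 2 6 2 0,.e 4 6 4 0,.o 2,.e 3 7 3 2,.e 4 7 4 2,.o 4,.e 1 8 1 4,.o 1,.e 3 9 3 1,.e 6 9 0 1,.e 8 9 4 1],[(5,5),(6,0),(7,2),(8,4),(9,1)],3⟩

def q84 : QS := ⟨10,[.e 0 1 0 1,.e 0 2 0 2,.e 0 3 0 3,.e 1 4 1 4,.e 2 5 2 5,.e 4 5 4 5,.o 0,.e 3 6 3 0,.e 4 6 4 0,.o 4,.e 1 7 1 4,.o 1,.e 2 8 2 1,.e 6 8 0 1,.o 2,.e 3 9 3 2,.e 7 9 4 2],[(5,5),(6,0),(7,4),(8,1),(9,2)],3⟩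

def q85 : QS := ⟨10,[.e 0 1 0 1,.e 0 2 0 2,.e 0 3 0 3,.e 1 4 1 4,.e 2 5 2 5,.e 4 5 4 5,.o 0,.e 3 6 3 0,.e 4 6 4 0,.o 4,.e 2 7 2 4,.o 2,.e 3 8 3 2,.o 3,.e 1 9 1 3,.e 7 9 4 3,.e 8 9 2 3],[(5,5),(6,0),(7,4),(8,2),(9,3)],1⟩

def q86 : QS := ⟨10,[.e 0 1 0 1,.e 0 2 0 2,.e 0 3 0 3,.e 1 4 1 4,.e 2 5 2 5,.e 4 5 4 5,.o 0,.e 3 6 3 0,.e 4 6 4 0,.o 4,.e 3 7 3 4,.o 3,.e 1 8 1 3,.e 7 8 4 3,.o 1,.e 2 9 2 1,.e 6 9 0 1,.e 8 9 3 1],[(5,5),(6,0),(7,4),(8,3),(9,1)],2⟩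

def q87 : QS := ⟨10,[.e 0 1 0 1,.e 0 2 0 2,.e 0 3 0 3,.e 1 4 1 4,.e 3 5 3 5,.e 4 5 4 5,.o 0,.e 2 6 2 0,.e 4 6 4 0,.o 4,.e 1 7 1 4,.o 1,.e 2 8 2 1,.e 5 8 5 1,.o 2,.e 3 9 3 2,.e 6 9 0 2,.e 7 9 4 2],[(5,5),(6,0),(7,4),(8,1),(9,2)],3⟩

def q88 : QS := ⟨10,[.e 0 1 0 1,.e 0 2 0 2,.e 0 3 0 3,.e 2 4 2 4,.e 1 5 1 5,.o 0,.e 1 6 1 0,.e 4 6 4 0,.o 1,.e 3 7 3 1,.e 4 7 4 1,.e 5 7 5 1,.o 4,.e 2 8 2 4,.e 5 8 5 4,.o 2,.e 3 9 3 2,.e 8 9 4 2],[(6,0),(7,1),(8,4),(9,2)],3⟩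

def q89 : QS := ⟨10,[.e 0 1 0 1,.e 0 2 0 2,.e 1 3 1 3,.e 0 5 0 5,.e 4 5 4 5,.o 0,.e 1 6 1 0,.e 4 6 4 0,.o 1,.e 2 7 2 1,.e 3 7 3 1,.e 4 7 4 1,.o 4,.e 2 8 2 4,.o 2,.e 3 9 3 2],[(5,5),(6,0),(7,1),(8,4),(9,2)],3⟩

def q90 : QS := ⟨10,[.e 0 1 0 1,.e 0 2 0 2,.e 1 3 1 3,.e 0 5 0 5,.e 4 5 4 5,.o 0,.e 1 6 1 0,.e 4 6 4 0,.o 1,.e 2 7 2 1,.e 3 7 3 1,.e 4 7 4 1,.o 4,.e 2 8 2 4,.o 2,.e 3 9 3 2,.e 8 9 4 2],[(5,5),(6,0),(7,1),(8,4),(9,2)],3⟩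

def q91 : QS := ⟨10,[.e 0 1 0 1,.e 0 2 0 2,.e 1 3 1 3,.e 0 5 0 5,.e 4 5 4 5,.o 0,.e 1 6 1 0,.e 4 6 4 0,.o 1,.e 2 7 2 1,.e 3 7 3 1,.e 4 7 4 1,.o 4,.e 2 8 2 4,.e 6 8 0 4,.o 2,.e 3 9 3 2,.e 5 9 5 2],[(5,5),(6,0),(7,1),(8,4),(9,2)],3⟩

def q92 : QS := ⟨10,[.e 0 1 0 1,.e 0 2 0 2,.e 1 3 1 3,.e 2 4 2 4,.e 0 5 0 5,.o 0,.e 1 6 1 0,.e 4 6 4 0,.o 1,.e 3 7 3 1,.e 4 7 4 1,.o 4,.e 2 8 2 4,.e 3 8 3 4,.o 2,.e 5 9 5 2,.e 6 9 0 2,.e 8 9 4 2],[(5,5),(6,0),(7,1),(8,4)],2⟩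

def q93 : QS := ⟨10,[.e 0 1 0 1,.e 0 2 0 2,.e 1 3 1 3,.e 2 4 2 4,.e 0 5 0 5,.o 0,.e 1 6 1 0,.e 4 6 4 0,.o 1,.e 2 7 2 1,.e 3 7 3 1,.o 2,.e 3 8 3 2,.e 4 8 4 2,.o 3],[(5,5),(6,0),(7,1),(8,2),(9,3)],4⟩

def q94 : QS := ⟨10,[.e 0 1 0 1,.e 0 2 0 2,.e 1 3 1 3,.e 2 4 2 4,.e 1 5 1 5,.e 4 5 4 5,.o 1,.e 2 6 2 1,.e 3 6 3 1,.o 2,.e 3 7 3 2,.e 4 7 4 2,.o 3,.o 4,.e 0 9 0 4,.e 7 9 2 4],[(5,5),(6,1),(7,2),(8,3),(9,4)],0⟩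

def q95 : QS := ⟨10,[.e 0 1 0 1,.e 0 2 0 2,.e 1 3 1 3,.e 2 4 2 4,.e 0 5 0 5,.o 0,.e 1 6 1 0,.e 4 6 4 0,.o 1,.e 4 7 4 1,.o 4,.e 2 8 2 4,.e 3 8 3 4,.o 2,.e 3 9 3 2],[(5,5),(6,0),(7,1),(8,4),(9,2)],3⟩

def q96 : QS := ⟨10,[.e 0 1 0 1,.e 0 2 0 2,.e 1 3 1 3,.e 2 4 2 4,.e 0 5 0 5,.o 0,.e 1 6 1 0,.e 4 6 4 0,.o 1,.e 2 7 2 1,.e 3 7 3 1,.o 2,.e 3 8 3 2,.e 4 8 4 2,.o 3,.e 8 9 2 3],[(5,5),(6,0),(7,1),(8,2),(9,3)],4⟩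

def q97 : QS := ⟨10,[.e 0 1 0 1,.e 0 2 0 2,.e 1 3 1 3,.e 2 4 2 4,.e 0 5 0 5,.o 0,.e 1 6 1 0,.e 4 6 4 0,.o 1,.e 3 7 3 1,.e 4 7 4 1,.o 4,.e 2 8 2 4,.e 3 8 3 4,.o 2,.e 6 9 0 2,.e 8 9 4 2],[(5,5),(6,0),(7,1),(8,4),(9,2)],3⟩

def q98 : QS := ⟨10,[.e 0 1 0 1,.e 0 2 0 2,.e 1 3 1 3,.e 2 4 2 4,.e 2 5 2 5,.e 3 5 3 5,.o 2,.e 3 6 3 2,.o 3,.e 1 7 1 3,.e 4 7 4 3,.o 1,.e 0 8 0 1,.o 0,.e 4 9 4 0,.e 8 9 1 0],[(5,5),(6,2),(7,3),(8,1),(9,0)],4⟩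

def q99 : QS := ⟨10,[.e 0 1 0 1,.e 0 2 0 2,.e 1 3 1 3,.e 2 4 2 4,.e 1 5 1 5,.e 4 5 4 5,.o 1,.e 2 6 2 1,.e 3 6 3 1,.o 2,.e 3 7 3 2,.e 4 7 4 2,.o 3,.e 0 8 0 3,.o 0,.e 8 9 3 0],[(5,5),(6,1),(7,2),(8,3),(9,0)],4⟩

def q100 : QS := ⟨10,[.e 0 1 0 1,.e 0 2 0 2,.e 1 3 1 3,.e 2 4 2 4,.e 1 5 1 5,.e 4 5 4 5,.o 1,.e 2 6 2 1,.e 3 6 3 1,.o 2,.e 3 7 3 2,.e 4 7 4 2,.o 3,.e 0 8 0 3,.o 0,.e 7 9 2 0,.e 8 9 3 0],[(5,5),(6,1),(7,2),(8,3),(9,0)],4⟩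

def q101 : QS := ⟨10,[.e 0 1 0 1,.e 0 2 0 2,.e 1 3 1 3,.e 2 4 2 4,.e 1 5 1 5,.e 4 5 4 5,.o 1,.e 2 6 2 1,.e 3 6 3 1,.o 2,.e 3 7 3 2,.e 4 7 4 2,.o 3,.e 0 8 0 3,.e 7 8 2 3,.o 0,.e 8 9 3 0],[(5,5),(6,1),(7,2),(8,3),(9,0)],4⟩

def q102 : QS := ⟨10,[.e 0 1 0 1,.e 0 2 0 2,.e 1 3 1 3,.e 2 4 2 4,.e 1 5 1 5,.e 4 5 4 5,.o 1,.e 2 6 2 1,.e 3 6 3 1,.o 2,.e 3 7 3 2,.e 4 7 4 2,.o 3,.e 0 8 0 3,.e 7 8 2 3,.o 0,.e 5 9 5 0,.e 6 9 1 0],[(5,5),(6,1),(7,2),(8,3),(9,0)],4⟩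

def q103 : QS := ⟨10,[.e 0 1 0 1,.e 0 2 0 2,.e 1 3 1 3,.e 2 4 2 4,.e 1 5 1 5,.e 4 5 4 5,.o 1,.e 3 6 3 1,.e 4 6 4 1,.o 4,.e 2 7 2 4,.e 3 7 3 4,.o 2,.e 0 8 0 2,.o 0,.e 5 9 5 0,.e 7 9 4 0,.e 8 9 2 0],[(5,5),(6,1),(7,4),(8,2),(9,0)],3⟩

def q104 : QS := ⟨10,[.e 0 1 0 1,.e 0 2 0 2,.e 1 3 1 3,.e 2 4 2 4,.e 3 4 3 4,.e 0 5 0 5,.o 0,.e 1 6 1 0,.o 1,.e 2 7 2 1,.o 2,.e 3 8 3 2,.e 5 8 5 2,.o 3,.e 4 9 4 3,.e 5 9 5 3],[(6,0),(7,1),(8,2),(9,3)],4⟩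

def q105 : QS := ⟨10,[.e 0 1 0 1,.e 0 2 0 2,.e 1 3 1 3,.e 2 4 2 4,.e 3 4 3 4,.e 0 5 0 5,.o 0,.e 3 6 3 0,.e 5 6 5 0,.o 3,.e 4 7 4 3,.e 5 7 5 3,.o 4,.e 1 8 1 4,.o 1,.e 2 9 2 1,.e 8 9 4 1],[(6,0),(7,3),(8,4),(9,1)],2⟩

def q106 : QS := ⟨10,[.e 0 1 0 1,.e 0 2 0 2,.e 1 3 1 3,.e 2 4 2 4,.e 3 4 3 4,.e 0 5 0 5,.o 0,.e 3 6 3 0,.e 5 6 5 0,.o 3,.e 4 7 4 3,.e 5 7 5 3,.o 4,.e 1 8 1 4,.e 7 8 3 4,.o 1,.e 2 9 2 1,.e 6 9 0 1],[(6,0),(7,3),(8,4),(9,1)],2⟩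

def q107 : QS := ⟨10,[.e 0 1 0 1,.e 0 2 0 2,.e 1 3 1 3,.e 2 4 2 4,.e 3 4 3 4,.e 0 5 0 5,.o 0,.e 1 6 1 0,.o 1,.e 2 7 2 1,.o 2,.e 3 8 3 2,.o 3,.e 4 9 4 3],[(5,5),(6,0),(7,1),(8,2),(9,3)],4⟩

def q108 : QS := ⟨10,[.e 0 1 0 1,.e 0 2 0 2,.e 1 3 1 3,.e 2 4 2 4,.e 3 4 3 4,.e 0 5 0 5,.o 0,.e 1 6 1 0,.o 1,.e 2 7 2 1,.o 2,.e 3 8 3 2,.e 7 8 1 2,.o 3,.e 4 9 4 3,.e 6 9 0 3],[(5,5),(6,0),(7,1),(8,2),(9,3)],4⟩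

def q109 : QS := ⟨10,[.e 0 1 0 1,.e 0 2 0 2,.e 1 3 1 3,.e 2 4 2 4,.e 3 4 3 4,.e 2 5 2 5,.o 2,.e 3 6 3 2,.e 5 6 5 2,.o 3,.e 0 7 0 3,.o 0,.e 1 8 1 0,.o 1,.e 4 9 4 1,.e 7 9 3 1,.e 8 9 0 1],[(5,5),(6,2),(7,3),(8,0),(9,1)],4⟩

def q110 : QS := ⟨10,[.e 0 1 0 1,.e 0 2 0 2,.e 2 3 2 3,.e 1 4 1 4,.e 0 5 0 5,.o 0,.e 1 6 1 0,.o 1,.e 2 7 2 1,.e 4 7 4 1,.o 2,.e 3 8 3 2,.e 4 8 4 2,.o 4,.e 3 9 3 4],[(5,5),(6,0),(7,1),(8,2),(9,4)],3⟩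

def q111 : QS := ⟨10,[.e 0 1 0 1,.e 0 2 0 2,.e 2 3 2 3,.e 1 4 1 4,.e 0 5 0 5,.o 0,.e 1 6 1 0,.e 3 6 3 0,.o 1,.e 3 7 3 1,.e 4 7 4 1,.o 3,.e 2 8 2 3,.e 4 8 4 3,.o 2,.e 8 9 3 2],[(5,5),(6,0),(7,1),(8,3),(9,2)],4⟩

def q112 : QS := ⟨10,[.e 0 1 0 1,.e 0 2 0 2,.e 2 3 2 3,.e 1 4 1 4,.e 1 5 1 5,.e 3 5 3 5,.o 1,.e 2 6 2 1,.e 4 6 4 1,.o 2,.e 3 7 3 2,.e 4 7 4 2,.o 3,.e 0 8 0 3,.e 7 8 2 3,.o 0,.e 6 9 1 0],[(5,5),(6,1),(7,2),(8,3),(9,0)],4⟩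

def q113 : QS := ⟨10,[.e 0 1 0 1,.e 0 2 0 2,.e 2 3 2 3,.e 1 4 1 4,.e 1 5 1 5,.e 3 5 3 5,.o 1,.e 2 6 2 1,.e 4 6 4 1,.o 2,.e 3 7 3 2,.e 4 7 4 2,.o 3,.e 0 8 0 3,.e 7 8 2 3,.o 0,.e 6 9 1 0,.e 8 9 3 0],[(5,5),(6,1),(7,2),(8,3),(9,0)],4⟩

def q114 : QS := ⟨10,[.e 0 1 0 1,.e 0 2 0 2,.e 2 3 2 3,.e 1 4 1 4,.e 1 5 1 5,.e 3 5 3 5,.o 1,.e 3 6 3 1,.e 4 6 4 1,.o 3,.e 2 7 2 3,.e 4 7 4 3,.o 2,.e 0 8 0 2,.o 0,.e 7 9 3 0,.e 8 9 2 0],[(5,5),(6,1),(7,3),(8,2),(9,0)],4⟩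

def q115 : QS := ⟨10,[.e 0 1 0 1,.e 0 2 0 2,.e 2 3 2 3,.e 1 4 1 4,.e 3 4 3 4,.e 0 5 0 5,.o 0,.e 1 6 1 0,.o 1,.e 3 7 3 1,.e 5 7 5 1,.o 3,.e 4 8 4 3,.e 5 8 5 3,.o 4,.e 2 9 2 4,.e 8 9 3 4],[(6,0),(7,1),(8,3),(9,4)],2⟩

def q116 : QS := ⟨10,[.e 0 1 0 1,.e 0 2 0 2,.e 2 3 2 3,.e 1 4 1 4,.e 3 4 3 4,.e 0 5 0 5,.o 0,.e 3 6 3 0,.e 5 6 5 0,.o 3,.e 4 7 4 3,.e 5 7 5 3,.o 4,.e 1 8 1 4,.o 1,.e 2 9 2 1,.e 7 9 3 1,.e 8 9 4 1],[(6,0),(7,3),(8,4),(9,1)],2⟩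

def q117 : QS := ⟨10,[.e 0 1 0 1,.e 1 2 1 2,.e 0 3 0 3,.e 0 5 0 5,.e 4 5 4 5,.o 0,.e 1 6 1 0,.e 4 6 4 0,.o 1,.e 2 7 2 1,.e 3 7 3 1,.e 4 7 4 1,.o 4,.e 2 8 2 4,.o 2,.e 3 9 3 2,.e 6 9 0 2],[(5,5),(6,0),(7,1),(8,4),(9,2)],3⟩

def q118 : QS := ⟨10,[.e 0 1 0 1,.e 1 2 1 2,.e 0 3 0 3,.e 0 5 0 5,.e 4 5 4 5,.o 0,.e 1 6 1 0,.e 4 6 4 0,.o 1,.e 2 7 2 1,.e 3 7 3 1,.e 4 7 4 1,.o 4,.e 2 8 2 4,.o 2,.e 3 9 3 2,.e 6 9 0 2,.e 8 9 4 2],[(5,5),(6,0),(7,1),(8,4),(9,2)],3⟩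

def q119 : QS := ⟨11,[.e 0 2 0 2,.e 1 3 1 3,.e 0 4 0 4,.e 1 4 1 4,.e 0 5 0 5,.e 3 5 3 5,.o 0,.e 2 6 2 0,.e 3 6 3 0,.o 3,.e 1 7 1 3,.e 2 7 2 3,.o 1,.e 6 8 0 1,.o 2,.e 5 9 5 2,.e 7 9 3 2,.e 8 9 1 2,.o 2,.e 8 10 1 2],[(4,4),(5,5),(6,0),(7,3),(10,2)],1⟩

def q120 : QS := ⟨11,[.e 0 1 0 1,.e 2 3 2 3,.e 0 4 0 4,.e 2 4 2 4,.e 0 5 0 5,.o 0,.e 2 6 2 0,.o 2,.e 4 7 4 2,.o 4,.e 1 8 1 4,.e 3 8 3 4,.e 7 8 2 4,.o 4,.e 1 9 1 4,.o 1,.e 3 10 3 1],[(5,5),(6,0),(7,2),(9,4),(10,1)],3⟩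

def q121 : QS := ⟨11,[.e 0 1 0 1,.e 0 2 0 2,.e 0 3 0 3,.e 1 4 1 4,.e 1 5 1 5,.o 0,.e 2 6 2 0,.e 4 6 4 0,.o 1,.e 2 7 2 1,.e 5 7 5 1,.o 2,.e 3 8 3 2,.e 4 8 4 2,.o 4,.e 3 9 3 4,.e 5 9 5 4,.o 3],[(6,0),(7,1),(8,2),(9,4),(10,3)],5⟩

def q122 : QS := ⟨11,[.e 0 1 0 1,.e 0 2 0 2,.e 0 3 0 3,.e 1 4 1 4,.e 1 5 1 5,.o 0,.e 2 6 2 0,.e 4 6 4 0,.o 1,.e 2 7 2 1,.e 5 7 5 1,.o 2,.e 3 8 3 2,.e 5 8 5 2,.o 5,.e 3 9 3 5,.e 4 9 4 5,.e 7 9 1 5,.o 3],[(6,0),(7,1),(8,2),(9,5),(10,3)],4⟩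

def q123 : QS := ⟨11,[.e 0 1 0 1,.e 0 2 0 2,.e 0 3 0 3,.e 1 4 1 4,.e 1 5 1 5,.o 0,.e 2 6 2 0,.e 4 6 4 0,.o 1,.e 2 7 2 1,.e 5 7 5 1,.o 2,.e 3 8 3 2,.e 5 8 5 2,.o 5,.e 3 9 3 5,.e 4 9 4 5,.o 3,.e 7 10 1 3,.e 9 10 5 3],[(6,0),(7,1),(8,2),(9,5),(10,3)],4⟩

def q124 : QS := ⟨11,[.e 0 1 0 1,.e 0 2 0 2,.e 0 3 0 3,.e 1 4 1 4,.e 2 5 2 5,.o 0,.e 1 6 1 0,.e 5 6 5 0,.o 1,.e 2 7 2 1,.e 4 7 4 1,.o 2,.e 3 8 3 2,.e 4 8 4 2,.e 5 8 5 2,.o 4,.o 5,.e 3 10 3 5],[(6,0),(7,1),(8,2),(9,4),(10,5)],3⟩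

def q125 : QS := ⟨11,[.e 0 1 0 1,.e 0 2 0 2,.e 0 3 0 3,.e 1 4 1 4,.e 2 5 2 5,.o 0,.e 1 6 1 0,.e 5 6 5 0,.o 1,.e 2 7 2 1,.e 4 7 4 1,.o 2,.e 4 8 4 2,.e 5 8 5 2,.o 4,.e 3 9 3 4,.o 5,.e 3 10 3 5],[(6,0),(7,1),(8,2),(9,4),(10,5)],3⟩

def q126 : QS := ⟨11,[.e 0 1 0 1,.e 0 2 0 2,.e 0 3 0 3,.e 1 4 1 4,.e 2 5 2 5,.o 0,.e 2 6 2 0,.e 4 6 4 0,.o 2,.e 4 7 4 2,.o 4,.e 1 8 1 4,.e 5 8 5 4,.o 1,.e 3 9 3 1,.e 5 9 5 1,.o 5,.e 3 10 3 5],[(6,0),(7,2),(8,4),(9,1),(10,5)],3⟩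

def q127 : QS := ⟨11,[.e 0 1 0 1,.e 0 2 0 2,.e 0 3 0 3,.e 1 4 1 4,.e 2 5 2 5,.o 0,.e 1 6 1 0,.e 5 6 5 0,.o 1,.e 2 7 2 1,.e 4 7 4 1,.o 2,.e 4 8 4 2,.e 5 8 5 2,.o 4,.e 3 9 3 4,.o 5,.e 3 10 3 5,.e 8 10 2 5],[(6,0),(7,1),(8,2),(9,4),(10,5)],3⟩

def q128 : QS := ⟨11,[.e 0 1 0 1,.e 0 2 0 2,.e 0 3 0 3,.e 1 4 1 4,.e 2 5 2 5,.o 0,.e 1 6 1 0,.e 5 6 5 0,.o 1,.e 3 7 3 1,.e 4 7 4 1,.e 5 7 5 1,.o 5,.e 3 8 3 5,.o 3,.e 2 9 2 3,.e 4 9 4 3,.o 2,.e 6 10 0 2,.e 9 10 3 2],[(6,0),(7,1),(8,5),(9,3),(10,2)],4⟩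

def q129 : QS := ⟨11,[.e 0 1 0 1,.e 0 2 0 2,.e 0 3 0 3,.e 1 4 1 4,.e 2 5 2 5,.o 0,.e 1 6 1 0,.e 5 6 5 0,.o 1,.e 2 7 2 1,.e 4 7 4 1,.o 2,.e 3 8 3 2,.e 4 8 4 2,.e 5 8 5 2,.o 4,.e 3 9 3 4,.o 3,.e 9 10 4 3],[(6,0),(7,1),(8,2),(9,4),(10,3)],5⟩

def q130 : QS := ⟨11,[.e 0 1 0 1,.e 0 2 0 2,.e 0 3 0 3,.e 2 4 2 4,.e 1 5 1 5,.o 0,.e 1 6 1 0,.e 4 6 4 0,.o 1,.e 3 7 3 1,.e 4 7 4 1,.e 5 7 5 1,.o 4,.e 2 8 2 4,.e 5 8 5 4,.o 2,.o 5,.e 3 10 3 5,.e 8 10 4 5],[(6,0),(7,1),(8,4),(9,2),(10,5)],3⟩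

def q131 : QS := ⟨11,[.e 0 1 0 1,.e 0 2 0 2,.e 0 3 0 3,.e 2 4 2 4,.e 1 5 1 5,.o 0,.e 1 6 1 0,.e 4 6 4 0,.o 1,.e 4 7 4 1,.e 5 7 5 1,.o 4,.e 2 8 2 4,.e 5 8 5 4,.o 2,.e 3 9 3 2,.o 5,.e 3 10 3 5,.e 8 10 4 5],[(6,0),(7,1),(8,4),(9,2),(10,5)],3⟩

def q132 : QS := ⟨11,[.e 0 1 0 1,.e 0 2 0 2,.e 0 3 0 3,.e 2 4 2 4,.e 1 5 1 5,.o 0,.e 1 6 1 0,.e 4 6 4 0,.o 1,.e 3 7 3 1,.e 4 7 4 1,.e 5 7 5 1,.o 4,.e 3 8 3 4,.o 3,.e 2 9 2 3,.e 5 9 5 3,.o 2,.e 9 10 3 2],[(6,0),(7,1),(8,4),(9,3),(10,2)],5⟩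

def q133 : QS := ⟨11,[.e 0 1 0 1,.e 0 2 0 2,.e 0 3 0 3,.e 2 4 2 4,.e 1 5 1 5,.o 0,.e 1 6 1 0,.e 4 6 4 0,.o 1,.e 3 7 3 1,.e 4 7 4 1,.e 5 7 5 1,.o 4,.e 2 8 2 4,.e 5 8 5 4,.o 2,.e 3 9 3 2,.o 3,.e 8 10 4 3,.e 9 10 2 3],[(6,0),(7,1),(8,4),(9,2),(10,3)],5⟩

def q134 : QS := ⟨11,[.e 0 1 0 1,.e 0 2 0 2,.e 0 3 0 3,.e 2 4 2 4,.e 1 5 1 5,.o 0,.e 1 6 1 0,.e 4 6 4 0,.o 1,.e 3 7 3 1,.e 4 7 4 1,.e 5 7 5 1,.o 4,.e 2 8 2 4,.e 5 8 5 4,.o 2,.e 3 9 3 2,.e 8 9 4 2,.o 3,.e 9 10 2 3],[(6,0),(7,1),(8,4),(9,2),(10,3)],5⟩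

def q135 : QS := ⟨11,[.e 0 1 0 1,.e 0 2 0 2,.e 0 3 0 3,.e 2 4 2 4,.e 1 5 1 5,.o 0,.e 1 6 1 0,.e 4 6 4 0,.o 1,.e 3 7 3 1,.e 4 7 4 1,.e 5 7 5 1,.o 4,.e 2 8 2 4,.e 5 8 5 4,.o 2,.e 3 9 3 2,.e 6 9 0 2,.o 3,.e 8 10 4 3],[(6,0),(7,1),(8,4),(9,2),(10,3)],5⟩

def q136 : QS := ⟨11,[.e 0 1 0 1,.e 0 2 0 2,.e 1 3 1 3,.e 0 4 0 4,.e 1 5 1 5,.o 0,.e 2 6 2 0,.e 3 6 3 0,.o 1,.e 2 7 2 1,.e 5 7 5 1,.o 2,.e 3 8 3 2,.e 4 8 4 2,.o 3,.e 4 9 4 3,.e 5 9 5 3,.o 4,.e 9 10 3 4],[(6,0),(7,1),(8,2),(9,3),(10,4)],5⟩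

def q137 : QS := ⟨11,[.e 0 1 0 1,.e 0 2 0 2,.e 1 3 1 3,.e 0 4 0 4,.e 1 5 1 5,.o 0,.e 2 6 2 0,.e 3 6 3 0,.o 1,.e 2 7 2 1,.e 5 7 5 1,.o 2,.e 3 8 3 2,.e 4 8 4 2,.e 7 8 1 2,.o 3,.e 4 9 4 3,.e 5 9 5 3,.o 4,.e 9 10 3 4],[(6,0),(7,1),(8,2),(9,3),(10,4)],5⟩

def q138 : QS := ⟨11,[.e 0 1 0 1,.e 0 2 0 2,.e 1 3 1 3,.e 2 4 2 4,.e 0 5 0 5,.o 0,.e 1 6 1 0,.e 4 6 4 0,.o 1,.e 3 7 3 1,.e 4 7 4 1,.o 4,.e 2 8 2 4,.e 3 8 3 4,.o 2,.e 5 9 5 2,.e 6 9 0 2,.e 8 9 4 2,.o 2],[(5,5),(6,0),(7,1),(8,4),(10,2)],3⟩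

def q139 : QS := ⟨11,[.e 0 1 0 1,.e 0 2 0 2,.e 1 3 1 3,.e 2 4 2 4,.e 0 5 0 5,.o 0,.e 1 6 1 0,.e 4 6 4 0,.o 1,.e 3 7 3 1,.e 4 7 4 1,.o 4,.e 2 8 2 4,.e 3 8 3 4,.o 2,.e 6 9 0 2,.e 8 9 4 2,.o 3,.e 9 10 2 3],[(5,5),(6,0),(7,1),(8,4),(10,3)],2⟩

def q140 : QS := ⟨11,[.e 0 1 0 1,.e 0 2 0 2,.e 1 3 1 3,.e 2 4 2 4,.e 0 5 0 5,.o 0,.e 1 6 1 0,.e 4 6 4 0,.o 1,.e 2 7 2 1,.e 3 7 3 1,.o 2,.e 3 8 3 2,.e 4 8 4 2,.o 3,.e 6 9 0 3,.e 7 9 1 3,.o 4,.e 8 10 2 4,.e 9 10 3 4],[(5,5),(6,0),(7,1),(8,2),(10,4)],3⟩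

def q141 : QS := ⟨11,[.e 0 1 0 1,.e 0 2 0 2,.e 1 3 1 3,.e 2 4 2 4,.e 1 5 1 5,.e 4 5 4 5,.o 1,.e 3 6 3 1,.e 4 6 4 1,.o 4,.e 2 7 2 4,.e 3 7 3 4,.o 2,.e 5 8 5 2,.e 7 8 4 2,.o 3,.e 0 9 0 3,.e 8 9 2 3,.o 0,.e 9 10 3 0],[(5,5),(6,1),(7,4),(9,3),(10,0)],2⟩

def q142 : QS := ⟨11,[.e 0 1 0 1,.e 0 2 0 2,.e 1 3 1 3,.e 2 4 2 4,.e 1 5 1 5,.e 4 5 4 5,.o 1,.e 2 6 2 1,.e 3 6 3 1,.o 2,.e 0 7 0 2,.o 0,.e 3 8 3 0,.e 4 8 4 0,.o 3,.e 7 9 2 3,.e 8 9 0 3,.o 4,.e 9 10 3 4],[(5,5),(6,1),(7,2),(8,0),(10,4)],3⟩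

def q143 : QS := ⟨11,[.e 0 1 0 1,.e 0 2 0 2,.e 1 3 1 3,.e 2 4 2 4,.e 1 5 1 5,.e 4 5 4 5,.o 1,.e 2 6 2 1,.e 3 6 3 1,.o 2,.e 3 7 3 2,.e 4 7 4 2,.o 3,.e 5 8 5 3,.e 6 8 1 3,.o 4,.e 8 9 3 4,.o 3,.e 0 10 0 3,.e 7 10 2 3],[(5,5),(6,1),(7,2),(9,4),(10,3)],0⟩

def q144 : QS := ⟨11,[.e 0 1 0 1,.e 0 2 0 2,.e 1 3 1 3,.e 2 4 2 4,.e 0 5 0 5,.o 0,.e 1 6 1 0,.e 4 6 4 0,.o 1,.e 2 7 2 1,.e 3 7 3 1,.o 2,.e 5 8 5 2,.e 6 8 0 2,.e 7 8 1 2,.o 2,.e 3 9 3 2,.e 4 9 4 2,.o 3,.e 9 10 2 3],[(5,5),(6,0),(7,1),(9,2),(10,3)],4⟩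

def q145 : QS := ⟨11,[.e 0 1 0 1,.e 0 2 0 2,.e 1 3 1 3,.e 2 4 2 4,.e 2 5 2 5,.e 3 5 3 5,.o 2,.e 3 6 3 2,.o 3,.e 0 7 0 3,.e 6 7 2 3,.o 0,.e 6 8 2 0,.o 2,.e 1 9 1 2,.e 4 9 4 2,.o 1,.e 4 10 4 1],[(5,5),(7,3),(8,0),(9,2),(10,1)],4⟩

def q146 : QS := ⟨11,[.e 0 1 0 1,.e 0 2 0 2,.e 1 3 1 3,.e 2 4 2 4,.e 3 4 3 4,.e 0 5 0 5,.o 0,.e 1 6 1 0,.o 1,.e 2 7 2 1,.o 2,.e 3 8 3 2,.e 5 8 5 2,.o 3,.e 4 9 4 3,.e 5 9 5 3,.o 4],[(6,0),(7,1),(8,2),(9,3),(10,4)],5⟩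

def q147 : QS := ⟨11,[.e 0 1 0 1,.e 0 2 0 2,.e 1 3 1 3,.e 2 4 2 4,.e 3 4 3 4,.e 0 5 0 5,.o 0,.e 3 6 3 0,.e 5 6 5 0,.o 3,.e 4 7 4 3,.e 5 7 5 3,.o 4,.o 5,.e 1 9 1 5,.o 1,.e 2 10 2 1,.e 9 10 5 1],[(6,0),(7,3),(8,4),(9,5),(10,1)],2⟩

def q148 : QS := ⟨11,[.e 0 1 0 1,.e 0 2 0 2,.e 1 3 1 3,.e 2 4 2 4,.e 3 4 3 4,.e 0 5 0 5,.o 0,.e 3 6 3 0,.e 5 6 5 0,.o 3,.e 4 7 4 3,.e 5 7 5 3,.o 4,.o 5,.e 1 9 1 5,.e 7 9 3 5,.o 1,.e 2 10 2 1,.e 6 10 0 1],[(6,0),(7,3),(8,4),(9,5),(10,1)],2⟩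

def q149 : QS := ⟨11,[.e 0 1 0 1,.e 0 2 0 2,.e 1 3 1 3,.e 2 4 2 4,.e 3 4 3 4,.e 0 5 0 5,.o 0,.e 1 6 1 0,.o 1,.e 2 7 2 1,.o 2,.e 3 8 3 2,.o 3,.e 4 9 4 3,.e 5 9 5 3,.o 4,.e 5 10 5 4],[(6,0),(7,1),(8,2),(9,3),(10,4)],5⟩

def q150 : QS := ⟨11,[.e 0 1 0 1,.e 0 2 0 2,.e 1 3 1 3,.e 2 4 2 4,.e 3 4 3 4,.e 0 5 0 5,.o 0,.e 1 6 1 0,.o 1,.e 2 7 2 1,.o 2,.e 3 8 3 2,.e 5 8 5 2,.o 3,.e 4 9 4 3,.e 5 9 5 3,.o 4,.e 9 10 3 4],[(6,0),(7,1),(8,2),(9,3),(10,4)],5⟩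

def q151 : QS := ⟨11,[.e 0 1 0 1,.e 0 2 0 2,.e 1 3 1 3,.e 2 4 2 4,.e 3 4 3 4,.e 0 5 0 5,.o 0,.e 1 6 1 0,.o 1,.e 3 7 3 1,.o 3,.e 4 8 4 3,.e 5 8 5 3,.o 4,.e 2 9 2 4,.o 2,.e 5 10 5 2,.e 9 10 4 2],[(6,0),(7,1),(8,3),(9,4),(10,2)],5⟩

def q152 : QS := ⟨11,[.e 0 1 0 1,.e 0 2 0 2,.e 1 3 1 3,.e 2 4 2 4,.e 3 4 3 4,.e 0 5 0 5,.o 0,.e 1 6 1 0,.o 1,.e 3 7 3 1,.e 5 7 5 1,.o 3,.e 4 8 4 3,.e 5 8 5 3,.o 4,.e 2 9 2 4,.o 2,.e 9 10 4 2],[(6,0),(7,1),(8,3),(9,4),(10,2)],5⟩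

def q153 : QS := ⟨11,[.e 0 1 0 1,.e 0 2 0 2,.e 1 3 1 3,.e 2 4 2 4,.e 3 4 3 4,.e 0 5 0 5,.o 0,.e 1 6 1 0,.o 1,.e 3 7 3 1,.e 5 7 5 1,.o 3,.e 4 8 4 3,.e 5 8 5 3,.o 4,.e 2 9 2 4,.o 2,.e 8 10 3 2,.e 9 10 4 2],[(6,0),(7,1),(8,3),(9,4),(10,2)],5⟩

def q154 : QS := ⟨11,[.e 0 1 0 1,.e 0 2 0 2,.e 1 3 1 3,.e 2 4 2 4,.e 3 4 3 4,.e 0 5 0 5,.o 0,.e 1 6 1 0,.o 1,.e 3 7 3 1,.e 5 7 5 1,.o 3,.e 4 8 4 3,.e 5 8 5 3,.o 4,.e 2 9 2 4,.e 7 9 1 4,.o 2,.e 8 10 3 2],[(6,0),(7,1),(8,3),(9,4),(10,2)],5⟩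

def q155 : QS := ⟨11,[.e 0 1 0 1,.e 0 2 0 2,.e 1 3 1 3,.e 2 4 2 4,.e 3 4 3 4,.e 0 5 0 5,.o 0,.e 1 6 1 0,.o 1,.e 3 7 3 1,.e 5 7 5 1,.o 3,.e 4 8 4 3,.e 5 8 5 3,.o 4,.e 2 9 2 4,.e 7 9 1 4,.o 2,.e 8 10 3 2,.e 9 10 4 2],[(6,0),(7,1),(8,3),(9,4),(10,2)],5⟩

def q156 : QS := ⟨11,[.e 0 1 0 1,.e 0 2 0 2,.e 1 3 1 3,.e 2 4 2 4,.e 3 4 3 4,.e 0 5 0 5,.o 0,.e 3 6 3 0,.e 5 6 5 0,.o 3,.e 4 7 4 3,.e 5 7 5 3,.o 4,.e 1 8 1 4,.o 1,.e 2 9 2 1,.o 2,.e 8 10 4 2,.e 9 10 1 2],[(6,0),(7,3),(8,4),(9,1),(10,2)],5⟩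

def q157 : QS := ⟨11,[.e 0 1 0 1,.e 0 2 0 2,.e 1 3 1 3,.e 2 4 2 4,.e 3 4 3 4,.e 0 5 0 5,.o 0,.e 3 6 3 0,.e 5 6 5 0,.o 3,.e 4 7 4 3,.e 5 7 5 3,.o 4,.e 1 8 1 4,.o 1,.e 2 9 2 1,.e 8 9 4 1,.o 2,.e 9 10 1 2],[(6,0),(7,3),(8,4),(9,1),(10,2)],5⟩

def q158 : QS := ⟨11,[.e 0 1 0 1,.e 0 2 0 2,.e 1 3 1 3,.e 2 4 2 4,.e 3 4 3 4,.e 0 5 0 5,.o 0,.e 3 6 3 0,.e 5 6 5 0,.o 3,.e 4 7 4 3,.e 5 7 5 3,.o 4,.e 1 8 1 4,.o 1,.e 2 9 2 1,.e 8 9 4 1,.o 2,.e 7 10 3 2],[(6,0),(7,3),(8,4),(9,1),(10,2)],5⟩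

def q159 : QS := ⟨11,[.e 0 1 0 1,.e 0 2 0 2,.e 1 3 1 3,.e 2 4 2 4,.e 3 4 3 4,.e 0 5 0 5,.o 0,.e 3 6 3 0,.e 5 6 5 0,.o 3,.e 4 7 4 3,.e 5 7 5 3,.o 4,.e 1 8 1 4,.o 1,.e 2 9 2 1,.e 6 9 0 1,.e 8 9 4 1,.o 2,.e 7 10 3 2],[(6,0),(7,3),(8,4),(9,1),(10,2)],5⟩

def q160 : QS := ⟨11,[.e 0 1 0 1,.e 0 2 0 2,.e 1 3 1 3,.e 2 4 2 4,.e 3 4 3 4,.e 0 5 0 5,.o 0,.e 3 6 3 0,.e 5 6 5 0,.o 3,.e 4 7 4 3,.e 5 7 5 3,.o 4,.e 1 8 1 4,.e 7 8 3 4,.o 1,.e 2 9 2 1,.o 2,.e 9 10 1 2],[(6,0),(7,3),(8,4),(9,1),(10,2)],5⟩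

def q161 : QS := ⟨11,[.e 0 1 0 1,.e 0 2 0 2,.e 1 3 1 3,.e 2 4 2 4,.e 3 4 3 4,.e 0 5 0 5,.o 0,.e 3 6 3 0,.e 5 6 5 0,.o 3,.e 4 7 4 3,.e 5 7 5 3,.o 4,.e 1 8 1 4,.e 7 8 3 4,.o 1,.e 2 9 2 1,.e 8 9 4 1,.o 2,.e 9 10 1 2],[(6,0),(7,3),(8,4),(9,1),(10,2)],5⟩

def q162 : QS := ⟨11,[.e 0 1 0 1,.e 0 2 0 2,.e 1 3 1 3,.e 2 4 2 4,.e 3 4 3 4,.e 0 5 0 5,.o 0,.e 4 6 4 0,.e 5 6 5 0,.o 4,.e 3 7 3 4,.e 5 7 5 4,.o 3,.e 1 8 1 3,.e 6 8 0 3,.o 1,.e 2 9 2 1,.e 7 9 4 1,.o 2,.e 9 10 1 2],[(6,0),(7,4),(8,3),(9,1),(10,2)],5⟩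

def q163 : QS := ⟨11,[.e 0 1 0 1,.e 0 2 0 2,.e 2 3 2 3,.e 1 4 1 4,.e 1 5 1 5,.e 3 5 3 5,.o 1,.e 0 6 0 1,.o 0,.e 3 7 3 0,.e 4 7 4 0,.o 3,.e 2 8 2 3,.e 4 8 4 3,.o 2,.e 6 9 1 2,.e 8 9 3 2,.o 4,.e 9 10 2 4],[(5,5),(6,1),(7,0),(8,3),(10,4)],2⟩

def q164 : QS := ⟨11,[.e 0 1 0 1,.e 0 2 0 2,.e 2 3 2 3,.e 1 4 1 4,.e 1 5 1 5,.e 3 5 3 5,.o 1,.e 2 6 2 1,.e 4 6 4 1,.o 2,.e 0 7 0 2,.o 0,.e 3 8 3 0,.e 4 8 4 0,.e 7 8 2 0,.o 3,.e 6 9 1 3,.e 7 9 2 3,.o 4,.e 9 10 3 4],[(5,5),(6,1),(7,2),(8,0),(10,4)],3⟩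

def q165 : QS := ⟨11,[.e 0 1 0 1,.e 0 2 0 2,.e 2 3 2 3,.e 1 4 1 4,.e 3 4 3 4,.e 0 5 0 5,.o 0,.e 1 6 1 0,.o 1,.e 3 7 3 1,.e 5 7 5 1,.o 3,.e 4 8 4 3,.e 5 8 5 3,.o 4,.o 5,.e 2 10 2 5,.e 8 10 3 5],[(6,0),(7,1),(8,3),(9,4),(10,5)],2⟩

def q166 : QS := ⟨11,[.e 0 1 0 1,.e 0 2 0 2,.e 2 3 2 3,.e 1 4 1 4,.e 3 4 3 4,.e 0 5 0 5,.o 0,.e 3 6 3 0,.e 5 6 5 0,.o 3,.e 4 7 4 3,.e 5 7 5 3,.o 4,.o 5,.e 1 9 1 5,.o 1,.e 2 10 2 1,.e 7 10 3 1,.e 9 10 5 1],[(6,0),(7,3),(8,4),(9,5),(10,1)],2⟩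

def q167 : QS := ⟨11,[.e 0 1 0 1,.e 0 2 0 2,.e 2 3 2 3,.e 1 4 1 4,.e 3 4 3 4,.e 0 5 0 5,.o 0,.e 1 6 1 0,.o 1,.e 3 7 3 1,.e 5 7 5 1,.o 3,.e 5 8 5 3,.o 5,.e 2 9 2 5,.o 2,.e 4 10 4 2,.e 9 10 5 2],[(6,0),(7,1),(8,3),(9,5),(10,2)],4⟩

def q168 : QS := ⟨11,[.e 0 1 0 1,.e 0 2 0 2,.e 2 3 2 3,.e 1 4 1 4,.e 3 4 3 4,.e 0 5 0 5,.o 0,.e 1 6 1 0,.o 1,.e 3 7 3 1,.e 5 7 5 1,.o 3,.e 4 8 4 3,.e 5 8 5 3,.o 4,.e 2 9 2 4,.o 2,.e 8 10 3 2,.e 9 10 4 2],[(6,0),(7,1),(8,3),(9,4),(10,2)],5⟩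

def q169 : QS := ⟨11,[.e 0 1 0 1,.e 0 2 0 2,.e 2 3 2 3,.e 1 4 1 4,.e 3 4 3 4,.e 0 5 0 5,.o 0,.e 1 6 1 0,.o 1,.e 3 7 3 1,.e 5 7 5 1,.o 3,.e 4 8 4 3,.e 5 8 5 3,.o 4,.e 2 9 2 4,.e 8 9 3 4,.o 2,.e 9 10 4 2],[(6,0),(7,1),(8,3),(9,4),(10,2)],5⟩

def q170 : QS := ⟨11,[.e 0 1 0 1,.e 0 2 0 2,.e 2 3 2 3,.e 1 4 1 4,.e 3 4 3 4,.e 0 5 0 5,.o 0,.e 3 6 3 0,.e 5 6 5 0,.o 3,.e 4 7 4 3,.e 5 7 5 3,.o 4,.e 1 8 1 4,.o 1,.e 2 9 2 1,.e 8 9 4 1,.o 2,.e 7 10 3 2,.e 9 10 1 2],[(6,0),(7,3),(8,4),(9,1),(10,2)],5⟩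

def q171 : QS := ⟨11,[.e 0 1 0 1,.e 0 2 0 2,.e 2 3 2 3,.e 1 4 1 4,.e 3 4 3 4,.e 0 5 0 5,.o 0,.e 3 6 3 0,.e 5 6 5 0,.o 3,.e 4 7 4 3,.e 5 7 5 3,.o 4,.e 1 8 1 4,.o 1,.e 2 9 2 1,.e 7 9 3 1,.o 2,.e 8 10 4 2,.e 9 10 1 2],[(6,0),(7,3),(8,4),(9,1),(10,2)],5⟩

def q172 : QS := ⟨11,[.e 0 1 0 1,.e 0 2 0 2,.e 2 3 2 3,.e 1 4 1 4,.e 3 4 3 4,.e 0 5 0 5,.o 0,.e 3 6 3 0,.e 5 6 5 0,.o 3,.e 4 7 4 3,.e 5 7 5 3,.o 4,.e 1 8 1 4,.e 6 8 0 4,.o 1,.e 2 9 2 1,.o 2,.e 7 10 3 2,.e 9 10 1 2],[(6,0),(7,3),(8,4),(9,1),(10,2)],5⟩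

def q173 : QS := ⟨12,[.e 0 2 0 2,.e 1 2 1 2,.e 0 3 0 3,.e 0 4 0 4,.e 1 5 1 5,.e 3 5 3 5,.o 0,.e 1 6 1 0,.e 4 6 4 0,.o 1,.e 2 7 2 1,.o 2,.e 3 8 3 2,.o 3,.e 4 9 4 3,.o 4,.e 5 10 5 4,.o 5,.e 6 11 0 5],[(7,1),(8,2),(9,3),(10,4),(11,5)],0⟩

def q174 : QS := ⟨12,[.e 0 2 0 2,.e 1 2 1 2,.e 0 3 0 3,.e 1 4 1 4,.e 3 4 3 4,.e 0 5 0 5,.o 0,.e 1 6 1 0,.o 1,.e 2 7 2 1,.o 2,.e 3 8 3 2,.e 6 8 0 2,.o 3,.e 6 9 0 3,.o 0,.e 4 10 4 0,.e 5 10 5 0,.o 4,.e 5 11 5 4],[(7,1),(8,2),(9,3),(10,0),(11,4)],5⟩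

def q175 : QS := ⟨12,[.e 0 1 0 1,.e 0 2 0 2,.e 0 3 0 3,.e 1 4 1 4,.e 1 5 1 5,.o 0,.e 2 6 2 0,.e 4 6 4 0,.o 1,.e 2 7 2 1,.e 5 7 5 1,.o 2,.e 3 8 3 2,.e 5 8 5 2,.o 5,.e 3 9 3 5,.e 4 9 4 5,.o 3,.e 7 10 1 3,.e 9 10 5 3,.o 4,.e 10 11 3 4],[(6,0),(7,1),(8,2),(9,5),(11,4)],3⟩

def q176 : QS := ⟨12,[.e 0 1 0 1,.e 0 2 0 2,.e 0 3 0 3,.e 1 4 1 4,.e 2 5 2 5,.o 0,.e 1 6 1 0,.e 5 6 5 0,.o 1,.e 2 7 2 1,.e 4 7 4 1,.o 2,.e 3 8 3 2,.e 4 8 4 2,.e 5 8 5 2,.o 4,.e 6 9 0 4,.e 7 9 1 4,.o 5,.e 3 10 3 5,.o 3,.e 9 11 4 3],[(6,0),(7,1),(8,2),(10,5),(11,3)],4⟩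

def q177 : QS := ⟨12,[.e 0 1 0 1,.e 0 2 0 2,.e 0 3 0 3,.e 2 4 2 4,.e 3 5 3 5,.o 0,.e 2 6 2 0,.e 5 6 5 0,.o 2,.e 3 7 3 2,.e 4 7 4 2,.o 3,.e 4 8 4 3,.e 5 8 5 3,.o 4,.e 1 9 1 4,.e 8 9 3 4,.o 5,.e 1 10 1 5,.o 1,.e 9 11 4 1],[(6,0),(7,2),(8,3),(10,5),(11,1)],4⟩

def q178 : QS := ⟨12,[.e 0 1 0 1,.e 0 2 0 2,.e 0 3 0 3,.e 3 4 3 4,.e 2 5 2 5,.o 0,.e 2 6 2 0,.e 4 6 4 0,.o 2,.e 4 7 4 2,.e 5 7 5 2,.o 4,.e 3 8 3 4,.e 5 8 5 4,.o 3,.e 1 9 1 3,.e 8 9 4 3,.o 5,.e 1 10 1 5,.o 1,.e 9 11 3 1],[(6,0),(7,2),(8,4),(10,5),(11,1)],3⟩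

def q179 : QS := ⟨12,[.e 0 1 0 1,.e 0 2 0 2,.e 0 3 0 3,.e 1 4 1 4,.e 2 5 2 5,.e 4 5 4 5,.o 0,.e 1 6 1 0,.o 1,.e 4 7 4 1,.o 4,.e 3 8 3 4,.e 5 8 5 4,.o 5,.e 3 9 3 5,.o 3,.e 2 10 2 3,.e 9 10 5 3,.o 2,.e 9 11 5 2],[(6,0),(7,1),(8,4),(10,3),(11,2)],5⟩

def q180 : QS := ⟨12,[.e 0 1 0 1,.e 0 2 0 2,.e 0 3 0 3,.e 2 4 2 4,.e 1 5 1 5,.o 0,.e 1 6 1 0,.e 4 6 4 0,.o 1,.e 2 7 2 1,.e 5 7 5 1,.o 2,.e 3 8 3 2,.e 4 8 4 2,.e 5 8 5 2,.o 4,.e 7 9 1 4,.o 5,.e 3 10 3 5,.e 9 10 4 5,.o 3,.e 9 11 4 3],[(6,0),(7,1),(8,2),(10,5),(11,3)],4⟩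

def q181 : QS := ⟨12,[.e 0 1 0 1,.e 0 2 0 2,.e 0 3 0 3,.e 2 4 2 4,.e 3 5 3 5,.o 0,.e 2 6 2 0,.e 5 6 5 0,.o 2,.e 1 7 1 2,.e 5 7 5 2,.o 5,.e 1 8 1 5,.e 6 8 0 5,.o 1,.e 3 9 3 1,.e 8 9 5 1,.o 3,.e 4 10 4 3,.o 5,.e 4 11 4 5,.e 9 11 1 5],[(6,0),(7,2),(9,1),(10,3),(11,5)],4⟩

def q182 : QS := ⟨12,[.e 0 1 0 1,.e 0 2 0 2,.e 0 3 0 3,.e 3 4 3 4,.e 1 5 1 5,.o 0,.e 1 6 1 0,.o 1,.e 3 7 3 1,.e 5 7 5 1,.o 3,.e 2 8 2 3,.e 6 8 0 3,.e 7 8 1 3,.o 3,.e 2 9 2 3,.e 5 9 5 3,.o 2,.e 4 10 4 2,.o 5,.e 4 11 4 5],[(6,0),(7,1),(9,3),(10,2),(11,5)],4⟩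

def q183 : QS := ⟨12,[.e 0 1 0 1,.e 0 2 0 2,.e 1 3 1 3,.e 2 4 2 4,.e 0 5 0 5,.o 0,.e 1 6 1 0,.e 4 6 4 0,.o 1,.e 2 7 2 1,.e 3 7 3 1,.o 2,.e 3 8 3 2,.e 4 8 4 2,.o 3,.e 8 9 2 3,.o 4,.e 6 10 0 4,.e 7 10 1 4,.e 9 10 3 4,.o 4,.e 9 11 3 4],[(5,5),(6,0),(7,1),(8,2),(11,4)],3⟩

def q184 : QS := ⟨12,[.e 0 1 0 1,.e 0 2 0 2,.e 1 3 1 3,.e 2 4 2 4,.e 3 4 3 4,.e 0 5 0 5,.o 0,.e 1 6 1 0,.o 1,.e 3 7 3 1,.e 5 7 5 1,.o 3,.e 2 8 2 3,.o 2,.e 4 9 4 2,.e 5 9 5 2,.o 4,.e 8 10 3 4,.e 9 10 2 4,.o 5,.e 10 11 4 5],[(6,0),(7,1),(8,3),(9,2),(11,5)],4⟩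

def q185 : QS := ⟨12,[.e 0 1 0 1,.e 0 2 0 2,.e 1 3 1 3,.e 2 4 2 4,.e 3 4 3 4,.e 0 5 0 5,.o 0,.e 3 6 3 0,.e 5 6 5 0,.o 3,.e 1 7 1 3,.o 1,.e 4 8 4 1,.e 5 8 5 1,.o 4,.e 7 9 3 4,.e 8 9 1 4,.o 5,.e 2 10 2 5,.o 2,.e 9 11 4 2,.e 10 11 5 2],[(6,0),(7,3),(8,1),(10,5),(11,2)],4⟩

def q186 : QS := ⟨12,[.e 0 1 0 1,.e 0 2 0 2,.e 1 3 1 3,.e 2 4 2 4,.e 3 4 3 4,.e 0 5 0 5,.o 0,.e 3 6 3 0,.e 5 6 5 0,.o 3,.e 4 7 4 3,.e 5 7 5 3,.o 4,.o 5,.e 1 9 1 5,.e 8 9 4 5,.o 1,.e 2 10 2 1,.e 8 10 4 1,.o 2,.e 8 11 4 2],[(6,0),(7,3),(9,5),(10,1),(11,2)],4⟩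

def q187 : QS := ⟨12,[.e 0 1 0 1,.e 0 2 0 2,.e 1 3 1 3,.e 2 4 2 4,.e 3 4 3 4,.e 0 5 0 5,.o 0,.e 3 6 3 0,.e 5 6 5 0,.o 3,.e 4 7 4 3,.e 5 7 5 3,.o 4,.e 7 8 3 4,.o 5,.e 1 9 1 5,.e 8 9 4 5,.o 1,.e 8 10 4 1,.o 4,.e 2 11 2 4,.e 9 11 5 4],[(6,0),(7,3),(9,5),(10,1),(11,4)],2⟩

def q188 : QS := ⟨12,[.e 0 1 0 1,.e 0 2 0 2,.e 1 3 1 3,.e 2 4 2 4,.e 3 4 3 4,.e 0 5 0 5,.o 0,.e 1 6 1 0,.o 1,.e 4 7 4 1,.e 6 7 0 1,.o 4,.e 2 8 2 4,.e 6 8 0 4,.o 0,.e 5 9 5 0,.o 2,.e 5 10 5 2,.o 5,.e 3 11 3 5,.e 8 11 4 5],[(7,1),(8,4),(9,0),(10,2),(11,5)],3⟩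

def q189 : QS := ⟨12,[.e 0 1 0 1,.e 0 2 0 2,.e 1 3 1 3,.e 2 4 2 4,.e 3 4 3 4,.e 0 5 0 5,.o 0,.e 1 6 1 0,.o 1,.e 2 7 2 1,.e 6 7 0 1,.o 2,.e 4 8 4 2,.e 6 8 0 2,.o 0,.e 5 9 5 0,.o 4,.e 3 10 3 4,.o 3,.e 5 11 5 3,.e 10 11 4 3],[(7,1),(8,2),(9,0),(10,4),(11,3)],5⟩

def q190 : QS := ⟨12,[.e 0 1 0 1,.e 0 2 0 2,.e 1 3 1 3,.e 2 4 2 4,.e 3 4 3 4,.e 0 5 0 5,.o 0,.e 1 6 1 0,.o 1,.e 2 7 2 1,.e 6 7 0 1,.o 2,.e 4 8 4 2,.e 6 8 0 2,.o 0,.e 5 9 5 0,.o 4,.e 3 10 3 4,.e 7 10 1 4,.o 3,.e 5 11 5 3,.e 8 11 2 3],[(7,1),(8,2),(9,0),(10,4),(11,3)],5⟩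

def q191 : QS := ⟨12,[.e 0 1 0 1,.e 0 2 0 2,.e 1 3 1 3,.e 2 4 2 4,.e 3 4 3 4,.e 0 5 0 5,.o 0,.e 1 6 1 0,.o 1,.e 4 7 4 1,.e 6 7 0 1,.o 4,.e 2 8 2 4,.e 6 8 0 4,.o 0,.e 5 9 5 0,.o 2,.e 5 10 5 2,.o 5,.e 3 11 3 5,.e 8 11 4 5,.e 10 11 2 5],[(7,1),(8,4),(9,0),(10,2),(11,5)],3⟩

def q192 : QS := ⟨12,[.e 0 1 0 1,.e 0 2 0 2,.e 1 3 1 3,.e 2 4 2 4,.e 3 4 3 4,.e 1 5 1 5,.o 1,.e 0 6 0 1,.o 0,.e 2 7 2 0,.o 2,.e 3 8 3 2,.e 6 8 1 2,.o 3,.e 4 9 4 3,.e 6 9 1 3,.o 1,.e 5 10 5 1,.o 4,.e 5 11 5 4],[(7,0),(8,2),(9,3),(10,1),(11,4)],5⟩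

def q193 : QS := ⟨12,[.e 0 1 0 1,.e 0 2 0 2,.e 1 3 1 3,.e 2 4 2 4,.e 3 4 3 4,.e 1 5 1 5,.o 1,.e 0 6 0 1,.o 0,.e 2 7 2 0,.o 2,.e 3 8 3 2,.e 6 8 1 2,.o 3,.e 4 9 4 3,.e 6 9 1 3,.o 1,.e 5 10 5 1,.o 4,.e 5 11 5 4,.e 9 11 3 4],[(7,0),(8,2),(9,3),(10,1),(11,4)],5⟩

def q194 : QS := ⟨12,[.e 0 1 0 1,.e 0 2 0 2,.e 1 3 1 3,.e 2 4 2 4,.e 3 4 3 4,.e 1 5 1 5,.o 1,.e 0 6 0 1,.o 0,.e 2 7 2 0,.o 2,.e 4 8 4 2,.e 6 8 1 2,.o 4,.e 3 9 3 4,.e 6 9 1 4,.o 1,.e 5 10 5 1,.o 3,.e 5 11 5 3,.e 9 11 4 3],[(7,0),(8,2),(9,4),(10,1),(11,3)],5⟩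

def q195 : QS := ⟨12,[.e 0 1 0 1,.e 0 2 0 2,.e 2 3 2 3,.e 1 4 1 4,.e 3 4 3 4,.e 0 5 0 5,.o 0,.e 1 6 1 0,.o 1,.e 3 7 3 1,.e 5 7 5 1,.o 3,.e 2 8 2 3,.o 2,.e 4 9 4 2,.e 5 9 5 2,.o 4,.e 8 10 3 4,.e 9 10 2 4,.o 5,.e 10 11 4 5],[(6,0),(7,1),(8,3),(9,2),(11,5)],4⟩

def q196 : QS := ⟨12,[.e 0 1 0 1,.e 0 2 0 2,.e 2 3 2 3,.e 1 4 1 4,.e 3 4 3 4,.e 0 5 0 5,.o 0,.e 1 6 1 0,.o 1,.e 3 7 3 1,.e 5 7 5 1,.o 3,.e 4 8 4 3,.e 5 8 5 3,.o 4,.e 7 9 1 4,.o 5,.e 2 10 2 5,.e 8 10 3 5,.e 9 10 4 5,.o 2,.e 9 11 4 2],[(6,0),(7,1),(8,3),(10,5),(11,2)],4⟩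

def q197 : QS := ⟨12,[.e 0 1 0 1,.e 0 2 0 2,.e 2 3 2 3,.e 1 4 1 4,.e 3 4 3 4,.e 0 5 0 5,.o 0,.e 3 6 3 0,.e 5 6 5 0,.o 3,.e 1 7 1 3,.o 1,.e 4 8 4 1,.e 5 8 5 1,.o 4,.e 7 9 3 4,.e 8 9 1 4,.o 5,.e 2 10 2 5,.o 2,.e 9 11 4 2,.e 10 11 5 2],[(6,0),(7,3),(8,1),(10,5),(11,2)],4⟩

def q198 : QS := ⟨12,[.e 0 1 0 1,.e 0 2 0 2,.e 2 3 2 3,.e 1 4 1 4,.e 3 4 3 4,.e 0 5 0 5,.o 0,.e 3 6 3 0,.e 5 6 5 0,.o 3,.e 1 7 1 3,.o 1,.e 4 8 4 1,.e 5 8 5 1,.o 4,.e 7 9 3 4,.o 5,.e 2 10 2 5,.e 8 10 1 5,.e 9 10 4 5,.o 2,.e 9 11 4 2],[(6,0),(7,3),(8,1),(10,5),(11,2)],4⟩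

def q199 : QS := ⟨12,[.e 0 1 0 1,.e 0 2 0 2,.e 2 3 2 3,.e 1 4 1 4,.e 3 4 3 4,.e 0 5 0 5,.o 0,.e 1 6 1 0,.o 1,.e 3 7 3 1,.e 5 7 5 1,.o 3,.e 4 8 4 3,.e 5 8 5 3,.o 4,.e 6 9 0 4,.e 7 9 1 4,.o 5,.e 9 10 4 5,.o 4,.e 2 11 2 4,.e 8 11 3 4],[(6,0),(7,1),(8,3),(10,5),(11,4)],2⟩

def q200 : QS := ⟨13,[.e 0 1 0 1,.e 0 2 0 2,.e 0 3 0 3,.e 1 4 1 4,.e 3 5 3 5,.o 0,.e 1 6 1 0,.e 5 6 5 0,.o 1,.e 2 7 2 1,.e 5 7 5 1,.o 5,.e 2 8 2 5,.e 6 8 0 5,.o 2,.e 3 9 3 2,.e 8 9 5 2,.o 3,.e 4 10 4 3,.e 9 10 2 3,.o 5,.e 4 11 4 5,.o 4,.e 10 12 3 4],[(6,0),(7,1),(9,2),(11,5),(12,4)],3⟩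

def q201 : QS := ⟨13,[.e 0 1 0 1,.e 0 2 0 2,.e 1 3 1 3,.e 0 4 0 4,.e 2 5 2 5,.e 3 5 3 5,.o 0,.e 1 6 1 0,.o 1,.e 2 7 2 1,.e 6 7 0 1,.o 2,.e 5 8 5 2,.e 6 8 0 2,.o 0,.e 4 9 4 0,.e 8 9 2 0,.o 5,.e 4 10 4 5,.o 4,.e 3 11 3 4,.o 3,.e 9 12 0 3,.e 11 12 4 3],[(7,1),(8,2),(10,5),(11,4),(12,3)],0⟩

def q202 : QS := ⟨13,[.e 0 1 0 1,.e 0 2 0 2,.e 1 3 1 3,.e 0 4 0 4,.e 2 5 2 5,.e 3 5 3 5,.o 0,.e 1 6 1 0,.o 1,.e 2 7 2 1,.e 6 7 0 1,.o 2,.e 3 8 3 2,.o 3,.e 5 9 5 3,.e 6 9 0 3,.o 0,.e 4 10 4 0,.e 8 10 2 0,.o 5,.e 4 11 4 5,.o 4,.e 10 12 0 4],[(7,1),(8,2),(9,3),(11,5),(12,4)],0⟩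

def q203 : QS := ⟨13,[.e 0 1 0 1,.e 0 2 0 2,.e 1 3 1 3,.e 0 4 0 4,.e 2 5 2 5,.e 3 5 3 5,.o 0,.e 1 6 1 0,.o 1,.e 5 7 5 1,.e 6 7 0 1,.o 5,.e 2 8 2 5,.e 6 8 0 5,.o 0,.e 4 9 4 0,.o 2,.e 4 10 4 2,.o 4,.e 3 11 3 4,.e 8 11 5 4,.e 9 11 0 4,.o 3,.e 9 12 0 3],[(7,1),(8,5),(10,2),(11,4),(12,3)],0⟩

def q204 : QS := ⟨13,[.e 0 1 0 1,.e 0 2 0 2,.e 1 3 1 3,.e 0 4 0 4,.e 2 5 2 5,.e 3 5 3 5,.o 0,.e 1 6 1 0,.o 1,.e 5 7 5 1,.e 6 7 0 1,.o 5,.e 2 8 2 5,.e 6 8 0 5,.o 0,.e 4 9 4 0,.e 7 9 1 0,.o 2,.e 4 10 4 2,.o 4,.e 9 11 0 4,.o 0,.e 3 12 3 0,.e 8 12 5 0],[(7,1),(8,5),(10,2),(11,4),(12,0)],3⟩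

def q205 : QS := ⟨13,[.e 0 1 0 1,.e 0 2 0 2,.e 1 3 1 3,.e 2 4 2 4,.e 3 4 3 4,.e 0 5 0 5,.o 0,.e 1 6 1 0,.o 1,.e 2 7 2 1,.o 2,.e 3 8 3 2,.e 5 8 5 2,.o 3,.e 4 9 4 3,.e 5 9 5 3,.o 4,.e 6 10 0 4,.o 5,.e 7 11 1 5,.e 9 11 3 5,.e 10 11 4 5,.o 5,.e 10 12 4 5],[(6,0),(7,1),(8,2),(9,3),(12,5)],4⟩

def q206 : QS := ⟨13,[.e 0 1 0 1,.e 0 2 0 2,.e 1 3 1 3,.e 2 4 2 4,.e 3 4 3 4,.e 0 5 0 5,.o 0,.e 2 6 2 0,.o 2,.e 1 7 1 2,.o 1,.e 3 8 3 1,.e 5 8 5 1,.o 3,.e 4 9 4 3,.e 5 9 5 3,.o 4,.e 6 10 0 4,.o 5,.e 7 11 2 5,.e 9 11 3 5,.e 10 11 4 5,.o 5,.e 10 12 4 5],[(6,0),(7,2),(8,1),(9,3),(12,5)],4⟩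

def q207 : QS := ⟨13,[.e 0 1 0 1,.e 0 2 0 2,.e 1 3 1 3,.e 2 4 2 4,.e 3 4 3 4,.e 0 5 0 5,.o 0,.e 1 6 1 0,.o 1,.e 2 7 2 1,.e 6 7 0 1,.o 2,.e 3 8 3 2,.o 3,.e 4 9 4 3,.e 6 9 0 3,.o 0,.e 8 10 2 0,.e 9 10 3 0,.o 4,.e 5 11 5 4,.e 10 11 0 4,.o 0,.e 5 12 5 0],[(7,1),(8,2),(9,3),(11,4),(12,0)],5⟩

def q208 : QS := ⟨13,[.e 0 1 0 1,.e 0 2 0 2,.e 1 3 1 3,.e 2 4 2 4,.e 3 4 3 4,.e 1 5 1 5,.o 1,.e 0 6 0 1,.o 0,.e 4 7 4 0,.e 6 7 1 0,.o 4,.e 2 8 2 4,.o 2,.e 3 9 3 2,.e 6 9 1 2,.o 1,.e 8 10 4 1,.e 9 10 2 1,.o 3,.e 5 11 5 3,.e 10 11 1 3,.o 1,.e 5 12 5 1],[(7,0),(8,4),(9,2),(11,3),(12,1)],5⟩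

def q209 : QS := ⟨13,[.e 0 1 0 1,.e 1 2 1 2,.e 0 3 0 3,.e 0 4 0 4,.e 2 5 2 5,.e 3 5 3 5,.o 0,.e 1 6 1 0,.o 1,.e 2 7 2 1,.o 2,.e 3 8 3 2,.e 6 8 0 2,.o 3,.e 5 9 5 3,.e 6 9 0 3,.o 0,.e 4 10 4 0,.e 9 10 3 0,.o 5,.e 4 11 4 5,.o 4,.e 10 12 0 4],[(7,1),(8,2),(9,3),(11,5),(12,4)],0⟩

def q210 : QS := ⟨13,[.e 0 1 0 1,.e 1 2 1 2,.e 0 3 0 3,.e 0 4 0 4,.e 2 5 2 5,.e 3 5 3 5,.o 0,.e 1 6 1 0,.o 1,.e 2 7 2 1,.o 2,.e 5 8 5 2,.e 6 8 0 2,.o 5,.e 3 9 3 5,.e 6 9 0 5,.o 0,.e 4 10 4 0,.e 9 10 5 0,.o 3,.e 4 11 4 3,.o 4,.e 10 12 0 4],[(7,1),(8,2),(9,5),(11,3),(12,4)],0⟩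

def q211 : QS := ⟨14,[.e 0 1 0 1,.e 0 2 0 2,.e 0 3 0 3,.e 1 4 1 4,.e 3 5 3 5,.e 4 5 4 5,.o 0,.e 1 6 1 0,.o 1,.e 3 7 3 1,.e 6 7 0 1,.o 3,.e 4 8 4 3,.o 4,.e 5 9 5 4,.e 6 9 0 4,.o 0,.e 2 10 2 0,.e 9 10 4 0,.o 5,.e 8 11 3 5,.e 10 11 0 5,.o 0,.e 2 12 2 0,.o 2,.e 11 13 5 2],[(7,1),(8,3),(9,4),(12,0),(13,2)],5⟩

def q212 : QS := ⟨14,[.e 0 1 0 1,.e 0 2 0 2,.e 0 3 0 3,.e 1 4 1 4,.e 3 5 3 5,.e 4 5 4 5,.o 0,.e 1 6 1 0,.o 1,.e 3 7 3 1,.e 6 7 0 1,.o 3,.e 4 8 4 3,.o 4,.e 5 9 5 4,.e 6 9 0 4,.o 0,.e 2 10 2 0,.o 5,.e 8 11 3 5,.e 9 11 4 5,.e 10 11 0 5,.o 5,.e 2 12 2 5,.o 2,.e 10 13 0 2],[(7,1),(8,3),(9,4),(12,5),(13,2)],0⟩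

def q213 : QS := ⟨14,[.e 0 1 0 1,.e 0 2 0 2,.e 1 3 1 3,.e 0 4 0 4,.e 3 5 3 5,.e 4 5 4 5,.o 0,.e 1 6 1 0,.o 1,.e 3 7 3 1,.o 3,.e 5 8 5 3,.e 6 8 0 3,.o 5,.e 4 9 4 5,.e 6 9 0 5,.o 0,.e 2 10 2 0,.o 4,.e 7 11 1 4,.e 9 11 5 4,.e 10 11 0 4,.o 4,.e 2 12 2 4,.o 2,.e 10 13 0 2],[(7,1),(8,3),(9,5),(12,4),(13,2)],0⟩

/-- the table -/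
def tbl : List QS := [q0, q1, q2, q3, q4, q5, q6, q7, q8, q9, q10, q11, q12, q13, q14, q15, q16, q17, q18, q19, q20, q21, q22, q23, q24, q25, q26, q27, q28, q29, q30, q31, q32, q33, q34, q35, q36, q37, q38, q39, q40, q41, q42, q43, q44, q45, q46, q47, q48, q49, q50, q51, q52, q53, q54, q55, q56, q57, q58, q59, q60, q61, q62, q63, q64, q65, q66, q67, q68, q69, q70, q71, q72, q73, q74, q75, q76, q77, q78, q79, q80, q81, q82, q83, q84, q85, q86, q87, q88, q89, q90, q91, q92, q93, q94, q95, q96, q97, q98, q99, q100, q101, q102, q103, q104, q105, q106, q107, q108, q109, q110, q111, q112, q113, q114, q115, q116, q117, q118, q119, q120, q121, q122,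 q123, q124, q125, q126, q127, q128, q129, q130, q131, q132, q133, q134, q135, q136, q137, q138, q139, q140, q141, q142, q143, q144, q145, q146, q147, q148, q149, q150, q151, q152, q153, q154, q155, q156, q157, q158, q159, q160, q161, q162, q163, q164, q165, q166, q167, q168, q169, q170, q171, q172, q173, q174, q175, q176, q177, q178, q179, q180, q181, q182, q183, q184, q185, q186, q187, q188, q189, q190, q191, q192, q193, q194, q195, q196, q197, q198, q199, q200, q201, q202, q203, q204, q205, q206, q207, q208, q209, q210, q211, q212, q213]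

end Pool.Agent.TH395.P5
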