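import Pool.Agent.H79.LF.TH497_BF_Facts

set_option autoImplicit false
set_option linter.unusedSectionVars false
set_option linter.unusedVariables false
set_option synthInstance.maxHeartbeats 400000
set_option synthInstance.maxSize 2048

/-! # Replacing the values inside a small part; short circuits; three configurations -/

namespace Pool.Agent.TH497.BF

open Finset Pool.Agent.TH676.A
open Pool.Agent.TH499.TF (Joins Ad N3 Dbl G5 gadget)

variable {V E : Type} [Fintype V] [DecidableEq V] [Fintype E] [DecidableEq E]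
variable {Γ : Type} [AddCommGroup Γ] {A : Γ → Prop} {src dst : E → V}

theorem Ex2.cc (hE : Ex2 Γ) (a b : Γ) : a + (a + b) = b := by
  rw [← add_assoc, hE a, zero_add]

theorem jsum {e : E} {x y : V} (hE : Ex2 Γ) (h : Joins src dst e x y) (c : Γ) (v : V) :
    (if src e = v then c else 0) + (if dst e = v then c else 0) =
      (if x = v then c else 0) + (if y = v then c else 0) := by
  rcases h with ⟨h1, h2⟩ | ⟨h1, h2⟩
  · rw [h1, h2]
  · rw [h1, h2, add_comm]

/-- **Replacement.**  New values on a small part with the same sums at the labels. -/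
theorem rep (hE : Ex2 Γ) {N m : ℕ} (p q : Fin m → Fin N) {l : Fin N → V}
    (hl : Function.Injective l) {ε : Fin m → E} (hε : Function.Injective ε)
    (hj : ∀ k, Joins src dst (ε k) (l (p k)) (l (q k))) {f : E → Γ}
    (hf : ∀ v, bd src dst f v = 0) (hA : ∀ e, (∀ k, e ≠ ε k) → A (f e)) {t : Fin m → Γ}
    (ht : ∀ k, A (t k)) (hs : ∀ i, bd p q t i = bd p q (fun k => f (ε k)) i) :
    FlowOn A src dst ∅ ∅ := by
  classical
  set c : Fin m → Γ := fun k => t k + f (ε k) with hc
  have hbc : ∀ i, bd p q c i = 0 := by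
    intro i
    have h1 : c = t + fun k => f (ε k) := rfl
    rw [h1, bd_add, hs, hE]
  set g : E → Γ := fun e => ∑ k, if ε k = e then c k else 0 with hg
  have hbg : ∀ v, bd src dst g v = 0 := by
    intro v
    have h1 : bd src dst g v = ∑ k, ((if l (p k) = v then c k else 0) +
        (if l (q k) = v then c k else 0)) := by
      unfold bd
      have h2 : ∀ e, ((if src e = v then g e else 0) + (if dst e = v then g e else 0)) =
          ∑ k, (if ε k = e then ((if src e = v then c k else 0) + (if dst e = v then c k else 0))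
            else 0) := by
        intro e
        rw [hg]
        by_cases h3 : src e = v <;> by_cases h4 : dst e = v <;>
          simp only [h3, h4, if_true, if_false, add_zero, zero_add]
        · rw [← sum_add_distrib]
          refine sum_congr rfl fun k _ => ?_
          by_cases h5 : ε k = e <;> simp [h5]
        · simp
      rw [sum_congr rfl fun e _ => h2 e, sum_comm]
      refine sum_congr rfl fun k _ => ?_
      rw [sum_ite_eq]
      simp only [mem_univ, if_true]
      exact jsum hE (hj k) (c k) v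
    rw [h1]
    by_cases hv : ∃ i, l i = v
    · obtain ⟨i, rfl⟩ := hv
      refine Eq.trans ?_ (hbc i)
      unfold bd
      refine sum_congr rfl fun k _ => ?_
      simp only [hl.eq_iff]
    · push Not at hv
      refine sum_eq_zero fun k _ => ?_
      rw [if_neg (hv _), if_neg (hv _), add_zero]
  refine ⟨f + g, fun v => ?_, fun e he => absurd he (notMem_empty _), fun e _ _ => ?_⟩
  · rw [bd_add, hf, hbg, add_zero]
  · rw [Pi.add_apply]
    by_cases he : ∃ k, ε k = e
    · obtain ⟨k, rfl⟩ := he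
      have h1 : g (ε k) = c k := by
        rw [hg]
        simp only
        rw [sum_eq_single k]
        · simp
        · intro j _ hj2
          rw [if_neg (fun h => hj2 (hε h))]
        · intro h; exact absurd (mem_univ _) h
      rw [h1, hc]
      simp only
      rw [add_comm (t k), Ex2.cc hE]
      exact ht k
    · push Not at he
      have h1 : g e = 0 := by
        rw [hg]
        refine sum_eq_zero fun k _ => ?_
        rw [if_neg (he k)]
      rw [h1, add_zero]
      exact hA e (fun k hk => he k hk.symm)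

theorem ge3 (hA : Alg A) (h : MinCx A src dst) (Y : Finset V) :
    (crs src dst Y).card = 0 ∨ 3 ≤ (crs src dst Y).card := by
  by_cases h0 : (crs src dst Y).card = 0
  · exact Or.inl h0
  · right
    obtain ⟨e, he⟩ := card_pos.mp (Nat.pos_of_ne_zero h0)
    rw [mem_crs] at he
    have hl : src e ≠ dst e := by
      intro h1; apply he; rw [h1]
    by_cases h1 : src e ∈ Y
    · have h2 : dst e ∉ Y := fun h2 => he ⟨fun _ => h2, fun _ => h1⟩
      exact cut3 hA h h1 h2 ⟨e, hl, Or.inl rfl⟩ ⟨e, hl, Or.inr rfl⟩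
    · have h2 : dst e ∈ Y := by
        by_contra h2; exact he ⟨fun h3 => absurd h3 h1, fun h3 => absurd h3 h2⟩
      exact cut3 hA h h2 h1 ⟨e, hl, Or.inr rfl⟩ ⟨e, hl, Or.inl rfl⟩

/-- deleting one edge leaves no bridge -/
theorem br1 (hA : Alg A) (h : MinCx A src dst) (e : E) : Br src dst {e} ∅ := by
  intro Y _
  have h1 : (crs src dst Y).card ≤ (crs src dst Y \ {e}).card + 1 := by
    have := card_le_card_sdiff_add_card (s := crs src dst Y) (t := ({e} : Finset E))
    rwa [card_singleton] at this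
  have h2 : (crs src dst Y \ {e}).card ≤ (crs src dst Y).card := card_le_card sdiff_subset
  rcases ge3 hA h Y with h3 | h3 <;> omega

/-- the ends of the edges of a cut with three edges -/
theorem star3 (hA : Alg A) (h : MinCx A src dst) {Y : Finset V}
    (h3 : (crs src dst Y).card = 3) : ∃ v, ∀ e ∈ crs src dst Y, src e = v ∨ dst e = v := by
  classical
  have nisx : ∀ e ∈ crs src dst Y, src e ≠ dst e := by
    intro e he h1
    rw [mem_crs] at he
    apply he; rw [h1]
  by_contra hcon
  push Not at hcon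
  obtain ⟨e0, he0⟩ := card_pos.mp (show 0 < (crs src dst Y).card by omega)
  -- two vertices on each side
  have key : ∀ Z : Finset V, (∀ e, e ∈ crs src dst Y ↔ ¬ (src e ∈ Z ↔ dst e ∈ Z)) →
      ∃ x ∈ Z, ∃ x2 ∈ Z, x ≠ x2 ∧ Nis src dst x ∧ Nis src dst x2 := by
    intro Z hZ
    have h1 := (hZ e0).mp he0
    obtain ⟨x, hx, hxe⟩ : ∃ x ∈ Z, src e0 = x ∨ dst e0 = x := by
      by_cases h2 : src e0 ∈ Z
      · exact ⟨_, h2, Or.inl rfl⟩
      · refine ⟨dst e0, ?_, Or.inr rfl⟩
        by_contra h4; exact h1 ⟨fun h5 => absurd h5 h2, fun h5 => absurd h5 h4⟩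
    obtain ⟨e1, he1, hn1, hn2⟩ := hcon x
    have h4 := (hZ e1).mp he1
    obtain ⟨y, hy, hye⟩ : ∃ y ∈ Z, src e1 = y ∨ dst e1 = y := by
      by_cases h2 : src e1 ∈ Z
      · exact ⟨_, h2, Or.inl rfl⟩
      · refine ⟨dst e1, ?_, Or.inr rfl⟩
        by_contra h5; exact h4 ⟨fun h6 => absurd h6 h2, fun h6 => absurd h6 h5⟩
    refine ⟨x, hx, y, hy, ?_, ⟨e0, nisx e0 he0, hxe⟩, ⟨e1, nisx e1 he1, hye⟩⟩
    rintro rfl
    rcases hye with h5 | h5
    · exact hn1 h5
    · exact hn2 h5
  obtain ⟨x, hx, x2, hx2, hxx, nx, nx2⟩ := key Y (fun e => mem_crs)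
  obtain ⟨y, hy, y2, hy2, hyy, ny, ny2⟩ := key Yᶜ (fun e => by
    rw [mem_crs, mem_compl, mem_compl]; tauto)
  rw [mem_compl] at hy hy2
  have := cut4 hA h hx hx2 hxx hy hy2 hyy nx nx2 ny ny2
  omega

/-- deleting two edges without a common end leaves no bridge -/
theorem br2 (hA : Alg A) (h : MinCx A src dst) (e f : E)
    (hd : ∀ v, (src e = v ∨ dst e = v) → (src f = v ∨ dst f = v) → False) :
    Br src dst {e, f} ∅ := by
  intro Y _ h1
  have h2 : (crs src dst Y).card ≤ (crs src dst Y \ {e, f}).card + 2 := by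
    have h3 := card_le_card_sdiff_add_card (s := crs src dst Y) (t := ({e, f} : Finset E))
    have h4 : ({e, f} : Finset E).card ≤ 2 := card_le_two
    omega
  have h3 : (crs src dst Y \ {e, f}).card ≤ (crs src dst Y).card := card_le_card sdiff_subset
  have h5 : (crs src dst Y).card = 3 := by
    rcases ge3 hA h Y with h6 | h6 <;> omega
  obtain ⟨v, hv⟩ := star3 hA h h5
  have he : e ∈ crs src dst Y := by
    by_contra he
    have : crs src dst Y \ {e, f} = crs src dst Y \ {f} := by
      ext d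
      simp only [mem_sdiff, mem_insert, mem_singleton, not_or]
      constructor
      · rintro ⟨a, _, b⟩; exact ⟨a, b⟩
      · rintro ⟨a, b⟩; exact ⟨a, fun hde => he (hde ▸ a), b⟩
    rw [this] at h1
    have h6 := card_le_card_sdiff_add_card (s := crs src dst Y) (t := ({f} : Finset E))
    rw [card_singleton] at h6
    omega
  have hf : f ∈ crs src dst Y := by
    by_contra hf
    have : crs src dst Y \ {e, f} = crs src dst Y \ {e} := by
      ext d
      simp only [mem_sdiff, mem_insert, mem_singleton, not_or]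
      constructor
      · rintro ⟨a, b, _⟩; exact ⟨a, b⟩
      · rintro ⟨a, b⟩; exact ⟨a, b, fun hde => hf (hde ▸ a)⟩
    rw [this] at h1
    have h6 := card_le_card_sdiff_add_card (s := crs src dst Y) (t := ({e} : Finset E))
    rw [card_singleton] at h6
    omega
  exact hd v (hv e he) (hv f hf)

/-- a flow after the deletion of some edges -/
theorem delf (hA : Alg A) (h : MinCx A src dst) {D : Finset E} {e : E} (he : e ∈ D)
    (hne : src e ≠ dst e) (hbr : Br src dst D ∅) :
    ∃ f : E → Γ, (∀ v, bd src dst f v = 0) ∧ (∀ e ∈ D, f e = 0) ∧ ∀ e, e ∉ D → A (f e) := by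
  obtain ⟨f, h1, h2, h3⟩ := h.crit D ∅ (disjoint_empty_right _)
    ⟨e, mem_union_left _ he, hne⟩ hbr
  exact ⟨f, h1, h2, fun e he => h3 e he (notMem_empty _)⟩

/-- no parallel edges -/
theorem par (hF : Facts A) (h : MinCx A src dst) {e e' : E} {x y : V} (hxy : x ≠ y)
    (h1 : Joins src dst e x y) (h2 : Joins src dst e' x y) : e = e' := by
  by_contra hne
  have hA := hF.alg
  obtain ⟨f, f0, f1, f2⟩ := delf hA h (mem_singleton_self e) (h1.ne_loop hxy) (br1 hA h e)
  obtain ⟨r, r1, r2, _⟩ := hF.s4 (f e') (f e') (f2 e' (by simpa using Ne.symm hne))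
    (f2 e' (by simpa using Ne.symm hne))
  have hε : Function.Injective (![e, e'] : Fin 2 → E) := by
    intro i j hij
    fin_cases i <;> fin_cases j <;> simp_all [eq_comm]
  have hl : Function.Injective (![x, y] : Fin 2 → V) := by
    intro i j hij
    fin_cases i <;> fin_cases j <;> simp_all [eq_comm]
  refine h.nf (rep hA.two (fun _ : Fin 2 => (0 : Fin 2)) (fun _ => 1) hl hε ?_ f0 ?_
    (t := ![r, r + f e']) ?_ ?_)
  · intro k; fin_cases k
    · exact h1
    · exact h2
  · intro d hd
    refine f2 d ?_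
    have := hd 0
    simpa using this
  · intro k; fin_cases k
    · exact r1
    · exact r2
  · have h0 : f e = 0 := f1 e (mem_singleton_self e)
    intro i
    fin_cases i <;> simp [bd, Fin.sum_univ_succ, h0, Ex2.cc hA.two]

theorem tri (hF : Facts A) (h : MinCx A src dst) {e1 e2 e3 : E} {x y z : V} (hxy : x ≠ y)
    (hyz : y ≠ z) (hzx : z ≠ x) (h1 : Joins src dst e1 x y) (h2 : Joins src dst e2 y z)
    (h3 : Joins src dst e3 z x) : False := by
  have hA := hF.alg
  have n12 : e1 ≠ e2 := by
    rintro rfl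
    rcases h1.ends h2 with ⟨a, b⟩ | ⟨a, b⟩
    · exact hxy a
    · exact hzx a.symm
  have n13 : e1 ≠ e3 := by
    rintro rfl
    rcases h1.ends h3 with ⟨a, b⟩ | ⟨a, b⟩
    · exact hzx a.symm
    · exact hyz b
  have n23 : e2 ≠ e3 := by
    rintro rfl
    rcases h2.ends h3 with ⟨a, b⟩ | ⟨a, b⟩
    · exact hyz a
    · exact hxy a.symm
  obtain ⟨f, f0, f1, f2⟩ := delf hA h (mem_singleton_self e1) (h1.ne_loop hxy) (br1 hA h e1)
  obtain ⟨r, r1, r2, r3⟩ := hF.s4 (f e2) (f e3) (f2 e2 (by simpa using Ne.symm n12))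
    (f2 e3 (by simpa using Ne.symm n13))
  have hε : Function.Injective (![e1, e2, e3] : Fin 3 → E) := by
    intro i j hij
    fin_cases i <;> fin_cases j <;> simp_all [eq_comm]
  have hl : Function.Injective (![x, y, z] : Fin 3 → V) := by
    intro i j hij
    fin_cases i <;> fin_cases j <;> simp_all [eq_comm]
  have h0 : f e1 = 0 := f1 e1 (mem_singleton_self e1)
  refine h.nf (rep hA.two (![0, 1, 2] : Fin 3 → Fin 3) (![1, 2, 0] : Fin 3 → Fin 3) hl hε ?_ f0 ?_
    (t := ![r, r + f e2, r + f e3]) ?_ ?_)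
  · intro k; fin_cases k
    · exact h1
    · exact h2
    · exact h3
  · intro d hd
    refine f2 d ?_
    have := hd 0
    simpa using this
  · intro k; fin_cases k
    · exact r1
    · exact r2
    · exact r3
  · have c1 : ∀ a b c : Γ, a + b + (a + c) = b + c := by
      intro a b c
      rw [add_add_add_comm, hA.two, zero_add]
    intro i
    fin_cases i
    · simp [bd, Fin.sum_univ_succ, h0, Ex2.cc hA.two]
    · simp [bd, Fin.sum_univ_succ, h0, Ex2.cc hA.two]
    · simp [bd, Fin.sum_univ_succ, h0, c1]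

theorem sq (hF : Facts A) (h : MinCx A src dst) {e1 e2 e3 e4 : E} {x y z w : V} (hxy : x ≠ y)
    (hyz : y ≠ z) (hzw : z ≠ w) (hwx : w ≠ x) (hxz : x ≠ z) (hyw : y ≠ w)
    (h1 : Joins src dst e1 x y) (h2 : Joins src dst e2 y z)
    (h3 : Joins src dst e3 z w) (h4 : Joins src dst e4 w x) : False := by
  have hA := hF.alg
  have n12 : e1 ≠ e2 := by
    rintro rfl
    rcases h1.ends h2 with ⟨a, b⟩ | ⟨a, b⟩
    · exact hxy a
    · exact hxz a
  have n13 : e1 ≠ e3 := by
    rintro rfl
    rcases h1.ends h3 with ⟨a, b⟩ | ⟨a, b⟩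
    · exact hxz a
    · exact hwx a.symm
  have n14 : e1 ≠ e4 := by
    rintro rfl
    rcases h1.ends h4 with ⟨a, b⟩ | ⟨a, b⟩
    · exact hwx a.symm
    · exact hyw b
  have n23 : e2 ≠ e3 := by
    rintro rfl
    rcases h2.ends h3 with ⟨a, b⟩ | ⟨a, b⟩
    · exact hyz a
    · exact hyw a
  have n24 : e2 ≠ e4 := by
    rintro rfl
    rcases h2.ends h4 with ⟨a, b⟩ | ⟨a, b⟩
    · exact hyw a
    · exact hxy a.symm
  have n34 : e3 ≠ e4 := by
    rintro rfl
    rcases h3.ends h4 with ⟨a, b⟩ | ⟨a, b⟩
    · exact hzw a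
    · exact hxz a.symm
  have hdis : ∀ v, (src e1 = v ∨ dst e1 = v) → (src e3 = v ∨ dst e3 = v) → False := by
    intro v a b
    have a' : v = x ∨ v = y := by
      rcases h1 with ⟨c, d⟩ | ⟨c, d⟩ <;> rw [c, d] at a <;> tauto
    have b' : v = z ∨ v = w := by
      rcases h3 with ⟨c, d⟩ | ⟨c, d⟩ <;> rw [c, d] at b <;> tauto
    rcases a' with rfl | rfl <;> rcases b' with rfl | rfl
    · exact hxz rfl
    · exact hwx rfl
    · exact hyz rfl
    · exact hyw rfl
  obtain ⟨f, f0, f1, f2⟩ := delf hA h (D := {e1, e3}) (e := e1) (by simp) (h1.ne_loop hxy)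
    (br2 hA h e1 e3 hdis)
  obtain ⟨r, r1, r2, r3⟩ := hF.s4 (f e2) (f e4)
    (f2 e2 (by simp only [mem_insert, mem_singleton, not_or]; exact ⟨Ne.symm n12, n23⟩))
    (f2 e4 (by simp only [mem_insert, mem_singleton, not_or]; exact ⟨Ne.symm n14, Ne.symm n34⟩))
  have hε : Function.Injective (![e1, e2, e3, e4] : Fin 4 → E) := by
    intro i j hij
    fin_cases i <;> fin_cases j <;> simp_all [eq_comm]
  have hl : Function.Injective (![x, y, z, w] : Fin 4 → V) := by
    intro i j hij
    fin_cases i <;> fin_cases j <;> simp_all [eq_comm]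
  have h0 : f e1 = 0 := f1 e1 (by simp)
  have h0' : f e3 = 0 := f1 e3 (by simp)
  refine h.nf (rep hA.two (![0, 1, 2, 3] : Fin 4 → Fin 4) (![1, 2, 3, 0] : Fin 4 → Fin 4) hl hε
    ?_ f0 ?_ (t := ![r, r + f e2, r, r + f e4]) ?_ ?_)
  · intro k; fin_cases k
    · exact h1
    · exact h2
    · exact h3
    · exact h4
  · intro d hd
    refine f2 d ?_
    have a := hd 0
    have b := hd 2
    simp only [mem_insert, mem_singleton, not_or]
    exact ⟨a, b⟩
  · intro k; fin_cases k
    · exact r1
    · exact r2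
    · exact r1
    · exact r3
  · have c1 : ∀ a b : Γ, a + b + a = b := by
      intro a b
      rw [add_right_comm, hA.two, zero_add]
    intro i
    fin_cases i <;> simp [bd, Fin.sum_univ_succ, h0, h0', Ex2.cc hA.two, c1]

/-- no short circuits -/
theorem g5 (hF : Facts A) (h : MinCx A src dst) : G5 (Ad src dst) := by
  refine ⟨fun x hx => hx.1 rfl, fun x y h => h.symm, ?_, ?_⟩
  · rintro x y z ⟨n1, e1, h1⟩ ⟨n2, e2, h2⟩ ⟨n3, e3, h3⟩
    exact tri hF h n1 n2 n3 h1 h2 h3
  · rintro x y z w a b ⟨n1, e1, h1⟩ ⟨n2, e2, h2⟩ ⟨n3, e3, h3⟩ ⟨n4, e4, h4⟩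
    exact sq hF h n1 n2 n3 n4 a b h1 h2 h3 h4

end Pool.Agent.TH497.BF
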