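import Pool.Agent.H79.LF.TH499_TF_LemB1

set_option autoImplicit false
set_option linter.unusedSectionVars false

/-! # Local structure: conclusion -/

namespace Pool.Agent.TH499.TF

open Finset

variable {V : Type} [Fintype V] [DecidableEq V]
variable {A : V → V → Prop} {X : Finset V}

/-- all neighbours in the bag -/
def TyI (A : V → V → Prop) (X : Finset V) (u : V) : Prop := ∀ w, A u w → w ∈ X

/-- two neighbours in the bag and one single -/
structure TyII (A : V → V → Prop) (X : Finset V) (u v k l i i' : V) : Prop where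
  n1 : N3 A u v k l
  n2 : N3 A v u i i'
  hu : u ∈ X
  hv : v ∉ X
  hk : k ∈ X
  hl : l ∈ X
  hi : i ∈ X
  hi' : i' ∈ X
  nd : [u, k, l, i, i'].Nodup
  ex : ∀ z ∈ X, z = u ∨ z = k ∨ z = l ∨ z = i ∨ z = i'

theorem Loc.ees {P : Finset V} (L : Loc A X P) (g : G5 A) {u k l v i i' : V} (huP : u ∈ P)
    (huX : u ∈ X) (hk : A u k) (hkX : k ∈ X) (hl : A u l) (hlX : l ∈ X) (hkl : k ≠ l)
    (hv : A u v) (h : SA A X u v i i') : TyII A X u v k l i i' := by
  have hkv : k ≠ v := fun e => h.hv (e ▸ hkX)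
  have hlv : l ≠ v := fun e => h.hv (e ▸ hlX)
  have ku : k ≠ u := fun e => g.irr u (by rw [e] at hk; exact hk)
  have lu : l ≠ u := fun e => g.irr u (by rw [e] at hl; exact hl)
  have rk : RR A X u k k := ⟨hkX, ku, Or.inl rfl⟩
  have rl : RR A X u l l := ⟨hlX, lu, Or.inl rfl⟩
  have nd : [u, k, l, i, i'].Nodup := by
    have a1 := h.iu.symm; have a2 := h.iu'.symm; have a3 := ku.symm; have a4 := lu.symm
    have a6 := h.ii
    have b1 := RR.ne g hk hv hkv rk h.rr
    have b2 := RR.ne g hk hv hkv rk h.rr'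
    have b3 := RR.ne g hl hv hlv rl h.rr
    have b4 := RR.ne g hl hv hlv rl h.rr'
    (simp only [List.nodup_cons, List.mem_cons, List.not_mem_nil, not_or, not_false_eq_true,
      List.nodup_nil, and_true, or_false]; repeat' apply And.intro) <;> assumption
  have hex := exh L.card nd huX hkX hlX h.hi h.hi'
  refine ⟨?_, ?_, huX, h.hv, hkX, hlX, h.hi, h.hi', nd, hex⟩
  · intro z
    constructor
    · intro hz
      by_contra hcon
      push Not at hcon
      obtain ⟨n1, n2, n3⟩ := hcon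
      obtain ⟨r, hr⟩ := L.rr g huP huX hz
      rcases hex r hr.1 with e | e | e | e | e
      · exact hr.2.1 e
      · subst e; exact RR.disj g hz hk n2 hr rk
      · subst e; exact RR.disj g hz hl n3 hr rl
      · subst e; exact RR.disj g hz hv n1 hr h.rr
      · subst e; exact RR.disj g hz hv n1 hr h.rr'
    · rintro (rfl | rfl | rfl) <;> assumption
  · intro z
    constructor
    · intro hz
      rcases hex z (h.hall z hz) with e | e | e | e | e
      · exact Or.inl e
      · exfalso; subst e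
        exact RR.disj g hv hk hkv.symm ⟨hkX, ku, Or.inr hz⟩ rk
      · exfalso; subst e
        exact RR.disj g hv hl hlv.symm ⟨hlX, lu, Or.inr hz⟩ rl
      · exact Or.inr (Or.inl e)
      · exact Or.inr (Or.inr e)
    · rintro (rfl | rfl | rfl)
      · exact g.symm _ _ hv
      · exact h.vi
      · exact h.vi'

theorem Loc.eee {P : Finset V} (L : Loc A X P) (g : G5 A) {u a b c : V} (huP : u ∈ P)
    (huX : u ∈ X) (ha : A u a) (haX : a ∈ X) (hb : A u b) (hbX : b ∈ X) (hc : A u c) (hcX : c ∈ X)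
    (hab : a ≠ b) (hac : a ≠ c) (hbc : b ≠ c) : TyI A X u := by
  intro z hz
  by_contra hzX
  have au : u ≠ a := fun e => g.irr u (by rw [← e] at ha; exact ha)
  have bu : u ≠ b := fun e => g.irr u (by rw [← e] at hb; exact hb)
  have cu : u ≠ c := fun e => g.irr u (by rw [← e] at hc; exact hc)
  rcases L.arm g huP huX hz with h | ⟨i, i', h⟩ | ⟨x', q, r, s, h⟩
  · exact hzX h
  · have az : a ≠ z := fun e => hzX (e ▸ haX)
    have bz : b ≠ z := fun e => hzX (e ▸ hbX)
    have cz : c ≠ z := fun e => hzX (e ▸ hcX)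
    have ra : RR A X u a a := ⟨haX, au.symm, Or.inl rfl⟩
    have rb : RR A X u b b := ⟨hbX, bu.symm, Or.inl rfl⟩
    have rc : RR A X u c c := ⟨hcX, cu.symm, Or.inl rfl⟩
    refine six L.card (a := u) (b := a) (c := b) (d := c) (e := i) (f := i') ?_ huX haX hbX hcX
      h.hi h.hi'
    have a1 := h.iu.symm; have a2 := h.iu'.symm
    have a6 := h.ii
    have b1 := RR.ne g ha hz az ra h.rr
    have b2 := RR.ne g ha hz az ra h.rr'
    have b3 := RR.ne g hb hz bz rb h.rr
    have b4 := RR.ne g hb hz bz rb h.rr'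
    have b5 := RR.ne g hc hz cz rc h.rr
    have b6 := RR.ne g hc hz cz rc h.rr'
    (simp only [List.nodup_cons, List.mem_cons, List.not_mem_nil, not_or, not_false_eq_true,
      List.nodup_nil, and_true, or_false]; repeat' apply And.intro) <;> assumption
  · exact h.eed L.card g ha haX hb hbX hab

theorem NoC.part1 (N : NoC A) {P : Finset V} (L : Loc A X P) {u : V} (huP : u ∈ P)
    (huX : u ∈ X) : TyI A X u ∨ ∃ v k l i i', TyII A X u v k l i i' := by
  have g := N.g
  obtain ⟨w1, w2, w3, n12, n23, n13, h1, h2, h3⟩ := L.deg u huP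
  obtain ⟨r1, t1⟩ := L.rr g huP huX h1
  obtain ⟨r2, t2⟩ := L.rr g huP huX h2
  obtain ⟨r3, t3⟩ := L.rr g huP huX h3
  have n21 := n12.symm; have n32 := n23.symm; have n31 := n13.symm
  rcases L.arm g huP huX h1 with a1 | ⟨i1, j1, a1⟩ | ⟨x1, q1, k1, l1, a1⟩ <;>
    rcases L.arm g huP huX h2 with a2 | ⟨i2, j2, a2⟩ | ⟨x2, q2, k2, l2, a2⟩ <;>
    rcases L.arm g huP huX h3 with a3 | ⟨i3, j3, a3⟩ | ⟨x3, q3, k3, l3, a3⟩
  · exact Or.inl (L.eee g huP huX h1 a1 h2 a2 h3 a3 n12 n13 n23)
  · exact Or.inr ⟨_, _, _, _, _, L.ees g huP huX h1 a1 h2 a2 n12 h3 a3⟩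
  · exact (a3.eed L.card g h1 a1 h2 a2 n12).elim
  · exact Or.inr ⟨_, _, _, _, _, L.ees g huP huX h1 a1 h3 a3 n13 h2 a2⟩
  · exact (SA.ss L.card g huX h2 h3 h1 n23 n21 n31 a2 a3 t1).elim
  · exact (SA.esd L.card g h1 a1 h2 a2 a3 n23).elim
  · exact (a2.eed L.card g h1 a1 h3 a3 n13).elim
  · exact (SA.esd L.card g h1 a1 h3 a3 a2 n32).elim
  · exact (N.edd L.card h1 a1 a2 a3 n23).elim
  · exact Or.inr ⟨_, _, _, _, _, L.ees g huP huX h2 a2 h3 a3 n23 h1 a1⟩
  · exact (SA.ss L.card g huX h1 h3 h2 n13 n12 n32 a1 a3 t2).elim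
  · exact (SA.esd L.card g h2 a2 h1 a1 a3 n13).elim
  · exact (SA.ss L.card g huX h1 h2 h3 n12 n13 n23 a1 a2 t3).elim
  · exact (SA.ss L.card g huX h1 h2 h3 n12 n13 n23 a1 a2 t3).elim
  · exact (SA.ss L.card g huX h1 h2 h3 n12 n13 n23 a1 a2 t3).elim
  · exact (SA.esd L.card g h3 a3 h1 a1 a2 n12).elim
  · exact (SA.ss L.card g huX h1 h3 h2 n13 n12 n32 a1 a3 t2).elim
  · exact (N.sdd L.card L huP h1 a1 a2 a3 n12 n13 n23).elim
  · exact (a1.eed L.card g h2 a2 h3 a3 n23).elim
  · exact (SA.esd L.card g h2 a2 h3 a3 a1 n31).elim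
  · exact (N.edd L.card h2 a2 a1 a3 n13).elim
  · exact (SA.esd L.card g h3 a3 h2 a2 a1 n21).elim
  · exact (SA.ss L.card g huX h2 h3 h1 n23 n21 n31 a2 a3 t1).elim
  · exact (N.sdd L.card L huP h2 a2 a1 a3 n21 n23 n13).elim
  · exact (N.edd L.card h3 a3 a1 a2 n12).elim
  · exact (N.sdd L.card L huP h3 a3 a1 a2 n31 n32 n12).elim
  · exact (N.ddd L.card a1 a2 a3 n12 n13 n23).elim

/-- two neighbours of `p` that are no neighbours of `u` -/
theorem two_far (g : G5 A) {p u a b c : V} (hpu : p ≠ u) (hab : a ≠ b) (hbc : b ≠ c)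
    (hac : a ≠ c) (ha : A p a) (hb : A p b) (hc : A p c) :
    ∃ γ δ, γ ≠ δ ∧ A p γ ∧ A p δ ∧ ¬ A u γ ∧ ¬ A u δ := by
  have sq : ∀ {α β}, α ≠ β → A p α → A p β → A u α → A u β → False := fun h1 h2 h3 h4 h5 =>
    g.sq p _ u _ hpu h1 h2 (g.symm _ _ h4) h5 (g.symm _ _ h3)
  by_cases h1 : A u a
  · exact ⟨b, c, hbc, hb, hc, fun h => sq hab ha hb h1 h, fun h => sq hac ha hc h1 h⟩
  · by_cases h2 : A u b
    · exact ⟨a, c, hac, ha, hc, h1, fun h => sq hbc hb hc h2 h⟩
    · exact ⟨a, b, hab, ha, hb, h1, h2⟩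

theorem TyII.t2x (g : G5 A) {u v k l i i' y z : V} (T : TyII A X u v k l i i') (hy : y ∈ X)
    (hyu : y ≠ u) (hz : z ∈ X) (h : A y z) : z = u := by
  have uk : A u k := (T.n1 _).mpr (Or.inr (Or.inl rfl))
  have ul : A u l := (T.n1 _).mpr (Or.inr (Or.inr rfl))
  have uv : A u v := (T.n1 _).mpr (Or.inl rfl)
  have vi : A v i := (T.n2 _).mpr (Or.inr (Or.inl rfl))
  have vi' : A v i' := (T.n2 _).mpr (Or.inr (Or.inr rfl))
  have key : ∀ {α β}, A u α → A v β → α ∈ X → β ≠ u → A α β → False := by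
    intro α β h1 h2 h3 h4 h5
    exact g.sq u α β v h4.symm (fun e => T.hv (e ▸ h3)) h1 h5 (g.symm _ _ h2) (g.symm _ _ uv)
  have tri : ∀ {w α β}, A w α → A w β → A α β → False := fun h1 h2 h3 =>
    g.tri _ _ _ h1 h3 (g.symm _ _ h2)
  have nd := T.nd
  simp only [List.nodup_cons, List.mem_cons, List.not_mem_nil, not_or, not_false_eq_true,
    List.nodup_nil, and_true, or_false] at nd
  obtain ⟨⟨m1, m2, m3, m4⟩, ⟨m5, m6, m7⟩, ⟨m8, m9⟩, m10⟩ := nd
  have h' := g.symm _ _ h
  rcases T.ex z hz with e | e | e | e | e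
  · exact e
  all_goals exfalso; subst e; rcases T.ex y hy with e | e | e | e | e
  all_goals first | exact hyu e | skip
  all_goals subst e
  · exact g.irr _ h
  · exact tri uk ul h'
  · exact key uk vi T.hk (Ne.symm m3) h'
  · exact key uk vi' T.hk (Ne.symm m4) h'
  · exact tri uk ul h
  · exact g.irr _ h
  · exact key ul vi T.hl (Ne.symm m3) h'
  · exact key ul vi' T.hl (Ne.symm m4) h'
  · exact key uk vi T.hk (Ne.symm m3) h
  · exact key ul vi T.hl (Ne.symm m3) h
  · exact g.irr _ h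
  · exact tri vi vi' h'
  · exact key uk vi' T.hk (Ne.symm m4) h
  · exact key ul vi' T.hl (Ne.symm m4) h
  · exact tri vi vi' h
  · exact g.irr _ h

theorem NoC.tyI (N : NoC A) {P : Finset V} (L : Loc A X P) {u p : V} (huP : u ∈ P)
    (huX : u ∈ X) (hu : TyI A X u) (hp : p ∈ P) (hpu : p ≠ u) : False := by
  have g := N.g
  obtain ⟨a, b, c, hab, hbc, hac, ha, hb, hc⟩ := L.deg u huP
  have haX := hu a ha
  have hbX := hu b hb
  have hcX := hu c hc
  have au : u ≠ a := fun e => g.irr u (by rw [← e] at ha; exact ha)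
  have bu : u ≠ b := fun e => g.irr u (by rw [← e] at hb; exact hb)
  have cu : u ≠ c := fun e => g.irr u (by rw [← e] at hc; exact hc)
  have nn : ∀ {α β}, A u α → ¬ A u β → α ≠ β := fun h1 h2 h3 => h2 (h3 ▸ h1)
  -- two further vertices of the bag cannot exist
  have far : ∀ {γ δ}, γ ≠ δ → γ ∈ X → δ ∈ X → ¬ A u γ → ¬ A u δ → u ≠ γ → u ≠ δ → False := by
    intro γ δ h1 h2 h3 h4 h5 h6 h7
    refine six L.card (a := u) (b := a) (c := b) (d := c) (e := γ) (f := δ) ?_ huX haX hbX hcX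
      h2 h3
    have b1 := nn ha h4
    have b2 := nn ha h5
    have b3 := nn hb h4
    have b4 := nn hb h5
    have b5 := nn hc h4
    have b6 := nn hc h5
    (simp only [List.nodup_cons, List.mem_cons, List.not_mem_nil, not_or, not_false_eq_true,
      List.nodup_nil, and_true, or_false]; repeat' apply And.intro) <;> assumption
  by_cases hpX : p ∈ X
  · rcases N.part1 L hp hpX with T | ⟨v, k, l, i, i', T⟩
    · obtain ⟨a2, b2, c2, hab2, hbc2, hac2, ha2, hb2, hc2⟩ := L.deg p hp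
      obtain ⟨γ, δ, d1, d2, d3, d4, d5⟩ := two_far g hpu hab2 hbc2 hac2 ha2 hb2 hc2
      by_cases hup : A u p
      · -- one of the far vertices is `u` itself perhaps
        have tri : ∀ {α}, A p α → ¬ A u α := fun h1 h2 => g.tri _ _ _ hup h1 (g.symm _ _ h2)
        have ex2 : ∃ α β, α ≠ β ∧ A p α ∧ A p β ∧ u ≠ α ∧ u ≠ β := by
          by_cases e1 : u = a2
          · exact ⟨b2, c2, hbc2, hb2, hc2, fun e => hab2 (e1.symm.trans e),
              fun e => hac2 (e1.symm.trans e)⟩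
          · by_cases e2 : u = b2
            · exact ⟨a2, c2, hac2, ha2, hc2, e1, fun e => hbc2 (e2.symm.trans e)⟩
            · exact ⟨a2, b2, hab2, ha2, hb2, e1, e2⟩
        obtain ⟨α, β, f1, f2, f3, f4, f5⟩ := ex2
        exact far f1 (T _ f2) (T _ f3) (tri f2) (tri f3) f4 f5
      · exact far (γ := p) (δ := γ) (fun e => g.irr p (by rw [← e] at d2; exact d2)) hpX (T _ d2)
          hup d4 hpu.symm (fun e => hup (by rw [← e] at d2; exact g.symm _ _ d2))
    · have e1 := T.t2x g huX hpu.symm haX ha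
      have e2 := T.t2x g huX hpu.symm hbX hb
      exact hab (e1.trans e2.symm)
  · have hup : ¬ A u p := fun h => hpX (hu p h)
    rcases L.q p hp hpX with hs | ⟨x', p1, q1, r1, s1, h1, h2, h3, h4, h5, h6, h7, h8⟩
    · obtain ⟨a2, b2, c2, hab2, hbc2, hac2, ha2, hb2, hc2⟩ := L.deg p hp
      obtain ⟨γ, δ, d1, d2, d3, d4, d5⟩ := two_far g hpu hab2 hbc2 hac2 ha2 hb2 hc2
      exact far d1 (hs _ d2) (hs _ d3) d4 d5
        (fun e => hup (by rw [← e] at d2; exact g.symm _ _ d2))
        (fun e => hup (by rw [← e] at d3; exact g.symm _ _ d3))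
    · have hux' : ¬ A u x' := fun h => h3 (hu _ h)
      have e1 : u ≠ p1 := fun e => hup (by
        have := (h1 p1).mpr (Or.inr (Or.inl rfl)); rw [← e] at this; exact g.symm _ _ this)
      have e2 : u ≠ q1 := fun e => hup (by
        have := (h1 q1).mpr (Or.inr (Or.inr rfl)); rw [← e] at this; exact g.symm _ _ this)
      have e3 : u ≠ r1 := fun e => hux' (by
        have := (h2 r1).mpr (Or.inr (Or.inl rfl)); rw [← e] at this; exact g.symm _ _ this)
      have e4 : u ≠ s1 := fun e => hux' (by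
        have := (h2 s1).mpr (Or.inr (Or.inr rfl)); rw [← e] at this; exact g.symm _ _ this)
      simp only [List.nodup_cons, List.mem_cons, List.not_mem_nil, not_or, not_false_eq_true,
        List.nodup_nil, and_true, or_false] at h8
      obtain ⟨⟨a1, a2, a3⟩, ⟨a4, a5⟩, a6⟩ := h8
      have hex := exh L.card (a := u) (b := p1) (c := q1) (d := r1) (e := s1) (by
        (simp only [List.nodup_cons, List.mem_cons, List.not_mem_nil, not_or, not_false_eq_true,
          List.nodup_nil, and_true, or_false]; repeat' apply And.intro) <;> assumption) huX h4 h5 h6 h7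
      have cl : ∀ z ∈ X, u ≠ z → A p z ∨ A x' z := by
        intro z hz hzu
        rcases hex z hz with e | e | e | e | e
        · exact absurd e.symm hzu
        · left; exact (h1 z).mpr (Or.inr (Or.inl e))
        · left; exact (h1 z).mpr (Or.inr (Or.inr e))
        · right; exact (h2 z).mpr (Or.inr (Or.inl e))
        · right; exact (h2 z).mpr (Or.inr (Or.inr e))
      have sq : ∀ {w α β}, w ≠ u → α ≠ β → A u α → A u β → A w α → A w β → False :=
        fun h0 h1 h2 h3 h4 h5 => g.sq u _ _ _ h0.symm h1 h2 (g.symm _ _ h4) h5 (g.symm _ _ h3)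
      have hx'u : x' ≠ u := fun e => h3 (e ▸ huX)
      rcases cl a haX au with q1 | q1 <;> rcases cl b hbX bu with q2 | q2 <;>
        rcases cl c hcX cu with q3 | q3
      · exact sq hpu hab ha hb q1 q2
      · exact sq hpu hab ha hb q1 q2
      · exact sq hpu hac ha hc q1 q3
      · exact sq hx'u hbc hb hc q2 q3
      · exact sq hpu hbc hb hc q2 q3
      · exact sq hx'u hac ha hc q1 q3
      · exact sq hx'u hab ha hb q1 q2
      · exact sq hx'u hab ha hb q1 q2

theorem NoC.tyII (N : NoC A) {P : Finset V} (L : Loc A X P) {u v k l i i' p : V} (huP : u ∈ P)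
    (T : TyII A X u v k l i i') (hp : p ∈ P) (hpu : p ≠ u) (hpv : p ≠ v) : False := by
  have g := N.g
  have uk : A u k := (T.n1 _).mpr (Or.inr (Or.inl rfl))
  have ul : A u l := (T.n1 _).mpr (Or.inr (Or.inr rfl))
  have uv : A u v := (T.n1 _).mpr (Or.inl rfl)
  have vi : A v i := (T.n2 _).mpr (Or.inr (Or.inl rfl))
  have vi' : A v i' := (T.n2 _).mpr (Or.inr (Or.inr rfl))
  by_cases hpX : p ∈ X
  · rcases N.part1 L hp hpX with T2 | ⟨v2, k2, l2, i2, i2', T2⟩
    · exact N.tyI L hp hpX T2 huP hpu.symm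
    · have e1 := T.t2x g hpX hpu T2.hk ((T2.n1 _).mpr (Or.inr (Or.inl rfl)))
      have e2 := T.t2x g hpX hpu T2.hl ((T2.n1 _).mpr (Or.inr (Or.inr rfl)))
      have nd := T2.nd
      rw [e1, e2] at nd
      simp at nd
  · have hup : ¬ A u p := by
      intro h
      rcases (T.n1 p).mp h with e | e | e
      · exact hpv e
      · exact hpX (e ▸ T.hk)
      · exact hpX (e ▸ T.hl)
    have hvp : ¬ A v p := by
      intro h
      rcases (T.n2 p).mp h with e | e | e
      · exact hpX (e ▸ T.hu)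
      · exact hpX (e ▸ T.hi)
      · exact hpX (e ▸ T.hi')
    have cl : ∀ z ∈ X, z ≠ u → A u z ∨ A v z := by
      intro z hz hzu
      rcases T.ex z hz with e | e | e | e | e
      · exact absurd e hzu
      · left; exact (T.n1 z).mpr (Or.inr (Or.inl e))
      · left; exact (T.n1 z).mpr (Or.inr (Or.inr e))
      · right; exact (T.n2 z).mpr (Or.inr (Or.inl e))
      · right; exact (T.n2 z).mpr (Or.inr (Or.inr e))
    have sq : ∀ {w w' α β}, w ≠ w' → α ≠ β → A w' α → A w' β → A w α → A w β → False :=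
      fun h0 h1 h2 h3 h4 h5 => g.sq _ _ _ _ h0.symm h1 h2 (g.symm _ _ h4) h5 (g.symm _ _ h3)
    have nd := T.nd
    simp only [List.nodup_cons, List.mem_cons, List.not_mem_nil, not_or, not_false_eq_true,
      List.nodup_nil, and_true, or_false] at nd
    obtain ⟨⟨m1, m2, m3, m4⟩, ⟨m5, m6, m7⟩, ⟨m8, m9⟩, m10⟩ := nd
    rcases L.q p hp hpX with hs | ⟨x', p1, q1, r1, s1, h1, h2, h3, h4, h5, h6, h7, h8⟩
    · obtain ⟨a2, b2, c2, hab2, hbc2, hac2, ha2, hb2, hc2⟩ := L.deg p hp
      have nu : ∀ {z}, A p z → z ≠ u := fun h e => hup (by rw [e] at h; exact g.symm _ _ h)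
      rcases cl a2 (hs _ ha2) (nu ha2) with q1 | q1 <;>
        rcases cl b2 (hs _ hb2) (nu hb2) with q2 | q2 <;>
        rcases cl c2 (hs _ hc2) (nu hc2) with q3 | q3
      · exact sq hpu hab2 q1 q2 ha2 hb2
      · exact sq hpu hab2 q1 q2 ha2 hb2
      · exact sq hpu hac2 q1 q3 ha2 hc2
      · exact sq hpv hbc2 q2 q3 hb2 hc2
      · exact sq hpu hbc2 q2 q3 hb2 hc2
      · exact sq hpv hac2 q1 q3 ha2 hc2
      · exact sq hpv hab2 q1 q2 ha2 hb2
      · exact sq hpv hab2 q1 q2 ha2 hb2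
    · have px' : A p x' := (h1 _).mpr (Or.inl rfl)
      have hx'u : ¬ A u x' := by
        intro h
        rcases (T.n1 x').mp h with e | e | e
        · exact hvp (by rw [e] at px'; exact g.symm _ _ px')
        · exact h3 (e ▸ T.hk)
        · exact h3 (e ▸ T.hl)
      have x'u : x' ≠ u := fun e => h3 (e ▸ T.hu)
      have x'v : x' ≠ v := fun e => hvp (by rw [e] at px'; exact g.symm _ _ px')
      simp only [List.nodup_cons, List.mem_cons, List.not_mem_nil, not_or, not_false_eq_true,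
        List.nodup_nil, and_true, or_false] at h8
      obtain ⟨⟨a1, a2, a3⟩, ⟨a4, a5⟩, a6⟩ := h8
      have nup : ∀ {z}, A p z → z ≠ u := fun h e => hup (by rw [e] at h; exact g.symm _ _ h)
      have nux : ∀ {z}, A x' z → z ≠ u := fun h e => hx'u (by rw [e] at h; exact g.symm _ _ h)
      have ip1 : A p p1 := (h1 _).mpr (Or.inr (Or.inl rfl))
      have iq1 : A p q1 := (h1 _).mpr (Or.inr (Or.inr rfl))
      have ir1 : A x' r1 := (h2 _).mpr (Or.inr (Or.inl rfl))
      have is1 : A x' s1 := (h2 _).mpr (Or.inr (Or.inr rfl))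
      -- the final configuration
      have fin : ∀ {k l i i'}, N3 A u v k l → N3 A v u i i' → k ∈ X → l ∈ X → i ∈ X → i' ∈ X →
          k ≠ l → k ≠ i → k ≠ i' → l ≠ i → l ≠ i' → i ≠ i' → u ≠ k → u ≠ l → u ≠ i → u ≠ i' →
          N3 A p x' k i → N3 A x' p l i' → False := by
        intro k l i i' f1 f2 f3 f4 f5 f6 g1 g2 g3 g4 g5 g6 g7 g8 g9 g10 g11 g12
        refine N.h23 u v k l i i' p x' ?_ ⟨f1, f2⟩ ⟨g11, g12⟩
        have i1 : ∀ z z', z ∉ X → z' ∈ X → z ≠ z' := fun z z' h1 h2 h3 => h1 (h3 ▸ h2)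
        have i2 : ∀ z z', z ∉ X → z' ∈ X → z' ≠ z := fun z z' h1 h2 h3 => h1 (h3 ▸ h2)
        have b1 := T.hu; have b2 := T.hv
        have b3 : u ≠ v := fun e => b2 (e ▸ b1)
        have b4 : p ≠ x' := fun e => g.irr p (by rw [← e] at px'; exact px')
        have b5 := hpu.symm; have b6 := hpv.symm; have b7 := x'u.symm; have b8 := x'v.symm
        (simp only [List.nodup_cons, List.mem_cons, List.not_mem_nil, not_or, not_false_eq_true,
          List.nodup_nil, and_true, or_false]; repeat' apply And.intro) <;> first | assumption | exact i1 _ _ (by assumption) (by assumption) |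
          exact i2 _ _ (by assumption) (by assumption)
      have lu : ∀ {z}, z ∈ X → A u z → z = k ∨ z = l := by
        intro z hz h
        rcases (T.n1 z).mp h with e | e | e
        · exact absurd (e ▸ hz) T.hv
        · exact Or.inl e
        · exact Or.inr e
      have lv : ∀ {z}, z ∈ X → z ≠ u → A v z → z = i ∨ z = i' := by
        intro z hz hzu h
        rcases (T.n2 z).mp h with e | e | e
        · exact absurd e hzu
        · exact Or.inl e
        · exact Or.inr e
      have last : ∀ {p1 q1 r1 s1}, N3 A p x' p1 q1 → N3 A x' p r1 s1 → p1 ∈ X → q1 ∈ X → r1 ∈ X →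
          s1 ∈ X → p1 ≠ r1 → q1 ≠ s1 → A u p1 → A v q1 → A u r1 → A v s1 → False := by
        intro p1 q1 r1 s1 f1 f2 f3 f4 f5 f6 f7 f8 g1 g2 g3 g4
        have ip1 : A p p1 := (f1 _).mpr (Or.inr (Or.inl rfl))
        have iq1 : A p q1 := (f1 _).mpr (Or.inr (Or.inr rfl))
        have ir1 : A x' r1 := (f2 _).mpr (Or.inr (Or.inl rfl))
        have is1 : A x' s1 := (f2 _).mpr (Or.inr (Or.inr rfl))
        have c1 := T.hk; have c2 := T.hl; have c3 := T.hi; have c4 := T.hi'
        have m1' := Ne.symm m1; have m2' := Ne.symm m2; have m3' := Ne.symm m3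
        have m4' := Ne.symm m4; have m5' := Ne.symm m5; have m6' := Ne.symm m6
        have m7' := Ne.symm m7; have m8' := Ne.symm m8; have m9' := Ne.symm m9
        have m10' := Ne.symm m10
        rcases lu f3 g1 with e1 | e1 <;> rcases lu f5 g3 with e2 | e2 <;>
          rcases lv f4 (nup iq1) g2 with e3 | e3 <;> rcases lv f6 (nux is1) g4 with e4 | e4
        all_goals first | exact f7 (e1.trans e2.symm) | exact f8 (e3.trans e4.symm) | skip
        all_goals subst e1 e2 e3 e4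
        · exact fin T.n1 T.n2 c1 c2 c3 c4 m5 m6 m7 m8 m9 m10 m1 m2 m3 m4 f1 f2
        · exact fin T.n1 T.n2.swap c1 c2 c4 c3 m5 m7 m6 m9 m8 m10' m1 m2 m4 m3 f1 f2
        · exact fin T.n1.swap T.n2 c2 c1 c3 c4 m5' m8 m9 m6 m7 m10 m2 m1 m3 m4 f1 f2
        · exact fin T.n1.swap T.n2.swap c2 c1 c4 c3 m5' m9 m8 m7 m6 m10' m2 m1 m4 m3 f1 f2
      rcases cl p1 h4 (nup ip1) with q1' | q1' <;> rcases cl q1 h5 (nup iq1) with q2 | q2 <;>
        rcases cl r1 h6 (nux ir1) with q3 | q3 <;> rcases cl s1 h7 (nux is1) with q4 | q4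
      all_goals first
        | exact sq hpu a1 q1' q2 ip1 iq1
        | exact sq hpv a1 q1' q2 ip1 iq1
        | exact sq x'u a6 q3 q4 ir1 is1
        | exact sq x'v a6 q3 q4 ir1 is1
        | skip
      · exact last h1 h2 h4 h5 h6 h7 a2 a5 q1' q2 q3 q4
      · exact last h1 h2.swap h4 h5 h7 h6 a3 a4 q1' q2 q4 q3
      · exact last h1.swap h2 h5 h4 h6 h7 a4 a3 q2 q1' q3 q4
      · exact last h1.swap h2.swap h5 h4 h7 h6 a5 a2 q2 q1' q4 q3

/-- Lemma B -/
theorem NoC.lemB (N : NoC A) {P : Finset V} (L : Loc A X P) (hne : ∃ u ∈ P, u ∈ X)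
    (h3 : 3 ≤ P.card) : False := by
  obtain ⟨u, hu, huX⟩ := hne
  have ex : ∀ v, ∃ p ∈ P, p ≠ u ∧ p ≠ v := by
    intro v
    by_contra hcon
    push Not at hcon
    have h1 : P ⊆ {u, v} := by
      intro p hp
      simp only [mem_insert, mem_singleton]
      by_cases h : p = u
      · exact Or.inl h
      · exact Or.inr (hcon p hp h)
    have h2 := card_le_card h1
    have h4 := card_le_two (a := u) (b := v)
    omega
  rcases N.part1 L hu huX with T | ⟨v, k, l, i, i', T⟩
  · obtain ⟨p, hp, h1, _⟩ := ex u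
    exact N.tyI L hu huX T hp h1
  · obtain ⟨p, hp, h1, h2⟩ := ex v
    exact N.tyII L hu T hp h1 h2

end Pool.Agent.TH499.TF
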