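import Pool.Agent.H79.LF.TH497_PW_Mask

set_option autoImplicit false

/-! # Boundary vectors and vertex sets of a part of a graph -/

namespace Pool.Agent.TH497.PW

open Finset

variable {V E : Type} [Fintype V] [DecidableEq V] [Fintype E] [DecidableEq E]

/-- incidence -/
def ic (src dst : E → V) (e : E) (x : V) : ZMod 5 :=
  (if src e = x then 1 else 0) - (if dst e = x then 1 else 0)

/-- `z` is the divergence of a nowhere-zero function on `F` -/
def Ext (src dst : E → V) (F : Finset E) (z : V → ZMod 5) : Prop :=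
  ∃ f : E → ZMod 5, (∀ e ∈ F, f e ≠ 0) ∧ ∀ x, ∑ e ∈ F, f e * ic src dst e x = z x

omit [Fintype V] [Fintype E] in
theorem Ext.insert {src dst : E → V} {F : Finset E} {z z' : V → ZMod 5} {e : E} (he : e ∉ F)
    (h : Ext src dst F z) (t : ZMod 5) (ht : t ≠ 0) (hz : ∀ x, z' x = z x + t * ic src dst e x) :
    Ext src dst (Insert.insert e F) z' := by
  obtain ⟨f, h1, h2⟩ := h
  refine ⟨Function.update f e t, ?_, ?_⟩
  · intro e' he'
    rw [mem_insert] at he'
    by_cases h3 : e' = e
    · subst h3; simpa using ht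
    · rw [Function.update_of_ne h3]
      exact h1 e' (he'.resolve_left h3)
  · intro x
    rw [sum_insert he, Function.update_self, hz, ← h2 x, add_comm]
    congr 1
    refine sum_congr rfl fun e' he' => ?_
    rw [Function.update_of_ne (by rintro rfl; exact he he')]

omit [Fintype E] [DecidableEq E] in
theorem Ext.sum {src dst : E → V} {F : Finset E} {z : V → ZMod 5} (h : Ext src dst F z) :
    ∑ x, z x = 0 := by
  obtain ⟨f, _, h2⟩ := h
  rw [← sum_congr rfl fun x _ => h2 x, sum_comm]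
  refine sum_eq_zero fun e _ => ?_
  rw [← mul_sum]
  unfold ic
  rw [sum_sub_distrib]
  simp

omit [Fintype V] [Fintype E] [DecidableEq E] in
theorem Ext.congr {src dst : E → V} {F : Finset E} {z z' : V → ZMod 5} (h : Ext src dst F z)
    (hz : ∀ x, z' x = z x) : Ext src dst F z' := by
  have : z' = z := funext hz
  rw [this]; exact h

/-- the vector on the boundary with code `c` -/
def push (k : ℕ) (β : ℕ → V) (c : ℕ) (x : V) : ZMod 5 :=
  ∑ i ∈ range k, if β i = x then ((dg 5 c i : ℕ) : ZMod 5) else 0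

omit [Fintype V] in
theorem push_congr {k : ℕ} {β β' : ℕ → V} {c c' : ℕ} (h : ∀ i, i < k → dg 5 c i = dg 5 c' i)
    (h' : ∀ i, i < k → dg 5 c' i ≠ 0 → β i = β' i) (x : V) : push k β c x = push k β' c' x := by
  refine sum_congr rfl fun i hi => ?_
  rw [h i (mem_range.mp hi)]
  by_cases h0 : dg 5 c' i = 0
  · rw [h0]; simp
  · rw [h' i (mem_range.mp hi) h0]

omit [Fintype V] in
theorem push_add {k : ℕ} (β : ℕ → V) {c p a : ℕ} (hp : p < k) (h : dg 5 c p = 0) (ha : a < 5)
    (x : V) : push k β (c + a * 5 ^ p) x = push k β c x + if β p = x then (a : ZMod 5) else 0 := by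
  have h1 : ∀ i ∈ range k, (if β i = x then ((dg 5 (c + a * 5 ^ p) i : ℕ) : ZMod 5) else 0)
      = (if β i = x then ((dg 5 c i : ℕ) : ZMod 5) else 0)
        + (if p = i then (if β p = x then (a : ZMod 5) else 0) else 0) := by
    intro i _
    rw [dg_add (by norm_num) h ha]
    by_cases hi : i = p
    · subst hi
      rw [if_pos rfl, if_pos rfl, h]
      by_cases hx : β i = x <;> simp [hx]
    · rw [if_neg hi, if_neg (show ¬ p = i from fun h => hi h.symm), add_zero]
  unfold push
  rw [sum_congr rfl h1, sum_add_distrib, sum_ite_eq, if_pos (mem_range.mpr hp)]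

theorem dsm_add {k c p a : ℕ} (hp : p < k) (h : dg 5 c p = 0) (ha : a < 5) :
    dsm 5 k (c + a * 5 ^ p) = dsm 5 k c + a := by
  have h1 : ∀ i ∈ range k, dg 5 (c + a * 5 ^ p) i = dg 5 c i + (if p = i then a else 0) := by
    intro i _
    rw [dg_add (by norm_num) h ha]
    by_cases hi : i = p
    · subst hi
      rw [if_pos rfl, if_pos rfl, h, zero_add]
    · rw [if_neg hi, if_neg (show ¬ p = i from fun h => hi h.symm), add_zero]
  unfold dsm
  rw [sum_congr rfl h1, sum_add_distrib, sum_ite_eq, if_pos (mem_range.mpr hp)]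

theorem dsm_ext {k n c : ℕ} (hk : k ≤ n) (hc : c < 5 ^ k) : dsm 5 n c = dsm 5 k c := by
  unfold dsm
  symm
  apply sum_subset (range_mono hk)
  intro i _ hi
  rw [mem_range, not_lt] at hi
  exact (lt_pow_iff (by norm_num) c k).mp hc i hi

theorem sum_push {k : ℕ} (β : ℕ → V) (c : ℕ) : ∑ x, push k β c x = ((dsm 5 k c : ℕ) : ZMod 5) := by
  unfold push dsm
  rw [sum_comm, Nat.cast_sum]
  refine sum_congr rfl fun i _ => ?_
  simp

/-- all vectors with code in `S` are divergences -/
def Fl (src dst : E → V) (F : Finset E) (k : ℕ) (β : ℕ → V) (S : ℕ) : Prop :=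
  ∀ c, c < 5 ^ k → S.testBit c = true → Ext src dst F (push k β c)

/-- the same with a further vertex `v` receiving minus the sum -/
def FlO (src dst : E → V) (F : Finset E) (k : ℕ) (β : ℕ → V) (v : V) (T : ℕ) : Prop :=
  ∀ c, c < 5 ^ k → T.testBit c = true →
    Ext src dst F (fun x => push k β c x - if v = x then ((dsm 5 k c : ℕ) : ZMod 5) else 0)

omit [Fintype E] [DecidableEq E] in
theorem Fl.open {src dst : E → V} {F : Finset E} {k : ℕ} {β : ℕ → V} {S : ℕ}
    (h : Fl src dst F k β S) (v : V) : FlO src dst F k β v S := by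
  intro c hc hS
  have h1 := h c hc hS
  have h2 := h1.sum
  rw [sum_push] at h2
  refine h1.congr fun x => ?_
  rw [h2]
  simp

theorem dg_add_lt {k c p a : ℕ} (hp : p < k) (h : dg 5 c p = 0) (ha : a < 5) :
    c + a * 5 ^ p < 5 ^ k ↔ c < 5 ^ k := by
  rw [lt_pow_iff (by norm_num), lt_pow_iff (by norm_num)]
  refine forall_congr' fun i => forall_congr' fun hi => ?_
  rw [dg_add (by norm_num) h ha, if_neg (by omega)]

theorem dg_sub {c p a : ℕ} (ha : a < 5) (h : dg 5 (c + a * 5 ^ p) p = a) : dg 5 c p = 0 := by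
  unfold dg at *
  rw [Nat.add_mul_div_right _ _ (by positivity)] at h
  omega

theorem conv_mem {n : ℕ} {r : PosR} (hr : r.OK n) {T c : ℕ}
    (h : (conv r T).testBit c = true) :
    ∃ a b c0, a < 5 ∧ b < 5 ∧ a ≠ b ∧ c = c0 + b * 5 ^ r.p ∧ dg 5 c0 r.p = 0 ∧
      T.testBit (c0 + a * 5 ^ r.p) = true := by
  have key : ∀ (a da : ℕ), a < 5 → (∀ c, da.testBit c = true → dg 5 c r.p = a) → ∀ c0,
      (T.testBit (a * r.w + c0) = true ∧ da.testBit (a * r.w + c0) = true) →
      dg 5 c0 r.p = 0 ∧ T.testBit (c0 + a * 5 ^ r.p) = true := by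
    intro a da ha hda c0 ⟨h1, h2⟩
    rw [hr.w, add_comm] at h1 h2
    exact ⟨dg_sub ha (hda _ h2), h1⟩
  have k0 : ∀ c0, (T.testBit c0 = true ∧ r.d0.testBit c0 = true) →
      dg 5 c0 r.p = 0 ∧ T.testBit (c0 + 0 * 5 ^ r.p) = true := by
    intro c0 h1
    have := key 0 r.d0 (by norm_num) hr.d0 c0 (by simpa using h1)
    exact this
  have k1 : ∀ c0, (T.testBit (r.w + c0) = true ∧ r.d1.testBit (r.w + c0) = true) →
      dg 5 c0 r.p = 0 ∧ T.testBit (c0 + 1 * 5 ^ r.p) = true := by
    intro c0 h1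
    exact key 1 r.d1 (by norm_num) hr.d1 c0 (by simpa using h1)
  have k2 := key 2 r.d2 (by norm_num) hr.d2
  have k3 := key 3 r.d3 (by norm_num) hr.d3
  have k4 := key 4 r.d4 (by norm_num) hr.d4
  have fin : ∀ (b a : ℕ), a < 5 → b < 5 → a ≠ b → b * r.w ≤ c →
      (dg 5 (c - b * r.w) r.p = 0 ∧ T.testBit ((c - b * r.w) + a * 5 ^ r.p) = true) →
      ∃ a b c0, a < 5 ∧ b < 5 ∧ a ≠ b ∧ c = c0 + b * 5 ^ r.p ∧ dg 5 c0 r.p = 0 ∧
      T.testBit (c0 + a * 5 ^ r.p) = true := by
    intro b a ha hb hab hle h1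
    refine ⟨a, b, c - b * r.w, ha, hb, hab, ?_, h1.1, h1.2⟩
    rw [← hr.w]; omega
  have e2 : Nat.mul 2 r.w = 2 * r.w := rfl
  have e3 : Nat.mul 3 r.w = 3 * r.w := rfl
  have e4 : Nat.mul 4 r.w = 4 * r.w := rfl
  simp only [conv, fz_eq, tb_lor, tb_shl, tb_shr, tb_land, Bool.or_eq_true, Bool.and_eq_true,
    decide_eq_true_eq, e2, e3, e4] at h
  rcases h with ((((h | h) | (h | h)) | ⟨hl, ((h | h) | (h | h))⟩)) |
    (⟨hl, ((h | h) | (h | h))⟩ | (⟨hl, ((h | h) | (h | h))⟩ | ⟨hl, ((h | h) | (h | h))⟩))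
  · exact fin 0 1 (by norm_num) (by norm_num) (by norm_num) (by omega) (by simpa using k1 _ h)
  · exact fin 0 2 (by norm_num) (by norm_num) (by norm_num) (by omega) (by simpa using k2 _ h)
  · exact fin 0 3 (by norm_num) (by norm_num) (by norm_num) (by omega) (by simpa using k3 _ h)
  · exact fin 0 4 (by norm_num) (by norm_num) (by norm_num) (by omega) (by simpa using k4 _ h)
  · exact fin 1 0 (by norm_num) (by norm_num) (by norm_num) (by omega) (by simpa using k0 _ h)
  · exact fin 1 2 (by norm_num) (by norm_num) (by norm_num) (by omega) (by simpa using k2 _ h)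
  · exact fin 1 3 (by norm_num) (by norm_num) (by norm_num) (by omega) (by simpa using k3 _ h)
  · exact fin 1 4 (by norm_num) (by norm_num) (by norm_num) (by omega) (by simpa using k4 _ h)
  · exact fin 2 0 (by norm_num) (by norm_num) (by norm_num) (by omega) (by simpa using k0 _ h)
  · exact fin 2 1 (by norm_num) (by norm_num) (by norm_num) (by omega) (by simpa using k1 _ h)
  · exact fin 2 3 (by norm_num) (by norm_num) (by norm_num) (by omega) (by simpa using k3 _ h)
  · exact fin 2 4 (by norm_num) (by norm_num) (by norm_num) (by omega) (by simpa using k4 _ h)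
  · exact fin 3 0 (by norm_num) (by norm_num) (by norm_num) (by omega) (by simpa using k0 _ h)
  · exact fin 3 1 (by norm_num) (by norm_num) (by norm_num) (by omega) (by simpa using k1 _ h)
  · exact fin 3 2 (by norm_num) (by norm_num) (by norm_num) (by omega) (by simpa using k2 _ h)
  · exact fin 3 4 (by norm_num) (by norm_num) (by norm_num) (by omega) (by simpa using k4 _ h)
  · exact fin 4 0 (by norm_num) (by norm_num) (by norm_num) (by omega) (by simpa using k0 _ h)
  · exact fin 4 1 (by norm_num) (by norm_num) (by norm_num) (by omega) (by simpa using k1 _ h)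
  · exact fin 4 2 (by norm_num) (by norm_num) (by norm_num) (by omega) (by simpa using k2 _ h)
  · exact fin 4 3 (by norm_num) (by norm_num) (by norm_num) (by omega) (by simpa using k3 _ h)

/-- `e` joins `x` and `y` -/
def Joins (src dst : E → V) (e : E) (x y : V) : Prop :=
  (src e = x ∧ dst e = y) ∨ (src e = y ∧ dst e = x)

omit [Fintype V] [Fintype E] in
theorem FlO.conv {src dst : E → V} {F : Finset E} {k : ℕ} {β : ℕ → V} {v : V} {T n : ℕ}
    (h : FlO src dst F k β v T) {r : PosR} (hr : r.OK n) (hp : r.p < k) {e : E} (he : e ∉ F)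
    (hj : Joins src dst e v (β r.p)) :
    FlO src dst (Insert.insert e F) k β v (conv r T) := by
  intro c hc hT
  obtain ⟨a, b, c0, ha, hb, hab, rfl, h0, h1⟩ := conv_mem hr hT
  have hc0 : c0 < 5 ^ k := (dg_add_lt hp h0 hb).mp hc
  have h2 := h _ ((dg_add_lt hp h0 ha).mpr hc0) h1
  have hne : (b : ZMod 5) - a ≠ 0 := by
    intro h3
    apply hab
    have h4 : ((b : ℕ) : ZMod 5) = ((a : ℕ) : ZMod 5) := sub_eq_zero.mp h3
    rw [ZMod.natCast_eq_natCast_iff', Nat.mod_eq_of_lt hb, Nat.mod_eq_of_lt ha] at h4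
    exact h4.symm
  have main : ∀ x, (push k β (c0 + b * 5 ^ r.p) x
        - if v = x then ((dsm 5 k (c0 + b * 5 ^ r.p) : ℕ) : ZMod 5) else 0)
      = (push k β (c0 + a * 5 ^ r.p) x
        - if v = x then ((dsm 5 k (c0 + a * 5 ^ r.p) : ℕ) : ZMod 5) else 0)
        + ((b : ZMod 5) - a) * ((if β r.p = x then 1 else 0) - (if v = x then 1 else 0)) := by
    intro x
    rw [push_add β hp h0 hb, push_add β hp h0 ha, dsm_add hp h0 hb, dsm_add hp h0 ha]
    push_cast
    by_cases hx : β r.p = x <;> by_cases hv : v = x <;> simp [hx, hv] <;> ring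
  rcases hj with ⟨h3, h4⟩ | ⟨h3, h4⟩
  · refine h2.insert he ((a : ZMod 5) - b) (fun h5 => hne ?_) fun x => ?_
    · rw [← neg_sub, h5, neg_zero]
    · rw [main x]
      unfold ic
      rw [h3, h4]
      ring
  · refine h2.insert he ((b : ZMod 5) - a) hne fun x => ?_
    rw [main x]
    unfold ic
    rw [h3, h4]

theorem fill_mem {n : ℕ} {Ev : Env} {dflt : SwR} (hE : Ev.OK n dflt) {w T c : ℕ}
    (h : (fill Ev w T).testBit c = true) :
    ∃ a c0, a < 5 ∧ c = c0 + a * w ∧ T.testBit c0 = true ∧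
      ((a : ZMod 5) + ((dsm 5 n c0 : ℕ) : ZMod 5) = 0) := by
  have e2 : Nat.mul 2 w = 2 * w := rfl
  have e3 : Nat.mul 3 w = 3 * w := rfl
  have e4 : Nat.mul 4 w = 4 * w := rfl
  simp only [fill, tb_lor, tb_shl, tb_land, Bool.or_eq_true, Bool.and_eq_true,
    decide_eq_true_eq, e2, e3, e4] at h
  rcases h with (⟨h1, h2⟩ | ⟨hl, h1, h2⟩) | (⟨hl, h1, h2⟩ | (⟨hl, h1, h2⟩ | ⟨hl, h1, h2⟩))
  · exact ⟨0, c, by norm_num, by simp, h1, by rw [hE.s0 _ h2]; simp⟩
  · exact ⟨4, c - 4 * w, by norm_num, by omega, h1, by rw [hE.s1 _ h2]; decide⟩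
  · exact ⟨3, c - 3 * w, by norm_num, by omega, h1, by rw [hE.s2 _ h2]; decide⟩
  · exact ⟨2, c - 2 * w, by norm_num, by omega, h1, by rw [hE.s3 _ h2]; decide⟩
  · exact ⟨1, c - w, by norm_num, by omega, h1, by rw [hE.s4 _ h2]; decide⟩

omit [Fintype V] [Fintype E] [DecidableEq E] in
/-- the current vertex takes the position `r` -/
theorem FlO.fillU {src dst : E → V} {F : Finset E} {k : ℕ} {β : ℕ → V} {v : V} {T n : ℕ}
    {Ev : Env} {dflt : SwR} (hE : Ev.OK n dflt) (hk : k ≤ n)
    (h : FlO src dst F k β v T) {r : PosR} (hr : r.OK n) (hp : r.p < k) :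
    Fl src dst F k (Function.update β r.p v) (fill Ev r.w (Nat.land T r.d0)) := by
  intro c hc hT
  obtain ⟨a, c0, ha, hce, h1, h2⟩ := fill_mem hE hT
  rw [hr.w] at hce
  rw [tb_land, Bool.and_eq_true] at h1
  have h0 := hr.d0 _ h1.2
  have hc0 : c0 < 5 ^ k := by omega
  have h3 := h c0 hc0 h1.1
  rw [dsm_ext hk hc0] at h2
  refine h3.congr fun x => ?_
  rw [hce, push_add _ hp h0 ha, Function.update_self]
  have h4 : push k (Function.update β r.p v) c0 x = push k β c0 x := by
    refine push_congr (fun _ _ => rfl) (fun i _ hi => ?_) x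
    rw [Function.update_of_ne]
    rintro rfl
    exact hi h0
  rw [h4, sub_eq_add_neg]
  congr 1
  by_cases hv : v = x
  · rw [if_pos hv, if_pos hv]
    exact eq_neg_of_add_eq_zero_left h2
  · rw [if_neg hv, if_neg hv, neg_zero]

omit [Fintype V] [Fintype E] [DecidableEq E] in
/-- the current vertex becomes a new boundary vertex -/
theorem FlO.keep {src dst : E → V} {F : Finset E} {k : ℕ} {β : ℕ → V} {v : V} {T n : ℕ}
    {Ev : Env} {dflt : SwR} (hE : Ev.OK n dflt) (hk : k ≤ n)
    (h : FlO src dst F k β v T) :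
    Fl src dst F (k + 1) (Function.update β k v)
      (fill Ev (5 ^ k) (Nat.land T (Nat.sub (Nat.pow 2 (5 ^ k)) 1))) := by
  intro c _ hT
  obtain ⟨a, c0, ha, hce, h1, h2⟩ := fill_mem hE hT
  rw [tb_land, Bool.and_eq_true] at h1
  have h5 : (2 ^ (5 ^ k) - 1).testBit c0 = true := h1.2
  rw [Nat.testBit_two_pow_sub_one, decide_eq_true_eq] at h5
  have h3 := h c0 h5 h1.1
  have h0 : dg 5 c0 k = 0 := (lt_pow_iff (by norm_num) c0 k).mp h5 k le_rfl
  rw [dsm_ext hk h5] at h2
  refine h3.congr fun x => ?_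
  rw [hce, push_add _ (Nat.lt_succ_self k) h0 ha, Function.update_self]
  have h4 : push (k + 1) (Function.update β k v) c0 x = push k β c0 x := by
    have h6 : push (k + 1) (Function.update β k v) c0 x
        = push k (Function.update β k v) c0 x := by
      unfold push
      rw [sum_range_succ, h0]
      simp
    rw [h6]
    refine push_congr (fun _ _ => rfl) (fun i hi _ => ?_) x
    rw [Function.update_of_ne hi.ne]
  rw [h4, sub_eq_add_neg]
  congr 1
  by_cases hv : v = x
  · rw [if_pos hv, if_pos hv]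
    exact eq_neg_of_add_eq_zero_left h2
  · rw [if_neg hv, if_neg hv, neg_zero]

omit [Fintype V] [Fintype E] [DecidableEq E] in
/-- the current vertex is complete -/
theorem FlO.close {src dst : E → V} {F : Finset E} {k : ℕ} {β : ℕ → V} {v : V} {T n : ℕ}
    {Ev : Env} {dflt : SwR} (hE : Ev.OK n dflt) (hk : k ≤ n)
    (h : FlO src dst F k β v T) : Fl src dst F k β (Nat.land T Ev.s0) := by
  intro c hc hT
  rw [tb_land, Bool.and_eq_true] at hT
  have h1 := h c hc hT.1
  have h2 := hE.s0 c hT.2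
  rw [dsm_ext hk hc] at h2
  refine h1.congr fun x => ?_
  rw [h2]
  simp

omit [Fintype V] [Fintype E] [DecidableEq E] in
/-- the last boundary vertex is complete -/
theorem Fl.last {src dst : E → V} {F : Finset E} {k : ℕ} {β : ℕ → V} {S : ℕ}
    (h : Fl src dst F (k + 1) β S) : Fl src dst F k β S := by
  intro c hc hS
  have h1 := h c (lt_of_lt_of_le hc (Nat.pow_le_pow_right (by norm_num) (Nat.le_succ k))) hS
  refine h1.congr fun x => ?_
  have h0 : dg 5 c k = 0 := (lt_pow_iff (by norm_num) c k).mp hc k le_rfl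
  unfold push
  rw [sum_range_succ, h0]
  simp

omit [Fintype V] in
theorem push_swap {k : ℕ} (β : ℕ → V) {c c' p q : ℕ} (hp : p < k) (hq : q < k)
    (h : ∀ i, dg 5 c' i = if i = p then dg 5 c q else if i = q then dg 5 c p else dg 5 c i)
    (x : V) : push k (β ∘ Equiv.swap p q) c x = push k β c' x := by
  unfold push
  refine sum_nbij' (Equiv.swap p q) (Equiv.swap p q) ?_ ?_ ?_ ?_ ?_
  · intro i hi
    rw [mem_range] at *
    rw [Equiv.swap_apply_def]
    split_ifs <;> omega
  · intro i hi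
    rw [mem_range] at *
    rw [Equiv.swap_apply_def]
    split_ifs <;> omega
  · intro i _; simp
  · intro i _; simp
  · intro i _
    simp only [Function.comp]
    rw [h]
    have : (if Equiv.swap p q i = p then dg 5 c q
        else if Equiv.swap p q i = q then dg 5 c p else dg 5 c (Equiv.swap p q i)) = dg 5 c i := by
      by_cases h1 : i = p
      · subst h1
        rw [Equiv.swap_apply_left]
        by_cases h2 : q = i
        · rw [if_pos h2, h2]
        · rw [if_neg h2, if_pos rfl]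
      · by_cases h2 : i = q
        · subst h2
          rw [Equiv.swap_apply_right, if_pos rfl]
        · rw [Equiv.swap_apply_of_ne_of_ne h1 h2, if_neg h1, if_neg h2]
    rw [this]

omit [Fintype V] [Fintype E] [DecidableEq E] in
/-- relabelling -/
theorem Fl.swap {src dst : E → V} {F : Finset E} {k : ℕ} {β : ℕ → V} {S n p q : ℕ} {r : Sw}
    (hr : r.OK 5 n p q) (hpq : p < q) (hq : q < k) (hk : k ≤ n)
    (h : Fl src dst F k β (r.app S)) : Fl src dst F k (β ∘ Equiv.swap p q) S := by
  intro c hc hS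
  obtain ⟨c', h1, h2⟩ := Sw.app_mem (by norm_num) hpq hr
    (lt_of_lt_of_le hc (Nat.pow_le_pow_right (by norm_num) hk)) hS
  have hc' : c' < 5 ^ k := by
    rw [lt_pow_iff (by norm_num)] at hc ⊢
    intro i hi
    rw [h2, if_neg (by omega), if_neg (by omega), hc i hi]
  exact (h c' hc' h1).congr fun x => push_swap β (by omega) hq h2 x

end Pool.Agent.TH497.PW
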