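import Pool.Agent.H79.LF.TH497_PW_Cuts

set_option autoImplicit false

/-! # Soundness of the closure test -/

namespace Pool.Agent.TH497.PW

open Finset

theorem cnd_eq {α : Type} (b : Bool) (x y : α) : cnd b x y = if b = true then x else y := by
  cases b <;> rfl

theorem cnd_false_iff {b x : Bool} : cnd b x false = true ↔ b = true ∧ x = true := by
  cases b <;> simp [cnd]

variable {V E : Type} [DecidableEq V] [DecidableEq E]

/-- the state data is realized -/
structure Real (src dst : E → V) (F : Finset E) (P : Finset V) (k : ℕ) (β : ℕ → V)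
    (S l0 l1 l2 : ℕ) : Prop where
  fl : Fl src dst F k β S
  c0 : Cl src dst F P k β 0 l0
  c1 : Cl src dst F P k β 1 l1
  c2 : Cl src dst F P k β 2 l2

/-- realized by a table state, up to relabelling -/
def InT (tb : Tb) (src dst : E → V) (F : Finset E) (P : Finset V) (k : ℕ) (β : ℕ → V) : Prop :=
  ∃ (i : ℕ) (σ : Equiv.Perm ℕ), (tb.get i).k = k ∧ (∀ i, i < k → σ i < k) ∧
    (∀ i, i < k → σ.symm i < k) ∧
    Real src dst F P k (β ∘ σ) (tb.get i).S (tb.get i).l0 (tb.get i).l1 (tb.get i).l2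

omit [DecidableEq E] in
theorem Real.swap {src dst : E → V} {F : Finset E} {P : Finset V} {k n p q : ℕ} {β : ℕ → V}
    {a b : Sw} {S l0 l1 l2 : ℕ} (ha : a.OK 5 n p q) (hb : b.OK 2 n p q) (hpq : p < q)
    (hq : q < k) (hk : k ≤ n)
    (h : Real src dst F P k β (a.app S) (b.app l0) (b.app l1) (b.app l2)) :
    Real src dst F P k (β ∘ Equiv.swap p q) S l0 l1 l2 :=
  ⟨h.fl.swap ha hpq hq hk, h.c0.swap hb hpq hq hk, h.c1.swap hb hpq hq hk,
    h.c2.swap hb hpq hq hk⟩

theorem swap_lt {p q k i : ℕ} (hpq : p < q) (hq : q < k) (hi : i < k) :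
    Equiv.swap p q i < k := by
  rw [Equiv.swap_apply_def]
  split_ifs <;> omega

omit [DecidableEq E] in
theorem permK_sound {dflt : SwR} {Ev : Env} {n k : ℕ} (hE : Ev.OK n dflt) (hk : k ≤ n)
    {S' l0' l1' l2' : ℕ} {κ : ℕ → Bool} (fuel : ℕ) : ∀ (S l0 l1 l2 c : ℕ),
    permK dflt Ev k S' l0' l1' l2' κ fuel S l0 l1 l2 c = true →
    (∃ c', κ c' = true) ∧ ∀ (src dst : E → V) (F : Finset E) (P : Finset V) (β : ℕ → V),
      Real src dst F P k β S' l0' l1' l2' →
      ∃ σ : Equiv.Perm ℕ, (∀ i, i < k → σ i < k) ∧ (∀ i, i < k → σ.symm i < k) ∧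
        Real src dst F P k (β ∘ σ) S l0 l1 l2 := by
  induction fuel with
  | zero => intro S l0 l1 l2 c h; exact absurd h (by simp [permK])
  | succ fuel ih =>
    intro S l0 l1 l2 c h
    have e : permK dflt Ev k S' l0' l1' l2' κ (fuel + 1) S l0 l1 l2 c =
      (fz (Nat.land c 15) fun d =>
      fz (Nat.shiftRight c 4) fun c' =>
      cnd (Nat.beq d 15)
        (cnd (sub l2 l2') (cnd (sub l1 l1') (cnd (sub l0 l0') (cnd (sub S S') (κ c') false)
          false) false) false)
        (cnd (Nat.ble (Nat.succ (nth dflt Ev.sw d).q) k)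
          (fz ((nth dflt Ev.sw d).a.app S) fun S1 =>
           fz ((nth dflt Ev.sw d).b.app l0) fun l01 =>
           fz ((nth dflt Ev.sw d).b.app l1) fun l11 =>
           fz ((nth dflt Ev.sw d).b.app l2) fun l21 =>
            permK dflt Ev k S' l0' l1' l2' κ fuel S1 l01 l11 l21 c')
          false)) := rfl
    rw [e] at h
    simp only [fz_eq] at h
    generalize Nat.land c 15 = d at h
    generalize Nat.shiftRight c 4 = c' at h
    cases hd : Nat.beq d 15 with
    | true =>
      rw [hd] at h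
      change cnd (sub l2 l2') (cnd (sub l1 l1') (cnd (sub l0 l0') (cnd (sub S S') (κ c') false)
          false) false) false = true at h
      rw [cnd_false_iff, cnd_false_iff, cnd_false_iff, cnd_false_iff] at h
      obtain ⟨h2, h1, h0, hS, hκ⟩ := h
      refine ⟨⟨c', hκ⟩, fun src dst F P β hR => ⟨1, fun i hi => hi, fun i hi => hi, ?_⟩⟩
      exact ⟨fun c hc hc2 => hR.fl c hc (sub_mem hS hc2), hR.c0.sub h0, hR.c1.sub h1,
        hR.c2.sub h2⟩
    | false =>
      rw [hd] at h
      change cnd (Nat.ble (Nat.succ (nth dflt Ev.sw d).q) k) _ false = true at h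
      rw [cnd_false_iff] at h
      obtain ⟨hq, h⟩ := h
      have hq' : (nth dflt Ev.sw d).q < k := Nat.le_of_ble_eq_true hq
      obtain ⟨ha, hb, hpq, _⟩ := hE.sw d
      obtain ⟨hκ, ih2⟩ := ih _ _ _ _ _ h
      refine ⟨hκ, fun src dst F P β hR => ?_⟩
      obtain ⟨σ, h1, h2, h3⟩ := ih2 src dst F P β hR
      refine ⟨(Equiv.swap (nth dflt Ev.sw d).p (nth dflt Ev.sw d).q).trans σ, fun i hi => ?_,
        fun i hi => ?_, ?_⟩
      · exact h1 _ (swap_lt hpq hq' hi)
      · exact swap_lt hpq hq' (h2 i hi)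
      · exact h3.swap ha hb hpq hq' hk

omit [DecidableEq E] in
theorem dom_sound {dflt : SwR} {Ev : Env} {tb : Tb} {n k : ℕ} (hE : Ev.OK n dflt) (hk : k ≤ n)
    {S' l0' l1' l2' c : ℕ} {κ : ℕ → Bool}
    (h : dom dflt Ev tb k S' l0' l1' l2' c κ = true) :
    (∃ c', κ c' = true) ∧ ∀ (src dst : E → V) (F : Finset E) (P : Finset V) (β : ℕ → V),
      Real src dst F P k β S' l0' l1' l2' → InT tb src dst F P k β := by
  unfold dom at h
  rw [fz_eq, cnd_false_iff] at h
  obtain ⟨h1, h2⟩ := h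
  obtain ⟨h3, h4⟩ := permK_sound (V := V) (E := E) hE hk 8 _ _ _ _ _ h2
  refine ⟨h3, fun src dst F P β hR => ?_⟩
  obtain ⟨σ, h5, h6, h7⟩ := h4 src dst F P β hR
  exact ⟨_, σ, Nat.eq_of_beq_eq_true h1, h5, h6, h7⟩

theorem hit_iff {L J : ℕ} (h : hit L J = true) : L.testBit J = true := by
  unfold hit at h
  have h1 := Nat.eq_of_beq_eq_true h
  have h2 : (Nat.land (Nat.shiftRight L J) 1).testBit 0 = true := by rw [h1]; rfl
  rw [tb_land, tb_shr, Bool.and_eq_true] at h2
  exact h2.1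

theorem closeUs_sound {dflt : SwR} {Ev : Env} {tb : Tb} {n k : ℕ} (hE : Ev.OK n dflt)
    (hk : k ≤ n) {kk low T l0 l1 l2 : ℕ} {κ : ℕ → Bool} (cho : List PosR) : ∀ c,
    closeUs dflt Ev tb k kk low T l0 l1 l2 κ cho c = true →
    (∃ c', κ c' = true) ∧ ∀ r ∈ cho, Nat.land l2 r.fm ≠ 0 ∨
      ∀ (src dst : E → V) (F : Finset E) (P : Finset V) (β : ℕ → V),
        Real src dst F P k β (fill Ev r.w (Nat.land T r.d0)) (prjU r kk low l0)
          (prjU r kk low l1) (prjU r kk low l2) → InT tb src dst F P k β := by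
  induction cho with
  | nil => intro c h; exact ⟨⟨c, h⟩, by simp⟩
  | cons r rs ih =>
    intro c h
    have e : closeUs dflt Ev tb k kk low T l0 l1 l2 κ (r :: rs) c =
      cnd (Nat.beq (Nat.land l2 r.fm) 0)
        (dom dflt Ev tb k (fill Ev r.w (Nat.land T r.d0)) (prjU r kk low l0) (prjU r kk low l1)
          (prjU r kk low l2) c (closeUs dflt Ev tb k kk low T l0 l1 l2 κ rs))
        (closeUs dflt Ev tb k kk low T l0 l1 l2 κ rs c) := rfl
    rw [e] at h
    cases hd : Nat.beq (Nat.land l2 r.fm) 0 with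
    | true =>
      rw [hd] at h
      obtain ⟨⟨c', h1⟩, h2⟩ := dom_sound (V := V) (E := E) hE hk h
      obtain ⟨h3, h4⟩ := ih c' h1
      refine ⟨h3, fun r' hr' => ?_⟩
      rcases List.mem_cons.mp hr' with h5 | h5
      · subst h5; exact Or.inr h2
      · exact h4 r' h5
    | false =>
      rw [hd] at h
      obtain ⟨h3, h4⟩ := ih c h
      refine ⟨h3, fun r' hr' => ?_⟩
      rcases List.mem_cons.mp hr' with h5 | h5
      · subst h5; exact Or.inl (Nat.ne_of_beq_eq_false hd)
      · exact h4 r' h5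

theorem closeV_sound {dflt : SwR} {Ev : Env} {tb : Tb} {n k : ℕ} (hE : Ev.OK n dflt)
    (hk : k ≤ n) {kk low T l0 l1 l2 c : ℕ} {κ : ℕ → Bool}
    (h : closeV dflt Ev tb k kk low T l0 l1 l2 c κ = true) :
    (∃ c', κ c' = true) ∧ (l2.testBit kk = true ∨ l2.testBit (kk - 1) = true ∨
      ∀ (src dst : E → V) (F : Finset E) (P : Finset V) (β : ℕ → V),
        Real src dst F P k β (Nat.land T Ev.s0) (prj kk low l0) (prj kk low l1) (prj kk low l2) →
        InT tb src dst F P k β) := by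
  unfold closeV at h
  cases h1 : hit l2 kk with
  | true =>
    rw [h1] at h
    exact ⟨⟨c, h⟩, Or.inl (hit_iff h1)⟩
  | false =>
    rw [h1] at h
    change cnd (hit l2 (Nat.sub kk 1)) _ _ = true at h
    cases h2 : hit l2 (Nat.sub kk 1) with
    | true =>
      rw [h2] at h
      exact ⟨⟨c, h⟩, Or.inr (Or.inl (hit_iff h2))⟩
    | false =>
      rw [h2] at h
      obtain ⟨h3, h4⟩ := dom_sound (V := V) (E := E) hE hk h
      exact ⟨h3, Or.inr (Or.inr h4)⟩

omit [DecidableEq V] [DecidableEq E] in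
theorem leaf_cont {dflt : SwR} {Ev : Env} {tb : Tb} {n W k : ℕ} (hE : Ev.OK n dflt)
    (hk : k ≤ W) (hW : W ≤ n) {kk low w : ℕ} {cho : List PosR} {T l0 l1 l2 c : ℕ}
    {κ : ℕ → Bool} (h : leaf dflt Ev tb W k kk low w cho T l0 l1 l2 c κ = true) :
    ∃ c', κ c' = true := by
  unfold leaf at h
  cases h1 : Nat.beq k W with
  | true =>
    rw [h1] at h
    obtain ⟨⟨c', h2⟩, _⟩ := closeV_sound (V := ℕ) (E := ℕ) hE (by omega) h
    exact (closeUs_sound (V := ℕ) (E := ℕ) hE (by omega) cho c' h2).1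
  | false =>
    rw [h1] at h
    have h2 : k ≠ W := Nat.ne_of_beq_eq_false h1
    exact (dom_sound (V := ℕ) (E := ℕ) hE (show Nat.succ k ≤ n by omega) h).1

theorem dfs_cons (dflt : SwR) (Ev : Env) (tb : Tb) (W k kk low v1 v0 w : ℕ) (r : PosR)
    (rs cho : List PosR) (T l0 l1 l2 c : ℕ) (κ : ℕ → Bool) :
    dfs dflt Ev tb W k kk low v1 v0 w (r :: rs) cho T l0 l1 l2 c κ =
    dfs dflt Ev tb W k kk low v1 v0 w rs cho T l0 l1 l2 c fun c' =>
      dfs dflt Ev tb W k kk low v1 v0 w rs (r :: cho) (conv r T)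
        (Nat.land l0 (Nat.lor (Nat.land r.j1 v1) (Nat.land r.j0 v0)))
        (Nat.lor (Nat.land l1 (Nat.lor (Nat.land r.j1 v1) (Nat.land r.j0 v0))) l0)
        (Nat.lor (Nat.land l2 (Nat.lor (Nat.land r.j1 v1) (Nat.land r.j0 v0))) l1) c' κ := by
  have e : dfs dflt Ev tb W k kk low v1 v0 w (r :: rs) cho T l0 l1 l2 c κ =
    dfs dflt Ev tb W k kk low v1 v0 w rs cho T l0 l1 l2 c fun c' =>
        fz (conv r T) fun T' =>
        fz (Nat.lor (Nat.land r.j1 v1) (Nat.land r.j0 v0)) fun same =>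
        fz (Nat.land l0 same) fun l0' =>
        fz (Nat.lor (Nat.land l1 same) l0) fun l1' =>
        fz (Nat.lor (Nat.land l2 same) l1) fun l2' =>
        dfs dflt Ev tb W k kk low v1 v0 w rs (r :: cho) T' l0' l1' l2' c' κ := rfl
  rw [e]
  simp only [fz_eq]

omit [DecidableEq V] [DecidableEq E] in
theorem dfs_cont {dflt : SwR} {Ev : Env} {tb : Tb} {n W k : ℕ} (hE : Ev.OK n dflt)
    (hk : k ≤ W) (hW : W ≤ n) {kk low v1 v0 w : ℕ} (rem : List PosR) :
    ∀ (cho : List PosR) (T l0 l1 l2 c : ℕ) (κ : ℕ → Bool),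
    dfs dflt Ev tb W k kk low v1 v0 w rem cho T l0 l1 l2 c κ = true → ∃ c', κ c' = true := by
  induction rem with
  | nil =>
    intro cho T l0 l1 l2 c κ h
    exact leaf_cont hE hk hW (show leaf dflt Ev tb W k kk low w cho T l0 l1 l2 c κ = true from h)
  | cons r rs ih =>
    intro cho T l0 l1 l2 c κ h
    rw [dfs_cons] at h
    obtain ⟨c', h2⟩ := ih _ _ _ _ _ _ _ h
    exact ih _ _ _ _ _ _ _ h2

/-- the state with a current vertex `v` is realized -/
structure RealO (src dst : E → V) (F : Finset E) (P : Finset V) (k : ℕ) (β : ℕ → V) (v : V)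
    (T l0 l1 l2 : ℕ) : Prop where
  fl : FlO src dst F k β v T
  c0 : Cl src dst F P (k + 1) (Function.update β k v) 0 l0
  c1 : Cl src dst F P (k + 1) (Function.update β k v) 1 l1
  c2 : Cl src dst F P (k + 1) (Function.update β k v) 2 l2

/-- masks of the current vertex -/
def VM (k v1 v0 : ℕ) : Prop :=
  (∀ J, v1.testBit J = true → dg 2 J k = 1) ∧ (∀ J, v0.testBit J = true → dg 2 J k = 0)

theorem RealO.edge {src dst : E → V} {F : Finset E} {P : Finset V} {k n : ℕ} {β : ℕ → V} {v : V}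
    {T l0 l1 l2 : ℕ} (h : RealO src dst F P k β v T l0 l1 l2) {r : PosR} (hr : r.OK n)
    (hp : r.p < k) {e : E} (he : e ∉ F) (hj : Joins src dst e v (β r.p)) {v1 v0 : ℕ}
    (hv : VM k v1 v0) :
    RealO src dst (insert e F) P k β v (conv r T)
        (Nat.land l0 (Nat.lor (Nat.land r.j1 v1) (Nat.land r.j0 v0)))
        (Nat.lor (Nat.land l1 (Nat.lor (Nat.land r.j1 v1) (Nat.land r.j0 v0))) l0)
        (Nat.lor (Nat.land l2 (Nat.lor (Nat.land r.j1 v1) (Nat.land r.j0 v0))) l1) := by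
  have hm : ∀ J, (Nat.lor (Nat.land r.j1 v1) (Nat.land r.j0 v0)).testBit J = true →
      dg 2 J r.p = dg 2 J k := by
    intro J hJ
    rw [tb_lor, tb_land, tb_land, Bool.or_eq_true, Bool.and_eq_true, Bool.and_eq_true] at hJ
    rcases hJ with ⟨h1, h2⟩ | ⟨h1, h2⟩
    · rw [hr.j1 _ h1, hv.1 _ h2]
    · rw [hr.j0 _ h1, hv.2 _ h2]
  have hj' : Joins src dst e (Function.update β k v k) (Function.update β k v r.p) := by
    rw [Function.update_self, Function.update_of_ne hp.ne]; exact hj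
  exact ⟨h.fl.conv hr hp he hj, h.c0.edgeSame (by omega) (by omega) hj' hm,
    (h.c1.edgeSame (by omega) (by omega) hj' hm).or (h.c0.edgeAny e),
    (h.c2.edgeSame (by omega) (by omega) hj' hm).or (h.c1.edgeAny e)⟩

theorem dfs_sound {src dst : E → V} {dflt : SwR} {Ev : Env} {tb : Tb} {n W k : ℕ}
    (hE : Ev.OK n dflt) (hk : k ≤ W) (hW : W ≤ n) {kk low v1 v0 w : ℕ} (hv : VM k v1 v0)
    {P : Finset V} {β : ℕ → V} {v : V}
    (hinj : ∀ i j, i < k → j < k → β i = β j → i = j)
    (hS : ∀ e e' x y, src e ≠ dst e → Joins src dst e x y → Joins src dst e' x y → e' = e)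
    (rem : List PosR) :
    ∀ (cho : List PosR) (T l0 l1 l2 c : ℕ) (κ : ℕ → Bool) (Fc : Finset E),
    dfs dflt Ev tb W k kk low v1 v0 w rem cho T l0 l1 l2 c κ = true →
    RealO src dst Fc P k β v T l0 l1 l2 →
    (∀ r ∈ rem, r.OK n ∧ r.p < k) → (rem.map PosR.p).Nodup →
    (∀ e, src e ≠ dst e → (∃ r ∈ rem, Joins src dst e v (β r.p)) → e ∉ Fc) →
    ∃ (cho' : List PosR) (T' l0' l1' l2' c' : ℕ) (κ' : ℕ → Bool) (Ff : Finset E),
      leaf dflt Ev tb W k kk low w cho' T' l0' l1' l2' c' κ' = true ∧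
      RealO src dst Ff P k β v T' l0' l1' l2' ∧ Fc ⊆ Ff ∧
      (∀ e ∈ Ff, e ∈ Fc ∨ (src e ≠ dst e ∧ ∃ r ∈ rem, Joins src dst e v (β r.p))) ∧
      (∀ e, src e ≠ dst e → (∃ r ∈ rem, Joins src dst e v (β r.p)) → e ∈ Ff) ∧
      (∀ r ∈ cho, r ∈ cho') ∧
      (∀ r ∈ rem, (∃ e, src e ≠ dst e ∧ Joins src dst e v (β r.p)) → r ∈ cho') := by
  induction rem with
  | nil =>
    intro cho T l0 l1 l2 c κ Fc h hR _ _ _
    refine ⟨cho, T, l0, l1, l2, c, κ, Fc, h, hR, subset_rfl, fun e he => Or.inl he, ?_,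
      fun r hr => hr, ?_⟩
    · rintro e _ ⟨r, hr, _⟩
      simp at hr
    · intro r hr
      simp at hr
  | cons r rs ih =>
    intro cho T l0 l1 l2 c κ Fc h hR hrem hnd hFc
    rw [dfs_cons] at h
    rw [List.map_cons, List.nodup_cons] at hnd
    by_cases hEx : ∃ e, src e ≠ dst e ∧ Joins src dst e v (β r.p)
    · obtain ⟨e, he, hj⟩ := hEx
      obtain ⟨c', h2⟩ := dfs_cont hE hk hW _ _ _ _ _ _ _ _ h
      have heF : e ∉ Fc := hFc e he ⟨r, List.mem_cons_self .., hj⟩
      obtain ⟨hr1, hr2⟩ := hrem r (List.mem_cons_self ..)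
      obtain ⟨cho', T', l0', l1', l2', c'', κ', Ff, h3, h4, h5, h6, h7, h8, h9⟩ :=
        ih _ _ _ _ _ _ _ (insert e Fc) h2 (hR.edge hr1 hr2 heF hj hv)
          (fun r' hr' => hrem r' (List.mem_cons_of_mem _ hr')) hnd.2 (by
            rintro e' he' ⟨r', hr', hj'⟩ hmem
            rcases mem_insert.mp hmem with h10 | h10
            · subst h10
              have h11 : β r.p = β r'.p := by
                rcases hj with ⟨a1, a2⟩ | ⟨a1, a2⟩ <;> rcases hj' with ⟨b1, b2⟩ | ⟨b1, b2⟩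
                · rw [← a2, ← b2]
                · exact absurd (b2.trans a1.symm).symm (by
                    intro h12; exact he' h12)
                · exact absurd (b1.trans a2.symm) (by
                    intro h12; exact he' h12)
                · rw [← a1, ← b1]
              have h12 := hinj _ _ hr2 (hrem r' (List.mem_cons_of_mem _ hr')).2 h11
              exact hnd.1 (h12 ▸ List.mem_map_of_mem hr')
            · exact hFc e' he' ⟨r', List.mem_cons_of_mem _ hr', hj'⟩ h10)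
      refine ⟨cho', T', l0', l1', l2', c'', κ', Ff, h3, h4, (subset_insert _ _).trans h5, ?_, ?_,
        ?_, ?_⟩
      · intro e' he'
        rcases h6 e' he' with h10 | ⟨h10, r', hr', hj'⟩
        · rcases mem_insert.mp h10 with h11 | h11
          · subst h11; exact Or.inr ⟨he, r, List.mem_cons_self .., hj⟩
          · exact Or.inl h11
        · exact Or.inr ⟨h10, r', List.mem_cons_of_mem _ hr', hj'⟩
      · rintro e' he' ⟨r', hr', hj'⟩
        rcases List.mem_cons.mp hr' with h10 | h10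
        · subst h10
          rw [hS e e' _ _ he hj hj']
          exact h5 (mem_insert_self _ _)
        · exact h7 e' he' ⟨r', h10, hj'⟩
      · intro r' hr'
        exact h8 r' (List.mem_cons_of_mem _ hr')
      · intro r' hr' hex
        rcases List.mem_cons.mp hr' with h10 | h10
        · subst h10; exact h8 _ (List.mem_cons_self ..)
        · exact h9 r' h10 hex
    · obtain ⟨cho', T', l0', l1', l2', c'', κ', Ff, h3, h4, h5, h6, h7, h8, h9⟩ :=
        ih _ _ _ _ _ _ _ Fc h hR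
          (fun r' hr' => hrem r' (List.mem_cons_of_mem _ hr')) hnd.2
          (fun e' he' ⟨r', hr', hj'⟩ => hFc e' he' ⟨r', List.mem_cons_of_mem _ hr', hj'⟩)
      refine ⟨cho', T', l0', l1', l2', c'', κ', Ff, h3, h4, h5, ?_, ?_, h8, ?_⟩
      · intro e' he'
        rcases h6 e' he' with h10 | ⟨h10, r', hr', hj'⟩
        · exact Or.inl h10
        · exact Or.inr ⟨h10, r', List.mem_cons_of_mem _ hr', hj'⟩
      · rintro e' he' ⟨r', hr', hj'⟩
        rcases List.mem_cons.mp hr' with h10 | h10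
        · subst h10; exact absurd ⟨e', he', hj'⟩ hEx
        · exact h7 e' he' ⟨r', h10, hj'⟩
      · intro r' hr' hex
        rcases List.mem_cons.mp hr' with h10 | h10
        · subst h10; exact absurd hex hEx
        · exact h9 r' h10 hex

theorem forg_sound {dflt : SwR} {Ev : Env} {tb : Tb} {n k : ℕ} (hE : Ev.OK n dflt)
    (hk : k ≤ n) {S l0 l1 l2 : ℕ} (j : ℕ) (hjk : j ≤ k) : ∀ (c : ℕ) (κ : ℕ → Bool),
    forg dflt Ev tb k S l0 l1 l2 j c κ = true →
    (∃ c', κ c' = true) ∧ ∀ i, i < j →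
      (2 ≤ k ∧ (l2.testBit (2 ^ i) = true ∨ l2.testBit (2 ^ k - 1 - 2 ^ i) = true)) ∨
      ∀ (src dst : E → V) (F : Finset E) (P : Finset V) (β : ℕ → V),
        Real src dst F P k β S l0 l1 l2 →
        InT tb src dst F P (k - 1) (β ∘ Equiv.swap i (k - 1)) := by
  induction j with
  | zero => intro c κ h; exact ⟨⟨c, h⟩, by omega⟩
  | succ j ih =>
    intro c κ h
    have e : forg dflt Ev tb k S l0 l1 l2 (j + 1) c κ =
      forg dflt Ev tb k S l0 l1 l2 j c fun c' =>
      cnd (Nat.ble 2 k && (hit l2 (2 ^ j) || hit l2 (2 ^ k - 1 - 2 ^ j))) (κ c')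
        (cnd (Nat.beq (Nat.succ j) k)
          (dom dflt Ev tb (k - 1) S (prj (2 ^ j) (2 ^ (2 ^ j) - 1) l0)
            (prj (2 ^ j) (2 ^ (2 ^ j) - 1) l1) (prj (2 ^ j) (2 ^ (2 ^ j) - 1) l2) c' κ)
          (fz ((k - 1) * (k - 2) / 2 + j) fun i =>
           fz (2 ^ (k - 1)) fun u =>
            cnd (Nat.beq (nth dflt Ev.sw i).p j && Nat.beq (nth dflt Ev.sw i).q (k - 1))
              (fz ((nth dflt Ev.sw i).a.app S) fun S1 =>
               fz ((nth dflt Ev.sw i).b.app l0) fun a0 =>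
               fz ((nth dflt Ev.sw i).b.app l1) fun a1 =>
               fz ((nth dflt Ev.sw i).b.app l2) fun a2 =>
                cnd (sub ((nth dflt Ev.sw i).a.app S1) S &&
                    (sub ((nth dflt Ev.sw i).b.app a0) l0 &&
                    (sub ((nth dflt Ev.sw i).b.app a1) l1 && sub ((nth dflt Ev.sw i).b.app a2) l2)))
                  (dom dflt Ev tb (k - 1) S1 (prj u (2 ^ u - 1) a0)
                    (prj u (2 ^ u - 1) a1) (prj u (2 ^ u - 1) a2) c' κ) false) false)) := rfl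
    rw [e] at h
    obtain ⟨⟨c', h1⟩, h2⟩ := ih (by omega) _ _ h
    simp only [fz_eq] at h1
    cases hb : (Nat.ble 2 k && (hit l2 (2 ^ j) || hit l2 (2 ^ k - 1 - 2 ^ j))) with
    | true =>
      rw [hb] at h1
      refine ⟨⟨c', h1⟩, fun i hi => ?_⟩
      rcases Nat.lt_succ_iff_lt_or_eq.mp hi with h3 | h3
      · exact h2 i h3
      · subst h3
        rw [Bool.and_eq_true, Bool.or_eq_true] at hb
        left
        refine ⟨Nat.le_of_ble_eq_true hb.1, ?_⟩
        rcases hb.2 with h4 | h4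
        · exact Or.inl (hit_iff h4)
        · exact Or.inr (hit_iff h4)
    | false =>
      rw [hb] at h1
      change cnd (Nat.beq (Nat.succ j) k) _ _ = true at h1
      cases hb2 : Nat.beq (Nat.succ j) k with
      | true =>
        rw [hb2] at h1
        have hjk' : j + 1 = k := Nat.eq_of_beq_eq_true hb2
        obtain ⟨h3, h4⟩ := dom_sound (V := V) (E := E) hE (by omega) h1
        refine ⟨h3, fun i hi => ?_⟩
        rcases Nat.lt_succ_iff_lt_or_eq.mp hi with h5 | h5
        · exact h2 i h5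
        · subst h5
          right
          intro src dst F P β hR
          have h6 : k - 1 = i := by omega
          rw [h6, Equiv.swap_self]
          change InT tb src dst F P i β
          rw [h6] at h4
          rw [← hjk'] at hR
          exact h4 src dst F P β ⟨hR.fl.last, hR.c0.prj, hR.c1.prj, hR.c2.prj⟩
      | false =>
        rw [hb2] at h1
        have hjk' : j + 1 ≠ k := Nat.ne_of_beq_eq_false hb2
        change cnd _ _ false = true at h1
        rw [cnd_false_iff, Bool.and_eq_true, cnd_false_iff, Bool.and_eq_true, Bool.and_eq_true,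
          Bool.and_eq_true] at h1
        obtain ⟨⟨hp, hq⟩, ⟨hs, hs0, hs1, hs2⟩, h1⟩ := h1
        have hp' := Nat.eq_of_beq_eq_true hp
        have hq' := Nat.eq_of_beq_eq_true hq
        obtain ⟨ha, hb', hpq, _⟩ := hE.sw ((k - 1) * (k - 2) / 2 + j)
        rw [hp', hq'] at ha hb' hpq
        obtain ⟨h3, h4⟩ := dom_sound (V := V) (E := E) hE (by omega) h1
        refine ⟨h3, fun i hi => ?_⟩
        rcases Nat.lt_succ_iff_lt_or_eq.mp hi with h5 | h5
        · exact h2 i h5
        · subst h5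
          right
          intro src dst F P β hR
          have hR' : Real src dst F P k β
              ((nth dflt Ev.sw ((k - 1) * (k - 2) / 2 + i)).a.app
                ((nth dflt Ev.sw ((k - 1) * (k - 2) / 2 + i)).a.app S))
              ((nth dflt Ev.sw ((k - 1) * (k - 2) / 2 + i)).b.app
                ((nth dflt Ev.sw ((k - 1) * (k - 2) / 2 + i)).b.app l0))
              ((nth dflt Ev.sw ((k - 1) * (k - 2) / 2 + i)).b.app
                ((nth dflt Ev.sw ((k - 1) * (k - 2) / 2 + i)).b.app l1))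
              ((nth dflt Ev.sw ((k - 1) * (k - 2) / 2 + i)).b.app
                ((nth dflt Ev.sw ((k - 1) * (k - 2) / 2 + i)).b.app l2)) :=
            ⟨fun c hc hc2 => hR.fl c hc (sub_mem hs hc2), hR.c0.sub hs0, hR.c1.sub hs1,
              hR.c2.sub hs2⟩
          have h6 := hR'.swap ha hb' hpq (by omega) hk
          obtain ⟨m, rfl⟩ : ∃ m, k = m + 1 := ⟨k - 1, by omega⟩
          exact h4 src dst F P _ ⟨h6.fl.last, h6.c0.prj, h6.c1.prj, h6.c2.prj⟩

end Pool.Agent.TH497.PW
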