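import Pool.Agent.H79.LF.TH499_TF_Sol

set_option autoImplicit false

/-! # Three reducible configurations -/

namespace Pool.Agent.TH499.TF

open Finset

variable {V E : Type} [Fintype V] [DecidableEq V] [Fintype E] [DecidableEq E]
variable {C : (E → V) → (E → V) → Prop} {src dst : E → V}

/-- an edge `x x'` whose other neighbours are `p`, `q` and `r`, `s` -/
def Dbl (A : V → V → Prop) (x x' p q r s : V) : Prop := N3 A x x' p q ∧ N3 A x' x r s

/-- a configuration with four roots -/
theorem MC.c1 (hC : Closed C) (h : MC C src dst) {u v x1 x2 y1 y2 i i' j j' : V}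
    (hnd : [u, v, x1, x2, y1, y2, i, i', j, j'].Nodup)
    (hu : N3 (Ad src dst) u v x1 y1) (hv : N3 (Ad src dst) v u i i')
    (hx : Dbl (Ad src dst) x1 x2 u j i j') (hy : Dbl (Ad src dst) y1 y2 u j' i' j) : False := by
  have hinj : Function.Injective (![u, v, x1, x2, y1, y2, i, i', j, j'] : Fin 10 → V) := by
    rw [← List.nodup_ofFn]; exact hnd
  refine h.config hC (N := 10) (m := 13) ![0, 0, 0, 1, 1, 2, 2, 3, 3, 4, 4, 5, 5]
    ![1, 2, 4, 6, 7, 8, 3, 6, 9, 9, 5, 7, 8]
    (by decide) (by decide) (by decide) (by decide) hinj ?_ 9 ?_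
  · intro k; fin_cases k
    · exact (hu _).mpr (Or.inl rfl)
    · exact (hu _).mpr (Or.inr (Or.inl rfl))
    · exact (hu _).mpr (Or.inr (Or.inr rfl))
    · exact (hv _).mpr (Or.inr (Or.inl rfl))
    · exact (hv _).mpr (Or.inr (Or.inr rfl))
    · exact (hx.1 _).mpr (Or.inr (Or.inr rfl))
    · exact (hx.1 _).mpr (Or.inl rfl)
    · exact (hx.2 _).mpr (Or.inr (Or.inl rfl))
    · exact (hx.2 _).mpr (Or.inr (Or.inr rfl))
    · exact (hy.1 _).mpr (Or.inr (Or.inr rfl))
    · exact (hy.1 _).mpr (Or.inl rfl)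
    · exact (hy.2 _).mpr (Or.inr (Or.inl rfl))
    · exact (hy.2 _).mpr (Or.inr (Or.inr rfl))
  · intro d
    obtain ⟨p, h1, h2, q, h3, h4, h5, r, h6, h7, s, h8, h9, h10, h11, h12, h13⟩ :=
      solC1 (d 6) (d 7) (d 8)
    refine ⟨![p + q, r, p + q + r, p, q, s, r + s, d 6 + p, r + s + (d 6 + p), (p + q + r) + ((d 7 + q) + (d 8 + s)), (d 7 + q) + (d 8 + s), d 7 + q, d 8 + s], ?_, ?_⟩
    · intro k; fin_cases k <;> assumption
    · intro t ht; fin_cases t
      · left
        refine ⟨?_, ?_⟩
        · intro w hw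
          rcases (hu w).mp hw with h | h | h
          · exact ⟨0, Or.inl ⟨rfl, h⟩⟩
          · exact ⟨1, Or.inl ⟨rfl, h⟩⟩
          · exact ⟨2, Or.inl ⟨rfl, h⟩⟩
        · simp [dv, jn, Fin.sum_univ_succ]
          try simp only [add_assoc, add_comm, add_left_comm, K_add_self, K_cancel, add_zero, zero_add]
      · left
        refine ⟨?_, ?_⟩
        · intro w hw
          rcases (hv w).mp hw with h | h | h
          · exact ⟨0, Or.inr ⟨rfl, h⟩⟩
          · exact ⟨3, Or.inl ⟨rfl, h⟩⟩
          · exact ⟨4, Or.inl ⟨rfl, h⟩⟩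
        · simp [dv, jn, Fin.sum_univ_succ]
          try simp only [add_assoc, add_comm, add_left_comm, K_add_self, K_cancel, add_zero, zero_add]
      · left
        refine ⟨?_, ?_⟩
        · intro w hw
          rcases (hx.1 w).mp hw with h | h | h
          · exact ⟨6, Or.inl ⟨rfl, h⟩⟩
          · exact ⟨1, Or.inr ⟨rfl, h⟩⟩
          · exact ⟨5, Or.inl ⟨rfl, h⟩⟩
        · simp [dv, jn, Fin.sum_univ_succ]
          try simp only [add_assoc, add_comm, add_left_comm, K_add_self, K_cancel, add_zero, zero_add]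
      · left
        refine ⟨?_, ?_⟩
        · intro w hw
          rcases (hx.2 w).mp hw with h | h | h
          · exact ⟨6, Or.inr ⟨rfl, h⟩⟩
          · exact ⟨7, Or.inl ⟨rfl, h⟩⟩
          · exact ⟨8, Or.inl ⟨rfl, h⟩⟩
        · simp [dv, jn, Fin.sum_univ_succ]
          try simp only [add_assoc, add_comm, add_left_comm, K_add_self, K_cancel, add_zero, zero_add]
      · left
        refine ⟨?_, ?_⟩
        · intro w hw
          rcases (hy.1 w).mp hw with h | h | h
          · exact ⟨10, Or.inl ⟨rfl, h⟩⟩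
          · exact ⟨2, Or.inr ⟨rfl, h⟩⟩
          · exact ⟨9, Or.inl ⟨rfl, h⟩⟩
        · simp [dv, jn, Fin.sum_univ_succ]
          try simp only [add_assoc, add_comm, add_left_comm, K_add_self, K_cancel, add_zero, zero_add]
      · left
        refine ⟨?_, ?_⟩
        · intro w hw
          rcases (hy.2 w).mp hw with h | h | h
          · exact ⟨10, Or.inr ⟨rfl, h⟩⟩
          · exact ⟨11, Or.inl ⟨rfl, h⟩⟩
          · exact ⟨12, Or.inl ⟨rfl, h⟩⟩
        · simp [dv, jn, Fin.sum_univ_succ]
          try simp only [add_assoc, add_comm, add_left_comm, K_add_self, K_cancel, add_zero, zero_add]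
      · right
        simp [dv, jn, Fin.sum_univ_succ]
        try simp only [add_assoc, add_comm, add_left_comm, K_add_self, K_cancel, add_zero, zero_add]
      · right
        simp [dv, jn, Fin.sum_univ_succ]
        try simp only [add_assoc, add_comm, add_left_comm, K_add_self, K_cancel, add_zero, zero_add]
      · right
        simp [dv, jn, Fin.sum_univ_succ]
        try simp only [add_assoc, add_comm, add_left_comm, K_add_self, K_cancel, add_zero, zero_add]
      · exact absurd rfl ht

/-- a configuration with five roots -/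
theorem MC.c2 (hC : Closed C) (h : MC C src dst) {x1 u a y1 n c x2 b y2 x3 y3 : V}
    (hnd : [x1, u, a, y1, n, c, x2, b, y2, x3, y3].Nodup)
    (h1 : Dbl (Ad src dst) x1 y1 u a n c) (h2 : Dbl (Ad src dst) x2 y2 u b n a)
    (h3 : Dbl (Ad src dst) x3 y3 u c n b) : False := by
  have hinj : Function.Injective (![x1, u, a, y1, n, c, x2, b, y2, x3, y3] : Fin 11 → V) := by
    rw [← List.nodup_ofFn]; exact hnd
  refine h.config hC (N := 11) (m := 15) ![0, 0, 0, 3, 3, 6, 6, 6, 8, 8, 9, 9, 9, 10, 10]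
    ![1, 2, 3, 4, 5, 1, 7, 8, 4, 2, 1, 5, 10, 4, 7]
    (by decide) (by decide) (by decide) (by decide) hinj ?_ 4 ?_
  · intro k; fin_cases k
    · exact (h1.1 _).mpr (Or.inr (Or.inl rfl))
    · exact (h1.1 _).mpr (Or.inr (Or.inr rfl))
    · exact (h1.1 _).mpr (Or.inl rfl)
    · exact (h1.2 _).mpr (Or.inr (Or.inl rfl))
    · exact (h1.2 _).mpr (Or.inr (Or.inr rfl))
    · exact (h2.1 _).mpr (Or.inr (Or.inl rfl))
    · exact (h2.1 _).mpr (Or.inr (Or.inr rfl))
    · exact (h2.1 _).mpr (Or.inl rfl)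
    · exact (h2.2 _).mpr (Or.inr (Or.inl rfl))
    · exact (h2.2 _).mpr (Or.inr (Or.inr rfl))
    · exact (h3.1 _).mpr (Or.inr (Or.inl rfl))
    · exact (h3.1 _).mpr (Or.inr (Or.inr rfl))
    · exact (h3.1 _).mpr (Or.inl rfl)
    · exact (h3.2 _).mpr (Or.inr (Or.inl rfl))
    · exact (h3.2 _).mpr (Or.inr (Or.inr rfl))
  · intro d
    obtain ⟨a1, j1, a2, j2, j3, b1, j4, j5, j6, b2, j7, j8, j9, j10, b3, j11, j12, j13, j14, j15⟩ :=
      solC2 (d 1) (d 2) (d 7) (d 5)
    refine ⟨![a1, b1, a1 + b1, a1 + b1 + (d 5 + b3), d 5 + b3, a2, b2, a2 + b2, a2 + b2 + (d 2 + b1), d 2 + b1, d 1 + a1 + a2, b3, (d 1 + a1 + a2) + b3, (d 1 + a1 + a2) + b3 + (d 7 + b2), d 7 + b2], ?_, ?_⟩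
    · intro k; fin_cases k <;> assumption
    · intro t ht; fin_cases t
      · left
        refine ⟨?_, ?_⟩
        · intro w hw
          rcases (h1.1 w).mp hw with h | h | h
          · exact ⟨2, Or.inl ⟨rfl, h⟩⟩
          · exact ⟨0, Or.inl ⟨rfl, h⟩⟩
          · exact ⟨1, Or.inl ⟨rfl, h⟩⟩
        · simp [dv, jn, Fin.sum_univ_succ]
          try simp only [add_assoc, add_comm, add_left_comm, K_add_self, K_cancel, add_zero, zero_add]
      · right
        simp [dv, jn, Fin.sum_univ_succ]
        try simp only [add_assoc, add_comm, add_left_comm, K_add_self, K_cancel, add_zero, zero_add]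
      · right
        simp [dv, jn, Fin.sum_univ_succ]
        try simp only [add_assoc, add_comm, add_left_comm, K_add_self, K_cancel, add_zero, zero_add]
      · left
        refine ⟨?_, ?_⟩
        · intro w hw
          rcases (h1.2 w).mp hw with h | h | h
          · exact ⟨2, Or.inr ⟨rfl, h⟩⟩
          · exact ⟨3, Or.inl ⟨rfl, h⟩⟩
          · exact ⟨4, Or.inl ⟨rfl, h⟩⟩
        · simp [dv, jn, Fin.sum_univ_succ]
          try simp only [add_assoc, add_comm, add_left_comm, K_add_self, K_cancel, add_zero, zero_add]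
      · exact absurd rfl ht
      · right
        simp [dv, jn, Fin.sum_univ_succ]
        try simp only [add_assoc, add_comm, add_left_comm, K_add_self, K_cancel, add_zero, zero_add]
      · left
        refine ⟨?_, ?_⟩
        · intro w hw
          rcases (h2.1 w).mp hw with h | h | h
          · exact ⟨7, Or.inl ⟨rfl, h⟩⟩
          · exact ⟨5, Or.inl ⟨rfl, h⟩⟩
          · exact ⟨6, Or.inl ⟨rfl, h⟩⟩
        · simp [dv, jn, Fin.sum_univ_succ]
          try simp only [add_assoc, add_comm, add_left_comm, K_add_self, K_cancel, add_zero, zero_add]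
      · right
        simp [dv, jn, Fin.sum_univ_succ]
        try simp only [add_assoc, add_comm, add_left_comm, K_add_self, K_cancel, add_zero, zero_add]
      · left
        refine ⟨?_, ?_⟩
        · intro w hw
          rcases (h2.2 w).mp hw with h | h | h
          · exact ⟨7, Or.inr ⟨rfl, h⟩⟩
          · exact ⟨8, Or.inl ⟨rfl, h⟩⟩
          · exact ⟨9, Or.inl ⟨rfl, h⟩⟩
        · simp [dv, jn, Fin.sum_univ_succ]
          try simp only [add_assoc, add_comm, add_left_comm, K_add_self, K_cancel, add_zero, zero_add]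
      · left
        refine ⟨?_, ?_⟩
        · intro w hw
          rcases (h3.1 w).mp hw with h | h | h
          · exact ⟨12, Or.inl ⟨rfl, h⟩⟩
          · exact ⟨10, Or.inl ⟨rfl, h⟩⟩
          · exact ⟨11, Or.inl ⟨rfl, h⟩⟩
        · simp [dv, jn, Fin.sum_univ_succ]
          try simp only [add_assoc, add_comm, add_left_comm, K_add_self, K_cancel, add_zero, zero_add]
      · left
        refine ⟨?_, ?_⟩
        · intro w hw
          rcases (h3.2 w).mp hw with h | h | h
          · exact ⟨12, Or.inr ⟨rfl, h⟩⟩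
          · exact ⟨13, Or.inl ⟨rfl, h⟩⟩
          · exact ⟨14, Or.inl ⟨rfl, h⟩⟩
        · simp [dv, jn, Fin.sum_univ_succ]
          try simp only [add_assoc, add_comm, add_left_comm, K_add_self, K_cancel, add_zero, zero_add]

/-- another configuration with five roots -/
theorem MC.c3 (hC : Closed C) (h : MC C src dst) {x1 u b y1 a n x2 c y2 x3 y3 : V}
    (hnd : [x1, u, b, y1, a, n, x2, c, y2, x3, y3].Nodup)
    (h1 : Dbl (Ad src dst) x1 y1 u b a n) (h2 : Dbl (Ad src dst) x2 y2 u c a b)
    (h3 : Dbl (Ad src dst) x3 y3 u a n c) : False := by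
  have hinj : Function.Injective (![x1, u, b, y1, a, n, x2, c, y2, x3, y3] : Fin 11 → V) := by
    rw [← List.nodup_ofFn]; exact hnd
  refine h.config hC (N := 11) (m := 15) ![0, 0, 0, 3, 3, 6, 6, 6, 8, 8, 9, 9, 9, 10, 10]
    ![1, 2, 3, 4, 5, 1, 7, 8, 4, 2, 1, 4, 10, 5, 7]
    (by decide) (by decide) (by decide) (by decide) hinj ?_ 5 ?_
  · intro k; fin_cases k
    · exact (h1.1 _).mpr (Or.inr (Or.inl rfl))
    · exact (h1.1 _).mpr (Or.inr (Or.inr rfl))
    · exact (h1.1 _).mpr (Or.inl rfl)
    · exact (h1.2 _).mpr (Or.inr (Or.inl rfl))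
    · exact (h1.2 _).mpr (Or.inr (Or.inr rfl))
    · exact (h2.1 _).mpr (Or.inr (Or.inl rfl))
    · exact (h2.1 _).mpr (Or.inr (Or.inr rfl))
    · exact (h2.1 _).mpr (Or.inl rfl)
    · exact (h2.2 _).mpr (Or.inr (Or.inl rfl))
    · exact (h2.2 _).mpr (Or.inr (Or.inr rfl))
    · exact (h3.1 _).mpr (Or.inr (Or.inl rfl))
    · exact (h3.1 _).mpr (Or.inr (Or.inr rfl))
    · exact (h3.1 _).mpr (Or.inl rfl)
    · exact (h3.2 _).mpr (Or.inr (Or.inl rfl))
    · exact (h3.2 _).mpr (Or.inr (Or.inr rfl))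
  · intro d
    obtain ⟨a1, j1, a2, j2, j3, b1, j4, j5, j6, b2, j7, j8, j9, j10, b3, j11, j12, j13, j14, j15⟩ :=
      solC3 (d 1) (d 4) (d 2) (d 7)
    refine ⟨![a1, b1, a1 + b1, (d 4 + (a2 + b2 + (d 2 + b1)) + b3), a1 + b1 + (d 4 + (a2 + b2 + (d 2 + b1)) + b3), a2, b2, a2 + b2, (a2 + b2 + (d 2 + b1)), (d 2 + b1), d 1 + a1 + a2, b3, (d 1 + a1 + a2) + b3, (d 1 + a1 + a2) + b3 + (d 7 + b2), (d 7 + b2)], ?_, ?_⟩
    · intro k; fin_cases k <;> assumption
    · intro t ht; fin_cases t
      · left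
        refine ⟨?_, ?_⟩
        · intro w hw
          rcases (h1.1 w).mp hw with h | h | h
          · exact ⟨2, Or.inl ⟨rfl, h⟩⟩
          · exact ⟨0, Or.inl ⟨rfl, h⟩⟩
          · exact ⟨1, Or.inl ⟨rfl, h⟩⟩
        · simp [dv, jn, Fin.sum_univ_succ]
          try simp only [add_assoc, add_comm, add_left_comm, K_add_self, K_cancel, add_zero, zero_add]
      · right
        simp [dv, jn, Fin.sum_univ_succ]
        try simp only [add_assoc, add_comm, add_left_comm, K_add_self, K_cancel, add_zero, zero_add]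
      · right
        simp [dv, jn, Fin.sum_univ_succ]
        try simp only [add_assoc, add_comm, add_left_comm, K_add_self, K_cancel, add_zero, zero_add]
      · left
        refine ⟨?_, ?_⟩
        · intro w hw
          rcases (h1.2 w).mp hw with h | h | h
          · exact ⟨2, Or.inr ⟨rfl, h⟩⟩
          · exact ⟨3, Or.inl ⟨rfl, h⟩⟩
          · exact ⟨4, Or.inl ⟨rfl, h⟩⟩
        · simp [dv, jn, Fin.sum_univ_succ]
          try simp only [add_assoc, add_comm, add_left_comm, K_add_self, K_cancel, add_zero, zero_add]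
      · right
        simp [dv, jn, Fin.sum_univ_succ]
        try simp only [add_assoc, add_comm, add_left_comm, K_add_self, K_cancel, add_zero, zero_add]
      · exact absurd rfl ht
      · left
        refine ⟨?_, ?_⟩
        · intro w hw
          rcases (h2.1 w).mp hw with h | h | h
          · exact ⟨7, Or.inl ⟨rfl, h⟩⟩
          · exact ⟨5, Or.inl ⟨rfl, h⟩⟩
          · exact ⟨6, Or.inl ⟨rfl, h⟩⟩
        · simp [dv, jn, Fin.sum_univ_succ]
          try simp only [add_assoc, add_comm, add_left_comm, K_add_self, K_cancel, add_zero, zero_add]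
      · right
        simp [dv, jn, Fin.sum_univ_succ]
        try simp only [add_assoc, add_comm, add_left_comm, K_add_self, K_cancel, add_zero, zero_add]
      · left
        refine ⟨?_, ?_⟩
        · intro w hw
          rcases (h2.2 w).mp hw with h | h | h
          · exact ⟨7, Or.inr ⟨rfl, h⟩⟩
          · exact ⟨8, Or.inl ⟨rfl, h⟩⟩
          · exact ⟨9, Or.inl ⟨rfl, h⟩⟩
        · simp [dv, jn, Fin.sum_univ_succ]
          try simp only [add_assoc, add_comm, add_left_comm, K_add_self, K_cancel, add_zero, zero_add]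
      · left
        refine ⟨?_, ?_⟩
        · intro w hw
          rcases (h3.1 w).mp hw with h | h | h
          · exact ⟨12, Or.inl ⟨rfl, h⟩⟩
          · exact ⟨10, Or.inl ⟨rfl, h⟩⟩
          · exact ⟨11, Or.inl ⟨rfl, h⟩⟩
        · simp [dv, jn, Fin.sum_univ_succ]
          try simp only [add_assoc, add_comm, add_left_comm, K_add_self, K_cancel, add_zero, zero_add]
      · left
        refine ⟨?_, ?_⟩
        · intro w hw
          rcases (h3.2 w).mp hw with h | h | h
          · exact ⟨12, Or.inr ⟨rfl, h⟩⟩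
          · exact ⟨13, Or.inl ⟨rfl, h⟩⟩
          · exact ⟨14, Or.inl ⟨rfl, h⟩⟩
        · simp [dv, jn, Fin.sum_univ_succ]
          try simp only [add_assoc, add_comm, add_left_comm, K_add_self, K_cancel, add_zero, zero_add]

end Pool.Agent.TH499.TF
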