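import Pool.Agent.H79.LF.TH499_TF_Square

set_option autoImplicit false

/-! # Cuts with three edges -/

namespace Pool.Agent.TH499.TF

open Finset

variable {V E : Type} [Fintype V] [DecidableEq V] [Fintype E] [DecidableEq E]
variable {C : (E → V) → (E → V) → Prop} {src dst : E → V}

/-- connected in the sense of cuts -/
def CC (src dst : E → V) (Y : Finset V) : Prop :=
  ∀ A ⊆ Y, A.Nonempty → A ≠ Y → ∃ e a b, a ∈ A ∧ b ∈ Y ∧ b ∉ A ∧ Joins src dst e a b

omit [Fintype V] [Fintype E] [DecidableEq E] in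
theorem CC.grow {Y : Finset V} (h : CC src dst Y) (hne : Y.Nonempty) : Grow src dst Y := by
  have key : ∀ n, 1 ≤ n → n ≤ Y.card → ∃ A ⊆ Y, A.card = n ∧ Grow src dst A := by
    intro n
    induction n with
    | zero => intro h; omega
    | succ n ih =>
      intro _ hn
      by_cases h0 : n = 0
      · obtain ⟨y, hy⟩ := hne
        exact ⟨{y}, by simpa using hy, by simp [h0], Grow.one y⟩
      · obtain ⟨A, hA, hc, hg⟩ := ih (by omega) (by omega)
        obtain ⟨e, a, b, ha, hb, hbA, hj⟩ := h A hA (by rw [← card_pos]; omega)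
          (fun h => by rw [h] at hc; omega)
        refine ⟨insert b A, insert_subset hb hA, ?_, Grow.add A b a e hg hbA ha hj.symm⟩
        rw [card_insert_of_notMem hbA, hc]
  obtain ⟨A, hA, hc, hg⟩ := key Y.card (card_pos.mpr hne) le_rfl
  rw [eq_of_subset_of_card_le hA (by omega)] at hg
  exact hg

theorem MC.side (hC : Closed C) (h : MC C src dst) (n : ℕ) : ∀ Y : Finset V, Y.card = n →
    (dlt src dst Y).card = 3 → ∃ Y1 ⊆ Y, dlt src dst Y1 = dlt src dst Y ∧ CC src dst Y1 := by
  induction n using Nat.strong_induction_on with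
  | _ n ih =>
    intro Y hn hY
    by_cases hc : CC src dst Y
    · exact ⟨Y, subset_rfl, rfl, hc⟩
    · unfold CC at hc
      push Not at hc
      obtain ⟨A, hA, hne, hAY, hno⟩ := hc
      have hno' : ∀ e, src e ∈ Y → dst e ∈ Y → (src e ∈ A ↔ dst e ∈ A) := by
        intro e h1 h2
        constructor
        · intro h3
          by_contra h4
          exact hno e _ _ h3 h2 h4 (Or.inl ⟨rfl, rfl⟩)
        · intro h3
          by_contra h4
          exact hno e _ _ h3 h1 h4 (Or.inr ⟨rfl, rfl⟩)
      have hdis : Disjoint (dlt src dst A) (dlt src dst (Y \ A)) := by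
        rw [disjoint_left]
        intro e h1 h2
        rw [mem_dlt] at h1 h2
        have a1 := @hA (src e)
        have a2 := @hA (dst e)
        have a3 := hno' e
        simp only [mem_sdiff] at h2
        tauto
      have hun : dlt src dst A ∪ dlt src dst (Y \ A) = dlt src dst Y := by
        ext e
        rw [mem_union, mem_dlt, mem_dlt, mem_dlt]
        have a1 := @hA (src e)
        have a2 := @hA (dst e)
        have a3 := hno' e
        simp only [mem_sdiff]
        tauto
      have hcard : (dlt src dst A).card + (dlt src dst (Y \ A)).card = 3 := by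
        rw [← card_union_of_disjoint hdis, hun, hY]
      have hlt1 : A.card < n := by
        rw [← hn]
        exact card_lt_card (ssubset_of_subset_of_ne hA hAY)
      have hlt2 : (Y \ A).card < n := by
        rw [← hn]
        apply card_lt_card
        rw [ssubset_iff_of_subset sdiff_subset]
        obtain ⟨a, ha⟩ := hne
        exact ⟨a, hA ha, by simp [ha]⟩
      rcases h.cut3 hC A with h1 | h1
      · have h2 : dlt src dst (Y \ A) = dlt src dst Y := by
          rw [← hun, card_eq_zero.mp h1, empty_union]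
        obtain ⟨Y1, h3, h4, h5⟩ := ih _ hlt2 (Y \ A) rfl (by rw [h2, hY])
        exact ⟨Y1, h3.trans sdiff_subset, h4.trans h2, h5⟩
      · have h2 : dlt src dst A = dlt src dst Y := by
          rw [← hun, card_eq_zero.mp (by omega : (dlt src dst (Y \ A)).card = 0), union_empty]
        obtain ⟨Y1, h3, h4, h5⟩ := ih _ hlt1 A rfl (by rw [h2, hY])
        exact ⟨Y1, h3.trans hA, h4.trans h2, h5⟩

/-- a linear map -/
def lm (p q r s : ZMod 2) (x : K) : K := (p * x.1 + q * x.2, r * x.1 + s * x.2)

theorem lm_add (p q r s : ZMod 2) (x y : K) : lm p q r s (x + y) = lm p q r s x + lm p q r s y := by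
  unfold lm
  ext
  · simp only [Prod.fst_add, Prod.snd_add]; ring
  · simp only [Prod.fst_add, Prod.snd_add]; ring

theorem lm_zero (p q r s : ZMod 2) : lm p q r s 0 = 0 := by unfold lm; simp

set_option synthInstance.maxSize 4096 in
set_option maxRecDepth 100000 in
theorem lm_exists' : ∀ a b : K, (a ≠ 0 ∧ b ≠ 0 ∧ a + b ≠ 0) → ∀ a' b' : K,
    (a' ≠ 0 ∧ b' ≠ 0 ∧ a' + b' ≠ 0) →
    ∃ p q r s : ZMod 2, (lm p q r s a = a' ∧ lm p q r s b = b' ∧
      ∀ x : K, x ≠ 0 → lm p q r s x ≠ 0) := by decide

theorem lm_exists (a b a' b' : K) (h1 : a ≠ 0) (h2 : b ≠ 0) (h3 : a + b ≠ 0) (h4 : a' ≠ 0)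
    (h5 : b' ≠ 0) (h6 : a' + b' ≠ 0) :
    ∃ p q r s : ZMod 2, lm p q r s a = a' ∧ lm p q r s b = b' ∧
      ∀ x : K, x ≠ 0 → lm p q r s x ≠ 0 :=
  lm_exists' a b ⟨h1, h2, h3⟩ a' b' ⟨h4, h5, h6⟩

/-- a cut with three edges consists of the edges at a vertex -/
theorem MC.cutV (hC : Closed C) (h : MC C src dst) {Y : Finset V}
    (hY : (dlt src dst Y).card = 3) : ∃ z, dlt src dst {z} = dlt src dst Y := by
  obtain ⟨Y1, hs1, hd1, hc1⟩ := h.side hC _ Y rfl hY
  have hcomp : dlt src dst Yᶜ = dlt src dst Y := by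
    ext e; rw [mem_dlt, mem_dlt]; simp only [mem_compl]; tauto
  obtain ⟨Y2, hs2, hd2', hc2⟩ := h.side hC _ Yᶜ rfl (by rw [hcomp, hY])
  have hd2 := hd2'.trans hcomp
  have hn1 : Y1.Nonempty := by
    rw [nonempty_iff_ne_empty]
    rintro rfl
    rw [← hd1] at hY
    have : dlt src dst (∅ : Finset V) = ∅ := by ext e; simp [mem_dlt]
    rw [this] at hY; simp at hY
  have hn2 : Y2.Nonempty := by
    rw [nonempty_iff_ne_empty]
    rintro rfl
    rw [← hd2] at hY
    have : dlt src dst (∅ : Finset V) = ∅ := by ext e; simp [mem_dlt]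
    rw [this] at hY; simp at hY
  by_cases hA : Y1.card = 1
  · obtain ⟨z, rfl⟩ := card_eq_one.mp hA
    exact ⟨z, hd1⟩
  by_cases hB : Y2.card = 1
  · obtain ⟨z, rfl⟩ := card_eq_one.mp hB
    exact ⟨z, hd2⟩
  exfalso
  have hdis : ∀ x, x ∈ Y1 → x ∈ Y2 → False := by
    intro x hx hx2
    have a1 := hs1 hx
    have a2 := hs2 hx2
    rw [mem_compl] at a2
    exact a2 a1
  have edge : ∀ W : Finset V, CC src dst W → W.Nonempty → W.card ≠ 1 →
      ∃ e, src e ≠ dst e ∧ src e ∈ W ∧ dst e ∈ W := by
    intro W hW hne h1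
    obtain ⟨w, hw⟩ := hne
    obtain ⟨e, a, b, ha, hb, hbA, hj⟩ := hW {w} (by simpa using hw) ⟨w, mem_singleton_self w⟩
      (fun h => h1 (by rw [← h, card_singleton]))
    rw [mem_singleton] at ha hbA
    subst ha
    refine ⟨e, hj.ne_loop (Ne.symm hbA), ?_⟩
    rcases hj with ⟨h3, h4⟩ | ⟨h3, h4⟩
    · rw [h3, h4]; exact ⟨hw, hb⟩
    · rw [h3, h4]; exact ⟨hb, hw⟩
  obtain ⟨d1, l1, m1, m1'⟩ := edge Y1 hc1 hn1 hA
  obtain ⟨d2, l2, m2, m2'⟩ := edge Y2 hc2 hn2 hB
  obtain ⟨f1, hf1, hz1⟩ := h.con hC (hc1.grow hn1) l1 m1 m1'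
  obtain ⟨f2, hf2, hz2⟩ := h.con hC (hc2.grow hn2) l2 m2 m2'
  obtain ⟨e1, e2, e3, n12, n13, n23, hE⟩ := card_eq_three.mp hY
  have s1 : f1 e1 + f1 e2 + f1 e3 = 0 := by
    have := sum_dv src dst f1 Y2
    rw [sum_eq_zero (fun x hx => hz1 x (fun h => hdis x h hx)), hd2, hE] at this
    rw [sum_insert (by simp [n12, n13]), sum_pair n23] at this
    rw [add_assoc]; exact this.symm
  have s2 : f2 e1 + f2 e2 + f2 e3 = 0 := by
    have := sum_dv src dst f2 Y1
    rw [sum_eq_zero (fun x hx => hz2 x (fun h => hdis x hx h)), hd1, hE] at this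
    rw [sum_insert (by simp [n12, n13]), sum_pair n23] at this
    rw [add_assoc]; exact this.symm
  have t1 := K_eq_of_add s1
  have t2 := K_eq_of_add s2
  obtain ⟨p, q, r, s, L1, L2, L3⟩ := lm_exists (f2 e1) (f2 e2) (f1 e1) (f1 e2) (hf2 _) (hf2 _)
    (by rw [t2]; exact hf2 _) (hf1 _) (hf1 _) (by rw [t1]; exact hf1 _)
  have L4 : lm p q r s (f2 e3) = f1 e3 := by
    rw [← t2, ← t1, lm_add, L1, L2]
  apply h.nz
  refine ⟨fun e => if src e ∈ Y1 ∧ dst e ∈ Y1 then lm p q r s (f2 e) else f1 e, fun e => ?_,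
    fun x => ?_⟩
  · change (if src e ∈ Y1 ∧ dst e ∈ Y1 then lm p q r s (f2 e) else f1 e) ≠ 0
    split_ifs
    · exact L3 _ (hf2 e)
    · exact hf1 e
  · by_cases hx : x ∈ Y1
    · have h1 : dv src dst (fun e => if src e ∈ Y1 ∧ dst e ∈ Y1 then lm p q r s (f2 e)
          else f1 e) x = lm p q r s (dv src dst f2 x) := by
        have hmap : ∀ S : Finset E, lm p q r s (∑ e ∈ S, jn (src e) (dst e) (f2 e) x)
            = ∑ e ∈ S, lm p q r s (jn (src e) (dst e) (f2 e) x) := by
          intro S
          induction S using Finset.induction_on with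
          | empty => simp [lm_zero]
          | insert a S ha ih => rw [sum_insert ha, sum_insert ha, lm_add, ih]
        unfold dv
        rw [hmap]
        refine sum_congr rfl fun e _ => ?_
        have hjl : ∀ t : K, lm p q r s (jn (src e) (dst e) t x)
            = jn (src e) (dst e) (lm p q r s t) x := by
          intro t
          unfold jn
          rw [lm_add]
          split_ifs <;> simp [lm_zero]
        rw [hjl]
        by_cases h3 : src e ∈ Y1 ∧ dst e ∈ Y1
        · simp only [if_pos h3]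
        · simp only [if_neg h3]
          by_cases h4 : e ∈ dlt src dst Y1
          · rw [hd1, hE] at h4
            simp only [mem_insert, mem_singleton] at h4
            rcases h4 with rfl | rfl | rfl
            · rw [L1]
            · rw [L2]
            · rw [L4]
          · rw [mem_dlt, not_not] at h4
            have h5 : src e ∉ Y1 := fun h5 => h3 ⟨h5, h4.mp h5⟩
            have h6 : dst e ∉ Y1 := fun h6 => h3 ⟨h4.mpr h6, h6⟩
            unfold jn
            rw [if_neg (fun h => h5 (by rw [h]; exact hx)),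
              if_neg (fun h => h6 (by rw [h]; exact hx)),
              if_neg (fun h => h5 (by rw [h]; exact hx)),
              if_neg (fun h => h6 (by rw [h]; exact hx))]
      rw [h1, hz2 x (fun h => hdis x hx h), lm_zero]
    · rw [← hz1 x hx]
      unfold dv
      refine sum_congr rfl fun e _ => ?_
      by_cases h3 : src e ∈ Y1 ∧ dst e ∈ Y1
      · unfold jn
        rw [if_neg (fun h => hx (by rw [← h]; exact h3.1)),
          if_neg (fun h => hx (by rw [← h]; exact h3.2)),
          if_neg (fun h => hx (by rw [← h]; exact h3.1)),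
          if_neg (fun h => hx (by rw [← h]; exact h3.2))]
      · simp only [if_neg h3]

end Pool.Agent.TH499.TF
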