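import Pool.Agent.H79.LF.H150R2_Konig

set_option autoImplicit false

/-!
König's edge colouring theorem for bipartite simple graphs of maximum degree at most `L`.
(The filling lemma is the one of `Pool.Agent.H162R2.AG.K1`.)
-/

namespace Pool.Agent.TH525.LAD

open Finset

theorem fill {V : Type} [Fintype V] [DecidableEq V] (D : ℕ) : ∀ (t : ℕ) (M : V → V → ℕ),
    (∀ v, ∑ w, M v w ≤ D) → (∀ w, ∑ v, M v w ≤ D) →
    (∑ v, ∑ w, M v w) + t = D * Fintype.card V →
    ∃ M' : V → V → ℕ, (∀ v w, M v w ≤ M' v w) ∧ (∀ v, ∑ w, M' v w = D) ∧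
      (∀ w, ∑ v, M' v w = D) := by
  intro t
  induction t with
  | zero =>
    intro M hr hc ht
    have hD : ∑ _v : V, D = D * Fintype.card V := by simp [mul_comm]
    refine ⟨M, fun _ _ => le_rfl, ?_, ?_⟩
    · have h1 : ∑ v, ∑ w, M v w = ∑ _v : V, D := by rw [hD]; simpa using ht
      exact fun v => (Finset.sum_eq_sum_iff_of_le (fun v _ => hr v)).1 h1 v (mem_univ v)
    · have h1 : ∑ w, ∑ v, M v w = ∑ _w : V, D := by
        rw [Finset.sum_comm, hD]; simpa using ht
      exact fun w => (Finset.sum_eq_sum_iff_of_le (fun w _ => hc w)).1 h1 w (mem_univ w)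
  | succ t ih =>
    intro M hr hc ht
    have hD : ∑ _v : V, D = D * Fintype.card V := by simp [mul_comm]
    obtain ⟨v, -, hv⟩ : ∃ v ∈ (univ : Finset V), ∑ w, M v w < D := by
      apply Finset.exists_lt_of_sum_lt
      rw [hD]; omega
    obtain ⟨w, -, hw⟩ : ∃ w ∈ (univ : Finset V), ∑ v, M v w < D := by
      apply Finset.exists_lt_of_sum_lt
      rw [hD, Finset.sum_comm]; omega
    set M1 : V → V → ℕ := fun a b => M a b + if a = v then (if b = w then 1 else 0) else 0
      with hM1
    have hrow : ∀ a, ∑ b, M1 a b = ∑ b, M a b + if a = v then 1 else 0 := by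
      intro a
      rw [hM1, Finset.sum_add_distrib]
      congr 1
      by_cases h : a = v <;> simp [h]
    have hcol : ∀ b, ∑ a, M1 a b = ∑ a, M a b + if b = w then 1 else 0 := by
      intro b
      rw [hM1, Finset.sum_add_distrib]
      congr 1
      simp
    obtain ⟨M', h1, h2, h3⟩ := ih M1
      (by
        intro a
        rw [hrow]
        by_cases h : a = v
        · subst h; rw [if_pos rfl]; omega
        · rw [if_neg h]; exact hr a)
      (by
        intro b
        rw [hcol]
        by_cases h : b = w
        · subst h; rw [if_pos rfl]; omega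
        · rw [if_neg h]; exact hc b)
      (by
        have : ∑ a, ∑ b, M1 a b = ∑ a, ∑ b, M a b + 1 := by
          simp_rw [hrow]
          rw [Finset.sum_add_distrib]
          simp
        rw [this]; omega)
    exact ⟨M', fun a b => le_trans (Nat.le_add_right _ _) (h1 a b), h2, h3⟩

/-- König: a bipartite graph of maximum degree at most `L` has a proper edge colouring with `L`
colours. -/
theorem konig_graph {W : Type} [Fintype W] [DecidableEq W] (Γ : SimpleGraph W)
    [DecidableRel Γ.Adj] (L : ℕ) (χ : W → Bool) (hχ : ∀ u v, Γ.Adj u v → χ u ≠ χ v)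
    (hdeg : ∀ v, Γ.degree v ≤ L) :
    ∃ φ : W → W → ℕ, (∀ u v, φ u v = φ v u) ∧ (∀ u v, Γ.Adj u v → φ u v < L) ∧
      ∀ u v w, Γ.Adj u v → Γ.Adj u w → φ u v = φ u w → v = w := by
  classical
  set M0 : W → W → ℕ := fun v w => if Γ.Adj v w ∧ χ v = true then 1 else 0 with hM0
  have hrow : ∀ v, ∑ w, M0 v w ≤ L := by
    intro v
    rw [hM0]
    simp only
    rw [← Finset.card_filter]
    refine le_trans ?_ (hdeg v)
    rw [← SimpleGraph.card_neighborFinset_eq_degree]
    apply Finset.card_le_card
    intro w hw
    rw [mem_filter] at hw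
    rw [SimpleGraph.mem_neighborFinset]
    exact hw.2.1
  have hcol : ∀ w, ∑ v, M0 v w ≤ L := by
    intro w
    rw [hM0]
    simp only
    rw [← Finset.card_filter]
    refine le_trans ?_ (hdeg w)
    rw [← SimpleGraph.card_neighborFinset_eq_degree]
    apply Finset.card_le_card
    intro v hv
    rw [mem_filter] at hv
    rw [SimpleGraph.mem_neighborFinset]
    exact hv.2.1.symm
  have htot : ∑ v, ∑ w, M0 v w ≤ L * Fintype.card W := by
    calc ∑ v, ∑ w, M0 v w ≤ ∑ _v : W, L := Finset.sum_le_sum fun v _ => hrow v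
      _ = L * Fintype.card W := by simp [mul_comm]
  obtain ⟨M', h1, h2, h3⟩ := fill L (L * Fintype.card W - ∑ v, ∑ w, M0 v w) M0 hrow hcol
    (by omega)
  obtain ⟨σ, hσ⟩ := Pool.Agent.H150R2.ZSF.koenig L M' h2 h3
  have hex : ∀ u w, ∃ i : ℕ, Γ.Adj u w → χ u = true → ∃ h : i < L, σ ⟨i, h⟩ u = w := by
    intro u w
    by_cases h : Γ.Adj u w ∧ χ u = true
    · have h4 : 1 ≤ M' u w := by
        refine le_trans (le_of_eq ?_) (h1 u w)
        rw [hM0]
        simp only
        rw [if_pos h]
      rw [hσ] at h4
      have h5 : ∃ i : Fin L, σ i u = w := by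
        by_contra hcon
        push Not at hcon
        simp [hcon] at h4
      obtain ⟨i, hi⟩ := h5
      exact ⟨i.1, fun _ _ => ⟨i.2, hi⟩⟩
    · exact ⟨0, fun a b => absurd ⟨a, b⟩ h⟩
  choose c hc using hex
  refine ⟨fun u v => if χ u = true ∧ χ v = false then c u v else
    if χ v = true ∧ χ u = false then c v u else 0, ?_, ?_, ?_⟩
  · intro u v
    cases hu : χ u <;> cases hv : χ v <;> simp [hu, hv]
  · intro u v h
    have hne := hχ u v h
    cases hu : χ u
    · cases hv : χ v
      · rw [hu, hv] at hne; exact absurd rfl hne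
      · simp only [hu, hv, Bool.false_eq_true, false_and, if_false, and_self, if_true]
        exact (hc v u h.symm hv).1
    · cases hv : χ v
      · simp only [hu, hv, and_self, if_true]
        exact (hc u v h hu).1
      · rw [hu, hv] at hne; exact absurd rfl hne
  · intro u v w h h' he
    have hne := hχ u v h
    have hne' := hχ u w h'
    cases hu : χ u
    · have hv : χ v = true := by
        cases hv : χ v
        · rw [hu, hv] at hne; exact absurd rfl hne
        · rfl
      have hw : χ w = true := by
        cases hw : χ w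
        · rw [hu, hw] at hne'; exact absurd rfl hne'
        · rfl
      simp only [hu, hv, hw] at he
      simp only [Bool.false_eq_true, false_and, if_false, and_self, if_true] at he
      obtain ⟨h4, h5⟩ := hc v u h.symm hv
      obtain ⟨h6, h7⟩ := hc w u h'.symm hw
      have h8 : (⟨c v u, h4⟩ : Fin L) = ⟨c w u, h6⟩ := Fin.ext he
      rw [h8] at h5
      exact (σ ⟨c w u, h6⟩).injective (h5.trans h7.symm)
    · have hv : χ v = false := by
        cases hv : χ v
        · rfl
        · rw [hu, hv] at hne; exact absurd rfl hne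
      have hw : χ w = false := by
        cases hw : χ w
        · rfl
        · rw [hu, hw] at hne'; exact absurd rfl hne'
      simp only [hu, hv, hw] at he
      simp only [and_self, if_true] at he
      obtain ⟨h4, h5⟩ := hc u v h hu
      obtain ⟨h6, h7⟩ := hc u w h' hu
      have h8 : (⟨c u v, h4⟩ : Fin L) = ⟨c u w, h6⟩ := Fin.ext he
      rw [← h5, ← h7, h8]

end Pool.Agent.TH525.LAD
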