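import Mathlib.Tactic

/-!
# Arithmetic of the positions on a circuit
-/

set_option autoImplicit false

namespace Pool.Agent.W5h14.Circ

/-- the positions `i` and `j` on a circuit of length `L` are equal or at distance at least `k` -/
def D (L i j k : ℕ) : Prop :=
  (i < j → k ≤ j - i ∧ k + (j - i) ≤ L) ∧ (j < i → k ≤ i - j ∧ k + (i - j) ≤ L)

theorem D.symm {L i j k : ℕ} (h : D L i j k) : D L j i k := ⟨h.2, h.1⟩

theorem D.cases {L i j k : ℕ} (h : D L i j k) (hne : i ≠ j) :
    (i + k ≤ j ∧ k + j ≤ L + i) ∨ (j + k ≤ i ∧ k + i ≤ L + j) := by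
  rcases Nat.lt_or_gt_of_ne hne with h1 | h1
  · have := h.1 h1
    left; omega
  · have := h.2 h1
    right; omega

/-- the lengths of the path -/
theorem ar1 {L N i1 i2 j1 j2 : ℕ} (hL : L ≤ 15) (hN : 3 ≤ N)
    (hi : i1 < i2) (hj : j1 < j2) (hiL : i2 < L) (hjL : j2 < L)
    (a : D L i1 i2 3) (b : D L j1 j2 3) (c11 : D L i1 j1 (N + 1)) (c12 : D L i1 j2 (N + 1))
    (c21 : D L i2 j1 (N + 1)) (c22 : D L i2 j2 (N + 1)) (hne : ¬ (i1 = j1 ∧ i2 = j2)) :
    N = 3 ∨ (N = 4 ∧ L = 15 ∧ (i1 = j1 ∨ i1 = j2 ∨ i2 = j1 ∨ i2 = j2)) := by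
  have a' := a.1 hi
  have b' := b.1 hj
  by_cases h11 : i1 = j1
  · subst h11
    have h22 : i2 ≠ j2 := fun h => hne ⟨rfl, h⟩
    have := c12.1 (by omega)
    have := c21.2 (by omega)
    rcases c22.cases h22 with h | h <;> omega
  · by_cases h22 : i2 = j2
    · subst h22
      have := c12.1 (by omega)
      have := c21.2 (by omega)
      rcases c11.cases h11 with h | h <;> omega
    · by_cases h12 : i1 = j2
      · subst h12
        have := c11.2 (by omega)
        have := c21.2 (by omega)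
        have := c22.2 (by omega)
        omega
      · by_cases h21 : i2 = j1
        · subst h21
          have := c11.1 (by omega)
          have := c12.1 (by omega)
          have := c22.1 (by omega)
          omega
        · rcases c11.cases h11 with h1 | h1 <;> rcases c22.cases h22 with h2 | h2 <;>
            rcases c12.cases h12 with h3 | h3 <;> rcases c21.cases h21 with h4 | h4 <;> omega

/-- three vertices, the middle one has a neighbour on the circuit -/
theorem ar2 {L i1 i2 j1 j2 k : ℕ} (hL : L ≤ 15)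
    (hi : i1 < i2) (hj : j1 < j2) (a : D L i1 i2 3) (b : D L j1 j2 3)
    (c11 : D L i1 j1 4) (c12 : D L i1 j2 4)
    (c21 : D L i2 j1 4) (c22 : D L i2 j2 4) (hne : i1 ≠ j1 ∧ i1 ≠ j2 ∧ i2 ≠ j1 ∧ i2 ≠ j2)
    (d1 : D L k i1 3) (d2 : D L k i2 3) (e1 : D L k j1 3) (e2 : D L k j2 3)
    (f1 : k ≠ i1) (f2 : k ≠ i2) (f3 : k ≠ j1) (f4 : k ≠ j2) : False := by
  have a' := a.1 hi
  have b' := b.1 hj
  rcases c11.cases hne.1 with h1 | h1 <;> rcases c22.cases hne.2.2.2 with h2 | h2 <;>
    rcases c12.cases hne.2.1 with h3 | h3 <;> rcases c21.cases hne.2.2.1 with h4 | h4 <;>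
    first
    | omega
    | (rcases d1.cases f1 with g1 | g1 <;> rcases d2.cases f2 with g2 | g2 <;>
        rcases e1.cases f3 with g3 | g3 <;> rcases e2.cases f4 with g4 | g4 <;> omega)

/-- four vertices -/
theorem ar4 {L i1 i2 j1 j2 k : ℕ} (hL : L ≤ 15)
    (hi : i1 < i2) (hj : j1 < j2) (hiL : i2 < L) (hjL : j2 < L)
    (c11 : D L i1 j1 5) (c12 : D L i1 j2 5)
    (c21 : D L i2 j1 5) (c22 : D L i2 j2 5) (hne : ¬ (i1 = j1 ∧ i2 = j2))
    (hs : i1 = j1 ∨ i1 = j2 ∨ i2 = j1 ∨ i2 = j2)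
    (d1 : D L k i1 3) (d2 : D L k i2 3) (e1 : D L k j1 4) (e2 : D L k j2 4)
    (f1 : k ≠ i1) (f2 : k ≠ i2) : k = j1 ∨ k = j2 := by
  by_contra hcon
  rw [not_or] at hcon
  obtain ⟨f3, f4⟩ := hcon
  rcases hs with h | h | h | h
  · subst h
    have := c12.1 (by omega)
    have := c21.2 (by omega)
    rcases c22.cases (by omega) with h2 | h2 <;>
    rcases d1.cases f1 with g1 | g1 <;> rcases d2.cases f2 with g2 | g2 <;>
        rcases e1.cases f3 with g3 | g3 <;> rcases e2.cases f4 with g4 | g4 <;> omega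
  · subst h
    have := c11.2 (by omega)
    have := c22.2 (by omega)
    rcases c21.cases (by omega) with h2 | h2 <;>
    rcases d1.cases f1 with g1 | g1 <;> rcases d2.cases f2 with g2 | g2 <;>
        rcases e1.cases f3 with g3 | g3 <;> rcases e2.cases f4 with g4 | g4 <;> omega
  · subst h
    have := c11.1 (by omega)
    have := c22.1 (by omega)
    rcases c12.cases (by omega) with h2 | h2 <;>
    rcases d1.cases f1 with g1 | g1 <;> rcases d2.cases f2 with g2 | g2 <;>
        rcases e1.cases f3 with g3 | g3 <;> rcases e2.cases f4 with g4 | g4 <;> omega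
  · subst h
    have := c12.1 (by omega)
    have := c21.2 (by omega)
    rcases c11.cases (by omega) with h2 | h2 <;>
    rcases d1.cases f1 with g1 | g1 <;> rcases d2.cases f2 with g2 | g2 <;>
        rcases e1.cases f3 with g3 | g3 <;> rcases e2.cases f4 with g4 | g4 <;> omega

/-- four positions -/
theorem ar5 {L : ℕ} (hL : L ≤ 15) (p : Fin 4 → ℕ) (hp : ∀ i, p i < L)
    (h : ∀ i j, i ≠ j → p i ≠ p j ∧ D L (p i) (p j) 4) : False := by
  obtain ⟨a1, b1⟩ := h 0 1 (by decide)
  obtain ⟨a2, b2⟩ := h 0 2 (by decide)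
  obtain ⟨a3, b3⟩ := h 0 3 (by decide)
  obtain ⟨a4, b4⟩ := h 1 2 (by decide)
  obtain ⟨a5, b5⟩ := h 1 3 (by decide)
  obtain ⟨a6, b6⟩ := h 2 3 (by decide)
  generalize p 0 = x at *
  generalize p 1 = y at *
  generalize p 2 = z at *
  generalize p 3 = w at *
  rcases b1.cases a1 with h1 | h1 <;> rcases b2.cases a2 with h2 | h2 <;>
    rcases b3.cases a3 with h3 | h3 <;> rcases b4.cases a4 with h4 | h4 <;>
    rcases b5.cases a5 with h5 | h5 <;> rcases b6.cases a6 with h6 | h6 <;> omega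

end Pool.Agent.W5h14.Circ
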