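import Mathlib.Data.Finset.Card
import Mathlib.Data.List.Nodup
import Mathlib.Data.List.Chain
import Mathlib.Data.Fintype.Card
import Mathlib.Tactic

/-!
# Circuits as periodic functions and as lists
-/

set_option autoImplicit false

namespace Pool.Agent.W5h14.Circ

/-- `c 0, ..., c (L - 1)` is a circuit of the graph with adjacency relation `R` -/
structure PC {V : Type} (R : V → V → Prop) (L : ℕ) (c : ℕ → V) : Prop where
  pos : 0 < L
  per : ∀ i, c (i + L) = c i
  inj : ∀ i j, i < L → j < L → c i = c j → i = j
  adj : ∀ i, R (c i) (c (i + 1))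

variable {V : Type} {R : V → V → Prop} {L : ℕ} {c : ℕ → V}

theorem PC.per_mul (h : PC R L c) (i k : ℕ) : c (i + L * k) = c i := by
  induction k with
  | zero => simp
  | succ k ih => rw [Nat.mul_succ, ← Nat.add_assoc, h.per, ih]

theorem PC.mod (h : PC R L c) (i : ℕ) : c (i % L) = c i := by
  conv_rhs => rw [← Nat.mod_add_div i L]
  rw [h.per_mul]

theorem PC.eq_iff (h : PC R L c) (i j : ℕ) : c i = c j ↔ i % L = j % L := by
  constructor
  · intro h1
    rw [← h.mod i, ← h.mod j] at h1
    exact h.inj _ _ (Nat.mod_lt _ h.pos) (Nat.mod_lt _ h.pos) h1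
  · intro h1
    rw [← h.mod i, ← h.mod j, h1]

theorem PC.rot (h : PC R L c) (k : ℕ) : PC R L (fun i => c (i + k)) where
  pos := h.pos
  per := fun i => by
    rw [show i + L + k = (i + k) + L by ring]
    exact h.per _
  inj := by
    intro i j hi hj hij
    have h1 := (h.eq_iff _ _).1 hij
    have h2 : i % L = j % L := Nat.ModEq.add_right_cancel' k h1
    rwa [Nat.mod_eq_of_lt hi, Nat.mod_eq_of_lt hj] at h2
  adj := fun i => by
    rw [show i + 1 + k = i + k + 1 by ring]
    exact h.adj _

/-- an arc of the circuit -/
def arc (c : ℕ → V) (j k : ℕ) : List V := (List.range k).map (fun t => c (j + t))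

theorem arc_succ (c : ℕ → V) (j k : ℕ) : arc c j (k + 1) = arc c j k ++ [c (j + k)] := by
  unfold arc
  rw [List.range_succ, List.map_append]
  rfl

theorem arc_cons (c : ℕ → V) (j k : ℕ) : arc c j (k + 1) = c j :: arc c (j + 1) k := by
  unfold arc
  rw [List.range_succ_eq_map, List.map_cons, List.map_map]
  congr 1
  refine List.map_congr_left fun t _ => ?_
  simp only [Function.comp]
  congr 1
  omega

theorem arc_length (c : ℕ → V) (j k : ℕ) : (arc c j k).length = k := by
  unfold arc
  simp

theorem mem_arc {x : V} {j k : ℕ} : x ∈ arc c j k ↔ ∃ t < k, c (j + t) = x := by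
  unfold arc
  simp

theorem PC.arc_nodup (h : PC R L c) (j : ℕ) {k : ℕ} (hk : k ≤ L) : (arc c j k).Nodup := by
  unfold arc
  refine List.Nodup.map_on ?_ List.nodup_range
  intro x hx y hy hxy
  rw [List.mem_range] at hx hy
  have h1 := (h.eq_iff _ _).1 hxy
  have h2 : x % L = y % L := Nat.ModEq.add_left_cancel' j h1
  rwa [Nat.mod_eq_of_lt (by omega), Nat.mod_eq_of_lt (by omega)] at h2

theorem PC.arc_chain (h : PC R L c) (j k : ℕ) : List.IsChain R (arc c j k) := by
  induction k generalizing j with
  | zero => simp [arc]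
  | succ k ih =>
    rw [arc_cons]
    cases k with
    | zero => simp [arc]
    | succ k =>
      have h1 := ih (j + 1)
      rw [arc_cons] at h1 ⊢
      rw [List.isChain_cons_cons]
      exact ⟨h.adj j, h1⟩

/-- a closed list is a circuit -/
theorem PC.ofList {a : V} {m : List V} (hn : (a :: m).Nodup)
    (hc : List.IsChain R (a :: (m ++ [a]))) :
    ∃ c : ℕ → V, PC R (m.length + 1) c ∧ c 0 = a ∧ (∀ i, c i ∈ a :: m) ∧
      ∀ x ∈ a :: m, ∃ i < m.length + 1, c i = x := by
  set l := a :: m with hl
  have hlen : l.length = m.length + 1 := by rw [hl, List.length_cons]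
  have hpos : 0 < l.length := by omega
  refine ⟨fun i => l[i % l.length]'(Nat.mod_lt _ hpos), ?_, ?_, ?_, ?_⟩
  · rw [← hlen]
    refine ⟨hpos, fun i => by simp, ?_, ?_⟩
    · intro i j hi hj hij
      have h1 := (List.Nodup.getElem_inj_iff hn).1 hij
      rwa [Nat.mod_eq_of_lt hi, Nat.mod_eq_of_lt hj] at h1
    · intro i
      have h1 : List.IsChain R (l ++ [a]) := hc
      rw [List.isChain_iff_getElem] at h1
      have hi : i % l.length < l.length := Nat.mod_lt _ hpos
      have h2 := h1 (i % l.length) (by rw [List.length_append]; simp; omega)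
      rw [List.getElem_append_left hi] at h2
      by_cases h3 : i % l.length + 1 < l.length
      · rw [List.getElem_append_left h3] at h2
        have h4 : (i + 1) % l.length = i % l.length + 1 := by
          rw [Nat.add_mod, Nat.mod_eq_of_lt (a := i % l.length + 1 % l.length)]
          · rw [Nat.mod_eq_of_lt (a := 1) (by omega)]
          · rw [Nat.mod_eq_of_lt (a := 1) (by omega)]
            exact h3
        simp only [h4]
        exact h2
      · have h4 : i % l.length + 1 = l.length := by omega
        rw [List.getElem_append_right (by omega)] at h2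
        have h5 : (i + 1) % l.length = 0 := by
          have h6 := Nat.mod_add_div i l.length
          have h7 : i + 1 = l.length * (i / l.length + 1) := by
            rw [Nat.mul_add, Nat.mul_one]
            omega
          rw [h7, Nat.mul_mod_right]
        simp only [h5]
        simpa [hl] using h2
  · simp [hl]
  · intro i
    exact List.getElem_mem _
  · intro x hx
    obtain ⟨i, hi, rfl⟩ := List.getElem_of_mem hx
    exact ⟨i, by omega, by simp [Nat.mod_eq_of_lt hi]⟩

/-- the longest circuits in terms of lists -/
theorem nl_of {K : ℕ} (h : ∀ k, K < k → ∀ c : ℕ → V, ¬ PC R k c) {a : V} {m : List V}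
    (hn : (a :: m).Nodup) (hc : List.IsChain R (a :: (m ++ [a]))) : m.length + 1 ≤ K := by
  by_contra hlt
  obtain ⟨c, h1, _⟩ := PC.ofList hn hc
  exact h _ (by omega) c h1

end Pool.Agent.W5h14.Circ
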