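import Pool.Agent.H79.LF.TH676_T4_Pet
import Pool.Agent.H79.LF.W5h14_Circ_Cyc

/-!
# The graphs without long circuits are closed under minors
-/

set_option autoImplicit false
set_option linter.unusedSectionVars false

namespace Pool.Agent.W5h14.Circ

open Finset Pool.Agent.TH462.T4 Pool.Agent.TH676.T4

variable {V E : Type} [Fintype V] [DecidableEq V] [Fintype E] [DecidableEq E]

/-- two different vertices which are joined by an edge -/
def Ad (src dst : E → V) (x y : V) : Prop := x ≠ y ∧ ∃ e, JV src dst e x y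

theorem Ad.symm {src dst : E → V} {x y : V} (h : Ad src dst x y) : Ad src dst y x :=
  ⟨h.1.symm, by
    obtain ⟨e, h1 | h1⟩ := h.2
    · exact ⟨e, Or.inr h1⟩
    · exact ⟨e, Or.inl h1⟩⟩

/-- no circuit has more than `K` edges -/
def Cl (K : ℕ) (src dst : E → V) : Prop := ∀ k, K < k → ∀ c : ℕ → V, ¬ PC (Ad src dst) k c

theorem PC.mono {R R' : V → V → Prop} {k : ℕ} {c : ℕ → V} (h : PC R k c)
    (hR : ∀ i, R (c i) (c (i + 1)) → R' (c i) (c (i + 1))) : PC R' k c :=
  ⟨h.pos, h.per, h.inj, fun i => hR i (h.adj i)⟩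

theorem ad_lp {src dst : E → V} {e : E} {x y : V} (h : Ad src (TH462.T4.lp src dst {e}) x y) :
    Ad src dst x y := by
  obtain ⟨hne, d, hd⟩ := h
  by_cases hde : d = e
  · exfalso
    subst hde
    have h1 : TH462.T4.lp src dst {d} d = src d := by unfold TH462.T4.lp; simp
    unfold JV at hd
    rw [h1] at hd
    rcases hd with ⟨a, b⟩ | ⟨a, b⟩
    · exact hne (a.symm.trans b)
    · exact hne (b.symm.trans a)
  · have h1 : TH462.T4.lp src dst {e} d = dst d := by unfold TH462.T4.lp; simp [hde]
    unfold JV at hd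
    rw [h1] at hd
    exact ⟨hne, d, hd⟩

theorem ctr_eq_of_ne {u v x z : V} (h : ctr u v z = x) (hx : x ≠ u) : z = x := by
  unfold ctr at h
  split_ifs at h with h1
  · exact absurd h.symm hx
  · exact h

theorem ctr_eq_u {u v z : V} (h : ctr u v z = u) : z = u ∨ z = v := by
  unfold ctr at h
  split_ifs at h with h1
  · exact Or.inr h1
  · exact Or.inl h

/-- adjacency after contraction -/
theorem ad_ctr {src dst : E → V} {u v : V} (huv : u ≠ v) {x y : V}
    (h : Ad (ctr u v ∘ src) (ctr u v ∘ dst) x y) : x ≠ v ∧ y ≠ v ∧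
      ((x ≠ u → y ≠ u → Ad src dst x y) ∧ (x = u → Ad src dst u y ∨ Ad src dst v y)) := by
  obtain ⟨hne, d, hd⟩ := h
  have hxy : ∃ a b, JV src dst d a b ∧ ctr u v a = x ∧ ctr u v b = y := by
    rcases hd with ⟨a, b⟩ | ⟨a, b⟩
    · exact ⟨src d, dst d, Or.inl ⟨rfl, rfl⟩, a, b⟩
    · exact ⟨dst d, src d, Or.inr ⟨rfl, rfl⟩, b, a⟩
  obtain ⟨a, b, hJ, ha, hb⟩ := hxy
  have hxv : x ≠ v := by rw [← ha]; exact ctr_ne huv a
  have hyv : y ≠ v := by rw [← hb]; exact ctr_ne huv b
  refine ⟨hxv, hyv, ?_, ?_⟩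
  · intro hxu hyu
    have h1 := ctr_eq_of_ne ha hxu
    have h2 := ctr_eq_of_ne hb hyu
    subst h1
    subst h2
    exact ⟨hne, d, hJ⟩
  · intro hxu
    have hyu : y ≠ u := fun h1 => hne (hxu.trans h1.symm)
    have h2 := ctr_eq_of_ne hb hyu
    subst h2
    rw [hxu] at ha
    rcases ctr_eq_u ha with h3 | h3
    · subst h3
      exact Or.inl ⟨hyu.symm, d, hJ⟩
    · subst h3
      exact Or.inr ⟨hyv.symm, d, hJ⟩

/-- a path closed by a vertex -/
theorem close_one {R : V → V → Prop} {k : ℕ} {c : ℕ → V} {w : V} {j : ℕ}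
    (hn : (arc c j k).Nodup) (hc : List.IsChain R (arc c j k)) (hk : 0 < k)
    (hw : w ∉ arc c j k) (h1 : R w (c j)) (h2 : R (c (j + (k - 1))) w) :
    ∃ c', PC R (k + 1) c' := by
  obtain ⟨k, rfl⟩ : ∃ k', k = k' + 1 := ⟨k - 1, by omega⟩
  have h4 : List.IsChain R (w :: (arc c j (k + 1) ++ [w])) := by
    have e1 : w :: (arc c j (k + 1) ++ [w]) = (w :: arc c j (k + 1)) ++ [w] := by simp
    rw [e1, List.isChain_append]
    refine ⟨?_, by simp, ?_⟩
    · rw [arc_cons, List.isChain_cons_cons]
      rw [arc_cons] at hc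
      exact ⟨h1, hc⟩
    · intro x hx y hy
      rw [arc_succ, ← List.cons_append, List.getLast?_concat] at hx
      simp only [Option.mem_def, Option.some.injEq, List.head?_cons] at hx hy
      subst hx
      subst hy
      simpa using h2
  obtain ⟨c', h', _⟩ := PC.ofList (List.nodup_cons.2 ⟨hw, hn⟩) h4
  rw [arc_length] at h'
  exact ⟨c', h'⟩

theorem close_two {R : V → V → Prop} {k : ℕ} {c : ℕ → V} {w w' : V} {j : ℕ}
    (hn : (arc c j k).Nodup) (hc : List.IsChain R (arc c j k)) (hk : 0 < k)
    (hw : w ∉ arc c j k) (hw' : w' ∉ arc c j k) (hww : w ≠ w') (h0 : R w' w) (h1 : R w (c j))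
    (h2 : R (c (j + (k - 1))) w') :
    ∃ c', PC R (k + 2) c' := by
  obtain ⟨k, rfl⟩ : ∃ k', k = k' + 1 := ⟨k - 1, by omega⟩
  have h4 : List.IsChain R (w' :: ((w :: arc c j (k + 1)) ++ [w'])) := by
    have e1 : w' :: ((w :: arc c j (k + 1)) ++ [w']) = (w' :: w :: arc c j (k + 1)) ++ [w'] := by
      simp
    rw [e1, List.isChain_append]
    refine ⟨?_, by simp, ?_⟩
    · rw [List.isChain_cons_cons, arc_cons, List.isChain_cons_cons]
      rw [arc_cons] at hc
      exact ⟨h0, h1, hc⟩
    · intro x hx y hy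
      rw [arc_succ, ← List.cons_append, ← List.cons_append, List.getLast?_concat] at hx
      simp only [Option.mem_def, Option.some.injEq, List.head?_cons] at hx hy
      subst hx
      subst hy
      simpa using h2
  obtain ⟨c', h', _⟩ := PC.ofList (a := w') (m := w :: arc c j (k + 1)) (by
    rw [List.nodup_cons, List.nodup_cons, List.mem_cons, not_or]
    exact ⟨⟨hww.symm, hw'⟩, hw, hn⟩) h4
  rw [List.length_cons, arc_length] at h'
  exact ⟨c', h'⟩

/-- **the class is closed under minors** -/
theorem mc_Cl (K : ℕ) (hK : 2 ≤ K) : MC (V := V) (E := E) (Cl K) where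
  del := fun src dst e h _ k hk c hc => h k hk c (hc.mono fun i hi => ad_lp hi)
  con := by
    intro src dst e h hne k hk c hc
    set u := src e with hu
    set v := dst e with hv
    by_cases hr : ∃ i, c i = u
    · obtain ⟨i0, hi0⟩ := hr
      have hc2 := hc.rot i0
      set c2 : ℕ → V := fun i => c (i + i0) with hc2def
      have h0 : c2 0 = u := by rw [hc2def]; simp only; rw [Nat.zero_add]; exact hi0
      have hmem : ∀ x ∈ arc c2 1 (k - 1), x ≠ u ∧ x ≠ v := by
        intro x hx
        obtain ⟨t, ht, rfl⟩ := mem_arc.1 hx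
        refine ⟨fun h1 => ?_, (ad_ctr hne (hc2.adj _)).1⟩
        rw [← h0, hc2.eq_iff, Nat.mod_eq_of_lt (by omega), Nat.zero_mod] at h1
        omega
      have hch : List.IsChain (Ad src dst) (arc c2 1 (k - 1)) := by
        have h1 : ∀ n j, 1 ≤ j → j + n ≤ k → List.IsChain (Ad src dst) (arc c2 j n) := by
          intro n
          induction n with
          | zero => intro j _ _; simp [arc]
          | succ n ih =>
            intro j hj hjn
            rw [arc_cons]
            cases n with
            | zero => simp [arc]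
            | succ n =>
              have h2 := ih (j + 1) (by omega) (by omega)
              rw [arc_cons] at h2 ⊢
              rw [List.isChain_cons_cons]
              refine ⟨?_, h2⟩
              have h3 := (ad_ctr hne (hc2.adj j)).2.2.1
              refine h3 (hmem _ (mem_arc.2 ⟨j - 1, by omega, by congr 1; omega⟩)).1
                (hmem _ (mem_arc.2 ⟨j, by omega, by congr 1; omega⟩)).1
        exact h1 _ _ le_rfl (by omega)
      have hnd : (arc c2 1 (k - 1)).Nodup := hc2.arc_nodup 1 (by omega)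
      have e1 := (ad_ctr hne (hc2.adj 0)).2.2.2 h0
      have e2 : Ad src dst u (c2 (1 + (k - 1 - 1))) ∨ Ad src dst v (c2 (1 + (k - 1 - 1))) := by
        have h1 := hc2.adj (k - 1)
        have h2 : c2 (k - 1 + 1) = u := by
          rw [show k - 1 + 1 = 0 + k by omega, hc2.per]
          exact h0
        rw [h2] at h1
        have h3 := (ad_ctr hne h1.symm).2.2.2 rfl
        rw [show 1 + (k - 1 - 1) = k - 1 by omega]
        exact h3
      simp only [Nat.zero_add] at e1
      have huv : Ad src dst u v := ⟨hne, e, Or.inl ⟨rfl, rfl⟩⟩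
      have hmu : u ∉ arc c2 1 (k - 1) := fun h1 => (hmem u h1).1 rfl
      have hmv : v ∉ arc c2 1 (k - 1) := fun h1 => (hmem v h1).2 rfl
      rcases e1 with e1 | e1 <;> rcases e2 with e2 | e2
      · obtain ⟨c', h'⟩ := close_one hnd hch (by omega) hmu e1 e2.symm
        exact h _ (by omega) c' h'
      · obtain ⟨c', h'⟩ := close_two hnd hch (by omega) hmu hmv hne huv.symm e1 e2.symm
        exact h _ (by omega) c' h'
      · obtain ⟨c', h'⟩ := close_two hnd hch (by omega) hmv hmu hne.symm huv e1 e2.symm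
        exact h _ (by omega) c' h'
      · obtain ⟨c', h'⟩ := close_one hnd hch (by omega) hmv e1 e2.symm
        exact h _ (by omega) c' h'
    · push Not at hr
      exact h k hk c (hc.mono fun i hi => (ad_ctr hne hi).2.2.1 (hr i) (hr (i + 1)))

end Pool.Agent.W5h14.Circ
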