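import Mathlib.Data.Finset.Card
import Mathlib.Data.Nat.Bitwise
import Mathlib.Data.List.Nodup
import Mathlib.Data.List.Chain
import Mathlib.Data.Fintype.Card
import Mathlib.Tactic

/-!
# A search for graphs of girth at least five with a given longest circuit

The vertices which are known are numbered; the vertices of a longest circuit are `0, ..., L - 1`.
`A` and `X` are the known pairs of adjacent and of nonadjacent vertices, as bit patterns.
-/

set_option autoImplicit false

namespace Pool.Agent.W5h14.Circ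

/-- bit `i` of `m` -/
def tb (m i : ℕ) : Bool := Nat.beq (Nat.mod (Nat.shiftRight m i) 2) 1

theorem tb_eq (m i : ℕ) : tb m i = m.testBit i := by
  have h1 : tb m i = decide (m / 2 ^ i % 2 = 1) := by
    unfold tb
    have h2 : Nat.shiftRight m i = m / 2 ^ i := Nat.shiftRight_eq_div_pow m i
    rw [h2, Bool.eq_iff_iff, decide_eq_true_iff]
    exact ⟨fun h => Nat.eq_of_beq_eq_true h, fun h => by
      show Nat.beq (m / 2 ^ i % 2) 1 = true
      rw [h]; rfl⟩
  rw [h1, Nat.testBit_eq_decide_div_mod_eq]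

theorem tb_or (a b i : ℕ) : tb (Nat.lor a b) i = (tb a i || tb b i) := by
  rw [tb_eq, tb_eq, tb_eq]
  exact Nat.testBit_or a b i

theorem tb_pow (k i : ℕ) : tb (2 ^ k) i = true ↔ i = k := by
  rw [tb_eq, Nat.testBit_two_pow]
  simp [eq_comm]

theorem tb_zero (i : ℕ) : tb 0 i = false := by
  rw [tb_eq]; simp

/-- the row of `v` -/
def row (A v : ℕ) : ℕ := Nat.mod (Nat.shiftRight A (32 * v)) 4294967296

theorem tb_row (A v j : ℕ) : tb (row A v) j = true ↔ j < 32 ∧ tb A (32 * v + j) = true := by
  rw [tb_eq, tb_eq]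
  have h1 : row A v = (A >>> (32 * v)) % 2 ^ 32 := by
    unfold row
    norm_num
    rfl
  rw [h1, Nat.testBit_mod_two_pow, Nat.testBit_shiftRight]
  simp

/-- the union of the rows of the elements of `m` which are less than the last argument -/
def ors (A m : ℕ) : ℕ → ℕ
  | 0 => 0
  | i + 1 => cond (tb m i) (Nat.lor (row A i) (ors A m i)) (ors A m i)

theorem tb_ors (A m j : ℕ) : ∀ k, tb (ors A m k) j = true → ∃ i, tb m i = true ∧ tb (row A i) j = true
  | 0, h => by rw [ors, tb_zero] at h; exact absurd h (by simp)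
  | k + 1, h => by
    rw [ors] at h
    by_cases h1 : tb m k = true
    · rw [h1, cond_true, tb_or, Bool.or_eq_true] at h
      rcases h with h | h
      · exact ⟨k, h1, h⟩
      · exact tb_ors A m j k h
    · rw [Bool.not_eq_true] at h1
      rw [h1, cond_false] at h
      exact tb_ors A m j k h

/-- the rest of a long circuit -/
def okc (A L a : ℕ) : ℕ → ℕ → ℕ → ℕ → ℕ → Bool
  | 0, _, _, _, _ => false
  | f + 1, d, prev, mask, cnt =>
    cond (Nat.beq d 1) (tb A (32 * prev + a) && Nat.blt L cnt)
      (tb A (32 * prev + Nat.mod d 32) && (!(tb mask (Nat.mod d 32)) &&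
        okc A L a f (Nat.div d 32) (Nat.mod d 32) (Nat.lor mask (2 ^ Nat.mod d 32)) (cnt + 1)))

/-- a long circuit -/
def cyck (A L d : ℕ) : Bool :=
  okc A L (Nat.mod d 32) 32 (Nat.div d 32) (Nat.mod d 32) (2 ^ Nat.mod d 32) 1

/-- `v` has a known neighbour outside of the circuit -/
def onb (A L v : ℕ) : Bool := Nat.ble L v && !(Nat.beq (Nat.shiftRight (row A v) L) 0)

/-- the vertex `v` has at most the neighbours `x`, `y` among the known vertices -/
def cand (L n A X v x y : ℕ) : Bool :=
  let m2 := Nat.lor (cond (tb A (32 * v + x)) (row A x) 0) (cond (tb A (32 * v + y)) (row A y) 0)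
  let xy := Nat.lor (2 ^ x) (2 ^ y)
  let o := cond (onb A L v) (Nat.shiftLeft (2 ^ n - 1) L) 0
  let M := Nat.lor (Nat.lor (Nat.lor (2 ^ v) xy) (Nat.lor m2 (ors A m2 n))) (Nat.lor (row X v) o)
  (Nat.blt v n && Nat.beq (Nat.lor (row A v) xy) xy) && Nat.beq (Nat.lor (2 ^ n - 1) M) M

/-- the parameters of an item -/
def p0 (c : ℕ) : ℕ := Nat.mod (Nat.div c 8) 32
def p1 (c : ℕ) : ℕ := Nat.mod (Nat.div c 256) 32
def p2 (c : ℕ) : ℕ := Nat.mod (Nat.div c 8192) 32

/-- add the pair `v`, `w` -/
def addp (A v w : ℕ) : ℕ := Nat.lor A (Nat.lor (2 ^ (32 * v + w)) (2 ^ (32 * w + v)))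

/-- `x`, `y`, `z` would be a path outside of the circuit, if `x` and `y` were adjacent -/
def p3k (A L n x y z : ℕ) : Bool :=
  ((Nat.ble L x && Nat.ble L y) && (Nat.ble L z && !(Nat.beq x z))) &&
    ((Nat.blt x n && Nat.blt y n) && tb A (32 * y + z))

/-- `o` is adjacent to `x` and would have the close neighbours `x` and `y` on the circuit -/
def gapk (A L g n o x y : ℕ) : Bool :=
  ((Nat.ble L o && Nat.blt o n) && ((Nat.blt x L && Nat.blt y L) && tb A (32 * o + x))) &&
    ((Nat.blt x y && (Nat.blt y (x + g) || Nat.blt (L + x) (y + g))) ||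
      (Nat.blt y x && (Nat.blt x (y + g) || Nat.blt (L + y) (x + g))))

/-- the check -/
def go (K : List (ℕ × ℕ × ℕ)) (L g : ℕ) : ℕ → ℕ → ℕ → ℕ → List ℕ → Option (List ℕ)
  | 0, _, _, _, _ => none
  | _ + 1, _, _, _, [] => none
  | k + 1, n, A, X, c :: s =>
    cond (Nat.beq (Nat.mod c 8) 1)
      -- a long circuit if `p0 c` and `p1 c` are adjacent
      (cond ((Nat.blt (p0 c) n && Nat.blt (p1 c) n) && cyck (addp A (p0 c) (p1 c)) L (Nat.div c 8))
        (go K L g k n A (addp X (p0 c) (p1 c)) s) none)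
      (cond (Nat.beq (Nat.mod c 8) 0)
        -- two cases
        (cond (Nat.blt (p0 c) n && Nat.blt (p1 c) n)
          (match go K L g k n (addp A (p0 c) (p1 c)) X s with
          | none => none
          | some s' => go K L g k n A (addp X (p0 c) (p1 c)) s')
          none)
        (cond (Nat.beq (Nat.mod c 8) 2)
          -- a vertex without further neighbours
          (cond (cand L n A X (p0 c) (p1 c) (p2 c) && onb A L (p0 c)) (some s) none)
          (cond (Nat.beq (Nat.mod c 8) 3)
            -- a vertex with a new neighbour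
            (cond (cand L n A X (p0 c) (p1 c) (p2 c) && Nat.blt n 32)
              (go K L g k (n + 1) (addp A (p0 c) n) X s) none)
            (cond (Nat.beq (Nat.mod c 8) 4)
              -- a new vertex
              (cond (Nat.blt n 18) (go K L g k (n + 1) A X s) none)
              (cond (Nat.beq (Nat.mod c 8) 5)
                (cond (p3k A L n (p0 c) (p1 c) (p2 c))
                  (go K L g k n A (addp X (p0 c) (p1 c)) s) none)
                (cond (Nat.beq (Nat.mod c 8) 6)
                  (cond (gapk A L g n (p0 c) (p1 c) (p2 c))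
                    (go K L g k n A (addp X (p0 c) (p2 c)) s) none)
                  -- a state which was treated before
                  (match K[Nat.div c 8]? with
                  | none => none
                  | some t => cond (Nat.beq t.1 n && (Nat.beq t.2.1 A && Nat.beq t.2.2 X))
                      (some s) none)))))))

/-- the properties of the graph -/
structure Hy {V : Type} (R : V → V → Prop) (L g : ℕ) (c : ℕ → V) : Prop where
  symm : ∀ x y, R x y → R y x
  tri : ∀ a b c, R a b → R b c → R c a → False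
  four : ∀ a b c d, a ≠ c → b ≠ d → R a b → R b c → R c d → R d a → False
  deg : ∀ v w, R v w → ∀ x y, ∃ z, R v z ∧ z ≠ x ∧ z ≠ y
  nl : ∀ a m, (a :: m).Nodup → List.IsChain R (a :: (m ++ [a])) → m.length + 1 ≤ L
  many : ∀ S : Finset V, S.card < 18 → ∃ v, v ∉ S ∧ ∃ w, R v w
  p3 : ∀ x y z, (∀ i < L, c i ≠ x) → (∀ i < L, c i ≠ y) → (∀ i < L, c i ≠ z) → R x y → R y z →
    x = z
  gap : ∀ u, (∀ i < L, c i ≠ u) → ∀ i j, i < j → j < L → R u (c i) → R u (c j) →
    g ≤ j - i ∧ g ≤ L - (j - i)

/-- the known part of the graph -/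
structure Emb {V : Type} (R : V → V → Prop) (L : ℕ) (c : ℕ → V) (n A X : ℕ) (φ : ℕ → V) :
    Prop where
  n32 : n ≤ 32
  Ln : L ≤ n
  inj : ∀ i j, i < n → j < n → φ i = φ j → i = j
  nis : ∀ i, i < n → ∃ w, R (φ i) w
  adj : ∀ i j, j < 32 → tb A (32 * i + j) = true → i < n ∧ j < n ∧ R (φ i) (φ j)
  exc : ∀ i j, j < 32 → tb X (32 * i + j) = true → i < n ∧ j < n ∧ ¬ R (φ i) (φ j)
  cc : ∀ i, i < L → φ i = c i
  out : ∀ i, L ≤ i → i < n → ∀ j < L, c j ≠ φ i

/-- the state is impossible -/
def Ref {V : Type} (R : V → V → Prop) (L : ℕ) (c : ℕ → V) (n A X : ℕ) : Prop :=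
  ∀ φ : ℕ → V, Emb R L c n A X φ → False

section
variable {V : Type} {R : V → V → Prop} {L g : ℕ} {c : ℕ → V} {n A X : ℕ} {φ : ℕ → V}

theorem irr (h : Hy R L g c) (x : V) : ¬ R x x := fun h1 => h.tri x x x h1 h1 h1

theorem okc_sound {a : ℕ} (ha : a < 32) : ∀ (f d prev mask cnt : ℕ), okc A L a f d prev mask cnt = true →
    ∃ l : List ℕ, List.IsChain (fun x y => y < 32 ∧ tb A (32 * x + y) = true) (prev :: (l ++ [a])) ∧
      l.Nodup ∧ (∀ x ∈ l, tb mask x = false) ∧ L < cnt + l.length
  | 0, _, _, _, _, h => by simp [okc] at h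
  | f + 1, d, prev, mask, cnt, h => by
    rw [okc] at h
    by_cases h1 : Nat.beq d 1 = true
    · rw [h1, cond_true, Bool.and_eq_true] at h
      refine ⟨[], ?_, List.nodup_nil, by simp, ?_⟩
      · simp only [List.nil_append, List.isChain_cons_cons, List.isChain_singleton, and_true]
        exact ⟨ha, h.1⟩
      · simpa using h.2
    · rw [Bool.not_eq_true] at h1
      rw [h1, cond_false, Bool.and_eq_true, Bool.and_eq_true] at h
      obtain ⟨h2, h3, h4⟩ := h
      obtain ⟨l, l1, l2, l3, l4⟩ := okc_sound ha f _ _ _ _ h4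
      have h5 : Nat.mod d 32 < 32 := Nat.mod_lt _ (by norm_num)
      generalize Nat.mod d 32 = x at *
      refine ⟨x :: l, ?_, ?_, ?_, ?_⟩
      · rw [List.cons_append, List.isChain_cons_cons]
        exact ⟨⟨h5, h2⟩, l1⟩
      · rw [List.nodup_cons]
        refine ⟨fun hx => ?_, l2⟩
        have h6 := l3 x hx
        rw [tb_or, Bool.or_eq_false_iff] at h6
        have h7 := (tb_pow x x).2 rfl
        rw [h6.2] at h7
        exact absurd h7 (by simp)
      · intro y hy
        rcases List.mem_cons.1 hy with rfl | hy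
        · simpa using h3
        · have h6 := l3 y hy
          rw [tb_or, Bool.or_eq_false_iff] at h6
          exact h6.1
      · rw [List.length_cons]
        omega

theorem cyck_sound (h : Hy R L g c) (hE : Emb R L c n A X φ) {d : ℕ} (hc : cyck A L d = true) :
    False := by
  unfold cyck at hc
  have ha : Nat.mod d 32 < 32 := Nat.mod_lt _ (by norm_num)
  obtain ⟨l, l1, l2, l3, l4⟩ := okc_sound ha _ _ _ _ _ hc
  generalize Nat.mod d 32 = a at *
  have hal : a ∉ l := by
    intro hx
    have h6 := l3 a hx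
    have h7 := (tb_pow a a).2 rfl
    rw [h6] at h7
    exact absurd h7 (by simp)
  -- all vertices are known
  have hlt : ∀ x ∈ a :: (l ++ [a]), x < n := by
    have h1 : ∀ (m : List ℕ) (b : ℕ), List.IsChain (fun x y => y < 32 ∧ tb A (32 * x + y) = true)
        (b :: m) → ∀ x ∈ m, x < n := by
      intro m
      induction m with
      | nil => intro b _ x hx; simp at hx
      | cons y m ih =>
        intro b hb x hx
        rw [List.isChain_cons_cons] at hb
        rcases List.mem_cons.1 hx with rfl | hx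
        · exact (hE.adj b x hb.1.1 hb.1.2).2.1
        · exact ih y hb.2 x hx
    intro x hx
    rcases List.mem_cons.1 hx with rfl | hx
    · exact h1 _ _ l1 x (by simp)
    · exact h1 _ _ l1 x hx
  have hnd : ((a :: l).map φ).Nodup := by
    refine List.Nodup.map_on ?_ (List.nodup_cons.2 ⟨hal, l2⟩)
    intro x hx y hy hxy
    refine hE.inj x y (hlt x ?_) (hlt y ?_) hxy
    · rcases List.mem_cons.1 hx with rfl | hx
      · simp
      · simp [hx]
    · rcases List.mem_cons.1 hy with rfl | hy
      · simp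
      · simp [hy]
  have hch : List.IsChain R (φ a :: (l.map φ ++ [φ a])) := by
    have h2 : φ a :: (l.map φ ++ [φ a]) = (a :: (l ++ [a])).map φ := by simp
    rw [h2, List.isChain_map]
    refine List.IsChain.imp ?_ l1
    rintro x y ⟨hy, hxy⟩
    exact (hE.adj x y hy hxy).2.2
  have h3 := h.nl (φ a) (l.map φ) hnd hch
  rw [List.length_map] at h3
  omega

theorem beq_lor {a b : ℕ} (h : Nat.beq (Nat.lor a b) b = true) {j : ℕ} (hj : tb a j = true) :
    tb b j = true := by
  have h1 := Nat.eq_of_beq_eq_true h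
  rw [← h1, tb_or, hj, Bool.true_or]

theorem tb_full {n j : ℕ} (h : j < n) : tb (2 ^ n - 1) j = true := by
  rw [tb_eq, Nat.testBit_two_pow_sub_one]
  simpa using h

theorem onb_sound {v : ℕ} (h : onb A L v = true) :
    L ≤ v ∧ ∃ u, L ≤ u ∧ u < 32 ∧ tb A (32 * v + u) = true := by
  unfold onb at h
  rw [Bool.and_eq_true] at h
  obtain ⟨h1, h2⟩ := h
  refine ⟨by simpa using h1, ?_⟩
  have h3 : (row A v) >>> L ≠ 0 := by
    intro h4
    have h5 : Nat.shiftRight (row A v) L = 0 := h4
    rw [h5] at h2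
    simp at h2
  obtain ⟨i, hi⟩ := Nat.exists_testBit_of_ne_zero h3
  rw [Nat.testBit_shiftRight, ← tb_eq, tb_row] at hi
  exact ⟨L + i, by omega, hi.1, hi.2⟩

/-- the new neighbour of `v` -/
theorem cand_sound (h : Hy R L g c) (hE : Emb R L c n A X φ) {v x y : ℕ} (hx32 : x < 32)
    (hy32 : y < 32) (hc : cand L n A X v x y = true) :
    v < n ∧ ∃ z, R (φ v) z ∧ (∀ j, j < n → z ≠ φ j) := by
  unfold cand at hc
  simp only [Bool.and_eq_true] at hc
  obtain ⟨⟨hv, hr⟩, hM⟩ := hc
  have hv' : v < n := by simpa using hv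
  refine ⟨hv', ?_⟩
  obtain ⟨w, hw⟩ := hE.nis v hv'
  obtain ⟨z, z1, z2, z3⟩ := h.deg (φ v) w hw (φ x) (φ y)
  refine ⟨z, z1, fun j hj hzj => ?_⟩
  subst hzj
  have hjx : j ≠ x := fun h1 => z2 (by rw [h1])
  have hjy : j ≠ y := fun h1 => z3 (by rw [h1])
  have hj32 : j < 32 := lt_of_lt_of_le hj hE.n32
  -- known neighbours of `v` are `x` or `y`
  have hrow : ∀ i, i < 32 → tb A (32 * v + i) = true → i = x ∨ i = y := by
    intro i hi h1
    have h2 := beq_lor hr ((tb_row A v i).2 ⟨hi, h1⟩)
    rw [tb_or, Bool.or_eq_true, tb_pow, tb_pow] at h2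
    exact h2
  have hm2 : ∀ i, tb (Nat.lor (cond (tb A (32 * v + x)) (row A x) 0)
      (cond (tb A (32 * v + y)) (row A y) 0)) i = true →
      ∃ u, (u = x ∨ u = y) ∧ tb A (32 * v + u) = true ∧ i < 32 ∧ tb A (32 * u + i) = true := by
    intro i hi
    rw [tb_or, Bool.or_eq_true] at hi
    rcases hi with hi | hi
    · by_cases h1 : tb A (32 * v + x) = true
      · rw [h1, cond_true, tb_row] at hi
        exact ⟨x, Or.inl rfl, h1, hi⟩
      · rw [Bool.not_eq_true] at h1
        rw [h1, cond_false, tb_zero] at hi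
        exact absurd hi (by simp)
    · by_cases h1 : tb A (32 * v + y) = true
      · rw [h1, cond_true, tb_row] at hi
        exact ⟨y, Or.inr rfl, h1, hi⟩
      · rw [Bool.not_eq_true] at h1
        rw [h1, cond_false, tb_zero] at hi
        exact absurd hi (by simp)
  have hu32 : ∀ u, (u = x ∨ u = y) → u < 32 := by
    rintro u (rfl | rfl)
    · exact hx32
    · exact hy32
  have key := beq_lor hM (tb_full hj)
  generalize Nat.lor (cond (tb A (32 * v + x)) (row A x) 0)
      (cond (tb A (32 * v + y)) (row A y) 0) = m2 at key hm2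
  simp only [tb_or, Bool.or_eq_true, tb_pow] at key
  rcases key with ((h1 | h1 | h1) | h1 | h1) | h1 | h1
  · subst h1
    exact irr h _ z1
  · exact hjx h1
  · exact hjy h1
  · -- a triangle
    obtain ⟨u, hu, h2, h3, h4⟩ := hm2 j h1
    obtain ⟨_, _, h5⟩ := hE.adj v u (hu32 u hu) h2
    obtain ⟨_, _, h6⟩ := hE.adj u j h3 h4
    exact h.tri _ _ _ h5 h6 (h.symm _ _ z1)
  · -- a circuit with four edges
    obtain ⟨i, hi, h7⟩ := tb_ors _ _ _ _ h1
    obtain ⟨u, hu, h2, h3, h4⟩ := hm2 i hi
    obtain ⟨_, hun, h5⟩ := hE.adj v u (hu32 u hu) h2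
    obtain ⟨_, hin, h6⟩ := hE.adj u i h3 h4
    rw [tb_row] at h7
    obtain ⟨_, _, h8⟩ := hE.adj i j h7.1 h7.2
    have hvi : v ≠ i := by
      rintro rfl
      rcases hrow j h7.1 h7.2 with h9 | h9
      · exact hjx h9
      · exact hjy h9
    have huj : u ≠ j := by
      rintro rfl
      rcases hu with h9 | h9
      · exact hjx h9
      · exact hjy h9
    exact h.four _ _ _ _ (fun h9 => hvi (hE.inj _ _ hv' hin h9))
      (fun h9 => huj (hE.inj _ _ hun hj h9)) h5 h6 h8 (h.symm _ _ z1)
  · rw [tb_row] at h1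
    exact (hE.exc v j h1.1 h1.2).2.2 z1
  · -- the vertices outside of the circuit
    by_cases ho : onb A L v = true
    · rw [ho, cond_true] at h1
      obtain ⟨hLv, u, hu1, hu4, hu5⟩ := onb_sound ho
      obtain ⟨_, hu2, hu3⟩ := hE.adj v u hu4 hu5
      have hLj : L ≤ j := by
        rw [tb_eq] at h1
        have h9 : (((2 ^ n - 1) <<< L : ℕ)).testBit j = true := h1
        rw [Nat.testBit_shiftLeft, Bool.and_eq_true] at h9
        simpa using h9.1
      have h10 := h.p3 (φ j) (φ v) (φ u) (hE.out j hLj hj) (hE.out v hLv hv')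
        (hE.out u hu1 hu2) (h.symm _ _ z1) hu3
      have h11 := hE.inj _ _ hj hu2 h10
      subst h11
      rcases hrow j hu4 hu5 with h12 | h12
      · exact hjx h12
      · exact hjy h12
    · rw [Bool.not_eq_true] at ho
      rw [ho, cond_false, tb_zero] at h1
      exact absurd h1 (by simp)

theorem tb_addp {A v w i j : ℕ} (hv : v < 32) (hw : w < 32) (hj : j < 32)
    (h : tb (addp A v w) (32 * i + j) = true) :
    tb A (32 * i + j) = true ∨ (i = v ∧ j = w) ∨ (i = w ∧ j = v) := by
  unfold addp at h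
  rw [tb_or, tb_or, Bool.or_eq_true, Bool.or_eq_true, tb_pow, tb_pow] at h
  rcases h with h | h | h
  · exact Or.inl h
  · right; left; omega
  · right; right; omega

theorem Emb.addA (h : Hy R L g c) (hE : Emb R L c n A X φ) {v w : ℕ} (hv : v < n) (hw : w < n)
    (hR : R (φ v) (φ w)) : Emb R L c n (addp A v w) X φ where
  n32 := hE.n32
  Ln := hE.Ln
  inj := hE.inj
  nis := hE.nis
  adj := by
    intro i j hj hij
    rcases tb_addp (lt_of_lt_of_le hv hE.n32) (lt_of_lt_of_le hw hE.n32) hj hij with h1 | h1 | h1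
    · exact hE.adj i j hj h1
    · obtain ⟨rfl, rfl⟩ := h1
      exact ⟨hv, hw, hR⟩
    · obtain ⟨rfl, rfl⟩ := h1
      exact ⟨hw, hv, h.symm _ _ hR⟩
  exc := hE.exc
  cc := hE.cc
  out := hE.out

theorem Emb.addX (h : Hy R L g c) (hE : Emb R L c n A X φ) {v w : ℕ} (hv : v < n) (hw : w < n)
    (hR : ¬ R (φ v) (φ w)) : Emb R L c n A (addp X v w) φ where
  n32 := hE.n32
  Ln := hE.Ln
  inj := hE.inj
  nis := hE.nis
  adj := hE.adj
  exc := by
    intro i j hj hij
    rcases tb_addp (lt_of_lt_of_le hv hE.n32) (lt_of_lt_of_le hw hE.n32) hj hij with h1 | h1 | h1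
    · exact hE.exc i j hj h1
    · obtain ⟨rfl, rfl⟩ := h1
      exact ⟨hv, hw, hR⟩
    · obtain ⟨rfl, rfl⟩ := h1
      exact ⟨hw, hv, fun h2 => hR (h.symm _ _ h2)⟩
  cc := hE.cc
  out := hE.out

theorem Emb.ext (hE : Emb R L c n A X φ) {z : V} (hn : n < 32) (hz : ∃ w, R z w)
    (hne : ∀ j, j < n → z ≠ φ j) : Emb R L c (n + 1) A X (Function.update φ n z) := by
  have hlt : ∀ i, i < n → Function.update φ n z i = φ i := fun i hi =>
    Function.update_of_ne (Nat.ne_of_lt hi) _ _
  have heq : Function.update φ n z n = z := Function.update_self _ _ _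
  refine ⟨by omega, hE.Ln.trans (Nat.le_succ n), ?_, ?_, ?_, ?_, ?_, ?_⟩
  · intro i j hi hj hij
    rcases Nat.lt_succ_iff_lt_or_eq.1 hi with hi | hi <;>
      rcases Nat.lt_succ_iff_lt_or_eq.1 hj with hj | hj
    · rw [hlt i hi, hlt j hj] at hij
      exact hE.inj i j hi hj hij
    · subst hj
      rw [hlt i hi, heq] at hij
      exact absurd hij.symm (hne i hi)
    · subst hi
      rw [hlt j hj, heq] at hij
      exact absurd hij (hne j hj)
    · rw [hi, hj]
  · intro i hi
    rcases Nat.lt_succ_iff_lt_or_eq.1 hi with hi | hi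
    · rw [hlt i hi]; exact hE.nis i hi
    · subst hi; rw [heq]; exact hz
  · intro i j hj hij
    obtain ⟨h1, h2, h3⟩ := hE.adj i j hj hij
    rw [hlt i h1, hlt j h2]
    exact ⟨by omega, by omega, h3⟩
  · intro i j hj hij
    obtain ⟨h1, h2, h3⟩ := hE.exc i j hj hij
    rw [hlt i h1, hlt j h2]
    exact ⟨by omega, by omega, h3⟩
  · intro i hi
    rw [hlt i (lt_of_lt_of_le hi hE.Ln)]
    exact hE.cc i hi
  · intro i hi hi2 j hj
    rcases Nat.lt_succ_iff_lt_or_eq.1 hi2 with hi2 | hi2
    · rw [hlt i hi2]; exact hE.out i hi hi2 j hj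
    · subst hi2
      rw [heq, ← hE.cc j hj]
      exact fun h1 => hne j (lt_of_lt_of_le hj hE.Ln) h1.symm

theorem p3k_sound (h : Hy R L g c) (hE : Emb R L c n A X φ) {x y z : ℕ}
    (hz32 : z < 32) (hc : p3k A L n x y z = true) : x < n ∧ y < n ∧ ¬ R (φ x) (φ y) := by
  unfold p3k at hc
  simp only [Bool.and_eq_true] at hc
  obtain ⟨⟨⟨h1, h2⟩, h3, h4⟩, ⟨h5, h6⟩, h7⟩ := hc
  have h1' : L ≤ x := by simpa using h1
  have h2' : L ≤ y := by simpa using h2
  have h3' : L ≤ z := by simpa using h3
  have h5' : x < n := by simpa using h5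
  have h4' : x ≠ z := by
    rintro rfl
    simp at h4
  obtain ⟨hy, hz, e2⟩ := hE.adj y z hz32 h7
  exact ⟨h5', hy, fun e1 => h4' (hE.inj _ _ h5' hz (h.p3 _ _ _ (hE.out x h1' h5')
    (hE.out y h2' hy) (hE.out z h3' hz) e1 e2))⟩

theorem gapk_sound (h : Hy R L g c) (hE : Emb R L c n A X φ) {o x y : ℕ} (hx32 : x < 32)
    (hc : gapk A L g n o x y = true) : o < n ∧ y < n ∧ ¬ R (φ o) (φ y) := by
  unfold gapk at hc
  simp only [Bool.and_eq_true, Bool.or_eq_true] at hc
  obtain ⟨⟨⟨h1, h2⟩, ⟨h3, h4⟩, h5⟩, h6⟩ := hc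
  have h1' : L ≤ o := by simpa using h1
  have h2' : o < n := by simpa using h2
  have h3' : x < L := by simpa using h3
  have h4' : y < L := by simpa using h4
  have h6' : (x < y ∧ (y < x + g ∨ L + x < y + g)) ∨ (y < x ∧ (x < y + g ∨ L + y < x + g)) := by
    simpa using h6
  obtain ⟨ho, hx, e1⟩ := hE.adj o x hx32 h5
  refine ⟨h2', lt_of_lt_of_le h4' hE.Ln, fun e2 => ?_⟩
  rw [hE.cc x h3'] at e1
  rw [hE.cc y h4'] at e2
  rcases h6' with ⟨h7, h8⟩ | ⟨h7, h8⟩
  · obtain ⟨g1, g2⟩ := h.gap (φ o) (hE.out o h1' ho) x y h7 h4' e1 e2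
    omega
  · obtain ⟨g1, g2⟩ := h.gap (φ o) (hE.out o h1' ho) y x h7 h3' e2 e1
    omega

theorem p_lt (c k : ℕ) : Nat.mod (Nat.div c k) 32 < 32 := Nat.mod_lt _ (by norm_num)

theorem go_sound (h : Hy R L g c) {K : List (ℕ × ℕ × ℕ)}
    (hK : ∀ t ∈ K, Ref R L c t.1 t.2.1 t.2.2) : ∀ (k n A X : ℕ) (s s' : List ℕ),
    go K L g k n A X s = some s' → Ref R L c n A X
  | 0, _, _, _, _, _, hg => by simp [go] at hg
  | _ + 1, _, _, _, [], _, hg => by simp [go] at hg
  | k + 1, n, A, X, c' :: s, s', hg => by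
    intro φ hE
    rw [go] at hg
    cases e0 : Nat.beq (Nat.mod c' 8) 1 with
    | true =>
      rw [e0, cond_true] at hg
      cases e1 : ((Nat.blt (p0 c') n && Nat.blt (p1 c') n) &&
        cyck (addp A (p0 c') (p1 c')) L (Nat.div c' 8)) with
      | false => rw [e1] at hg; simp at hg
      | true =>
        rw [e1, cond_true] at hg
        rw [Bool.and_eq_true, Bool.and_eq_true] at e1
        have hv : p0 c' < n := by simpa using e1.1.1
        have hw : p1 c' < n := by simpa using e1.1.2
        exact go_sound h hK k _ _ _ _ _ hg φ (hE.addX h hv hw fun hR =>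
          cyck_sound h (hE.addA h hv hw hR) e1.2)
    | false =>
    rw [e0, cond_false] at hg
    cases e1 : Nat.beq (Nat.mod c' 8) 0 with
    | true =>
      rw [e1, cond_true] at hg
      cases e1 : (Nat.blt (p0 c') n && Nat.blt (p1 c') n) with
      | false => rw [e1] at hg; simp at hg
      | true =>
        rw [e1, cond_true] at hg
        rw [Bool.and_eq_true] at e1
        have hv : p0 c' < n := by simpa using e1.1
        have hw : p1 c' < n := by simpa using e1.2
        cases e2 : go K L g k n (addp A (p0 c') (p1 c')) X s with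
        | none => rw [e2] at hg; simp at hg
        | some s1 =>
          rw [e2] at hg
          simp only at hg
          by_cases hR : R (φ (p0 c')) (φ (p1 c'))
          · exact go_sound h hK k _ _ _ _ _ e2 φ (hE.addA h hv hw hR)
          · exact go_sound h hK k _ _ _ _ _ hg φ (hE.addX h hv hw hR)
    | false =>
    rw [e1, cond_false] at hg
    cases e2 : Nat.beq (Nat.mod c' 8) 2 with
    | true =>
      rw [e2, cond_true] at hg
      cases e3 : (cand L n A X (p0 c') (p1 c') (p2 c') && onb A L (p0 c')) with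
      | false => rw [e3] at hg; simp at hg
      | true =>
        rw [Bool.and_eq_true] at e3
        obtain ⟨hv, z, z1, z2⟩ := cand_sound h hE (p_lt _ _) (p_lt _ _) e3.1
        obtain ⟨hLv, u, hu1, hu4, hu5⟩ := onb_sound e3.2
        obtain ⟨_, hu2, hu3⟩ := hE.adj _ u hu4 hu5
        have hz : ∀ i < L, c i ≠ z := by
          intro i hi
          rw [← hE.cc i hi]
          exact fun h1 => z2 i (lt_of_lt_of_le hi hE.Ln) h1.symm
        have h10 := h.p3 z _ (φ u) hz (hE.out _ hLv hv) (hE.out u hu1 hu2) (h.symm _ _ z1) hu3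
        exact z2 u hu2 h10
    | false =>
    rw [e2, cond_false] at hg
    cases e3 : Nat.beq (Nat.mod c' 8) 3 with
    | true =>
      rw [e3, cond_true] at hg
      cases e4 : (cand L n A X (p0 c') (p1 c') (p2 c') && Nat.blt n 32) with
      | false => rw [e4] at hg; simp at hg
      | true =>
        rw [e4, cond_true] at hg
        rw [Bool.and_eq_true] at e4
        obtain ⟨hv, z, z1, z2⟩ := cand_sound h hE (p_lt _ _) (p_lt _ _) e4.1
        have hn : n < 32 := by simpa using e4.2
        have hE2 := hE.ext hn ⟨_, h.symm _ _ z1⟩ z2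
        refine go_sound h hK k _ _ _ _ _ hg _ (hE2.addA h (v := p0 c') (w := n) (by omega)
          (by omega) ?_)
        rw [Function.update_self, Function.update_of_ne (Nat.ne_of_lt hv)]
        exact z1
    | false =>
    rw [e3, cond_false] at hg
    cases e4 : Nat.beq (Nat.mod c' 8) 4 with
    | true =>
      rw [e4, cond_true] at hg
      cases e5 : Nat.blt n 18 with
      | false => rw [e5] at hg; simp at hg
      | true =>
        rw [e5, cond_true] at hg
        have hn : n < 18 := by simpa using e5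
        classical
        obtain ⟨z, z1, z2⟩ := h.many ((Finset.range n).image φ)
          (lt_of_le_of_lt Finset.card_image_le (by rw [Finset.card_range]; exact hn))
        refine go_sound h hK k _ _ _ _ _ hg _ (hE.ext (by omega) z2 fun j hj h1 => z1 ?_)
        rw [h1]
        exact Finset.mem_image_of_mem _ (Finset.mem_range.2 hj)
    | false =>
    rw [e4, cond_false] at hg
    cases e5 : Nat.beq (Nat.mod c' 8) 5 with
    | true =>
      rw [e5, cond_true] at hg
      cases e6 : p3k A L n (p0 c') (p1 c') (p2 c') with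
      | false => rw [e6] at hg; simp at hg
      | true =>
        rw [e6, cond_true] at hg
        obtain ⟨hv, hw, hR⟩ := p3k_sound h hE (p_lt _ _) e6
        exact go_sound h hK k _ _ _ _ _ hg φ (hE.addX h hv hw hR)
    | false =>
    rw [e5, cond_false] at hg
    cases e6 : Nat.beq (Nat.mod c' 8) 6 with
    | true =>
      rw [e6, cond_true] at hg
      cases e7 : gapk A L g n (p0 c') (p1 c') (p2 c') with
      | false => rw [e7] at hg; simp at hg
      | true =>
        rw [e7, cond_true] at hg
        obtain ⟨hv, hw, hR⟩ := gapk_sound h hE (p_lt _ _) e7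
        exact go_sound h hK k _ _ _ _ _ hg φ (hE.addX h hv hw hR)
    | false =>
      rw [e6, cond_false] at hg
      cases e7 : K[Nat.div c' 8]? with
      | none => rw [e7] at hg; simp at hg
      | some t =>
        rw [e7] at hg
        simp only at hg
        cases e8 : (Nat.beq t.1 n && (Nat.beq t.2.1 A && Nat.beq t.2.2 X)) with
        | false => rw [e8] at hg; simp at hg
        | true =>
          simp only [Bool.and_eq_true] at e8
          have h1 := Nat.eq_of_beq_eq_true e8.1
          have h2 := Nat.eq_of_beq_eq_true e8.2.1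
          have h3 := Nat.eq_of_beq_eq_true e8.2.2
          have h4 := hK t (List.mem_of_getElem? e7)
          rw [h1, h2, h3] at h4
          exact h4 φ hE

/-- the pairs in the list -/
def mkA : List (ℕ × ℕ) → ℕ
  | [] => 0
  | e :: es => addp (mkA es) e.1 e.2

/-- the edges at the beginning: the circuit and a vertex with two neighbours on it -/
def start (L g : ℕ) : List (ℕ × ℕ) :=
  (L, 0) :: (L, g) :: (List.range L).map (fun i => (i, Nat.mod (i + 1) L))

theorem Emb.mkA (h : Hy R L g c) (hE : Emb R L c n 0 0 φ) : ∀ es : List (ℕ × ℕ),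
    (∀ e ∈ es, e.1 < n ∧ e.2 < n ∧ R (φ e.1) (φ e.2)) → Emb R L c n (mkA es) 0 φ
  | [], _ => hE
  | e :: es, he => by
    obtain ⟨h1, h2, h3⟩ := he e (by simp)
    exact (Emb.mkA h hE es fun e' he' => he e' (by simp [he'])).addA h h1 h2 h3

/-- the state at the beginning -/
theorem start_emb (h : Hy R L g c) (hL : L < 32) (hg : g < L) (hinj : ∀ i j, i < L → j < L →
    c i = c j → i = j) (hcyc : ∀ i, i < L → R (c i) (c ((i + 1) % L))) {u : V}
    (hu : ∀ i < L, c i ≠ u) (h0 : R u (c 0)) (h1 : R u (c g)) (hE : Ref R L c (L + 1)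
    (mkA (start L g)) 0) : False := by
  have hlt : ∀ i, i < L → Function.update c L u i = c i := fun i hi =>
    Function.update_of_ne (Nat.ne_of_lt hi) _ _
  have heq : Function.update c L u L = u := Function.update_self _ _ _
  refine hE (Function.update c L u) (Emb.mkA h ⟨by omega, by omega, ?_, ?_, ?_, ?_, ?_, ?_⟩ _ ?_)
  · intro i j hi hj hij
    rcases Nat.lt_succ_iff_lt_or_eq.1 hi with hi | hi <;>
      rcases Nat.lt_succ_iff_lt_or_eq.1 hj with hj | hj
    · rw [hlt i hi, hlt j hj] at hij
      exact hinj i j hi hj hij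
    · subst hj
      rw [hlt i hi, heq] at hij
      exact absurd hij (hu i hi)
    · subst hi
      rw [hlt j hj, heq] at hij
      exact absurd hij.symm (hu j hj)
    · rw [hi, hj]
  · intro i hi
    rcases Nat.lt_succ_iff_lt_or_eq.1 hi with hi | hi
    · rw [hlt i hi]; exact ⟨_, hcyc i hi⟩
    · subst hi; rw [heq]; exact ⟨_, h0⟩
  · intro i j _ hij
    rw [tb_zero] at hij
    exact absurd hij (by simp)
  · intro i j _ hij
    rw [tb_zero] at hij
    exact absurd hij (by simp)
  · intro i hi
    exact hlt i hi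
  · intro i hi hi2 j hj
    have : i = L := by omega
    subst this
    rw [heq]
    exact hu j hj
  · intro e he
    unfold start at he
    rcases List.mem_cons.1 he with rfl | he
    · refine ⟨by simp, by simp, ?_⟩
      simp only
      rw [heq, hlt 0 (by omega)]
      exact h0
    · rcases List.mem_cons.1 he with rfl | he
      · refine ⟨by simp, by simp; omega, ?_⟩
        simp only
        rw [heq, hlt g hg]
        exact h1
      · obtain ⟨i, hi, rfl⟩ := List.mem_map.1 he
        rw [List.mem_range] at hi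
        have h3 : Nat.mod (i + 1) L < L := Nat.mod_lt _ (by omega)
        refine ⟨?_, ?_, ?_⟩
        · simp only; omega
        · simp only; omega
        · simp only
          rw [hlt i hi, hlt _ h3]
          exact hcyc i hi

end

end Pool.Agent.W5h14.Circ
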