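import Pool.Agent.H79.LF.W5h14_Circ_Dat00
import Pool.Agent.H79.LF.W5h14_Circ_Dat01
import Pool.Agent.H79.LF.W5h14_Circ_Dat02
import Pool.Agent.H79.LF.W5h14_Circ_Dat03
import Pool.Agent.H79.LF.W5h14_Circ_Dat04
import Pool.Agent.H79.LF.W5h14_Circ_Dat05
import Pool.Agent.H79.LF.W5h14_Circ_Dat06
import Pool.Agent.H79.LF.W5h14_Circ_Dat07
import Pool.Agent.H79.LF.W5h14_Circ_Dat08
import Pool.Agent.H79.LF.W5h14_Circ_Dat09
import Pool.Agent.H79.LF.W5h14_Circ_Dat10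
import Pool.Agent.H79.LF.W5h14_Circ_Dat11
import Pool.Agent.H79.LF.W5h14_Circ_Dat12
import Pool.Agent.H79.LF.W5h14_Circ_Dat13
import Pool.Agent.H79.LF.W5h14_Circ_Dat14
import Pool.Agent.H79.LF.W5h14_Circ_Dat15
import Pool.Agent.H79.LF.W5h14_Circ_Dat16
import Pool.Agent.H79.LF.W5h14_Circ_Dat17

set_option autoImplicit false
set_option maxRecDepth 100000

/-! # The states are impossible -/

namespace Pool.Agent.W5h14.Circ

variable {V : Type} {R : V → V → Prop} {c : ℕ → V}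

theorem r6_3_0 (h : Hy R 6 3 c) : Ref R 6 c s6_3_0.1 s6_3_0.2.1 s6_3_0.2.2 :=
  go_sound h (List.forall_mem_nil _) _ _ _ _ _ _ g6_3_0

theorem r7_3_0 (h : Hy R 7 3 c) : Ref R 7 c s7_3_0.1 s7_3_0.2.1 s7_3_0.2.2 :=
  go_sound h (List.forall_mem_nil _) _ _ _ _ _ _ g7_3_0

theorem r8_3_0 (h : Hy R 8 3 c) : Ref R 8 c s8_3_0.1 s8_3_0.2.1 s8_3_0.2.2 :=
  go_sound h (List.forall_mem_nil _) _ _ _ _ _ _ g8_3_0

theorem r8_4_0 (h : Hy R 8 4 c) : Ref R 8 c s8_4_0.1 s8_4_0.2.1 s8_4_0.2.2 :=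
  go_sound h (List.forall_mem_nil _) _ _ _ _ _ _ g8_4_0

theorem r9_3_0 (h : Hy R 9 3 c) : Ref R 9 c s9_3_0.1 s9_3_0.2.1 s9_3_0.2.2 :=
  go_sound h (List.forall_mem_nil _) _ _ _ _ _ _ g9_3_0

theorem r9_4_0 (h : Hy R 9 4 c) : Ref R 9 c s9_4_0.1 s9_4_0.2.1 s9_4_0.2.2 :=
  go_sound h (List.forall_mem_nil _) _ _ _ _ _ _ g9_4_0

theorem r10_3_0 (h : Hy R 10 3 c) : Ref R 10 c s10_3_0.1 s10_3_0.2.1 s10_3_0.2.2 :=
  go_sound h (List.forall_mem_nil _) _ _ _ _ _ _ g10_3_0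

theorem r10_4_0 (h : Hy R 10 4 c) : Ref R 10 c s10_4_0.1 s10_4_0.2.1 s10_4_0.2.2 :=
  go_sound h (List.forall_mem_nil _) _ _ _ _ _ _ g10_4_0

theorem r10_5_0 (h : Hy R 10 5 c) : Ref R 10 c s10_5_0.1 s10_5_0.2.1 s10_5_0.2.2 :=
  go_sound h (List.forall_mem_nil _) _ _ _ _ _ _ g10_5_0

theorem r11_3_0 (h : Hy R 11 3 c) : Ref R 11 c s11_3_0.1 s11_3_0.2.1 s11_3_0.2.2 :=
  go_sound h (List.forall_mem_nil _) _ _ _ _ _ _ g11_3_0

theorem r11_4_0 (h : Hy R 11 4 c) : Ref R 11 c s11_4_0.1 s11_4_0.2.1 s11_4_0.2.2 :=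
  go_sound h (List.forall_mem_nil _) _ _ _ _ _ _ g11_4_0

theorem r11_5_0 (h : Hy R 11 5 c) : Ref R 11 c s11_5_0.1 s11_5_0.2.1 s11_5_0.2.2 :=
  go_sound h (List.forall_mem_nil _) _ _ _ _ _ _ g11_5_0

theorem r12_3_0 (h : Hy R 12 3 c) : Ref R 12 c s12_3_0.1 s12_3_0.2.1 s12_3_0.2.2 :=
  go_sound h (List.forall_mem_nil _) _ _ _ _ _ _ g12_3_0

theorem r12_4_0 (h : Hy R 12 4 c) : Ref R 12 c s12_4_0.1 s12_4_0.2.1 s12_4_0.2.2 :=
  go_sound h (List.forall_mem_nil _) _ _ _ _ _ _ g12_4_0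

theorem r12_5_0 (h : Hy R 12 5 c) : Ref R 12 c s12_5_0.1 s12_5_0.2.1 s12_5_0.2.2 :=
  go_sound h (List.forall_mem_nil _) _ _ _ _ _ _ g12_5_0

theorem r12_6_0 (h : Hy R 12 6 c) : Ref R 12 c s12_6_0.1 s12_6_0.2.1 s12_6_0.2.2 :=
  go_sound h (List.forall_mem_nil _) _ _ _ _ _ _ g12_6_0

theorem r13_3_0 (h : Hy R 13 3 c) : Ref R 13 c s13_3_0.1 s13_3_0.2.1 s13_3_0.2.2 :=
  go_sound h (List.forall_mem_nil _) _ _ _ _ _ _ g13_3_0

theorem r13_4_0 (h : Hy R 13 4 c) : Ref R 13 c s13_4_0.1 s13_4_0.2.1 s13_4_0.2.2 :=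
  go_sound h (List.forall_mem_nil _) _ _ _ _ _ _ g13_4_0

theorem r13_5_0 (h : Hy R 13 5 c) : Ref R 13 c s13_5_0.1 s13_5_0.2.1 s13_5_0.2.2 :=
  go_sound h (List.forall_mem_nil _) _ _ _ _ _ _ g13_5_0

theorem r13_6_0 (h : Hy R 13 6 c) : Ref R 13 c s13_6_0.1 s13_6_0.2.1 s13_6_0.2.2 :=
  go_sound h (List.forall_mem_nil _) _ _ _ _ _ _ g13_6_0

theorem r14_3_0 (h : Hy R 14 3 c) : Ref R 14 c s14_3_0.1 s14_3_0.2.1 s14_3_0.2.2 :=
  go_sound h (List.forall_mem_nil _) _ _ _ _ _ _ g14_3_0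

theorem r14_3_1 (h : Hy R 14 3 c) : Ref R 14 c s14_3_1.1 s14_3_1.2.1 s14_3_1.2.2 :=
  go_sound h (List.forall_mem_nil _) _ _ _ _ _ _ g14_3_1

theorem r14_3_2 (h : Hy R 14 3 c) : Ref R 14 c s14_3_2.1 s14_3_2.2.1 s14_3_2.2.2 :=
  go_sound h (List.forall_mem_nil _) _ _ _ _ _ _ g14_3_2

theorem r14_3_3 (h : Hy R 14 3 c) : Ref R 14 c s14_3_3.1 s14_3_3.2.1 s14_3_3.2.2 :=
  go_sound h (List.forall_mem_cons.2 ⟨r14_3_0 h, List.forall_mem_cons.2 ⟨r14_3_1 h, List.forall_mem_cons.2 ⟨r14_3_2 h, List.forall_mem_nil _⟩⟩⟩) _ _ _ _ _ _ g14_3_3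

theorem r14_4_0 (h : Hy R 14 4 c) : Ref R 14 c s14_4_0.1 s14_4_0.2.1 s14_4_0.2.2 :=
  go_sound h (List.forall_mem_nil _) _ _ _ _ _ _ g14_4_0

theorem r14_5_0 (h : Hy R 14 5 c) : Ref R 14 c s14_5_0.1 s14_5_0.2.1 s14_5_0.2.2 :=
  go_sound h (List.forall_mem_nil _) _ _ _ _ _ _ g14_5_0

theorem r14_6_0 (h : Hy R 14 6 c) : Ref R 14 c s14_6_0.1 s14_6_0.2.1 s14_6_0.2.2 :=
  go_sound h (List.forall_mem_nil _) _ _ _ _ _ _ g14_6_0

theorem r14_7_0 (h : Hy R 14 7 c) : Ref R 14 c s14_7_0.1 s14_7_0.2.1 s14_7_0.2.2 :=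
  go_sound h (List.forall_mem_nil _) _ _ _ _ _ _ g14_7_0

theorem r15_3_0 (h : Hy R 15 3 c) : Ref R 15 c s15_3_0.1 s15_3_0.2.1 s15_3_0.2.2 :=
  go_sound h (List.forall_mem_nil _) _ _ _ _ _ _ g15_3_0

theorem r15_3_1 (h : Hy R 15 3 c) : Ref R 15 c s15_3_1.1 s15_3_1.2.1 s15_3_1.2.2 :=
  go_sound h (List.forall_mem_cons.2 ⟨r15_3_0 h, List.forall_mem_nil _⟩) _ _ _ _ _ _ g15_3_1

theorem r15_3_2 (h : Hy R 15 3 c) : Ref R 15 c s15_3_2.1 s15_3_2.2.1 s15_3_2.2.2 :=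
  go_sound h (List.forall_mem_nil _) _ _ _ _ _ _ g15_3_2

theorem r15_3_3 (h : Hy R 15 3 c) : Ref R 15 c s15_3_3.1 s15_3_3.2.1 s15_3_3.2.2 :=
  go_sound h (List.forall_mem_nil _) _ _ _ _ _ _ g15_3_3

theorem r15_3_4 (h : Hy R 15 3 c) : Ref R 15 c s15_3_4.1 s15_3_4.2.1 s15_3_4.2.2 :=
  go_sound h (List.forall_mem_nil _) _ _ _ _ _ _ g15_3_4

theorem r15_3_5 (h : Hy R 15 3 c) : Ref R 15 c s15_3_5.1 s15_3_5.2.1 s15_3_5.2.2 :=
  go_sound h (List.forall_mem_cons.2 ⟨r15_3_1 h, List.forall_mem_cons.2 ⟨r15_3_2 h, List.forall_mem_cons.2 ⟨r15_3_3 h, List.forall_mem_cons.2 ⟨r15_3_4 h, List.forall_mem_nil _⟩⟩⟩⟩) _ _ _ _ _ _ g15_3_5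

theorem r15_3_6 (h : Hy R 15 3 c) : Ref R 15 c s15_3_6.1 s15_3_6.2.1 s15_3_6.2.2 :=
  go_sound h (List.forall_mem_nil _) _ _ _ _ _ _ g15_3_6

theorem r15_3_7 (h : Hy R 15 3 c) : Ref R 15 c s15_3_7.1 s15_3_7.2.1 s15_3_7.2.2 :=
  go_sound h (List.forall_mem_cons.2 ⟨r15_3_6 h, List.forall_mem_nil _⟩) _ _ _ _ _ _ g15_3_7

theorem r15_3_8 (h : Hy R 15 3 c) : Ref R 15 c s15_3_8.1 s15_3_8.2.1 s15_3_8.2.2 :=
  go_sound h (List.forall_mem_nil _) _ _ _ _ _ _ g15_3_8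

theorem r15_3_9 (h : Hy R 15 3 c) : Ref R 15 c s15_3_9.1 s15_3_9.2.1 s15_3_9.2.2 :=
  go_sound h (List.forall_mem_nil _) _ _ _ _ _ _ g15_3_9

theorem r15_3_10 (h : Hy R 15 3 c) : Ref R 15 c s15_3_10.1 s15_3_10.2.1 s15_3_10.2.2 :=
  go_sound h (List.forall_mem_cons.2 ⟨r15_3_9 h, List.forall_mem_nil _⟩) _ _ _ _ _ _ g15_3_10

theorem r15_3_11 (h : Hy R 15 3 c) : Ref R 15 c s15_3_11.1 s15_3_11.2.1 s15_3_11.2.2 :=
  go_sound h (List.forall_mem_nil _) _ _ _ _ _ _ g15_3_11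

theorem r15_3_12 (h : Hy R 15 3 c) : Ref R 15 c s15_3_12.1 s15_3_12.2.1 s15_3_12.2.2 :=
  go_sound h (List.forall_mem_cons.2 ⟨r15_3_11 h, List.forall_mem_nil _⟩) _ _ _ _ _ _ g15_3_12

theorem r15_3_13 (h : Hy R 15 3 c) : Ref R 15 c s15_3_13.1 s15_3_13.2.1 s15_3_13.2.2 :=
  go_sound h (List.forall_mem_nil _) _ _ _ _ _ _ g15_3_13

theorem r15_3_14 (h : Hy R 15 3 c) : Ref R 15 c s15_3_14.1 s15_3_14.2.1 s15_3_14.2.2 :=
  go_sound h (List.forall_mem_cons.2 ⟨r15_3_10 h, List.forall_mem_cons.2 ⟨r15_3_12 h, List.forall_mem_cons.2 ⟨r15_3_13 h, List.forall_mem_nil _⟩⟩⟩) _ _ _ _ _ _ g15_3_14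

theorem r15_3_15 (h : Hy R 15 3 c) : Ref R 15 c s15_3_15.1 s15_3_15.2.1 s15_3_15.2.2 :=
  go_sound h (List.forall_mem_nil _) _ _ _ _ _ _ g15_3_15

theorem r15_3_16 (h : Hy R 15 3 c) : Ref R 15 c s15_3_16.1 s15_3_16.2.1 s15_3_16.2.2 :=
  go_sound h (List.forall_mem_nil _) _ _ _ _ _ _ g15_3_16

theorem r15_3_17 (h : Hy R 15 3 c) : Ref R 15 c s15_3_17.1 s15_3_17.2.1 s15_3_17.2.2 :=
  go_sound h (List.forall_mem_nil _) _ _ _ _ _ _ g15_3_17

theorem r15_3_18 (h : Hy R 15 3 c) : Ref R 15 c s15_3_18.1 s15_3_18.2.1 s15_3_18.2.2 :=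
  go_sound h (List.forall_mem_nil _) _ _ _ _ _ _ g15_3_18

theorem r15_3_19 (h : Hy R 15 3 c) : Ref R 15 c s15_3_19.1 s15_3_19.2.1 s15_3_19.2.2 :=
  go_sound h (List.forall_mem_nil _) _ _ _ _ _ _ g15_3_19

theorem r15_3_20 (h : Hy R 15 3 c) : Ref R 15 c s15_3_20.1 s15_3_20.2.1 s15_3_20.2.2 :=
  go_sound h (List.forall_mem_cons.2 ⟨r15_3_17 h, List.forall_mem_cons.2 ⟨r15_3_18 h, List.forall_mem_cons.2 ⟨r15_3_19 h, List.forall_mem_nil _⟩⟩⟩) _ _ _ _ _ _ g15_3_20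

theorem r15_3_21 (h : Hy R 15 3 c) : Ref R 15 c s15_3_21.1 s15_3_21.2.1 s15_3_21.2.2 :=
  go_sound h (List.forall_mem_nil _) _ _ _ _ _ _ g15_3_21

theorem r15_3_22 (h : Hy R 15 3 c) : Ref R 15 c s15_3_22.1 s15_3_22.2.1 s15_3_22.2.2 :=
  go_sound h (List.forall_mem_cons.2 ⟨r15_3_20 h, List.forall_mem_cons.2 ⟨r15_3_21 h, List.forall_mem_nil _⟩⟩) _ _ _ _ _ _ g15_3_22

theorem r15_3_23 (h : Hy R 15 3 c) : Ref R 15 c s15_3_23.1 s15_3_23.2.1 s15_3_23.2.2 :=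
  go_sound h (List.forall_mem_nil _) _ _ _ _ _ _ g15_3_23

theorem r15_3_24 (h : Hy R 15 3 c) : Ref R 15 c s15_3_24.1 s15_3_24.2.1 s15_3_24.2.2 :=
  go_sound h (List.forall_mem_cons.2 ⟨r15_3_5 h, List.forall_mem_cons.2 ⟨r15_3_7 h, List.forall_mem_cons.2 ⟨r15_3_8 h, List.forall_mem_cons.2 ⟨r15_3_14 h, List.forall_mem_cons.2 ⟨r15_3_15 h, List.forall_mem_cons.2 ⟨r15_3_16 h, List.forall_mem_cons.2 ⟨r15_3_22 h, List.forall_mem_cons.2 ⟨r15_3_23 h, List.forall_mem_nil _⟩⟩⟩⟩⟩⟩⟩⟩) _ _ _ _ _ _ g15_3_24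

theorem r15_4_0 (h : Hy R 15 4 c) : Ref R 15 c s15_4_0.1 s15_4_0.2.1 s15_4_0.2.2 :=
  go_sound h (List.forall_mem_nil _) _ _ _ _ _ _ g15_4_0

theorem r15_4_1 (h : Hy R 15 4 c) : Ref R 15 c s15_4_1.1 s15_4_1.2.1 s15_4_1.2.2 :=
  go_sound h (List.forall_mem_nil _) _ _ _ _ _ _ g15_4_1

theorem r15_4_2 (h : Hy R 15 4 c) : Ref R 15 c s15_4_2.1 s15_4_2.2.1 s15_4_2.2.2 :=
  go_sound h (List.forall_mem_cons.2 ⟨r15_4_0 h, List.forall_mem_cons.2 ⟨r15_4_1 h, List.forall_mem_nil _⟩⟩) _ _ _ _ _ _ g15_4_2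

theorem r15_5_0 (h : Hy R 15 5 c) : Ref R 15 c s15_5_0.1 s15_5_0.2.1 s15_5_0.2.2 :=
  go_sound h (List.forall_mem_nil _) _ _ _ _ _ _ g15_5_0

theorem r15_6_0 (h : Hy R 15 6 c) : Ref R 15 c s15_6_0.1 s15_6_0.2.1 s15_6_0.2.2 :=
  go_sound h (List.forall_mem_nil _) _ _ _ _ _ _ g15_6_0

theorem r15_7_0 (h : Hy R 15 7 c) : Ref R 15 c s15_7_0.1 s15_7_0.2.1 s15_7_0.2.2 :=
  go_sound h (List.forall_mem_nil _) _ _ _ _ _ _ g15_7_0

/-- **The result of the search.** -/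
theorem root (L g : ℕ) (hL : L ≤ 15) (hg : 3 ≤ g) (hg2 : 2 * g ≤ L) (h : Hy R L g c) :
    Ref R L c (L + 1) (mkA (start L g)) 0 := by
  interval_cases L
  · omega
  · omega
  · omega
  · omega
  · omega
  · omega
  · have hg3 : g ≤ 3 := by omega
    interval_cases g
    · have e : (6 + 1, mkA (start 6 3), 0) = s6_3_0 := by decide +kernel
      have := r6_3_0 h
      rw [← e] at this
      exact this
  · have hg3 : g ≤ 3 := by omega
    interval_cases g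
    · have e : (7 + 1, mkA (start 7 3), 0) = s7_3_0 := by decide +kernel
      have := r7_3_0 h
      rw [← e] at this
      exact this
  · have hg3 : g ≤ 4 := by omega
    interval_cases g
    · have e : (8 + 1, mkA (start 8 3), 0) = s8_3_0 := by decide +kernel
      have := r8_3_0 h
      rw [← e] at this
      exact this
    · have e : (8 + 1, mkA (start 8 4), 0) = s8_4_0 := by decide +kernel
      have := r8_4_0 h
      rw [← e] at this
      exact this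
  · have hg3 : g ≤ 4 := by omega
    interval_cases g
    · have e : (9 + 1, mkA (start 9 3), 0) = s9_3_0 := by decide +kernel
      have := r9_3_0 h
      rw [← e] at this
      exact this
    · have e : (9 + 1, mkA (start 9 4), 0) = s9_4_0 := by decide +kernel
      have := r9_4_0 h
      rw [← e] at this
      exact this
  · have hg3 : g ≤ 5 := by omega
    interval_cases g
    · have e : (10 + 1, mkA (start 10 3), 0) = s10_3_0 := by decide +kernel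
      have := r10_3_0 h
      rw [← e] at this
      exact this
    · have e : (10 + 1, mkA (start 10 4), 0) = s10_4_0 := by decide +kernel
      have := r10_4_0 h
      rw [← e] at this
      exact this
    · have e : (10 + 1, mkA (start 10 5), 0) = s10_5_0 := by decide +kernel
      have := r10_5_0 h
      rw [← e] at this
      exact this
  · have hg3 : g ≤ 5 := by omega
    interval_cases g
    · have e : (11 + 1, mkA (start 11 3), 0) = s11_3_0 := by decide +kernel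
      have := r11_3_0 h
      rw [← e] at this
      exact this
    · have e : (11 + 1, mkA (start 11 4), 0) = s11_4_0 := by decide +kernel
      have := r11_4_0 h
      rw [← e] at this
      exact this
    · have e : (11 + 1, mkA (start 11 5), 0) = s11_5_0 := by decide +kernel
      have := r11_5_0 h
      rw [← e] at this
      exact this
  · have hg3 : g ≤ 6 := by omega
    interval_cases g
    · have e : (12 + 1, mkA (start 12 3), 0) = s12_3_0 := by decide +kernel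
      have := r12_3_0 h
      rw [← e] at this
      exact this
    · have e : (12 + 1, mkA (start 12 4), 0) = s12_4_0 := by decide +kernel
      have := r12_4_0 h
      rw [← e] at this
      exact this
    · have e : (12 + 1, mkA (start 12 5), 0) = s12_5_0 := by decide +kernel
      have := r12_5_0 h
      rw [← e] at this
      exact this
    · have e : (12 + 1, mkA (start 12 6), 0) = s12_6_0 := by decide +kernel
      have := r12_6_0 h
      rw [← e] at this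
      exact this
  · have hg3 : g ≤ 6 := by omega
    interval_cases g
    · have e : (13 + 1, mkA (start 13 3), 0) = s13_3_0 := by decide +kernel
      have := r13_3_0 h
      rw [← e] at this
      exact this
    · have e : (13 + 1, mkA (start 13 4), 0) = s13_4_0 := by decide +kernel
      have := r13_4_0 h
      rw [← e] at this
      exact this
    · have e : (13 + 1, mkA (start 13 5), 0) = s13_5_0 := by decide +kernel
      have := r13_5_0 h
      rw [← e] at this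
      exact this
    · have e : (13 + 1, mkA (start 13 6), 0) = s13_6_0 := by decide +kernel
      have := r13_6_0 h
      rw [← e] at this
      exact this
  · have hg3 : g ≤ 7 := by omega
    interval_cases g
    · have e : (14 + 1, mkA (start 14 3), 0) = s14_3_3 := by decide +kernel
      have := r14_3_3 h
      rw [← e] at this
      exact this
    · have e : (14 + 1, mkA (start 14 4), 0) = s14_4_0 := by decide +kernel
      have := r14_4_0 h
      rw [← e] at this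
      exact this
    · have e : (14 + 1, mkA (start 14 5), 0) = s14_5_0 := by decide +kernel
      have := r14_5_0 h
      rw [← e] at this
      exact this
    · have e : (14 + 1, mkA (start 14 6), 0) = s14_6_0 := by decide +kernel
      have := r14_6_0 h
      rw [← e] at this
      exact this
    · have e : (14 + 1, mkA (start 14 7), 0) = s14_7_0 := by decide +kernel
      have := r14_7_0 h
      rw [← e] at this
      exact this
  · have hg3 : g ≤ 7 := by omega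
    interval_cases g
    · have e : (15 + 1, mkA (start 15 3), 0) = s15_3_24 := by decide +kernel
      have := r15_3_24 h
      rw [← e] at this
      exact this
    · have e : (15 + 1, mkA (start 15 4), 0) = s15_4_2 := by decide +kernel
      have := r15_4_2 h
      rw [← e] at this
      exact this
    · have e : (15 + 1, mkA (start 15 5), 0) = s15_5_0 := by decide +kernel
      have := r15_5_0 h
      rw [← e] at this
      exact this
    · have e : (15 + 1, mkA (start 15 6), 0) = s15_6_0 := by decide +kernel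
      have := r15_6_0 h
      rw [← e] at this
      exact this
    · have e : (15 + 1, mkA (start 15 7), 0) = s15_7_0 := by decide +kernel
      have := r15_7_0 h
      rw [← e] at this
      exact this

end Pool.Agent.W5h14.Circ
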