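import Pool.Agent.H79.LF.W5h14_Circ_Cyc
import Pool.Agent.H79.LF.W5h14_Circ_Ar

/-!
# Paths outside of a longest circuit
-/

set_option autoImplicit false

namespace Pool.Agent.W5h14.Circ

/-- graphs without circuits of length three and four, with all degrees at least three -/
structure Gg {V : Type} (R : V → V → Prop) : Prop where
  symm : ∀ x y, R x y → R y x
  tri : ∀ a b c, R a b → R b c → R c a → False
  four : ∀ a b c d, a ≠ c → b ≠ d → R a b → R b c → R c d → R d a → False
  deg : ∀ v w, R v w → ∀ x y, ∃ z, R v z ∧ z ≠ x ∧ z ≠ y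

variable {V : Type} {R : V → V → Prop} {L : ℕ} {c : ℕ → V}

theorem Gg.irr (h : Gg R) (x : V) : ¬ R x x := fun h1 => h.tri x x x h1 h1 h1

/-- a list of vertices outside of the circuit which is a path -/
structure OP (R : V → V → Prop) (c : ℕ → V) (q : List V) : Prop where
  nd : q.Nodup
  ch : List.IsChain R q
  out : ∀ x ∈ q, ∀ i, c i ≠ x

/-- no circuit has more than `L` vertices -/
def NL (R : V → V → Prop) (L : ℕ) : Prop :=
  ∀ (a : V) (m : List V), (a :: m).Nodup → List.IsChain R (a :: (m ++ [a])) → m.length + 1 ≤ L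

theorem gap_fwd (h : PC R L c) (hnl : NL R L) {q : List V} (hq : OP R c q) (hne : q ≠ [])
    {i j : ℕ} (hij : i < j) (hj : j < i + L) (h1 : ∀ x ∈ q.head?, R (c i) x)
    (h2 : ∀ x ∈ q.getLast?, R x (c j)) : q.length + 1 ≤ j - i := by
  obtain ⟨k, hk⟩ : ∃ k, i + L = j + k := ⟨i + L - j, by omega⟩
  have hnd : (c j :: (arc c (j + 1) k ++ q)).Nodup := by
    have h3 : c j :: (arc c (j + 1) k ++ q) = arc c j (k + 1) ++ q := by
      rw [arc_cons, List.cons_append]
    rw [h3, List.nodup_append]
    refine ⟨h.arc_nodup j (by omega), hq.nd, ?_⟩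
    intro x hx y hy hxy
    subst hxy
    obtain ⟨t, _, ht⟩ := mem_arc.1 hx
    exact hq.out x hy _ ht
  have hch : List.IsChain R (c j :: ((arc c (j + 1) k ++ q) ++ [c j])) := by
    have h3 : c j :: ((arc c (j + 1) k ++ q) ++ [c j]) = arc c j (k + 1) ++ (q ++ [c j]) := by
      rw [arc_cons]
      simp
    rw [h3, List.isChain_append]
    refine ⟨h.arc_chain j (k + 1), ?_, ?_⟩
    · rw [List.isChain_append]
      refine ⟨hq.ch, by simp, ?_⟩
      intro x hx y hy
      simp only [List.head?_cons, Option.mem_def, Option.some.injEq] at hy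
      subst hy
      exact h2 x hx
    · intro x hx y hy
      rw [arc_succ, List.getLast?_append] at hx
      simp only [List.getLast?_singleton, Option.some_or, Option.mem_def, Option.some.injEq] at hx
      have h4 : c (j + k) = c i := by rw [← hk, h.per]
      rw [h4] at hx
      subst hx
      refine h1 y ?_
      cases q with
      | nil => exact absurd rfl hne
      | cons z q => simpa using hy
  have h5 := hnl _ _ hnd hch
  rw [List.length_append, arc_length] at h5
  omega

theorem OP.reverse (hR : ∀ x y, R x y → R y x) {q : List V} (hq : OP R c q) : OP R c q.reverse where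
  nd := List.nodup_reverse.2 hq.nd
  ch := by
    rw [List.isChain_reverse]
    exact hq.ch.imp fun x y hxy => hR _ _ hxy
  out := fun x hx => hq.out x (List.mem_reverse.1 hx)

/-- **the gap lemma** -/
theorem gap (hG : Gg R) (h : PC R L c) (hnl : NL R L) {q : List V} (hq : OP R c q) (hne : q ≠ [])
    {i j : ℕ} (hi : i < L) (hj : j < L) (h1 : ∀ x ∈ q.head?, R x (c i))
    (h2 : ∀ x ∈ q.getLast?, R x (c j)) : D L i j (q.length + 1) := by
  have hq' := hq.reverse hG.symm
  have hne' : q.reverse ≠ [] := by simpa using hne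
  constructor
  · intro hij
    have g1 := gap_fwd h hnl hq hne hij (by omega) (fun x hx => hG.symm _ _ (h1 x hx)) h2
    have g2 := gap_fwd h hnl hq' hne' (i := j) (j := i + L) (by omega) (by omega)
      (fun x hx => hG.symm _ _ (h2 x (by simpa using hx)))
      (fun x hx => by rw [h.per]; exact h1 x (by simpa using hx))
    rw [List.length_reverse] at g2
    omega
  · intro hij
    have g1 := gap_fwd h hnl hq' hne' hij (by omega)
      (fun x hx => hG.symm _ _ (h2 x (by simpa using hx))) (fun x hx => h1 x (by simpa using hx))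
    have g2 := gap_fwd h hnl hq hne (i := i) (j := j + L) (by omega) (by omega)
      (fun x hx => hG.symm _ _ (h1 x hx)) (fun x hx => by rw [h.per]; exact h2 x hx)
    rw [List.length_reverse] at g1
    omega

/-- two neighbours on the circuit of a vertex outside -/
theorem near_fwd (hG : Gg R) (h : PC R L c) {u : V} (hu : ∀ i, c i ≠ u) {i j : ℕ}
    (hij : i < j) (hj : j < i + L) (h1 : R u (c i)) (h2 : R u (c j)) : 3 ≤ j - i := by
  by_contra hlt
  have h3 : j = i + 1 ∨ j = i + 2 := by omega
  rcases h3 with rfl | rfl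
  · exact hG.tri _ _ _ h1 (h.adj i) (hG.symm _ _ h2)
  · refine hG.four u (c i) (c (i + 1)) (c (i + 2)) (hu _).symm ?_ h1 (h.adj i) (h.adj (i + 1))
      (hG.symm _ _ h2)
    intro h4
    have h5 := (h.eq_iff _ _).1 h4
    have h6 : (i + 2 - i) % L = 0 := by
      have h7 : i ≡ i + 2 [MOD L] := h5
      have := (Nat.modEq_iff_dvd' (by omega : i ≤ i + 2)).1 h7
      exact Nat.mod_eq_zero_of_dvd this
    have h8 : (2 : ℕ) % L = 0 := by
      have : i + 2 - i = 2 := by omega
      rwa [this] at h6
    rw [Nat.mod_eq_of_lt (by omega)] at h8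
    omega

theorem near (hG : Gg R) (h : PC R L c) {u : V} (hu : ∀ i, c i ≠ u) {i j : ℕ}
    (hi : i < L) (hj : j < L) (h1 : R u (c i)) (h2 : R u (c j)) : D L i j 3 := by
  constructor
  · intro hij
    have g1 := near_fwd hG h hu hij (by omega) h1 h2
    have g2 := near_fwd hG h hu (i := j) (j := i + L) (by omega) (by omega) h2
      (by rw [h.per]; exact h1)
    omega
  · intro hij
    have g1 := near_fwd hG h hu hij (by omega) h2 h1
    have g2 := near_fwd hG h hu (i := i) (j := j + L) (by omega) (by omega) h1
      (by rw [h.per]; exact h2)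
    omega

/-- no circuit with at least five vertices outside -/
def NC (R : V → V → Prop) (c : ℕ → V) : Prop :=
  ∀ (a : V) (m : List V), OP R c (a :: m) → List.IsChain R (a :: (m ++ [a])) →
    5 ≤ m.length + 1 → False

/-- the end of a longest path outside has two neighbours on the circuit -/
theorem end_two (hG : Gg R) (h : PC R L c) (hnc : NC R c) {x y : V} {t : List V}
    (hq : OP R c (x :: y :: t)) (hmax : ∀ q, OP R c q → q.length ≤ (x :: y :: t).length) :
    ∃ i j, i < j ∧ j < L ∧ R x (c i) ∧ R x (c j) := by
  have hxy : R x y := by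
    have := hq.ch
    rw [List.isChain_cons_cons] at this
    exact this.1
  have key : ∀ z, R x z → z ≠ y → ∃ i < L, c i = z := by
    intro z hz hzy
    by_contra hcon
    push Not at hcon
    have hout : ∀ i, c i ≠ z := by
      intro i hi
      rw [← h.mod i] at hi
      exact hcon _ (Nat.mod_lt _ h.pos) hi
    have hzx : z ≠ x := by
      rintro rfl
      exact hG.irr _ hz
    by_cases hmem : z ∈ x :: y :: t
    · have hzt : z ∈ t := by
        simp only [List.mem_cons] at hmem
        tauto
      obtain ⟨t1, t2, rfl⟩ := List.append_of_mem hzt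
      have hpre : OP R c (x :: (y :: (t1 ++ [z]))) := by
        have h3 : x :: y :: (t1 ++ z :: t2) = (x :: (y :: (t1 ++ [z]))) ++ t2 := by simp
        rw [h3] at hq
        exact ⟨(List.nodup_append.1 hq.nd).1, (List.isChain_append.1 hq.ch).1,
          fun w hw => hq.out w (List.mem_append_left _ hw)⟩
      have hclo : List.IsChain R (x :: ((y :: (t1 ++ [z])) ++ [x])) := by
        have h4 : x :: ((y :: (t1 ++ [z])) ++ [x]) = (x :: (y :: (t1 ++ [z]))) ++ [x] := by simp
        rw [h4, List.isChain_append]
        refine ⟨hpre.ch, by simp, ?_⟩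
        intro w hw w' hw'
        have h5 : (x :: (y :: (t1 ++ [z]))).getLast? = some z := by
          rw [show x :: (y :: (t1 ++ [z])) = (x :: y :: t1) ++ [z] by simp, List.getLast?_concat]
        rw [h5] at hw
        simp only [Option.mem_def, Option.some.injEq, List.head?_cons] at hw hw'
        subst hw
        subst hw'
        exact hG.symm _ _ hz
      refine hnc x (y :: (t1 ++ [z])) hpre hclo ?_
      by_contra hlen
      simp only [List.length_cons, List.length_append, List.length_nil] at hlen
      rcases t1 with _ | ⟨a, _ | ⟨b, t1⟩⟩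
      · -- a triangle
        have h6 := hpre.ch
        simp only [List.nil_append, List.isChain_cons_cons] at h6
        exact hG.tri x y z h6.1 h6.2.1 (hG.symm _ _ hz)
      · have h6 := hpre.ch
        simp only [List.cons_append, List.nil_append, List.isChain_cons_cons] at h6
        have h7 := hpre.nd
        simp only [List.cons_append, List.nil_append, List.nodup_cons, List.mem_cons,
          List.not_mem_nil, or_false, not_or] at h7
        exact hG.four x y a z h7.1.2.1 h7.2.1.2 h6.1 h6.2.1 h6.2.2.1 (hG.symm _ _ hz)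
      · simp at hlen
    · have h3 := hmax (z :: x :: y :: t) ⟨List.nodup_cons.2 ⟨hmem, hq.nd⟩,
        List.isChain_cons_cons.2 ⟨hG.symm _ _ hz, hq.ch⟩, by
          intro w hw
          rcases List.mem_cons.1 hw with rfl | hw
          · exact hout
          · exact hq.out w hw⟩
      simp only [List.length_cons] at h3
      omega
  obtain ⟨z1, a1, a2, _⟩ := hG.deg x y hxy y y
  obtain ⟨z2, b1, b2, b3⟩ := hG.deg x y hxy y z1
  obtain ⟨i, hi, hi2⟩ := key z1 a1 a2
  obtain ⟨j, hj, hj2⟩ := key z2 b1 b2
  have hij : i ≠ j := by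
    rintro rfl
    exact b3 (hj2.symm.trans hi2)
  rcases Nat.lt_or_gt_of_ne hij with h1 | h1
  · exact ⟨i, j, h1, hj, by rw [hi2]; exact a1, by rw [hj2]; exact b1⟩
  · exact ⟨j, i, h1, hi, by rw [hj2]; exact b1, by rw [hi2]; exact a1⟩

end Pool.Agent.W5h14.Circ
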