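import Pool.Agent.H79.LF.W5h14_Circ_Out
import Pool.Agent.H79.LF.W5h14_Circ_TwoC
import Pool.Agent.H79.LF.W5h14_Circ_Fin

/-!
# Graphs of girth at least five without circuits with more than 15 vertices
-/

set_option autoImplicit false

namespace Pool.Agent.W5h14.Circ

variable {V : Type} {R : V → V → Prop} {L : ℕ} {c : ℕ → V}

/-- there is a circuit with at least three vertices -/
theorem exists_circuit [Finite V] (hG : Gg R) {v w : V} (hvw : R v w) :
    ∃ k, 3 ≤ k ∧ ∃ c, PC R k c := by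
  classical
  have := Fintype.ofFinite V
  let P : ℕ → Prop := fun n => ∃ q : List V, (q.Nodup ∧ List.IsChain R q) ∧ q.length = n
  have hne : v ≠ w := by
    rintro rfl
    exact hG.irr _ hvw
  have hb : ∀ q : List V, q.Nodup → q.length ≤ Fintype.card V := fun q hq => hq.length_le_card
  have h0 : P 2 := ⟨[v, w], ⟨by simp [hne], by simp [hvw]⟩, rfl⟩
  have h2 : 2 ≤ Fintype.card V := by
    obtain ⟨q, ⟨q1, _⟩, q3⟩ := h0
    rw [← q3]
    exact hb q q1
  have h1 : P (Nat.findGreatest P (Fintype.card V)) := Nat.findGreatest_spec (P := P) h2 h0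
  have h3 : 2 ≤ Nat.findGreatest P (Fintype.card V) := Nat.le_findGreatest h2 h0
  obtain ⟨q, ⟨q1, q2⟩, q3⟩ := h1
  have hmax : ∀ q' : List V, q'.Nodup → List.IsChain R q' → q'.length ≤ q.length := by
    intro q' a b
    rw [q3]
    exact Nat.le_findGreatest (hb q' a) ⟨q', ⟨a, b⟩, rfl⟩
  rw [← q3] at h3
  clear q3
  rcases q with _ | ⟨x, _ | ⟨y, t⟩⟩
  · simp at h3
  · simp at h3
  · have hxy : R x y := by
      rw [List.isChain_cons_cons] at q2
      exact q2.1
    obtain ⟨z, z1, z2, _⟩ := hG.deg x y hxy y y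
    have hzx : z ≠ x := by
      rintro rfl
      exact hG.irr _ z1
    have hzt : z ∈ t := by
      by_contra hcon
      have hmem : z ∉ x :: y :: t := by
        simp only [List.mem_cons, not_or]
        exact ⟨hzx, z2, hcon⟩
      have := hmax (z :: x :: y :: t) (List.nodup_cons.2 ⟨hmem, q1⟩)
        (List.isChain_cons_cons.2 ⟨hG.symm _ _ z1, q2⟩)
      simp only [List.length_cons] at this
      omega
    obtain ⟨t1, t2, rfl⟩ := List.append_of_mem hzt
    have e : x :: y :: (t1 ++ z :: t2) = (x :: (y :: (t1 ++ [z]))) ++ t2 := by simp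
    rw [e] at q1 q2
    have hn := (List.nodup_append.1 q1).1
    have hc := (List.isChain_append.1 q2).1
    have hclo : List.IsChain R (x :: ((y :: (t1 ++ [z])) ++ [x])) := by
      have h4 : x :: ((y :: (t1 ++ [z])) ++ [x]) = (x :: (y :: (t1 ++ [z]))) ++ [x] := by simp
      rw [h4, List.isChain_append]
      refine ⟨hc, by simp, ?_⟩
      intro w hw w' hw'
      have h5 : (x :: (y :: (t1 ++ [z]))).getLast? = some z := by
        rw [show x :: (y :: (t1 ++ [z])) = (x :: y :: t1) ++ [z] by simp, List.getLast?_concat]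
      rw [h5] at hw
      simp only [Option.mem_def, Option.some.injEq, List.head?_cons] at hw hw'
      subst hw
      subst hw'
      exact hG.symm _ _ z1
    obtain ⟨c, hc', _⟩ := PC.ofList hn hclo
    exact ⟨_, by simp, c, hc'⟩

/-- circuits have at least five vertices -/
theorem PC.five (hG : Gg R) (h : PC R L c) (h3 : 3 ≤ L) : 5 ≤ L := by
  by_contra hlt
  have h34 : L = 3 ∨ L = 4 := by omega
  have a0 := h.adj 0
  have a1 := h.adj 1
  have a2 := h.adj 2
  have a3 := h.adj 3
  rcases h34 with rfl | rfl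
  · have h5 : c 3 = c 0 := h.per 0
    simp only [Nat.reduceAdd] at a0 a1 a2
    rw [h5] at a2
    exact hG.tri _ _ _ a0 a1 a2
  · have h5 : c 4 = c 0 := h.per 0
    simp only [Nat.reduceAdd] at a0 a1 a2 a3
    rw [h5] at a3
    refine hG.four _ _ _ _ ?_ ?_ a0 a1 a2 a3
    · intro h6
      have := h.inj 0 2 (by omega) (by omega) h6
      omega
    · intro h6
      have := h.inj 1 3 (by omega) (by omega) h6
      omega

/-- **The main theorem on graphs.** -/
theorem main_abs [Finite V] (hG : Gg R) (hcon : Con R)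
    (hcirc : ∀ k, 15 < k → ∀ c : ℕ → V, ¬ PC R k c)
    (hmany : ∀ S : Finset V, S.card < 18 → ∃ v, v ∉ S ∧ ∃ w, R v w) : False := by
  classical
  have := Fintype.ofFinite V
  obtain ⟨v0, _, w0, hvw⟩ := hmany ∅ (by simp)
  obtain ⟨k0, hk0, hc0⟩ := exists_circuit hG hvw
  -- a longest circuit
  let P : ℕ → Prop := fun k => ∃ c : ℕ → V, PC R k c
  have hb : ∀ k, P k → k ≤ 15 := by
    rintro k ⟨c, hc⟩
    by_contra hlt
    exact hcirc k (by omega) c hc
  obtain ⟨c1, hc1⟩ : P (Nat.findGreatest P 15) := Nat.findGreatest_spec (P := P) (hb _ hc0) hc0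
  have hk : 3 ≤ Nat.findGreatest P 15 := hk0.trans (Nat.le_findGreatest (hb _ hc0) hc0)
  have hmax : ∀ k, Nat.findGreatest P 15 < k → ∀ c : ℕ → V, ¬ PC R k c := by
    intro k hk c hc
    have := Nat.le_findGreatest (hb k ⟨c, hc⟩) (show P k from ⟨c, hc⟩)
    omega
  have hL15 : Nat.findGreatest P 15 ≤ 15 := Nat.findGreatest_le 15
  generalize Nat.findGreatest P 15 = L at hc1 hk hmax hL15
  have hL5 : 5 ≤ L := hc1.five hG hk
  have hnl : NL R L := fun a m h1 h2 => nl_of hmax h1 h2
  have hnc := nc_of hG hc1 hnl hL5 hL15 hcon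
  have hp3 : ∀ {x y z : V}, (∀ i, c1 i ≠ x) → (∀ i, c1 i ≠ y) → (∀ i, c1 i ≠ z) → R x y →
      R y z → x = z := fun hx hy hz hxy hyz => p3 hG hc1 hnl hnc hL15 hx hy hz hxy hyz
  -- a vertex outside with two neighbours on the circuit
  let Q : ℕ → Prop := fun g => ∃ u i, (∀ j, c1 j ≠ u) ∧ 0 < g ∧ g < L ∧ R u (c1 i) ∧ R u (c1 (i + g))
  have hQ : ∃ g, Q g := by
    obtain ⟨u, hu, w, huw⟩ := hmany ((Finset.range L).image c1)
      (lt_of_le_of_lt Finset.card_image_le (by rw [Finset.card_range]; omega))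
    have hout : ∀ j, c1 j ≠ u := by
      intro j hj
      refine hu (Finset.mem_image.2 ⟨j % L, Finset.mem_range.2 (Nat.mod_lt _ hc1.pos), ?_⟩)
      rw [hc1.mod, hj]
    have htwo : ∃ z1 z2, z1 ≠ z2 ∧ (∃ i, c1 i = z1) ∧ (∃ i, c1 i = z2) ∧ R u z1 ∧ R u z2 := by
      obtain ⟨z1, a1, -, -⟩ := hG.deg u w huw u u
      obtain ⟨z2, b1, b2, -⟩ := hG.deg u w huw z1 z1
      obtain ⟨z3, d1, d2, d3⟩ := hG.deg u w huw z1 z2
      by_cases e1 : ∃ i, c1 i = z1
      · by_cases e2 : ∃ i, c1 i = z2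
        · exact ⟨z1, z2, b2.symm, e1, e2, a1, b1⟩
        · by_cases e3 : ∃ i, c1 i = z3
          · exact ⟨z1, z3, d2.symm, e1, e3, a1, d1⟩
          · push Not at e2 e3
            exact absurd (hp3 e2 hout e3 (hG.symm _ _ b1) d1) d3.symm
      · by_cases e2 : ∃ i, c1 i = z2
        · by_cases e3 : ∃ i, c1 i = z3
          · exact ⟨z2, z3, d3.symm, e2, e3, b1, d1⟩
          · push Not at e1 e3
            exact absurd (hp3 e1 hout e3 (hG.symm _ _ a1) d1) d2.symm
        · push Not at e1 e2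
          exact absurd (hp3 e1 hout e2 (hG.symm _ _ a1) b1) b2.symm
    obtain ⟨_, _, hne, ⟨i, rfl⟩, ⟨j, rfl⟩, h1, h2⟩ := htwo
    rw [← hc1.mod i] at hne h1
    rw [← hc1.mod j] at hne h2
    have hi := Nat.mod_lt i hc1.pos
    have hj := Nat.mod_lt j hc1.pos
    generalize i % L = i at *
    generalize j % L = j at *
    rcases Nat.lt_trichotomy i j with h3 | h3 | h3
    · exact ⟨j - i, u, i, hout, by omega, by omega, h1, by
        rw [show i + (j - i) = j by omega]; exact h2⟩
    · subst h3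
      exact absurd rfl hne
    · exact ⟨i - j, u, j, hout, by omega, by omega, h2, by
        rw [show j + (i - j) = i by omega]; exact h1⟩
  obtain ⟨u, s, hu, hg0, hgL, r1, r2⟩ := Nat.find_spec hQ
  have hmin : ∀ g, Q g → Nat.find hQ ≤ g := fun g hg => Nat.find_min' hQ hg
  generalize Nat.find hQ = g at hg0 hgL r1 r2 hmin
  -- the other distance
  have hback : ∀ {u : V} {i d : ℕ}, (∀ j, c1 j ≠ u) → 0 < d → d < L → R u (c1 i) →
      R u (c1 (i + d)) → g ≤ d ∧ g ≤ L - d := by
    intro u i d hu h1 h2 h3 h4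
    refine ⟨hmin d ⟨u, i, hu, h1, h2, h3, h4⟩, hmin (L - d) ⟨u, i + d, hu, by omega, by omega,
      h4, ?_⟩⟩
    rw [show i + d + (L - d) = i + L by omega, hc1.per]
    exact h3
  have hg2 : 2 * g ≤ L := by
    have := (hback hu hg0 hgL r1 r2).2
    omega
  have hg3 : 3 ≤ g := by
    have := near_fwd hG hc1 hu (i := s) (j := s + g) (by omega) (by omega) r1 r2
    omega
  -- the rotated circuit
  have hc := hc1.rot s
  set c : ℕ → V := fun i => c1 (i + s) with hcdef
  have hin : ∀ x, (∀ i < L, c i ≠ x) → ∀ j, c1 j ≠ x := by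
    intro x hx j hj
    have h1 : c (j + L * s - s) = c1 j := by
      have h2 : s ≤ L * s := Nat.le_mul_of_pos_left s hc1.pos
      rw [hcdef]
      simp only
      rw [show j + L * s - s + s = j + L * s by omega, hc1.per_mul]
    rw [← hc.mod] at h1
    exact hx _ (Nat.mod_lt _ hc1.pos) (h1.trans hj)
  have H : Hy R L g c := by
    refine ⟨hG.symm, hG.tri, hG.four, hG.deg, hnl, hmany, ?_, ?_⟩
    · intro x y z hx hy hz hxy hyz
      exact hp3 (hin x hx) (hin y hy) (hin z hz) hxy hyz
    · intro u hu i j hij hj h1 h2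
      have h3 : R u (c1 (i + s + (j - i))) := by
        rw [show i + s + (j - i) = j + s by omega]
        exact h2
      exact hback (hin u hu) (by omega) (by omega) h1 h3
  refine start_emb H (by omega) hgL hc.inj ?_ (u := u) (fun i _ => hu _) ?_ ?_
    (root L g hL15 hg3 hg2 H)
  · intro i hi
    rw [hc.mod]
    exact hc.adj i
  · rw [hcdef]
    simp only
    rw [Nat.zero_add]
    exact r1
  · rw [hcdef]
    simp only
    rw [Nat.add_comm]
    exact r2

end Pool.Agent.W5h14.Circ
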